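import Pool.Graph.R_seed8.Y504.CO.Eig2

/-!
# The number of eigenvalues outside of the unit circle
-/

set_option autoImplicit false
set_option linter.unusedSectionVars false

open Filter Set Metric Polynomial
open scoped Topology

namespace Pool.Agent.H245.SH

variable {E : Type} [NormedAddCommGroup E] [InnerProductSpace ℝ E] [FiniteDimensional ℝ E]

/-- the complex characteristic polynomial -/
noncomputable def cp (A : E →L[ℝ] E) : ℂ[X] :=
  (LinearMap.charpoly (A : E →ₗ[ℝ] E)).map (algebraMap ℝ ℂ)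

/-- no eigenvalue of modulus one -/
def NoOne (A : E →L[ℝ] E) : Prop := ∀ μ : ℂ, (cp A).IsRoot μ → ‖μ‖ ≠ 1

/-- the number of eigenvalues of modulus `> 1` -/
noncomputable def idx (A : E →L[ℝ] E) : ℕ := ((cp A).roots.filter (fun z => 1 < ‖z‖)).card

theorem cp_monic (A : E →L[ℝ] E) : (cp A).Monic := (LinearMap.charpoly_monic _).map _

theorem cp_ne_zero (A : E →L[ℝ] E) : cp A ≠ 0 := (cp_monic A).ne_zero

theorem cp_natDegree (A : E →L[ℝ] E) : (cp A).natDegree = Module.finrank ℝ E := by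
  unfold cp
  rw [(LinearMap.charpoly_monic _).natDegree_map, LinearMap.charpoly_natDegree]

theorem cp_card_roots (A : E →L[ℝ] E) : (cp A).roots.card = Module.finrank ℝ E := by
  rw [← cp_natDegree A]
  exact (IsAlgClosed.splits (cp A)).natDegree_eq_card_roots.symm

/-- a root gives a pair of vectors -/
theorem pair_of_root (A : E →L[ℝ] E) {μ : ℂ} (h : (cp A).IsRoot μ) :
    ∃ u w : E, (u ≠ 0 ∨ w ≠ 0) ∧ A u = μ.re • u - μ.im • w ∧ A w = μ.im • u + μ.re • w :=
  Pool.Agent.Y38.CO.EIG.eig_of_root (A : E →ₗ[ℝ] E) μ h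

theorem root_of_pair (A : E →L[ℝ] E) {μ : ℂ} {u w : E} (hne : u ≠ 0 ∨ w ≠ 0)
    (hu : A u = μ.re • u - μ.im • w) (hw : A w = μ.im • u + μ.re • w) : (cp A).IsRoot μ :=
  Pool.Agent.Y504.CO.Eig2.root_of_eig (A : E →ₗ[ℝ] E) μ u w hne hu hw

theorem pair_norm {μ : ℂ} {u w : E} :
    ‖μ.re • u - μ.im • w‖ ^ 2 + ‖μ.im • u + μ.re • w‖ ^ 2 = ‖μ‖ ^ 2 * (‖u‖ ^ 2 + ‖w‖ ^ 2) := by
  rw [norm_sub_sq_real, norm_add_sq_real, norm_smul, norm_smul, norm_smul, norm_smul,
    inner_smul_left, inner_smul_left, inner_smul_right, inner_smul_right, Complex.sq_norm,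
    Complex.normSq_apply]
  simp only [mul_pow, Real.norm_eq_abs, sq_abs, conj_trivial]
  ring

theorem root_norm_le (A : E →L[ℝ] E) {μ : ℂ} (h : (cp A).IsRoot μ) : ‖μ‖ ≤ ‖A‖ := by
  obtain ⟨u, w, hne, hu, hw⟩ := pair_of_root A h
  have h1 := pair_norm (μ := μ) (u := u) (w := w)
  rw [← hu, ← hw] at h1
  have h2 : ‖A u‖ ^ 2 ≤ (‖A‖ * ‖u‖) ^ 2 := pow_le_pow_left₀ (norm_nonneg _) (A.le_opNorm u) 2
  have h3 : ‖A w‖ ^ 2 ≤ (‖A‖ * ‖w‖) ^ 2 := pow_le_pow_left₀ (norm_nonneg _) (A.le_opNorm w) 2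
  have h4 : 0 < ‖u‖ ^ 2 + ‖w‖ ^ 2 := by
    rcases hne with h | h
    · have := norm_pos_iff.2 h
      positivity
    · have := norm_pos_iff.2 h
      positivity
  have h5 : ‖μ‖ ^ 2 ≤ ‖A‖ ^ 2 := by
    have : ‖μ‖ ^ 2 * (‖u‖ ^ 2 + ‖w‖ ^ 2) ≤ ‖A‖ ^ 2 * (‖u‖ ^ 2 + ‖w‖ ^ 2) := by
      rw [← h1]
      nlinarith
    exact le_of_mul_le_mul_right this h4
  exact (pow_le_pow_iff_left₀ (norm_nonneg _) (norm_nonneg _) two_ne_zero).1 h5

theorem multiset_tuple {α : Type*} (s : Multiset α) {n : ℕ} (h : s.card = n) :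
    ∃ r : Fin n → α, s = Finset.univ.val.map r := by
  subst h
  obtain ⟨l, rfl⟩ := Quot.exists_rep s
  refine ⟨fun i => l.get ⟨i, i.2⟩, ?_⟩
  rw [Fin.univ_val_map]
  change (l : Multiset α) = _
  congr 1
  exact (List.ofFn_get l).symm

theorem eval_prod (A : E →L[ℝ] E) {r : Fin (Module.finrank ℝ E) → ℂ}
    (hr : (cp A).roots = Finset.univ.val.map r) : cp A = ∏ i, (X - C (r i)) := by
  have h1 := (IsAlgClosed.splits (cp A)).eq_prod_roots_of_monic (cp_monic A)
  rw [hr, Multiset.map_map] at h1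
  exact h1

theorem cp_eval_real (A : E →L[ℝ] E) (t : ℝ) :
    (cp A).eval (t : ℂ) = ((LinearMap.det (t • (LinearMap.id : E →ₗ[ℝ] E) - (A : E →ₗ[ℝ] E)) : ℝ) : ℂ) := by
  unfold cp
  have h1 : ((LinearMap.charpoly (A : E →ₗ[ℝ] E)).map (algebraMap ℝ ℂ)).eval (t : ℂ) =
      (((LinearMap.charpoly (A : E →ₗ[ℝ] E)).eval t : ℝ) : ℂ) := by
    have := Polynomial.eval_map_algebraMap (LinearMap.charpoly (A : E →ₗ[ℝ] E)) (t : ℂ)
    rw [this]
    exact Polynomial.aeval_algebraMap_apply ℂ t (LinearMap.charpoly (A : E →ₗ[ℝ] E))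
  rw [h1]
  congr 1
  classical
  set b := Module.finBasis ℝ E
  rw [← LinearMap.charpoly_toMatrix (A : E →ₗ[ℝ] E) b, Matrix.eval_charpoly, ← LinearMap.det_toMatrix b]
  congr 1
  rw [map_sub, map_smul, LinearMap.toMatrix_id]
  congr 1
  rw [Matrix.smul_one_eq_diagonal]
  rfl

theorem continuous_det_sub (t : ℝ) :
    Continuous fun A : E →L[ℝ] E =>
      LinearMap.det (t • (LinearMap.id : E →ₗ[ℝ] E) - (A : E →ₗ[ℝ] E)) := by
  have h1 : Continuous fun A : E →L[ℝ] E => ContinuousLinearMap.det (t • ContinuousLinearMap.id ℝ E - A) :=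
    ContinuousLinearMap.continuous_det.comp (by fun_prop)
  exact h1

/-- The number of eigenvalues outside of the unit circle is locally constant. -/
theorem idx_locally (A : E →L[ℝ] E) (hA : NoOne A) : ∀ᶠ B in 𝓝 A, idx B = idx A := by
  by_contra hcon
  have hfr : ∃ᶠ B in 𝓝 A, idx B ≠ idx A := not_eventually.1 hcon
  obtain ⟨B, hBA, hB⟩ := exists_seq_forall_of_frequently hfr
  have h1 : ∀ k, ∃ r : Fin (Module.finrank ℝ E) → ℂ, (cp (B k)).roots = Finset.univ.val.map r :=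
    fun k => multiset_tuple _ (cp_card_roots _)
  choose r hr using h1
  have hbd : ∀ k i, ‖r k i‖ ≤ ‖B k‖ := by
    intro k i
    apply root_norm_le
    have : r k i ∈ (cp (B k)).roots := by
      rw [hr]
      exact Multiset.mem_map_of_mem _ (Finset.mem_univ_val i)
    exact isRoot_of_mem_roots this
  obtain ⟨R, hR⟩ : ∃ R : ℝ, ∀ k, ‖B k‖ ≤ R := by
    obtain ⟨R, hR⟩ := hBA.norm.bddAbove_range
    exact ⟨R, fun k => hR ⟨k, rfl⟩⟩
  have hcomp : IsCompact (closedBall (0 : Fin (Module.finrank ℝ E) → ℂ) (max R 0)) :=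
    isCompact_closedBall _ _
  obtain ⟨ρ, -, φ, hφ, hlim⟩ := hcomp.tendsto_subseq (x := r) (fun k => by
    rw [mem_closedBall, dist_zero_right, pi_norm_le_iff_of_nonneg (le_max_right _ _)]
    exact fun i => ((hbd k i).trans (hR k)).trans (le_max_left _ _))
  -- the limit polynomial
  have hev : ∀ t : ℝ, (cp A).eval (t : ℂ) = (∏ i, (X - C (ρ i))).eval (t : ℂ) := by
    intro t
    have e1 : Tendsto (fun k => (cp (B (φ k))).eval (t : ℂ)) atTop (𝓝 ((cp A).eval (t : ℂ))) := by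
      simp only [cp_eval_real]
      exact (Complex.continuous_ofReal.tendsto _).comp
        (((continuous_det_sub t).tendsto A).comp (hBA.comp hφ.tendsto_atTop))
    have e2 : Tendsto (fun k => (cp (B (φ k))).eval (t : ℂ)) atTop
        (𝓝 ((∏ i, (X - C (ρ i))).eval (t : ℂ))) := by
      have e3 : ∀ k, (cp (B (φ k))).eval (t : ℂ) = ∏ i, ((t : ℂ) - r (φ k) i) := by
        intro k
        rw [eval_prod _ (hr (φ k)), Polynomial.eval_prod]
        simp
      simp only [e3]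
      rw [Polynomial.eval_prod]
      simp only [eval_sub, eval_X, eval_C]
      apply tendsto_finsetProd
      intro i _
      have h5 : Tendsto (fun k => r (φ k) i) atTop (𝓝 (ρ i)) :=
        ((continuous_apply i).tendsto ρ).comp hlim
      exact h5.const_sub _
    exact tendsto_nhds_unique e1 e2
  have hpoly : cp A = ∏ i, (X - C (ρ i)) := by
    apply Polynomial.eq_of_infinite_eval_eq
    have hinf : (range (fun t : ℝ => (t : ℂ))).Infinite :=
      infinite_range_of_injective Complex.ofReal_injective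
    exact hinf.mono (by rintro _ ⟨t, rfl⟩; exact hev t)
  have hroots : (cp A).roots = Finset.univ.val.map ρ := by
    rw [hpoly]
    have := Polynomial.roots_multiset_prod_X_sub_C (Finset.univ.val.map ρ)
    rw [Multiset.map_map] at this
    exact this
  have hidx : ∀ (D : E →L[ℝ] E) (s : Fin (Module.finrank ℝ E) → ℂ),
      (cp D).roots = Finset.univ.val.map s → idx D = (Finset.univ.filter fun i => 1 < ‖s i‖).card := by
    intro D s hs
    unfold idx
    rw [hs, Multiset.filter_map, Multiset.card_map]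
    rfl
  have hev2 : ∀ᶠ k in atTop, ∀ i, (1 < ‖r (φ k) i‖ ↔ 1 < ‖ρ i‖) := by
    rw [eventually_all]
    intro i
    have h5 : Tendsto (fun k => ‖r (φ k) i‖) atTop (𝓝 ‖ρ i‖) :=
      (((continuous_apply i).tendsto ρ).comp hlim).norm
    have h6 : ‖ρ i‖ ≠ 1 := by
      apply hA
      apply isRoot_of_mem_roots
      rw [hroots]
      exact Multiset.mem_map_of_mem _ (Finset.mem_univ_val i)
    rcases lt_or_gt_of_ne h6 with h7 | h7
    · filter_upwards [h5.eventually (gt_mem_nhds h7)] with k hk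
      exact ⟨fun h => absurd h (not_lt.2 hk.le), fun h => absurd h (not_lt.2 h7.le)⟩
    · filter_upwards [h5.eventually (lt_mem_nhds h7)] with k hk
      exact ⟨fun _ => h7, fun _ => hk⟩
  obtain ⟨k, hk⟩ := hev2.exists
  apply hB (φ k)
  rw [hidx _ _ (hr (φ k)), hidx _ _ hroots]
  congr 1
  ext i
  simp [hk i]

/-- The index is constant along paths of maps without eigenvalues of modulus one. -/
theorem idx_path {T : ℝ → E →L[ℝ] E} {a b : ℝ} (hab : a ≤ b) (hT : ContinuousOn T (Icc a b))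
    (h : ∀ t ∈ Icc a b, NoOne (T t)) : idx (T a) = idx (T b) := by
  have hc : ContinuousOn (fun t => idx (T t)) (Icc a b) := by
    intro t ht
    have h1 := idx_locally (T t) (h t ht)
    have h2 : ∀ᶠ s in 𝓝[Icc a b] t, idx (T s) = idx (T t) := (hT t ht).eventually h1
    exact (tendsto_const_nhds.congr' (h2.mono fun s hs => hs.symm))
  exact isPreconnected_Icc.constant hc (left_mem_Icc.2 hab) (right_mem_Icc.2 hab)

end Pool.Agent.H245.SH
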