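import Pool.Agent.H245.SH.A1

/-!
# Maps with a large gap in the singular values have a perturbation with the right index
-/

set_option autoImplicit false
set_option linter.unusedSectionVars false

open Filter Set Metric Polynomial
open scoped Topology

namespace Pool.Agent.H245.SH

variable {E : Type} [NormedAddCommGroup E] [InnerProductSpace ℝ E] [FiniteDimensional ℝ E]

theorem le_of_sq_le_sq' {a b : ℝ} (h : a ^ 2 ≤ b ^ 2) (hb : 0 ≤ b) : a ≤ b := by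
  by_contra hcon
  push Not at hcon
  nlinarith

/-- the euclidean norm of a pair -/
noncomputable def nn (a b : E) : ℝ := ‖(WithLp.toLp 2 (a, b) : WithLp 2 (E × E))‖

theorem nn_sq (a b : E) : nn a b ^ 2 = ‖a‖ ^ 2 + ‖b‖ ^ 2 := by
  unfold nn
  rw [WithLp.prod_norm_sq_eq_of_L2]
  rfl

theorem nn_nonneg (a b : E) : 0 ≤ nn a b := norm_nonneg _

theorem nn_add (a b a' b' : E) : nn (a + a') (b + b') ≤ nn a b + nn a' b' :=
  norm_add_le (WithLp.toLp 2 (a, b) : WithLp 2 (E × E)) (WithLp.toLp 2 (a', b'))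

theorem nn_le {a b a' b' : E} {c : ℝ} (hc : 0 ≤ c) (h1 : ‖a'‖ ≤ c * ‖a‖) (h2 : ‖b'‖ ≤ c * ‖b‖) :
    nn a' b' ≤ c * nn a b := by
  apply le_of_sq_le_sq' _ (mul_nonneg hc (nn_nonneg _ _))
  rw [mul_pow, nn_sq, nn_sq]
  have e1 := pow_le_pow_left₀ (norm_nonneg _) h1 2
  have e2 := pow_le_pow_left₀ (norm_nonneg _) h2 2
  rw [mul_pow] at e1 e2
  linarith

theorem nn_ge {a b a' b' : E} {c : ℝ} (hc : 0 ≤ c) (h1 : c * ‖a‖ ≤ ‖a'‖) (h2 : c * ‖b‖ ≤ ‖b'‖) :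
    c * nn a b ≤ nn a' b' := by
  apply le_of_sq_le_sq' _ (nn_nonneg _ _)
  rw [mul_pow, nn_sq, nn_sq]
  have e1 := pow_le_pow_left₀ (mul_nonneg hc (norm_nonneg _)) h1 2
  have e2 := pow_le_pow_left₀ (mul_nonneg hc (norm_nonneg _)) h2 2
  rw [mul_pow] at e1 e2
  linarith

theorem nn_eq_zero {a b : E} (h : nn a b = 0) : a = 0 ∧ b = 0 := by
  have h1 := nn_sq a b
  rw [h] at h1
  have e1 := sq_nonneg ‖a‖
  have e2 := sq_nonneg ‖b‖
  constructor
  · rw [← norm_eq_zero]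
    nlinarith
  · rw [← norm_eq_zero]
    nlinarith

theorem nn_rot (μ : ℂ) (u w : E) :
    nn (μ.re • u - μ.im • w) (μ.im • u + μ.re • w) = ‖μ‖ * nn u w := by
  have h1 : nn (μ.re • u - μ.im • w) (μ.im • u + μ.re • w) ^ 2 = (‖μ‖ * nn u w) ^ 2 := by
    rw [nn_sq, pair_norm, mul_pow, nn_sq]
  exact (pow_left_inj₀ (nn_nonneg _ _) (mul_nonneg (norm_nonneg _) (nn_nonneg _ _)) two_ne_zero).1 h1

/-- small shifts of contractions are uniformly invertible, for a suitable shift -/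
theorem shift_lemma (E : Type) [NormedAddCommGroup E] [InnerProductSpace ℝ E]
    [FiniteDimensional ℝ E] {δ : ℝ} (hδ : 0 < δ) : ∃ c > 0, ∀ N : E →L[ℝ] E, ‖N‖ ≤ 1 →
    ∃ τ, 0 ≤ τ ∧ τ ≤ δ ∧ ∀ a, c * ‖a‖ ≤ ‖N a + τ • a‖ := by
  have hcomp : IsCompact (closedBall (0 : E →L[ℝ] E) 1) := by
    have : ProperSpace (E →L[ℝ] E) := FiniteDimensional.proper ℝ _
    exact isCompact_closedBall _ _
  suffices h : ∃ c > 0, ∀ N ∈ closedBall (0 : E →L[ℝ] E) 1,
      ∃ τ, 0 ≤ τ ∧ τ ≤ δ ∧ ∀ a, c * ‖a‖ ≤ ‖N a + τ • a‖ by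
    obtain ⟨c, hc, h⟩ := h
    exact ⟨c, hc, fun N hN => h N (by rwa [mem_closedBall, dist_zero_right])⟩
  refine hcomp.induction_on (p := fun S => ∃ c > 0, ∀ N ∈ S,
      ∃ τ, 0 ≤ τ ∧ τ ≤ δ ∧ ∀ a, c * ‖a‖ ≤ ‖N a + τ • a‖) ?_ ?_ ?_ ?_
  · exact ⟨1, one_pos, fun N hN => absurd hN (notMem_empty _)⟩
  · rintro s t hst ⟨c, hc, h⟩
    exact ⟨c, hc, fun N hN => h N (hst hN)⟩
  · rintro s t ⟨c, hc, h⟩ ⟨c', hc', h'⟩
    refine ⟨min c c', lt_min hc hc', ?_⟩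
    rintro N (hN | hN)
    · obtain ⟨τ, h1, h2, h3⟩ := h N hN
      exact ⟨τ, h1, h2, fun a => le_trans (mul_le_mul_of_nonneg_right (min_le_left _ _)
        (norm_nonneg _)) (h3 a)⟩
    · obtain ⟨τ, h1, h2, h3⟩ := h' N hN
      exact ⟨τ, h1, h2, fun a => le_trans (mul_le_mul_of_nonneg_right (min_le_right _ _)
        (norm_nonneg _)) (h3 a)⟩
  · intro N₀ _
    obtain ⟨τ, ⟨hτ0, hτδ⟩, hτ⟩ : ∃ τ ∈ Icc 0 δ, ¬ Module.End.HasEigenvalue (N₀ : E →ₗ[ℝ] E) (-τ) := by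
      by_contra hcon
      push Not at hcon
      have h1 : {μ | Module.End.HasEigenvalue (N₀ : E →ₗ[ℝ] E) μ}.Finite :=
        Module.End.finite_hasEigenvalue _
      have h2 : ((fun τ : ℝ => -τ) '' Icc 0 δ).Infinite :=
        (Icc_infinite hδ).image (fun a _ b _ h => neg_injective h)
      refine h2 (h1.subset ?_)
      rintro _ ⟨τ, hτ, rfl⟩
      exact hcon τ hτ
    have hinj : LinearMap.ker ((N₀ : E →ₗ[ℝ] E) + τ • LinearMap.id) = ⊥ := by
      rw [LinearMap.ker_eq_bot']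
      intro a ha
      by_contra ha0
      apply hτ
      apply Module.End.hasEigenvalue_of_hasEigenvector (x := a)
      refine ⟨?_, ha0⟩
      rw [Module.End.mem_eigenspace_iff]
      have h3 : N₀ a + τ • a = 0 := by simpa using ha
      show N₀ a = (-τ) • a
      rw [neg_smul]
      exact eq_neg_of_add_eq_zero_left h3
    obtain ⟨K, hK, hanti⟩ := LinearMap.exists_antilipschitzWith _ hinj
    have hK' : (0 : ℝ) < K := by exact_mod_cast hK
    have hlow : ∀ a, (K : ℝ)⁻¹ * ‖a‖ ≤ ‖N₀ a + τ • a‖ := by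
      intro a
      have h4 := hanti.le_mul_dist a 0
      rw [map_zero, dist_zero_right, dist_zero_right] at h4
      rw [inv_mul_le_iff₀ hK']
      exact h4
    refine ⟨ball N₀ ((K : ℝ)⁻¹ / 2), mem_nhdsWithin_of_mem_nhds (ball_mem_nhds _ (by positivity)),
      (K : ℝ)⁻¹ / 2, by positivity, fun N hN => ⟨τ, hτ0, hτδ, fun a => ?_⟩⟩
    rw [mem_ball, dist_eq_norm] at hN
    have h5 : ‖(N - N₀) a‖ ≤ (K : ℝ)⁻¹ / 2 * ‖a‖ :=
      (ContinuousLinearMap.le_opNorm _ _).trans (mul_le_mul_of_nonneg_right hN.le (norm_nonneg _))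
    have h6 : N a + τ • a = (N₀ a + τ • a) + (N - N₀) a := by
      rw [ContinuousLinearMap.sub_apply]
      abel
    have h7 : ‖N₀ a + τ • a‖ ≤ ‖N a + τ • a‖ + ‖(N - N₀) a‖ := by
      have : N₀ a + τ • a = (N a + τ • a) - (N - N₀) a := by rw [h6]; abel
      rw [this]
      exact norm_sub_le _ _
    have h8 := hlow a
    have h9 : (K : ℝ)⁻¹ / 2 * ‖a‖ + (K : ℝ)⁻¹ / 2 * ‖a‖ = (K : ℝ)⁻¹ * ‖a‖ := by ring
    linarith

/-- transversality after a small perturbation -/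
theorem trans_lemma (E : Type) [NormedAddCommGroup E] [InnerProductSpace ℝ E]
    [FiniteDimensional ℝ E] {δ : ℝ} (hδ : 0 < δ) : ∃ c > 0, ∀ U Q : Submodule ℝ E,
    Module.finrank ℝ U = Module.finrank ℝ Q → ∃ R : E →L[ℝ] E,
      ‖R - ContinuousLinearMap.id ℝ E‖ ≤ δ ∧ ∀ a ∈ U, c * ‖a‖ ≤ ‖Q.starProjection (R a)‖ := by
  obtain ⟨c, hc, h⟩ := shift_lemma E hδ
  refine ⟨c, hc, fun U Q hUQ => ?_⟩
  let e : U ≃ₗᵢ[ℝ] Q := (stdOrthonormalBasis ℝ U).equiv (stdOrthonormalBasis ℝ Q) (finCongr hUQ)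
  let L : U →ₗᵢ[ℝ] E := Q.subtypeₗᵢ.comp e.toLinearIsometry
  let O : E →ₗᵢ[ℝ] E := L.extend
  have hO : ∀ a ∈ U, O a ∈ Q := by
    intro a ha
    have : O a = L ⟨a, ha⟩ := L.extend_apply ⟨a, ha⟩
    rw [this]
    exact (e ⟨a, ha⟩).2
  let O' : E ≃ₗᵢ[ℝ] E := O.toLinearIsometryEquiv rfl
  have hO' : ∀ a, O' a = O a := fun a => rfl
  let N : E →L[ℝ] E := (O'.symm.toContinuousLinearEquiv : E →L[ℝ] E) ∘L Q.starProjection
  have hN : ∀ a, O' (N a) = Q.starProjection a := fun a => O'.apply_symm_apply _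
  have hN1 : ‖N‖ ≤ 1 := by
    refine ContinuousLinearMap.opNorm_le_bound _ zero_le_one fun a => ?_
    have : ‖N a‖ = ‖Q.starProjection a‖ := by rw [← O'.norm_map (N a), hN]
    rw [this, one_mul]
    exact Q.norm_starProjection_apply_le a
  obtain ⟨τ, hτ0, hτδ, hτ⟩ := h N hN1
  refine ⟨ContinuousLinearMap.id ℝ E + τ • (O.toContinuousLinearMap), ?_, fun a ha => ?_⟩
  · rw [add_sub_cancel_left, norm_smul, Real.norm_of_nonneg hτ0]
    have : ‖O.toContinuousLinearMap‖ ≤ 1 := O.norm_toContinuousLinearMap_le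
    nlinarith
  · have h1 : Q.starProjection ((ContinuousLinearMap.id ℝ E + τ • (O.toContinuousLinearMap)) a) =
        O' (N a + τ • a) := by
      rw [map_add, hN, map_smul, hO']
      show Q.starProjection (a + τ • O a) = _
      rw [map_add, map_smul]
      congr 2
      exact Submodule.starProjection_eq_self_iff.2 (hO a ha)
    rw [h1, O'.norm_map]
    exact hτ a

end Pool.Agent.H245.SH
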