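import Pool.Agent.H245.SH.A2

/-!
# Maps with a large gap in the singular values have a perturbation with the right index
-/

set_option autoImplicit false
set_option linter.unusedSectionVars false

open Filter Set Metric Polynomial
open scoped Topology

namespace Pool.Agent.H245.SH

variable {E : Type} [NormedAddCommGroup E] [InnerProductSpace ℝ E] [FiniteDimensional ℝ E]

theorem star_add (S : Submodule ℝ E) (v : E) : Sᗮ.starProjection v + S.starProjection v = v := by
  rw [Submodule.starProjection_orthogonal]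
  simp

/-- Counting: the nonzero eigenvalues are outside of the unit circle and the generalised kernel
is `S`. -/
theorem idx_eq_of_ker {T : E →L[ℝ] E} {S : Submodule ℝ E} (hS : ∀ v ∈ S, T v = 0)
    (hS' : ∀ v, T v ∈ S → v ∈ S) (hroot : ∀ μ : ℂ, (cp T).IsRoot μ → μ ≠ 0 → 1 < ‖μ‖) :
    idx T + Module.finrank ℝ S = Module.finrank ℝ E := by
  have hk : ∀ (k : ℕ) (v : E), ((T : E →ₗ[ℝ] E) ^ k) v = 0 → v ∈ S := by
    intro k
    induction k with
    | zero =>
      intro v hv
      have : v = 0 := by simpa using hv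
      rw [this]
      exact S.zero_mem
    | succ k ih =>
      intro v hv
      rw [pow_succ] at hv
      exact hS' v (ih _ hv)
  have hgen : Module.End.maxGenEigenspace (T : E →ₗ[ℝ] E) 0 = S := by
    ext v
    rw [Module.End.mem_maxGenEigenspace]
    constructor
    · rintro ⟨k, hk'⟩
      apply hk k
      simpa using hk'
    · intro hv
      refine ⟨1, ?_⟩
      simpa using hS v hv
  have hmult : (cp T).rootMultiplicity 0 = Module.finrank ℝ S := by
    have h1 := LinearMap.finrank_maxGenEigenspace_eq (T : E →ₗ[ℝ] E) 0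
    rw [hgen] at h1
    rw [h1]
    unfold cp
    have h2 := Polynomial.eq_rootMultiplicity_map (p := LinearMap.charpoly (T : E →ₗ[ℝ] E))
      (f := algebraMap ℝ ℂ) (algebraMap ℝ ℂ).injective 0
    rw [map_zero] at h2
    exact h2.symm
  have hcount : (cp T).roots.count 0 = Module.finrank ℝ S := by
    rw [Polynomial.count_roots]
    exact hmult
  have hfil : (cp T).roots.filter (fun z => ¬ 1 < ‖z‖) = (cp T).roots.filter (fun z => (0 : ℂ) = z) := by
    apply Multiset.filter_congr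
    intro z hz
    constructor
    · intro h
      by_contra h0
      exact h (hroot z (isRoot_of_mem_roots hz) (Ne.symm h0))
    · rintro rfl
      simp
  have hcard := cp_card_roots T
  rw [← Multiset.filter_add_not (fun z => 1 < ‖z‖) (cp T).roots, Multiset.card_add, hfil] at hcard
  rw [← hcard, ← hcount, Multiset.count_eq_card_filter_eq]
  rfl

/-- A map with a large gap in the singular values has a small perturbation with the right index. -/
theorem gap_lemma (E : Type) [NormedAddCommGroup E] [InnerProductSpace ℝ E]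
    [FiniteDimensional ℝ E] {δ : ℝ} (hδ : 0 < δ) (hδ1 : δ ≤ 1) : ∃ K₀ ≥ 1, ∀ K ≥ K₀,
    ∀ (Y : E →L[ℝ] E) (S : Submodule ℝ E), (∀ v ∈ S, K * ‖Y v‖ ≤ ‖v‖) →
    (∀ v ∈ Sᗮ, K * ‖v‖ ≤ ‖Y v‖) → ∃ R : E →L[ℝ] E, ‖R - ContinuousLinearMap.id ℝ E‖ ≤ δ ∧
      idx (R ∘L Y) + Module.finrank ℝ S = Module.finrank ℝ E := by
  obtain ⟨c, hc, htr⟩ := trans_lemma E hδ
  refine ⟨max 1 (max (2 / c) (8 / c + 3)), le_max_left _ _, fun K hK Y S hS hSo => ?_⟩
  have hK1 : 1 ≤ K := (le_max_left _ _).trans hK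
  have hK0 : 0 < K := by linarith
  have hKc : 2 ≤ c * K := by
    have h1 : 2 / c ≤ K := ((le_max_left _ _).trans (le_max_right _ _)).trans hK
    rw [div_le_iff₀ hc] at h1
    linarith
  have hK3 : 8 / c + 3 ≤ K := ((le_max_right _ _).trans (le_max_right _ _)).trans hK
  have hrank : Module.finrank ℝ (Sᗮ.map (Y : E →ₗ[ℝ] E)) = Module.finrank ℝ Sᗮ := by
    have h0 : Sᗮ.map (Y : E →ₗ[ℝ] E) = LinearMap.range ((Y : E →ₗ[ℝ] E).domRestrict Sᗮ) :=
      (LinearMap.range_domRestrict _ _).symm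
    rw [h0]
    apply LinearMap.finrank_range_of_inj
    rintro ⟨a, ha⟩ ⟨b, hb⟩ hab
    have hab' : Y a = Y b := hab
    have h1 := hSo (a - b) (Sᗮ.sub_mem ha hb)
    have h2 : Y (a - b) = 0 := by
      rw [map_sub, sub_eq_zero]
      exact hab'
    rw [h2, norm_zero] at h1
    have h3 : ‖a - b‖ = 0 := by
      have := norm_nonneg (a - b)
      nlinarith
    exact Subtype.ext (sub_eq_zero.1 (norm_eq_zero.1 h3))
  obtain ⟨R, hR, hRU⟩ := htr _ _ hrank
  refine ⟨R, hR, ?_⟩
  have hR2 : ∀ v, ‖R v‖ ≤ 2 * ‖v‖ := by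
    intro v
    have h1 : R v = (R - ContinuousLinearMap.id ℝ E) v + v := by simp
    rw [h1]
    have h2 := (R - ContinuousLinearMap.id ℝ E).le_opNorm v
    have h3 := norm_nonneg v
    calc ‖(R - ContinuousLinearMap.id ℝ E) v + v‖ ≤ ‖(R - ContinuousLinearMap.id ℝ E) v‖ + ‖v‖ :=
          norm_add_le _ _
      _ ≤ 1 * ‖v‖ + ‖v‖ := by
        gcongr
        exact h2.trans (mul_le_mul_of_nonneg_right (hR.trans hδ1) h3)
      _ = 2 * ‖v‖ := by ring
  set B : E →L[ℝ] E := R ∘L Y with hB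
  set P : E →L[ℝ] E := Sᗮ.starProjection with hP
  set P' : E →L[ℝ] E := S.starProjection with hP'
  have hPP : ∀ v, P v + P' v = v := star_add S
  have hPm : ∀ v, P v ∈ Sᗮ := fun v => Submodule.starProjection_apply_mem _ _
  have hPm' : ∀ v, P' v ∈ S := fun v => Submodule.starProjection_apply_mem _ _
  have hPn : ∀ v, ‖P v‖ ≤ ‖v‖ := fun v => Submodule.norm_starProjection_apply_le _ v
  have hPn' : ∀ v, ‖P' v‖ ≤ ‖v‖ := fun v => Submodule.norm_starProjection_apply_le _ v
  have h1 : ∀ a ∈ Sᗮ, c * K * ‖a‖ ≤ ‖P (B a)‖ := by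
    intro a ha
    have e1 := hRU (Y a) ⟨a, ha, rfl⟩
    have e2 := hSo a ha
    calc c * K * ‖a‖ = c * (K * ‖a‖) := by ring
      _ ≤ c * ‖Y a‖ := by gcongr
      _ ≤ _ := e1
  have h2 : ∀ a ∈ Sᗮ, ‖P' (B a)‖ ≤ 2 / c * ‖P (B a)‖ := by
    intro a ha
    have e1 := hRU (Y a) ⟨a, ha, rfl⟩
    have e2 : ‖P' (B a)‖ ≤ 2 * ‖Y a‖ := (hPn' _).trans (hR2 _)
    have e3 : 2 / c * ‖P (B a)‖ ≥ 2 / c * (c * ‖Y a‖) := by
      apply mul_le_mul_of_nonneg_left e1 (by positivity)
    have e4 : 2 / c * (c * ‖Y a‖) = 2 * ‖Y a‖ := by field_simp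
    linarith
  have h3 : ∀ b ∈ S, ‖B b‖ ≤ 2 / K * ‖b‖ := by
    intro b hb
    have e1 := hR2 (Y b)
    have e2 := hS b hb
    have e3 : ‖Y b‖ ≤ ‖b‖ / K := by
      rw [le_div_iff₀ hK0]
      linarith
    calc ‖B b‖ ≤ 2 * ‖Y b‖ := e1
      _ ≤ 2 * (‖b‖ / K) := by gcongr
      _ = 2 / K * ‖b‖ := by ring
  -- the path
  let T : ℝ → E →L[ℝ] E := fun t => B ∘L (P + t • P')
  have hT : ∀ t v, T t v = B (P v) + t • B (P' v) := by
    intro t v
    show B (P v + t • P' v) = _
    rw [map_add, map_smul]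
  have hTc : Continuous T := by
    apply Continuous.clm_comp continuous_const
    fun_prop
  have hNo : ∀ t ∈ Icc (0 : ℝ) 1, NoOne (T t) := by
    rintro t ⟨ht0, ht1⟩ μ hμ hμ1
    obtain ⟨u, w, hne, hu, hw⟩ := pair_of_root _ hμ
    obtain ⟨α, hα⟩ : ∃ α, α = nn (P u) (P w) := ⟨_, rfl⟩
    obtain ⟨β, hβ⟩ : ∃ β, β = nn (P' u) (P' w) := ⟨_, rfl⟩
    obtain ⟨X, hX⟩ : ∃ X, X = nn (P (B (P u))) (P (B (P w))) := ⟨_, rfl⟩
    have hα0 : 0 ≤ α := by rw [hα]; exact nn_nonneg _ _
    have hβ0 : 0 ≤ β := by rw [hβ]; exact nn_nonneg _ _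
    have hX0 : 0 ≤ X := by rw [hX]; exact nn_nonneg _ _
    have eα : nn (P (T t u)) (P (T t w)) = α := by
      rw [hu, hw, map_sub, map_add, map_smul, map_smul, map_smul, map_smul, nn_rot, hμ1, one_mul, hα]
    have eβ : nn (P' (T t u)) (P' (T t w)) = β := by
      rw [hu, hw, map_sub, map_add, map_smul, map_smul, map_smul, map_smul, nn_rot, hμ1, one_mul, hβ]
    have hsm : ∀ (Pi : E →L[ℝ] E), (∀ v, ‖Pi v‖ ≤ ‖v‖) → ∀ s : ℝ, |s| ≤ 1 →
        nn (s • Pi (B (P' u))) (s • Pi (B (P' w))) ≤ 2 / K * β := by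
      intro Pi hPi s hs
      rw [hβ]
      have key : ∀ v, ‖s • Pi (B (P' v))‖ ≤ 2 / K * ‖P' v‖ := by
        intro v
        rw [norm_smul, Real.norm_eq_abs]
        calc |s| * ‖Pi (B (P' v))‖ ≤ 1 * ‖B (P' v)‖ :=
              mul_le_mul hs (hPi _) (norm_nonneg _) zero_le_one
          _ = ‖B (P' v)‖ := one_mul _
          _ ≤ _ := h3 _ (hPm' v)
      exact nn_le (by positivity) (key u) (key w)
    have e1 : c * K * α ≤ X := by
      rw [hα, hX]
      exact nn_ge (by positivity) (h1 _ (hPm u)) (h1 _ (hPm w))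
    have e2 : X ≤ α + 2 / K * β := by
      have e3 : ∀ v, P (B (P v)) = P (T t v) + (-t) • P (B (P' v)) := by
        intro v
        rw [hT, map_add, map_smul]
        simp
      rw [hX, e3 u, e3 w]
      refine (nn_add _ _ _ _).trans ?_
      rw [eα]
      gcongr
      exact hsm P hPn (-t) (by rw [abs_neg, abs_of_nonneg ht0]; exact ht1)
    have e4 : β ≤ 2 / c * X + 2 / K * β := by
      have e3 : ∀ v, P' (T t v) = P' (B (P v)) + t • P' (B (P' v)) := by
        intro v
        rw [hT, map_add, map_smul]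
      conv_lhs => rw [← eβ, e3 u, e3 w]
      refine (nn_add _ _ _ _).trans ?_
      gcongr
      · rw [hX]
        exact nn_le (by positivity) (h2 _ (hPm u)) (h2 _ (hPm w))
      · exact hsm P' hPn' t (by rw [abs_of_nonneg ht0]; exact ht1)
    have e5 : α ≤ 2 / K * β := by nlinarith
    have e6 : X ≤ 4 / K * β := by
      have : 4 / K * β = 2 / K * β + 2 / K * β := by ring
      linarith
    have e7 : β ≤ (8 / c + 2) / K * β := by
      have e8 : 2 / c * X ≤ 2 / c * (4 / K * β) := by gcongr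
      have e9 : 2 / c * (4 / K * β) + 2 / K * β = (8 / c + 2) / K * β := by
        field_simp
        ring
      linarith
    have e10 : (8 / c + 2) / K < 1 := by
      rw [div_lt_one hK0]
      linarith
    have e11 : β = 0 := by nlinarith
    have e12 : α = 0 := by
      rw [e11, mul_zero] at e5
      linarith
    obtain ⟨z1, z2⟩ := nn_eq_zero (hα ▸ e12)
    obtain ⟨z3, z4⟩ := nn_eq_zero (hβ ▸ e11)
    have zu : u = 0 := by rw [← hPP u, z1, z3, add_zero]
    have zw : w = 0 := by rw [← hPP w, z2, z4, add_zero]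
    rcases hne with h | h
    · exact h zu
    · exact h zw
  have hend : T 1 = B := by
    ext v
    rw [hT, one_smul, ← map_add, hPP]
  have hpath := idx_path zero_le_one hTc.continuousOn hNo
  rw [hend] at hpath
  rw [← hpath]
  -- the end `t = 0`
  have hP0 : ∀ v ∈ S, P v = 0 := by
    intro v hv
    have : P' v = v := Submodule.starProjection_eq_self_iff.2 hv
    have h4 := hPP v
    rw [this] at h4
    simpa using h4
  have hT0 : ∀ v, T 0 v = B (P v) := by
    intro v
    rw [hT, zero_smul, add_zero]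
  apply idx_eq_of_ker
  · intro v hv
    rw [hT0, hP0 v hv, map_zero]
  · intro v hv
    rw [hT0] at hv
    have h4 := h1 _ (hPm v)
    rw [hP0 _ hv, norm_zero] at h4
    have h5 : ‖P v‖ = 0 := by
      have := norm_nonneg (P v)
      nlinarith
    have h6 := hPP v
    rw [norm_eq_zero.1 h5, zero_add] at h6
    rw [← h6]
    exact hPm' v
  · intro μ hμ hμ0
    by_contra hcon
    push Not at hcon
    obtain ⟨u, w, hne, hu, hw⟩ := pair_of_root _ hμ
    have eα : nn (P (B (P u))) (P (B (P w))) = ‖μ‖ * nn (P u) (P w) := by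
      rw [← hT0, ← hT0, hu, hw, map_sub, map_add, map_smul, map_smul, map_smul, map_smul, nn_rot]
    have e1 : c * K * nn (P u) (P w) ≤ ‖μ‖ * nn (P u) (P w) := by
      rw [← eα]
      exact nn_ge (by positivity) (h1 _ (hPm u)) (h1 _ (hPm w))
    have e2 := nn_nonneg (P u) (P w)
    have e3 : nn (P u) (P w) = 0 := by nlinarith
    obtain ⟨z1, z2⟩ := nn_eq_zero e3
    have e4 : nn (μ.re • u - μ.im • w) (μ.im • u + μ.re • w) = 0 := by
      rw [← hu, ← hw, hT0, hT0, z1, z2, map_zero]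
      have : nn (0 : E) 0 ^ 2 = 0 := by rw [nn_sq]; simp
      exact pow_eq_zero_iff two_ne_zero |>.1 this
    rw [nn_rot] at e4
    have e5 : nn u w = 0 := by
      rcases mul_eq_zero.1 e4 with h | h
      · exact absurd (norm_eq_zero.1 h) hμ0
      · exact h
    obtain ⟨z3, z4⟩ := nn_eq_zero e5
    rcases hne with h | h
    · exact h z3
    · exact h z4

end Pool.Agent.H245.SH
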