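import Pool.Agent.H245.SH.A3

/-!
# Robust absence of eigenvalues of modulus one gives a window without singular values
-/

set_option autoImplicit false
set_option linter.unusedSectionVars false

open Filter Set Metric Polynomial
open scoped Topology

namespace Pool.Agent.H245.SH

/-- singular values: an orthonormal basis, orthogonal for `M` -/
theorem singular (E : Type) [NormedAddCommGroup E] [InnerProductSpace ℝ E]
    [FiniteDimensional ℝ E] (M : E →L[ℝ] E) :
    ∃ (b : OrthonormalBasis (Fin (Module.finrank ℝ E)) ℝ E) (σ : Fin (Module.finrank ℝ E) → ℝ),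
      (∀ i, 0 ≤ σ i) ∧ ∀ v, ‖M v‖ ^ 2 = ∑ i, σ i ^ 2 * (inner ℝ (b i) v) ^ 2 := by
  obtain ⟨A, hA⟩ : ∃ A : E →L[ℝ] E, A = ContinuousLinearMap.adjoint M ∘L M := ⟨_, rfl⟩
  have hAa : ∀ x, A x = ContinuousLinearMap.adjoint M (M x) := fun x => by rw [hA]; rfl
  set T : E →ₗ[ℝ] E := (A : E →ₗ[ℝ] E) with hT
  have hsym : T.IsSymmetric := by
    intro x y
    show inner ℝ (A x) y = inner ℝ x (A y)
    rw [hAa, hAa, ContinuousLinearMap.adjoint_inner_left, ContinuousLinearMap.adjoint_inner_right]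
  set b := hsym.eigenvectorBasis rfl with hb
  set μ := hsym.eigenvalues rfl with hμ
  have hTb : ∀ i, T (b i) = μ i • b i := fun i => hsym.apply_eigenvectorBasis rfl i
  have hq : ∀ v, ‖M v‖ ^ 2 = inner ℝ (T v) v := by
    intro v
    show _ = inner ℝ (A v) v
    rw [hAa, ContinuousLinearMap.adjoint_inner_left, real_inner_self_eq_norm_sq]
  have hμ0 : ∀ i, 0 ≤ μ i := by
    intro i
    have h1 := hq (b i)
    rw [hTb, inner_smul_left, real_inner_self_eq_norm_sq, b.norm_eq_one] at h1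
    simp at h1
    rw [← h1]
    positivity
  refine ⟨b, fun i => Real.sqrt (μ i), fun i => Real.sqrt_nonneg _, fun v => ?_⟩
  rw [hq, ← b.sum_inner_mul_inner]
  refine Finset.sum_congr rfl fun i _ => ?_
  rw [hsym v (b i), hTb, inner_smul_right, Real.sq_sqrt (hμ0 i), real_inner_comm]
  ring

section

variable {E : Type} [NormedAddCommGroup E] [InnerProductSpace ℝ E] [FiniteDimensional ℝ E]
  {ι : Type} [Fintype ι] (b : OrthonormalBasis ι ℝ E)

/-- the span of the `b i`, `i ∈ I` -/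
def SI (I : Set ι) : Submodule ℝ E where
  carrier := {v | ∀ j ∉ I, inner ℝ (b j) v = 0}
  add_mem' := fun {x y} hx hy j hj => by rw [inner_add_right, hx j hj, hy j hj, add_zero]
  zero_mem' := fun j _ => inner_zero_right _
  smul_mem' := fun c x hx j hj => by rw [inner_smul_right, hx j hj, mul_zero]

theorem mem_SI {I : Set ι} {v : E} : v ∈ SI b I ↔ ∀ j ∉ I, inner ℝ (b j) v = 0 := Iff.rfl

theorem basis_mem_SI {I : Set ι} {i : ι} (hi : i ∈ I) : b i ∈ SI b I := by
  intro j hj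
  have hne : j ≠ i := fun h => hj (h ▸ hi)
  exact b.orthonormal.2 hne

theorem orth_SI {I : Set ι} {v : E} (hv : v ∈ (SI b I)ᗮ) : ∀ i ∈ I, inner ℝ (b i) v = 0 :=
  fun _ hi => (Submodule.mem_orthogonal _ _).1 hv _ (basis_mem_SI b hi)

theorem norm_sq_eq (v : E) : ‖v‖ ^ 2 = ∑ i, (inner ℝ (b i) v) ^ 2 := by
  rw [← real_inner_self_eq_norm_sq, ← b.sum_inner_mul_inner]
  refine Finset.sum_congr rfl fun i _ => ?_
  rw [real_inner_comm]
  ring

theorem SI_up {M : E →L[ℝ] E} {σ : ι → ℝ} (hσ : ∀ i, 0 ≤ σ i)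
    (hM : ∀ v, ‖M v‖ ^ 2 = ∑ i, σ i ^ 2 * (inner ℝ (b i) v) ^ 2) {I : Set ι} {s : ℝ} (hs : 0 ≤ s)
    (hI : ∀ i ∈ I, σ i ≤ s) : ∀ v ∈ SI b I, ‖M v‖ ≤ s * ‖v‖ := by
  intro v hv
  apply le_of_sq_le_sq' _ (mul_nonneg hs (norm_nonneg _))
  rw [hM, mul_pow, norm_sq_eq b, Finset.mul_sum]
  refine Finset.sum_le_sum fun i _ => ?_
  by_cases hi : i ∈ I
  · exact mul_le_mul_of_nonneg_right (pow_le_pow_left₀ (hσ i) (hI i hi) 2) (sq_nonneg _)
  · rw [hv i hi]
    simp

theorem SI_low {M : E →L[ℝ] E} {σ : ι → ℝ}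
    (hM : ∀ v, ‖M v‖ ^ 2 = ∑ i, σ i ^ 2 * (inner ℝ (b i) v) ^ 2) {I : Set ι} {s : ℝ} (hs : 0 ≤ s)
    (hI : ∀ i ∉ I, s ≤ σ i) : ∀ v ∈ (SI b I)ᗮ, s * ‖v‖ ≤ ‖M v‖ := by
  intro v hv
  apply le_of_sq_le_sq' _ (norm_nonneg _)
  rw [hM, mul_pow, norm_sq_eq b, Finset.mul_sum]
  refine Finset.sum_le_sum fun i _ => ?_
  by_cases hi : i ∈ I
  · rw [orth_SI b hv i hi]
    simp
  · exact mul_le_mul_of_nonneg_right (pow_le_pow_left₀ hs (hI i hi) 2) (sq_nonneg _)

theorem SI_lt {I J : Set ι} (h : I ⊆ J) {j : ι} (hj : j ∈ J) (hj' : j ∉ I) : SI b I < SI b J := by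
  refine lt_of_le_of_ne (fun v hv i hi => hv i fun h' => hi (h h')) fun heq => ?_
  have h1 : b j ∈ SI b I := by
    rw [heq]
    exact basis_mem_SI b hj
  have h2 := h1 j hj'
  rw [real_inner_self_eq_norm_sq, b.norm_eq_one] at h2
  norm_num at h2

end

/-- pigeonhole: a window without singular values -/
theorem free_window {n : ℕ} (q : Fin n → ℝ) (K : ℝ) (hK : 1 < K) (j : Fin n) (hj : q j = 1)
    (up : Bool) : ∃ l : ℕ, l < n ∧ ∀ i, ¬ (K ^ (2 * l) < (if up then q i else (q i)⁻¹) ∧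
      (if up then q i else (q i)⁻¹) < K ^ (2 * l + 2)) := by
  by_contra hcon
  push Not at hcon
  have h1 : ∀ l : Fin n, ∃ i, K ^ (2 * (l : ℕ)) < (if up then q i else (q i)⁻¹) ∧
      (if up then q i else (q i)⁻¹) < K ^ (2 * (l : ℕ) + 2) := fun l => hcon l l.2
  choose φ hφ using h1
  have hinj : Function.Injective φ := by
    intro l l' hll
    by_contra hne
    have key : ∀ l l' : Fin n, φ l = φ l' → ¬ l < l' := by
      intro l l' h hlt
      have e1 := (hφ l).2
      have e2 := (hφ l').1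
      rw [h] at e1
      have e3 : K ^ (2 * (l : ℕ) + 2) ≤ K ^ (2 * (l' : ℕ)) := by
        apply pow_le_pow_right₀ hK.le
        have : (l : ℕ) < l' := hlt
        omega
      linarith
    rcases lt_or_gt_of_ne hne with h | h
    · exact key l l' hll h
    · exact key l' l hll.symm h
  have hsurj : Function.Surjective φ := Finite.surjective_of_injective hinj
  obtain ⟨l, hl⟩ := hsurj j
  have e1 := (hφ l).1
  rw [hl, hj] at e1
  have e2 : (1 : ℝ) ≤ K ^ (2 * (l : ℕ)) := one_le_pow₀ hK.le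
  have e3 : (if up then (1 : ℝ) else (1 : ℝ)⁻¹) = 1 := by split_ifs <;> simp
  rw [e3] at e1
  linarith

/-- **Window lemma**: if `s R M` has no eigenvalue of modulus one for all `R` close to the identity and
all `s ∈ [1/a, a]`, then `M` has no singular value in the window `(C/a, a/C)`. -/
theorem window (E : Type) [NormedAddCommGroup E] [InnerProductSpace ℝ E]
    [FiniteDimensional ℝ E] {δ : ℝ} (hδ : 0 < δ) (hδ1 : δ ≤ 1) : ∃ C ≥ 1, ∀ a ≥ 1,
    ∀ M : E →L[ℝ] E, (∀ R : E →L[ℝ] E, ‖R - ContinuousLinearMap.id ℝ E‖ ≤ δ → ∀ s : ℝ, a⁻¹ ≤ s →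
      s ≤ a → NoOne (s • (R ∘L M))) →
    ∃ S : Submodule ℝ E, (∀ v ∈ S, a * ‖M v‖ ≤ C * ‖v‖) ∧ ∀ v ∈ Sᗮ, a * ‖v‖ ≤ C * ‖M v‖ := by
  obtain ⟨K₀, hK₀, hgap⟩ := gap_lemma E hδ hδ1
  obtain ⟨K, hKd⟩ : ∃ K, K = max K₀ 2 := ⟨_, rfl⟩
  have hK0 : K₀ ≤ K := by rw [hKd]; exact le_max_left _ _
  have hK2 : 2 ≤ K := by rw [hKd]; exact le_max_right _ _
  have hK1 : 1 < K := by linarith
  have hKp : 0 < K := by linarith
  set n := Module.finrank ℝ E with hn
  refine ⟨K ^ (2 * n), one_le_pow₀ hK1.le, fun a ha M hM => ?_⟩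
  set C := K ^ (2 * n) with hC
  have hC1 : 1 ≤ C := one_le_pow₀ hK1.le
  have hCp : 0 < C := by linarith
  have hap : 0 < a := by linarith
  obtain ⟨b, σ, hσ, hMσ⟩ := singular E M
  have claim : ∀ j, a * σ j ≤ C ∨ a ≤ C * σ j := by
    intro j
    by_contra hcon
    push Not at hcon
    obtain ⟨hj1, hj2⟩ := hcon
    have hjp : 0 < σ j := by
      rcases (hσ j).lt_or_eq with h | h
      · exact h
      · rw [← h] at hj1
        simp at hj1
        linarith
    have hn1 : 0 < n := j.pos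
    -- general gap statement
    have main : ∀ s : ℝ, 0 < s → (∀ i, s * σ i ≤ K⁻¹ ∨ K ≤ s * σ i) → a⁻¹ ≤ s → s ≤ a →
        ∃ R : E →L[ℝ] E, ‖R - ContinuousLinearMap.id ℝ E‖ ≤ δ ∧
          idx (s • (R ∘L M)) + Module.finrank ℝ (SI b {i | s * σ i ≤ K⁻¹}) = n := by
      intro s hs hgs h1 h2
      have hY1 : ∀ v ∈ SI b {i | s * σ i ≤ K⁻¹}, K * ‖(s • M) v‖ ≤ ‖v‖ := by
        intro v hv
        have h3 := SI_up b hσ hMσ (I := {i | s * σ i ≤ K⁻¹}) (s := K⁻¹ * s⁻¹) (by positivity) (by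
          intro i hi
          have hi' : s * σ i ≤ K⁻¹ := hi
          rw [← div_eq_mul_inv, le_div_iff₀ hs]
          linarith) v hv
        show K * ‖s • M v‖ ≤ ‖v‖
        rw [norm_smul, Real.norm_of_nonneg hs.le]
        calc K * (s * ‖M v‖) ≤ K * (s * (K⁻¹ * s⁻¹ * ‖v‖)) := by gcongr
          _ = ‖v‖ := by field_simp
      have hY2 : ∀ v ∈ (SI b {i | s * σ i ≤ K⁻¹})ᗮ, K * ‖v‖ ≤ ‖(s • M) v‖ := by
        intro v hv
        have h3 := SI_low b hMσ (I := {i | s * σ i ≤ K⁻¹}) (s := K * s⁻¹) (by positivity) (by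
          intro i hi
          have hi' : K ≤ s * σ i := (hgs i).resolve_left hi
          rw [← div_eq_mul_inv, div_le_iff₀ hs]
          linarith) v hv
        show K * ‖v‖ ≤ ‖s • M v‖
        rw [norm_smul, Real.norm_of_nonneg hs.le]
        calc K * ‖v‖ = s * (K * s⁻¹ * ‖v‖) := by field_simp
          _ ≤ s * ‖M v‖ := by gcongr
      obtain ⟨R, hR, hidx⟩ := hgap K hK0 (s • M) _ hY1 hY2
      refine ⟨R, hR, ?_⟩
      rw [← hidx]
      congr 2
      ext v
      simp
    -- the two scales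
    obtain ⟨l, hl, hfree⟩ := free_window (fun i => σ i / σ j) K hK1 j (div_self hjp.ne') false
    obtain ⟨l', hl', hfree'⟩ := free_window (fun i => σ i / σ j) K hK1 j (div_self hjp.ne') true
    have hpowle : ∀ m, m ≤ 2 * n → K ^ m ≤ C := fun m hm => pow_le_pow_right₀ hK1.le hm
    obtain ⟨s, hs⟩ : ∃ s, s = K ^ (2 * l + 1) / σ j := ⟨_, rfl⟩
    obtain ⟨s', hs'⟩ : ∃ s', s' = (K ^ (2 * l' + 1))⁻¹ / σ j := ⟨_, rfl⟩
    have hsp : 0 < s := by rw [hs]; positivity
    have hsp' : 0 < s' := by rw [hs']; positivity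
    have hss : s' ≤ s := by
      rw [hs, hs']
      gcongr
      exact (inv_le_one_of_one_le₀ (one_le_pow₀ hK1.le)).trans (one_le_pow₀ hK1.le)
    have hsa : s ≤ a := by
      rw [hs, div_le_iff₀ hjp]
      exact (hpowle _ (by omega)).trans hj1.le
    have hsa' : a⁻¹ ≤ s' := by
      rw [hs', le_div_iff₀ hjp, inv_mul_le_iff₀ hap, ← div_eq_mul_inv, le_div_iff₀ (by positivity)]
      have : K ^ (2 * l' + 1) ≤ C := hpowle _ (by omega)
      nlinarith
    have hg1 : ∀ i, s * σ i ≤ K⁻¹ ∨ K ≤ s * σ i := by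
      intro i
      by_contra hcon
      push Not at hcon
      obtain ⟨c1, c2⟩ := hcon
      have hip : 0 < σ i := by
        by_contra h
        have : σ i = 0 := le_antisymm (not_lt.1 h) (hσ i)
        rw [this, mul_zero] at c1
        have : 0 < K⁻¹ := by positivity
        linarith
      apply hfree i
      simp only [Bool.false_eq_true, if_false, inv_div]
      have e1 : s * σ i = K ^ (2 * l + 1) * (σ i / σ j) := by
        rw [hs]; ring
      have e2 : K ^ (2 * l + 1) = K ^ (2 * l) * K := pow_succ _ _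
      have e3 : K ^ (2 * l + 2) = K ^ (2 * l + 1) * K := pow_succ _ _
      constructor
      · rw [lt_div_iff₀ hip]
        rw [e1, e2] at c2
        have h5 : K ^ (2 * l) * (σ i / σ j) < 1 := by
          have : K * (K ^ (2 * l) * (σ i / σ j)) < K * 1 := by linarith
          exact lt_of_mul_lt_mul_left this hKp.le
        rw [mul_div_assoc', div_lt_one hjp] at h5
        exact h5
      · rw [div_lt_iff₀ hip]
        rw [e1] at c1
        have h5 : 1 < K * (K ^ (2 * l + 1) * (σ i / σ j)) := by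
          rw [inv_lt_iff_one_lt_mul₀ hKp] at c1
          linarith
        rw [e3]
        have h6 : K * (K ^ (2 * l + 1) * (σ i / σ j)) = K ^ (2 * l + 1) * K * σ i / σ j := by ring
        rw [h6, one_lt_div hjp] at h5
        exact h5
    have hg2 : ∀ i, s' * σ i ≤ K⁻¹ ∨ K ≤ s' * σ i := by
      intro i
      by_contra hcon
      push Not at hcon
      obtain ⟨c1, c2⟩ := hcon
      apply hfree' i
      simp only [if_true]
      have e1 : s' * σ i = (K ^ (2 * l' + 1))⁻¹ * (σ i / σ j) := by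
        rw [hs']; ring
      have e2 : K ^ (2 * l' + 1) = K ^ (2 * l') * K := pow_succ _ _
      have e3 : K ^ (2 * l' + 2) = K ^ (2 * l' + 1) * K := pow_succ _ _
      have hpw : 0 < K ^ (2 * l' + 1) := by positivity
      constructor
      · rw [e1, ← div_eq_inv_mul, lt_div_iff₀ hpw, e2] at c1
        have : K⁻¹ * (K ^ (2 * l') * K) = K ^ (2 * l') := by field_simp
        rw [this] at c1
        exact c1
      · rw [e1, ← div_eq_inv_mul, div_lt_iff₀ hpw] at c2
        rw [e3]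
        linarith
    obtain ⟨R, hR, hi⟩ := main s hsp hg1 (hsa'.trans hss) hsa
    obtain ⟨R', hR', hi'⟩ := main s' hsp' hg2 hsa' (hss.trans hsa)
    -- the path
    let T : ℝ → E →L[ℝ] E := fun t => ((1 - t) * s + t * s') • (((1 - t) • R + t • R') ∘L M)
    have hTc : Continuous T := by
      have c1 : Continuous fun t : ℝ => (1 - t) * s + t * s' := by fun_prop
      have c2 : Continuous fun t : ℝ => (1 - t) • R + t • R' := by fun_prop
      exact c1.smul (c2.clm_comp continuous_const)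
    have hpath := idx_path (T := T) zero_le_one hTc.continuousOn (by
      rintro t ⟨ht0, ht1⟩
      apply hM
      · have : (1 - t) • R + t • R' - ContinuousLinearMap.id ℝ E =
            (1 - t) • (R - ContinuousLinearMap.id ℝ E) + t • (R' - ContinuousLinearMap.id ℝ E) := by
          rw [smul_sub, smul_sub, sub_smul, sub_smul, one_smul, one_smul]
          abel
        rw [this]
        calc _ ≤ ‖(1 - t) • (R - ContinuousLinearMap.id ℝ E)‖ +
              ‖t • (R' - ContinuousLinearMap.id ℝ E)‖ := norm_add_le _ _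
          _ ≤ (1 - t) * δ + t * δ := by
            rw [norm_smul, norm_smul, Real.norm_of_nonneg ht0, Real.norm_of_nonneg (by linarith)]
            gcongr
          _ = δ := by ring
      · have h1 : (1 - t) * s' ≤ (1 - t) * s := mul_le_mul_of_nonneg_left hss (by linarith)
        nlinarith
      · have h1 : t * s' ≤ t * s := mul_le_mul_of_nonneg_left hss ht0
        nlinarith)
    have hT0 : T 0 = s • (R ∘L M) := by
      simp [T]
    have hT1 : T 1 = s' • (R' ∘L M) := by
      simp [T]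
    rw [hT0, hT1] at hpath
    have hlt : Module.finrank ℝ (SI b {i | s * σ i ≤ K⁻¹}) <
        Module.finrank ℝ (SI b {i | s' * σ i ≤ K⁻¹}) := by
      apply Submodule.finrank_lt_finrank_of_lt
      refine SI_lt b ?_ (j := j) ?_ ?_
      · intro i hi
        have hi1 : s * σ i ≤ K⁻¹ := hi
        have hi2 : s' * σ i ≤ s * σ i := mul_le_mul_of_nonneg_right hss (hσ i)
        exact hi2.trans hi1
      · show s' * σ j ≤ K⁻¹
        rw [hs', div_mul_cancel₀ _ hjp.ne']
        apply inv_anti₀ hKp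
        calc K = K ^ 1 := (pow_one K).symm
          _ ≤ K ^ (2 * l' + 1) := pow_le_pow_right₀ hK1.le (by omega)
      · show ¬ s * σ j ≤ K⁻¹
        rw [hs, div_mul_cancel₀ _ hjp.ne', not_le]
        have e1 : K⁻¹ < 1 := inv_lt_one_of_one_lt₀ hK1
        exact e1.trans_le (one_le_pow₀ hK1.le)
    omega
  refine ⟨SI b {i | a * σ i ≤ C}, fun v hv => ?_, fun v hv => ?_⟩
  · have h3 := SI_up b hσ hMσ (I := {i | a * σ i ≤ C}) (s := C / a) (by positivity) (by
      intro i hi
      have hi' : a * σ i ≤ C := hi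
      rw [le_div_iff₀ hap]
      linarith) v hv
    calc a * ‖M v‖ ≤ a * (C / a * ‖v‖) := by gcongr
      _ = C * ‖v‖ := by field_simp
  · have h3 := SI_low b hMσ (I := {i | a * σ i ≤ C}) (s := a / C) (by positivity) (by
      intro i hi
      have hi' : a ≤ C * σ i := (claim i).resolve_left hi
      rw [div_le_iff₀ hCp]
      linarith) v hv
    calc a * ‖v‖ = C * (a / C * ‖v‖) := by field_simp
      _ ≤ C * ‖M v‖ := by gcongr

end Pool.Agent.H245.SH
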