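import Pool.Agent.H245.SH.A4

/-!
# Cocycles: words with perturbations, and the window property
-/

set_option autoImplicit false
set_option linter.unusedSectionVars false

open Filter Set Metric
open scoped Topology

namespace Pool.Agent.H245.SH

universe u

/-- a bounded linear cocycle over a bijection -/
structure Coc (X : Type u) (E : Type) [NormedAddCommGroup E] [InnerProductSpace ℝ E] where
  f : X ≃ X
  A : X → E ≃L[ℝ] E
  Λ : ℝ
  one_le : 1 ≤ Λ
  bd : ∀ x v, ‖A x v‖ ≤ Λ * ‖v‖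
  bd' : ∀ x v, ‖(A x).symm v‖ ≤ Λ * ‖v‖

variable {X : Type u} {E : Type} [NormedAddCommGroup E] [InnerProductSpace ℝ E]

/-- `R` is close to the identity -/
def Near (δ : ℝ) (R : E ≃L[ℝ] E) : Prop :=
  (∀ v, ‖R v - v‖ ≤ δ * ‖v‖) ∧ ∀ v, ‖R.symm v - v‖ ≤ δ * ‖v‖

theorem Near.mono {δ δ' : ℝ} (h : δ ≤ δ') {R : E ≃L[ℝ] E} (hR : Near δ R) : Near δ' R :=
  ⟨fun v => (hR.1 v).trans (mul_le_mul_of_nonneg_right h (norm_nonneg _)),
    fun v => (hR.2 v).trans (mul_le_mul_of_nonneg_right h (norm_nonneg _))⟩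

theorem Near.symm {δ : ℝ} {R : E ≃L[ℝ] E} (hR : Near δ R) : Near δ R.symm := ⟨hR.2, hR.1⟩

theorem near_refl {δ : ℝ} (hδ : 0 ≤ δ) : Near δ (ContinuousLinearEquiv.refl ℝ E) := by
  refine ⟨fun v => ?_, fun v => ?_⟩
  · simp
    positivity
  · simp
    positivity

theorem Near.bd {δ : ℝ} (hδ : δ ≤ 1) {R : E ≃L[ℝ] E} (hR : Near δ R) (v : E) : ‖R v‖ ≤ 2 * ‖v‖ := by
  have h1 := hR.1 v
  have h2 : R v = (R v - v) + v := by abel
  have h3 := norm_nonneg v
  calc ‖R v‖ = ‖(R v - v) + v‖ := by rw [← h2]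
    _ ≤ ‖R v - v‖ + ‖v‖ := norm_add_le _ _
    _ ≤ 2 * ‖v‖ := by nlinarith

theorem Near.trans {δ₁ δ₂ : ℝ} (h1 : 0 ≤ δ₁) (h2 : 0 ≤ δ₂) (h1' : δ₁ ≤ 1) (h2' : δ₂ ≤ 1)
    {R₁ R₂ : E ≃L[ℝ] E} (hR₁ : Near δ₁ R₁) (hR₂ : Near δ₂ R₂) :
    Near (2 * (δ₁ + δ₂)) (R₁.trans R₂) := by
  constructor
  · intro v
    have e1 := hR₁.1 v
    have e2 := hR₂.1 (R₁ v)
    have e3 := hR₁.bd h1' v
    have e4 : (R₁.trans R₂) v - v = (R₂ (R₁ v) - R₁ v) + (R₁ v - v) := by
      rw [ContinuousLinearEquiv.trans_apply]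
      abel
    rw [e4]
    have e5 := norm_nonneg v
    calc _ ≤ ‖R₂ (R₁ v) - R₁ v‖ + ‖R₁ v - v‖ := norm_add_le _ _
      _ ≤ δ₂ * (2 * ‖v‖) + δ₁ * ‖v‖ := by
        gcongr
        exact e2.trans (mul_le_mul_of_nonneg_left e3 h2)
      _ ≤ _ := by nlinarith
  · intro v
    have e1 := hR₂.2 v
    have e2 := hR₁.2 (R₂.symm v)
    have e3 := hR₂.symm.bd h2' v
    have e4 : (R₁.trans R₂).symm v - v = (R₁.symm (R₂.symm v) - R₂.symm v) + (R₂.symm v - v) := by
      rw [ContinuousLinearEquiv.symm_trans_apply]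
      abel
    rw [e4]
    have e5 := norm_nonneg v
    calc _ ≤ ‖R₁.symm (R₂.symm v) - R₂.symm v‖ + ‖R₂.symm v - v‖ := norm_add_le _ _
      _ ≤ δ₁ * (2 * ‖v‖) + δ₂ * ‖v‖ := by
        gcongr
        exact e2.trans (mul_le_mul_of_nonneg_left e3 h1)
      _ ≤ _ := by nlinarith

/-- the homothety -/
noncomputable def scl (E : Type) [NormedAddCommGroup E] [InnerProductSpace ℝ E] (σ : ℝ)
    (hσ : σ ≠ 0) : E ≃L[ℝ] E :=
  ContinuousLinearEquiv.equivOfInverse (σ • ContinuousLinearMap.id ℝ E)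
    (σ⁻¹ • ContinuousLinearMap.id ℝ E) (fun v => by simp [smul_smul, mul_inv_cancel₀ hσ])
    (fun v => by simp [smul_smul, inv_mul_cancel₀ hσ])

theorem scl_apply {σ : ℝ} (hσ : σ ≠ 0) (v : E) : scl E σ hσ v = σ • v := rfl

theorem scl_symm_apply {σ : ℝ} (hσ : σ ≠ 0) (v : E) : (scl E σ hσ).symm v = σ⁻¹ • v := rfl

theorem near_scl {σ κ : ℝ} (hσ : σ ≠ 0) (h1 : |σ - 1| ≤ κ) (h2 : |σ⁻¹ - 1| ≤ κ) :
    Near κ (scl E σ hσ) := by
  constructor
  · intro v
    have : scl E σ hσ v - v = (σ - 1) • v := by rw [scl_apply, sub_smul, one_smul]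
    rw [this, norm_smul, Real.norm_eq_abs]
    gcongr
  · intro v
    have : (scl E σ hσ).symm v - v = (σ⁻¹ - 1) • v := by rw [scl_symm_apply, sub_smul, one_smul]
    rw [this, norm_smul, Real.norm_eq_abs]
    gcongr

/-- a linear map close to the identity is invertible -/
theorem near_equiv [FiniteDimensional ℝ E] {R : E →L[ℝ] E} {δ : ℝ} (hδ : δ ≤ 1 / 2)
    (hR : ‖R - ContinuousLinearMap.id ℝ E‖ ≤ δ) : ∃ e : E ≃L[ℝ] E, (∀ v, e v = R v) ∧
      Near (2 * δ) e := by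
  have hδ0 : 0 ≤ δ := (norm_nonneg _).trans hR
  have h1 : ∀ v, ‖R v - v‖ ≤ δ * ‖v‖ := by
    intro v
    have := (R - ContinuousLinearMap.id ℝ E).le_opNorm v
    exact this.trans (mul_le_mul_of_nonneg_right hR (norm_nonneg _))
  have h2 : ∀ v, ‖v‖ ≤ 2 * ‖R v‖ := by
    intro v
    have e1 := h1 v
    have e2 : v = R v - (R v - v) := by abel
    have e3 : ‖v‖ ≤ ‖R v‖ + ‖R v - v‖ := by
      conv_lhs => rw [e2]
      exact norm_sub_le _ _
    have e4 := norm_nonneg v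
    nlinarith
  have hinj : Function.Injective (R : E →ₗ[ℝ] E) := by
    rw [← LinearMap.ker_eq_bot, LinearMap.ker_eq_bot']
    intro v hv
    have hv' : R v = 0 := hv
    have := h2 v
    rw [hv', norm_zero, mul_zero] at this
    exact norm_le_zero_iff.1 this
  obtain ⟨e, he⟩ : ∃ e : E ≃L[ℝ] E, ∀ v, e v = R v :=
    ⟨(LinearEquiv.ofInjectiveEndo (R : E →ₗ[ℝ] E) hinj).toContinuousLinearEquiv, fun v => rfl⟩
  refine ⟨e, he, fun v => ?_, fun v => ?_⟩
  · rw [he]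
    refine (h1 v).trans ?_
    have := norm_nonneg v
    nlinarith
  · have e1 := h1 (e.symm v)
    have e2 := h2 (e.symm v)
    rw [← he, e.apply_symm_apply] at e1 e2
    rw [norm_sub_rev]
    calc _ ≤ δ * ‖e.symm v‖ := e1
      _ ≤ δ * (2 * ‖v‖) := by gcongr
      _ = 2 * δ * ‖v‖ := by ring

namespace Coc

variable (c : Coc X E)

/-- the product `R (n-1) A(f^(n-1) x) ... R 0 A(x)` -/
noncomputable def word (x : X) (R : ℕ → E ≃L[ℝ] E) : ℕ → E ≃L[ℝ] E
  | 0 => ContinuousLinearEquiv.refl ℝ E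
  | n + 1 => (word x R n).trans ((c.A (c.f^[n] x)).trans (R n))

theorem word_zero (x : X) (R : ℕ → E ≃L[ℝ] E) : c.word x R 0 = ContinuousLinearEquiv.refl ℝ E := rfl

theorem word_succ (x : X) (R : ℕ → E ≃L[ℝ] E) (n : ℕ) (v : E) :
    c.word x R (n + 1) v = R n (c.A (c.f^[n] x) (c.word x R n v)) := rfl

theorem word_front (R : ℕ → E ≃L[ℝ] E) (n : ℕ) : ∀ (x : X) (v : E),
    c.word x R (n + 1) v = c.word (c.f x) (fun i => R (i + 1)) n (R 0 (c.A x v)) := by
  induction n with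
  | zero => intro x v; rfl
  | succ n ih =>
    intro x v
    rw [word_succ, ih, word_succ]
    rfl

theorem word_congr (x : X) {R R' : ℕ → E ≃L[ℝ] E} {n : ℕ} (h : ∀ i < n, R i = R' i) (v : E) :
    c.word x R n v = c.word x R' n v := by
  induction n with
  | zero => rfl
  | succ n ih =>
    rw [word_succ, word_succ, ih fun i hi => h i (by omega), h n (by omega)]

theorem word_scl (x : X) (R : ℕ → E ≃L[ℝ] E) {σ : ℝ} (hσ : σ ≠ 0) (n : ℕ) (v : E) :
    c.word x (fun i => (R i).trans (scl E σ hσ)) n v = σ ^ n • c.word x R n v := by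
  induction n with
  | zero => simp [word_zero]
  | succ n ih =>
    rw [word_succ, word_succ, ih, ContinuousLinearEquiv.trans_apply, scl_apply, map_smul, map_smul,
      smul_smul, pow_succ']

theorem word_bd (x : X) {δ : ℝ} (hδ : δ ≤ 1) {R : ℕ → E ≃L[ℝ] E} (hR : ∀ i, Near δ (R i)) (n : ℕ)
    (v : E) : ‖c.word x R n v‖ ≤ (2 * c.Λ) ^ n * ‖v‖ := by
  induction n with
  | zero => simp [word_zero]
  | succ n ih =>
    rw [word_succ]
    have h1 := c.one_le
    calc _ ≤ 2 * ‖c.A (c.f^[n] x) (c.word x R n v)‖ := (hR n).bd hδ _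
      _ ≤ 2 * (c.Λ * ((2 * c.Λ) ^ n * ‖v‖)) := by
        gcongr
        exact (c.bd _ _).trans (by gcongr)
      _ = (2 * c.Λ) ^ (n + 1) * ‖v‖ := by rw [pow_succ]; ring

theorem word_low (x : X) {δ : ℝ} (hδ : δ ≤ 1) {R : ℕ → E ≃L[ℝ] E} (hR : ∀ i, Near δ (R i)) (n : ℕ)
    (v : E) : ‖v‖ ≤ (2 * c.Λ) ^ n * ‖c.word x R n v‖ := by
  induction n with
  | zero => simp [word_zero]
  | succ n ih =>
    rw [word_succ]
    have h1 := c.one_le
    have h2 : ‖c.word x R n v‖ ≤ 2 * c.Λ * ‖R n (c.A (c.f^[n] x) (c.word x R n v))‖ := by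
      have e1 := c.bd' (c.f^[n] x) (c.A (c.f^[n] x) (c.word x R n v))
      rw [ContinuousLinearEquiv.symm_apply_apply] at e1
      have e2 := (hR n).symm.bd hδ (R n (c.A (c.f^[n] x) (c.word x R n v)))
      rw [ContinuousLinearEquiv.symm_apply_apply] at e2
      calc _ ≤ c.Λ * ‖c.A (c.f^[n] x) (c.word x R n v)‖ := e1
        _ ≤ c.Λ * (2 * ‖R n (c.A (c.f^[n] x) (c.word x R n v))‖) := by gcongr
        _ = _ := by ring
    calc ‖v‖ ≤ (2 * c.Λ) ^ n * ‖c.word x R n v‖ := ih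
      _ ≤ (2 * c.Λ) ^ n * (2 * c.Λ * ‖R n (c.A (c.f^[n] x) (c.word x R n v))‖) := by gcongr
      _ = _ := by rw [pow_succ]; ring

/-- The products along closed pseudo-orbits which follow an orbit have robustly no eigenvalues of
modulus one. -/
def Hyp [FiniteDimensional ℝ E] (δ C₀ : ℝ) : Prop :=
  ∀ (x : X) (n : ℕ), 1 ≤ n → ∃ D : E ≃L[ℝ] E, (∀ v, ‖D v‖ ≤ C₀ * ‖v‖) ∧
    (∀ v, ‖D.symm v‖ ≤ C₀ * ‖v‖) ∧ ∀ R : ℕ → E ≃L[ℝ] E, (∀ i, Near δ (R i)) → ∀ Q, Near δ Q →
      NoOne (((c.word x R n).trans (D.trans Q) : E ≃L[ℝ] E) : E →L[ℝ] E)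

/-- the inverse cocycle -/
noncomputable def inv : Coc X E where
  f := c.f.symm
  A := fun x => (c.A (c.f.symm x)).symm
  Λ := c.Λ
  one_le := c.one_le
  bd := fun x v => c.bd' _ v
  bd' := fun x v => by
    rw [ContinuousLinearEquiv.symm_symm]
    exact c.bd _ v

theorem inv_word (δ : ℝ) (x : X) {Q : E ≃L[ℝ] E} (hQ : Near δ Q) (n : ℕ)
    (R : ℕ → E ≃L[ℝ] E) (hR : ∀ i, Near δ (R i)) :
    ∃ R' : ℕ → E ≃L[ℝ] E, (∀ i, Near δ (R' i)) ∧ ∀ v,
      Q ((c.inv.word x R (n + 1)).symm (R n v)) = c.word (c.f.symm^[n + 1] x) R' (n + 1) v := by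
  induction n with
  | zero =>
    refine ⟨fun _ => Q, fun _ => hQ, fun v => ?_⟩
    rw [word_succ]
    congr 1
    rw [ContinuousLinearEquiv.symm_apply_eq, word_succ]
    simp only [word_zero, Function.iterate_zero, id, ContinuousLinearEquiv.coe_refl']
    congr 1
    exact ((c.A (c.f.symm x)).symm_apply_apply v).symm
  | succ n ih =>
    obtain ⟨R', hR', h⟩ := ih
    refine ⟨fun i => Nat.casesOn i ((R n).symm) (fun j => R' j), fun i => ?_, fun v => ?_⟩
    · cases i with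
      | zero => exact (hR n).symm
      | succ j => exact hR' j
    · have e0 : c.f (c.f.symm^[n + 1 + 1] x) = c.f.symm^[n + 1] x := by
        rw [Function.iterate_succ_apply' (f := (c.f.symm : X → X)), Equiv.apply_symm_apply]
      rw [c.word_front, e0]
      have e1 := h ((R n).symm (c.A (c.f.symm^[n + 1 + 1] x) v))
      show _ = c.word (c.f.symm^[n + 1] x) (fun i => R' i) (n + 1)
        ((R n).symm (c.A (c.f.symm^[n + 1 + 1] x) v))
      rw [← e1]
      congr 1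
      rw [ContinuousLinearEquiv.apply_symm_apply, ContinuousLinearEquiv.symm_apply_eq, word_succ,
        ContinuousLinearEquiv.apply_symm_apply]
      congr 1
      have e2 : c.inv.A (c.inv.f^[n + 1] x) = (c.A (c.f.symm^[n + 1 + 1] x)).symm := by
        rw [Function.iterate_succ_apply' (f := (c.f.symm : X → X)) (n + 1)]
        rfl
      rw [e2, ContinuousLinearEquiv.symm_apply_apply]

end Coc

section conj

variable [FiniteDimensional ℝ E]

theorem noOne_comm (Z D : E ≃L[ℝ] E) (h : NoOne ((Z.trans D : E ≃L[ℝ] E) : E →L[ℝ] E)) :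
    NoOne ((D.trans Z : E ≃L[ℝ] E) : E →L[ℝ] E) := by
  intro μ hμ
  obtain ⟨u, w, hne, hu, hw⟩ := pair_of_root _ hμ
  have hu' : Z (D u) = μ.re • u - μ.im • w := hu
  have hw' : Z (D w) = μ.im • u + μ.re • w := hw
  apply h
  refine root_of_pair _ (u := D u) (w := D w) ?_ ?_ ?_
  · rcases hne with h | h
    · exact Or.inl (by simpa using h)
    · exact Or.inr (by simpa using h)
  · show D (Z (D u)) = _
    rw [hu', map_sub, map_smul, map_smul]
  · show D (Z (D w)) = _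
    rw [hw', map_add, map_smul, map_smul]

theorem noOne_symm (Z : E ≃L[ℝ] E) (h : NoOne (Z : E →L[ℝ] E)) : NoOne (Z.symm : E →L[ℝ] E) := by
  intro μ hμ hμ1
  obtain ⟨u, w, hne, hu, hw⟩ := pair_of_root _ hμ
  have hu' : Z.symm u = μ.re • u - μ.im • w := hu
  have hw' : Z.symm w = μ.im • u + μ.re • w := hw
  rw [ContinuousLinearEquiv.symm_apply_eq] at hu' hw'
  have h1 : μ.re ^ 2 + μ.im ^ 2 = 1 := by
    have := Complex.sq_norm μ
    rw [hμ1, Complex.normSq_apply] at this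
    nlinarith
  have e1 : u = μ.re • Z u - μ.im • Z w := by
    conv_lhs => rw [hu']
    rw [map_sub, map_smul, map_smul]
  have e2 : w = μ.im • Z u + μ.re • Z w := by
    conv_lhs => rw [hw']
    rw [map_add, map_smul, map_smul]
  refine h (starRingEnd ℂ μ) ?_ (by rw [RCLike.norm_conj, hμ1])
  refine root_of_pair _ hne ?_ ?_
  · show Z u = _
    rw [Complex.conj_re, Complex.conj_im]
    have : μ.re • u + μ.im • w = (μ.re ^ 2 + μ.im ^ 2) • Z u := by
      have e3 : μ.re • u + μ.im • w =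
          μ.re • (μ.re • Z u - μ.im • Z w) + μ.im • (μ.im • Z u + μ.re • Z w) := by
        rw [← e1, ← e2]
      rw [e3]
      module
    rw [h1, one_smul] at this
    rw [← this]
    module
  · show Z w = _
    rw [Complex.conj_re, Complex.conj_im]
    have : (-μ.im) • u + μ.re • w = (μ.re ^ 2 + μ.im ^ 2) • Z w := by
      have e3 : (-μ.im) • u + μ.re • w =
          (-μ.im) • (μ.re • Z u - μ.im • Z w) + μ.re • (μ.im • Z u + μ.re • Z w) := by
        rw [← e1, ← e2]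
      rw [e3]
      module
    rw [h1, one_smul] at this
    rw [← this]

theorem Coc.Hyp.inv {c : Coc X E} {δ C₀ : ℝ} (h : c.Hyp δ C₀) : c.inv.Hyp δ C₀ := by
  intro x n hn
  obtain ⟨k, rfl⟩ : ∃ k, n = k + 1 := ⟨n - 1, by omega⟩
  obtain ⟨D, hD, hD', hNo⟩ := h (c.f.symm^[k + 1] x) (k + 1) (by omega)
  refine ⟨D.symm, hD', by simpa using hD, fun R hR Q hQ => ?_⟩
  obtain ⟨R', hR', hw⟩ := c.inv_word δ x hQ.symm k R hR
  -- the inverse is conjugate to a forward word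
  have h1 := hNo R' hR' (R k).symm (hR k).symm
  have h2 : NoOne (((c.inv.word x R (k + 1)).trans (D.symm.trans Q)).symm : E →L[ℝ] E) := by
    -- `W'⁻¹ D Q⁻¹`
    have h3 : (((c.inv.word x R (k + 1)).trans (D.symm.trans Q)).symm : E ≃L[ℝ] E) =
        (Q.symm.trans (D.trans (c.inv.word x R (k + 1)).symm)) := by
      ext v
      rfl
    rw [h3]
    have h4 : (D.trans ((c.inv.word x R (k + 1)).symm)).trans Q.symm =
        (D.trans (R k).symm).trans (c.word (c.f.symm^[k + 1] x) R' (k + 1)) := by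
      ext v
      show Q.symm ((c.inv.word x R (k + 1)).symm (D v)) =
        c.word (c.f.symm^[k + 1] x) R' (k + 1) ((R k).symm (D v))
      rw [← hw, ContinuousLinearEquiv.apply_symm_apply]
    have h5 := noOne_comm _ _ h1
    rw [← h4] at h5
    exact noOne_comm _ _ h5
  have h6 := noOne_symm _ h2
  rw [ContinuousLinearEquiv.symm_symm] at h6
  exact h6

end conj

end Pool.Agent.H245.SH
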