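import Pool.Agent.H245.SH.A5

/-!
# Cocycles: the window property of words
-/

set_option autoImplicit false
set_option linter.unusedSectionVars false

open Filter Set Metric
open scoped Topology

namespace Pool.Agent.H245.SH

universe u

variable {X : Type u} {E : Type} [NormedAddCommGroup E] [InnerProductSpace ℝ E]
  [FiniteDimensional ℝ E]

theorem Coc.scaled_noOne {c : Coc X E} {δ : ℝ} (hδ : 0 < δ) (hδ1 : δ ≤ 1)
    {x : X} {n : ℕ} (hn : 1 ≤ n) {D : E ≃L[ℝ] E}
    (hNo : ∀ R : ℕ → E ≃L[ℝ] E, (∀ i, Near δ (R i)) → ∀ Q, Near δ Q →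
      NoOne (((c.word x R n).trans (D.trans Q) : E ≃L[ℝ] E) : E →L[ℝ] E))
    {R : ℕ → E ≃L[ℝ] E} (hR : ∀ i, Near (δ / 16) (R i)) {R₀ : E →L[ℝ] E}
    (hR₀ : ‖R₀ - ContinuousLinearMap.id ℝ E‖ ≤ δ / 32) {s : ℝ} (h1 : ((1 + δ / 32) ^ n)⁻¹ ≤ s)
    (h2 : s ≤ (1 + δ / 32) ^ n) :
    NoOne (s • (R₀ ∘L ((D.trans (c.word x R n) : E ≃L[ℝ] E) : E →L[ℝ] E))) := by
  obtain ⟨e, he, hen⟩ := near_equiv (δ := δ / 32) (by linarith) hR₀
  have hen' : Near (δ / 16) e := hen.mono (by linarith)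
  set a : ℝ := 1 + δ / 32 with ha
  have ha1 : 1 < a := by rw [ha]; linarith
  have hap : 0 < a := by linarith
  have hsp : 0 < s := lt_of_lt_of_le (by positivity) h1
  -- the root
  obtain ⟨σ, hσdef⟩ : ∃ σ : ℝ, σ = s ^ ((n : ℝ)⁻¹) := ⟨_, rfl⟩
  have hσp : 0 < σ := by rw [hσdef]; positivity
  have hσn : σ ^ n = s := by
    rw [hσdef]
    exact Real.rpow_inv_natCast_pow hsp.le (by omega)
  have hσa : σ ≤ a := by
    by_contra hcon
    push Not at hcon
    have : a ^ n < σ ^ n := pow_lt_pow_left₀ hcon hap.le (by omega)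
    rw [hσn] at this
    linarith
  have hσa' : a⁻¹ ≤ σ := by
    by_contra hcon
    push Not at hcon
    have : σ ^ n < a⁻¹ ^ n := pow_lt_pow_left₀ hcon hσp.le (by omega)
    rw [hσn, inv_pow] at this
    linarith
  have hainv : 1 - δ / 32 ≤ a⁻¹ := by
    rw [le_inv_comm₀ (by linarith) hap, ha]
    rw [le_inv_comm₀ (by linarith) (by linarith)]
    rw [inv_eq_one_div, le_div_iff₀ (by linarith)]
    nlinarith
  have hσ1 : |σ - 1| ≤ δ / 32 := by
    rw [abs_le]
    constructor <;> linarith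
  have hσ2 : |σ⁻¹ - 1| ≤ δ / 32 := by
    have e1 : a⁻¹ ≤ σ⁻¹ := inv_anti₀ hσp hσa
    have e2 : σ⁻¹ ≤ a := by
      rw [inv_le_comm₀ hσp hap]
      exact hσa'
    rw [abs_le]
    constructor <;> linarith
  have hscl := near_scl (E := E) hσp.ne' hσ1 hσ2
  -- the modified letters
  let R' : ℕ → E ≃L[ℝ] E := fun i => if i = n - 1 then ((R i).trans e).trans (scl E σ hσp.ne')
    else (R i).trans (scl E σ hσp.ne')
  have hR' : ∀ i, Near δ (R' i) := by
    intro i
    show Near δ (if i = n - 1 then ((R i).trans e).trans (scl E σ hσp.ne')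
      else (R i).trans (scl E σ hσp.ne'))
    split_ifs
    · have e1 := Near.trans (by positivity) (by positivity) (by linarith) (by linarith) (hR i) hen'
      have e2 := Near.trans (by positivity) (by positivity) (by linarith) (by linarith) e1 hscl
      exact e2.mono (by linarith)
    · have e2 := Near.trans (by positivity) (by positivity) (by linarith) (by linarith) (hR i) hscl
      exact e2.mono (by linarith)
  obtain ⟨m, rfl⟩ : ∃ m, n = m + 1 := ⟨n - 1, by omega⟩
  have hword : ∀ v, c.word x R' (m + 1) v = s • e (c.word x R (m + 1) v) := by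
    intro v
    rw [Coc.word_succ, c.word_congr x (R := R') (R' := fun i => (R i).trans (scl E σ hσp.ne'))
      (n := m) (fun i hi => by
        show (if i = m + 1 - 1 then ((R i).trans e).trans (scl E σ hσp.ne')
          else (R i).trans (scl E σ hσp.ne')) = _
        rw [if_neg (by omega)]), Coc.word_scl]
    have e1 : R' m = ((R m).trans e).trans (scl E σ hσp.ne') := by
      show (if m = m + 1 - 1 then ((R m).trans e).trans (scl E σ hσp.ne')
          else (R m).trans (scl E σ hσp.ne')) = _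
      rw [if_pos (by omega)]
    rw [e1, ContinuousLinearEquiv.trans_apply, ContinuousLinearEquiv.trans_apply, scl_apply,
      map_smul, map_smul, map_smul, smul_smul, ← pow_succ', hσn, Coc.word_succ]
  have h3 := hNo R' hR' (ContinuousLinearEquiv.refl ℝ E) (near_refl hδ.le)
  have h4 := noOne_comm _ _ h3
  have h5 : s • (R₀ ∘L ((D.trans (c.word x R (m + 1)) : E ≃L[ℝ] E) : E →L[ℝ] E)) =
      (((D.trans (ContinuousLinearEquiv.refl ℝ E)).trans (c.word x R' (m + 1)) : E ≃L[ℝ] E) :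
        E →L[ℝ] E) := by
    ext v
    show s • R₀ (c.word x R (m + 1) (D v)) = c.word x R' (m + 1) (D v)
    rw [hword, he]
  rw [h5]
  exact h4

theorem Coc.word_window {c : Coc X E} {δ C₀ : ℝ} (hδ : 0 < δ) (hδ1 : δ ≤ 1) (h : c.Hyp δ C₀) :
    ∃ a > 1, ∃ C ≥ 1, ∀ (x : X) (n : ℕ) (R : ℕ → E ≃L[ℝ] E), (∀ i, Near (δ / 16) (R i)) →
      ∃ S : Submodule ℝ E, (∀ v ∈ S, a ^ n * ‖c.word x R n v‖ ≤ C * ‖v‖) ∧
        ∀ v ∈ Sᗮ, a ^ n * ‖v‖ ≤ C * ‖c.word x R n v‖ := by
  obtain ⟨Cw, hCw, hwin⟩ := window E (δ := δ / 32) (by positivity) (by linarith)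
  obtain ⟨a, ha⟩ : ∃ a : ℝ, a = 1 + δ / 32 := ⟨_, rfl⟩
  have ha1 : 1 < a := by rw [ha]; linarith
  have hap : 0 < a := by linarith
  obtain ⟨B, hB⟩ : ∃ B, B = max C₀ 1 := ⟨_, rfl⟩
  have hB1 : 1 ≤ B := by rw [hB]; exact le_max_right _ _
  have hB0 : C₀ ≤ B := by rw [hB]; exact le_max_left _ _
  obtain ⟨n₀, hn₀⟩ := pow_unbounded_of_one_lt (2 * (Cw * B) ^ 2) ha1
  have hΛ := c.one_le
  refine ⟨a, ha1, max (2 * (Cw * B)) ((a * (2 * c.Λ)) ^ n₀), ?_, fun x n R hR => ?_⟩
  · refine le_max_of_le_left ?_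
    nlinarith
  by_cases hn : n < n₀
  · refine ⟨⊥, fun v hv => ?_, fun v _ => ?_⟩
    · rw [Submodule.mem_bot] at hv
      rw [hv]
      simp
    · have h1 := c.word_low x (by linarith : δ / 16 ≤ 1) hR n v
      have h2 : (a * (2 * c.Λ)) ^ n ≤ (a * (2 * c.Λ)) ^ n₀ := by
        apply pow_le_pow_right₀ _ hn.le
        nlinarith
      calc a ^ n * ‖v‖ ≤ a ^ n * ((2 * c.Λ) ^ n * ‖c.word x R n v‖) := by gcongr
        _ = (a * (2 * c.Λ)) ^ n * ‖c.word x R n v‖ := by rw [mul_pow]; ring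
        _ ≤ (a * (2 * c.Λ)) ^ n₀ * ‖c.word x R n v‖ := by gcongr
        _ ≤ _ := by
          gcongr
          exact le_max_right _ _
  · push Not at hn
    by_cases hn1 : 1 ≤ n
    · obtain ⟨D, hD, hD', hNo⟩ := h x n hn1
      have hDB : ∀ v, ‖D v‖ ≤ B * ‖v‖ := fun v => (hD v).trans (by gcongr)
      have hDB' : ∀ v, ‖D.symm v‖ ≤ B * ‖v‖ := fun v => (hD' v).trans (by gcongr)
      have hab : 2 * (Cw * B) ^ 2 ≤ a ^ n :=
        hn₀.le.trans (pow_le_pow_right₀ ha1.le hn)
      have han1 : 1 ≤ a ^ n := one_le_pow₀ ha1.le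
      obtain ⟨S, hS1, hS2⟩ := hwin (a ^ n) han1
        ((D.trans (c.word x R n) : E ≃L[ℝ] E) : E →L[ℝ] E) (fun R₀ hR₀ s h1 h2 => by
          rw [ha] at h1 h2
          exact Coc.scaled_noOne hδ hδ1 hn1 hNo hR hR₀ h1 h2)
      refine ⟨S.map (D : E →ₗ[ℝ] E), ?_, ?_⟩
      · rintro _ ⟨v, hv, rfl⟩
        have e1 : a ^ n * ‖c.word x R n (D v)‖ ≤ Cw * ‖v‖ := hS1 v hv
        have e2 : ‖v‖ ≤ B * ‖D v‖ := by
          have := hDB' (D v)
          rwa [ContinuousLinearEquiv.symm_apply_apply] at this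
        show a ^ n * ‖c.word x R n (D v)‖ ≤ _ * ‖D v‖
        have e3 := norm_nonneg (D v)
        calc a ^ n * ‖c.word x R n (D v)‖ ≤ Cw * (B * ‖D v‖) := e1.trans (by gcongr)
          _ ≤ 2 * (Cw * B) * ‖D v‖ := by nlinarith [mul_nonneg (mul_nonneg (by linarith : 0 ≤ Cw) (by linarith : 0 ≤ B)) e3]
          _ ≤ _ := by
            gcongr
            exact le_max_left _ _
      · intro u hu
        set v := D.symm u with hv
        have huv : D v = u := D.apply_symm_apply u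
        set v₂ := Sᗮ.starProjection v with hv₂
        set v₁ := S.starProjection v with hv₁
        have hsum : v₂ + v₁ = v := star_add S v
        have hm₁ : v₁ ∈ S := Submodule.starProjection_apply_mem _ _
        have hm₂ : v₂ ∈ Sᗮ := Submodule.starProjection_apply_mem _ _
        have hn₁ : ‖v₁‖ ≤ B * ‖u‖ :=
          (Submodule.norm_starProjection_apply_le S v).trans (hDB' u)
        have hn₂ : ‖u‖ ≤ B * ‖v₂‖ := by
          have e1 : inner ℝ (D v₁) u = 0 :=
            (Submodule.mem_orthogonal _ _).1 hu _ ⟨v₁, hm₁, rfl⟩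
          have e2 : u = D v₂ + D v₁ := by rw [← map_add, hsum, huv]
          have e3 : ‖u‖ ^ 2 = inner ℝ (D v₂) u := by
            rw [← real_inner_self_eq_norm_sq]
            conv_lhs => rw [show inner ℝ u u = inner ℝ (D v₂ + D v₁) u by rw [← e2]]
            rw [inner_add_left, e1, add_zero]
          have e4 : ‖u‖ ^ 2 ≤ ‖D v₂‖ * ‖u‖ := by
            rw [e3]
            exact real_inner_le_norm _ _
          rcases (norm_nonneg u).eq_or_lt with h0 | h0
          · rw [← h0]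
            positivity
          · have e5 : ‖u‖ ≤ ‖D v₂‖ := by
              have : ‖u‖ * ‖u‖ ≤ ‖D v₂‖ * ‖u‖ := by rw [← sq]; exact e4
              exact le_of_mul_le_mul_right this h0
            exact e5.trans (hDB v₂)
        have hM₁ : a ^ n * ‖c.word x R n (D v₁)‖ ≤ Cw * ‖v₁‖ := hS1 v₁ hm₁
        have hM₂ : a ^ n * ‖v₂‖ ≤ Cw * ‖c.word x R n (D v₂)‖ := hS2 v₂ hm₂
        have hsplit : ‖c.word x R n (D v₂)‖ ≤ ‖c.word x R n u‖ + ‖c.word x R n (D v₁)‖ := by
          have : c.word x R n (D v₂) = c.word x R n u - c.word x R n (D v₁) := by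
            rw [← map_sub]
            congr 1
            rw [← huv, ← hsum, map_add]
            abel
          rw [this]
          exact norm_sub_le _ _
        -- combine
        have hCB : 0 < Cw * B := by nlinarith
        have k1 : a ^ n * ‖u‖ ≤ Cw * B * ‖c.word x R n (D v₂)‖ := by
          calc a ^ n * ‖u‖ ≤ a ^ n * (B * ‖v₂‖) := by gcongr
            _ = B * (a ^ n * ‖v₂‖) := by ring
            _ ≤ B * (Cw * ‖c.word x R n (D v₂)‖) := by gcongr
            _ = _ := by ring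
        have k2 : a ^ n * ‖c.word x R n (D v₁)‖ ≤ Cw * B * ‖u‖ := by
          calc _ ≤ Cw * ‖v₁‖ := hM₁
            _ ≤ Cw * (B * ‖u‖) := by gcongr
            _ = _ := by ring
        have k3 : Cw * B * ‖c.word x R n (D v₁)‖ ≤ a ^ n / 2 * ‖u‖ := by
          have e1 : (Cw * B) ^ 2 * 2 * ‖c.word x R n (D v₁)‖ ≤ Cw * B * ‖u‖ :=
            le_trans (mul_le_mul_of_nonneg_right (by linarith) (norm_nonneg _)) k2
          have e2 : Cw * B * (2 * (Cw * B * ‖c.word x R n (D v₁)‖)) ≤ Cw * B * ‖u‖ := by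
            calc _ = (Cw * B) ^ 2 * 2 * ‖c.word x R n (D v₁)‖ := by ring
              _ ≤ _ := e1
          have e3 : 2 * (Cw * B * ‖c.word x R n (D v₁)‖) ≤ ‖u‖ := le_of_mul_le_mul_left e2 hCB
          have e4 := norm_nonneg u
          nlinarith
        have k4 : a ^ n * ‖u‖ ≤ Cw * B * ‖c.word x R n u‖ + a ^ n / 2 * ‖u‖ := by
          calc a ^ n * ‖u‖ ≤ Cw * B * (‖c.word x R n u‖ + ‖c.word x R n (D v₁)‖) :=
                k1.trans (by gcongr)
            _ = Cw * B * ‖c.word x R n u‖ + Cw * B * ‖c.word x R n (D v₁)‖ := by ring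
            _ ≤ _ := by gcongr
        have k5 : a ^ n * ‖u‖ ≤ 2 * (Cw * B) * ‖c.word x R n u‖ := by linarith
        refine k5.trans ?_
        gcongr
        exact le_max_left _ _
    · -- `n = 0`
      have hn0 : n = 0 := by omega
      subst hn0
      refine ⟨⊥, fun v hv => ?_, fun v _ => ?_⟩
      · rw [Submodule.mem_bot] at hv
        rw [hv]
        simp
      · rw [Coc.word_zero]
        simp only [pow_zero, one_mul, ContinuousLinearEquiv.coe_refl', id]
        have : (1 : ℝ) ≤ max (2 * (Cw * B)) ((a * (2 * c.Λ)) ^ n₀) := by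
          refine le_max_of_le_left ?_
          nlinarith
        nlinarith [norm_nonneg v]

end Pool.Agent.H245.SH
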