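import Pool.Agent.H245.SH.A6

/-!
# Cocycles: from the window property to a hyperbolic splitting
-/

set_option autoImplicit false
set_option linter.unusedSectionVars false

open Filter Set Metric
open scoped Topology

namespace Pool.Agent.H245.SH

universe u

variable {X : Type u} {E : Type} [NormedAddCommGroup E] [InnerProductSpace ℝ E]
  [FiniteDimensional ℝ E]

/-- constant sequence of identities -/
noncomputable def ids (E : Type) [NormedAddCommGroup E] [InnerProductSpace ℝ E] : ℕ → E ≃L[ℝ] E :=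
  fun _ => ContinuousLinearEquiv.refl ℝ E

/-- the subspace `S` separates the small and the large singular values of `W` -/
def Sep (κ : ℝ) (W : E ≃L[ℝ] E) (S : Submodule ℝ E) : Prop :=
  (∀ v ∈ S, ‖W v‖ ≤ κ * ‖v‖) ∧ ∀ v ∈ Sᗮ, ‖v‖ ≤ κ * ‖W v‖

theorem Sep.mono {κ κ' : ℝ} (h : κ ≤ κ') {W : E ≃L[ℝ] E} {S : Submodule ℝ E} (hS : Sep κ W S) :
    Sep κ' W S :=
  ⟨fun v hv => (hS.1 v hv).trans (by gcongr), fun v hv => (hS.2 v hv).trans (by gcongr)⟩

/-- the component in `Sᗮ` of a vector with a small image -/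
theorem Sep.comp {κ : ℝ} (hκ : 0 ≤ κ) {W : E ≃L[ℝ] E} {S : Submodule ℝ E} (hS : Sep κ W S) (v : E) :
    ‖Sᗮ.starProjection v‖ ≤ κ * ‖W v‖ + κ ^ 2 * ‖v‖ := by
  have h1 := star_add S v
  have h2 := hS.2 _ (Submodule.starProjection_apply_mem Sᗮ v)
  have h3 := hS.1 _ (Submodule.starProjection_apply_mem S v)
  have h4 : W (Sᗮ.starProjection v) = W v - W (S.starProjection v) := by
    rw [← map_sub]
    congr 1
    rw [eq_sub_iff_add_eq]
    exact h1
  have h5 : ‖W (Sᗮ.starProjection v)‖ ≤ ‖W v‖ + κ * ‖v‖ := by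
    rw [h4]
    refine (norm_sub_le _ _).trans ?_
    gcongr
    exact h3.trans (by
      gcongr
      exact Submodule.norm_starProjection_apply_le S v)
  calc _ ≤ κ * ‖W (Sᗮ.starProjection v)‖ := h2
    _ ≤ κ * (‖W v‖ + κ * ‖v‖) := by gcongr
    _ = _ := by ring

namespace Coc

variable (c : Coc X E)

/-- window property for all words -/
def Win (δ q C : ℝ) : Prop :=
  ∀ (x : X) (n : ℕ) (R : ℕ → E ≃L[ℝ] E), (∀ i, Near δ (R i)) →
    ∃ S : Submodule ℝ E, Sep (C * q ^ n) (c.word x R n) S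

theorem Win.mono {c : Coc X E} {δ q C q' C' : ℝ} (hq : 0 ≤ q) (hC : 0 ≤ C) (h1 : q ≤ q')
    (h2 : C ≤ C') (h : c.Win δ q C) : c.Win δ q' C' := by
  intro x n R hR
  obtain ⟨S, hS⟩ := h x n R hR
  refine ⟨S, hS.mono ?_⟩
  have := hC.trans h2
  gcongr

/-- window property for the words with at most one perturbation -/
def Win1 (δ q C : ℝ) : Prop :=
  ∀ (x : X) (n k : ℕ) (e : E ≃L[ℝ] E), Near δ e → ∃ S : Submodule ℝ E,
    Sep (C * q ^ n) (c.word x (fun i => if i = k then e else ContinuousLinearEquiv.refl ℝ E) n) S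

theorem Win.win1 {c : Coc X E} {δ q C : ℝ} (hδ : 0 ≤ δ) (h : c.Win δ q C) : c.Win1 δ q C := by
  intro x n k e he
  refine h x n _ fun i => ?_
  show Near δ (if i = k then e else ContinuousLinearEquiv.refl ℝ E)
  split_ifs
  · exact he
  · exact near_refl hδ

theorem Win1.ids {c : Coc X E} {δ q C : ℝ} (hδ : 0 ≤ δ) (h : c.Win1 δ q C) (x : X) (n : ℕ) :
    ∃ S : Submodule ℝ E, Sep (C * q ^ n) (c.word x (ids E) n) S := by
  have h1 := h x n 0 (ContinuousLinearEquiv.refl ℝ E) (near_refl hδ)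
  simp only [ite_self] at h1
  exact h1

theorem Hyp.win {c : Coc X E} {δ C₀ : ℝ} (hδ : 0 < δ) (hδ1 : δ ≤ 1) (h : c.Hyp δ C₀) :
    ∃ q, 0 < q ∧ q < 1 ∧ ∃ C ≥ 1, c.Win (δ / 16) q C := by
  obtain ⟨a, ha, C, hC, hw⟩ := Coc.word_window hδ hδ1 h
  have hap : 0 < a := by linarith
  refine ⟨a⁻¹, by positivity, inv_lt_one_of_one_lt₀ ha, C, hC, fun x n R hR => ?_⟩
  obtain ⟨S, hS1, hS2⟩ := hw x n R hR
  have han : 0 < a ^ n := by positivity
  refine ⟨S, fun v hv => ?_, fun v hv => ?_⟩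
  · have h1 := hS1 v hv
    rw [inv_pow]
    rw [← div_eq_mul_inv, div_mul_eq_mul_div, le_div_iff₀ han]
    linarith
  · have h1 := hS2 v hv
    rw [inv_pow]
    rw [← div_eq_mul_inv, div_mul_eq_mul_div, le_div_iff₀ han]
    linarith

variable {c}

/-- telescoping -/
theorem telescope {δ q C : ℝ} (hδ1 : δ ≤ 1) (hq0 : 0 < q) (hq1 : q < 1) (hC : 1 ≤ C)
    {x : X} {R : ℕ → E ≃L[ℝ] E} (hR : ∀ i, Near δ (R i)) {S : ℕ → Submodule ℝ E}
    (hS : ∀ n, Sep (C * q ^ n) (c.word x R n) (S n)) (m k : ℕ) (v : E) :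
    ‖(S m)ᗮ.starProjection v‖ ≤ ‖(S (m + k))ᗮ.starProjection v‖ +
      (2 * c.Λ + 1) * C ^ 2 / (1 - q ^ 2) * (q ^ (2 * m) - q ^ (2 * (m + k))) * ‖v‖ := by
  have hΛ := c.one_le
  have hq2 : 0 < 1 - q ^ 2 := by nlinarith
  obtain ⟨C₃, hC₃⟩ : ∃ C₃, C₃ = (2 * c.Λ + 1) * C ^ 2 := ⟨_, rfl⟩
  have hC₃0 : 0 ≤ C₃ := by rw [hC₃]; positivity
  rw [← hC₃]
  -- one step
  have step : ∀ j, ‖(S j)ᗮ.starProjection v‖ ≤ ‖(S (j + 1))ᗮ.starProjection v‖ +
      C₃ * q ^ (2 * j) * ‖v‖ := by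
    intro j
    obtain ⟨s, hs⟩ : ∃ s, s = (S (j + 1)).starProjection v := ⟨_, rfl⟩
    have hsm : s ∈ S (j + 1) := by rw [hs]; exact Submodule.starProjection_apply_mem _ _
    have hsn : ‖s‖ ≤ ‖v‖ := by rw [hs]; exact Submodule.norm_starProjection_apply_le _ v
    have h1 : ‖c.word x R (j + 1) s‖ ≤ C * q ^ (j + 1) * ‖s‖ := (hS (j + 1)).1 s hsm
    have h2 : ‖c.word x R j s‖ ≤ 2 * c.Λ * ‖c.word x R (j + 1) s‖ := by
      rw [word_succ]
      have e1 := c.bd' (c.f^[j] x) (c.A (c.f^[j] x) (c.word x R j s))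
      rw [ContinuousLinearEquiv.symm_apply_apply] at e1
      have e2 := (hR j).symm.bd hδ1 (R j (c.A (c.f^[j] x) (c.word x R j s)))
      rw [ContinuousLinearEquiv.symm_apply_apply] at e2
      calc _ ≤ c.Λ * ‖c.A (c.f^[j] x) (c.word x R j s)‖ := e1
        _ ≤ c.Λ * (2 * ‖R j (c.A (c.f^[j] x) (c.word x R j s))‖) := by gcongr
        _ = _ := by ring
    have h3 : ‖c.word x R j s‖ ≤ 2 * c.Λ * (C * q ^ j) * ‖v‖ := by
      calc _ ≤ 2 * c.Λ * ‖c.word x R (j + 1) s‖ := h2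
        _ ≤ 2 * c.Λ * (C * q ^ (j + 1) * ‖s‖) := by gcongr
        _ ≤ 2 * c.Λ * (C * q ^ j * ‖v‖) := by
          gcongr 2 * c.Λ * (C * ?_ * ?_)
          exact pow_le_pow_of_le_one hq0.le hq1.le (by omega)
        _ = _ := by ring
    have h4 := (hS j).comp (by positivity) s
    have h5 : ‖(S j)ᗮ.starProjection s‖ ≤ C₃ * q ^ (2 * j) * ‖v‖ := by
      calc _ ≤ C * q ^ j * ‖c.word x R j s‖ + (C * q ^ j) ^ 2 * ‖s‖ := h4
        _ ≤ C * q ^ j * (2 * c.Λ * (C * q ^ j) * ‖v‖) + (C * q ^ j) ^ 2 * ‖v‖ := by gcongr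
        _ = C₃ * q ^ (2 * j) * ‖v‖ := by
          rw [hC₃, pow_mul']
          ring
    have h6 : (S j)ᗮ.starProjection v = (S j)ᗮ.starProjection ((S (j + 1))ᗮ.starProjection v) +
        (S j)ᗮ.starProjection s := by
      rw [← map_add, hs, star_add]
    rw [h6]
    calc _ ≤ ‖(S j)ᗮ.starProjection ((S (j + 1))ᗮ.starProjection v)‖ +
          ‖(S j)ᗮ.starProjection s‖ := norm_add_le _ _
      _ ≤ _ := by
        gcongr
        exact Submodule.norm_starProjection_apply_le _ _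
  induction k with
  | zero =>
    rw [add_zero, sub_self, mul_zero, zero_mul, add_zero]
  | succ k ih =>
    have h1 := step (m + k)
    have h2 : C₃ * q ^ (2 * (m + k)) =
        C₃ / (1 - q ^ 2) * (q ^ (2 * (m + k)) - q ^ (2 * (m + (k + 1)))) := by
      have : q ^ (2 * (m + (k + 1))) = q ^ (2 * (m + k)) * q ^ 2 := by
        rw [← pow_add]
        congr 1
      rw [this]
      field_simp
    rw [h2] at h1
    calc _ ≤ _ := ih
      _ ≤ (‖(S (m + k + 1))ᗮ.starProjection v‖ +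
          C₃ / (1 - q ^ 2) * (q ^ (2 * (m + k)) - q ^ (2 * (m + (k + 1)))) * ‖v‖) +
          C₃ / (1 - q ^ 2) * (q ^ (2 * m) - q ^ (2 * (m + k))) * ‖v‖ := by gcongr
      _ = _ := by
        rw [← add_assoc m k 1]
        ring

/-- the rank one perturbation of the identity which maps `y` to `z` -/
theorem exists_near_map {δ : ℝ} (hδ : 0 < δ) (hδ1 : δ ≤ 1) {y z : E} (hyz : ‖z - y‖ < δ / 4 * ‖z‖) :
    ∃ e : E ≃L[ℝ] E, Near δ e ∧ e y = z := by
  have hz : 0 < ‖z‖ := by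
    by_contra h
    have h0 : ‖z‖ = 0 := le_antisymm (not_lt.1 h) (norm_nonneg _)
    rw [h0, mul_zero] at hyz
    exact absurd hyz (not_lt.2 (norm_nonneg _))
  have hy : ‖z‖ / 2 < ‖y‖ := by
    have h1 : ‖z‖ ≤ ‖y‖ + ‖z - y‖ := by
      have : z = y + (z - y) := by abel
      conv_lhs => rw [this]
      exact norm_add_le _ _
    nlinarith
  have hy0 : 0 < ‖y‖ := by linarith
  obtain ⟨T, hT⟩ : ∃ T : E →L[ℝ] E, T = ContinuousLinearMap.id ℝ E +
      (‖y‖ ^ 2)⁻¹ • ((innerSL ℝ y).smulRight (z - y)) := ⟨_, rfl⟩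
  have hTa : ∀ v, T v = v + (‖y‖ ^ 2)⁻¹ • (inner ℝ y v • (z - y)) := by
    intro v
    rw [hT]
    simp
  have hn : ‖T - ContinuousLinearMap.id ℝ E‖ ≤ δ / 2 := by
    refine ContinuousLinearMap.opNorm_le_bound _ (by positivity) fun v => ?_
    have h1 : (T - ContinuousLinearMap.id ℝ E) v = (‖y‖ ^ 2)⁻¹ • (inner ℝ y v • (z - y)) := by
      show T v - v = _
      rw [hTa]
      abel
    rw [h1, norm_smul, norm_smul, norm_inv, norm_pow, norm_norm, Real.norm_eq_abs]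
    have h2 : |inner ℝ y v| ≤ ‖y‖ * ‖v‖ := abs_real_inner_le_norm _ _
    have h3 : ‖z - y‖ ≤ δ / 2 * ‖y‖ := by nlinarith
    calc (‖y‖ ^ 2)⁻¹ * (|inner ℝ y v| * ‖z - y‖) ≤
          (‖y‖ ^ 2)⁻¹ * ((‖y‖ * ‖v‖) * (δ / 2 * ‖y‖)) := by gcongr
      _ = δ / 2 * ‖v‖ := by field_simp
  obtain ⟨e, he, hen⟩ := near_equiv (by linarith) hn
  refine ⟨e, hen.mono (by linarith), ?_⟩
  rw [he, hTa, real_inner_self_eq_norm_sq, smul_smul, inv_mul_cancel₀ (by positivity), one_smul]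
  abel

/-- words with one perturbed letter -/
theorem word_one (x : X) (e : E ≃L[ℝ] E) (m : ℕ) (y : E) :
    c.word x (fun i => if i = m then e else ContinuousLinearEquiv.refl ℝ E) (m + 1) y =
      e (c.word x (ids E) (m + 1) y) := by
  rw [word_succ, word_succ]
  have h1 : c.word x (fun i => if i = m then e else ContinuousLinearEquiv.refl ℝ E) m y =
      c.word x (ids E) m y := by
    apply c.word_congr
    intro i hi
    rw [if_neg (by omega)]
    rfl
  rw [h1]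
  simp [ids]

theorem word_one' (x : X) (e : E ≃L[ℝ] E) (m k : ℕ) (y z : E)
    (hyz : e (c.word x (ids E) (m + 1) y) = c.word x (ids E) (m + 1) z) :
    c.word x (fun i => if i = m then e else ContinuousLinearEquiv.refl ℝ E) (m + 1 + k) y =
      c.word x (ids E) (m + 1 + k) z := by
  induction k with
  | zero => rw [add_zero, word_one, hyz]
  | succ k ih =>
    rw [← add_assoc, word_succ, word_succ, ih, if_neg (by omega)]
    rfl

/-- vectors in the small subspace of a long word are uniformly contracted -/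
theorem small_contract {δ q C : ℝ} (hδ : 0 < δ) (hδ1 : δ ≤ 1) (hq0 : 0 < q) (hq1 : q < 1)
    (hC : 1 ≤ C) (hW : c.Win1 δ q C) : ∃ C₆ ≥ C, ∀ (x : X) (m : ℕ), ∃ n₀ : ℕ, ∀ n ≥ n₀,
      ∀ S : Submodule ℝ E, Sep (C * q ^ n) (c.word x (ids E) n) S → ∀ v ∈ S,
        ‖c.word x (ids E) m v‖ ≤ C₆ * q ^ m * ‖v‖ := by
  have hΛ := c.one_le
  have hids : ∀ i, Near δ (ids E i) := fun i => near_refl hδ.le
  obtain ⟨C₅, hC₅⟩ : ∃ C₅, C₅ = (2 * c.Λ + 1) * C ^ 2 / (1 - q ^ 2) := ⟨_, rfl⟩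
  have hq2 : 0 < 1 - q ^ 2 := by nlinarith
  have hC₅0 : 0 ≤ C₅ := by rw [hC₅]; positivity
  have hKpos : 0 < 5 * C ^ 2 + C₅ := by positivity
  obtain ⟨m₀, hm₀⟩ := exists_pow_lt_of_lt_one (show (0 : ℝ) < 1 / (5 * C ^ 2 + C₅) by positivity) hq1
  refine ⟨max (max C (C / (δ / 4))) ((2 * c.Λ / q) ^ (m₀ + 1)), (le_max_left _ _).trans' (le_max_left _ _),
    fun x m => ?_⟩
  set C₆ := max (max C (C / (δ / 4))) ((2 * c.Λ / q) ^ (m₀ + 1)) with hC₆
  have hC₆a : C / (δ / 4) ≤ C₆ := (le_max_right _ _).trans (le_max_left _ _)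
  have hC₆b : (2 * c.Λ / q) ^ (m₀ + 1) ≤ C₆ := le_max_right _ _
  by_cases hm : m ≤ m₀ + 1
  · refine ⟨0, fun n _ S _ v _ => ?_⟩
    have h1 := c.word_bd x hδ1 hids m v
    have h2 : (1 : ℝ) ≤ 2 * c.Λ / q := by
      rw [one_le_div hq0]
      linarith
    have h3 : (2 * c.Λ / q) ^ m ≤ (2 * c.Λ / q) ^ (m₀ + 1) := pow_le_pow_right₀ h2 hm
    calc _ ≤ (2 * c.Λ) ^ m * ‖v‖ := h1
      _ = (2 * c.Λ / q) ^ m * q ^ m * ‖v‖ := by
        rw [div_pow, div_mul_cancel₀ _ (by positivity)]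
      _ ≤ C₆ * q ^ m * ‖v‖ := by
        gcongr
        exact h3.trans hC₆b
  · push Not at hm
    obtain ⟨k, rfl⟩ : ∃ k, m = k + 1 := ⟨m - 1, by omega⟩
    have hsmall : (5 * C ^ 2 + C₅) * q ^ (k + 1) < 1 := by
      have h1 : q ^ (k + 1) ≤ q ^ m₀ := pow_le_pow_of_le_one hq0.le hq1.le (by omega)
      rw [lt_div_iff₀ hKpos] at hm₀
      nlinarith
    obtain ⟨Sm, hSm⟩ := hW.ids hδ.le x (k + 1)
    -- the bound for `n`
    have hb : (0 : ℝ) < 1 / (C * (2 * (2 * c.Λ) ^ (2 * (k + 1)))) := by positivity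
    obtain ⟨n₁, hn₁⟩ := exists_pow_lt_of_lt_one hb hq1
    refine ⟨max n₁ (k + 1), fun n hn S hS v hv => ?_⟩
    obtain ⟨j, hj⟩ : ∃ j, n = k + 1 + j := ⟨n - (k + 1), by
      have := (le_max_right n₁ (k + 1)).trans hn
      omega⟩
    have hqn : C * q ^ n * (2 * (2 * c.Λ) ^ (2 * (k + 1))) ≤ 1 := by
      have h1 : q ^ n ≤ q ^ n₁ := pow_le_pow_of_le_one hq0.le hq1.le ((le_max_left _ _).trans hn)
      have h2 : q ^ n ≤ 1 / (C * (2 * (2 * c.Λ) ^ (2 * (k + 1)))) := h1.trans hn₁.le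
      rw [le_div_iff₀ (by positivity)] at h2
      linarith
    obtain ⟨s, hs⟩ : ∃ s, s = Sm.starProjection v := ⟨_, rfl⟩
    obtain ⟨u, hu⟩ : ∃ u, u = Smᗮ.starProjection v := ⟨_, rfl⟩
    have hvs : u + s = v := by rw [hu, hs]; exact star_add Sm v
    have hsm : s ∈ Sm := by rw [hs]; exact Submodule.starProjection_apply_mem _ _
    have hum : u ∈ Smᗮ := by rw [hu]; exact Submodule.starProjection_apply_mem _ _
    have hsn : ‖s‖ ≤ ‖v‖ := by rw [hs]; exact Submodule.norm_starProjection_apply_le _ v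
    by_cases hcase : δ / 4 * ‖c.word x (ids E) (k + 1) v‖ ≤ ‖c.word x (ids E) (k + 1) s‖
    · have h1 := hSm.1 s hsm
      have h2 : δ / 4 * ‖c.word x (ids E) (k + 1) v‖ ≤ C * q ^ (k + 1) * ‖v‖ :=
        (hcase.trans h1).trans (by gcongr)
      have h3 : ‖c.word x (ids E) (k + 1) v‖ ≤ C / (δ / 4) * q ^ (k + 1) * ‖v‖ := by
        rw [div_mul_eq_mul_div, div_mul_eq_mul_div, le_div_iff₀ (by positivity)]
        linarith
      refine h3.trans ?_
      gcongr
    · exfalso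
      push Not at hcase
      obtain ⟨y, hy⟩ : ∃ y, y = c.word x (ids E) (k + 1) u := ⟨_, rfl⟩
      obtain ⟨z, hz⟩ : ∃ z, z = c.word x (ids E) (k + 1) v := ⟨_, rfl⟩
      have hzy : z - y = c.word x (ids E) (k + 1) s := by
        rw [hz, hy, ← map_sub, ← hvs]
        congr 1
        abel
      have hzy' : ‖z - y‖ < δ / 4 * ‖z‖ := by
        rw [hzy, hz]
        exact hcase
      obtain ⟨e, hen, hey⟩ := exists_near_map hδ hδ1 hzy'
      obtain ⟨R, hRdef⟩ : ∃ R : ℕ → E ≃L[ℝ] E,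
        R = fun i => if i = k then e else ContinuousLinearEquiv.refl ℝ E := ⟨_, rfl⟩
      have hR : ∀ i, Near δ (R i) := by
        intro i
        rw [hRdef]
        show Near δ (if i = k then e else ContinuousLinearEquiv.refl ℝ E)
        split_ifs
        · exact hen
        · exact near_refl hδ.le
      have hSR : ∀ n, ∃ S : Submodule ℝ E, Sep (C * q ^ n) (c.word x R n) S := fun n => by
        rw [hRdef]
        exact hW x n k e hen
      choose T hT using hSR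
      -- the norms
      have hz0 : 0 < ‖z‖ := by
        by_contra h
        have h0 : ‖z‖ = 0 := le_antisymm (not_lt.1 h) (norm_nonneg _)
        rw [h0, mul_zero] at hzy'
        exact absurd hzy' (not_lt.2 (norm_nonneg _))
      have hzy2 : ‖z‖ ≤ 2 * ‖y‖ := by
        have h1 : ‖z‖ ≤ ‖y‖ + ‖z - y‖ := by
          have : z = y + (z - y) := by abel
          conv_lhs => rw [this]
          exact norm_add_le _ _
        nlinarith
      have hyu : ‖y‖ ≤ (2 * c.Λ) ^ (k + 1) * ‖u‖ := by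
        rw [hy]
        exact c.word_bd x hδ1 hids (k + 1) u
      have hvz : ‖v‖ ≤ (2 * c.Λ) ^ (k + 1) * ‖z‖ := by
        rw [hz]
        exact c.word_low x hδ1 hids (k + 1) v
      have hvu : ‖v‖ ≤ 2 * (2 * c.Λ) ^ (2 * (k + 1)) * ‖u‖ := by
        calc ‖v‖ ≤ (2 * c.Λ) ^ (k + 1) * ‖z‖ := hvz
          _ ≤ (2 * c.Λ) ^ (k + 1) * (2 * ((2 * c.Λ) ^ (k + 1) * ‖u‖)) := by
            gcongr
            exact hzy2.trans (by gcongr)
          _ = _ := by rw [two_mul (k + 1), pow_add]; ring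
      have hu0 : 0 < ‖u‖ := by
        by_contra h
        have h0 : ‖u‖ = 0 := le_antisymm (not_lt.1 h) (norm_nonneg _)
        rw [h0, mul_zero] at hyu
        linarith
      have hwn : ‖c.word x R n u‖ ≤ ‖u‖ := by
        have h1 : c.word x R n u = c.word x (ids E) n v := by
          rw [hj, hRdef]
          exact word_one' x e k j u v (by rw [← hy, hey, hz])
        rw [h1]
        calc _ ≤ C * q ^ n * ‖v‖ := hS.1 v hv
          _ ≤ C * q ^ n * (2 * (2 * c.Λ) ^ (2 * (k + 1)) * ‖u‖) := by gcongr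
          _ = C * q ^ n * (2 * (2 * c.Λ) ^ (2 * (k + 1))) * ‖u‖ := by ring
          _ ≤ 1 * ‖u‖ := by gcongr
          _ = ‖u‖ := one_mul _
      have hqnk : q ^ n ≤ q ^ (k + 1) := pow_le_pow_of_le_one hq0.le hq1.le (by omega)
      have hqk1 : q ^ (k + 1) ≤ 1 := pow_le_one₀ hq0.le hq1.le
      have hqk0 : 0 < q ^ (k + 1) := by positivity
      have hCsq : C ≤ C ^ 2 := by nlinarith
      -- the component at time `n`
      have hc1 : ‖(T n)ᗮ.starProjection u‖ ≤ 2 * C ^ 2 * q ^ (k + 1) * ‖u‖ := by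
        have h1 := (hT n).comp (by positivity) u
        have h2 : C * q ^ n ≤ C ^ 2 * q ^ (k + 1) := by gcongr
        have h3 : (C * q ^ n) ^ 2 ≤ C ^ 2 * q ^ (k + 1) := by
          rw [mul_pow]
          gcongr
          rw [sq]
          have : q ^ n ≤ 1 := pow_le_one₀ hq0.le hq1.le
          have h0 : 0 < q ^ n := by positivity
          nlinarith
        calc _ ≤ C * q ^ n * ‖c.word x R n u‖ + (C * q ^ n) ^ 2 * ‖u‖ := h1
          _ ≤ C ^ 2 * q ^ (k + 1) * ‖u‖ + C ^ 2 * q ^ (k + 1) * ‖u‖ := by gcongr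
          _ = _ := by ring
      -- telescoping
      have hc2 : ‖(T (k + 1))ᗮ.starProjection u‖ ≤ (2 * C ^ 2 + C₅) * q ^ (k + 1) * ‖u‖ := by
        have h1 := telescope hδ1 hq0 hq1 hC hR hT (k + 1) j u
        rw [← hj, ← hC₅] at h1
        have h2 : q ^ (2 * (k + 1)) - q ^ (2 * n) ≤ q ^ (k + 1) := by
          have e1 : q ^ (2 * (k + 1)) ≤ q ^ (k + 1) :=
            pow_le_pow_of_le_one hq0.le hq1.le (by omega)
          have e2 : 0 < q ^ (2 * n) := by positivity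
          linarith
        calc _ ≤ _ := h1
          _ ≤ 2 * C ^ 2 * q ^ (k + 1) * ‖u‖ + C₅ * q ^ (k + 1) * ‖u‖ := by gcongr
          _ = _ := by ring
      -- compare `T (k+1)` with `Sm`
      obtain ⟨s', hs'⟩ : ∃ s', s' = (T (k + 1)).starProjection u := ⟨_, rfl⟩
      have hs'm : s' ∈ T (k + 1) := by rw [hs']; exact Submodule.starProjection_apply_mem _ _
      have hs'n : ‖s'‖ ≤ ‖u‖ := by rw [hs']; exact Submodule.norm_starProjection_apply_le _ u
      have hc3 : ‖c.word x (ids E) (k + 1) s'‖ ≤ 2 * (C * q ^ (k + 1)) * ‖u‖ := by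
        have h1 := (hT (k + 1)).1 s' hs'm
        have h2 : c.word x R (k + 1) s' = e (c.word x (ids E) (k + 1) s') := by
          rw [hRdef]
          exact word_one x e k s'
        rw [h2] at h1
        have h3 := hen.symm.bd hδ1 (e (c.word x (ids E) (k + 1) s'))
        rw [ContinuousLinearEquiv.symm_apply_apply] at h3
        calc _ ≤ 2 * ‖e (c.word x (ids E) (k + 1) s')‖ := h3
          _ ≤ 2 * (C * q ^ (k + 1) * ‖u‖) := by
            gcongr
            exact h1.trans (by gcongr)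
          _ = _ := by ring
      have hc4 : ‖Smᗮ.starProjection s'‖ ≤ 3 * C ^ 2 * q ^ (k + 1) * ‖u‖ := by
        have h1 := hSm.comp (by positivity) s'
        calc _ ≤ C * q ^ (k + 1) * ‖c.word x (ids E) (k + 1) s'‖ + (C * q ^ (k + 1)) ^ 2 * ‖s'‖ := h1
          _ ≤ C * q ^ (k + 1) * (2 * (C * q ^ (k + 1)) * ‖u‖) + (C * q ^ (k + 1)) ^ 2 * ‖u‖ := by
            gcongr
          _ = 3 * C ^ 2 * (q ^ (k + 1) * q ^ (k + 1)) * ‖u‖ := by ring
          _ ≤ 3 * C ^ 2 * (q ^ (k + 1) * 1) * ‖u‖ := by gcongr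
          _ = _ := by ring
      have hfin : ‖u‖ ≤ (5 * C ^ 2 + C₅) * q ^ (k + 1) * ‖u‖ := by
        have h1 : u = Smᗮ.starProjection ((T (k + 1))ᗮ.starProjection u) +
            Smᗮ.starProjection s' := by
          rw [← map_add, hs', star_add]
          exact (Submodule.starProjection_eq_self_iff.2 hum).symm
        calc ‖u‖ ≤ ‖Smᗮ.starProjection ((T (k + 1))ᗮ.starProjection u)‖ +
              ‖Smᗮ.starProjection s'‖ := by
              conv_lhs => rw [h1]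
              exact norm_add_le _ _
          _ ≤ (2 * C ^ 2 + C₅) * q ^ (k + 1) * ‖u‖ + 3 * C ^ 2 * q ^ (k + 1) * ‖u‖ := by
            gcongr
            exact (Submodule.norm_starProjection_apply_le _ _).trans hc2
          _ = _ := by ring
      nlinarith

end Coc

end Pool.Agent.H245.SH
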