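import Pool.Agent.H245.SH.A7

/-!
# Cocycles: the hyperbolic splitting
-/

set_option autoImplicit false
set_option linter.unusedSectionVars false

open Filter Set Metric
open scoped Topology

namespace Pool.Agent.H245.SH

universe u

variable {X : Type u} {E : Type} [NormedAddCommGroup E] [InnerProductSpace ℝ E]
  [FiniteDimensional ℝ E]

namespace Coc

variable (c : Coc X E)

/-- the vectors with a bounded forward orbit -/
def Bd (x : X) : Submodule ℝ E where
  carrier := {v | ∃ b : ℝ, ∀ m, ‖c.word x (ids E) m v‖ ≤ b}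
  add_mem' := by
    rintro v w ⟨b, hb⟩ ⟨b', hb'⟩
    refine ⟨b + b', fun m => ?_⟩
    rw [map_add]
    exact (norm_add_le _ _).trans (add_le_add (hb m) (hb' m))
  zero_mem' := ⟨0, fun m => by simp⟩
  smul_mem' := by
    rintro a v ⟨b, hb⟩
    refine ⟨‖a‖ * b, fun m => ?_⟩
    rw [map_smul, norm_smul]
    gcongr
    exact hb m

theorem mem_Bd {x : X} {v : E} : v ∈ c.Bd x ↔ ∃ b : ℝ, ∀ m, ‖c.word x (ids E) m v‖ ≤ b := Iff.rfl

theorem word_ids_succ (x : X) (m : ℕ) (v : E) :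
    c.word x (ids E) (m + 1) v = c.word (c.f x) (ids E) m (c.A x v) := by
  rw [c.word_front]
  rfl

theorem word_ids_succ' (x : X) (m : ℕ) (v : E) :
    c.word x (ids E) (m + 1) v = c.A (c.f^[m] x) (c.word x (ids E) m v) := rfl

theorem A_mem_Bd {x : X} {v : E} : c.A x v ∈ c.Bd (c.f x) ↔ v ∈ c.Bd x := by
  constructor
  · rintro ⟨b, hb⟩
    refine ⟨max b ‖v‖, fun m => ?_⟩
    cases m with
    | zero => exact le_max_right _ _
    | succ m =>
      rw [word_ids_succ]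
      exact (hb m).trans (le_max_left _ _)
  · rintro ⟨b, hb⟩
    refine ⟨b, fun m => ?_⟩
    rw [← word_ids_succ]
    exact hb (m + 1)

variable {c}

/-- bounded vectors are uniformly contracted -/
theorem bd_contract {δ q C C₆ : ℝ} (hδ : 0 < δ) (hδ1 : δ ≤ 1) (hq0 : 0 < q) (hq1 : q < 1)
    (hC : 1 ≤ C) (hW : c.Win1 δ q C) (hC₆ : 0 ≤ C₆)
    (h6 : ∀ (x : X) (m : ℕ), ∃ n₀ : ℕ, ∀ n ≥ n₀,
      ∀ S : Submodule ℝ E, Sep (C * q ^ n) (c.word x (ids E) n) S → ∀ v ∈ S,
        ‖c.word x (ids E) m v‖ ≤ C₆ * q ^ m * ‖v‖) {x : X} {v : E} (hv : v ∈ c.Bd x) (m : ℕ) :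
    ‖c.word x (ids E) m v‖ ≤ C₆ * q ^ m * ‖v‖ := by
  obtain ⟨b, hb⟩ := hv
  obtain ⟨n₀, hn₀⟩ := h6 x m
  have hids : ∀ i, Near δ (ids E i) := fun i => near_refl hδ.le
  have key : ∀ n ≥ n₀, ‖c.word x (ids E) m v‖ ≤ C₆ * q ^ m * ‖v‖ +
      (2 * c.Λ) ^ m * (C * q ^ n * b + (C * q ^ n) ^ 2 * ‖v‖) := by
    intro n hn
    obtain ⟨S, hS⟩ := hW.ids hδ.le x n
    have h1 := hn₀ n hn S hS _ (Submodule.starProjection_apply_mem S v)
    have h2 := hS.comp (by positivity) v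
    have h3 := c.word_bd x hδ1 hids m (Sᗮ.starProjection v)
    have h4 : ‖S.starProjection v‖ ≤ ‖v‖ := Submodule.norm_starProjection_apply_le S v
    have h5 : c.word x (ids E) m v = c.word x (ids E) m (S.starProjection v) +
        c.word x (ids E) m (Sᗮ.starProjection v) := by
      rw [← map_add, add_comm, star_add]
    have hΛ := c.one_le
    rw [h5]
    calc _ ≤ ‖c.word x (ids E) m (S.starProjection v)‖ +
          ‖c.word x (ids E) m (Sᗮ.starProjection v)‖ := norm_add_le _ _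
      _ ≤ C₆ * q ^ m * ‖v‖ + (2 * c.Λ) ^ m * (C * q ^ n * b + (C * q ^ n) ^ 2 * ‖v‖) := by
        gcongr
        · exact h1.trans (by gcongr)
        · refine h3.trans ?_
          gcongr
          refine h2.trans ?_
          gcongr
          exact hb n
  have hlim : Tendsto (fun n : ℕ => C₆ * q ^ m * ‖v‖ +
      (2 * c.Λ) ^ m * (C * q ^ n * b + (C * q ^ n) ^ 2 * ‖v‖)) atTop
      (𝓝 (C₆ * q ^ m * ‖v‖ + (2 * c.Λ) ^ m * (C * 0 * b + (C * 0) ^ 2 * ‖v‖))) := by
    have h1 := tendsto_pow_atTop_nhds_zero_of_lt_one hq0.le hq1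
    exact tendsto_const_nhds.add (tendsto_const_nhds.mul (((tendsto_const_nhds.mul h1).mul
      tendsto_const_nhds).add (((tendsto_const_nhds.mul h1).pow 2).mul tendsto_const_nhds)))
  have h7 := ge_of_tendsto hlim (eventually_atTop.2 ⟨n₀, key⟩)
  simpa using h7

/-- the dimension of the space of the bounded vectors -/
theorem finrank_le_Bd {q C C₆ : ℝ} (hq0 : 0 < q) (hq1 : q < 1) (hC₆ : 0 ≤ C₆)
    (h6 : ∀ (x : X) (m : ℕ), ∃ n₀ : ℕ, ∀ n ≥ n₀,
      ∀ S : Submodule ℝ E, Sep (C * q ^ n) (c.word x (ids E) n) S → ∀ v ∈ S,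
        ‖c.word x (ids E) m v‖ ≤ C₆ * q ^ m * ‖v‖) {x : X} {k n₁ : ℕ}
    (hk : ∀ n ≥ n₁, ∃ S : Submodule ℝ E, Sep (C * q ^ n) (c.word x (ids E) n) S ∧
      k ≤ Module.finrank ℝ S) : k ≤ Module.finrank ℝ (c.Bd x) := by
  -- orthonormal families
  have h1 : ∀ n : ℕ, ∃ e : Fin k → E, Orthonormal ℝ e ∧ ∀ S : Submodule ℝ E, True →
      ∃ S' : Submodule ℝ E, Sep (C * q ^ (n₁ + n)) (c.word x (ids E) (n₁ + n)) S' ∧
        ∀ i, e i ∈ S' := by
    intro n
    obtain ⟨S, hS, hkS⟩ := hk (n₁ + n) (by omega)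
    refine ⟨fun i => (stdOrthonormalBasis ℝ S (Fin.castLE hkS i) : E), ?_, fun _ _ =>
      ⟨S, hS, fun i => Subtype.mem _⟩⟩
    have h2 : Orthonormal ℝ (fun i : Fin (Module.finrank ℝ S) => (stdOrthonormalBasis ℝ S i : E)) := by
      have := (stdOrthonormalBasis ℝ S).orthonormal
      exact this.comp_linearIsometry S.subtypeₗᵢ
    exact h2.comp _ (Fin.castLE_injective hkS)
  choose e he1 he2 using h1
  have hcomp : IsCompact (closedBall (0 : Fin k → E) 1) := by
    have : ProperSpace (Fin k → E) := by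
      have : ProperSpace E := FiniteDimensional.proper ℝ E
      infer_instance
    exact isCompact_closedBall _ _
  obtain ⟨g, -, φ, hφ, hlim⟩ := hcomp.tendsto_subseq (x := e) (fun n => by
    rw [mem_closedBall, dist_zero_right, pi_norm_le_iff_of_nonneg zero_le_one]
    exact fun i => ((he1 n).1 i).le)
  have hlimi : ∀ i, Tendsto (fun n => e (φ n) i) atTop (𝓝 (g i)) := fun i =>
    ((continuous_apply i).tendsto g).comp hlim
  have hg : Orthonormal ℝ g := by
    constructor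
    · intro i
      have h3 := (hlimi i).norm
      simp only [(he1 _).1 i] at h3
      exact tendsto_nhds_unique h3 tendsto_const_nhds
    · intro i j hij
      have h3 : Tendsto (fun n => inner ℝ (e (φ n) i) (e (φ n) j)) atTop
          (𝓝 (inner ℝ (g i) (g j))) := (hlimi i).inner (hlimi j)
      have h4 : ∀ n, inner ℝ (e (φ n) i) (e (φ n) j) = (0 : ℝ) := fun n => (he1 _).2 hij
      simp only [h4] at h3
      exact (tendsto_nhds_unique h3 tendsto_const_nhds)
  have hmem : ∀ i, g i ∈ c.Bd x := by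
    intro i
    refine ⟨C₆, fun m => ?_⟩
    obtain ⟨n₀, hn₀⟩ := h6 x m
    have h3 : Tendsto (fun n => ‖c.word x (ids E) m (e (φ n) i)‖) atTop
        (𝓝 ‖c.word x (ids E) m (g i)‖) :=
      (((c.word x (ids E) m).continuous.tendsto _).comp (hlimi i)).norm
    refine le_of_tendsto h3 (eventually_atTop.2 ⟨n₀, fun n hn => ?_⟩)
    obtain ⟨S', hS', hS'e⟩ := he2 (φ n) ⊤ trivial
    have h4 := hn₀ (n₁ + φ n) (by
      have := hφ.id_le n
      simp only [id] at this
      omega) S' hS' _ (hS'e i)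
    rw [(he1 _).1 i, mul_one] at h4
    refine h4.trans ?_
    have : q ^ m ≤ 1 := pow_le_one₀ hq0.le hq1.le
    nlinarith
  have h5 : LinearIndependent ℝ (fun i => (⟨g i, hmem i⟩ : c.Bd x)) := by
    apply LinearIndependent.of_comp (c.Bd x).subtype
    exact hg.linearIndependent
  have h6 := h5.fintype_card_le_finrank
  rwa [Fintype.card_fin] at h6

/-- comparison of the dimensions of the separating subspaces -/
theorem sep_finrank_le {κ Λ : ℝ} (hκ : 0 ≤ κ) (h : κ ^ 2 * Λ ^ 2 < 1) {Z₁ Z₂ B : E ≃L[ℝ] E}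
    {S₁ S₂ : Submodule ℝ E} (h1 : Sep κ Z₁ S₁) (h2 : Sep κ Z₂ S₂)
    (hB : ∀ v, ‖Z₁ (B v)‖ ≤ Λ * ‖Z₂ v‖) (hB' : ∀ v, ‖v‖ ≤ Λ * ‖B v‖) (hΛ : 0 ≤ Λ) :
    Module.finrank ℝ S₂ ≤ Module.finrank ℝ S₁ := by
  have hdis : Disjoint (S₂.map (B : E →ₗ[ℝ] E)) S₁ᗮ := by
    rw [Submodule.disjoint_def]
    rintro _ ⟨v, hv, rfl⟩ hv'
    have e1 : ‖B v‖ ≤ κ * ‖Z₁ (B v)‖ := h1.2 _ hv'
    have e2 := h2.1 v hv
    have e3 := hB v
    have e4 := hB' v
    have e5 : ‖B v‖ ≤ κ ^ 2 * Λ ^ 2 * ‖B v‖ := by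
      calc ‖B v‖ ≤ κ * (Λ * (κ * ‖v‖)) := e1.trans (by
            gcongr
            exact e3.trans (by gcongr))
        _ ≤ κ * (Λ * (κ * (Λ * ‖B v‖))) := by gcongr
        _ = _ := by ring
    have e6 : ‖B v‖ = 0 := by
      have := norm_nonneg (B v)
      nlinarith
    exact norm_eq_zero.1 e6
  have h3 := Submodule.finrank_add_finrank_le_of_disjoint hdis
  have h4 : Module.finrank ℝ (S₂.map (B : E →ₗ[ℝ] E)) = Module.finrank ℝ S₂ :=
    LinearEquiv.finrank_map_eq B.toLinearEquiv S₂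
  have h5 := Submodule.finrank_add_finrank_orthogonal S₁
  omega

/-- the dimension of the separating subspaces of long words is constant along orbits -/
theorem exists_dim {δ q C : ℝ} (hδ : 0 < δ) (hq0 : 0 < q) (hq1 : q < 1) (hC : 1 ≤ C)
    (hW : c.Win1 δ q C) : ∃ (k : X → ℕ) (n₁ : ℕ), (∀ x, k (c.f x) = k x) ∧
      (∀ n ≥ n₁, (C * q ^ n) ^ 2 * c.Λ ^ 2 < 1) ∧
      ∀ (x : X) (n : ℕ), n₁ ≤ n → ∀ S, Sep (C * q ^ n) (c.word x (ids E) n) S →
        Module.finrank ℝ S = k x := by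
  have hΛ := c.one_le
  have hids : ∀ i, Near δ (ids E i) := fun i => near_refl hδ.le
  obtain ⟨n₁, hn₁⟩ := exists_pow_lt_of_lt_one (show (0 : ℝ) < 1 / (C ^ 2 * c.Λ ^ 2) by positivity) hq1
  have hκ : ∀ n ≥ n₁, (C * q ^ n) ^ 2 * c.Λ ^ 2 < 1 := by
    intro n hn
    have h1 : q ^ n ≤ q ^ n₁ := pow_le_pow_of_le_one hq0.le hq1.le hn
    have h2 : q ^ n < 1 / (C ^ 2 * c.Λ ^ 2) := lt_of_le_of_lt h1 hn₁
    rw [lt_div_iff₀ (by positivity)] at h2
    have h3 : q ^ n ≤ 1 := pow_le_one₀ hq0.le hq1.le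
    have h4 : 0 < q ^ n := by positivity
    have h5 : 0 < C ^ 2 * c.Λ ^ 2 := by positivity
    calc (C * q ^ n) ^ 2 * c.Λ ^ 2 = q ^ n * (q ^ n * (C ^ 2 * c.Λ ^ 2)) := by ring
      _ < q ^ n * 1 := by gcongr
      _ ≤ 1 := by rw [mul_one]; exact h3
  choose S₀ hS₀ using fun x => hW.ids hδ.le x n₁
  -- two separators of the same word
  have same : ∀ (x : X) (n : ℕ), n₁ ≤ n → ∀ S S', Sep (C * q ^ n) (c.word x (ids E) n) S →
      Sep (C * q ^ n) (c.word x (ids E) n) S' → Module.finrank ℝ S' ≤ Module.finrank ℝ S := by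
    intro x n hn S S' hS hS'
    refine sep_finrank_le (B := ContinuousLinearEquiv.refl ℝ E) (by positivity) (hκ n hn) hS hS' ?_ ?_
      (by linarith)
    · intro v
      have := norm_nonneg (c.word x (ids E) n v)
      show ‖c.word x (ids E) n v‖ ≤ _
      nlinarith
    · intro v
      have := norm_nonneg v
      show ‖v‖ ≤ c.Λ * ‖v‖
      nlinarith
  have hmonoS : ∀ (n : ℕ) (W : E ≃L[ℝ] E) (S : Submodule ℝ E), Sep (C * q ^ (n + 1)) W S →
      Sep (C * q ^ n) W S := fun n W S hS => hS.mono (by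
        gcongr ?_ * ?_
        exact pow_le_pow_of_le_one hq0.le hq1.le (by omega))
  have hup : ∀ (x : X) (n : ℕ) (v : E), ‖c.word x (ids E) (n + 1) v‖ ≤
      c.Λ * ‖c.word x (ids E) n v‖ := fun x n v => by
    rw [word_ids_succ']
    exact c.bd _ _
  have hlow : ∀ (x : X) (n : ℕ) (v : E), ‖c.word x (ids E) n v‖ ≤
      c.Λ * ‖c.word x (ids E) (n + 1) v‖ := fun x n v => by
    rw [word_ids_succ']
    have := c.bd' (c.f^[n] x) (c.A (c.f^[n] x) (c.word x (ids E) n v))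
    rwa [ContinuousLinearEquiv.symm_apply_apply] at this
  have hself : ∀ v : E, ‖v‖ ≤ c.Λ * ‖(ContinuousLinearEquiv.refl ℝ E) v‖ := by
    intro v
    have := norm_nonneg v
    show ‖v‖ ≤ c.Λ * ‖v‖
    nlinarith
  have hdim : ∀ (x : X) (n : ℕ), n₁ ≤ n → ∀ S, Sep (C * q ^ n) (c.word x (ids E) n) S →
        Module.finrank ℝ S = Module.finrank ℝ (S₀ x) := by
    intro x n hn
    induction n, hn using Nat.le_induction with
    | base =>
      intro S hS
      exact le_antisymm (same x n₁ le_rfl _ _ (hS₀ x) hS) (same x n₁ le_rfl _ _ hS (hS₀ x))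
    | succ n hn ih =>
      intro S hS
      obtain ⟨T, hT⟩ := hW.ids hδ.le x n
      rw [← ih T hT]
      have hS' := hmonoS n _ S hS
      apply le_antisymm
      · exact sep_finrank_le (B := ContinuousLinearEquiv.refl ℝ E) (by positivity) (hκ n hn) hT hS'
          (fun v => hlow x n v) hself (by linarith)
      · exact sep_finrank_le (B := ContinuousLinearEquiv.refl ℝ E) (by positivity) (hκ n hn) hS' hT
          (fun v => hup x n v) hself (by linarith)
  refine ⟨fun x => Module.finrank ℝ (S₀ x), n₁, fun x => ?_, hκ, hdim⟩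
  obtain ⟨T, hT⟩ := hW.ids hδ.le x (n₁ + 1)
  obtain ⟨T', hT'⟩ := hW.ids hδ.le (c.f x) n₁
  show Module.finrank ℝ (S₀ (c.f x)) = Module.finrank ℝ (S₀ x)
  rw [← hdim x (n₁ + 1) (by omega) T hT, ← hdim (c.f x) n₁ le_rfl T' hT']
  have hT2 := hmonoS n₁ _ T hT
  apply le_antisymm
  · refine sep_finrank_le (B := (c.A x).symm) (by positivity) (hκ n₁ le_rfl) hT2 hT' ?_ ?_
      (by linarith)
    · intro v
      rw [word_ids_succ, ContinuousLinearEquiv.apply_symm_apply]
      have := norm_nonneg (c.word (c.f x) (ids E) n₁ v)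
      nlinarith
    · intro v
      have := c.bd x ((c.A x).symm v)
      rwa [ContinuousLinearEquiv.apply_symm_apply] at this
  · refine sep_finrank_le (B := c.A x) (by positivity) (hκ n₁ le_rfl) hT' hT2 ?_ ?_
      (by linarith)
    · intro v
      rw [word_ids_succ]
      have := norm_nonneg (c.word (c.f x) (ids E) n₁ (c.A x v))
      nlinarith
    · intro v
      have := c.bd' x (c.A x v)
      rwa [ContinuousLinearEquiv.symm_apply_apply] at this

theorem inv_word_cancel (x : X) (m : ℕ) (v : E) :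
    c.word (c.f.symm^[m] x) (ids E) m (c.inv.word x (ids E) m v) = v := by
  induction m with
  | zero => rfl
  | succ m ih =>
    have e0 : c.f (c.f.symm^[m + 1] x) = c.f.symm^[m] x := by
      rw [Function.iterate_succ_apply' (f := (c.f.symm : X → X)), Equiv.apply_symm_apply]
    rw [word_ids_succ, e0]
    have e1 : c.A (c.f.symm^[m + 1] x) (c.inv.word x (ids E) (m + 1) v) =
        c.inv.word x (ids E) m v := by
      rw [word_ids_succ']
      have e2 : c.inv.A (c.inv.f^[m] x) = (c.A (c.f.symm^[m + 1] x)).symm := by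
        rw [Function.iterate_succ_apply' (f := (c.f.symm : X → X)) m]
        rfl
      rw [e2, ContinuousLinearEquiv.apply_symm_apply]
    rw [e1, ih]

theorem inv_word_mem {x : X} {v : E} (hv : v ∈ c.Bd x) (m : ℕ) :
    c.inv.word x (ids E) m v ∈ c.Bd (c.f.symm^[m] x) := by
  induction m with
  | zero => exact hv
  | succ m ih =>
    rw [← c.A_mem_Bd]
    have e0 : c.f (c.f.symm^[m + 1] x) = c.f.symm^[m] x := by
      rw [Function.iterate_succ_apply' (f := (c.f.symm : X → X)), Equiv.apply_symm_apply]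
    have e1 : c.A (c.f.symm^[m + 1] x) (c.inv.word x (ids E) (m + 1) v) =
        c.inv.word x (ids E) m v := by
      rw [word_ids_succ']
      have e2 : c.inv.A (c.inv.f^[m] x) = (c.A (c.f.symm^[m + 1] x)).symm := by
        rw [Function.iterate_succ_apply' (f := (c.f.symm : X → X)) m]
        rfl
      rw [e2, ContinuousLinearEquiv.apply_symm_apply]
    rw [e1, e0]
    exact ih

/-- **Hyperbolic splitting** from the window property of the words with one perturbation. -/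
theorem splitting1 {δ q C : ℝ} (hδ16 : 0 < δ) (hδ16' : δ ≤ 1) (hq0 : 0 < q) (hq1 : q < 1)
    (hC1 : 1 ≤ C) (hW : c.Win1 δ q C) (hW' : c.inv.Win1 δ q C) :
    ∃ (C' : ℝ) (n₁ : ℕ), 1 ≤ C' ∧ (∀ x, IsCompl (c.Bd x) (c.inv.Bd x) ∧
      (∀ v ∈ c.Bd x, ∀ m, ‖c.word x (ids E) m v‖ ≤ C' * q ^ m * ‖v‖) ∧
      ∀ v ∈ c.inv.Bd x, ∀ m, ‖c.inv.word x (ids E) m v‖ ≤ C' * q ^ m * ‖v‖) ∧
      ∀ (x : X) (n : ℕ), n₁ ≤ n → ∀ S, Sep (C * q ^ n) (c.word x (ids E) n) S →
        Module.finrank ℝ S = Module.finrank ℝ (c.Bd x) := by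
  have hΛ := c.one_le
  obtain ⟨D, hD, hcon⟩ := small_contract hδ16 hδ16' hq0 hq1 hC1 hW
  obtain ⟨D', hD', hcon'⟩ := small_contract hδ16 hδ16' hq0 hq1 hC1 hW'
  have hD0 : 0 ≤ D := by linarith
  have hD0' : 0 ≤ D' := by linarith
  have hbd := fun (x : X) (v : E) (hv : v ∈ c.Bd x) (m : ℕ) =>
    bd_contract hδ16 hδ16' hq0 hq1 hC1 hW hD0 hcon hv m
  have hbd' := fun (x : X) (v : E) (hv : v ∈ c.inv.Bd x) (m : ℕ) =>
    bd_contract hδ16 hδ16' hq0 hq1 hC1 hW' hD0' hcon' hv m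
  obtain ⟨k, n₁, hk1, hk2, hk3⟩ := exists_dim hδ16 hq0 hq1 hC1 hW
  have hids : ∀ i, Near δ (ids E i) := fun i => near_refl hδ16.le
  have hmain : ∀ x, IsCompl (c.Bd x) (c.inv.Bd x) ∧ k x = Module.finrank ℝ (c.Bd x) := by
    intro x
    have hdis : Disjoint (c.Bd x) (c.inv.Bd x) := by
      rw [Submodule.disjoint_def]
      intro v hv hv'
      have key : ∀ m : ℕ, ‖v‖ ≤ D * D' * ‖v‖ * (q ^ 2) ^ m := by
        intro m
        have h1 := hbd _ _ (inv_word_mem hv m) m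
        rw [inv_word_cancel] at h1
        have h2 := hbd' x v hv' m
        calc ‖v‖ ≤ D * q ^ m * ‖c.inv.word x (ids E) m v‖ := h1
          _ ≤ D * q ^ m * (D' * q ^ m * ‖v‖) := by gcongr
          _ = _ := by rw [← pow_mul, mul_comm 2 m, pow_mul]; ring
      have hlim : Tendsto (fun m : ℕ => D * D' * ‖v‖ * (q ^ 2) ^ m) atTop (𝓝 (D * D' * ‖v‖ * 0)) :=
        tendsto_const_nhds.mul (tendsto_pow_atTop_nhds_zero_of_lt_one (by positivity) (by nlinarith))
      have h3 := ge_of_tendsto' hlim key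
      rw [mul_zero] at h3
      exact norm_le_zero_iff.1 h3
    have hkn : ∀ n : ℕ, k (c.f.symm^[n] x) = k x := by
      intro n
      induction n with
      | zero => rfl
      | succ n ih =>
        rw [← ih, ← hk1 (c.f.symm^[n + 1] x), Function.iterate_succ_apply' (f := (c.f.symm : X → X)),
          Equiv.apply_symm_apply]
    have hdim1 : k x ≤ Module.finrank ℝ (c.Bd x) := by
      apply finrank_le_Bd hq0 hq1 hD0 hcon (n₁ := n₁)
      intro n hn
      obtain ⟨S, hS⟩ := hW.ids hδ16.le x n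
      exact ⟨S, hS, (hk3 x n hn S hS).ge⟩
    have hdim2 : Module.finrank ℝ E - k x ≤ Module.finrank ℝ (c.inv.Bd x) := by
      apply finrank_le_Bd hq0 hq1 hD0' hcon' (n₁ := n₁)
      intro n hn
      obtain ⟨S', hS'⟩ := hW'.ids hδ16.le x n
      refine ⟨S', hS', ?_⟩
      obtain ⟨S, hS⟩ := hW.ids hδ16.le (c.f.symm^[n] x) n
      have e1 := hk3 _ n hn S hS
      rw [hkn] at e1
      have hd : Disjoint (Sᗮ.map ((c.word (c.f.symm^[n] x) (ids E) n : E ≃L[ℝ] E) : E →ₗ[ℝ] E))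
          S'ᗮ := by
        rw [Submodule.disjoint_def]
        rintro _ ⟨u, hu, rfl⟩ hz
        obtain ⟨z, hzd⟩ : ∃ z, z = c.word (c.f.symm^[n] x) (ids E) n u := ⟨_, rfl⟩
        have f1 : ‖u‖ ≤ C * q ^ n * ‖z‖ := by rw [hzd]; exact hS.2 u hu
        have f2 : ‖z‖ ≤ C * q ^ n * ‖c.inv.word x (ids E) n z‖ := by
          apply hS'.2
          rw [hzd]
          exact hz
        have f3 : c.inv.word x (ids E) n z = u := by
          apply (c.word (c.f.symm^[n] x) (ids E) n).injective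
          rw [inv_word_cancel, hzd]
        rw [f3] at f2
        have f4 := hk2 n hn
        have f5 : ‖z‖ ≤ (C * q ^ n) ^ 2 * ‖z‖ := by
          calc ‖z‖ ≤ C * q ^ n * (C * q ^ n * ‖z‖) := f2.trans (by gcongr)
            _ = _ := by ring
        have f6 : (C * q ^ n) ^ 2 < 1 := by
          have g1 : (1 : ℝ) ≤ c.Λ ^ 2 := one_le_pow₀ hΛ
          have g2 : 0 ≤ (C * q ^ n) ^ 2 := by positivity
          nlinarith
        have f7 : ‖z‖ = 0 := by
          have := norm_nonneg z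
          nlinarith
        show c.word (c.f.symm^[n] x) (ids E) n u = 0
        rw [← hzd]
        exact norm_eq_zero.1 f7
      have e2 := Submodule.finrank_add_finrank_le_of_disjoint hd
      have e3 : Module.finrank ℝ (Sᗮ.map ((c.word (c.f.symm^[n] x) (ids E) n : E ≃L[ℝ] E) :
          E →ₗ[ℝ] E)) = Module.finrank ℝ Sᗮ :=
        LinearEquiv.finrank_map_eq (c.word (c.f.symm^[n] x) (ids E) n).toLinearEquiv Sᗮ
      have e4 := Submodule.finrank_add_finrank_orthogonal S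
      have e5 := Submodule.finrank_add_finrank_orthogonal S'
      omega
    have hsum := Submodule.finrank_add_finrank_le_of_disjoint hdis
    have hkE : k x ≤ Module.finrank ℝ E := hdim1.trans (Submodule.finrank_le _)
    refine ⟨?_, by omega⟩
    rw [Submodule.isCompl_iff_disjoint _ _ (by omega)]
    exact hdis
  refine ⟨max D D', n₁, le_max_of_le_left (by linarith), fun x => ⟨(hmain x).1, ?_, ?_⟩,
    fun x n hn S hS => (hk3 x n hn S hS).trans (hmain x).2⟩
  · intro v hv m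
    refine (hbd x v hv m).trans ?_
    gcongr
    exact le_max_left _ _
  · intro v hv m
    refine (hbd' x v hv m).trans ?_
    gcongr
    exact le_max_right _ _

/-- **Hyperbolic splitting.** -/
theorem Hyp.splitting {δ C₀ : ℝ} (hδ : 0 < δ) (hδ1 : δ ≤ 1) (h : c.Hyp δ C₀) :
    ∃ q, 0 < q ∧ q < 1 ∧ ∃ C, 1 ≤ C ∧ ∀ x, IsCompl (c.Bd x) (c.inv.Bd x) ∧
      (∀ v ∈ c.Bd x, ∀ m, ‖c.word x (ids E) m v‖ ≤ C * q ^ m * ‖v‖) ∧
      ∀ v ∈ c.inv.Bd x, ∀ m, ‖c.inv.word x (ids E) m v‖ ≤ C * q ^ m * ‖v‖ := by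
  obtain ⟨q₁, hq₁0, hq₁1, C₁, hC₁, hW₁⟩ := h.win hδ hδ1
  obtain ⟨q₂, hq₂0, hq₂1, C₂, hC₂, hW₂⟩ := (Coc.Hyp.inv h).win hδ hδ1
  have hq0 : 0 < max q₁ q₂ := lt_max_of_lt_left hq₁0
  have hq1 : max q₁ q₂ < 1 := max_lt hq₁1 hq₂1
  have hW : c.Win (δ / 16) (max q₁ q₂) (max C₁ C₂) :=
    hW₁.mono hq₁0.le (by linarith) (le_max_left _ _) (le_max_left _ _)
  have hW' : c.inv.Win (δ / 16) (max q₁ q₂) (max C₁ C₂) :=
    hW₂.mono hq₂0.le (by linarith) (le_max_right _ _) (le_max_right _ _)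
  obtain ⟨C', n₁, hC', h1, -⟩ := splitting1 (by positivity : 0 < δ / 16) (by linarith) hq0 hq1
    (le_max_of_le_left hC₁) (hW.win1 (by positivity)) (hW'.win1 (by positivity))
  exact ⟨_, hq0, hq1, C', hC', h1⟩

end Coc

end Pool.Agent.H245.SH
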