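import Pool.Agent.H245.SH.B0
import Pool.Graph.R_seed8.Y271.CP.Defs

/-!
# Smooth families of diffeomorphisms of a product manifold, fibred over the second factor
-/

set_option autoImplicit false
set_option linter.unusedSectionVars false

open scoped Manifold ContDiff Topology NNReal
open Filter Set Metric

universe u v w

namespace Pool.Agent.H245.SH

open Pool.Agent.H718R2.G Pool.Agent.W564.SC Pool.Agent.TH80.OMS Pool.Agent.Y271.CP

section df

variable {P : Type} [NormedAddCommGroup P] [NormedSpace ℝ P] {n : ℕ} {N : Type u}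
  [TopologicalSpace N] [ChartedSpace (V n) N]

/-- a smooth family of diffeomorphisms with the inverse family, the identity at the parameter `0` -/
structure IsDF (n : ℕ) {N : Type u} [TopologicalSpace N] [ChartedSpace (V n) N]
    (H H' : P → N → N) : Prop where
  smooth : ContMDiff (𝓘(ℝ, P).prod (𝓡 n)) (𝓡 n) ∞ (fun q : P × N => H q.1 q.2)
  smooth' : ContMDiff (𝓘(ℝ, P).prod (𝓡 n)) (𝓡 n) ∞ (fun q : P × N => H' q.1 q.2)
  inv : ∀ p z, H' p (H p z) = z
  inv' : ∀ p z, H p (H' p z) = z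
  zero : ∀ z, H 0 z = z

theorem IsDF.id : IsDF n (fun (_ : P) (z : N) => z) (fun (_ : P) (z : N) => z) where
  smooth := contMDiff_snd
  smooth' := contMDiff_snd
  inv := fun _ _ => rfl
  inv' := fun _ _ => rfl
  zero := fun _ => rfl

theorem IsDF.comp {H₁ H₁' H₂ H₂' : P → N → N} (h₁ : IsDF n H₁ H₁') (h₂ : IsDF n H₂ H₂') :
    IsDF n (fun p z => H₂ p (H₁ p z)) (fun p z => H₁' p (H₂' p z)) where
  smooth := h₂.smooth.comp (contMDiff_fst.prodMk h₁.smooth)
  smooth' := h₁.smooth'.comp (contMDiff_fst.prodMk h₂.smooth')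
  inv := fun p z => by
    show H₁' p (H₂' p (H₂ p (H₁ p z))) = z
    rw [h₂.inv, h₁.inv]
  inv' := fun p z => by
    show H₂ p (H₁ p (H₁' p (H₂' p z))) = z
    rw [h₁.inv', h₂.inv']
  zero := fun z => by
    show H₂ 0 (H₁ 0 z) = z
    rw [h₁.zero, h₂.zero]

/-- the diffeomorphisms `H p ∘ F` -/
noncomputable def IsDF.fam {H H' : P → N → N} (h : IsDF n H H') {r : ℕ∞} (F : DiffM n N r) (p : P) :
    DiffM n N r :=
  have hr : ((r : ℕ∞) : WithTop ℕ∞) ≤ ∞ := by exact_mod_cast le_top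
  F.trans ⟨⟨H p, H' p, h.inv p, h.inv' p⟩,
    (h.smooth.comp (contMDiff_const.prodMk contMDiff_id)).of_le hr,
    (h.smooth'.comp (contMDiff_const.prodMk contMDiff_id)).of_le hr⟩

theorem IsDF.fam_apply {H H' : P → N → N} (h : IsDF n H H') {r : ℕ∞} (F : DiffM n N r) (p : P)
    (z : N) : h.fam F p z = H p (F z) := rfl

theorem IsDF.fam_isFam {H H' : P → N → N} (h : IsDF n H H') {r : ℕ∞} (F : DiffM n N r) :
    IsFam n N r (h.fam F) := by
  have hr : ((r : ℕ∞) : WithTop ℕ∞) ≤ ∞ := by exact_mod_cast le_top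
  intro y
  have h1 : ContMDiff (𝓘(ℝ, P).prod (𝓡 n)) (𝓡 n) r (fun q : P × N => H q.1 (F q.2)) :=
    (h.smooth.of_le hr).comp (contMDiff_fst.prodMk (F.contMDiff.comp contMDiff_snd))
  exact h1.contMDiffAt

theorem IsDF.fam_zero {H H' : P → N → N} (h : IsDF n H H') {r : ℕ∞} (F : DiffM n N r) :
    h.fam F 0 = F := by
  ext z
  rw [h.fam_apply, h.zero]

/-- small parameters stay in a neighbourhood of `F` -/
theorem IsDF.fam_mem [T2Space N] [CompactSpace N] [IsManifold (𝓡 n) ∞ N] {H H' : P → N → N}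
    (h : IsDF n H H') {r : ℕ∞} (hr : 1 ≤ r) (F : DiffM n N r) (z : N) (U : Set (DiffM n N r))
    (hU : IsOpen[strongTop n N r] U) (hF : F ∈ U) : ∃ κ : ℝ, 0 < κ ∧ ∀ p : P, ‖p‖ < κ →
      h.fam F p ∈ U :=
  Pool.Agent.TH80.CLX.fam_mem r hr (h.fam F) (h.fam_isFam F) z U hU (by rw [h.fam_zero]; exact hF)

end df

section push

variable {P : Type} [NormedAddCommGroup P] [NormedSpace ℝ P]
  {m k n : ℕ} {M : Type v} [TopologicalSpace M] [T2Space M] [ChartedSpace (V m) M]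
  [IsManifold (𝓡 m) ∞ M]
  {Y : Type w} [TopologicalSpace Y] [ChartedSpace (V k) Y]
  {N : Type u} [TopologicalSpace N] [ChartedSpace (V n) N]

/-- push in the first factor, with the parameter `β y • π p` -/
noncomputable def ppush (Θ : ProdDiffeo m k n M Y N) {j : ℕ} (χ : OpenPartialHomeomorph M (V m))
    (F : V j × V m → V m) (β : Y → ℝ) (π : P →L[ℝ] V j) (p : P) (z : N) : N :=
  Θ (tr χ F (β (Θ.symm z).2 • π p) (Θ.symm z).1, (Θ.symm z).2)

theorem ppush_apply (Θ : ProdDiffeo m k n M Y N) {j : ℕ} (χ : OpenPartialHomeomorph M (V m))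
    (F : V j × V m → V m) (β : Y → ℝ) (π : P →L[ℝ] V j) (p : P) (x : M) (y : Y) :
    ppush Θ χ F β π p (Θ (x, y)) = Θ (tr χ F (β y • π p) x, y) := by
  unfold ppush
  rw [Diffeomorph.symm_apply_apply]

theorem good_closed {χ : OpenPartialHomeomorph M (V m)} {z : M} (hg : GoodChart m M χ z) :
    Metric.closedBall (0 : V m) (1 / 2) ⊆ χ.target ∧
      IsClosed (χ.symm '' Metric.closedBall (0 : V m) (1 / 2)) := by
  have hA : Metric.closedBall (0 : V m) (1 / 2) ⊆ χ.target :=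
    (Metric.closedBall_subset_closedBall (by norm_num)).trans hg.ball
  exact ⟨hA, ((isCompact_closedBall _ _).image_of_continuousOn
      (χ.continuousOn_symm.mono hA)).isClosed⟩

theorem tr_zero {χ : OpenPartialHomeomorph M (V m)} {j : ℕ} {F F' : V j × V m → V m}
    (hF : LFam j m F F') (x : M) : tr χ F 0 x = x := by
  by_cases hy : x ∈ χ.source
  · rw [tr_source hy, hF.zero, χ.left_inv hy]
  · exact tr_not_source hy

theorem ppush_smooth (Θ : ProdDiffeo m k n M Y N) {j : ℕ} {χ : OpenPartialHomeomorph M (V m)}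
    {F : V j × V m → V m} (hs : ContMDiff ((𝓡 j).prod (𝓡 m)) (𝓡 m) ∞
      (fun q : V j × M => tr χ F q.1 q.2)) {β : Y → ℝ} (hβ : ContMDiff (𝓡 k) 𝓘(ℝ, ℝ) ∞ β)
    (π : P →L[ℝ] V j) :
    ContMDiff (𝓘(ℝ, P).prod (𝓡 n)) (𝓡 n) ∞ (fun q : P × N => ppush Θ χ F β π q.1 q.2) := by
  have h1 : ContMDiff (𝓘(ℝ, P).prod (𝓡 n)) ((𝓡 m).prod (𝓡 k)) ∞
      (fun q : P × N => Θ.symm q.2) := Θ.symm.contMDiff.comp contMDiff_snd
  have h2 : ContMDiff (𝓘(ℝ, P).prod (𝓡 n)) (𝓡 m) ∞ (fun q : P × N => (Θ.symm q.2).1) :=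
    contMDiff_fst.comp h1
  have h3 : ContMDiff (𝓘(ℝ, P).prod (𝓡 n)) (𝓡 k) ∞ (fun q : P × N => (Θ.symm q.2).2) :=
    contMDiff_snd.comp h1
  have h4 : ContMDiff (𝓘(ℝ, P).prod (𝓡 n)) 𝓘(ℝ, ℝ) ∞ (fun q : P × N => β (Θ.symm q.2).2) :=
    hβ.comp h3
  have h5 : ContMDiff (𝓘(ℝ, P).prod (𝓡 n)) (𝓡 j) ∞ (fun q : P × N => π q.1) :=
    (π.contDiff.contMDiff).comp contMDiff_fst
  have h6 : ContMDiff (𝓘(ℝ, P).prod (𝓡 n)) (𝓡 j) ∞
      (fun q : P × N => β (Θ.symm q.2).2 • π q.1) := h4.smul h5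
  have h7 : ContMDiff (𝓘(ℝ, P).prod (𝓡 n)) (𝓡 m) ∞
      (fun q : P × N => tr χ F (β (Θ.symm q.2).2 • π q.1) (Θ.symm q.2).1) :=
    hs.comp (h6.prodMk h2)
  exact Θ.contMDiff.comp (h7.prodMk h3)

theorem ppush_isDF (Θ : ProdDiffeo m k n M Y N) {j : ℕ} {χ : OpenPartialHomeomorph M (V m)} {z : M}
    (hg : GoodChart m M χ z) {F F' : V j × V m → V m} (hF : LFam j m F F') {β : Y → ℝ}
    (hβ : ContMDiff (𝓡 k) 𝓘(ℝ, ℝ) ∞ β) (π : P →L[ℝ] V j) :
    IsDF n (ppush Θ χ F β π) (ppush Θ χ F' β π) := by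
  obtain ⟨hA, hcl⟩ := good_closed hg
  have hs := tr_smooth hg.mem hA hcl hF.inv hF.smooth hF.supp
  have hs' := tr_smooth hg.mem hA hcl hF.inv' hF.smooth' hF.supp'
  refine ⟨ppush_smooth Θ hs hβ π, ppush_smooth Θ hs' hβ π, fun p z => ?_, fun p z => ?_, fun z => ?_⟩
  · obtain ⟨⟨x, y⟩, rfl⟩ : ∃ q, Θ q = z := ⟨Θ.symm z, Θ.apply_symm_apply z⟩
    rw [ppush_apply, ppush_apply, tr_inv hA hF.inv hF.supp]
  · obtain ⟨⟨x, y⟩, rfl⟩ : ∃ q, Θ q = z := ⟨Θ.symm z, Θ.apply_symm_apply z⟩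
    rw [ppush_apply, ppush_apply, tr_inv hA hF.inv' hF.supp']
  · obtain ⟨⟨x, y⟩, rfl⟩ : ∃ q, Θ q = z := ⟨Θ.symm z, Θ.apply_symm_apply z⟩
    rw [ppush_apply, map_zero, smul_zero, tr_zero hF]

end push

section many

variable {m k n : ℕ} {M : Type v} [TopologicalSpace M] [T2Space M] [ChartedSpace (V m) M]
  [IsManifold (𝓡 m) ∞ M]
  {Y : Type w} [TopologicalSpace Y] [ChartedSpace (V k) Y]
  {N : Type u} [TopologicalSpace N] [ChartedSpace (V n) N]

/-- the parameters -/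
abbrev Par (S j : ℕ) := Fin S → V j

/-- the composition of the pushes with indices in the list `l` -/
noncomputable def mpush (Θ : ProdDiffeo m k n M Y N) {S j : ℕ}
    (χ : Fin S → OpenPartialHomeomorph M (V m)) (F : V j × V m → V m) (β : Fin S → Y → ℝ) :
    List (Fin S) → Par S j → N → N
  | [], _, z => z
  | i :: l, p, z => ppush Θ (χ i) F (β i) (ContinuousLinearMap.proj i) p (mpush Θ χ F β l p z)

/-- the composition of the inverses -/
noncomputable def mpush' (Θ : ProdDiffeo m k n M Y N) {S j : ℕ}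
    (χ : Fin S → OpenPartialHomeomorph M (V m)) (F : V j × V m → V m) (β : Fin S → Y → ℝ) :
    List (Fin S) → Par S j → N → N
  | [], _, z => z
  | i :: l, p, z => mpush' Θ χ F β l p (ppush Θ (χ i) F (β i) (ContinuousLinearMap.proj i) p z)

theorem mpush_isDF (Θ : ProdDiffeo m k n M Y N) {S j : ℕ}
    {χ : Fin S → OpenPartialHomeomorph M (V m)} {z : Fin S → M} (hg : ∀ i, GoodChart m M (χ i) (z i))
    {F F' : V j × V m → V m} (hF : LFam j m F F') {β : Fin S → Y → ℝ}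
    (hβ : ∀ i, ContMDiff (𝓡 k) 𝓘(ℝ, ℝ) ∞ (β i)) (l : List (Fin S)) :
    IsDF n (mpush Θ χ F β l) (mpush' Θ χ F' β l) := by
  induction l with
  | nil => exact IsDF.id
  | cons i l ih =>
    have h2 : IsDF n (ppush Θ (χ i) F (β i) (ContinuousLinearMap.proj i : Par S j →L[ℝ] V j))
        (ppush Θ (χ i) F' (β i) (ContinuousLinearMap.proj i : Par S j →L[ℝ] V j)) :=
      ppush_isDF Θ (hg i) hF (hβ i) _
    have h3 := ih.comp h2
    have e1 : mpush Θ χ F β (i :: l) = fun p z =>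
        ppush Θ (χ i) F (β i) (ContinuousLinearMap.proj i) p (mpush Θ χ F β l p z) := rfl
    have e2 : mpush' Θ χ F' β (i :: l) = fun p z =>
        mpush' Θ χ F' β l p (ppush Θ (χ i) F' (β i) (ContinuousLinearMap.proj i) p z) := rfl
    rw [e1, e2]
    exact h3

theorem mpush_zero (Θ : ProdDiffeo m k n M Y N) {S j : ℕ}
    {χ : Fin S → OpenPartialHomeomorph M (V m)} {F F' : V j × V m → V m} (hF : LFam j m F F')
    {β : Fin S → Y → ℝ} (p : Par S j) (x : M) (y : Y) (l : List (Fin S))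
    (h : ∀ i ∈ l, β i y = 0) : mpush Θ χ F β l p (Θ (x, y)) = Θ (x, y) := by
  induction l with
  | nil => rfl
  | cons i l ih =>
    show ppush Θ (χ i) F (β i) (ContinuousLinearMap.proj i) p (mpush Θ χ F β l p (Θ (x, y))) = _
    rw [ih fun i hi => h i (List.mem_cons_of_mem _ hi), ppush_apply, h i List.mem_cons_self, zero_smul,
      tr_zero hF]

theorem mpush_one (Θ : ProdDiffeo m k n M Y N) {S j : ℕ}
    {χ : Fin S → OpenPartialHomeomorph M (V m)} {F F' : V j × V m → V m} (hF : LFam j m F F')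
    {β : Fin S → Y → ℝ} (p : Par S j) (x : M) (y : Y) (i₀ : Fin S) (h1 : β i₀ y = 1)
    (h0 : ∀ i, i ≠ i₀ → β i y = 0) (l : List (Fin S)) (hl : l.Nodup) (hi₀ : i₀ ∈ l) :
    mpush Θ χ F β l p (Θ (x, y)) = Θ (tr (χ i₀) F (p i₀) x, y) := by
  induction l with
  | nil => simp at hi₀
  | cons i l ih =>
    show ppush Θ (χ i) F (β i) (ContinuousLinearMap.proj i) p (mpush Θ χ F β l p (Θ (x, y))) = _
    rw [List.nodup_cons] at hl
    by_cases hi : i = i₀
    · subst hi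
      rw [mpush_zero Θ hF p x y l fun i' hi' => h0 i' fun h => hl.1 (h ▸ hi'), ppush_apply, h1,
        one_smul]
      rfl
    · have hm : i₀ ∈ l := by
        rcases List.mem_cons.1 hi₀ with h | h
        · exact absurd h.symm hi
        · exact h
      rw [ih hl.2 hm, ppush_apply, h0 i hi, zero_smul, tr_zero hF]

/-- **The family of perturbations.** On the slice over `y` the map `G p` is `f` followed by the push
`p i` in the chart `χ i`, where `i` is the symbol of `h y`. -/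
theorem exists_family (Θ : ProdDiffeo m k n M Y N) [T2Space N] [CompactSpace N]
    [IsManifold (𝓡 n) ∞ N] {S j : ℕ}
    {χ : Fin S → OpenPartialHomeomorph M (V m)} {z : Fin S → M} (hg : ∀ i, GoodChart m M (χ i) (z i))
    {F F' : V j × V m → V m} (hF : LFam j m F F') {β : Fin S → Y → ℝ}
    (hβ : ∀ i, ContMDiff (𝓡 k) 𝓘(ℝ, ℝ) ∞ (β i)) {r : ℕ∞} (hr : 1 ≤ r) (G : DiffM n N r)
    {f : M → M} {h : Y → Y} (hG : ∀ x y, G (Θ (x, y)) = Θ (f x, h y)) (U : Set (DiffM n N r))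
    (hU : IsOpen[strongTop n N r] U) (hGU : G ∈ U) (z₀ : N) :
    ∃ κ : ℝ, 0 < κ ∧ ∀ p : Par S j, ‖p‖ < κ → ∃ g ∈ U, ∀ (x : M) (y : Y) (i : Fin S),
      β i (h y) = 1 → (∀ i', i' ≠ i → β i' (h y) = 0) →
      g (Θ (x, y)) = Θ (tr (χ i) F (p i) (f x), h y) := by
  have hDF := mpush_isDF (n := n) Θ hg hF hβ (List.finRange S)
  obtain ⟨κ, hκ, h1⟩ := hDF.fam_mem hr G z₀ U hU hGU
  refine ⟨κ, hκ, fun p hp => ⟨_, h1 p hp, fun x y i hi hi' => ?_⟩⟩
  rw [hDF.fam_apply, hG]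
  exact mpush_one Θ hF p (f x) (h y) i hi hi' _ (List.nodup_finRange S) (List.mem_finRange i)

end many

end Pool.Agent.H245.SH
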