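import Pool.Agent.H245.SH.B1

/-!
# Finite atlases and uniform bounds for a diffeomorphism
-/

set_option autoImplicit false
set_option linter.unusedSectionVars false

open scoped Manifold ContDiff Topology NNReal
open Filter Set Metric

universe u v w

namespace Pool.Agent.H245.SH

open Pool.Agent.H718R2.G Pool.Agent.W564.SC Pool.Agent.TH80.OMS

/-- a finite family of good charts whose small balls cover `M` -/
structure FAtlas (m : ℕ) (M : Type v) [TopologicalSpace M] [ChartedSpace (V m) M] where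
  J : ℕ
  χ : Fin J → OpenPartialHomeomorph M (V m)
  z : Fin J → M
  good : ∀ j, GoodChart m M (χ j) (z j)
  jx : M → Fin J
  src : ∀ x, x ∈ (χ (jx x)).source
  core : ∀ x, ‖χ (jx x) x‖ < 1 / 16

section

variable {m : ℕ} {M : Type v} [TopologicalSpace M] [ChartedSpace (V m) M]

theorem exists_fatlas (m : ℕ) (M : Type v) [TopologicalSpace M] [CompactSpace M]
    [ChartedSpace (V m) M] [IsManifold (𝓡 m) ∞ M] : Nonempty (FAtlas m M) := by
  choose χ hχ using fun z : M => Pool.Agent.W699.SC.gc m M z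
  have hO : ∀ z, IsOpen ((χ z).source ∩ (χ z) ⁻¹' ball (0 : V m) (1 / 16)) := fun z =>
    (χ z).isOpen_inter_preimage isOpen_ball
  obtain ⟨t, ht⟩ := isCompact_univ.elim_finite_subcover
    (fun z : M => (χ z).source ∩ (χ z) ⁻¹' ball (0 : V m) (1 / 16)) hO (fun z _ => by
      rw [mem_iUnion]
      refine ⟨z, (hχ z).src, ?_⟩
      rw [mem_preimage, (hχ z).zero, mem_ball, dist_self]
      norm_num)
  have hx : ∀ x : M, ∃ j : Fin t.card, x ∈ (χ (t.equivFin.symm j)).source ∧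
      ‖χ (t.equivFin.symm j) x‖ < 1 / 16 := by
    intro x
    have h1 := ht (mem_univ x)
    rw [mem_iUnion₂] at h1
    obtain ⟨z, hz, h2, h3⟩ := h1
    refine ⟨t.equivFin ⟨z, hz⟩, ?_⟩
    rw [Equiv.symm_apply_apply]
    refine ⟨h2, ?_⟩
    rw [mem_preimage, mem_ball, dist_zero_right] at h3
    exact h3
  choose jx h1 h2 using hx
  exact ⟨⟨t.card, fun j => χ (t.equivFin.symm j), fun j => t.equivFin.symm j,
    fun j => hχ _, jx, h1, h2⟩⟩

/-- the map in charts -/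
def loc (χ χ' : OpenPartialHomeomorph M (V m)) (f : M → M) (v : V m) : V m := χ' (f (χ.symm v))

/-- bounds of the first and second derivatives in charts, at the point `x` -/
structure UBat (χ χ' : OpenPartialHomeomorph M (V m)) (f : M → M) (x : M) (Λ : ℝ) : Prop where
  tgt : ∀ v, ‖v - χ x‖ < Λ⁻¹ → v ∈ χ.target
  src : ∀ v, ‖v - χ x‖ < Λ⁻¹ → f (χ.symm v) ∈ χ'.source
  dif : ∀ v, ‖v - χ x‖ < Λ⁻¹ → DifferentiableAt ℝ (loc χ χ' f) v
  lip : ∀ v, ‖v - χ x‖ < Λ⁻¹ → ‖loc χ χ' f v - loc χ χ' f (χ x)‖ ≤ Λ * ‖v - χ x‖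
  lip' : ∀ v, ‖v - χ x‖ < Λ⁻¹ →
    ‖fderiv ℝ (loc χ χ' f) v - fderiv ℝ (loc χ χ' f) (χ x)‖ ≤ Λ * ‖v - χ x‖
  bd : ‖fderiv ℝ (loc χ χ' f) (χ x)‖ ≤ Λ
  low : ∀ u, ‖u‖ ≤ Λ * ‖fderiv ℝ (loc χ χ' f) (χ x) u‖

theorem UBat.mono {χ χ' : OpenPartialHomeomorph M (V m)} {f : M → M} {x : M} {Λ Λ' : ℝ}
    (h : UBat χ χ' f x Λ) (h0 : 0 < Λ) (hΛ : Λ ≤ Λ') : UBat χ χ' f x Λ' := by
  have h1 : Λ'⁻¹ ≤ Λ⁻¹ := inv_anti₀ h0 hΛ
  exact ⟨fun v hv => h.tgt v (hv.trans_le h1), fun v hv => h.src v (hv.trans_le h1),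
    fun v hv => h.dif v (hv.trans_le h1),
    fun v hv => (h.lip v (hv.trans_le h1)).trans (by gcongr),
    fun v hv => (h.lip' v (hv.trans_le h1)).trans (by gcongr),
    h.bd.trans hΛ, fun u => (h.low u).trans (by gcongr)⟩

theorem loc_contDiffAt [IsManifold (𝓡 m) ∞ M] {χ χ' : OpenPartialHomeomorph M (V m)}
    (hχ : χ ∈ IsManifold.maximalAtlas (𝓡 m) ∞ M) (hχ' : χ' ∈ IsManifold.maximalAtlas (𝓡 m) ∞ M)
    {f : M → M} {r : ℕ∞} (hf : ContMDiff (𝓡 m) (𝓡 m) r f) {x : M} (hx : x ∈ χ.source)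
    (hx' : f x ∈ χ'.source) : ContDiffAt ℝ r (loc χ χ' f) (χ x) := by
  have hr : ((r : ℕ∞) : WithTop ℕ∞) ≤ ∞ := by exact_mod_cast le_top
  rw [← contMDiffAt_iff_contDiffAt]
  have h1 : ContMDiffAt (𝓡 m) (𝓡 m) r χ.symm (χ x) :=
    ((contMDiffOn_symm_of_mem_maximalAtlas hχ).contMDiffAt
      (χ.open_target.mem_nhds (χ.map_source hx))).of_le hr
  have h2 : ContMDiffAt (𝓡 m) (𝓡 m) r f (χ.symm (χ x)) := hf.contMDiffAt
  have h3 : ContMDiffAt (𝓡 m) (𝓡 m) r χ' (f (χ.symm (χ x))) := by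
    rw [χ.left_inv hx]
    exact ((contMDiffOn_of_mem_maximalAtlas hχ').contMDiffAt
      (χ'.open_source.mem_nhds hx')).of_le hr
  exact ContMDiffAt.comp (g := χ') (f := fun v => f (χ.symm v)) (χ x) h3
    (ContMDiffAt.comp (g := f) (f := χ.symm) (χ x) h2 h1)

theorem loc_inj [IsManifold (𝓡 m) ∞ M] {χ χ' : OpenPartialHomeomorph M (V m)}
    (hχ : χ ∈ IsManifold.maximalAtlas (𝓡 m) ∞ M) (hχ' : χ' ∈ IsManifold.maximalAtlas (𝓡 m) ∞ M)
    {r : ℕ∞} (hr : 1 ≤ r) (f : DiffM m M r) {x : M} (hx : x ∈ χ.source)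
    (hx' : f x ∈ χ'.source) (u : V m) (hu : fderiv ℝ (loc χ χ' f) (χ x) u = 0) : u = 0 := by
  have hr1 : ((r : ℕ∞) : WithTop ℕ∞) ≠ 0 := by
    intro h
    have : r = 0 := by exact_mod_cast h
    rw [this] at hr
    exact absurd hr (by decide)
  have e0 : f.symm (f x) = x := f.symm_apply_apply x
  have h1 := (loc_contDiffAt hχ hχ' f.contMDiff hx hx').differentiableAt hr1
  have h2 : DifferentiableAt ℝ (loc χ' χ f.symm) (χ' (f x)) :=
    (loc_contDiffAt hχ' hχ f.symm.contMDiff hx' (by rw [e0]; exact hx)).differentiableAt hr1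
  have e1 : loc χ χ' f (χ x) = χ' (f x) := by
    unfold loc
    rw [χ.left_inv hx]
  have h3 : HasFDerivAt (loc χ' χ f.symm ∘ loc χ χ' f)
      ((fderiv ℝ (loc χ' χ f.symm) (χ' (f x))) ∘L (fderiv ℝ (loc χ χ' f) (χ x))) (χ x) := by
    apply HasFDerivAt.comp
    · rw [e1]
      exact h2.hasFDerivAt
    · exact h1.hasFDerivAt
  have h4 : (loc χ' χ f.symm ∘ loc χ χ' f) =ᶠ[𝓝 (χ x)] id := by
    have e2 : ContinuousAt (fun v => f (χ.symm v)) (χ x) := by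
      apply f.continuous.continuousAt.comp
      exact χ.continuousAt_symm (χ.map_source hx)
    have e3 : ∀ᶠ v in 𝓝 (χ x), f (χ.symm v) ∈ χ'.source := by
      apply e2.eventually_mem
      rw [χ.left_inv hx]
      exact χ'.open_source.mem_nhds hx'
    filter_upwards [e3, χ.open_target.mem_nhds (χ.map_source hx)] with v hv hv'
    show χ (f.symm (χ'.symm (χ' (f (χ.symm v))))) = v
    rw [χ'.left_inv hv, Diffeomorph.symm_apply_apply, χ.right_inv hv']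
  have h5 := h3.unique ((hasFDerivAt_id (𝕜 := ℝ) (χ x)).congr_of_eventuallyEq h4)
  have h6 : ((fderiv ℝ (loc χ' χ f.symm) (χ' (f x))) ∘L (fderiv ℝ (loc χ χ' f) (χ x))) u = u := by
    rw [h5]
    rfl
  rw [← h6]
  show (fderiv ℝ (loc χ' χ f.symm) (χ' (f x))) (fderiv ℝ (loc χ χ' f) (χ x) u) = 0
  rw [hu, map_zero]

/-- local bounds -/
theorem ub_local [IsManifold (𝓡 m) ∞ M] {χ χ' : OpenPartialHomeomorph M (V m)}
    (hχ : χ ∈ IsManifold.maximalAtlas (𝓡 m) ∞ M) (hχ' : χ' ∈ IsManifold.maximalAtlas (𝓡 m) ∞ M)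
    {r : ℕ∞} (hr : 2 ≤ r) (f : DiffM m M r) {x₀ : M} (hx : x₀ ∈ χ.source)
    (hx' : f x₀ ∈ χ'.source) : ∃ Λ : ℝ, 0 < Λ ∧ ∀ᶠ x in 𝓝 x₀, UBat χ χ' f x Λ := by
  have hr2 : ((2 : ℕ∞) : WithTop ℕ∞) ≤ ((r : ℕ∞) : WithTop ℕ∞) := by exact_mod_cast hr
  have hg2 : ContDiffAt ℝ 2 (loc χ χ' f) (χ x₀) :=
    (loc_contDiffAt hχ hχ' f.contMDiff hx hx').of_le hr2
  have hg1 : ContDiffAt ℝ 1 (loc χ χ' f) (χ x₀) := hg2.of_le (by norm_num)
  have hd1 : ContDiffAt ℝ 1 (fderiv ℝ (loc χ χ' f)) (χ x₀) := hg2.fderiv_right (by norm_num)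
  obtain ⟨K₁, t₁, ht₁, hK₁⟩ := hg1.exists_lipschitzOnWith
  obtain ⟨K₂, t₂, ht₂, hK₂⟩ := hd1.exists_lipschitzOnWith
  have hev1 : ∀ᶠ v in 𝓝 (χ x₀), ContDiffAt ℝ 2 (loc χ χ' f) v := hg2.eventually (by simp)
  have hev2 : ∀ᶠ v in 𝓝 (χ x₀), f (χ.symm v) ∈ χ'.source := by
    have e2 : ContinuousAt (fun v => f (χ.symm v)) (χ x₀) := by
      apply f.continuous.continuousAt.comp
      exact χ.continuousAt_symm (χ.map_source hx)
    apply e2.eventually_mem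
    rw [χ.left_inv hx]
    exact χ'.open_source.mem_nhds hx'
  have hev3 : ∀ᶠ v in 𝓝 (χ x₀), v ∈ χ.target := χ.open_target.mem_nhds (χ.map_source hx)
  obtain ⟨ρ, hρ, hball⟩ := Metric.mem_nhds_iff.1
    (inter_mem (inter_mem ht₁ ht₂) (inter_mem hev1 (inter_mem hev2 hev3)))
  -- the lower bound
  have hker : LinearMap.ker ((fderiv ℝ (loc χ χ' f) (χ x₀) : V m →L[ℝ] V m) : V m →ₗ[ℝ] V m) = ⊥ := by
    rw [LinearMap.ker_eq_bot']
    intro u hu
    exact loc_inj hχ hχ' (le_trans (by norm_num) hr) f hx hx' u hu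
  obtain ⟨K₃, hK₃', hlow⟩ : ∃ K₃ : ℝ, 0 < K₃ ∧
      ∀ u, ‖u‖ ≤ K₃ * ‖fderiv ℝ (loc χ χ' f) (χ x₀) u‖ := by
    obtain ⟨K₃, hK₃, hanti⟩ := LinearMap.exists_antilipschitzWith _ hker
    refine ⟨K₃, by exact_mod_cast hK₃, fun u => ?_⟩
    have h4 := hanti.le_mul_dist u 0
    rw [map_zero, dist_zero_right, dist_zero_right] at h4
    exact h4
  obtain ⟨ρ', hρ', hρρ'⟩ : ∃ ρ' : ℝ, 0 < ρ' ∧ ρ' ≤ ρ / 2 ∧ K₂ * ρ' ≤ (2 * K₃)⁻¹ := by
    refine ⟨min (ρ / 2) ((2 * K₃)⁻¹ / (K₂ + 1)), lt_min (by positivity) (by positivity),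
      min_le_left _ _, ?_⟩
    have h1 : min (ρ / 2) ((2 * K₃)⁻¹ / (K₂ + 1)) ≤ (2 * K₃)⁻¹ / (K₂ + 1) := min_le_right _ _
    have h2 : (0 : ℝ) ≤ K₂ := K₂.2
    calc (K₂ : ℝ) * min (ρ / 2) ((2 * K₃)⁻¹ / (K₂ + 1)) ≤
          (K₂ + 1) * ((2 * K₃)⁻¹ / (K₂ + 1)) := by
            apply mul_le_mul (by linarith) h1 (by positivity) (by positivity)
      _ = (2 * K₃)⁻¹ := by field_simp
  obtain ⟨hρ2, hρ3⟩ := hρρ'
  refine ⟨max (max ρ'⁻¹ (K₁ + K₂ + 1)) (max (‖fderiv ℝ (loc χ χ' f) (χ x₀)‖ + K₂ * ρ) (2 * K₃)),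
    lt_max_of_lt_left (lt_max_of_lt_left (by positivity)), ?_⟩
  set Λ := max (max ρ'⁻¹ ((K₁ : ℝ) + K₂ + 1))
    (max (‖fderiv ℝ (loc χ χ' f) (χ x₀)‖ + K₂ * ρ) (2 * K₃)) with hΛ
  have hΛ1 : ρ'⁻¹ ≤ Λ := (le_max_left _ _).trans (le_max_left _ _)
  have hΛ2 : (K₁ : ℝ) + K₂ + 1 ≤ Λ := (le_max_right _ _).trans (le_max_left _ _)
  have hΛ3 : ‖fderiv ℝ (loc χ χ' f) (χ x₀)‖ + K₂ * ρ ≤ Λ := (le_max_left _ _).trans (le_max_right _ _)
  have hΛ4 : 2 * K₃ ≤ Λ := (le_max_right _ _).trans (le_max_right _ _)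
  have hK₁0 : (0 : ℝ) ≤ K₁ := K₁.2
  have hK₂0 : (0 : ℝ) ≤ K₂ := K₂.2
  have hΛ5 : Λ⁻¹ ≤ ρ' := by
    rw [inv_le_comm₀ (lt_of_lt_of_le (by positivity) hΛ1) hρ']
    exact hΛ1
  have hcont : ContinuousAt χ x₀ := χ.continuousAt hx
  have hev4 : ∀ᶠ x in 𝓝 x₀, χ x ∈ ball (χ x₀) ρ' := hcont.eventually_mem (ball_mem_nhds _ hρ')
  filter_upwards [hev4] with x hxb
  have hin : ∀ v, ‖v - χ x‖ < Λ⁻¹ → v ∈ ball (χ x₀) ρ := by
    intro v hv
    rw [mem_ball, dist_eq_norm] at hxb ⊢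
    have : v - χ x₀ = (v - χ x) + (χ x - χ x₀) := by abel
    rw [this]
    calc _ ≤ ‖v - χ x‖ + ‖χ x - χ x₀‖ := norm_add_le _ _
      _ < ρ' + ρ' := add_lt_add (hv.trans_le hΛ5) hxb
      _ ≤ ρ := by linarith
  have hxin : χ x ∈ ball (χ x₀) ρ := ball_subset_ball (by linarith) hxb
  have hdiff : ‖fderiv ℝ (loc χ χ' f) (χ x) - fderiv ℝ (loc χ χ' f) (χ x₀)‖ ≤
      K₂ * ‖χ x - χ x₀‖ := by
    have := hK₂.dist_le_mul _ (hball hxin).1.2 _ (mem_of_mem_nhds ht₂)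
    rwa [dist_eq_norm, dist_eq_norm] at this
  rw [mem_ball, dist_eq_norm] at hxb
  refine ⟨fun v hv => (hball (hin v hv)).2.2.2, fun v hv => (hball (hin v hv)).2.2.1,
    fun v hv => ?_, fun v hv => ?_, fun v hv => ?_, ?_, fun u => ?_⟩
  · have h1 : ContDiffAt ℝ 2 (loc χ χ' f) v := (hball (hin v hv)).2.1
    exact h1.differentiableAt (by norm_num)
  · have := hK₁.dist_le_mul _ (hball (hin v hv)).1.1 _ (hball hxin).1.1
    rw [dist_eq_norm, dist_eq_norm] at this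
    refine this.trans ?_
    gcongr
    linarith
  · have := hK₂.dist_le_mul _ (hball (hin v hv)).1.2 _ (hball hxin).1.2
    rw [dist_eq_norm, dist_eq_norm] at this
    refine this.trans ?_
    gcongr
    linarith
  · have h1 : fderiv ℝ (loc χ χ' f) (χ x) = fderiv ℝ (loc χ χ' f) (χ x₀) +
        (fderiv ℝ (loc χ χ' f) (χ x) - fderiv ℝ (loc χ χ' f) (χ x₀)) := by abel
    rw [h1]
    refine (norm_add_le _ _).trans (le_trans ?_ hΛ3)
    gcongr
    refine hdiff.trans ?_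
    gcongr
    linarith
  · have h1 := hlow u
    have h2 : ‖fderiv ℝ (loc χ χ' f) (χ x₀) u‖ ≤ ‖fderiv ℝ (loc χ χ' f) (χ x) u‖ +
        (2 * K₃)⁻¹ * ‖u‖ := by
      have e1 : fderiv ℝ (loc χ χ' f) (χ x₀) u = fderiv ℝ (loc χ χ' f) (χ x) u -
          (fderiv ℝ (loc χ χ' f) (χ x) - fderiv ℝ (loc χ χ' f) (χ x₀)) u := by
        rw [sub_apply]
        abel
      rw [e1]
      refine (norm_sub_le _ _).trans ?_
      gcongr
      refine (ContinuousLinearMap.le_opNorm _ _).trans ?_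
      gcongr
      refine hdiff.trans (le_trans ?_ hρ3)
      gcongr
    have h3 : K₃ * ((2 * K₃)⁻¹ * ‖u‖) = ‖u‖ / 2 := by field_simp
    have h4 : ‖u‖ ≤ 2 * K₃ * ‖fderiv ℝ (loc χ χ' f) (χ x) u‖ := by
      have : ‖u‖ ≤ K₃ * ‖fderiv ℝ (loc χ χ' f) (χ x) u‖ + ‖u‖ / 2 := by
        rw [← h3, ← mul_add]
        exact h1.trans (by gcongr)
      linarith
    refine h4.trans ?_
    gcongr

variable (A : FAtlas m M)

/-- Uniform bounds. -/
theorem exists_ub [T2Space M] [CompactSpace M] [IsManifold (𝓡 m) ∞ M]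
    {r : ℕ∞} (hr : 2 ≤ r) (f : DiffM m M r) : ∃ Λ : ℝ, 1 ≤ Λ ∧ ∀ j j' (x : M),
      x ∈ (A.χ j).source → ‖A.χ j x‖ ≤ 1 / 16 → f x ∈ (A.χ j').source → ‖A.χ j' (f x)‖ ≤ 1 / 8 →
      UBat (A.χ j) (A.χ j') f x Λ := by
  have hcore : ∀ (j : Fin A.J) (ρ : ℝ), ρ ≤ 1 → IsClosed ((A.χ j).symm '' closedBall (0 : V m) ρ) := by
    intro j ρ hρ
    have hA : Metric.closedBall (0 : V m) ρ ⊆ (A.χ j).target :=
      (Metric.closedBall_subset_closedBall hρ).trans (A.good j).ball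
    exact ((isCompact_closedBall _ _).image_of_continuousOn
      ((A.χ j).continuousOn_symm.mono hA)).isClosed
  have h1 : ∀ q : Fin A.J × Fin A.J, ∃ Λ : ℝ, 0 < Λ ∧ ∀ x : M,
      x ∈ (A.χ q.1).source → ‖A.χ q.1 x‖ ≤ 1 / 16 → f x ∈ (A.χ q.2).source →
      ‖A.χ q.2 (f x)‖ ≤ 1 / 8 → UBat (A.χ q.1) (A.χ q.2) f x Λ := by
    rintro ⟨j, j'⟩
    have hK : IsCompact (((A.χ j).symm '' closedBall (0 : V m) (1 / 16)) ∩
        f ⁻¹' ((A.χ j').symm '' closedBall (0 : V m) (1 / 8))) :=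
      ((hcore j _ (by norm_num)).inter ((hcore j' _ (by norm_num)).preimage f.continuous)).isCompact
    obtain ⟨Λ, hΛ, h⟩ : ∃ Λ : ℝ, 0 < Λ ∧ ∀ x ∈ (((A.χ j).symm '' closedBall (0 : V m) (1 / 16)) ∩
        f ⁻¹' ((A.χ j').symm '' closedBall (0 : V m) (1 / 8))), UBat (A.χ j) (A.χ j') f x Λ := by
      refine hK.induction_on (p := fun W => ∃ Λ : ℝ, 0 < Λ ∧ ∀ x ∈ W, UBat (A.χ j) (A.χ j') f x Λ)
        ?_ ?_ ?_ ?_
      · exact ⟨1, one_pos, fun x hx => absurd hx (notMem_empty x)⟩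
      · rintro s t hst ⟨Λ, hΛ, h⟩
        exact ⟨Λ, hΛ, fun x hx => h x (hst hx)⟩
      · rintro s t ⟨Λ, hΛ, h⟩ ⟨Λ', hΛ', h'⟩
        refine ⟨max Λ Λ', lt_max_of_lt_left hΛ, ?_⟩
        rintro x (hx | hx)
        · exact (h x hx).mono hΛ (le_max_left _ _)
        · exact (h' x hx).mono hΛ' (le_max_right _ _)
      · rintro x ⟨⟨v, hv, hvx⟩, ⟨v', hv', hvx'⟩⟩
        have hxs : x ∈ (A.χ j).source := by
          rw [← hvx]
          exact (A.χ j).map_target ((A.good j).ball (closedBall_subset_closedBall (by norm_num) hv))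
        have hxs' : f x ∈ (A.χ j').source := by
          rw [← hvx']
          exact (A.χ j').map_target
            ((A.good j').ball (closedBall_subset_closedBall (by norm_num) hv'))
        obtain ⟨Λ, hΛ, h⟩ := ub_local (A.good j).mem (A.good j').mem hr f hxs hxs'
        exact ⟨_, mem_nhdsWithin_of_mem_nhds h, Λ, hΛ, fun y hy => hy⟩
    refine ⟨Λ, hΛ, fun x hx1 hx2 hx3 hx4 => h x ⟨⟨A.χ j x, ?_, (A.χ j).left_inv hx1⟩,
      ⟨A.χ j' (f x), ?_, (A.χ j').left_inv hx3⟩⟩⟩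
    · rw [mem_closedBall, dist_zero_right]
      exact hx2
    · rw [mem_closedBall, dist_zero_right]
      exact hx4
  choose Λ hΛ h using h1
  obtain ⟨B, hB⟩ := Finite.exists_le Λ
  exact ⟨max B 1, le_max_right _ _, fun j j' x h1 h2 h3 h4 =>
    (h (j, j') x h1 h2 h3 h4).mono (hΛ _) ((hB _).trans (le_max_left _ _))⟩

end

/-- Close points are close in charts. -/
theorem exists_close {m : ℕ} {M : Type v} [MetricSpace M] [CompactSpace M] [ChartedSpace (V m) M]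
    (A : FAtlas m M) {κ : ℝ} (hκ : 0 < κ) : ∃ ε : ℝ, 0 < ε ∧ ∀ j (y y' : M), dist y y' < ε →
      y' ∈ (A.χ j).source → ‖A.χ j y'‖ ≤ 1 / 16 → y ∈ (A.χ j).source ∧ ‖A.χ j y - A.χ j y'‖ < κ := by
  have hcore : ∀ (j : Fin A.J), IsCompact ((A.χ j).symm '' closedBall (0 : V m) (1 / 16)) := by
    intro j
    have hA : Metric.closedBall (0 : V m) (1 / 16) ⊆ (A.χ j).target :=
      (Metric.closedBall_subset_closedBall (by norm_num)).trans (A.good j).ball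
    exact (isCompact_closedBall _ _).image_of_continuousOn ((A.χ j).continuousOn_symm.mono hA)
  have h1 : ∀ j : Fin A.J, ∃ ε : ℝ, 0 < ε ∧ ∀ y' ∈ (A.χ j).symm '' closedBall (0 : V m) (1 / 16),
      ∀ y : M, dist y y' < ε → y ∈ (A.χ j).source ∧ ‖A.χ j y - A.χ j y'‖ < κ := by
    intro j
    refine (hcore j).induction_on (p := fun W => ∃ ε : ℝ, 0 < ε ∧ ∀ y' ∈ W,
      ∀ y : M, dist y y' < ε → y ∈ (A.χ j).source ∧ ‖A.χ j y - A.χ j y'‖ < κ) ?_ ?_ ?_ ?_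
    · exact ⟨1, one_pos, fun x hx => absurd hx (notMem_empty x)⟩
    · rintro s t hst ⟨ε, hε, h⟩
      exact ⟨ε, hε, fun x hx => h x (hst hx)⟩
    · rintro s t ⟨ε, hε, h⟩ ⟨ε', hε', h'⟩
      refine ⟨min ε ε', lt_min hε hε', ?_⟩
      rintro x (hx | hx) y hy
      · exact h x hx y (hy.trans_le (min_le_left _ _))
      · exact h' x hx y (hy.trans_le (min_le_right _ _))
    · rintro x ⟨v, hv, hvx⟩
      have hxs : x ∈ (A.χ j).source := by
        rw [← hvx]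
        exact (A.χ j).map_target ((A.good j).ball (closedBall_subset_closedBall (by norm_num) hv))
      have hc : ContinuousAt (A.χ j) x := (A.χ j).continuousAt hxs
      have e1 : ∀ᶠ y in 𝓝 x, A.χ j y ∈ ball (A.χ j x) (κ / 2) :=
        hc.eventually_mem (ball_mem_nhds _ (by positivity))
      obtain ⟨ρ, hρ, hball⟩ := Metric.mem_nhds_iff.1
        (inter_mem e1 ((A.χ j).open_source.mem_nhds hxs))
      refine ⟨ball x (ρ / 2), mem_nhdsWithin_of_mem_nhds (ball_mem_nhds _ (by positivity)),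
        ρ / 2, by positivity, fun y' hy' y hy => ?_⟩
      have h2 : y' ∈ ball x ρ := ball_subset_ball (by linarith) hy'
      have h3 : y ∈ ball x ρ := by
        rw [mem_ball] at hy' ⊢
        calc dist y x ≤ dist y y' + dist y' x := dist_triangle _ _ _
          _ < ρ / 2 + ρ / 2 := add_lt_add hy hy'
          _ = ρ := by ring
      refine ⟨(hball h3).2, ?_⟩
      have h4 : ‖A.χ j y - A.χ j x‖ < κ / 2 := by
        have := (hball h3).1
        change A.χ j y ∈ ball (A.χ j x) (κ / 2) at this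
        rwa [mem_ball, dist_eq_norm] at this
      have h5 : ‖A.χ j y' - A.χ j x‖ < κ / 2 := by
        have := (hball h2).1
        change A.χ j y' ∈ ball (A.χ j x) (κ / 2) at this
        rwa [mem_ball, dist_eq_norm] at this
      have h6 : A.χ j y - A.χ j y' = (A.χ j y - A.χ j x) - (A.χ j y' - A.χ j x) := by abel
      rw [h6]
      refine (norm_sub_le _ _).trans_lt ?_
      linarith
  choose ε hε h using h1
  obtain ⟨B, hB⟩ := Finite.exists_le (fun j => (ε j)⁻¹)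
  refine ⟨(max B 1)⁻¹, by positivity, fun j y y' hd h1 h2 => h j y' ⟨A.χ j y', ?_,
    (A.χ j).left_inv h1⟩ y (hd.trans_le ?_)⟩
  · rw [mem_closedBall, dist_zero_right]
    exact h2
  · rw [inv_le_comm₀ (by positivity) (hε j)]
    exact (hB j).trans (le_max_left _ _)

end Pool.Agent.H245.SH
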