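import Pool.Agent.H245.SH.B2

/-!
# Control of pseudo-orbits of jets by finitely many affine pushes: one step
-/

set_option autoImplicit false
set_option linter.unusedSectionVars false

open scoped Manifold ContDiff Topology NNReal
open Filter Set Metric

universe u v w

namespace Pool.Agent.H245.SH

open Pool.Agent.H718R2.G Pool.Agent.W564.SC Pool.Agent.TH80.OMS

/-- linear algebra of one step -/
theorem lin_step {m : ℕ} {Λ κ : ℝ} (hΛ : 1 ≤ Λ) (hκ : 0 ≤ κ) (hκΛ : Λ * κ ≤ 1 / 2)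
    {D D' L Δ : V m →L[ℝ] V m} (hD : ‖D‖ ≤ Λ) (hlow : ∀ u, ‖u‖ ≤ Λ * ‖D u‖)
    (hD' : ‖D' - D‖ ≤ Λ * κ) (hL : ‖L - D‖ ≤ κ) (hΔ : ‖Δ‖ ≤ κ) :
    ∃ Er : V m →L[ℝ] V m, ‖Er‖ ≤ 8 * Λ ^ 2 * κ ∧
      D' ∘L (ContinuousLinearMap.id ℝ (V m) + Δ) = (ContinuousLinearMap.id ℝ (V m) + Er) ∘L L := by
  have hκ1 : κ ≤ 1 / 2 := by nlinarith
  have hL1 : ∀ u, ‖u‖ ≤ 2 * Λ * ‖L u‖ := by
    intro u
    have h1 := hlow u
    have h2 : ‖D u‖ ≤ ‖L u‖ + κ * ‖u‖ := by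
      have e1 : D u = L u - (L - D) u := by
        rw [sub_apply]
        abel
      rw [e1]
      refine (norm_sub_le _ _).trans ?_
      gcongr
      exact (ContinuousLinearMap.le_opNorm _ _).trans (by gcongr)
    have h3 : Λ * ‖D u‖ ≤ Λ * ‖L u‖ + 1 / 2 * ‖u‖ := by
      calc Λ * ‖D u‖ ≤ Λ * (‖L u‖ + κ * ‖u‖) := by gcongr
        _ = Λ * ‖L u‖ + Λ * κ * ‖u‖ := by ring
        _ ≤ _ := by gcongr
    linarith
  have hinj : Function.Injective (L : V m →ₗ[ℝ] V m) := by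
    rw [← LinearMap.ker_eq_bot, LinearMap.ker_eq_bot']
    intro u hu
    have hu' : L u = 0 := hu
    have := hL1 u
    rw [hu', norm_zero, mul_zero] at this
    exact norm_le_zero_iff.1 this
  obtain ⟨e, he⟩ : ∃ e : V m ≃L[ℝ] V m, ∀ v, e v = L v :=
    ⟨(LinearEquiv.ofInjectiveEndo (L : V m →ₗ[ℝ] V m) hinj).toContinuousLinearEquiv, fun v => rfl⟩
  have hes : ∀ v, ‖e.symm v‖ ≤ 2 * Λ * ‖v‖ := by
    intro v
    have := hL1 (e.symm v)
    rwa [← he, e.apply_symm_apply] at this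
  have hD'n : ‖D'‖ ≤ 2 * Λ := by
    have : D' = (D' - D) + D := by abel
    rw [this]
    refine (norm_add_le _ _).trans ?_
    linarith
  set Z : V m →L[ℝ] V m := D' ∘L (ContinuousLinearMap.id ℝ (V m) + Δ) - L with hZ
  have hZn : ‖Z‖ ≤ 4 * Λ * κ := by
    have e1 : Z = (D' - D) + (D - L) + D' ∘L Δ := by
      rw [hZ, ContinuousLinearMap.comp_add, ContinuousLinearMap.comp_id]
      abel
    rw [e1]
    have h1 : ‖D' ∘L Δ‖ ≤ 2 * Λ * κ :=
      (ContinuousLinearMap.opNorm_comp_le _ _).trans (by gcongr)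
    have h2 : ‖D - L‖ ≤ κ := by rw [norm_sub_rev]; exact hL
    calc ‖(D' - D) + (D - L) + D' ∘L Δ‖ ≤ ‖(D' - D) + (D - L)‖ + ‖D' ∘L Δ‖ := norm_add_le _ _
      _ ≤ (‖D' - D‖ + ‖D - L‖) + ‖D' ∘L Δ‖ := by gcongr; exact norm_add_le _ _
      _ ≤ (Λ * κ + κ) + 2 * Λ * κ := by gcongr
      _ ≤ 4 * Λ * κ := by nlinarith
  refine ⟨Z ∘L (e.symm : V m →L[ℝ] V m), ?_, ?_⟩
  · refine ContinuousLinearMap.opNorm_le_bound _ (by positivity) fun v => ?_
    show ‖Z (e.symm v)‖ ≤ _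
    calc _ ≤ ‖Z‖ * ‖e.symm v‖ := ContinuousLinearMap.le_opNorm _ _
      _ ≤ (4 * Λ * κ) * (2 * Λ * ‖v‖) := by
        gcongr
        exact hes v
      _ = _ := by ring
  · ext1 v
    show D' ((ContinuousLinearMap.id ℝ (V m) + Δ) v) = L v + Z (e.symm (L v))
    rw [← he v, e.symm_apply_apply, hZ, sub_apply, he]
    show _ = L v + (D' ((ContinuousLinearMap.id ℝ (V m) + Δ) v) - L v)
    abel

section

variable {m : ℕ} {M : Type v} [TopologicalSpace M] [T2Space M] [ChartedSpace (V m) M]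
  [IsManifold (𝓡 m) ∞ M]

/-- the control parameter -/
noncomputable def sp (m : ℕ) (w : Aff m) : V (m + m * m) := (affE m).symm w

/-- the derivative of the step in charts -/
theorem step_deriv (A : FAtlas m M) {F F' : V (m + m * m) × V m → V m} {κF : ℝ}
    (hF : LFam (m + m * m) m F F')
    (hlin : ∀ x v, ‖x‖ < κF → ‖v‖ ≤ 1 / 4 → F (x, v) = v + (affE m x).1 + (affE m x).2 v)
    {f : M → M} {x y z : M} {D' : V m →L[ℝ] V m} (hz : z ∈ (A.χ (A.jx x)).source)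
    (hfz : f z ∈ (A.χ (A.jx y)).source) (hη : ‖A.χ (A.jx y) (f z)‖ ≤ 1 / 8)
    (hc : ∀ᶠ v in 𝓝 (A.χ (A.jx x) z), f ((A.χ (A.jx x)).symm v) ∈ (A.χ (A.jx y)).source)
    (hD' : HasFDerivAt (loc (A.χ (A.jx x)) (A.χ (A.jx y)) f) D' (A.χ (A.jx x) z))
    (w : Aff m) (hw : ‖sp m w‖ < κF) :
    tr (A.χ (A.jx y)) F (sp m w) (f z) ∈ (A.χ (A.jx y)).source ∧
    A.χ (A.jx y) (tr (A.χ (A.jx y)) F (sp m w) (f z)) =
      A.χ (A.jx y) (f z) + w.1 + w.2 (A.χ (A.jx y) (f z)) ∧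
    HasFDerivAt (loc (A.χ (A.jx x)) (A.χ (A.jx y)) (fun a => tr (A.χ (A.jx y)) F (sp m w) (f a)))
      ((ContinuousLinearMap.id ℝ (V m) + w.2) ∘L D') (A.χ (A.jx x) z) := by
  obtain ⟨hA, hcl⟩ := good_closed (A.good (A.jx y))
  have hw' : affE m (sp m w) = w := (affE m).apply_symm_apply w
  have key : ∀ a : M, f a ∈ (A.χ (A.jx y)).source → ‖A.χ (A.jx y) (f a)‖ ≤ 1 / 4 →
      tr (A.χ (A.jx y)) F (sp m w) (f a) ∈ (A.χ (A.jx y)).source ∧
      A.χ (A.jx y) (tr (A.χ (A.jx y)) F (sp m w) (f a)) =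
        A.χ (A.jx y) (f a) + w.1 + w.2 (A.χ (A.jx y) (f a)) := by
    intro a ha ha'
    have h1 : F (sp m w, A.χ (A.jx y) (f a)) ∈ (A.χ (A.jx y)).target :=
      maps_target hA hF.inv hF.supp ((A.χ (A.jx y)).map_source ha)
    rw [tr_source ha]
    refine ⟨(A.χ (A.jx y)).map_target h1, ?_⟩
    rw [(A.χ (A.jx y)).right_inv h1, hlin _ _ hw ha', hw']
  obtain ⟨h1, h2⟩ := key z hfz (by linarith)
  refine ⟨h1, h2, ?_⟩
  have h3 : HasFDerivAt (fun v => loc (A.χ (A.jx x)) (A.χ (A.jx y)) f v + w.1 +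
      w.2 (loc (A.χ (A.jx x)) (A.χ (A.jx y)) f v))
      ((ContinuousLinearMap.id ℝ (V m) + w.2) ∘L D') (A.χ (A.jx x) z) := by
    have h4 : HasFDerivAt (fun v => w.2 (loc (A.χ (A.jx x)) (A.χ (A.jx y)) f v)) (w.2 ∘L D')
        (A.χ (A.jx x) z) := w.2.hasFDerivAt.comp _ hD'
    have h5 := (hD'.add_const w.1).add h4
    have e5 : (ContinuousLinearMap.id ℝ (V m) + w.2) ∘L D' = D' + w.2 ∘L D' := by
      rw [ContinuousLinearMap.add_comp, ContinuousLinearMap.id_comp]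
    rw [e5]
    exact h5
  refine h3.congr_of_eventuallyEq ?_
  have h6 : ∀ᶠ v in 𝓝 (A.χ (A.jx x) z), ‖loc (A.χ (A.jx x)) (A.χ (A.jx y)) f v‖ < 1 / 4 := by
    have h7 := hD'.continuousAt.norm
    have h8 : ‖loc (A.χ (A.jx x)) (A.χ (A.jx y)) f (A.χ (A.jx x) z)‖ < 1 / 4 := by
      unfold loc
      rw [(A.χ (A.jx x)).left_inv hz]
      linarith
    exact h7.eventually (gt_mem_nhds h8)
  filter_upwards [hc, h6] with v hv hv'
  exact (key _ hv hv'.le).2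

/-- The state: the composition `c` maps `x₀` close to `x`, and its derivative at `x₀` is close to
`P`, relative to `P`. -/
structure St (A : FAtlas m M) (κ : ℝ) (x₀ x : M) (c : M → M) (P : V m →L[ℝ] V m) : Prop where
  cont : Continuous c
  src : c x₀ ∈ (A.χ (A.jx x)).source
  near : ‖A.χ (A.jx x) (c x₀) - A.χ (A.jx x) x‖ ≤ κ
  der : ∃ Δ : V m →L[ℝ] V m, ‖Δ‖ ≤ κ ∧ HasFDerivAt
    (fun v => A.χ (A.jx x) (c ((A.χ (A.jx x₀)).symm v)))
    ((ContinuousLinearMap.id ℝ (V m) + Δ) ∘L P) (A.χ (A.jx x₀) x₀)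

theorem st_init (A : FAtlas m M) {κ : ℝ} (hκ : 0 ≤ κ) (x₀ : M) :
    St A κ x₀ x₀ id (ContinuousLinearMap.id ℝ (V m)) where
  cont := continuous_id
  src := A.src x₀
  near := by
    rw [id, sub_self, norm_zero]
    exact hκ
  der := by
    refine ⟨0, by rw [norm_zero]; exact hκ, ?_⟩
    rw [add_zero, ContinuousLinearMap.comp_id]
    refine (hasFDerivAt_id _).congr_of_eventuallyEq ?_
    filter_upwards [(A.χ (A.jx x₀)).open_target.mem_nhds ((A.χ (A.jx x₀)).map_source (A.src x₀))]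
      with v hv
    exact (A.χ (A.jx x₀)).right_inv hv

/-- the transition derivative -/
noncomputable def Dm (A : FAtlas m M) (f : M → M) (x y : M) : V m →L[ℝ] V m :=
  fderiv ℝ (loc (A.χ (A.jx x)) (A.χ (A.jx y)) f) (A.χ (A.jx x) x)

variable {r : ℕ∞}

/-- **One step.** For the error `Er` and the point `η` the push with parameter `w = (a, B)` gives the
state with the errors `η - y + a + B η` and `Er + B + B Er`. -/
theorem one_step (A : FAtlas m M) {F F' : V (m + m * m) × V m → V m} {κF : ℝ}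
    (hF : LFam (m + m * m) m F F')
    (hlin : ∀ x v, ‖x‖ < κF → ‖v‖ ≤ 1 / 4 → F (x, v) = v + (affE m x).1 + (affE m x).2 v)
    (f : DiffM m M r) {Λ : ℝ} (hΛ : 1 ≤ Λ)
    (hub : ∀ j j' (x : M), x ∈ (A.χ j).source → ‖A.χ j x‖ ≤ 1 / 16 → f x ∈ (A.χ j').source →
      ‖A.χ j' (f x)‖ ≤ 1 / 8 → UBat (A.χ j) (A.χ j') f x Λ)
    {κ : ℝ} (hκ : 0 < κ) (hκΛ : 32 * Λ * κ ≤ 1)
    {x₀ x y : M} {c : M → M} {P : V m →L[ℝ] V m} (hst : St A κ x₀ x c P)
    (hy : f x ∈ (A.χ (A.jx y)).source)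
    (hy' : ‖A.χ (A.jx y) (f x) - A.χ (A.jx y) y‖ ≤ κ)
    {L : V m →L[ℝ] V m} (hL : ‖L - Dm A f x y‖ ≤ κ) :
    ∃ (η : V m) (Er : V m →L[ℝ] V m), ‖η - A.χ (A.jx y) y‖ ≤ (Λ + 1) * κ ∧ ‖η‖ ≤ 1 / 8 ∧
      ‖Er‖ ≤ 8 * Λ ^ 2 * κ ∧ ∀ (w : Aff m) (κ' : ℝ), ‖sp m w‖ < κF →
      ‖η - A.χ (A.jx y) y + w.1 + w.2 η‖ ≤ κ' → ‖Er + w.2 + w.2 ∘L Er‖ ≤ κ' →
      St A κ' x₀ y (fun a => tr (A.χ (A.jx y)) F (sp m w) (f (c a))) (L ∘L P) := by
  have hκΛ' : Λ * κ ≤ 1 / 32 := by linarith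
  have hκ32 : κ ≤ 1 / 32 := by nlinarith
  have hxy : ‖A.χ (A.jx y) (f x)‖ ≤ 1 / 8 := by
    have h1 := (A.core y).le
    have h2 : A.χ (A.jx y) (f x) = (A.χ (A.jx y) (f x) - A.χ (A.jx y) y) + A.χ (A.jx y) y := by abel
    rw [h2]
    refine (norm_add_le _ _).trans ?_
    linarith
  have hU := hub (A.jx x) (A.jx y) x (A.src x) (A.core x).le hy hxy
  obtain ⟨Δ, hΔ, hder⟩ := hst.der
  obtain ⟨v, hv⟩ : ∃ v, v = A.χ (A.jx x) (c x₀) := ⟨_, rfl⟩
  have hvn : ‖v - A.χ (A.jx x) x‖ ≤ κ := by rw [hv]; exact hst.near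
  have hvΛ : ‖v - A.χ (A.jx x) x‖ < Λ⁻¹ := by
    refine hvn.trans_lt ?_
    rw [lt_inv_comm₀ hκ (by linarith)]
    rw [lt_inv_comm₀ (by linarith) hκ]
    have : κ * Λ < 1 := by nlinarith
    rw [← one_div, lt_div_iff₀ (by linarith)]
    exact this
  have hcv : (A.χ (A.jx x)).symm v = c x₀ := by rw [hv]; exact (A.χ (A.jx x)).left_inv hst.src
  have hfz : f (c x₀) ∈ (A.χ (A.jx y)).source := by
    have := hU.src v hvΛ
    rwa [hcv] at this
  set g := loc (A.χ (A.jx x)) (A.χ (A.jx y)) f with hg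
  have hgv : g v = A.χ (A.jx y) (f (c x₀)) := by
    rw [hg]
    unfold loc
    rw [hcv]
  have hgx : g (A.χ (A.jx x) x) = A.χ (A.jx y) (f x) := by
    rw [hg]
    unfold loc
    rw [(A.χ (A.jx x)).left_inv (A.src x)]
  have hη : ‖g v - A.χ (A.jx y) y‖ ≤ (Λ + 1) * κ := by
    have h1 := hU.lip v hvΛ
    rw [← hg, hgx] at h1
    have h2 : g v - A.χ (A.jx y) y = (g v - A.χ (A.jx y) (f x)) +
        (A.χ (A.jx y) (f x) - A.χ (A.jx y) y) := by abel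
    rw [h2]
    refine (norm_add_le _ _).trans ?_
    have h3 : Λ * ‖v - A.χ (A.jx x) x‖ ≤ Λ * κ := by gcongr
    linarith
  have hη8 : ‖g v‖ ≤ 1 / 8 := by
    have h1 := (A.core y).le
    have h2 : g v = (g v - A.χ (A.jx y) y) + A.χ (A.jx y) y := by abel
    rw [h2]
    refine (norm_add_le _ _).trans ?_
    linarith
  have hdif := (hU.dif v hvΛ).hasFDerivAt
  rw [← hg] at hdif
  obtain ⟨Er, hEr, hcomp⟩ := lin_step hΛ hκ.le (by linarith) hU.bd hU.low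
    ((hU.lip' v hvΛ).trans (by gcongr)) hL hΔ
  refine ⟨g v, Er, hη, hη8, hEr, fun w κ' hw h1 h2 => ?_⟩
  have hevs : ∀ᶠ u in 𝓝 (A.χ (A.jx x) (c x₀)), f ((A.χ (A.jx x)).symm u) ∈ (A.χ (A.jx y)).source := by
    have e2 : ContinuousAt (fun u => f ((A.χ (A.jx x)).symm u)) (A.χ (A.jx x) (c x₀)) := by
      apply f.continuous.continuousAt.comp
      exact (A.χ (A.jx x)).continuousAt_symm ((A.χ (A.jx x)).map_source hst.src)
    apply e2.eventually_mem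
    rw [(A.χ (A.jx x)).left_inv hst.src]
    exact (A.χ (A.jx y)).open_source.mem_nhds hfz
  rw [hv] at hdif
  obtain ⟨k1, k2, k3⟩ := step_deriv A hF hlin (f := f) (y := y) hst.src hfz (by rw [← hgv]; exact hη8)
    hevs hdif w hw
  rw [← hgv] at k2
  refine ⟨?_, k1, ?_, Er + w.2 + w.2 ∘L Er, h2, ?_⟩
  · obtain ⟨hA, hcl⟩ := good_closed (A.good (A.jx y))
    have hs := tr_smooth (A.good (A.jx y)).mem hA hcl hF.inv hF.smooth hF.supp
    have h3 : Continuous (fun q : V (m + m * m) × M => tr (A.χ (A.jx y)) F q.1 q.2) := hs.continuous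
    exact h3.comp (continuous_const.prodMk (f.continuous.comp hst.cont))
  · show ‖A.χ (A.jx y) (tr (A.χ (A.jx y)) F (sp m w) (f (c x₀))) - A.χ (A.jx y) y‖ ≤ κ'
    rw [k2]
    have : g v + w.1 + w.2 (g v) - A.χ (A.jx y) y = g v - A.χ (A.jx y) y + w.1 + w.2 (g v) := by abel
    rw [this]
    exact h1
  · -- the derivative
    have e0 : (A.χ (A.jx x₀)).symm (A.χ (A.jx x₀) x₀) = x₀ := (A.χ (A.jx x₀)).left_inv (A.src x₀)
    have h3 : HasFDerivAt (loc (A.χ (A.jx x)) (A.χ (A.jx y))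
        (fun a => tr (A.χ (A.jx y)) F (sp m w) (f a)) ∘
        (fun u => A.χ (A.jx x) (c ((A.χ (A.jx x₀)).symm u))))
        (((ContinuousLinearMap.id ℝ (V m) + w.2) ∘L fderiv ℝ g v) ∘L
          ((ContinuousLinearMap.id ℝ (V m) + Δ) ∘L P)) (A.χ (A.jx x₀) x₀) := by
      apply HasFDerivAt.comp
      · rw [e0, hv]
        exact k3
      · exact hder
    have h4 : ((ContinuousLinearMap.id ℝ (V m) + w.2) ∘L fderiv ℝ g v) ∘L
          ((ContinuousLinearMap.id ℝ (V m) + Δ) ∘L P) =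
        (ContinuousLinearMap.id ℝ (V m) + (Er + w.2 + w.2 ∘L Er)) ∘L (L ∘L P) := by
      have h5 : ((ContinuousLinearMap.id ℝ (V m) + w.2) ∘L fderiv ℝ g v) ∘L
          ((ContinuousLinearMap.id ℝ (V m) + Δ) ∘L P) =
          (ContinuousLinearMap.id ℝ (V m) + w.2) ∘L
            ((fderiv ℝ g v ∘L (ContinuousLinearMap.id ℝ (V m) + Δ)) ∘L P) := rfl
      rw [h5, hcomp]
      ext1 u
      simp only [ContinuousLinearMap.comp_apply, add_apply, ContinuousLinearMap.id_apply, map_add]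
      abel
    rw [h4] at h3
    refine h3.congr_of_eventuallyEq ?_
    have h6 : ∀ᶠ u in 𝓝 (A.χ (A.jx x₀) x₀), c ((A.χ (A.jx x₀)).symm u) ∈ (A.χ (A.jx x)).source := by
      have e2 : ContinuousAt (fun u => c ((A.χ (A.jx x₀)).symm u)) (A.χ (A.jx x₀) x₀) := by
        apply hst.cont.continuousAt.comp
        exact (A.χ (A.jx x₀)).continuousAt_symm ((A.χ (A.jx x₀)).map_source (A.src x₀))
      apply e2.eventually_mem
      rw [e0]
      exact (A.χ (A.jx x)).open_source.mem_nhds hst.src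
    filter_upwards [h6] with u hu
    show A.χ (A.jx y) (tr (A.χ (A.jx y)) F (sp m w) (f (c ((A.χ (A.jx x₀)).symm u)))) =
      A.χ (A.jx y) (tr (A.χ (A.jx y)) F (sp m w) (f ((A.χ (A.jx x)).symm
        (A.χ (A.jx x) (c ((A.χ (A.jx x₀)).symm u))))))
    rw [(A.χ (A.jx x)).left_inv hu]

end

end Pool.Agent.H245.SH
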