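import Pool.Agent.H245.SH.B3

/-!
# Control of pseudo-orbits of jets by finitely many digits
-/

set_option autoImplicit false
set_option linter.unusedSectionVars false

open scoped Manifold ContDiff Topology NNReal
open Filter Set Metric

universe u v w

namespace Pool.Agent.H245.SH

open Pool.Agent.H718R2.G Pool.Agent.W564.SC Pool.Agent.TH80.OMS

/-- a finite `1/4`-net of a ball of the space of affine maps -/
theorem exists_digits (m : ℕ) (R : ℝ) : ∃ (K : ℕ) (D : Fin K → Aff m),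
    ∀ w : Aff m, ‖w‖ ≤ R → ∃ i, ‖D i - w‖ ≤ 1 / 4 := by
  have : ProperSpace (Aff m) := FiniteDimensional.proper_real (Aff m)
  obtain ⟨t, ht, hcov⟩ := Metric.totallyBounded_iff.1
    (isCompact_closedBall (0 : Aff m) R).totallyBounded (1 / 4) (by norm_num)
  obtain ⟨K, ⟨e⟩⟩ : ∃ K : ℕ, Nonempty (t ≃ Fin K) := by
    have := ht.to_subtype
    exact ⟨_, ⟨Finite.equivFin t⟩⟩
  refine ⟨K, fun i => (e.symm i).1, fun w hw => ?_⟩
  have h1 : w ∈ closedBall (0 : Aff m) R := by rwa [mem_closedBall_zero_iff]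
  obtain ⟨y, hy, hy'⟩ := mem_iUnion₂.1 (hcov h1)
  refine ⟨e ⟨y, hy⟩, ?_⟩
  show ‖((e.symm (e ⟨y, hy⟩)).1 : Aff m) - w‖ ≤ 1 / 4
  rw [Equiv.symm_apply_apply, ← dist_eq_norm, dist_comm]
  exact (mem_ball.1 hy').le

/-- the choice of a digit -/
theorem digit_lemma {m : ℕ} {Λ κ : ℝ} (hΛ : 1 ≤ Λ) (hκ : 0 < κ) (hκΛ : 256 * Λ ^ 4 * κ ≤ 1)
    {d η : V m} {Er : V m →L[ℝ] V m} (hd : ‖d‖ ≤ (Λ + 1) * κ) (hη : ‖η‖ ≤ 1 / 8)
    (hEr : ‖Er‖ ≤ 8 * Λ ^ 2 * κ) {K : ℕ} {D : Fin K → Aff m}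
    (hD : ∀ w : Aff m, ‖w‖ ≤ 8 * Λ ^ 2 → ∃ i, ‖D i - w‖ ≤ 1 / 4) :
    ∃ i, ‖d + (κ • D i).1 + (κ • D i).2 η‖ ≤ κ ∧
      ‖Er + (κ • D i).2 + (κ • D i).2 ∘L Er‖ ≤ κ := by
  have hΛ2 : 1 ≤ Λ ^ 2 := by nlinarith
  have hΛ24 : Λ ^ 2 ≤ Λ ^ 4 := by nlinarith
  obtain ⟨w₀, hw₀⟩ : ∃ w₀ : Aff m, w₀ = (-d + Er η, -Er) := ⟨_, rfl⟩
  have hw₀1 : w₀.1 = -d + Er η := by rw [hw₀]
  have hw₀2 : w₀.2 = -Er := by rw [hw₀]
  have hErη : ‖Er η‖ ≤ Λ ^ 2 * κ := by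
    calc ‖Er η‖ ≤ ‖Er‖ * ‖η‖ := Er.le_opNorm η
      _ ≤ (8 * Λ ^ 2 * κ) * (1 / 8) := by gcongr
      _ = _ := by ring
  have hn1 : ‖w₀.1‖ ≤ 8 * Λ ^ 2 * κ := by
    rw [hw₀1]
    refine (norm_add_le _ _).trans ?_
    rw [norm_neg]
    have : (Λ + 1) * κ ≤ 7 * Λ ^ 2 * κ := by
      apply mul_le_mul_of_nonneg_right _ hκ.le
      nlinarith
    linarith
  have hn2 : ‖w₀.2‖ ≤ 8 * Λ ^ 2 * κ := by
    rw [hw₀2, norm_neg]
    exact hEr
  have hn : ‖w₀‖ ≤ 8 * Λ ^ 2 * κ := by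
    rw [Prod.norm_def]
    exact max_le hn1 hn2
  obtain ⟨i, hi⟩ := hD (κ⁻¹ • w₀) (by
    rw [norm_smul, norm_inv, Real.norm_of_nonneg hκ.le, inv_mul_le_iff₀ hκ]
    linarith)
  have hi' : ‖κ • D i - w₀‖ ≤ κ / 4 := by
    have e1 : κ • D i - w₀ = κ • (D i - κ⁻¹ • w₀) := by
      rw [smul_sub, smul_smul, mul_inv_cancel₀ hκ.ne', one_smul]
    rw [e1, norm_smul, Real.norm_of_nonneg hκ.le]
    have := mul_le_mul_of_nonneg_left hi hκ.le
    linarith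
  have hi1 : ‖(κ • D i).1 - w₀.1‖ ≤ κ / 4 := (norm_fst_le (κ • D i - w₀)).trans hi'
  have hi2 : ‖(κ • D i).2 - w₀.2‖ ≤ κ / 4 := (norm_snd_le (κ • D i - w₀)).trans hi'
  refine ⟨i, ?_, ?_⟩
  · have e1 : d + (κ • D i).1 + (κ • D i).2 η = ((κ • D i).1 - w₀.1) + ((κ • D i).2 - w₀.2) η := by
      rw [hw₀1, hw₀2, sub_apply, neg_apply]
      abel
    rw [e1]
    refine (norm_add_le _ _).trans ?_
    have h3 : ‖((κ • D i).2 - w₀.2) η‖ ≤ κ / 4 * (1 / 8) :=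
      (ContinuousLinearMap.le_opNorm _ _).trans (by gcongr)
    linarith
  · have e1 : Er + (κ • D i).2 + (κ • D i).2 ∘L Er =
        ((κ • D i).2 - w₀.2) + ((κ • D i).2 - w₀.2) ∘L Er - Er ∘L Er := by
      rw [hw₀2]
      ext1 v
      simp only [ContinuousLinearMap.comp_apply, add_apply, sub_apply,
        neg_apply]
      abel
    rw [e1]
    refine (norm_sub_le _ _).trans ?_
    have hEr1 : ‖Er‖ ≤ 1 / 8 := by
      refine hEr.trans ?_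
      nlinarith [mul_le_mul_of_nonneg_right hΛ24 hκ.le]
    have h3 : ‖((κ • D i).2 - w₀.2) ∘L Er‖ ≤ κ / 4 * (1 / 8) :=
      (ContinuousLinearMap.opNorm_comp_le _ _).trans (by gcongr)
    have h4 : ‖Er ∘L Er‖ ≤ κ / 4 := by
      refine (ContinuousLinearMap.opNorm_comp_le _ _).trans ?_
      calc ‖Er‖ * ‖Er‖ ≤ (8 * Λ ^ 2 * κ) * (8 * Λ ^ 2 * κ) := by gcongr
        _ = (256 * Λ ^ 4 * κ) * (κ / 4) := by ring
        _ ≤ 1 * (κ / 4) := by gcongr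
        _ = κ / 4 := one_mul _
    have h5 := norm_add_le ((κ • D i).2 - w₀.2) (((κ • D i).2 - w₀.2) ∘L Er)
    linarith

/-- the exact kick -/
theorem kick_lemma {m : ℕ} {Λ κ : ℝ} (hΛ : 1 ≤ Λ) (hκ : 0 < κ) (hκΛ : 256 * Λ ^ 4 * κ ≤ 1)
    {d η : V m} {Er : V m →L[ℝ] V m} (hd : ‖d‖ ≤ (Λ + 1) * κ) (hη : ‖η‖ ≤ 1 / 8)
    (hEr : ‖Er‖ ≤ 8 * Λ ^ 2 * κ) :
    ∃ w : Aff m, ‖w‖ ≤ 16 * Λ ^ 2 * κ ∧ ‖d + w.1 + w.2 η‖ ≤ 0 ∧
      ‖Er + w.2 + w.2 ∘L Er‖ ≤ 0 := by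
  have hΛ2 : 1 ≤ Λ ^ 2 := by nlinarith
  have hΛ24 : Λ ^ 2 ≤ Λ ^ 4 := by nlinarith
  have hEr1 : ‖Er‖ ≤ 1 / 8 := by
    refine hEr.trans ?_
    nlinarith [mul_le_mul_of_nonneg_right hΛ24 hκ.le]
  have hlow : ∀ u, ‖u‖ ≤ 2 * ‖u + Er u‖ := by
    intro u
    have h1 : ‖Er u‖ ≤ 1 / 8 * ‖u‖ := (Er.le_opNorm u).trans (by gcongr)
    have h2 : ‖u‖ ≤ ‖u + Er u‖ + ‖Er u‖ := by
      have e1 : u = (u + Er u) - Er u := by abel
      calc ‖u‖ = ‖(u + Er u) - Er u‖ := by rw [← e1]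
        _ ≤ _ := norm_sub_le _ _
    have h3 := norm_nonneg u
    linarith
  set T : V m →L[ℝ] V m := ContinuousLinearMap.id ℝ (V m) + Er with hT
  have hTu : ∀ u, T u = u + Er u := fun u => rfl
  have hinj : Function.Injective (T : V m →ₗ[ℝ] V m) := by
    rw [← LinearMap.ker_eq_bot, LinearMap.ker_eq_bot']
    intro u hu
    have hu' : T u = 0 := hu
    have := hlow u
    rw [← hTu, hu', norm_zero, mul_zero] at this
    exact norm_le_zero_iff.1 this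
  obtain ⟨e, he⟩ : ∃ e : V m ≃L[ℝ] V m, ∀ v, e v = T v :=
    ⟨(LinearEquiv.ofInjectiveEndo (T : V m →ₗ[ℝ] V m) hinj).toContinuousLinearEquiv, fun v => rfl⟩
  have hes : ∀ v, ‖e.symm v‖ ≤ 2 * ‖v‖ := by
    intro v
    have := hlow (e.symm v)
    rwa [← hTu, ← he, e.apply_symm_apply] at this
  set B : V m →L[ℝ] V m := (e.symm : V m →L[ℝ] V m) - ContinuousLinearMap.id ℝ (V m) with hB
  have hBu : ∀ u, B u = e.symm u - u := fun u => rfl
  have hBe : ∀ u, B u = - Er (e.symm u) := by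
    intro u
    have h1 : e.symm u + Er (e.symm u) = u := by
      rw [← hTu, ← he, e.apply_symm_apply]
    rw [hBu]
    calc e.symm u - u = e.symm u - (e.symm u + Er (e.symm u)) := by rw [h1]
      _ = _ := by abel
  have hBn : ‖B‖ ≤ 16 * Λ ^ 2 * κ := by
    refine ContinuousLinearMap.opNorm_le_bound _ (by positivity) fun u => ?_
    rw [hBe, norm_neg]
    calc ‖Er (e.symm u)‖ ≤ ‖Er‖ * ‖e.symm u‖ := Er.le_opNorm _
      _ ≤ (8 * Λ ^ 2 * κ) * (2 * ‖u‖) := by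
        gcongr
        exact hes u
      _ = _ := by ring
  refine ⟨(-d - B η, B), ?_, ?_, ?_⟩
  · rw [Prod.norm_def]
    refine max_le ?_ hBn
    show ‖-d - B η‖ ≤ _
    refine (norm_sub_le _ _).trans ?_
    rw [norm_neg]
    have h1 : ‖B η‖ ≤ (16 * Λ ^ 2 * κ) * (1 / 8) := (B.le_opNorm η).trans (by gcongr)
    have h2 : (Λ + 1) * κ ≤ 2 * Λ ^ 2 * κ := by
      apply mul_le_mul_of_nonneg_right _ hκ.le
      nlinarith
    have h3 : 0 ≤ Λ ^ 2 * κ := by positivity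
    linarith
  · show ‖d + (-d - B η) + B η‖ ≤ 0
    have e1 : d + (-d - B η) + B η = 0 := by abel
    rw [e1, norm_zero]
  · show ‖Er + B + B ∘L Er‖ ≤ 0
    have e1 : Er + B + B ∘L Er = 0 := by
      ext1 u
      show Er u + B u + B (Er u) = 0
      have h1 : B u + B (Er u) = B (e u) := by
        rw [he, hTu, map_add]
      rw [add_assoc, h1, hBe, e.symm_apply_apply]
      abel
    rw [e1, norm_zero]

section

variable {m : ℕ} {M : Type v} [TopologicalSpace M] [T2Space M] [ChartedSpace (V m) M]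
  [IsManifold (𝓡 m) ∞ M]

/-- the composition of the controlled maps along the chain `x` -/
noncomputable def cmp (A : FAtlas m M) {j : ℕ} (F : V j × V m → V m) (f : M → M) (x : ℕ → M)
    (q : ℕ → V j) : ℕ → M → M
  | 0 => id
  | i + 1 => fun a => tr (A.χ (A.jx (x (i + 1)))) F (q (i + 1)) (f (cmp A F f x q i a))

theorem cmp_congr (A : FAtlas m M) {j : ℕ} (F : V j × V m → V m) (f : M → M) (x : ℕ → M)
    {q q' : ℕ → V j} (i : ℕ) (h : ∀ l, l ≤ i → q l = q' l) :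
    cmp A F f x q i = cmp A F f x q' i := by
  induction i with
  | zero => rfl
  | succ i ih =>
    show (fun a => tr (A.χ (A.jx (x (i + 1)))) F (q (i + 1)) (f (cmp A F f x q i a))) =
      fun a => tr (A.χ (A.jx (x (i + 1)))) F (q' (i + 1)) (f (cmp A F f x q' i a))
    rw [ih fun l hl => h l (hl.trans (Nat.le_succ i)), h (i + 1) le_rfl]

/-- the product of the linear maps along the chain -/
noncomputable def lpr (L : ℕ → V m →L[ℝ] V m) : ℕ → V m →L[ℝ] V m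
  | 0 => ContinuousLinearMap.id ℝ (V m)
  | i + 1 => L i ∘L lpr L i

variable {r : ℕ∞}

/-- **Control.** -/
theorem control (A : FAtlas m M) {F F' : V (m + m * m) × V m → V m} {κF : ℝ}
    (hF : LFam (m + m * m) m F F')
    (hlin : ∀ x v, ‖x‖ < κF → ‖v‖ ≤ 1 / 4 → F (x, v) = v + (affE m x).1 + (affE m x).2 v)
    (f : DiffM m M r) {Λ : ℝ} (hΛ : 1 ≤ Λ)
    (hub : ∀ j j' (x : M), x ∈ (A.χ j).source → ‖A.χ j x‖ ≤ 1 / 16 → f x ∈ (A.χ j').source →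
      ‖A.χ j' (f x)‖ ≤ 1 / 8 → UBat (A.χ j) (A.χ j') f x Λ)
    {κ : ℝ} (hκ : 0 < κ) (hκΛ : 256 * Λ ^ 4 * κ ≤ 1)
    {K : ℕ} {D : Fin K → Aff m}
    (hD : ∀ w : Aff m, ‖w‖ ≤ 8 * Λ ^ 2 → ∃ i, ‖D i - w‖ ≤ 1 / 4)
    (hDκ : ∀ i, ‖sp m (κ • D i)‖ < κF)
    (hκκ : ∀ w : Aff m, ‖w‖ ≤ 16 * Λ ^ 2 * κ → ‖sp m w‖ < κF)
    {x : ℕ → M} {L : ℕ → V m →L[ℝ] V m} {n : ℕ}
    (hx : ∀ i, i ≤ n → f (x i) ∈ (A.χ (A.jx (x (i + 1)))).source ∧
      ‖A.χ (A.jx (x (i + 1))) (f (x i)) - A.χ (A.jx (x (i + 1))) (x (i + 1))‖ ≤ κ)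
    (hL : ∀ i, i ≤ n → ‖L i - Dm A f (x i) (x (i + 1))‖ ≤ κ) :
    ∃ (u : ℕ → Fin K) (w : Aff m), ‖w‖ ≤ 16 * Λ ^ 2 * κ ∧
      St A 0 (x 0) (x (n + 1)) (cmp A F f x
        (fun i => if i = n + 1 then sp m w else sp m (κ • D (u i))) (n + 1)) (lpr L (n + 1)) := by
  have h14 : Λ ≤ Λ ^ 4 := by nlinarith [mul_self_nonneg (Λ ^ 2 - 1), mul_self_nonneg (Λ - 1)]
  have h32 : 32 * Λ * κ ≤ 1 := by
    have := mul_le_mul_of_nonneg_right h14 hκ.le
    nlinarith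
  have hK : Nonempty (Fin K) := by
    obtain ⟨i, -⟩ := hD 0 (by rw [norm_zero]; positivity)
    exact ⟨i⟩
  -- the digits
  have key : ∀ l, l ≤ n → ∃ u : ℕ → Fin K,
      St A κ (x 0) (x l) (cmp A F f x (fun i => sp m (κ • D (u i))) l) (lpr L l) := by
    intro l
    induction l with
    | zero =>
      intro _
      exact ⟨fun _ => hK.some, st_init A hκ.le (x 0)⟩
    | succ l ih =>
      intro hl
      obtain ⟨u, hu⟩ := ih ((Nat.le_succ l).trans hl)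
      obtain ⟨η, Er, h1, h2, h3, h4⟩ := one_step A hF hlin f hΛ hub hκ h32 hu
        (hx l ((Nat.le_succ l).trans hl)).1 (hx l ((Nat.le_succ l).trans hl)).2
        (hL l ((Nat.le_succ l).trans hl))
      obtain ⟨i, hi, hi'⟩ := digit_lemma hΛ hκ hκΛ h1 h2 h3 hD
      refine ⟨Function.update u (l + 1) i, ?_⟩
      have h5 := h4 (κ • D i) κ (hDκ i) hi hi'
      have e1 : cmp A F f x (fun i' => sp m (κ • D (Function.update u (l + 1) i i'))) (l + 1) =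
          fun a => tr (A.χ (A.jx (x (l + 1)))) F (sp m (κ • D i))
            (f (cmp A F f x (fun i => sp m (κ • D (u i))) l a)) := by
        show (fun a => tr (A.χ (A.jx (x (l + 1)))) F
          (sp m (κ • D (Function.update u (l + 1) i (l + 1))))
          (f (cmp A F f x (fun i' => sp m (κ • D (Function.update u (l + 1) i i'))) l a))) = _
        rw [Function.update_self, cmp_congr A F f x l]
        intro l' hl'
        show sp m (κ • D (Function.update u (l + 1) i l')) = _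
        rw [Function.update_of_ne (by omega)]
      rw [e1]
      exact h5
  obtain ⟨u, hu⟩ := key n le_rfl
  obtain ⟨η, Er, h1, h2, h3, h4⟩ := one_step A hF hlin f hΛ hub hκ h32 hu
    (hx n le_rfl).1 (hx n le_rfl).2 (hL n le_rfl)
  obtain ⟨w, hw, hi, hi'⟩ := kick_lemma hΛ hκ hκΛ h1 h2 h3
  refine ⟨u, w, hw, ?_⟩
  have h5 := h4 w 0 (hκκ w hw) hi hi'
  have e1 : cmp A F f x (fun i => if i = n + 1 then sp m w else sp m (κ • D (u i))) (n + 1) =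
      fun a => tr (A.χ (A.jx (x (n + 1)))) F (sp m w)
        (f (cmp A F f x (fun i => sp m (κ • D (u i))) n a)) := by
    show (fun a => tr (A.χ (A.jx (x (n + 1)))) F
      (if n + 1 = n + 1 then sp m w else sp m (κ • D (u (n + 1))))
      (f (cmp A F f x (fun i => if i = n + 1 then sp m w else sp m (κ • D (u i))) n a))) = _
    rw [if_pos rfl, cmp_congr A F f x n]
    intro l' hl'
    show (if l' = n + 1 then sp m w else sp m (κ • D (u l'))) = _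
    rw [if_neg (by omega)]
  rw [e1]
  exact h5

/-- a state without error -/
theorem St.exact {A : FAtlas m M} {x₀ x : M} {c : M → M} {P : V m →L[ℝ] V m}
    (h : St A 0 x₀ x c P) : c x₀ = x ∧
    HasFDerivAt (fun v => A.χ (A.jx x) (c ((A.χ (A.jx x₀)).symm v))) P (A.χ (A.jx x₀) x₀) := by
  constructor
  · apply (A.χ (A.jx x)).injOn h.src (A.src x)
    exact sub_eq_zero.1 (norm_le_zero_iff.1 h.near)
  · obtain ⟨Δ, hΔ, hd⟩ := h.der
    rw [norm_le_zero_iff.1 hΔ, add_zero, ContinuousLinearMap.id_comp] at hd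
    exact hd

end

end Pool.Agent.H245.SH
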