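import Pool.Agent.H245.SH.B1

/-!
# Families of perturbations over an open embedding of a product
-/

set_option autoImplicit false
set_option linter.unusedSectionVars false

open scoped Manifold ContDiff Topology NNReal
open Filter Set Metric

universe u v w

namespace Pool.Agent.H245.SH

open Pool.Agent.H718R2.G Pool.Agent.W564.SC Pool.Agent.TH80.OMS Pool.Agent.Y271.CP

/-- a diffeomorphism of `M × Y` onto an open subset of `N`, with an inverse map -/
structure Emb (m k n : ℕ) (M : Type v) [TopologicalSpace M] [ChartedSpace (V m) M]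
    (Y : Type w) [TopologicalSpace Y] [ChartedSpace (V k) Y]
    (N : Type u) [TopologicalSpace N] [ChartedSpace (V n) N] where
  Θ : M × Y → N
  Ψ : N → M × Y
  left : ∀ p, Ψ (Θ p) = p
  smooth : ContMDiff ((𝓡 m).prod (𝓡 k)) (𝓡 n) ∞ Θ
  open_range : IsOpen (range Θ)
  smooth' : ∀ p, ContMDiffAt (𝓡 n) ((𝓡 m).prod (𝓡 k)) ∞ Ψ (Θ p)

theorem exists_emb {m k n : ℕ} {M : Type v} [TopologicalSpace M] [ChartedSpace (V m) M]
    {Y : Type w} [TopologicalSpace Y] [ChartedSpace (V k) Y]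
    {N : Type u} [TopologicalSpace N] [ChartedSpace (V n) N] [Nonempty M] [Nonempty Y]
    {Θ : M × Y → N} (hΘ : IsLocalDiffeomorph ((𝓡 m).prod (𝓡 k)) (𝓡 n) ∞ Θ)
    (hinj : Function.Injective Θ) : ∃ E : Emb m k n M Y N, E.Θ = Θ := by
  have hleft : ∀ p, Function.invFun Θ (Θ p) = p := Function.leftInverse_invFun hinj
  refine ⟨⟨Θ, Function.invFun Θ, hleft, hΘ.contMDiff, hΘ.isOpen_range, fun p => ?_⟩, rfl⟩
  obtain ⟨Φ, hp, heq⟩ := hΘ p
  have h1 : Θ p ∈ Φ.target := by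
    rw [heq hp]
    exact Φ.map_source hp
  have h2 : ContMDiffAt (𝓡 n) ((𝓡 m).prod (𝓡 k)) ∞ Φ.symm (Θ p) :=
    Φ.contMDiffOn_invFun.contMDiffAt (Φ.open_target.mem_nhds h1)
  refine h2.congr_of_eventuallyEq ?_
  filter_upwards [Φ.open_target.mem_nhds h1] with z hz
  have h3 : Φ.invFun z ∈ Φ.source := Φ.map_target hz
  have h4 : Θ (Φ.invFun z) = z := by
    rw [heq h3]
    exact Φ.right_inv hz
  show Function.invFun Θ z = Φ.invFun z
  conv_lhs => rw [← h4]
  exact hleft _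

section push

variable {P : Type} [NormedAddCommGroup P] [NormedSpace ℝ P]
  {m k n : ℕ} {M : Type v} [TopologicalSpace M] [T2Space M] [CompactSpace M] [ChartedSpace (V m) M]
  [IsManifold (𝓡 m) ∞ M]
  {Y : Type w} [TopologicalSpace Y] [ChartedSpace (V k) Y]
  {N : Type u} [TopologicalSpace N] [T2Space N] [ChartedSpace (V n) N]

open Classical in
/-- push in the first factor, with the parameter `β y • π p` -/
noncomputable def epush (E : Emb m k n M Y N) {j : ℕ} (χ : OpenPartialHomeomorph M (V m))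
    (F : V j × V m → V m) (β : Y → ℝ) (π : P →L[ℝ] V j) (p : P) (z : N) : N :=
  if z ∈ range E.Θ then E.Θ (tr χ F (β (E.Ψ z).2 • π p) (E.Ψ z).1, (E.Ψ z).2) else z

theorem epush_apply (E : Emb m k n M Y N) {j : ℕ} (χ : OpenPartialHomeomorph M (V m))
    (F : V j × V m → V m) (β : Y → ℝ) (π : P →L[ℝ] V j) (p : P) (x : M) (y : Y) :
    epush E χ F β π p (E.Θ (x, y)) = E.Θ (tr χ F (β y • π p) x, y) := by
  unfold epush
  rw [if_pos (mem_range_self _), E.left]

theorem epush_not (E : Emb m k n M Y N) {j : ℕ} (χ : OpenPartialHomeomorph M (V m))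
    (F : V j × V m → V m) (β : Y → ℝ) (π : P →L[ℝ] V j) (p : P) {z : N} (hz : z ∉ range E.Θ) :
    epush E χ F β π p z = z := by
  unfold epush
  rw [if_neg hz]

theorem epush_smooth (E : Emb m k n M Y N) {j : ℕ} {χ : OpenPartialHomeomorph M (V m)}
    {F F' : V j × V m → V m} (hF : LFam j m F F') (hs : ContMDiff ((𝓡 j).prod (𝓡 m)) (𝓡 m) ∞
      (fun q : V j × M => tr χ F q.1 q.2)) {β : Y → ℝ} (hβ : ContMDiff (𝓡 k) 𝓘(ℝ, ℝ) ∞ β)
    {K : Set Y} (hK : IsCompact K) (hβK : ∀ y, y ∉ K → β y = 0)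
    (π : P →L[ℝ] V j) :
    ContMDiff (𝓘(ℝ, P).prod (𝓡 n)) (𝓡 n) ∞ (fun q : P × N => epush E χ F β π q.1 q.2) := by
  rintro ⟨p₀, z₀⟩
  by_cases hz : z₀ ∈ range E.Θ
  · have h0 : ContMDiffAt (𝓡 n) ((𝓡 m).prod (𝓡 k)) ∞ E.Ψ z₀ := by
      obtain ⟨q, rfl⟩ := hz
      exact E.smooth' q
    have h1 : ContMDiffAt (𝓘(ℝ, P).prod (𝓡 n)) ((𝓡 m).prod (𝓡 k)) ∞
        (fun q : P × N => E.Ψ q.2) (p₀, z₀) :=
      ContMDiffAt.comp (g := E.Ψ) (f := fun q : P × N => q.2) (p₀, z₀) h0 contMDiffAt_snd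
    have h2 : ContMDiffAt (𝓘(ℝ, P).prod (𝓡 n)) (𝓡 m) ∞ (fun q : P × N => (E.Ψ q.2).1) (p₀, z₀) :=
      contMDiffAt_fst.comp _ h1
    have h3 : ContMDiffAt (𝓘(ℝ, P).prod (𝓡 n)) (𝓡 k) ∞ (fun q : P × N => (E.Ψ q.2).2) (p₀, z₀) :=
      contMDiffAt_snd.comp _ h1
    have h4 : ContMDiffAt (𝓘(ℝ, P).prod (𝓡 n)) 𝓘(ℝ, ℝ) ∞
        (fun q : P × N => β (E.Ψ q.2).2) (p₀, z₀) :=
      ContMDiffAt.comp (g := β) (f := fun q : P × N => (E.Ψ q.2).2) (p₀, z₀) hβ.contMDiffAt h3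
    have h5 : ContMDiffAt (𝓘(ℝ, P).prod (𝓡 n)) (𝓡 j) ∞ (fun q : P × N => π q.1) (p₀, z₀) :=
      ((π.contDiff.contMDiff).comp contMDiff_fst).contMDiffAt
    have h6 : ContMDiffAt (𝓘(ℝ, P).prod (𝓡 n)) (𝓡 j) ∞
        (fun q : P × N => β (E.Ψ q.2).2 • π q.1) (p₀, z₀) := h4.smul h5
    have h7 : ContMDiffAt (𝓘(ℝ, P).prod (𝓡 n)) (𝓡 m) ∞
        (fun q : P × N => tr χ F (β (E.Ψ q.2).2 • π q.1) (E.Ψ q.2).1) (p₀, z₀) :=
      ContMDiffAt.comp (g := fun q : V j × M => tr χ F q.1 q.2)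
        (f := fun q : P × N => (β (E.Ψ q.2).2 • π q.1, (E.Ψ q.2).1)) (p₀, z₀) hs.contMDiffAt
        (h6.prodMk h2)
    have h8 : ContMDiffAt (𝓘(ℝ, P).prod (𝓡 n)) (𝓡 n) ∞
        (fun q : P × N => E.Θ (tr χ F (β (E.Ψ q.2).2 • π q.1) (E.Ψ q.2).1, (E.Ψ q.2).2)) (p₀, z₀) :=
      ContMDiffAt.comp (g := E.Θ)
        (f := fun q : P × N => (tr χ F (β (E.Ψ q.2).2 • π q.1) (E.Ψ q.2).1, (E.Ψ q.2).2)) (p₀, z₀)
        E.smooth.contMDiffAt (h7.prodMk h3)
    refine h8.congr_of_eventuallyEq ?_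
    have h9 : ∀ᶠ q : P × N in 𝓝 (p₀, z₀), q.2 ∈ range E.Θ :=
      continuousAt_snd.eventually_mem (E.open_range.mem_nhds hz)
    filter_upwards [h9] with q hq
    show epush E χ F β π q.1 q.2 = _
    unfold epush
    rw [if_pos hq]
  · have hC : IsCompact (E.Θ '' (univ ×ˢ K)) :=
      (isCompact_univ.prod hK).image E.smooth.continuous
    have hz' : z₀ ∉ E.Θ '' (univ ×ˢ K) := fun h => hz (image_subset_range _ _ h)
    have h9 : ∀ᶠ q : P × N in 𝓝 (p₀, z₀), q.2 ∈ (E.Θ '' (univ ×ˢ K))ᶜ :=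
      continuousAt_snd.eventually_mem (hC.isClosed.isOpen_compl.mem_nhds hz')
    have h10 : ContMDiffAt (𝓘(ℝ, P).prod (𝓡 n)) (𝓡 n) ∞ (fun q : P × N => q.2) (p₀, z₀) :=
      contMDiffAt_snd
    refine h10.congr_of_eventuallyEq ?_
    filter_upwards [h9] with q hq
    show epush E χ F β π q.1 q.2 = q.2
    by_cases hq2 : q.2 ∈ range E.Θ
    · obtain ⟨⟨x, y⟩, hxy⟩ := hq2
      rw [← hxy, epush_apply]
      have hy : y ∉ K := fun h => hq ⟨(x, y), ⟨mem_univ _, h⟩, hxy⟩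
      rw [hβK y hy, zero_smul, tr_zero hF]
    · exact epush_not E χ F β π q.1 hq2

theorem epush_inv (E : Emb m k n M Y N) {j : ℕ} {χ : OpenPartialHomeomorph M (V m)}
    {F F' : V j × V m → V m} (h : ∀ p x, tr χ F' p (tr χ F p x) = x) (β : Y → ℝ)
    (π : P →L[ℝ] V j) (p : P) (z : N) : epush E χ F' β π p (epush E χ F β π p z) = z := by
  by_cases hz : z ∈ range E.Θ
  · obtain ⟨⟨x, y⟩, rfl⟩ := hz
    rw [epush_apply, epush_apply, h]
  · rw [epush_not E χ F β π p hz, epush_not E χ F' β π p hz]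

theorem epush_isDF (E : Emb m k n M Y N) {j : ℕ} {χ : OpenPartialHomeomorph M (V m)} {z : M}
    (hg : GoodChart m M χ z) {F F' : V j × V m → V m} (hF : LFam j m F F') {β : Y → ℝ}
    (hβ : ContMDiff (𝓡 k) 𝓘(ℝ, ℝ) ∞ β) {K : Set Y} (hK : IsCompact K)
    (hβK : ∀ y, y ∉ K → β y = 0) (π : P →L[ℝ] V j) :
    IsDF n (epush E χ F β π) (epush E χ F' β π) := by
  obtain ⟨hA, hcl⟩ := good_closed hg
  have hs := tr_smooth hg.mem hA hcl hF.inv hF.smooth hF.supp
  have hs' := tr_smooth hg.mem hA hcl hF.inv' hF.smooth' hF.supp'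
  have hF' : LFam j m F' F := by
    refine ⟨hF.smooth', hF.smooth, hF.inv', hF.inv, hF.supp', hF.supp, fun v => ?_⟩
    have := hF.inv 0 v
    rwa [hF.zero] at this
  refine ⟨epush_smooth E hF hs hβ hK hβK π, epush_smooth E hF' hs' hβ hK hβK π, fun p z => ?_,
    fun p z => ?_, fun z => ?_⟩
  · exact epush_inv E (tr_inv hA hF.inv hF.supp) β π p z
  · exact epush_inv E (tr_inv hA hF.inv' hF.supp') β π p z
  · by_cases hz : z ∈ range E.Θ
    · obtain ⟨⟨x, y⟩, rfl⟩ := hz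
      rw [epush_apply, map_zero, smul_zero, tr_zero hF]
    · exact epush_not E χ F β π 0 hz

end push

section many

variable {m k n : ℕ} {M : Type v} [TopologicalSpace M] [T2Space M] [CompactSpace M]
  [ChartedSpace (V m) M] [IsManifold (𝓡 m) ∞ M]
  {Y : Type w} [TopologicalSpace Y] [ChartedSpace (V k) Y]
  {N : Type u} [TopologicalSpace N] [T2Space N] [ChartedSpace (V n) N]

/-- the composition of the pushes with indices in the list `l` -/
noncomputable def epushs (E : Emb m k n M Y N) {S j : ℕ}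
    (χ : Fin S → OpenPartialHomeomorph M (V m)) (F : V j × V m → V m) (β : Fin S → Y → ℝ) :
    List (Fin S) → Par S j → N → N
  | [], _, z => z
  | i :: l, p, z => epush E (χ i) F (β i) (ContinuousLinearMap.proj i) p (epushs E χ F β l p z)

/-- the composition of the inverses -/
noncomputable def epushs' (E : Emb m k n M Y N) {S j : ℕ}
    (χ : Fin S → OpenPartialHomeomorph M (V m)) (F : V j × V m → V m) (β : Fin S → Y → ℝ) :
    List (Fin S) → Par S j → N → N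
  | [], _, z => z
  | i :: l, p, z => epushs' E χ F β l p (epush E (χ i) F (β i) (ContinuousLinearMap.proj i) p z)

theorem epushs_isDF (E : Emb m k n M Y N) {S j : ℕ}
    {χ : Fin S → OpenPartialHomeomorph M (V m)} {z : Fin S → M} (hg : ∀ i, GoodChart m M (χ i) (z i))
    {F F' : V j × V m → V m} (hF : LFam j m F F') {β : Fin S → Y → ℝ}
    (hβ : ∀ i, ContMDiff (𝓡 k) 𝓘(ℝ, ℝ) ∞ (β i)) {K : Fin S → Set Y} (hK : ∀ i, IsCompact (K i))
    (hβK : ∀ i y, y ∉ K i → β i y = 0) (l : List (Fin S)) :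
    IsDF n (epushs E χ F β l) (epushs' E χ F' β l) := by
  induction l with
  | nil => exact IsDF.id
  | cons i l ih =>
    have h2 : IsDF n (epush E (χ i) F (β i) (ContinuousLinearMap.proj i : Par S j →L[ℝ] V j))
        (epush E (χ i) F' (β i) (ContinuousLinearMap.proj i : Par S j →L[ℝ] V j)) :=
      epush_isDF E (hg i) hF (hβ i) (hK i) (hβK i) _
    have h3 := ih.comp h2
    have e1 : epushs E χ F β (i :: l) = fun p z =>
        epush E (χ i) F (β i) (ContinuousLinearMap.proj i) p (epushs E χ F β l p z) := rfl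
    have e2 : epushs' E χ F' β (i :: l) = fun p z =>
        epushs' E χ F' β l p (epush E (χ i) F' (β i) (ContinuousLinearMap.proj i) p z) := rfl
    rw [e1, e2]
    exact h3

theorem epushs_zero (E : Emb m k n M Y N) {S j : ℕ}
    {χ : Fin S → OpenPartialHomeomorph M (V m)} {F F' : V j × V m → V m} (hF : LFam j m F F')
    {β : Fin S → Y → ℝ} (p : Par S j) (x : M) (y : Y) (l : List (Fin S))
    (h : ∀ i ∈ l, β i y = 0) : epushs E χ F β l p (E.Θ (x, y)) = E.Θ (x, y) := by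
  induction l with
  | nil => rfl
  | cons i l ih =>
    show epush E (χ i) F (β i) (ContinuousLinearMap.proj i) p (epushs E χ F β l p (E.Θ (x, y))) = _
    rw [ih fun i hi => h i (List.mem_cons_of_mem _ hi), epush_apply, h i List.mem_cons_self,
      zero_smul, tr_zero hF]

theorem epushs_one (E : Emb m k n M Y N) {S j : ℕ}
    {χ : Fin S → OpenPartialHomeomorph M (V m)} {F F' : V j × V m → V m} (hF : LFam j m F F')
    {β : Fin S → Y → ℝ} (p : Par S j) (x : M) (y : Y) (i₀ : Fin S) (h1 : β i₀ y = 1)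
    (h0 : ∀ i, i ≠ i₀ → β i y = 0) (l : List (Fin S)) (hl : l.Nodup) (hi₀ : i₀ ∈ l) :
    epushs E χ F β l p (E.Θ (x, y)) = E.Θ (tr (χ i₀) F (p i₀) x, y) := by
  induction l with
  | nil => simp at hi₀
  | cons i l ih =>
    show epush E (χ i) F (β i) (ContinuousLinearMap.proj i) p (epushs E χ F β l p (E.Θ (x, y))) = _
    rw [List.nodup_cons] at hl
    by_cases hi : i = i₀
    · subst hi
      rw [epushs_zero E hF p x y l fun i' hi' => h0 i' fun h => hl.1 (h ▸ hi'), epush_apply, h1,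
        one_smul]
      rfl
    · have hm : i₀ ∈ l := by
        rcases List.mem_cons.1 hi₀ with h | h
        · exact absurd h.symm hi
        · exact h
      rw [ih hl.2 hm, epush_apply, h0 i hi, zero_smul, tr_zero hF]

/-- **The family of perturbations.** On the slice over `y ∈ K` the map `G p` is `f` followed by the
push `p i` in the chart `χ i`, where `i` is the symbol of `h y`. -/
theorem exists_family' (E : Emb m k n M Y N) [CompactSpace N]
    [IsManifold (𝓡 n) ∞ N] {S j : ℕ}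
    {χ : Fin S → OpenPartialHomeomorph M (V m)} {z : Fin S → M} (hg : ∀ i, GoodChart m M (χ i) (z i))
    {F F' : V j × V m → V m} (hF : LFam j m F F') {β : Fin S → Y → ℝ}
    (hβ : ∀ i, ContMDiff (𝓡 k) 𝓘(ℝ, ℝ) ∞ (β i)) {C : Fin S → Set Y} (hC : ∀ i, IsCompact (C i))
    (hβC : ∀ i y, y ∉ C i → β i y = 0) {r : ℕ∞} (hr : 1 ≤ r) (G : DiffM n N r)
    {f : M → M} {h : Y → Y} {K : Set Y} (hG : ∀ x, ∀ y ∈ K, G (E.Θ (x, y)) = E.Θ (f x, h y))
    (U : Set (DiffM n N r))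
    (hU : IsOpen[strongTop n N r] U) (hGU : G ∈ U) (z₀ : N) :
    ∃ κ : ℝ, 0 < κ ∧ ∀ p : Par S j, ‖p‖ < κ → ∃ g ∈ U, ∀ (x : M) (y : Y) (i : Fin S), y ∈ K →
      β i (h y) = 1 → (∀ i', i' ≠ i → β i' (h y) = 0) →
      g (E.Θ (x, y)) = E.Θ (tr (χ i) F (p i) (f x), h y) := by
  have hDF := epushs_isDF (n := n) E hg hF hβ hC hβC (List.finRange S)
  obtain ⟨κ, hκ, h1⟩ := hDF.fam_mem hr G z₀ U hU hGU
  refine ⟨κ, hκ, fun p hp => ⟨_, h1 p hp, fun x y i hy hi hi' => ?_⟩⟩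
  rw [hDF.fam_apply, hG x y hy]
  exact epushs_one E hF p (f x) (h y) i hi hi' _ (List.nodup_finRange S) (List.mem_finRange i)

end many

end Pool.Agent.H245.SH
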