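import Pool.Agent.H245.SH.A1
import Pool.Agent.H245.SH.B4
import Pool.Agent.H245.SH.E1
import Pool.Graph.R_seed8.Y504.CO.Gen

/-!
# Products with a rich factor: the linear maps along pseudo-orbits
-/

set_option autoImplicit false
set_option linter.unusedSectionVars false

open scoped Manifold ContDiff Topology NNReal
open Filter Set Metric

universe u v w

namespace Pool.Agent.H245.SH

open Pool.Agent.H718R2.G Pool.Agent.W564.SC Pool.Agent.TH80.OMS Pool.Agent.Y271.CP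
  Pool.Agent.Y504.CO

/-- `h` has on `K` a periodic full shift on `S` symbols: there are pairwise disjoint compact sets
`V 0, …, V (S - 1)` such that for every `n ≥ 1` and every word `c` of length `n` there is a point `y`
with `h^n(y) = y` and `h^i(y) ∈ K ∩ V (c i)` for `0 ≤ i < n`. -/
def Rich {Y : Type w} [TopologicalSpace Y] (S : ℕ) (h : Y → Y) (K : Set Y) : Prop :=
  ∃ V : Fin S → Set Y, (∀ i, IsCompact (V i)) ∧ (∀ i j, i ≠ j → Disjoint (V i) (V j)) ∧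
    ∀ (n : ℕ) (c : ℕ → Fin S), 1 ≤ n →
      ∃ y, h^[n] y = y ∧ ∀ i, i < n → h^[i] y ∈ K ∧ h^[i] y ∈ V (c i)

section slice

variable {m k n : ℕ} {M : Type v} [TopologicalSpace M] [ChartedSpace (V m) M]
  [IsManifold (𝓡 m) ∞ M]
  {Y : Type w} [TopologicalSpace Y] [ChartedSpace (V k) Y]
  {N : Type u} [TopologicalSpace N] [ChartedSpace (V n) N] [IsManifold (𝓡 n) ∞ N]

theorem slice_smooth (E : Emb m k n M Y N) {χ : OpenPartialHomeomorph M (V m)}
    (hχ : χ ∈ IsManifold.maximalAtlas (𝓡 m) ∞ M) {ψ : OpenPartialHomeomorph N (V n)}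
    (hψ : ψ ∈ IsManifold.maximalAtlas (𝓡 n) ∞ N) {x : M} {y : Y} (hx : x ∈ χ.source)
    (hp : E.Θ (x, y) ∈ ψ.source) :
    DifferentiableAt ℝ (fun v => ψ (E.Θ (χ.symm v, y))) (χ x) := by
  have h0 : ContMDiffAt (𝓡 m) (𝓡 m) ∞ χ.symm (χ x) :=
    (contMDiffOn_symm_of_mem_maximalAtlas hχ).contMDiffAt (χ.open_target.mem_nhds (χ.map_source hx))
  have h1 : ContMDiffAt (𝓡 m) ((𝓡 m).prod (𝓡 k)) ∞ (fun v => (χ.symm v, y)) (χ x) :=
    h0.prodMk contMDiffAt_const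
  have h2 : ContMDiffAt (𝓡 m) (𝓡 n) ∞ (fun v => E.Θ (χ.symm v, y)) (χ x) :=
    E.smooth.contMDiffAt.comp (χ x) h1
  have h3 : ContMDiffAt (𝓡 n) (𝓡 n) ∞ ψ (E.Θ (χ.symm (χ x), y)) := by
    rw [χ.left_inv hx]
    exact (contMDiffOn_of_mem_maximalAtlas hψ).contMDiffAt (ψ.open_source.mem_nhds hp)
  have h4 : ContMDiffAt (𝓡 m) (𝓡 n) ∞ (fun v => ψ (E.Θ (χ.symm v, y))) (χ x) :=
    ContMDiffAt.comp (g := ψ) (f := fun v => E.Θ (χ.symm v, y)) (χ x) h3 h2
  rw [contMDiffAt_iff_contDiffAt] at h4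
  exact h4.differentiableAt (by simp)

theorem slice_smooth' (E : Emb m k n M Y N) {χ : OpenPartialHomeomorph M (V m)}
    (hχ : χ ∈ IsManifold.maximalAtlas (𝓡 m) ∞ M) {ψ : OpenPartialHomeomorph N (V n)}
    (hψ : ψ ∈ IsManifold.maximalAtlas (𝓡 n) ∞ N) {x : M} {y : Y} (hx : x ∈ χ.source)
    (hp : E.Θ (x, y) ∈ ψ.source) :
    DifferentiableAt ℝ (fun v => χ (E.Ψ (ψ.symm v)).1) (ψ (E.Θ (x, y))) := by
  have h0 : ContMDiffAt (𝓡 n) (𝓡 n) ∞ ψ.symm (ψ (E.Θ (x, y))) :=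
    (contMDiffOn_symm_of_mem_maximalAtlas hψ).contMDiffAt (ψ.open_target.mem_nhds (ψ.map_source hp))
  have h1 : ContMDiffAt (𝓡 n) ((𝓡 m).prod (𝓡 k)) ∞ (fun v => E.Ψ (ψ.symm v))
      (ψ (E.Θ (x, y))) := by
    have h5 : ContMDiffAt (𝓡 n) ((𝓡 m).prod (𝓡 k)) ∞ E.Ψ (ψ.symm (ψ (E.Θ (x, y)))) := by
      rw [ψ.left_inv hp]
      exact E.smooth' (x, y)
    exact ContMDiffAt.comp (g := E.Ψ) (f := ψ.symm) (ψ (E.Θ (x, y))) h5 h0
  have h2 : ContMDiffAt (𝓡 n) (𝓡 m) ∞ (fun v => (E.Ψ (ψ.symm v)).1) (ψ (E.Θ (x, y))) :=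
    contMDiffAt_fst.comp _ h1
  have h3 : ContMDiffAt (𝓡 m) (𝓡 m) ∞ χ ((E.Ψ (ψ.symm (ψ (E.Θ (x, y))))).1) := by
    rw [ψ.left_inv hp, E.left]
    exact (contMDiffOn_of_mem_maximalAtlas hχ).contMDiffAt (χ.open_source.mem_nhds hx)
  have h4 : ContMDiffAt (𝓡 n) (𝓡 m) ∞ (fun v => χ (E.Ψ (ψ.symm v)).1) (ψ (E.Θ (x, y))) :=
    ContMDiffAt.comp (g := χ) (f := fun v => (E.Ψ (ψ.symm v)).1) _ h3 h2
  rw [contMDiffAt_iff_contDiffAt] at h4
  exact h4.differentiableAt (by simp)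

theorem iter_contMDiff {r : ℕ∞} (g : DiffM n N r) (l : ℕ) : ContMDiff (𝓡 n) (𝓡 n) r (g^[l]) := by
  induction l with
  | zero => exact contMDiff_id
  | succ l ih =>
    rw [Function.iterate_succ]
    exact ih.comp g.contMDiff

theorem iter_diff {r : ℕ∞} (hr : 1 ≤ r) (g : DiffM n N r) {ψ : OpenPartialHomeomorph N (V n)}
    (hψ : ψ ∈ IsManifold.maximalAtlas (𝓡 n) ∞ N) (l : ℕ) {p : N} (hp : p ∈ ψ.source)
    (hp' : g^[l] p ∈ ψ.source) :
    DifferentiableAt ℝ (fun v => ψ (g^[l] (ψ.symm v))) (ψ p) := by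
  have hr1 : ((r : ℕ∞) : WithTop ℕ∞) ≠ 0 := by
    intro h
    have : r = 0 := by exact_mod_cast h
    rw [this] at hr
    exact absurd hr (by decide)
  exact (loc_contDiffAt hψ hψ (iter_contMDiff g l) hp hp').differentiableAt hr1

/-- bounded orbits of a linear map with a root of modulus one -/
theorem exists_orbit {P : V m →L[ℝ] V m} (h : ¬ NoOne P) : ∃ a : ℤ → V m,
    (∃ C : ℝ, ∀ i, ‖a i‖ ≤ C) ∧ (∀ i, a (i + 1) = P (a i)) ∧ a 0 ≠ 0 := by
  unfold NoOne at h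
  push Not at h
  obtain ⟨μ, hμ, hμ1⟩ := h
  obtain ⟨u, w, hne, hu, hw⟩ := pair_of_root P hμ
  have hμ0 : μ ≠ 0 := by
    intro h0
    rw [h0, norm_zero] at hμ1
    exact zero_ne_one hμ1
  have hz : ∀ i : ℤ, ‖μ ^ i‖ = 1 := fun i => by rw [norm_zpow, hμ1, one_zpow]
  have hre : ∀ i : ℤ, |(μ ^ i).re| ≤ 1 := fun i => (Complex.abs_re_le_norm _).trans (hz i).le
  have him : ∀ i : ℤ, |(μ ^ i).im| ≤ 1 := fun i => (Complex.abs_im_le_norm _).trans (hz i).le
  have hr1 : ∀ i : ℤ, (μ ^ (i + 1)).re = (μ ^ i).re * μ.re - (μ ^ i).im * μ.im := fun i => by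
    rw [zpow_add_one₀ hμ0, Complex.mul_re]
  have hi1 : ∀ i : ℤ, (μ ^ (i + 1)).im = (μ ^ i).re * μ.im + (μ ^ i).im * μ.re := fun i => by
    rw [zpow_add_one₀ hμ0, Complex.mul_im]
  rcases hne with hne | hne
  · refine ⟨fun i => (μ ^ i).re • u - (μ ^ i).im • w, ⟨‖u‖ + ‖w‖, fun i => ?_⟩, fun i => ?_, ?_⟩
    · refine (norm_sub_le _ _).trans ?_
      rw [norm_smul, norm_smul, Real.norm_eq_abs, Real.norm_eq_abs]
      have h1 := mul_le_mul_of_nonneg_right (hre i) (norm_nonneg u)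
      have h2 := mul_le_mul_of_nonneg_right (him i) (norm_nonneg w)
      linarith
    · show (μ ^ (i + 1)).re • u - (μ ^ (i + 1)).im • w = P ((μ ^ i).re • u - (μ ^ i).im • w)
      rw [map_sub, map_smul, map_smul, hu, hw, hr1, hi1]
      module
    · show (μ ^ (0 : ℤ)).re • u - (μ ^ (0 : ℤ)).im • w ≠ 0
      simpa using hne
  · refine ⟨fun i => (μ ^ i).im • u + (μ ^ i).re • w, ⟨‖u‖ + ‖w‖, fun i => ?_⟩, fun i => ?_, ?_⟩
    · refine (norm_add_le _ _).trans ?_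
      rw [norm_smul, norm_smul, Real.norm_eq_abs, Real.norm_eq_abs]
      have h1 := mul_le_mul_of_nonneg_right (hre i) (norm_nonneg w)
      have h2 := mul_le_mul_of_nonneg_right (him i) (norm_nonneg u)
      linarith
    · show (μ ^ (i + 1)).im • u + (μ ^ (i + 1)).re • w = P ((μ ^ i).im • u + (μ ^ i).re • w)
      rw [map_add, map_smul, map_smul, hu, hw, hr1, hi1]
      module
    · show (μ ^ (0 : ℤ)).im • u + (μ ^ (0 : ℤ)).re • w ≠ 0
      simpa using hne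

/-- The derivative along the first factor of a fibred return map to a hyperbolic periodic point. -/
theorem slice_noOne (E : Emb m k n M Y N) {r : ℕ∞} (hr : 1 ≤ r) (g : DiffM n N r) {y : Y}
    {c : M → M} {l : ℕ} (hl : 1 ≤ l) (hgc : ∀ x, g^[l] (E.Θ (x, y)) = E.Θ (c x, y))
    {χ : OpenPartialHomeomorph M (V m)} (hχ : χ ∈ IsManifold.maximalAtlas (𝓡 m) ∞ M) {x : M}
    (hx : x ∈ χ.source) (hcc : ContinuousAt c x) (hcx : c x = x) {P : V m →L[ℝ] V m}
    (hP : HasFDerivAt (fun v => χ (c (χ.symm v))) P (χ x)) (hhyp : HypAt n g (E.Θ (x, y))) :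
    NoOne P := by
  by_contra hcon
  obtain ⟨a, ⟨C, hC⟩, ha, ha0⟩ := exists_orbit hcon
  obtain ⟨ψ, hψ⟩ : ∃ ψ, ψ = chartAt (V n) (E.Θ (x, y)) := ⟨_, rfl⟩
  have hψm : ψ ∈ IsManifold.maximalAtlas (𝓡 n) ∞ N := by
    rw [hψ]
    exact IsManifold.chart_mem_maximalAtlas _
  have hp : E.Θ (x, y) ∈ ψ.source := by
    rw [hψ]
    exact mem_chart_source _ _
  have hper : g^[l] (E.Θ (x, y)) = E.Θ (x, y) := by rw [hgc, hcx]
  have hI := (slice_smooth E hχ hψm hx hp).hasFDerivAt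
  have hI' := (slice_smooth' E hχ hψm hx hp).hasFDerivAt
  have hG := (iter_diff hr g hψm l hp (by rw [hper]; exact hp)).hasFDerivAt
  set I := fderiv ℝ (fun v => ψ (E.Θ (χ.symm v, y))) (χ x) with hIdef
  set I' := fderiv ℝ (fun v => χ (E.Ψ (ψ.symm v)).1) (ψ (E.Θ (x, y))) with hI'def
  set G := fderiv ℝ (fun v => ψ (g^[l] (ψ.symm v))) (ψ (E.Θ (x, y))) with hGdef
  have e0 : χ.symm (χ x) = x := χ.left_inv hx
  have hcΘ : ContinuousAt (fun v => E.Θ (χ.symm v, y)) (χ x) := by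
    apply E.smooth.continuous.continuousAt.comp
    exact (χ.continuousAt_symm (χ.map_source hx)).prodMk continuousAt_const
  have hev : ∀ᶠ v in 𝓝 (χ x), E.Θ (χ.symm v, y) ∈ ψ.source := by
    apply hcΘ.eventually_mem
    rw [e0]
    exact ψ.open_source.mem_nhds hp
  -- injectivity
  have hinj : I' ∘L I = ContinuousLinearMap.id ℝ (V m) := by
    have h1 : HasFDerivAt ((fun v => χ (E.Ψ (ψ.symm v)).1) ∘ (fun v => ψ (E.Θ (χ.symm v, y))))
        (I' ∘L I) (χ x) := by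
      apply HasFDerivAt.comp
      · rw [e0]
        exact hI'
      · exact hI
    have h2 : ((fun v => χ (E.Ψ (ψ.symm v)).1) ∘ (fun v => ψ (E.Θ (χ.symm v, y)))) =ᶠ[𝓝 (χ x)]
        fun v => v := by
      filter_upwards [hev, χ.open_target.mem_nhds (χ.map_source hx)] with v hv hv'
      show χ (E.Ψ (ψ.symm (ψ (E.Θ (χ.symm v, y))))).1 = v
      rw [ψ.left_inv hv, E.left]
      exact χ.right_inv hv'
    exact h1.unique ((hasFDerivAt_id (𝕜 := ℝ) (χ x)).congr_of_eventuallyEq h2)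
  -- the commutation
  have hcomm : G ∘L I = I ∘L P := by
    have h1 : HasFDerivAt ((fun v => ψ (g^[l] (ψ.symm v))) ∘ (fun v => ψ (E.Θ (χ.symm v, y))))
        (G ∘L I) (χ x) := by
      apply HasFDerivAt.comp
      · rw [e0]
        exact hG
      · exact hI
    have h2 : HasFDerivAt ((fun v => ψ (E.Θ (χ.symm v, y))) ∘ (fun v => χ (c (χ.symm v))))
        (I ∘L P) (χ x) := by
      apply HasFDerivAt.comp
      · rw [e0, hcx]
        exact hI
      · exact hP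
    have hev2 : ∀ᶠ v in 𝓝 (χ x), c (χ.symm v) ∈ χ.source := by
      have h3 : ContinuousAt (fun v => c (χ.symm v)) (χ x) := by
        apply ContinuousAt.comp
        · rw [e0]
          exact hcc
        · exact χ.continuousAt_symm (χ.map_source hx)
      apply h3.eventually_mem
      rw [e0, hcx]
      exact χ.open_source.mem_nhds hx
    have h3 : ((fun v => ψ (g^[l] (ψ.symm v))) ∘ (fun v => ψ (E.Θ (χ.symm v, y)))) =ᶠ[𝓝 (χ x)]
        ((fun v => ψ (E.Θ (χ.symm v, y))) ∘ (fun v => χ (c (χ.symm v)))) := by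
      filter_upwards [hev, hev2] with v hv hv'
      show ψ (g^[l] (ψ.symm (ψ (E.Θ (χ.symm v, y))))) = ψ (E.Θ (χ.symm (χ (c (χ.symm v))), y))
      rw [ψ.left_inv hv, hgc, χ.left_inv hv']
    exact h1.unique (h2.congr_of_eventuallyEq h3)
  have hno := hhyp l hl hper ψ hψm hp
  have h4 := hno (fun i => I (a i)) ⟨‖I‖ * C, fun i => (I.le_opNorm _).trans (by gcongr; exact hC i)⟩
    (fun i => by
      show I (a (i + 1)) = G (I (a i))
      rw [ha]
      exact (congrArg (fun T : V m →L[ℝ] V n => T (a i)) hcomm).symm) 0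
  apply ha0
  have h5 : I' (I (a 0)) = a 0 := congrArg (fun T : V m →L[ℝ] V m => T (a 0)) hinj
  rw [← h5]
  show I' (I (a 0)) = 0
  have h6 : I (a 0) = 0 := h4
  rw [h6, map_zero]

end slice

end Pool.Agent.H245.SH
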