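import Pool.Agent.H245.SH.B5

/-!
# The linear maps along closed pseudo-orbits of `f`, when `f × h` is `Ω`-stable and `h` is rich
-/

set_option autoImplicit false
set_option linter.unusedSectionVars false

open scoped Manifold ContDiff Topology NNReal
open Filter Set Metric

universe u v w

namespace Pool.Agent.H245.SH

open Pool.Agent.H718R2.G Pool.Agent.W564.SC Pool.Agent.TH80.OMS Pool.Agent.Y271.CP
  Pool.Agent.Y504.CO

/-- smooth functions which separate compact sets -/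
theorem exists_beta {k : ℕ} {Y : Type w} [TopologicalSpace Y] [T2Space Y] [SigmaCompactSpace Y]
    [ChartedSpace (V k) Y] [IsManifold (𝓡 k) ∞ Y] {S : ℕ} {W : Fin S → Set Y}
    (hW : ∀ i, IsCompact (W i)) (hd : ∀ i j, i ≠ j → Disjoint (W i) (W j)) :
    ∃ (β : Fin S → Y → ℝ) (C : Fin S → Set Y), (∀ i, ContMDiff (𝓡 k) 𝓘(ℝ, ℝ) ∞ (β i)) ∧
      (∀ i, IsCompact (C i)) ∧ (∀ i y, y ∉ C i → β i y = 0) ∧ (∀ i, ∀ y ∈ W i, β i y = 1) ∧
      ∀ i j, i ≠ j → ∀ y ∈ W j, β i y = 0 := by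
  have : LocallyCompactSpace Y := ChartedSpace.locallyCompactSpace (V k) Y
  have h1 : ∀ i : Fin S, ∃ (b : Y → ℝ) (C : Set Y), ContMDiff (𝓡 k) 𝓘(ℝ, ℝ) ∞ b ∧ IsCompact C ∧
      (∀ y, y ∉ C → b y = 0) ∧ (∀ y ∈ W i, b y = 1) ∧ ∀ j, i ≠ j → ∀ y ∈ W j, b y = 0 := by
    intro i
    obtain ⟨C, hC, hWC⟩ := exists_compact_superset (hW i)
    have hcl : IsClosed ((interior C)ᶜ ∪ ⋃ j ∈ {j : Fin S | i ≠ j}, W j) :=
      isOpen_interior.isClosed_compl.union
        ((Set.toFinite _).isClosed_biUnion fun j _ => (hW j).isClosed)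
    have hdj : Disjoint ((interior C)ᶜ ∪ ⋃ j ∈ {j : Fin S | i ≠ j}, W j) (W i) := by
      rw [Set.disjoint_left]
      rintro y (hy | hy) hy'
      · exact hy (hWC hy')
      · obtain ⟨j, hj, hyj⟩ := mem_iUnion₂.1 hy
        exact Set.disjoint_left.1 (hd i j hj) hy' hyj
    obtain ⟨b, hb0, hb1, -⟩ := exists_contMDiffMap_zero_one_of_isClosed (𝓡 k) (n := ⊤) hcl
      (hW i).isClosed hdj
    refine ⟨b, C, b.contMDiff, hC, fun y hy => hb0 (Or.inl fun h => hy (interior_subset h)),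
      fun y hy => hb1 hy, fun j hj y hy => hb0 (Or.inr ?_)⟩
    exact mem_iUnion₂.2 ⟨j, hj, hy⟩
  choose β C hβ1 hC hC0 hβ2 hβ3 using h1
  exact ⟨β, C, hβ1, hC, hC0, hβ2, hβ3⟩

variable {m : ℕ} {M : Type v} [MetricSpace M] [CompactSpace M] [ChartedSpace (V m) M]
  [IsManifold (𝓡 m) ∞ M]

/-- choice of the scale -/
theorem exists_kappa {K : ℕ} (D : Fin K → Aff m) {Λ : ℝ} (hΛ : 1 ≤ Λ) {κ₁ : ℝ} (hκ₁ : 0 < κ₁) :
    ∃ κ : ℝ, 0 < κ ∧ 256 * Λ ^ 4 * κ ≤ 1 ∧ (∀ i, ‖sp m (κ • D i)‖ < κ₁) ∧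
      ∀ w : Aff m, ‖w‖ ≤ 16 * Λ ^ 2 * κ → ‖sp m w‖ < κ₁ := by
  set C : ℝ := ‖((affE m).symm : Aff m →L[ℝ] V (m + m * m))‖ + 1 with hC
  have hC1 : 1 ≤ C := by
    have := norm_nonneg ((affE m).symm : Aff m →L[ℝ] V (m + m * m))
    linarith
  have hsp : ∀ w : Aff m, ‖sp m w‖ ≤ C * ‖w‖ := by
    intro w
    have h1 := ((affE m).symm : Aff m →L[ℝ] V (m + m * m)).le_opNorm w
    refine h1.trans ?_
    gcongr
    linarith
  set B : ℝ := ∑ i, ‖D i‖ + 16 * Λ ^ 2 with hB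
  have hB0 : 0 ≤ ∑ i, ‖D i‖ := Finset.sum_nonneg fun i _ => norm_nonneg _
  have hBp : 0 < B := by positivity
  have hDB : ∀ i, ‖D i‖ ≤ B := fun i => by
    have := Finset.single_le_sum (f := fun i => ‖D i‖) (fun i _ => norm_nonneg _) (Finset.mem_univ i)
    have h2 : 0 ≤ 16 * Λ ^ 2 := by positivity
    linarith
  set κ : ℝ := min (1 / (256 * Λ ^ 4)) (κ₁ / (2 * C * B)) with hκ
  have hκ0 : 0 < κ := lt_min (by positivity) (by positivity)
  have h1 : κ ≤ 1 / (256 * Λ ^ 4) := min_le_left _ _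
  have h2 : κ ≤ κ₁ / (2 * C * B) := min_le_right _ _
  have h3 : C * (κ * B) < κ₁ := by
    have h4 : C * (κ * B) ≤ C * (κ₁ / (2 * C * B) * B) := by gcongr
    have h5 : C * (κ₁ / (2 * C * B) * B) = κ₁ / 2 := by field_simp
    linarith
  refine ⟨κ, hκ0, ?_, fun i => ?_, fun w hw => ?_⟩
  · rw [le_div_iff₀ (by positivity)] at h1
    linarith
  · refine (hsp _).trans_lt ?_
    rw [norm_smul, Real.norm_of_nonneg hκ0.le]
    refine lt_of_le_of_lt ?_ h3
    gcongr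
    exact hDB i
  · refine (hsp _).trans_lt (lt_of_le_of_lt ?_ h3)
    have : ‖w‖ ≤ κ * B := by
      refine hw.trans ?_
      have : 0 ≤ κ * ∑ i, ‖D i‖ := by positivity
      rw [hB]
      linarith
    gcongr

/-- all periodic points of all maps near `F` are hyperbolic -/
def CStar (n : ℕ) (N : Type u) [TopologicalSpace N] [ChartedSpace (V n) N] (r : ℕ∞)
    (F : DiffM n N r) : Prop :=
  ∃ U : Set (DiffM n N r), IsOpen[strongTop n N r] U ∧ F ∈ U ∧ ∀ g ∈ U, ∀ p ∈ Per g, HypAt n g p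

theorem cstar_of_stable {n : ℕ} {N : Type u} [TopologicalSpace N]
    [T2Space N] [CompactSpace N] [ChartedSpace (V n) N] [IsManifold (𝓡 n) ∞ N] {r : ℕ∞}
    (hr : 1 ≤ r) {F : DiffM n N r} (h : OmegaStable n N r F) : CStar n N r F := by
  obtain ⟨U, hU, hFU, -, hhyp⟩ := stable_hyp Plug.hF2 hr h
  exact ⟨U, hU, hFU, hhyp⟩

/-- **The chain star condition.** -/
theorem chain_star (A : FAtlas m M) {r : ℕ∞} (hr : 2 ≤ r) (f : DiffM m M r) :
    ∃ S : ℕ, ∀ (k n : ℕ) (Y : Type w) [TopologicalSpace Y] [T2Space Y] [SigmaCompactSpace Y]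
      [ChartedSpace (V k) Y] [IsManifold (𝓡 k) ∞ Y] (h : Y → Y) (K : Set Y) (N : Type u)
      [TopologicalSpace N] [T2Space N] [CompactSpace N] [ChartedSpace (V n) N]
      [IsManifold (𝓡 n) ∞ N] (E : Emb m k n M Y N) (F : DiffM n N r), Rich S h K →
      (∀ x, ∀ y ∈ K, F (E.Θ (x, y)) = E.Θ (f x, h y)) → CStar n N r F →
      ∃ ε : ℝ, 0 < ε ∧ ∀ (l : ℕ) (x : ℕ → M) (L : ℕ → V m →L[ℝ] V m), x (l + 1) = x 0 →
        (∀ i, i ≤ l → dist (f (x i)) (x (i + 1)) < ε) →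
        (∀ i, i ≤ l → ‖L i - Dm A f (x i) (x (i + 1))‖ < ε) → NoOne (lpr L (l + 1)) := by
  obtain ⟨Λ, hΛ, hub⟩ := exists_ub A hr f
  obtain ⟨F, F', κF, hκF, hF, hlin⟩ := aff_family m
  obtain ⟨K, D, hD⟩ := exists_digits m (8 * Λ ^ 2)
  let e : Fin A.J × Option (Fin K) ≃ Fin (Fintype.card (Fin A.J × Option (Fin K))) :=
    Fintype.equivFin _
  refine ⟨Fintype.card (Fin A.J × Option (Fin K)), ?_⟩
  intro k n Y _ _ _ _ _ h KY N _ _ _ _ _ E G hrich hG hst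
  obtain ⟨W, hWc, hWd, hW⟩ := hrich
  obtain ⟨β, C, hβ, hC, hC0, hβ1, hβ0⟩ := exists_beta (k := k) hWc hWd
  have hr1 : (1 : ℕ∞) ≤ r := le_trans (by norm_num) hr
  obtain ⟨U, hU, hGU, hhyp⟩ := hst
  by_cases hMe : IsEmpty M
  · exact ⟨1, one_pos, fun l x => (hMe.false (x 0)).elim⟩
  rw [not_isEmpty_iff] at hMe
  by_cases hYe : IsEmpty Y
  · refine ⟨1, one_pos, fun l x L _ _ _ => ?_⟩
    exfalso
    obtain ⟨y, -⟩ := hW 1 (fun _ => e (A.jx (x 0), none)) le_rfl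
    exact hYe.false y
  rw [not_isEmpty_iff] at hYe
  obtain ⟨κ₀, hκ₀, hfam⟩ := exists_family' (S := Fintype.card (Fin A.J × Option (Fin K))) E
    (χ := fun s => A.χ (e.symm s).1) (z := fun s => A.z (e.symm s).1)
    (fun s => A.good _) hF hβ hC hC0 hr1 G hG U hU hGU (E.Θ (hMe.some, hYe.some))
  obtain ⟨κ, hκ, hκΛ, hκD, hκw⟩ := exists_kappa D hΛ (lt_min hκF hκ₀)
  obtain ⟨ε, hε, hclose⟩ := exists_close A hκ
  refine ⟨min ε κ, lt_min hε hκ, ?_⟩
  intro l x L hx0 hx hL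
  have hx' : ∀ i, i ≤ l → f (x i) ∈ (A.χ (A.jx (x (i + 1)))).source ∧
      ‖A.χ (A.jx (x (i + 1))) (f (x i)) - A.χ (A.jx (x (i + 1))) (x (i + 1))‖ ≤ κ := by
    intro i hi
    have := hclose (A.jx (x (i + 1))) (f (x i)) (x (i + 1)) ((hx i hi).trans_le (min_le_left _ _))
      (A.src _) (A.core _).le
    exact ⟨this.1, this.2.le⟩
  obtain ⟨u, w, hw, hstt⟩ := control A hF hlin f hΛ hub hκ hκΛ hD
    (fun i => (hκD i).trans_le (min_le_left _ _))
    (fun w hw => (hκw w hw).trans_le (min_le_left _ _)) hx'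
    (fun i hi => ((hL i hi).trans_le (min_le_right _ _)).le)
  -- the parameters
  obtain ⟨p, hp⟩ : ∃ p : Par (Fintype.card (Fin A.J × Option (Fin K))) (m + m * m),
      ∀ s, p s = (match (e.symm s).2 with
        | some i => sp m (κ • D i)
        | none => sp m w) := ⟨_, fun s => rfl⟩
  have hpn : ‖p‖ < κ₀ := by
    rw [pi_norm_lt_iff hκ₀]
    intro s
    rw [hp]
    rcases (e.symm s).2 with _ | i
    · exact (hκw w hw).trans_le (min_le_right _ _)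
    · exact (hκD i).trans_le (min_le_right _ _)
  obtain ⟨g, hgU, hg⟩ := hfam p hpn
  -- the symbols
  set q : ℕ → V (m + m * m) := fun i => if i = l + 1 then sp m w else sp m (κ • D (u i)) with hq
  obtain ⟨sym, hsym⟩ : ∃ sym : ℕ → Fin (Fintype.card (Fin A.J × Option (Fin K))),
      ∀ i, sym i = e (A.jx (x i), if i = l + 1 then none else some (u i)) := ⟨_, fun i => rfl⟩
  have hps : ∀ i, p (sym i) = q i := by
    intro i
    rw [hp, hsym, Equiv.symm_apply_apply, hq]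
    by_cases hi : i = l + 1
    · simp [hi]
    · simp [hi]
  have hχs : ∀ i, A.χ (e.symm (sym i)).1 = A.χ (A.jx (x i)) := by
    intro i
    rw [hsym, Equiv.symm_apply_apply]
  obtain ⟨y, hy, hyw⟩ := hW (l + 1) (fun i => if i = 0 then sym (l + 1) else sym i) (Nat.succ_pos l)
  have hyw' : ∀ i, 1 ≤ i → i ≤ l + 1 → h^[i] y ∈ W (sym i) := by
    intro i h1 h2
    rcases Nat.lt_or_ge i (l + 1) with h3 | h3
    · have := (hyw i h3).2
      rwa [if_neg (by omega)] at this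
    · have h4 : i = l + 1 := by omega
      rw [h4, hy]
      have := (hyw 0 (Nat.succ_pos l)).2
      rwa [if_pos rfl] at this
  -- the iterates
  have hit : ∀ i, i ≤ l + 1 → ∀ a, g^[i] (E.Θ (a, y)) = E.Θ (cmp A F f x q i a, h^[i] y) := by
    intro i
    induction i with
    | zero => intro _ a; rfl
    | succ i ih =>
      intro hi a
      rw [Function.iterate_succ_apply', ih (by omega), Function.iterate_succ_apply']
      have h5 : h (h^[i] y) ∈ W (sym (i + 1)) := by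
        have := hyw' (i + 1) (Nat.succ_pos i) hi
        rwa [Function.iterate_succ_apply'] at this
      rw [hg _ _ (sym (i + 1)) (hyw i (by omega)).1 (hβ1 _ _ h5) (fun i' hi' => hβ0 _ _ hi' _ h5),
        hps]
      show E.Θ (tr (A.χ (e.symm (sym (i + 1))).1) F (q (i + 1)) (f (cmp A F f x q i a)), _) = _
      rw [hχs]
      rfl
  obtain ⟨k1, k2⟩ := hstt.exact
  have hret : ∀ a, g^[l + 1] (E.Θ (a, y)) = E.Θ (cmp A F f x q (l + 1) a, y) := by
    intro a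
    rw [hit (l + 1) le_rfl, hy]
  have hcx : cmp A F f x q (l + 1) (x 0) = x 0 := by rw [k1, hx0]
  rw [hx0] at k2
  refine slice_noOne E hr1 g (Nat.succ_pos l) hret (A.good (A.jx (x 0))).mem (A.src (x 0))
    hstt.cont.continuousAt hcx k2 (hhyp g hgU _ ?_)
  refine ⟨l + 1, Nat.succ_pos l, ?_⟩
  rw [hret, hcx]

end Pool.Agent.H245.SH
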