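import Pool.Agent.H245.SH.A8
import Pool.Agent.H245.SH.B6
import Pool.Graph.R_seed8.H728R2.OS.S.NOCYC

/-!
# Closing: short chains back, and the cocycle over the chain recurrent set
-/

set_option autoImplicit false
set_option linter.unusedSectionVars false

open scoped Manifold ContDiff Topology NNReal
open Filter Set Metric

universe u v w

namespace Pool.Agent.H245.SH

open Pool.Agent.H718R2.G Pool.Agent.W564.SC Pool.Agent.H728R2.OS

section chains

variable {X : Type v} [MetricSpace X]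

/-- replacing the end points of a chain -/
theorem chain_repl {f : X → X} {η δ θ : ℝ} (hη : 0 < η)
    (huc : ∀ a b : X, dist a b < δ → dist (f a) (f b) < η) {n : ℕ} (hn : 0 < n) {c : ℕ → X}
    (hc : ∀ i < n, dist (f (c i)) (c (i + 1)) < θ) {a b : X} (ha : dist a (c 0) < δ)
    (hb : dist (c n) b < η) : ∃ c' : ℕ → X, c' 0 = a ∧ c' n = b ∧
      ∀ i < n, dist (f (c' i)) (c' (i + 1)) < θ + 2 * η := by
  refine ⟨fun i => if i = 0 then a else if i = n then b else c i, by simp, ?_, ?_⟩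
  · show (if n = 0 then a else if n = n then b else c n) = b
    rw [if_neg (by omega), if_pos rfl]
  · intro i hi
    simp only
    rw [if_neg (show ¬ i + 1 = 0 by omega)]
    have h1 : dist (f (if i = 0 then a else if i = n then b else c i)) (f (c i)) < η := by
      by_cases h0 : i = 0
      · rw [if_pos h0, h0]
        exact huc _ _ ha
      · rw [if_neg h0, if_neg (by omega), dist_self]
        exact hη
    have h2 : dist (c (i + 1)) (if i + 1 = n then b else c (i + 1)) < η := by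
      by_cases h0 : i + 1 = n
      · rw [if_pos h0, h0]
        exact hb
      · rw [if_neg h0, dist_self]
        exact hη
    have h3 := dist_triangle4 (f (if i = 0 then a else if i = n then b else c i)) (f (c i))
      (c (i + 1)) (if i + 1 = n then b else c (i + 1))
    have h4 := hc i hi
    linarith

/-- the lengths of chains of fixed precision are bounded -/
theorem bounded_chains [CompactSpace X] (f : X ≃ₜ X) {ε : ℝ} (hε : 0 < ε) : ∃ T : ℕ, ∀ a b : X,
    NC.R f a b → ∃ (n : ℕ) (c : ℕ → X), 0 < n ∧ n ≤ T ∧ c 0 = a ∧ c n = b ∧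
      ∀ i < n, dist (f (c i)) (c (i + 1)) < ε := by
  have hη : 0 < ε / 5 := by positivity
  obtain ⟨δ, hδ, huc⟩ := NC.ucont f hη
  have hδ' : 0 < min δ (ε / 5) := lt_min hδ hη
  obtain ⟨t, ht, hcov⟩ := Metric.totallyBounded_iff.1 (isCompact_univ (X := X)).totallyBounded
    (min δ (ε / 5)) hδ'
  have := ht.to_subtype
  have hex : ∀ pq : t × t, ∃ N : ℕ, (∃ (n : ℕ) (c : ℕ → X), 0 < n ∧ c 0 = pq.1 ∧ c n = pq.2 ∧
      ∀ i < n, dist (f (c i)) (c (i + 1)) < 3 * (ε / 5)) → ∃ (n : ℕ) (c : ℕ → X), 0 < n ∧ n ≤ N ∧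
      c 0 = pq.1 ∧ c n = pq.2 ∧ ∀ i < n, dist (f (c i)) (c (i + 1)) < 3 * (ε / 5) := by
    intro pq
    by_cases h : ∃ (n : ℕ) (c : ℕ → X), 0 < n ∧ c 0 = pq.1 ∧ c n = pq.2 ∧
      ∀ i < n, dist (f (c i)) (c (i + 1)) < 3 * (ε / 5)
    · obtain ⟨n, c, h1, h2, h3, h4⟩ := h
      exact ⟨n, fun _ => ⟨n, c, h1, le_rfl, h2, h3, h4⟩⟩
    · exact ⟨0, fun h' => absurd h' h⟩
  choose N hN using hex
  obtain ⟨T, hT⟩ := Finite.exists_le N
  refine ⟨T, fun a b hab => ?_⟩
  obtain ⟨p, hp, hap⟩ := mem_iUnion₂.1 (hcov (mem_univ a))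
  obtain ⟨q, hq, hbq⟩ := mem_iUnion₂.1 (hcov (mem_univ b))
  rw [mem_ball] at hap hbq
  obtain ⟨n, c, hn, c0, cn, hc⟩ := hab (ε / 5) hη
  obtain ⟨c', c0', cn', hc'⟩ := chain_repl hη huc hn hc (a := p) (b := q)
    (by rw [c0, dist_comm]; exact hap.trans_le (min_le_left _ _))
    (by rw [cn]; exact hbq.trans_le (min_le_right _ _))
  obtain ⟨n₂, c₂, hn₂, hle, c0₂, cn₂, hc₂⟩ := hN (⟨p, hp⟩, ⟨q, hq⟩)
    ⟨n, c', hn, c0', cn', fun i hi => by
      have := hc' i hi
      linarith⟩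
  obtain ⟨c₃, c0₃, cn₃, hc₃⟩ := chain_repl hη huc hn₂ hc₂ (a := a) (b := b)
    (by rw [c0₂]; exact hap.trans_le (min_le_left _ _))
    (by rw [cn₂, dist_comm]; exact hbq.trans_le (min_le_right _ _))
  exact ⟨n₂, c₃, hn₂, hle.trans (hT _), c0₃, cn₃, fun i hi => by
    have := hc₃ i hi
    linarith⟩

variable [CompactSpace X] (f : X ≃ₜ X)

theorem chainRec_closed : IsClosed (ChainRec f) := by
  apply isClosed_of_closure_subset
  intro x hx
  obtain ⟨p, hp, hpx⟩ := mem_closure_iff_seq_limit.1 hx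
  exact NC.R_closed (p := p) (q := p) hp hpx hpx

theorem chainRec_fwd {x : X} (hx : x ∈ ChainRec f) : f x ∈ ChainRec f :=
  (NC.R_fwd_self (n := 1) hx).1

theorem chainRec_bwd {x : X} (hx : x ∈ ChainRec f) : f.symm x ∈ ChainRec f :=
  (NC.R_bwd_self (n := 1) hx).1

theorem chainRec_image : f '' ChainRec f = ChainRec f := by
  apply Subset.antisymm
  · rintro _ ⟨x, hx, rfl⟩
    exact chainRec_fwd f hx
  · intro x hx
    exact ⟨f.symm x, chainRec_bwd f hx, f.apply_symm_apply x⟩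

/-- the restriction of `f` to the chain recurrent set -/
def fCR : ChainRec f ≃ ChainRec f where
  toFun x := ⟨f x, chainRec_fwd f x.2⟩
  invFun x := ⟨f.symm x, chainRec_bwd f x.2⟩
  left_inv x := Subtype.ext (f.symm_apply_apply x.1)
  right_inv x := Subtype.ext (f.apply_symm_apply x.1)

theorem fCR_coe (x : ChainRec f) : (fCR f x : X) = f x := rfl

theorem fCR_iter (x : ChainRec f) (n : ℕ) : (((fCR f)^[n] x : ChainRec f) : X) = f^[n] x := by
  induction n with
  | zero => rfl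
  | succ n ih => rw [Function.iterate_succ_apply', fCR_coe, ih, Function.iterate_succ_apply']

end chains

section lin

variable {m : ℕ}

/-- an expanding-from-below map as an equivalence -/
noncomputable def mkE {Λ : ℝ} (T : V m →L[ℝ] V m) (h : ∀ u, ‖u‖ ≤ Λ * ‖T u‖) : V m ≃L[ℝ] V m :=
  (LinearEquiv.ofInjectiveEndo (T : V m →ₗ[ℝ] V m) (by
    rw [← LinearMap.ker_eq_bot, LinearMap.ker_eq_bot']
    intro u hu
    have hu' : T u = 0 := hu
    have := h u
    rw [hu', norm_zero, mul_zero] at this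
    exact norm_le_zero_iff.1 this)).toContinuousLinearEquiv

theorem mkE_apply {Λ : ℝ} (T : V m →L[ℝ] V m) (h : ∀ u, ‖u‖ ≤ Λ * ‖T u‖) (v : V m) :
    mkE T h v = T v := rfl

theorem mkE_symm {Λ : ℝ} (T : V m →L[ℝ] V m) (h : ∀ u, ‖u‖ ≤ Λ * ‖T u‖) (v : V m) :
    ‖(mkE T h).symm v‖ ≤ Λ * ‖v‖ := by
  have := h ((mkE T h).symm v)
  rwa [← mkE_apply T h, ContinuousLinearEquiv.apply_symm_apply] at this

theorem lpr_congr {L L' : ℕ → V m →L[ℝ] V m} {n : ℕ} (h : ∀ i < n, L i = L' i) :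
    lpr L n = lpr L' n := by
  induction n with
  | zero => rfl
  | succ n ih =>
    show L n ∘L lpr L n = L' n ∘L lpr L' n
    rw [ih fun i hi => h i (by omega), h n (by omega)]

theorem lpr_add (L : ℕ → V m →L[ℝ] V m) (n j : ℕ) :
    lpr L (n + j) = lpr (fun i => L (n + i)) j ∘L lpr L n := by
  induction j with
  | zero => rfl
  | succ j ih =>
    show L (n + j) ∘L lpr L (n + j) = (L (n + j) ∘L lpr (fun i => L (n + i)) j) ∘L lpr L n
    rw [ih]
    rfl

theorem lpr_equiv {L : ℕ → V m →L[ℝ] V m} {Λ : ℝ} (hΛ : 1 ≤ Λ) {j : ℕ}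
    (h1 : ∀ i < j, ‖L i‖ ≤ Λ) (h2 : ∀ i < j, ∀ u, ‖u‖ ≤ Λ * ‖L i u‖) :
    ∃ D : V m ≃L[ℝ] V m, (∀ v, D v = lpr L j v) ∧ (∀ v, ‖D v‖ ≤ Λ ^ j * ‖v‖) ∧
      ∀ v, ‖D.symm v‖ ≤ Λ ^ j * ‖v‖ := by
  induction j with
  | zero => exact ⟨ContinuousLinearEquiv.refl ℝ _, fun v => rfl, by simp, by simp⟩
  | succ j ih =>
    obtain ⟨D, hD, hD1, hD2⟩ := ih (fun i hi => h1 i (by omega)) (fun i hi => h2 i (by omega))
    refine ⟨D.trans (mkE (L j) (h2 j (by omega))), fun v => ?_, fun v => ?_, fun v => ?_⟩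
    · show L j (D v) = L j (lpr L j v)
      rw [hD]
    · show ‖L j (D v)‖ ≤ _
      calc ‖L j (D v)‖ ≤ ‖L j‖ * ‖D v‖ := (L j).le_opNorm _
        _ ≤ Λ * (Λ ^ j * ‖v‖) := by
          gcongr
          · exact h1 j (by omega)
          · exact hD1 v
        _ = _ := by rw [pow_succ]; ring
    · show ‖D.symm ((mkE (L j) (h2 j (by omega))).symm v)‖ ≤ _
      calc _ ≤ Λ ^ j * ‖(mkE (L j) (h2 j (by omega))).symm v‖ := hD2 _
        _ ≤ Λ ^ j * (Λ * ‖v‖) := by
          gcongr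
          exact mkE_symm _ _ _
        _ = _ := by rw [pow_succ]; ring

end lin

section cocycle

variable {m : ℕ} {M : Type v} [MetricSpace M] [CompactSpace M] [ChartedSpace (V m) M]
  [IsManifold (𝓡 m) ∞ M] {r : ℕ∞}

/-- the bounds of the transition derivatives -/
theorem Dm_bounds (A : FAtlas m M) (hr : 2 ≤ r) (f : DiffM m M r) : ∃ (Λ ε : ℝ), 1 ≤ Λ ∧ 0 < ε ∧
    ∀ x y : M, dist (f x) y < ε → ‖Dm A f x y‖ ≤ Λ ∧ ∀ u, ‖u‖ ≤ Λ * ‖Dm A f x y u‖ := by
  obtain ⟨Λ, hΛ, hub⟩ := exists_ub A hr f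
  obtain ⟨ε, hε, hclose⟩ := exists_close A (κ := 1 / 16) (by norm_num)
  refine ⟨Λ, ε, hΛ, hε, fun x y hxy => ?_⟩
  obtain ⟨h1, h2⟩ := hclose (A.jx y) (f x) y hxy (A.src y) (A.core y).le
  have h3 : ‖A.χ (A.jx y) (f x)‖ ≤ 1 / 8 := by
    have h4 := (A.core y).le
    have h5 : A.χ (A.jx y) (f x) = (A.χ (A.jx y) (f x) - A.χ (A.jx y) y) + A.χ (A.jx y) y := by abel
    rw [h5]
    refine (norm_add_le _ _).trans ?_
    linarith
  have h4 := hub (A.jx x) (A.jx y) x (A.src x) (A.core x).le h1 h3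
  exact ⟨h4.bd, h4.low⟩

/-- the star condition along chains -/
def Star (A : FAtlas m M) (f : M → M) (ε : ℝ) : Prop :=
  ∀ (l : ℕ) (x : ℕ → M) (L : ℕ → V m →L[ℝ] V m), x (l + 1) = x 0 →
    (∀ i, i ≤ l → dist (f (x i)) (x (i + 1)) < ε) →
    (∀ i, i ≤ l → ‖L i - Dm A f (x i) (x (i + 1))‖ < ε) → NoOne (lpr L (l + 1))

/-- **The cocycle over the chain recurrent set.** -/
theorem exists_coc (A : FAtlas m M) (hr : 2 ≤ r) (f : DiffM m M r) {ε : ℝ} (hε : 0 < ε)
    (hstar : Star A f ε) : ∃ c : Coc (ChainRec f.toHomeomorph) (V m),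
      (∀ x, c.f x = fCR f.toHomeomorph x) ∧ (∀ x v, c.A x v = Dm A f x (f x) v) ∧
      ∃ δ C₀ : ℝ, 0 < δ ∧ δ ≤ 1 ∧ c.Hyp δ C₀ := by
  obtain ⟨Λ, ε₁, hΛ, hε₁, hDm⟩ := Dm_bounds A hr f
  have hDm0 : ∀ x : M, ‖Dm A f x (f x)‖ ≤ Λ ∧ ∀ u, ‖u‖ ≤ Λ * ‖Dm A f x (f x) u‖ :=
    fun x => hDm x (f x) (by rw [dist_self]; exact hε₁)
  let c : Coc (ChainRec f.toHomeomorph) (V m) :=
    { f := fCR f.toHomeomorph
      A := fun x => mkE (Dm A f x (f x)) (hDm0 x).2
      Λ := Λ
      one_le := hΛ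
      bd := fun x v => ((Dm A f x (f x)).le_opNorm v).trans (by gcongr; exact (hDm0 x).1)
      bd' := fun x v => mkE_symm _ _ _ }
  obtain ⟨T, hT⟩ := bounded_chains f.toHomeomorph (lt_min hε hε₁)
  refine ⟨c, fun x => rfl, fun x v => rfl, min 1 (ε / (2 * Λ)), Λ ^ T, by positivity,
    min_le_left _ _, ?_⟩
  have hδΛ : min 1 (ε / (2 * Λ)) * Λ < ε := by
    calc min 1 (ε / (2 * Λ)) * Λ ≤ (ε / (2 * Λ)) * Λ := by
          gcongr
          exact min_le_right _ _
      _ = ε / 2 := by field_simp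
      _ < ε := by linarith
  intro x n hn
  have hR : NC.R f.toHomeomorph (f.toHomeomorph^[n] x) x := (NC.R_fwd_self (n := n) x.2).2.1
  obtain ⟨l, d, hl, hlT, d0, dl, hd⟩ := hT _ _ hR
  obtain ⟨D, hD, hD1, hD2⟩ := lpr_equiv (L := fun i => Dm A f (d i) (d (i + 1))) hΛ (j := l)
    (fun i hi => (hDm _ _ ((hd i hi).trans_le (min_le_right _ _))).1)
    (fun i hi => (hDm _ _ ((hd i hi).trans_le (min_le_right _ _))).2)
  refine ⟨D, fun v => (hD1 v).trans (by gcongr), fun v => (hD2 v).trans (by gcongr), ?_⟩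
  intro R hRn Q hQ
  -- the linear maps
  set z : ℕ → M := fun i => if i < n then f.toHomeomorph^[i] x else d (i - n) with hz
  have hfit : ∀ i : ℕ, f (f.toHomeomorph^[i] x.1) = f.toHomeomorph^[i + 1] x.1 := fun i =>
    (Function.iterate_succ_apply' f.toHomeomorph i x.1).symm
  have hz1 : ∀ i, i < n → z i = f.toHomeomorph^[i] x.1 := fun i hi => if_pos hi
  have hz2 : ∀ i, z (n + i) = d i := fun i => by
    rw [hz]
    simp
  have hz3 : ∀ i, i < n → z (i + 1) = f (z i) := by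
    intro i hi
    rw [hz1 i hi, hfit]
    rcases Nat.lt_or_ge (i + 1) n with h | h
    · exact hz1 _ h
    · have h' : i + 1 = n + 0 := by omega
      rw [h', hz2, d0, add_zero]
  set L : ℕ → V m →L[ℝ] V m := fun i =>
    if i < n then (R i : V m →L[ℝ] V m) ∘L Dm A f (z i) (z (i + 1))
    else if i = n + l - 1 then (Q : V m →L[ℝ] V m) ∘L Dm A f (z i) (z (i + 1))
    else Dm A f (z i) (z (i + 1)) with hL
  have hzc : ∀ i, i ≤ n + l - 1 → dist (f (z i)) (z (i + 1)) < min ε ε₁ := by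
    intro i hi
    rcases Nat.lt_or_ge i n with h | h
    · rw [hz3 i h, dist_self]
      exact lt_min hε hε₁
    · obtain ⟨j, rfl⟩ := Nat.exists_eq_add_of_le h
      rw [add_assoc, hz2, hz2]
      exact hd j (by omega)
  have hnear : ∀ (S : V m ≃L[ℝ] V m), Near (min 1 (ε / (2 * Λ))) S → ∀ B : V m →L[ℝ] V m, ‖B‖ ≤ Λ →
      ‖(S : V m →L[ℝ] V m) ∘L B - B‖ < ε := by
    intro S hS B hB
    refine lt_of_le_of_lt (ContinuousLinearMap.opNorm_le_bound _ (by positivity) fun v => ?_) hδΛ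
    show ‖S (B v) - B v‖ ≤ _
    calc ‖S (B v) - B v‖ ≤ min 1 (ε / (2 * Λ)) * ‖B v‖ := hS.1 _
      _ ≤ min 1 (ε / (2 * Λ)) * (Λ * ‖v‖) := by
        gcongr
        exact (B.le_opNorm v).trans (by gcongr)
      _ = _ := by ring
  have hLn : ∀ i, i ≤ n + l - 1 → ‖L i - Dm A f (z i) (z (i + 1))‖ < ε := by
    intro i hi
    have hb := (hDm _ _ ((hzc i hi).trans_le (min_le_right _ _))).1
    rw [hL]
    simp only
    by_cases h1 : i < n
    · rw [if_pos h1]
      exact hnear _ (hRn i) _ hb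
    · rw [if_neg h1]
      by_cases h2 : i = n + l - 1
      · rw [if_pos h2]
        exact hnear _ hQ _ hb
      · rw [if_neg h2, sub_self, norm_zero]
        exact hε
  have key := hstar (n + l - 1) z L (by
      rw [show n + l - 1 + 1 = n + l by omega, hz2, dl, hz1 0 (by omega)]
      rfl) (fun i hi => (hzc i hi).trans_le (min_le_left _ _)) hLn
  rw [show n + l - 1 + 1 = n + l by omega] at key
  have e1 : ∀ j, j ≤ n → ∀ v, lpr L j v = c.word x R j v := by
    intro j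
    induction j with
    | zero => intro _ v; rfl
    | succ j ih =>
      intro hj v
      rw [c.word_succ, ← ih (by omega)]
      show L j (lpr L j v) = R j (Dm A f (c.f^[j] x) (f (c.f^[j] x)) (lpr L j v))
      rw [hL]
      simp only
      rw [if_pos (show j < n by omega), hz3 j (by omega), hz1 j (by omega)]
      have e2 : ((c.f^[j] x : ChainRec f.toHomeomorph) : M) = f.toHomeomorph^[j] x.1 :=
        fCR_iter f.toHomeomorph x j
      rw [e2]
      rfl
  have e2 : lpr L (n + l) = ((((c.word x R n).trans (D.trans Q)) : V m ≃L[ℝ] V m) :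
      V m →L[ℝ] V m) := by
    ext1 v
    rw [lpr_add]
    show lpr (fun i => L (n + i)) l (lpr L n v) = Q (D (c.word x R n v))
    rw [e1 n le_rfl, hD]
    obtain ⟨l', rfl⟩ : ∃ l', l = l' + 1 := ⟨l - 1, by omega⟩
    have e3 : lpr (fun i => L (n + i)) l' = lpr (fun i => Dm A f (d i) (d (i + 1))) l' := by
      apply lpr_congr
      intro i hi
      simp only [hL]
      rw [if_neg (by omega), if_neg (by omega), add_assoc, hz2, hz2]
    show L (n + l') (lpr (fun i => L (n + i)) l' _) = Q (Dm A f (d l') (d (l' + 1)) (lpr _ l' _))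
    rw [e3]
    simp only [hL]
    rw [if_neg (by omega), if_pos (by omega), add_assoc, hz2, hz2]
    rfl
  rw [← e2]
  exact key

end cocycle

end Pool.Agent.H245.SH
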