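import Pool.Agent.H245.SH.B5

/-!
# High powers of chain mixing maps with periodic shadowing are rich
-/

set_option autoImplicit false

open Filter Set Metric

universe w

namespace Pool.Agent.H245.SH

open Pool.Agent.W564.SC

theorem rich_pow {Y : Type w} [MetricSpace Y] [CompactSpace Y] [Infinite Y] {h : Y → Y}
    (hsh : PerShadow h) (hmix : ChainMix h) (S : ℕ) :
    ∃ q₀ : ℕ, ∀ q, q₀ ≤ q → Rich S (h^[q]) univ := by
  classical
  obtain ⟨z, hz⟩ : ∃ z : Fin S → Y, Function.Injective z :=
    ⟨fun i => Infinite.natEmbedding Y i, fun i j hij =>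
      Fin.ext ((Infinite.natEmbedding Y).injective hij)⟩
  -- the radius
  obtain ⟨ρ, hρ, hzρ⟩ : ∃ ρ : ℝ, 0 < ρ ∧ ∀ i j, i ≠ j → 2 * ρ < dist (z i) (z j) := by
    have h1 : ∀ p : Fin S × Fin S, ∃ b : ℝ, 0 < b ∧ (p.1 ≠ p.2 → b⁻¹ < dist (z p.1) (z p.2)) := by
      intro p
      by_cases hp : p.1 = p.2
      · exact ⟨1, one_pos, fun h => absurd hp h⟩
      · have h2 : 0 < dist (z p.1) (z p.2) := dist_pos.2 fun h => hp (hz h)
        refine ⟨2 / dist (z p.1) (z p.2), by positivity, fun _ => ?_⟩
        rw [inv_div]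
        linarith
    choose b hb hb' using h1
    obtain ⟨B, hB⟩ := Finite.exists_le b
    have hB1 : 0 < max B 1 := lt_max_of_lt_right one_pos
    refine ⟨(max B 1)⁻¹ / 4, by positivity, fun i j hij => ?_⟩
    have h2 := hb' (i, j) hij
    have h3 : (max B 1)⁻¹ ≤ (b (i, j))⁻¹ := inv_anti₀ (hb _) ((hB _).trans (le_max_left _ _))
    have h4 : 0 < (max B 1)⁻¹ := by positivity
    linarith
  obtain ⟨δ, hδ, hsh'⟩ := hsh ρ hρ
  obtain ⟨L, hL⟩ := hmix δ hδ
  refine ⟨max L 1, fun q hq => ?_⟩
  have hqL : L ≤ q := (le_max_left _ _).trans hq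
  have hq1 : 1 ≤ q := (le_max_right _ _).trans hq
  choose W W0 Wq hW using fun p p' : Y => hL q hqL p p'
  refine ⟨fun i => closedBall (z i) ρ, fun i => isClosed_closedBall.isCompact, fun i j hij => ?_,
    fun n c hn => ?_⟩
  · apply closedBall_disjoint_closedBall
    have := hzρ i j hij
    linarith
  · set c' : ℕ → Fin S := fun i => c (i % n) with hc'
    set w : ℕ → Y := fun t => W (z (c' (t / q))) (z (c' (t / q + 1))) (t % q) with hw
    have hwq : ∀ i, w (q * i) = z (c' i) := by
      intro i
      rw [hw]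
      simp only
      rw [Nat.mul_mod_right, Nat.mul_div_cancel_left i hq1, W0]
    have hstep : ∀ t, dist (h (w t)) (w (t + 1)) < δ := by
      intro t
      have hm : t % q < q := Nat.mod_lt _ hq1
      have h1 := hW (z (c' (t / q))) (z (c' (t / q + 1))) (t % q) hm
      have e0 : t = q * (t / q) + t % q := (Nat.div_add_mod t q).symm
      rcases Nat.lt_or_ge (t % q + 1) q with h2 | h2
      · have e5 : q * (t / q) = t / q * q := mul_comm _ _
        have e1 : (t + 1) / q = t / q := by
          rw [Nat.div_eq_iff hq1]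
          constructor
          · omega
          · omega
        have e2 : (t + 1) % q = t % q + 1 := by
          have h3 := Nat.div_add_mod (t + 1) q
          rw [e1] at h3
          omega
        rw [hw]
        simp only
        rw [e1, e2]
        exact h1
      · have e3 : t % q + 1 = q := by omega
        have e4 : t + 1 = q * (t / q + 1) := by
          rw [mul_add, mul_one]
          omega
        rw [e3, Wq] at h1
        rw [e4, hwq]
        exact h1
    obtain ⟨p, hp, hp'⟩ := hsh' (q * n) w (Nat.one_le_iff_ne_zero.2 (by positivity)) (by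
      rw [hwq, show (0 : ℕ) = q * 0 by ring, hwq, hc']
      simp) (fun t _ => hstep t)
    refine ⟨p, ?_, fun i hi => ⟨mem_univ _, ?_⟩⟩
    · rw [← Function.iterate_mul]
      exact hp
    · rw [← Function.iterate_mul, mem_closedBall]
      have h1 := hp' (q * i) (by
        apply Nat.mul_lt_mul_of_pos_left hi hq1)
      rw [hwq, hc'] at h1
      simp only at h1
      rw [Nat.mod_eq_of_lt hi] at h1
      exact h1.le

end Pool.Agent.H245.SH
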