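import Pool.Agent.H245.SH.PH
import Pool.Agent.H245.SH.R1

/-!
# Products with a rich factor: final forms
-/

set_option autoImplicit false
set_option linter.unusedSectionVars false

open scoped Manifold ContDiff Topology NNReal
open Filter Set Metric

universe u v w

namespace Pool.Agent.H245.SH

open Pool.Agent.H718R2.G Pool.Agent.W564.SC Pool.Agent.TH80.OMS Pool.Agent.Y271.CP
  Pool.Agent.Y504.CO

theorem Rich.mono {Y : Type w} [TopologicalSpace Y] {S : ℕ} {h : Y → Y} {K : Set Y}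
    (hr : Rich (S + 1) h K) : Rich S h K := by
  obtain ⟨W, h1, h2, h3⟩ := hr
  refine ⟨fun i => W i.castSucc, fun i => h1 _, fun i j hij => h2 _ _ fun h =>
    hij (Fin.castSucc_injective S h), fun n c hn => ?_⟩
  exact h3 n (fun i => (c i).castSucc) hn

theorem Rich.nonempty {Y : Type w} [TopologicalSpace Y] {S : ℕ} {h : Y → Y} {K : Set Y}
    (hr : Rich (S + 1) h K) : Nonempty Y := by
  obtain ⟨W, h1, h2, h3⟩ := hr
  obtain ⟨y, -⟩ := h3 1 (fun _ => 0) le_rfl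
  exact ⟨y⟩

/-- the first factor -/
theorem t1' {m : ℕ} {M : Type v} [MetricSpace M] [CompactSpace M] [ChartedSpace (V m) M]
    [IsManifold (𝓡 m) ∞ M] {r : ℕ∞} (hr : 2 ≤ r) (f : DiffM m M r) :
    ∃ S : ℕ, ∀ (k n : ℕ) (Y : Type w) [TopologicalSpace Y] [T2Space Y] [SigmaCompactSpace Y]
      [ChartedSpace (V k) Y] [IsManifold (𝓡 k) ∞ Y] (h : Y → Y) (K : Set Y) (N : Type u)
      [TopologicalSpace N] [T2Space N] [CompactSpace N] [ChartedSpace (V n) N]
      [IsManifold (𝓡 n) ∞ N] (Θ : M × Y → N) (F : DiffM n N r),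
      IsLocalDiffeomorph ((𝓡 m).prod (𝓡 k)) (𝓡 n) ∞ Θ → Function.Injective Θ → Rich S h K →
      (∀ x, ∀ y ∈ K, F (Θ (x, y)) = Θ (f x, h y)) → CStar n N r F →
      Q263.HS.IsHyp (V m) f.toHomeomorph (Pool.Agent.H728R2.OS.ChainRec f.toHomeomorph) := by
  obtain ⟨S, hS⟩ := t1.{u, v, w} hr f
  refine ⟨S + 1, ?_⟩
  intro k n Y _ _ _ _ _ h K N _ _ _ _ _ Θ F hΘ hinj hrich hF hst
  by_cases hMe : IsEmpty M
  · obtain ⟨A⟩ := exists_fatlas m M
    exact hyp_of_star A hr f one_pos fun l x => (hMe.false (x 0)).elim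
  rw [not_isEmpty_iff] at hMe
  have hYe := hrich.nonempty
  obtain ⟨E, hE⟩ := exists_emb hΘ hinj
  exact hS k n Y h K N E F hrich.mono (by rw [hE]; exact hF) hst

theorem chainRec_proj {X : Type u} {Z : Type v} [MetricSpace X] [CompactSpace X] [MetricSpace Z]
    {F : X ≃ₜ X} {f : Z ≃ₜ Z} {p : X → Z} (hp : Continuous p) (hpF : ∀ x, p (F x) = f (p x)) {x : X}
    (hx : x ∈ Pool.Agent.H728R2.OS.ChainRec F) : p x ∈ Pool.Agent.H728R2.OS.ChainRec f := by
  intro ε hε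
  have hu := CompactSpace.uniformContinuous_of_continuous hp
  rw [Metric.uniformContinuous_iff] at hu
  obtain ⟨δ, hδ, h⟩ := hu ε hε
  obtain ⟨n, c, hn, c0, cn, hc⟩ := hx δ hδ
  refine ⟨n, fun i => p (c i), hn, congrArg p c0, congrArg p cn, fun i hi => ?_⟩
  rw [← hpF]
  exact h (hc i hi)

/-- the product -/
theorem t2 {m k n : ℕ} {M : Type v} [MetricSpace M] [CompactSpace M] [ChartedSpace (V m) M]
    [IsManifold (𝓡 m) ∞ M] {Y : Type w} [MetricSpace Y] [ChartedSpace (V k) Y]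
    [IsManifold (𝓡 k) ∞ Y] {N : Type u} [MetricSpace N] [CompactSpace N] [ChartedSpace (V n) N]
    [IsManifold (𝓡 n) ∞ N] {r : ℕ∞} (hr : 1 ≤ r) (f : DiffM m M r) (H : DiffM k Y r)
    (F : DiffM n N r) {Θ : M × Y → N} (hΘ : IsLocalDiffeomorph ((𝓡 m).prod (𝓡 k)) (𝓡 n) ∞ Θ)
    (hinj : Function.Injective Θ) (hsurj : Function.Surjective Θ)
    (hF : ∀ x y, F (Θ (x, y)) = Θ (f x, H y))
    (h1 : Q263.HS.IsHyp (V m) f.toHomeomorph (Pool.Agent.H728R2.OS.ChainRec f.toHomeomorph))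
    (h2 : Q263.HS.IsHyp (V k) H.toHomeomorph (Pool.Agent.H728R2.OS.ChainRec H.toHomeomorph)) :
    Q263.HS.AxiomA (V n) F.toHomeomorph ∧ Pool.Agent.H728R2.OS.NoCycle F.toHomeomorph ∧
    Pool.Agent.H728R2.OS.ChainRec F.toHomeomorph =
      Pool.Agent.H728R2.OS.Omega F.toHomeomorph := by
  have hr1 : ((1 : ℕ∞) : WithTop ℕ∞) ≤ ((r : ℕ∞) : WithTop ℕ∞) := by exact_mod_cast hr
  have hf1 : ContMDiff 𝓘(ℝ, V m) 𝓘(ℝ, V m) 1 (f.toHomeomorph : M → M) := f.contMDiff.of_le hr1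
  have hf1' : ContMDiff 𝓘(ℝ, V m) 𝓘(ℝ, V m) 1 (f.toHomeomorph.symm : M → M) :=
    f.symm.contMDiff.of_le hr1
  have hH1 : ContMDiff 𝓘(ℝ, V k) 𝓘(ℝ, V k) 1 (H.toHomeomorph : Y → Y) := H.contMDiff.of_le hr1
  have hH1' : ContMDiff 𝓘(ℝ, V k) 𝓘(ℝ, V k) 1 (H.toHomeomorph.symm : Y → Y) :=
    H.symm.contMDiff.of_le hr1
  have hF1 : ContMDiff 𝓘(ℝ, V n) 𝓘(ℝ, V n) 1 (F.toHomeomorph : N → N) := F.contMDiff.of_le hr1
  have hF1' : ContMDiff 𝓘(ℝ, V n) 𝓘(ℝ, V n) 1 (F.toHomeomorph.symm : N → N) :=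
    F.symm.contMDiff.of_le hr1
  by_cases hN : IsEmpty N
  · -- the empty manifold
    have he : Pool.Agent.H728R2.OS.ChainRec F.toHomeomorph = ∅ :=
      Set.eq_empty_of_isEmpty _
    obtain ⟨A⟩ := exists_fatlas n N
    exact Q263.HS.chain_hyp Q263.HR.tr Pool.Agent.Q223.HS.fl Q263.HS.ang Pool.Agent.Q223.HS.cont
      Q263.HS.low Q263.HR.chain Q263.HS.crr F.toHomeomorph hF1 hF1' (Λ := ∅) (by
        obtain ⟨l, e, he, hemb, hinj⟩ :=
          exists_embedding_euclidean_of_compact (I := 𝓘(ℝ, V n)) (M := N)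
        have he1 : ContMDiff 𝓘(ℝ, V n) 𝓘(ℝ, V l) 1 e := he.of_le (by exact_mod_cast le_top)
        exact ⟨enm (V n) e, fun x => ⊤, fun x => ⊥, 1, 1 / 2, {
          norm := emb_norm e he1 hinj
          closed := isClosed_empty
          inv := image_empty _
          a_pos := by norm_num
          a_lt := by norm_num
          map_s := fun x hx => hx.elim
          map_u := fun x hx => hx.elim
          rate_s := fun _ x hx => hx.elim
          rate_u := fun _ x hx => hx.elim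
          compl := fun x hx => hx.elim
          cont_s := by
            unfold Q263.HS.ContOn
            simp
          cont_u := by
            unfold Q263.HS.ContOn
            simp }⟩) (by rw [he])
  rw [not_isEmpty_iff] at hN
  obtain ⟨z⟩ := hN
  obtain ⟨⟨x₀, y₀⟩, -⟩ := hsurj z
  have : Nonempty M := ⟨x₀⟩
  have : Nonempty Y := ⟨y₀⟩
  obtain ⟨E, hE⟩ := exists_emb hΘ hinj
  have hright : ∀ z, E.Θ (E.Ψ z) = z := by
    intro z
    obtain ⟨q, hq⟩ := hsurj z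
    rw [← hE] at hq
    rw [← hq, E.left]
  let Θ' : ProdDiffeo m k n M Y N :=
    { toFun := E.Θ
      invFun := E.Ψ
      left_inv := E.left
      right_inv := hright
      contMDiff_toFun := E.smooth
      contMDiff_invFun := fun z => by
        have := E.smooth' (E.Ψ z)
        rwa [hright z] at this }
  have hF' : ∀ x y, F.toHomeomorph (Θ' (x, y)) = Θ' (f.toHomeomorph x, H.toHomeomorph y) := by
    intro x y
    show F (E.Θ (x, y)) = E.Θ (f x, H y)
    rw [hE]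
    exact hF x y
  have h3 := hyp_prod hf1 hf1' hH1 hH1' hF1 hF1' hF' h1 h2
  refine Q263.HS.chain_hyp Q263.HR.tr Pool.Agent.Q223.HS.fl Q263.HS.ang Pool.Agent.Q223.HS.cont
    Q263.HS.low Q263.HR.chain Q263.HS.crr F.toHomeomorph hF1 hF1' h3 fun z hz => ⟨?_, ?_⟩
  · exact chainRec_proj (pr₁_smooth Θ').continuous (fun z => pr₁_F hF' z) hz
  · exact chainRec_proj (pr₂_smooth Θ').continuous (fun z => pr₂_F hF' z) hz

end Pool.Agent.H245.SH
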