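import Pool.Agent.H245.SH.C1
import Pool.Graph.R_pool_sql_team_seeded_3997aac3.Q263.HS.Fin

/-!
# Tangent norms from embeddings, the derivatives of the charts
-/

set_option autoImplicit false
set_option linter.unusedSectionVars false

open scoped Manifold ContDiff Topology NNReal
open Filter Set Metric

universe u v w

namespace Pool.Agent.H245.SH

open Pool.Agent.H718R2.G Pool.Agent.W564.SC Pool.Agent.H721R2

section norm

variable {E : Type u} [NormedAddCommGroup E] [NormedSpace ℝ E]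
  {M : Type v} [TopologicalSpace M] [ChartedSpace E M] [IsManifold 𝓘(ℝ, E) 1 M]
  {F : Type w} [NormedAddCommGroup F] [NormedSpace ℝ F]

/-- the norm of an immersion -/
noncomputable def enm (E : Type u) [NormedAddCommGroup E] [NormedSpace ℝ E]
    {M : Type v} [TopologicalSpace M] [ChartedSpace E M]
    {F : Type w} [NormedAddCommGroup F] [NormedSpace ℝ F] (e : M → F)
    (p : TangentBundle 𝓘(ℝ, E) M) : ℝ := ‖dm E e p.1 p.2‖

theorem emb_norm (e : M → F) (he : ContMDiff 𝓘(ℝ, E) 𝓘(ℝ, F) 1 e)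
    (hinj : ∀ x, Function.Injective (dm E e x)) : IsTangentNorm (enm E e) where
  continuous := by
    have h1 : Continuous (tangentMap 𝓘(ℝ, E) 𝓘(ℝ, F) e) := he.continuous_tangentMap le_rfl
    have h2 := (tangentBundleModelSpaceHomeomorph 𝓘(ℝ, F)).continuous.comp h1
    have h3 := (continuous_snd.comp h2).norm
    exact h3
  pos := fun x v hv => norm_pos_iff.2 fun h => hv (hinj x (h.trans (map_zero (dm E e x)).symm))
  smul := fun x c v => by
    have h : ∀ u : E, ‖dm E e x (c • u)‖ = |c| * ‖dm E e x u‖ := fun u => by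
      rw [map_smul, norm_smul, Real.norm_eq_abs]
    exact h v
  add := fun x v w => by
    have h : ∀ a b : E, ‖dm E e x (a + b)‖ ≤ ‖dm E e x a‖ + ‖dm E e x b‖ := fun a b => by
      rw [map_add]
      exact norm_add_le _ _
    exact h v w

end norm

section charts

variable {m : ℕ} {M : Type v} [TopologicalSpace M] [ChartedSpace (V m) M]
  [IsManifold (𝓡 m) ∞ M]
  {F : Type w} [NormedAddCommGroup F] [NormedSpace ℝ F]

theorem chart_mdiff {χ : OpenPartialHomeomorph M (V m)}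
    (hχ : χ ∈ IsManifold.maximalAtlas (𝓡 m) ∞ M) {x : M} (hx : x ∈ χ.source) :
    MDifferentiableAt 𝓘(ℝ, V m) 𝓘(ℝ, V m) χ x :=
  ((contMDiffOn_of_mem_maximalAtlas hχ).contMDiffAt (χ.open_source.mem_nhds hx)).mdifferentiableAt
    (by simp)

theorem chart_mdiff_symm {χ : OpenPartialHomeomorph M (V m)}
    (hχ : χ ∈ IsManifold.maximalAtlas (𝓡 m) ∞ M) {x : M} (hx : x ∈ χ.source) :
    MDifferentiableAt 𝓘(ℝ, V m) 𝓘(ℝ, V m) χ.symm (χ x) :=
  ((contMDiffOn_symm_of_mem_maximalAtlas hχ).contMDiffAt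
    (χ.open_target.mem_nhds (χ.map_source hx))).mdifferentiableAt (by simp)

/-- the derivative of the chart is injective -/
theorem chart_inj {χ : OpenPartialHomeomorph M (V m)}
    (hχ : χ ∈ IsManifold.maximalAtlas (𝓡 m) ∞ M) {x : M} (hx : x ∈ χ.source) :
    Function.Injective (dm (V m) χ x) := by
  have h1 := chart_mdiff hχ hx
  have h2 := chart_mdiff_symm hχ hx
  have h3 : mfderiv 𝓘(ℝ, V m) 𝓘(ℝ, V m) (χ.symm ∘ χ) x =
      (mfderiv 𝓘(ℝ, V m) 𝓘(ℝ, V m) χ.symm (χ x)).comp (mfderiv 𝓘(ℝ, V m) 𝓘(ℝ, V m) χ x) :=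
    mfderiv_comp x h2 h1
  have h4 : (χ.symm ∘ χ) =ᶠ[𝓝 x] id := by
    filter_upwards [χ.open_source.mem_nhds hx] with y hy
    exact χ.left_inv hy
  rw [h4.mfderiv_eq, mfderiv_id] at h3
  have h5 : Function.LeftInverse (mfderiv 𝓘(ℝ, V m) 𝓘(ℝ, V m) χ.symm (χ x))
      (mfderiv 𝓘(ℝ, V m) 𝓘(ℝ, V m) χ x) := by
    intro v
    have := congrArg (fun T : V m →L[ℝ] V m => T v) h3
    exact this.symm
  exact h5.injective

/-- a function in the chart -/
theorem dm_chart {h : M → F} (hh : ContMDiff 𝓘(ℝ, V m) 𝓘(ℝ, F) 1 h)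
    {χ : OpenPartialHomeomorph M (V m)} (hχ : χ ∈ IsManifold.maximalAtlas (𝓡 m) ∞ M) {x : M}
    (hx : x ∈ χ.source) (v : V m) :
    dm (V m) h x v = fderiv ℝ (h ∘ χ.symm) (χ x) (dm (V m) χ x v) := by
  show mfderiv 𝓘(ℝ, V m) 𝓘(ℝ, F) h x v = fderiv ℝ (h ∘ χ.symm) (χ x)
      (mfderiv 𝓘(ℝ, V m) 𝓘(ℝ, V m) χ x v)
  have h1 : h =ᶠ[𝓝 x] (h ∘ χ.symm) ∘ χ := by
    filter_upwards [χ.open_source.mem_nhds hx] with y hy
    show h y = h (χ.symm (χ y))
    rw [χ.left_inv hy]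
  rw [h1.mfderiv_eq]
  have h2 : MDifferentiableAt 𝓘(ℝ, V m) 𝓘(ℝ, F) (h ∘ χ.symm) (χ x) :=
    MDifferentiableAt.comp (I' := 𝓘(ℝ, V m)) (g := h) (f := χ.symm) (χ x)
      (hh.mdifferentiableAt (by norm_num)) (chart_mdiff_symm hχ hx)
  rw [mfderiv_comp x h2 (chart_mdiff hχ hx), mfderiv_eq_fderiv]
  rfl

/-- a self-map in charts -/
theorem dg_chart {f : M → M} (hf : ContMDiff 𝓘(ℝ, V m) 𝓘(ℝ, V m) 1 f)
    {χ χ' : OpenPartialHomeomorph M (V m)} (hχ : χ ∈ IsManifold.maximalAtlas (𝓡 m) ∞ M)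
    (hχ' : χ' ∈ IsManifold.maximalAtlas (𝓡 m) ∞ M) {x : M} (hx : x ∈ χ.source)
    (hx' : f x ∈ χ'.source) (v : V m) :
    fderiv ℝ (loc χ χ' f) (χ x) (dm (V m) χ x v) = dm (V m) χ' (f x) (dg (V m) f x v) := by
  show fderiv ℝ (loc χ χ' f) (χ x) (mfderiv 𝓘(ℝ, V m) 𝓘(ℝ, V m) χ x v) =
    mfderiv 𝓘(ℝ, V m) 𝓘(ℝ, V m) χ' (f x) (mfderiv 𝓘(ℝ, V m) 𝓘(ℝ, V m) f x v)
  have hfx : MDifferentiableAt 𝓘(ℝ, V m) 𝓘(ℝ, V m) f x := hf.mdifferentiableAt (by norm_num)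
  have h1 : mfderiv 𝓘(ℝ, V m) 𝓘(ℝ, V m) (χ' ∘ f) x =
      (mfderiv 𝓘(ℝ, V m) 𝓘(ℝ, V m) χ' (f x)).comp (mfderiv 𝓘(ℝ, V m) 𝓘(ℝ, V m) f x) :=
    mfderiv_comp x (chart_mdiff hχ' hx') hfx
  have h2 : (χ' ∘ f) =ᶠ[𝓝 x] (loc χ χ' f) ∘ χ := by
    filter_upwards [χ.open_source.mem_nhds hx] with y hy
    show χ' (f y) = χ' (f (χ.symm (χ y)))
    rw [χ.left_inv hy]
  have h3 : MDifferentiableAt 𝓘(ℝ, V m) 𝓘(ℝ, V m) (loc χ χ' f) (χ x) := by
    have h4 : MDifferentiableAt 𝓘(ℝ, V m) 𝓘(ℝ, V m) (f ∘ χ.symm) (χ x) :=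
      MDifferentiableAt.comp (I' := 𝓘(ℝ, V m)) (g := f) (f := χ.symm) (χ x)
        (hf.mdifferentiableAt (by norm_num)) (chart_mdiff_symm hχ hx)
    have h6 : MDifferentiableAt 𝓘(ℝ, V m) 𝓘(ℝ, V m) χ' ((f ∘ χ.symm) (χ x)) := by
      show MDifferentiableAt 𝓘(ℝ, V m) 𝓘(ℝ, V m) χ' (f (χ.symm (χ x)))
      rw [χ.left_inv hx]
      exact chart_mdiff hχ' hx'
    exact MDifferentiableAt.comp (I' := 𝓘(ℝ, V m)) (g := χ') (f := f ∘ χ.symm) (χ x) h6 h4
  have h5 : mfderiv 𝓘(ℝ, V m) 𝓘(ℝ, V m) ((loc χ χ' f) ∘ χ) x =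
      (mfderiv 𝓘(ℝ, V m) 𝓘(ℝ, V m) (loc χ χ' f) (χ x)).comp (mfderiv 𝓘(ℝ, V m) 𝓘(ℝ, V m) χ x) :=
    mfderiv_comp x h3 (chart_mdiff hχ hx)
  rw [h2.mfderiv_eq, h5, mfderiv_eq_fderiv] at h1
  exact congrArg (fun T : V m →L[ℝ] V m => T v) h1

variable (A : FAtlas m M)

/-- the derivative of the chart chosen at `x` -/
noncomputable def Tx (x : M) : V m →L[ℝ] V m := dm (V m) (A.χ (A.jx x)) x

theorem Tx_inj (x : M) : Function.Injective (Tx A x) := chart_inj (A.good _).mem (A.src x)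

theorem Tx_surj (x : M) : Function.Surjective (Tx A x) := by
  have h := LinearMap.surjective_of_injective (f := (Tx A x : V m →ₗ[ℝ] V m)) (Tx_inj A x)
  exact h

theorem Tx_dg {f : M → M} (hf : ContMDiff 𝓘(ℝ, V m) 𝓘(ℝ, V m) 1 f) (x : M) (v : V m) :
    Dm A f x (f x) (Tx A x v) = Tx A (f x) (dg (V m) f x v) :=
  dg_chart hf (A.good _).mem (A.good _).mem (A.src x) (A.src (f x)) v

/-- comparison of the norms -/
theorem Tx_compare {e : M → F} (he : ContMDiff 𝓘(ℝ, V m) 𝓘(ℝ, F) 1 e)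
    (hinj : ∀ x, Function.Injective (dm (V m) e x)) : ∃ R : ℝ, 1 ≤ R ∧ ∀ (x : M) (v : V m),
      ‖dm (V m) e x v‖ ≤ R * ‖Tx A x v‖ ∧ ‖Tx A x v‖ ≤ R * ‖dm (V m) e x v‖ := by
  have h1 : ∀ j : Fin A.J, ∃ R : ℝ, 1 ≤ R ∧ ∀ p ∈ closedBall (0 : V m) (1 / 16), ∀ u : V m,
      ‖fderiv ℝ (e ∘ (A.χ j).symm) p u‖ ≤ R * ‖u‖ ∧
      ‖u‖ ≤ R * ‖fderiv ℝ (e ∘ (A.χ j).symm) p u‖ := by
    intro j
    have hsub : closedBall (0 : V m) (1 / 16) ⊆ (A.χ j).target :=
      (closedBall_subset_closedBall (by norm_num)).trans (A.good j).ball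
    have hcd : ContDiffOn ℝ 1 (e ∘ (A.χ j).symm) (A.χ j).target := by
      rw [← contMDiffOn_iff_contDiffOn]
      exact he.comp_contMDiffOn ((contMDiffOn_symm_of_mem_maximalAtlas (A.good j).mem).of_le
        (by exact_mod_cast le_top))
    have hcont : ContinuousOn (fderiv ℝ (e ∘ (A.χ j).symm)) (A.χ j).target :=
      hcd.continuousOn_fderiv_of_isOpen (A.χ j).open_target le_rfl
    have hcontK := hcont.mono hsub
    obtain ⟨B, hB⟩ := (isCompact_closedBall (0 : V m) (1 / 16)).exists_bound_of_continuousOn hcontK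
    set S := Metric.sphere (0 : V m) 1 with hS
    have hinj' : ∀ p ∈ closedBall (0 : V m) (1 / 16), ∀ u : V m,
        fderiv ℝ (e ∘ (A.χ j).symm) p u = 0 → u = 0 := by
      intro p hp u hu
      obtain ⟨x, hx, hxp⟩ : ∃ x, x ∈ (A.χ j).source ∧ A.χ j x = p :=
        ⟨(A.χ j).symm p, (A.χ j).map_target (hsub hp), (A.χ j).right_inv (hsub hp)⟩
      obtain ⟨v, hv⟩ : ∃ v, dm (V m) (A.χ j) x v = u := by
        have h := LinearMap.surjective_of_injective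
          (f := (dm (V m) (A.χ j) x : V m →ₗ[ℝ] V m)) (chart_inj (A.good j).mem hx)
        exact h u
      have h2 := dm_chart he (A.good j).mem hx v
      rw [hxp, hv, hu] at h2
      have h3 : v = 0 := hinj x (h2.trans (map_zero _).symm)
      rw [← hv, h3, map_zero]
    obtain ⟨δ, hδ, hδ'⟩ : ∃ δ : ℝ, 0 < δ ∧ ∀ p ∈ closedBall (0 : V m) (1 / 16), ∀ u ∈ S,
        δ ≤ ‖fderiv ℝ (e ∘ (A.χ j).symm) p u‖ := by
      by_cases hne : (closedBall (0 : V m) (1 / 16) ×ˢ S).Nonempty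
      · have hc : ContinuousOn (fun q : V m × V m => ‖fderiv ℝ (e ∘ (A.χ j).symm) q.1 q.2‖)
            (closedBall (0 : V m) (1 / 16) ×ˢ S) := by
          apply ContinuousOn.norm
          apply ContinuousOn.clm_apply
          · exact hcontK.comp continuousOn_fst fun q hq => hq.1
          · exact continuousOn_snd
        obtain ⟨q, hq, hmin⟩ := ((isCompact_closedBall (0 : V m) (1 / 16)).prod
          (isCompact_sphere (0 : V m) 1)).exists_isMinOn hne hc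
        refine ⟨‖fderiv ℝ (e ∘ (A.χ j).symm) q.1 q.2‖, ?_, fun p hp u hu => hmin (mk_mem_prod hp hu)⟩
        rw [norm_pos_iff]
        intro h0
        have h2 := hinj' q.1 hq.1 q.2 h0
        have h3 := hq.2
        rw [h2] at h3
        simp at h3
      · refine ⟨1, one_pos, fun p hp u hu => (hne ⟨(p, u), hp, hu⟩).elim⟩
    refine ⟨max 1 (max B δ⁻¹), le_max_left _ _, fun p hp u => ⟨?_, ?_⟩⟩
    · refine (ContinuousLinearMap.le_opNorm _ _).trans ?_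
      gcongr
      exact (hB p hp).trans ((le_max_left _ _).trans (le_max_right _ _))
    · by_cases hu : u = 0
      · rw [hu, map_zero, norm_zero, norm_zero, mul_zero]
      · have hun : 0 < ‖u‖ := norm_pos_iff.2 hu
        have h2 := hδ' p hp (‖u‖⁻¹ • u) (by
          rw [hS, mem_sphere_zero_iff_norm, norm_smul, norm_inv, norm_norm,
            inv_mul_cancel₀ hun.ne'])
        rw [map_smul, norm_smul, norm_inv, norm_norm, le_inv_mul_iff₀ hun] at h2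
        calc ‖u‖ = δ⁻¹ * (‖u‖ * δ) := by field_simp
          _ ≤ max 1 (max B δ⁻¹) * ‖fderiv ℝ (e ∘ (A.χ j).symm) p u‖ := by
            gcongr
            exact (le_max_right _ _).trans (le_max_right _ _)
  choose R hR1 hR using h1
  obtain ⟨B, hB⟩ := Finite.exists_le R
  refine ⟨max 1 B, le_max_left _ _, fun x v => ?_⟩
  have h2 := hR (A.jx x) (A.χ (A.jx x) x) (by
    rw [mem_closedBall, dist_zero_right]
    exact (A.core x).le) (Tx A x v)
  have h3 : fderiv ℝ (e ∘ (A.χ (A.jx x)).symm) (A.χ (A.jx x) x) (Tx A x v) = dm (V m) e x v :=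
    (dm_chart he (A.good _).mem (A.src x) v).symm
  rw [h3] at h2
  constructor
  · exact h2.1.trans (by gcongr; exact (hB _).trans (le_max_right _ _))
  · exact h2.2.trans (by gcongr; exact (hB _).trans (le_max_right _ _))

end charts

end Pool.Agent.H245.SH
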