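import Pool.Agent.H245.SH.P1

/-!
# Hyperbolicity of the chain recurrent set
-/

set_option autoImplicit false
set_option linter.unusedSectionVars false

open scoped Manifold ContDiff Topology NNReal
open Filter Set Metric

universe u v w

namespace Pool.Agent.H245.SH

open Pool.Agent.H718R2.G Pool.Agent.W564.SC Pool.Agent.H721R2 Pool.Agent.H728R2.OS

variable {m : ℕ} {M : Type v} [MetricSpace M] [CompactSpace M] [ChartedSpace (V m) M]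
  [IsManifold (𝓡 m) ∞ M]

theorem coc_iter {X : Type v} {π : X → M} {c : Coc X (V m)} {g : M → M}
    (hc : ∀ x, π (c.f x) = g (π x)) (x : X) (n : ℕ) : π (c.f^[n] x) = g^[n] (π x) := by
  induction n with
  | zero => rfl
  | succ n ih => rw [Function.iterate_succ_apply', hc, ih, Function.iterate_succ_apply']

/-- words and iterates -/
theorem word_iter (A : FAtlas m M) {X : Type v} {π : X → M} {c : Coc X (V m)} {g : M → M}
    (hg : ContMDiff 𝓘(ℝ, V m) 𝓘(ℝ, V m) 1 g) (hc : ∀ x, π (c.f x) = g (π x))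
    (hA : ∀ x v, c.A x (Tx A (π x) v) = Tx A (g (π x)) (dg (V m) g (π x) v)) (x : X) (n : ℕ)
    (v : V m) : Tx A (g^[n] (π x)) (dg (V m) (g^[n]) (π x) v) =
      c.word x (ids (V m)) n (Tx A (π x) v) := by
  induction n with
  | zero =>
    show Tx A (π x) (mfderiv 𝓘(ℝ, V m) 𝓘(ℝ, V m) id (π x) v) = Tx A (π x) v
    rw [mfderiv_id]
    rfl
  | succ n ih =>
    rw [c.word_ids_succ', ← ih]
    have e1 : g^[n + 1] = g ∘ g^[n] := Function.iterate_succ' g n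
    have e2 : dg (V m) (g^[n + 1]) (π x) v = dg (V m) g (g^[n] (π x)) (dg (V m) (g^[n]) (π x) v) := by
      rw [e1]
      exact dg_comp (g^[n]) g (iter_smooth g hg n) hg (π x) v
    have e3 := hA (c.f^[n] x) (dg (V m) (g^[n]) (π x) v)
    rw [coc_iter hc] at e3
    rw [e2, e3, Function.iterate_succ_apply']

/-- invariance -/
theorem inv_half (A : FAtlas m M) {Λ : Set M} {c : Coc Λ (V m)} {g : M → M}
    (hc : ∀ x, (c.f x : M) = g x)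
    (hA : ∀ x v, c.A x (Tx A x v) = Tx A (g x) (dg (V m) g x v)) {B : Λ → Submodule ℝ (V m)}
    (hB : ∀ x v, c.A x v ∈ B (c.f x) ↔ v ∈ B x)
    {Z : ∀ x : M, Submodule ℝ (TangentSpace 𝓘(ℝ, V m) x)}
    (hZ : ∀ (x : M) (h : x ∈ Λ) (v : V m), v ∈ Z x ↔ Tx A x v ∈ B ⟨x, h⟩) :
    Q263.HS.InvOn g Λ Z := by
  intro x hx
  have hgx : g x ∈ Λ := by
    rw [← hc ⟨x, hx⟩]
    exact (c.f ⟨x, hx⟩).2
  have hfx : c.f ⟨x, hx⟩ = ⟨g x, hgx⟩ := Subtype.ext (hc ⟨x, hx⟩)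
  have h1 : ∀ v : V m, dg (V m) g x v ∈ Z (g x) ↔ v ∈ Z x := by
    intro v
    rw [hZ (g x) hgx, hZ x hx, ← hfx, ← hB ⟨x, hx⟩]
    have := hA ⟨x, hx⟩ v
    rw [this]
  have h2 : Function.Surjective (dg (V m) g x) := by
    intro w
    obtain ⟨v, hv⟩ := Tx_surj A x ((c.A ⟨x, hx⟩).symm (Tx A (g x) w))
    refine ⟨v, Tx_inj A (g x) ?_⟩
    have h3 := hA ⟨x, hx⟩ v
    rw [← h3]
    show c.A ⟨x, hx⟩ (Tx A x v) = _
    rw [hv, ContinuousLinearEquiv.apply_symm_apply]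
  apply le_antisymm
  · intro w hw
    obtain ⟨v, hv, hvw⟩ := Submodule.mem_map.1 hw
    rw [← hvw]
    exact (h1 v).2 hv
  · intro w hw
    obtain ⟨v, hv⟩ := h2 w
    refine Submodule.mem_map.2 ⟨v, ?_, hv⟩
    refine (h1 v).1 ?_
    rw [hv]
    exact hw

/-- fields described by rates are continuous -/
theorem cont_of_rates {Λ : Set M} (hΛ : IsClosed Λ) {Nm : TangentBundle 𝓘(ℝ, V m) M → ℝ}
    (hN : IsTangentNorm Nm) {g : M → M} (hg : ContMDiff 𝓘(ℝ, V m) 𝓘(ℝ, V m) 1 g) {C a : ℝ}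
    {Z : ∀ x : M, Submodule ℝ (TangentSpace 𝓘(ℝ, V m) x)}
    (hZ : ∀ (x : M), x ∈ Λ → ∀ v : TangentSpace 𝓘(ℝ, V m) x, v ∈ Z x ↔
      ∀ k : ℕ, Nm (tangentMap 𝓘(ℝ, V m) 𝓘(ℝ, V m) (g^[k]) ⟨x, v⟩) ≤ C * a ^ k * Nm ⟨x, v⟩) :
    Q263.HS.ContOn Λ Z := by
  have e1 : {p : TangentBundle 𝓘(ℝ, V m) M | p.1 ∈ Λ ∧ p.2 ∈ Z p.1} =
      {p : TangentBundle 𝓘(ℝ, V m) M | p.1 ∈ Λ} ∩ ⋂ k : ℕ, {p : TangentBundle 𝓘(ℝ, V m) M |
        Nm (tangentMap 𝓘(ℝ, V m) 𝓘(ℝ, V m) (g^[k]) p) ≤ C * a ^ k * Nm p} := by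
    ext p
    constructor
    · rintro ⟨h1, h2⟩
      refine ⟨h1, mem_iInter.2 fun k => ?_⟩
      exact (hZ p.1 h1 p.2).1 h2 k
    · rintro ⟨h1, h2⟩
      refine ⟨h1, (hZ p.1 h1 p.2).2 fun k => ?_⟩
      exact mem_iInter.1 h2 k
  unfold Q263.HS.ContOn
  rw [e1]
  refine (hΛ.preimage (FiberBundle.continuous_proj (V m) (TangentSpace 𝓘(ℝ, V m)))).inter ?_
  refine isClosed_iInter fun k => ?_
  have h1 : Continuous (tangentMap 𝓘(ℝ, V m) 𝓘(ℝ, V m) (g^[k])) :=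
    (iter_smooth g hg k).continuous_tangentMap le_rfl
  exact isClosed_le (hN.continuous.comp h1) (continuous_const.mul hN.continuous)

/-- rates and continuity -/
theorem rate_half (A : FAtlas m M) {Λ : Set M} (hΛ : IsClosed Λ) {c : Coc Λ (V m)} {g : M → M}
    (hg : ContMDiff 𝓘(ℝ, V m) 𝓘(ℝ, V m) 1 g) (hc : ∀ x, (c.f x : M) = g x)
    (hA : ∀ x v, c.A x (Tx A x v) = Tx A (g x) (dg (V m) g x v))
    {F : Type} [NormedAddCommGroup F] [NormedSpace ℝ F] {e : M → F}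
    (he : ContMDiff 𝓘(ℝ, V m) 𝓘(ℝ, F) 1 e) (hinj : ∀ x, Function.Injective (dm (V m) e x))
    {R : ℝ} (hR : 1 ≤ R) (hcomp : ∀ (x : M) (v : V m),
      ‖dm (V m) e x v‖ ≤ R * ‖Tx A x v‖ ∧ ‖Tx A x v‖ ≤ R * ‖dm (V m) e x v‖)
    {q C : ℝ} (hq0 : 0 < q) (hq1 : q < 1) (hC : 1 ≤ C)
    (hrate : ∀ x, ∀ v ∈ c.Bd x, ∀ n, ‖c.word x (ids (V m)) n v‖ ≤ C * q ^ n * ‖v‖)
    {Z : ∀ x : M, Submodule ℝ (TangentSpace 𝓘(ℝ, V m) x)}
    (hZ : ∀ (x : M) (h : x ∈ Λ) (v : V m), v ∈ Z x ↔ Tx A x v ∈ c.Bd ⟨x, h⟩) :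
    Q263.HS.RateOn g Λ (enm (V m) e) Z (R * C * R) q ∧ Q263.HS.ContOn Λ Z := by
  have key : ∀ (x : M) (h : x ∈ Λ) (v : V m) (k : ℕ),
      enm (V m) e (tangentMap 𝓘(ℝ, V m) 𝓘(ℝ, V m) (g^[k]) ⟨x, v⟩) =
        ‖dm (V m) e (g^[k] x) (dg (V m) (g^[k]) x v)‖ ∧
      Tx A (g^[k] x) (dg (V m) (g^[k]) x v) = c.word ⟨x, h⟩ (ids (V m)) k (Tx A x v) := by
    intro x h v k
    exact ⟨rfl, word_iter A (π := Subtype.val) hg hc hA ⟨x, h⟩ k v⟩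
  have hrt : Q263.HS.RateOn g Λ (enm (V m) e) Z (R * C * R) q := by
    intro k x hx v hv
    obtain ⟨h1, h2⟩ := key x hx v k
    rw [h1]
    have h3 := hrate ⟨x, hx⟩ _ ((hZ x hx v).1 hv) k
    rw [← h2] at h3
    calc ‖dm (V m) e (g^[k] x) (dg (V m) (g^[k]) x v)‖ ≤
          R * ‖Tx A (g^[k] x) (dg (V m) (g^[k]) x v)‖ := (hcomp _ _).1
      _ ≤ R * (C * q ^ k * ‖Tx A x v‖) := by gcongr
      _ ≤ R * (C * q ^ k * (R * ‖dm (V m) e x v‖)) := by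
        gcongr
        exact (hcomp x v).2
      _ = R * C * R * q ^ k * ‖dm (V m) e x v‖ := by ring
  refine ⟨hrt, cont_of_rates hΛ (emb_norm e he hinj) hg (C := R * C * R) (a := q) fun x hx v =>
    ⟨fun hv k => hrt k x hx v hv, fun h => (hZ x hx v).2 ?_⟩⟩
  refine c.mem_Bd.2 ⟨R * (R * C * R * ‖dm (V m) e x v‖), fun k => ?_⟩
  obtain ⟨h1, h2⟩ := key x hx v k
  have h3 := h k
  rw [h1] at h3
  rw [← h2]
  have hqk : q ^ k ≤ 1 := pow_le_one₀ hq0.le hq1.le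
  calc ‖Tx A (g^[k] x) (dg (V m) (g^[k]) x v)‖ ≤
        R * ‖dm (V m) e (g^[k] x) (dg (V m) (g^[k]) x v)‖ := (hcomp _ _).2
    _ ≤ R * (R * C * R * q ^ k * ‖dm (V m) e x v‖) := by gcongr; exact h3
    _ ≤ R * (R * C * R * 1 * ‖dm (V m) e x v‖) := by gcongr
    _ = _ := by ring

variable {r : ℕ∞}

/-- hyperbolicity from the splitting of the cocycle -/
theorem isHyp_of_split (A : FAtlas m M) (hr : 1 ≤ r) (f : DiffM m M r) {Λ : Set M}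
    (hΛc : IsClosed Λ) (hinv : f.toHomeomorph '' Λ = Λ) (c : Coc Λ (V m))
    (hcf : ∀ x, (c.f x : M) = f.toHomeomorph x)
    (hA : ∀ x v, c.A x v = Dm A f x (f x) v) {q C : ℝ} (hq0 : 0 < q) (hq1 : q < 1) (hC : 1 ≤ C)
    (hsp : ∀ x, IsCompl (c.Bd x) (c.inv.Bd x) ∧
      (∀ v ∈ c.Bd x, ∀ n, ‖c.word x (ids (V m)) n v‖ ≤ C * q ^ n * ‖v‖) ∧
      ∀ v ∈ c.inv.Bd x, ∀ n, ‖c.inv.word x (ids (V m)) n v‖ ≤ C * q ^ n * ‖v‖) :
    Q263.HS.IsHyp (V m) f.toHomeomorph Λ := by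
  classical
  obtain ⟨k, e, he, hemb, hinj⟩ := exists_embedding_euclidean_of_compact (I := 𝓘(ℝ, V m)) (M := M)
  have he1 : ContMDiff 𝓘(ℝ, V m) 𝓘(ℝ, V k) 1 e := he.of_le (by exact_mod_cast le_top)
  have hinj' : ∀ x, Function.Injective (dm (V m) e x) := hinj
  obtain ⟨R, hR, hcomp⟩ := Tx_compare A he1 hinj'
  have hr1 : ((1 : ℕ∞) : WithTop ℕ∞) ≤ ((r : ℕ∞) : WithTop ℕ∞) := by exact_mod_cast hr
  have hf1 : ContMDiff 𝓘(ℝ, V m) 𝓘(ℝ, V m) 1 (f.toHomeomorph : M → M) := f.contMDiff.of_le hr1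
  have hf1' : ContMDiff 𝓘(ℝ, V m) 𝓘(ℝ, V m) 1 (f.toHomeomorph.symm : M → M) :=
    f.symm.contMDiff.of_le hr1
  have hcf' : ∀ x, (c.inv.f x : M) = f.toHomeomorph.symm x := by
    intro x
    have h1 : c.f (c.f.symm x) = x := c.f.apply_symm_apply x
    have h2 : f.toHomeomorph ((c.f.symm x : Λ) : M) = x := by rw [← hcf, h1]
    show ((c.f.symm x : Λ) : M) = f.toHomeomorph.symm x
    rw [← h2, Homeomorph.symm_apply_apply]
  have hAT : ∀ (x : Λ) (v : V m), c.A x (Tx A x v) =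
      Tx A (f.toHomeomorph x) (dg (V m) f.toHomeomorph x v) := by
    intro x v
    rw [hA]
    exact Tx_dg A hf1 x.1 v
  have hAT' : ∀ (x : Λ) (v : V m), c.inv.A x (Tx A x v) =
      Tx A (f.toHomeomorph.symm x) (dg (V m) f.toHomeomorph.symm x v) := by
    intro x v
    show (c.A (c.f.symm x)).symm (Tx A x v) = _
    rw [ContinuousLinearEquiv.symm_apply_eq]
    have h1 : ((c.f.symm x : Λ) : M) = f.toHomeomorph.symm x := hcf' x
    have h2 := hAT (c.f.symm x) (dg (V m) f.toHomeomorph.symm x v)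
    rw [h1] at h2
    rw [h2, Homeomorph.apply_symm_apply]
    congr 1
    have h3 := dg_inv (f.toHomeomorph.symm : M → M) (f.toHomeomorph : M → M) hf1' hf1
      (fun y => f.toHomeomorph.apply_symm_apply y) x v
    exact h3.symm
  obtain ⟨Es, hEs⟩ : ∃ Es : ∀ x : M, Submodule ℝ (TangentSpace 𝓘(ℝ, V m) x),
      ∀ (x : M) (h : x ∈ Λ) (v : V m), v ∈ Es x ↔ Tx A x v ∈ c.Bd ⟨x, h⟩ := by
    refine ⟨fun x => if h : x ∈ Λ then
      ((c.Bd ⟨x, h⟩).comap (Tx A x : V m →ₗ[ℝ] V m) : Submodule ℝ (V m)) else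
      (⊥ : Submodule ℝ (V m)), fun x h v => ?_⟩
    simp only [dif_pos h]
    rfl
  obtain ⟨Eu, hEu⟩ : ∃ Eu : ∀ x : M, Submodule ℝ (TangentSpace 𝓘(ℝ, V m) x),
      ∀ (x : M) (h : x ∈ Λ) (v : V m), v ∈ Eu x ↔ Tx A x v ∈ c.inv.Bd ⟨x, h⟩ := by
    refine ⟨fun x => if h : x ∈ Λ then
      ((c.inv.Bd ⟨x, h⟩).comap (Tx A x : V m →ₗ[ℝ] V m) : Submodule ℝ (V m)) else
      (⊥ : Submodule ℝ (V m)), fun x h v => ?_⟩
    simp only [dif_pos h]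
    rfl
  have hBu : ∀ (x : Λ) (v : V m), c.A x v ∈ c.inv.Bd (c.f x) ↔ v ∈ c.inv.Bd x := by
    intro x v
    have h1 := c.inv.A_mem_Bd (x := c.f x) (v := c.A x v)
    have h2 : c.inv.f (c.f x) = x := c.f.symm_apply_apply x
    have h3 : c.inv.A (c.f x) (c.A x v) = v := by
      show (c.A (c.f.symm (c.f x))).symm (c.A x v) = v
      rw [Equiv.symm_apply_apply, ContinuousLinearEquiv.symm_apply_apply]
    rw [h2, h3] at h1
    exact h1.symm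
  obtain ⟨rs, cs⟩ := rate_half A hΛc hf1 hcf hAT he1 hinj' hR hcomp hq0 hq1 hC
    (fun x v hv n => (hsp x).2.1 v hv n) hEs
  obtain ⟨ru, cu⟩ := rate_half A hΛc hf1' hcf' hAT' he1 hinj' hR hcomp hq0 hq1 hC
    (fun x v hv n => (hsp x).2.2 v hv n) hEu
  refine ⟨enm (V m) e, Es, Eu, R * C * R, q, {
    norm := emb_norm e he1 hinj'
    closed := hΛc
    inv := hinv
    a_pos := hq0
    a_lt := hq1
    map_s := inv_half A hcf hAT (B := c.Bd) (fun x v => c.A_mem_Bd) hEs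
    map_u := inv_half A hcf hAT (B := c.inv.Bd) hBu hEu
    rate_s := rs
    rate_u := ru
    compl := ?_
    cont_s := cs
    cont_u := cu }⟩
  intro x hx
  obtain ⟨⟨hd, hs⟩, -⟩ := hsp ⟨x, hx⟩
  constructor
  · rw [Submodule.disjoint_def] at hd ⊢
    intro v hv hv'
    have h1 := hd _ ((hEs x hx v).1 hv) ((hEu x hx v).1 hv')
    exact Tx_inj A x (h1.trans (map_zero (Tx A x)).symm)
  · rw [codisjoint_iff] at hs ⊢
    rw [eq_top_iff]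
    intro v _
    have h1 : Tx A x v ∈ c.Bd ⟨x, hx⟩ ⊔ c.inv.Bd ⟨x, hx⟩ := by
      rw [hs]
      exact Submodule.mem_top
    obtain ⟨a, ha, b, hb, hab⟩ := Submodule.mem_sup.1 h1
    obtain ⟨a', ha'⟩ := Tx_surj A x a
    obtain ⟨b', hb'⟩ := Tx_surj A x b
    rw [← ha'] at ha
    rw [← hb'] at hb
    refine Submodule.mem_sup.2 ⟨a', (hEs x hx a').2 ha, b', (hEu x hx b').2 hb, ?_⟩
    apply Tx_inj A x
    rw [← hab, ← ha', ← hb']
    exact map_add (Tx A x) a' b'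

/-- **Hyperbolicity of the chain recurrent set.** -/
theorem isHyp_of_coc (A : FAtlas m M) (hr : 1 ≤ r) (f : DiffM m M r) {Λ : Set M}
    (hΛc : IsClosed Λ) (hinv : f.toHomeomorph '' Λ = Λ) (c : Coc Λ (V m))
    (hcf : ∀ x, (c.f x : M) = f.toHomeomorph x)
    (hA : ∀ x v, c.A x v = Dm A f x (f x) v) {δ C₀ : ℝ} (hδ : 0 < δ) (hδ1 : δ ≤ 1)
    (h : c.Hyp δ C₀) : Q263.HS.IsHyp (V m) f.toHomeomorph Λ := by
  obtain ⟨q, hq0, hq1, C, hC, hsp⟩ := h.splitting hδ hδ1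
  exact isHyp_of_split A hr f hΛc hinv c hcf hA hq0 hq1 hC hsp

end Pool.Agent.H245.SH
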