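import Pool.Agent.H245.SH.T1

/-!
# Products of hyperbolic sets
-/

set_option autoImplicit false
set_option linter.unusedSectionVars false

open scoped Manifold ContDiff Topology NNReal
open Filter Set Metric

universe u v w

namespace Pool.Agent.H245.SH

open Pool.Agent.H718R2.G Pool.Agent.W564.SC Pool.Agent.Y271.CP Pool.Agent.H721R2

section

variable {m k n : ℕ} {M : Type v} [TopologicalSpace M] [ChartedSpace (V m) M]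
  [IsManifold (𝓡 m) ∞ M]
  {Y : Type w} [TopologicalSpace Y] [ChartedSpace (V k) Y] [IsManifold (𝓡 k) ∞ Y]
  {N : Type u} [TopologicalSpace N] [ChartedSpace (V n) N] [IsManifold (𝓡 n) ∞ N]

/-- the first projection -/
noncomputable def pr₁ (Θ : ProdDiffeo m k n M Y N) (z : N) : M := (Θ.symm z).1

/-- the second projection -/
noncomputable def pr₂ (Θ : ProdDiffeo m k n M Y N) (z : N) : Y := (Θ.symm z).2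

theorem pr₁_smooth (Θ : ProdDiffeo m k n M Y N) :
    ContMDiff 𝓘(ℝ, V n) 𝓘(ℝ, V m) 1 (pr₁ Θ) := by
  have h : ContMDiff (𝓡 n) (𝓡 m) ∞ (fun z => (Θ.symm z).1) := contMDiff_fst.comp Θ.symm.contMDiff
  exact h.of_le (by exact_mod_cast le_top)

theorem pr₂_smooth (Θ : ProdDiffeo m k n M Y N) :
    ContMDiff 𝓘(ℝ, V n) 𝓘(ℝ, V k) 1 (pr₂ Θ) := by
  have h : ContMDiff (𝓡 n) (𝓡 k) ∞ (fun z => (Θ.symm z).2) := contMDiff_snd.comp Θ.symm.contMDiff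
  exact h.of_le (by exact_mod_cast le_top)

/-- the derivative between manifolds, as a map of the model spaces -/
noncomputable def dp (a b : ℕ) {A : Type v} [TopologicalSpace A] [ChartedSpace (V a) A]
    {B : Type u} [TopologicalSpace B] [ChartedSpace (V b) B] (g : A → B) (x : A) :
    V a →L[ℝ] V b := mfderiv 𝓘(ℝ, V a) 𝓘(ℝ, V b) g x

theorem dp_comp {a b c : ℕ} {A : Type v} [TopologicalSpace A] [ChartedSpace (V a) A]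
    {B : Type u} [TopologicalSpace B] [ChartedSpace (V b) B]
    {C : Type w} [TopologicalSpace C] [ChartedSpace (V c) C] {g : A → B} {g' : B → C}
    (hg : ContMDiff 𝓘(ℝ, V a) 𝓘(ℝ, V b) 1 g) (hg' : ContMDiff 𝓘(ℝ, V b) 𝓘(ℝ, V c) 1 g') (x : A)
    (v : V a) : dp a c (g' ∘ g) x v = dp b c g' (g x) (dp a b g x v) := by
  have h := mfderiv_comp x (hg'.mdifferentiableAt (by norm_num) : MDifferentiableAt 𝓘(ℝ, V b)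
    𝓘(ℝ, V c) g' (g x)) (hg.mdifferentiableAt (by norm_num) : MDifferentiableAt 𝓘(ℝ, V a)
    𝓘(ℝ, V b) g x)
  show mfderiv 𝓘(ℝ, V a) 𝓘(ℝ, V c) (g' ∘ g) x v = _
  rw [h]
  rfl

theorem dpair_bij (Θ : ProdDiffeo m k n M Y N) (z : N) :
    Function.Bijective (fun v : V n => (dp n m (pr₁ Θ) z v, dp n k (pr₂ Θ) z v)) := by
  have h1 : MDifferentiableAt (𝓡 n) (𝓡 m) (pr₁ Θ) z :=
    (pr₁_smooth Θ).mdifferentiableAt (by norm_num)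
  have h2 : MDifferentiableAt (𝓡 n) (𝓡 k) (pr₂ Θ) z :=
    (pr₂_smooth Θ).mdifferentiableAt (by norm_num)
  have h3 := mfderiv_prodMk h1 h2
  have h4 : (fun z => (pr₁ Θ z, pr₂ Θ z)) = Θ.symm := rfl
  rw [h4] at h3
  have hn : (∞ : ℕ∞ω) ≠ 0 := by simp
  have h5 := Θ.symm.mfderivToContinuousLinearEquiv_coe hn (x := z)
  have h6 : ∀ v : V n, (dp n m (pr₁ Θ) z v, dp n k (pr₂ Θ) z v) =
      (Θ.symm.mfderivToContinuousLinearEquiv hn z) v := by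
    intro v
    have h7 : ((Θ.symm.mfderivToContinuousLinearEquiv hn z) v) =
        mfderiv (𝓡 n) ((𝓡 m).prod (𝓡 k)) Θ.symm z v := by
      rw [← h5]
      rfl
    rw [h7, h3]
    rfl
  have h8 : (fun v : V n => (dp n m (pr₁ Θ) z v, dp n k (pr₂ Θ) z v)) =
      fun v => (Θ.symm.mfderivToContinuousLinearEquiv hn z) v := funext h6
  rw [h8]
  exact (Θ.symm.mfderivToContinuousLinearEquiv hn z).bijective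

theorem pr₁_Θ (Θ : ProdDiffeo m k n M Y N) (x : M) (y : Y) : pr₁ Θ (Θ (x, y)) = x := by
  unfold pr₁
  rw [Diffeomorph.symm_apply_apply]

theorem pr₂_Θ (Θ : ProdDiffeo m k n M Y N) (x : M) (y : Y) : pr₂ Θ (Θ (x, y)) = y := by
  unfold pr₂
  rw [Diffeomorph.symm_apply_apply]

theorem Θ_pr (Θ : ProdDiffeo m k n M Y N) (z : N) : Θ (pr₁ Θ z, pr₂ Θ z) = z :=
  Θ.apply_symm_apply z

variable {Θ : ProdDiffeo m k n M Y N} {f : M → M} {h : Y → Y} {F : N → N}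

theorem pr₁_F (hF : ∀ x y, F (Θ (x, y)) = Θ (f x, h y)) (z : N) : pr₁ Θ (F z) = f (pr₁ Θ z) := by
  conv_lhs => rw [← Θ_pr Θ z, hF, pr₁_Θ]

theorem pr₂_F (hF : ∀ x y, F (Θ (x, y)) = Θ (f x, h y)) (z : N) : pr₂ Θ (F z) = h (pr₂ Θ z) := by
  conv_lhs => rw [← Θ_pr Θ z, hF, pr₂_Θ]

theorem pr₁_iter (hF : ∀ x y, F (Θ (x, y)) = Θ (f x, h y)) (l : ℕ) :
    pr₁ Θ ∘ F^[l] = f^[l] ∘ pr₁ Θ := by
  induction l with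
  | zero => rfl
  | succ l ih =>
    funext z
    show pr₁ Θ (F^[l + 1] z) = f^[l + 1] (pr₁ Θ z)
    have h1 := congrFun ih z
    simp only [Function.comp] at h1
    rw [Function.iterate_succ_apply', pr₁_F hF, h1, ← Function.iterate_succ_apply' f]

theorem pr₂_iter (hF : ∀ x y, F (Θ (x, y)) = Θ (f x, h y)) (l : ℕ) :
    pr₂ Θ ∘ F^[l] = h^[l] ∘ pr₂ Θ := by
  induction l with
  | zero => rfl
  | succ l ih =>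
    funext z
    show pr₂ Θ (F^[l + 1] z) = h^[l + 1] (pr₂ Θ z)
    have h1 := congrFun ih z
    simp only [Function.comp] at h1
    rw [Function.iterate_succ_apply', pr₂_F hF, h1, ← Function.iterate_succ_apply' h]

theorem inv_mem {a : ℕ} {A : Type v} [TopologicalSpace A] [ChartedSpace (V a) A]
    {g : A → A} {Λ : Set A} {E : ∀ x : A, Submodule ℝ (TangentSpace 𝓘(ℝ, V a) x)}
    (hE : Q263.HS.InvOn g Λ E) {x : A} (hx : x ∈ Λ) :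
    (∀ v : TangentSpace 𝓘(ℝ, V a) x, v ∈ E x → dp a a g x v ∈ E (g x)) ∧
    ∀ w : TangentSpace 𝓘(ℝ, V a) (g x), w ∈ E (g x) →
      ∃ v : TangentSpace 𝓘(ℝ, V a) x, v ∈ E x ∧ dp a a g x v = w := by
  have h := hE x hx
  constructor
  · intro v hv
    have h2 := Submodule.mem_map_of_mem
      (f := (mfderiv 𝓘(ℝ, V a) 𝓘(ℝ, V a) g x).toLinearMap) hv
    rw [h] at h2
    exact h2
  · intro w hw
    rw [← h] at hw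
    obtain ⟨v, hv, hvw⟩ := Submodule.mem_map.1 hw
    exact ⟨v, hv, hvw⟩

theorem sup_mem' {a : ℕ} {A : Type v} [TopologicalSpace A] [ChartedSpace (V a) A] {x : A}
    {E E' : Submodule ℝ (TangentSpace 𝓘(ℝ, V a) x)} (h : IsCompl E E')
    (v : TangentSpace 𝓘(ℝ, V a) x) : ∃ s t : V a, s ∈ E ∧ t ∈ E' ∧ s + t = v := by
  have h1 : v ∈ E ⊔ E' := by
    rw [h.sup_eq_top]
    exact Submodule.mem_top
  obtain ⟨s, hs, t, ht, hst⟩ := Submodule.mem_sup.1 h1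
  exact ⟨s, t, hs, ht, hst⟩

/-- the sum of two fields of subspaces -/
noncomputable def sumF (Θ : ProdDiffeo m k n M Y N) (E₁ : ∀ x : M, Submodule ℝ (TangentSpace 𝓘(ℝ, V m) x))
    (E₂ : ∀ x : Y, Submodule ℝ (TangentSpace 𝓘(ℝ, V k) x)) (z : N) :
    Submodule ℝ (TangentSpace 𝓘(ℝ, V n) z) :=
  ((Submodule.comap (dp n m (pr₁ Θ) z : V n →ₗ[ℝ] V m) (E₁ (pr₁ Θ z) : Submodule ℝ (V m))) ⊓
    (Submodule.comap (dp n k (pr₂ Θ) z : V n →ₗ[ℝ] V k) (E₂ (pr₂ Θ z) : Submodule ℝ (V k))) :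
      Submodule ℝ (V n))

theorem mem_sumF {E₁ : ∀ x : M, Submodule ℝ (TangentSpace 𝓘(ℝ, V m) x)}
    {E₂ : ∀ x : Y, Submodule ℝ (TangentSpace 𝓘(ℝ, V k) x)} {z : N} {v : V n} :
    v ∈ sumF Θ E₁ E₂ z ↔ dp n m (pr₁ Θ) z v ∈ E₁ (pr₁ Θ z) ∧ dp n k (pr₂ Θ) z v ∈ E₂ (pr₂ Θ z) :=
  Iff.rfl

theorem field_congr {a : ℕ} {A : Type v} [TopologicalSpace A] [ChartedSpace (V a) A]
    {E₁ : ∀ x : A, Submodule ℝ (TangentSpace 𝓘(ℝ, V a) x)} {x x' : A} (hx : x = x') (v : V a) :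
    v ∈ E₁ x ↔ v ∈ E₁ x' := by
  subst hx
  rfl

theorem inv_sum (hf : ContMDiff 𝓘(ℝ, V m) 𝓘(ℝ, V m) 1 f) (hh : ContMDiff 𝓘(ℝ, V k) 𝓘(ℝ, V k) 1 h)
    (hFs : ContMDiff 𝓘(ℝ, V n) 𝓘(ℝ, V n) 1 F) (hF : ∀ x y, F (Θ (x, y)) = Θ (f x, h y))
    {Λ₁ : Set M} {Λ₂ : Set Y} {E₁ : ∀ x : M, Submodule ℝ (TangentSpace 𝓘(ℝ, V m) x)}
    {E₂ : ∀ x : Y, Submodule ℝ (TangentSpace 𝓘(ℝ, V k) x)}
    (h₁ : Q263.HS.InvOn f Λ₁ E₁) (h₂ : Q263.HS.InvOn h Λ₂ E₂) :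
    Q263.HS.InvOn F {z | pr₁ Θ z ∈ Λ₁ ∧ pr₂ Θ z ∈ Λ₂} (sumF Θ E₁ E₂) := by
  rintro z ⟨hz₁, hz₂⟩
  have e₁ : ∀ v : V n, dp n m (pr₁ Θ) (F z) (dp n n F z v) =
      dp m m f (pr₁ Θ z) (dp n m (pr₁ Θ) z v) := by
    intro v
    rw [← dp_comp hFs (pr₁_smooth Θ), ← dp_comp (pr₁_smooth Θ) hf]
    have := pr₁_iter hF 1
    rw [Function.iterate_one, Function.iterate_one] at this
    rw [this]
  have e₂ : ∀ v : V n, dp n k (pr₂ Θ) (F z) (dp n n F z v) =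
      dp k k h (pr₂ Θ z) (dp n k (pr₂ Θ) z v) := by
    intro v
    rw [← dp_comp hFs (pr₂_smooth Θ), ← dp_comp (pr₂_smooth Θ) hh]
    have := pr₂_iter hF 1
    rw [Function.iterate_one, Function.iterate_one] at this
    rw [this]
  have i₁ := inv_mem h₁ hz₁
  have i₂ := inv_mem h₂ hz₂
  apply le_antisymm
  · intro w hw
    obtain ⟨v, hv, hvw⟩ := Submodule.mem_map.1 hw
    rw [← hvw]
    obtain ⟨hv₁, hv₂⟩ := mem_sumF.1 hv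
    refine mem_sumF.2 ⟨?_, ?_⟩
    · have h3 : dp n m (pr₁ Θ) (F z) (dp n n F z v) ∈ E₁ (f (pr₁ Θ z)) := by
        rw [e₁]
        exact i₁.1 _ hv₁
      exact (field_congr (pr₁_F hF z) _).2 h3
    · have h3 : dp n k (pr₂ Θ) (F z) (dp n n F z v) ∈ E₂ (h (pr₂ Θ z)) := by
        rw [e₂]
        exact i₂.1 _ hv₂
      exact (field_congr (pr₂_F hF z) _).2 h3
  · intro w hw
    obtain ⟨hw₁, hw₂⟩ := mem_sumF.1 hw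
    have hw₁' := (field_congr (pr₁_F hF z) _).1 hw₁
    have hw₂' := (field_congr (pr₂_F hF z) _).1 hw₂
    obtain ⟨a, ha, haw⟩ := i₁.2 _ hw₁'
    obtain ⟨b, hb, hbw⟩ := i₂.2 _ hw₂'
    obtain ⟨v, hv⟩ := (dpair_bij Θ z).2 (a, b)
    have hva : dp n m (pr₁ Θ) z v = a := congrArg Prod.fst hv
    have hvb : dp n k (pr₂ Θ) z v = b := congrArg Prod.snd hv
    refine Submodule.mem_map.2 ⟨v, mem_sumF.2 ⟨by rw [hva]; exact ha, by rw [hvb]; exact hb⟩, ?_⟩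
    apply (dpair_bij Θ (F z)).1
    refine Prod.ext ?_ ?_
    · have := e₁ v
      rw [hva] at this
      exact this.trans haw
    · have := e₂ v
      rw [hvb] at this
      exact this.trans hbw

/-- the sum of two norms -/
noncomputable def sumN (Θ : ProdDiffeo m k n M Y N) (N₁ : TangentBundle 𝓘(ℝ, V m) M → ℝ)
    (N₂ : TangentBundle 𝓘(ℝ, V k) Y → ℝ) (q : TangentBundle 𝓘(ℝ, V n) N) : ℝ :=
  N₁ (tangentMap 𝓘(ℝ, V n) 𝓘(ℝ, V m) (pr₁ Θ) q) + N₂ (tangentMap 𝓘(ℝ, V n) 𝓘(ℝ, V k) (pr₂ Θ) q)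

theorem tn_zero {a : ℕ} {A : Type v} [TopologicalSpace A] [ChartedSpace (V a) A]
    [IsManifold 𝓘(ℝ, V a) 1 A] {Nm : TangentBundle 𝓘(ℝ, V a) A → ℝ} (hN : IsTangentNorm Nm)
    (x : A) (v : TangentSpace 𝓘(ℝ, V a) x) : 0 ≤ Nm ⟨x, v⟩ := by
  by_cases hv : v = 0
  · have h1 := hN.smul x 0 v
    rw [zero_smul, abs_zero, zero_mul] at h1
    rw [hv, h1]
  · exact (hN.pos x v hv).le

theorem norm_sum {N₁ : TangentBundle 𝓘(ℝ, V m) M → ℝ} {N₂ : TangentBundle 𝓘(ℝ, V k) Y → ℝ}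
    (h₁ : IsTangentNorm N₁) (h₂ : IsTangentNorm N₂) : IsTangentNorm (sumN Θ N₁ N₂) where
  continuous := by
    have c₁ : Continuous (tangentMap 𝓘(ℝ, V n) 𝓘(ℝ, V m) (pr₁ Θ)) :=
      (pr₁_smooth Θ).continuous_tangentMap le_rfl
    have c₂ : Continuous (tangentMap 𝓘(ℝ, V n) 𝓘(ℝ, V k) (pr₂ Θ)) :=
      (pr₂_smooth Θ).continuous_tangentMap le_rfl
    exact (h₁.continuous.comp c₁).add (h₂.continuous.comp c₂)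
  pos := fun z v hv => by
    have hne : dp n m (pr₁ Θ) z v ≠ 0 ∨ dp n k (pr₂ Θ) z v ≠ 0 := by
      by_contra hcon
      push Not at hcon
      apply hv
      apply (dpair_bij Θ z).1
      refine Prod.ext ?_ ?_
      · exact hcon.1.trans (map_zero (dp n m (pr₁ Θ) z)).symm
      · exact hcon.2.trans (map_zero (dp n k (pr₂ Θ) z)).symm
    show 0 < N₁ ⟨pr₁ Θ z, dp n m (pr₁ Θ) z v⟩ + N₂ ⟨pr₂ Θ z, dp n k (pr₂ Θ) z v⟩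
    rcases hne with hne | hne
    · exact add_pos_of_pos_of_nonneg (h₁.pos _ _ hne) (tn_zero h₂ _ _)
    · exact add_pos_of_nonneg_of_pos (tn_zero h₁ _ _) (h₂.pos _ _ hne)
  smul := fun z c v => by
    have h : ∀ v : V n, N₁ ⟨pr₁ Θ z, dp n m (pr₁ Θ) z (c • v)⟩ +
        N₂ ⟨pr₂ Θ z, dp n k (pr₂ Θ) z (c • v)⟩ =
        |c| * (N₁ ⟨pr₁ Θ z, dp n m (pr₁ Θ) z v⟩ + N₂ ⟨pr₂ Θ z, dp n k (pr₂ Θ) z v⟩) := by
      intro v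
      rw [map_smul, map_smul, mul_add]
      exact congrArg₂ (· + ·) (h₁.smul _ c _) (h₂.smul _ c _)
    exact h v
  add := fun z v w => by
    have h : ∀ v w : V n, N₁ ⟨pr₁ Θ z, dp n m (pr₁ Θ) z (v + w)⟩ +
        N₂ ⟨pr₂ Θ z, dp n k (pr₂ Θ) z (v + w)⟩ ≤
        (N₁ ⟨pr₁ Θ z, dp n m (pr₁ Θ) z v⟩ + N₂ ⟨pr₂ Θ z, dp n k (pr₂ Θ) z v⟩) +
        (N₁ ⟨pr₁ Θ z, dp n m (pr₁ Θ) z w⟩ + N₂ ⟨pr₂ Θ z, dp n k (pr₂ Θ) z w⟩) := by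
      intro v w
      rw [map_add, map_add]
      have a₁ := h₁.add (pr₁ Θ z) (dp n m (pr₁ Θ) z v) (dp n m (pr₁ Θ) z w)
      have a₂ := h₂.add (pr₂ Θ z) (dp n k (pr₂ Θ) z v) (dp n k (pr₂ Θ) z w)
      calc _ ≤ _ := add_le_add a₁ a₂
        _ = _ := by ring
    exact h v w

theorem tm_iter₁ (hf : ContMDiff 𝓘(ℝ, V m) 𝓘(ℝ, V m) 1 f)
    (hFs : ContMDiff 𝓘(ℝ, V n) 𝓘(ℝ, V n) 1 F) (hF : ∀ x y, F (Θ (x, y)) = Θ (f x, h y)) (l : ℕ)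
    (q : TangentBundle 𝓘(ℝ, V n) N) :
    tangentMap 𝓘(ℝ, V n) 𝓘(ℝ, V m) (pr₁ Θ) (tangentMap 𝓘(ℝ, V n) 𝓘(ℝ, V n) (F^[l]) q) =
      tangentMap 𝓘(ℝ, V m) 𝓘(ℝ, V m) (f^[l]) (tangentMap 𝓘(ℝ, V n) 𝓘(ℝ, V m) (pr₁ Θ) q) := by
  have h1 : MDifferentiable 𝓘(ℝ, V n) 𝓘(ℝ, V n) (F^[l]) :=
    (iter_smooth F hFs l).mdifferentiable (by norm_num)
  have h2 : MDifferentiable 𝓘(ℝ, V m) 𝓘(ℝ, V m) (f^[l]) :=
    (iter_smooth f hf l).mdifferentiable (by norm_num)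
  have h3 : MDifferentiable 𝓘(ℝ, V n) 𝓘(ℝ, V m) (pr₁ Θ) :=
    (pr₁_smooth Θ).mdifferentiable (by norm_num)
  have h4 := tangentMap_comp h3 h1
  have h5 := tangentMap_comp h2 h3
  rw [pr₁_iter hF, h5] at h4
  exact (congrFun h4 q).symm

theorem tm_iter₂ (hh : ContMDiff 𝓘(ℝ, V k) 𝓘(ℝ, V k) 1 h)
    (hFs : ContMDiff 𝓘(ℝ, V n) 𝓘(ℝ, V n) 1 F) (hF : ∀ x y, F (Θ (x, y)) = Θ (f x, h y)) (l : ℕ)
    (q : TangentBundle 𝓘(ℝ, V n) N) :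
    tangentMap 𝓘(ℝ, V n) 𝓘(ℝ, V k) (pr₂ Θ) (tangentMap 𝓘(ℝ, V n) 𝓘(ℝ, V n) (F^[l]) q) =
      tangentMap 𝓘(ℝ, V k) 𝓘(ℝ, V k) (h^[l]) (tangentMap 𝓘(ℝ, V n) 𝓘(ℝ, V k) (pr₂ Θ) q) := by
  have h1 : MDifferentiable 𝓘(ℝ, V n) 𝓘(ℝ, V n) (F^[l]) :=
    (iter_smooth F hFs l).mdifferentiable (by norm_num)
  have h2 : MDifferentiable 𝓘(ℝ, V k) 𝓘(ℝ, V k) (h^[l]) :=
    (iter_smooth h hh l).mdifferentiable (by norm_num)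
  have h3 : MDifferentiable 𝓘(ℝ, V n) 𝓘(ℝ, V k) (pr₂ Θ) :=
    (pr₂_smooth Θ).mdifferentiable (by norm_num)
  have h4 := tangentMap_comp h3 h1
  have h5 := tangentMap_comp h2 h3
  rw [pr₂_iter hF, h5] at h4
  exact (congrFun h4 q).symm

theorem rate_sum (hf : ContMDiff 𝓘(ℝ, V m) 𝓘(ℝ, V m) 1 f) (hh : ContMDiff 𝓘(ℝ, V k) 𝓘(ℝ, V k) 1 h)
    (hFs : ContMDiff 𝓘(ℝ, V n) 𝓘(ℝ, V n) 1 F) (hF : ∀ x y, F (Θ (x, y)) = Θ (f x, h y))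
    {N₁ : TangentBundle 𝓘(ℝ, V m) M → ℝ} {N₂ : TangentBundle 𝓘(ℝ, V k) Y → ℝ}
    (n₁ : IsTangentNorm N₁) (n₂ : IsTangentNorm N₂)
    {Λ₁ : Set M} {Λ₂ : Set Y} {E₁ : ∀ x : M, Submodule ℝ (TangentSpace 𝓘(ℝ, V m) x)}
    {E₂ : ∀ x : Y, Submodule ℝ (TangentSpace 𝓘(ℝ, V k) x)} {C₁ a₁ C₂ a₂ C a : ℝ}
    (h₁ : Q263.HS.RateOn f Λ₁ N₁ E₁ C₁ a₁) (h₂ : Q263.HS.RateOn h Λ₂ N₂ E₂ C₂ a₂)
    (ha₁ : 0 ≤ a₁) (ha₂ : 0 ≤ a₂) (ha₁' : a₁ ≤ a) (ha₂' : a₂ ≤ a) (hC : 0 ≤ C) (hC₁ : C₁ ≤ C)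
    (hC₂ : C₂ ≤ C) :
    Q263.HS.RateOn F {z | pr₁ Θ z ∈ Λ₁ ∧ pr₂ Θ z ∈ Λ₂} (sumN Θ N₁ N₂) (sumF Θ E₁ E₂) C a := by
  rintro l z ⟨hz₁, hz₂⟩ v hv
  obtain ⟨hv₁, hv₂⟩ := mem_sumF.1 hv
  have r₁ := h₁ l _ hz₁ _ hv₁
  have r₂ := h₂ l _ hz₂ _ hv₂
  unfold sumN
  rw [tm_iter₁ hf hFs hF, tm_iter₂ hh hFs hF]
  have p₁ : (0 : ℝ) ≤ N₁ ⟨pr₁ Θ z, dp n m (pr₁ Θ) z v⟩ := tn_zero n₁ _ _
  have p₂ : (0 : ℝ) ≤ N₂ ⟨pr₂ Θ z, dp n k (pr₂ Θ) z v⟩ := tn_zero n₂ _ _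
  have q₁ : C₁ * a₁ ^ l ≤ C * a ^ l := by
    have := pow_le_pow_left₀ ha₁ ha₁' l
    have h0 : 0 ≤ a₁ ^ l := pow_nonneg ha₁ l
    calc C₁ * a₁ ^ l ≤ C * a₁ ^ l := by gcongr
      _ ≤ C * a ^ l := by gcongr
  have q₂ : C₂ * a₂ ^ l ≤ C * a ^ l := by
    have := pow_le_pow_left₀ ha₂ ha₂' l
    have h0 : 0 ≤ a₂ ^ l := pow_nonneg ha₂ l
    calc C₂ * a₂ ^ l ≤ C * a₂ ^ l := by gcongr
      _ ≤ C * a ^ l := by gcongr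
  have s₁ : C₁ * a₁ ^ l * N₁ ⟨pr₁ Θ z, dp n m (pr₁ Θ) z v⟩ ≤
      C * a ^ l * N₁ ⟨pr₁ Θ z, dp n m (pr₁ Θ) z v⟩ := mul_le_mul_of_nonneg_right q₁ p₁
  have s₂ : C₂ * a₂ ^ l * N₂ ⟨pr₂ Θ z, dp n k (pr₂ Θ) z v⟩ ≤
      C * a ^ l * N₂ ⟨pr₂ Θ z, dp n k (pr₂ Θ) z v⟩ := mul_le_mul_of_nonneg_right q₂ p₂
  calc _ ≤ _ := add_le_add (r₁.trans s₁) (r₂.trans s₂)
    _ = C * a ^ l * (N₁ ⟨pr₁ Θ z, dp n m (pr₁ Θ) z v⟩ + N₂ ⟨pr₂ Θ z, dp n k (pr₂ Θ) z v⟩) := by ring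

theorem cont_sum {Λ₁ : Set M} {Λ₂ : Set Y} {E₁ : ∀ x : M, Submodule ℝ (TangentSpace 𝓘(ℝ, V m) x)}
    {E₂ : ∀ x : Y, Submodule ℝ (TangentSpace 𝓘(ℝ, V k) x)}
    (h₁ : Q263.HS.ContOn Λ₁ E₁) (h₂ : Q263.HS.ContOn Λ₂ E₂) :
    Q263.HS.ContOn {z | pr₁ Θ z ∈ Λ₁ ∧ pr₂ Θ z ∈ Λ₂} (sumF Θ E₁ E₂) := by
  have c₁ : Continuous (tangentMap 𝓘(ℝ, V n) 𝓘(ℝ, V m) (pr₁ Θ)) :=
    (pr₁_smooth Θ).continuous_tangentMap le_rfl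
  have c₂ : Continuous (tangentMap 𝓘(ℝ, V n) 𝓘(ℝ, V k) (pr₂ Θ)) :=
    (pr₂_smooth Θ).continuous_tangentMap le_rfl
  have h3 := (IsClosed.preimage c₁ h₁).inter (IsClosed.preimage c₂ h₂)
  have e1 : {p : TangentBundle 𝓘(ℝ, V n) N | p.1 ∈ {z | pr₁ Θ z ∈ Λ₁ ∧ pr₂ Θ z ∈ Λ₂} ∧
      p.2 ∈ sumF Θ E₁ E₂ p.1} =
      (tangentMap 𝓘(ℝ, V n) 𝓘(ℝ, V m) (pr₁ Θ)) ⁻¹'
        {p : TangentBundle 𝓘(ℝ, V m) M | p.1 ∈ Λ₁ ∧ p.2 ∈ E₁ p.1} ∩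
      (tangentMap 𝓘(ℝ, V n) 𝓘(ℝ, V k) (pr₂ Θ)) ⁻¹'
        {p : TangentBundle 𝓘(ℝ, V k) Y | p.1 ∈ Λ₂ ∧ p.2 ∈ E₂ p.1} := by
    ext p
    constructor
    · rintro ⟨⟨h1, h2⟩, h4⟩
      exact ⟨⟨h1, h4.1⟩, ⟨h2, h4.2⟩⟩
    · rintro ⟨⟨h1, h4⟩, ⟨h2, h5⟩⟩
      exact ⟨⟨h1, h2⟩, ⟨h4, h5⟩⟩
  unfold Q263.HS.ContOn
  rw [e1]
  exact h3

theorem compl_sum {E₁ E₁' : ∀ x : M, Submodule ℝ (TangentSpace 𝓘(ℝ, V m) x)}
    {E₂ E₂' : ∀ x : Y, Submodule ℝ (TangentSpace 𝓘(ℝ, V k) x)} {z : N}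
    (h₁ : IsCompl (E₁ (pr₁ Θ z)) (E₁' (pr₁ Θ z))) (h₂ : IsCompl (E₂ (pr₂ Θ z)) (E₂' (pr₂ Θ z))) :
    IsCompl (sumF Θ E₁ E₂ z) (sumF Θ E₁' E₂' z) := by
  constructor
  · rw [Submodule.disjoint_def]
    intro v hv hv'
    obtain ⟨a₁, a₂⟩ := mem_sumF.1 hv
    obtain ⟨b₁, b₂⟩ := mem_sumF.1 hv'
    have d₁ := (Submodule.disjoint_def.1 h₁.disjoint) _ a₁ b₁
    have d₂ := (Submodule.disjoint_def.1 h₂.disjoint) _ a₂ b₂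
    apply (dpair_bij Θ z).1
    refine Prod.ext ?_ ?_
    · exact d₁.trans (map_zero (dp n m (pr₁ Θ) z)).symm
    · exact d₂.trans (map_zero (dp n k (pr₂ Θ) z)).symm
  · rw [codisjoint_iff, eq_top_iff]
    intro v _
    obtain ⟨a₁, b₁, ha₁, hb₁, hab₁⟩ := sup_mem' h₁ (dp n m (pr₁ Θ) z v)
    obtain ⟨a₂, b₂, ha₂, hb₂, hab₂⟩ := sup_mem' h₂ (dp n k (pr₂ Θ) z v)
    obtain ⟨a, ha⟩ := (dpair_bij Θ z).2 (a₁, a₂)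
    obtain ⟨b, hb⟩ := (dpair_bij Θ z).2 (b₁, b₂)
    have x₁ : dp n m (pr₁ Θ) z a = a₁ := congrArg Prod.fst ha
    have x₂ : dp n k (pr₂ Θ) z a = a₂ := congrArg Prod.snd ha
    have y₁ : dp n m (pr₁ Θ) z b = b₁ := congrArg Prod.fst hb
    have y₂ : dp n k (pr₂ Θ) z b = b₂ := congrArg Prod.snd hb
    refine Submodule.mem_sup.2 ⟨a, mem_sumF.2 ⟨by rw [x₁]; exact ha₁, by rw [x₂]; exact ha₂⟩, b,
      mem_sumF.2 ⟨by rw [y₁]; exact hb₁, by rw [y₂]; exact hb₂⟩, ?_⟩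
    apply (dpair_bij Θ z).1
    refine Prod.ext ?_ ?_
    · have := map_add (dp n m (pr₁ Θ) z) a b
      rw [x₁, y₁] at this
      exact this.trans hab₁
    · have := map_add (dp n k (pr₂ Θ) z) a b
      rw [x₂, y₂] at this
      exact this.trans hab₂

end

section final

variable {m k n : ℕ} {M : Type v} [TopologicalSpace M] [ChartedSpace (V m) M]
  [IsManifold (𝓡 m) ∞ M]
  {Y : Type w} [TopologicalSpace Y] [ChartedSpace (V k) Y] [IsManifold (𝓡 k) ∞ Y]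
  {N : Type u} [TopologicalSpace N] [ChartedSpace (V n) N] [IsManifold (𝓡 n) ∞ N]

/-- **Products of hyperbolic sets are hyperbolic.** -/
theorem hyp_prod {Θ : ProdDiffeo m k n M Y N} {f : M ≃ₜ M} {h : Y ≃ₜ Y} {F : N ≃ₜ N}
    (hf : ContMDiff 𝓘(ℝ, V m) 𝓘(ℝ, V m) 1 f) (hf' : ContMDiff 𝓘(ℝ, V m) 𝓘(ℝ, V m) 1 f.symm)
    (hh : ContMDiff 𝓘(ℝ, V k) 𝓘(ℝ, V k) 1 h) (hh' : ContMDiff 𝓘(ℝ, V k) 𝓘(ℝ, V k) 1 h.symm)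
    (hFs : ContMDiff 𝓘(ℝ, V n) 𝓘(ℝ, V n) 1 F) (hFs' : ContMDiff 𝓘(ℝ, V n) 𝓘(ℝ, V n) 1 F.symm)
    (hF : ∀ x y, F (Θ (x, y)) = Θ (f x, h y)) {Λ₁ : Set M} {Λ₂ : Set Y}
    (h₁ : Q263.HS.IsHyp (V m) f Λ₁) (h₂ : Q263.HS.IsHyp (V k) h Λ₂) :
    Q263.HS.IsHyp (V n) F {z | pr₁ Θ z ∈ Λ₁ ∧ pr₂ Θ z ∈ Λ₂} := by
  obtain ⟨N₁, Es₁, Eu₁, C₁, a₁, H₁⟩ := h₁
  obtain ⟨N₂, Es₂, Eu₂, C₂, a₂, H₂⟩ := h₂
  have hF' : ∀ x y, F.symm (Θ (x, y)) = Θ (f.symm x, h.symm y) := by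
    intro x y
    rw [Homeomorph.symm_apply_eq, hF, Homeomorph.apply_symm_apply, Homeomorph.apply_symm_apply]
  have hC₁ : C₁ ≤ max 0 (max C₁ C₂) := (le_max_left _ _).trans (le_max_right _ _)
  have hC₂ : C₂ ≤ max 0 (max C₁ C₂) := (le_max_right _ _).trans (le_max_right _ _)
  refine ⟨sumN Θ N₁ N₂, sumF Θ Es₁ Es₂, sumF Θ Eu₁ Eu₂, max 0 (max C₁ C₂), max a₁ a₂, {
    norm := norm_sum H₁.norm H₂.norm
    closed := ?_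
    inv := ?_
    a_pos := lt_max_of_lt_left H₁.a_pos
    a_lt := max_lt H₁.a_lt H₂.a_lt
    map_s := inv_sum hf hh hFs hF H₁.map_s H₂.map_s
    map_u := inv_sum hf hh hFs hF H₁.map_u H₂.map_u
    rate_s := rate_sum hf hh hFs hF H₁.norm H₂.norm H₁.rate_s H₂.rate_s H₁.a_pos.le H₂.a_pos.le
      (le_max_left _ _) (le_max_right _ _) (le_max_left _ _) hC₁ hC₂
    rate_u := rate_sum hf' hh' hFs' hF' H₁.norm H₂.norm H₁.rate_u H₂.rate_u H₁.a_pos.le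
      H₂.a_pos.le (le_max_left _ _) (le_max_right _ _) (le_max_left _ _) hC₁ hC₂
    compl := fun z hz => compl_sum (H₁.compl _ hz.1) (H₂.compl _ hz.2)
    cont_s := cont_sum H₁.cont_s H₂.cont_s
    cont_u := cont_sum H₁.cont_u H₂.cont_u }⟩
  · exact (H₁.closed.preimage (pr₁_smooth Θ).continuous).inter
      (H₂.closed.preimage (pr₂_smooth Θ).continuous)
  · apply Subset.antisymm
    · rintro _ ⟨z, ⟨hz₁, hz₂⟩, rfl⟩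
      refine ⟨?_, ?_⟩
      · show pr₁ Θ (F z) ∈ Λ₁
        rw [pr₁_F hF, ← H₁.inv]
        exact mem_image_of_mem _ hz₁
      · show pr₂ Θ (F z) ∈ Λ₂
        rw [pr₂_F hF, ← H₂.inv]
        exact mem_image_of_mem _ hz₂
    · rintro z ⟨hz₁, hz₂⟩
      have g₁ : pr₁ Θ z ∈ f '' Λ₁ := by rw [H₁.inv]; exact hz₁
      have g₂ : pr₂ Θ z ∈ h '' Λ₂ := by rw [H₂.inv]; exact hz₂
      obtain ⟨x, hx, hxz⟩ := g₁
      obtain ⟨y, hy, hyz⟩ := g₂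
      refine ⟨Θ (x, y), ⟨?_, ?_⟩, ?_⟩
      · show pr₁ Θ (Θ (x, y)) ∈ Λ₁
        rw [pr₁_Θ]
        exact hx
      · show pr₂ Θ (Θ (x, y)) ∈ Λ₂
        rw [pr₂_Θ]
        exact hy
      · rw [hF, hxz, hyz, Θ_pr]

end final

end Pool.Agent.H245.SH
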