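import Pool.Agent.H245.SH.R1
import Pool.Graph.R_seed8.W806.SC.EX2
import Pool.Graph.R_seed8.W366.SC.EX1

/-!
# High powers of hyperbolic automorphisms of tori are rich
-/

set_option autoImplicit false

open Filter Set Metric
open scoped Topology

namespace Pool.Agent.H245.SH

open Pool.Agent.W564.SC

theorem rich_toral (W : Type) [NormedAddCommGroup W] [NormedSpace ℝ W] [FiniteDimensional ℝ W]
    [Nontrivial W] (Λ : AddSubgroup W) [DiscreteTopology Λ] [IsClosed (Λ : Set W)]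
    (hC : ∃ C : ℝ, ∀ z : W, ∃ u ∈ Λ, ‖z - u‖ ≤ C) (L : W ≃L[ℝ] W)
    (hL : Pool.Agent.H922R3.CL.IsHypLin L) (hΛ : ∀ u, u ∈ Λ ↔ L u ∈ Λ)
    (h : (W ⧸ Λ) ≃ₜ (W ⧸ Λ)) (hh : ∀ z : W, h (QuotientAddGroup.mk z) = QuotientAddGroup.mk (L z))
    (S : ℕ) : ∃ q₀ : ℕ, ∀ q, q₀ ≤ q → Rich S (h^[q]) univ := by
  obtain ⟨h1, h2⟩ := Pool.Agent.W806.SC.ex2 Pool.Agent.W366.SC.ex1 W Λ hC L hL hΛ h hh
  have hc : CompactSpace (W ⧸ Λ) := Pool.Agent.W806.SC.comp hC
  have hconn : PreconnectedSpace (W ⧸ Λ) := Pool.Agent.W806.SC.conn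
  have hne : ∃ z : W, z ∉ Λ := by
    by_contra hcon
    push Not at hcon
    have h3 : IsOpen ({0} : Set Λ) := isOpen_discrete _
    rw [isOpen_induced_iff] at h3
    obtain ⟨O, hO, hO'⟩ := h3
    have h4 : O = {0} := by
      ext z
      constructor
      · intro hz
        have : (⟨z, hcon z⟩ : Λ) ∈ Subtype.val ⁻¹' O := hz
        rw [hO'] at this
        exact congrArg Subtype.val this
      · intro hz
        have h5 : (0 : Λ) ∈ (Subtype.val ⁻¹' O : Set Λ) := by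
          rw [hO']
          rfl
        rw [mem_singleton_iff.1 hz]
        exact h5
    rw [h4] at hO
    exact (not_isOpen_singleton (0 : W)) hO
  obtain ⟨z, hz⟩ := hne
  have hnt : Nontrivial (W ⧸ Λ) := ⟨⟨QuotientAddGroup.mk z, 0, fun h0 =>
    hz ((QuotientAddGroup.eq_zero_iff z).1 h0)⟩⟩
  have hinf : Infinite (W ⧸ Λ) := by
    rw [← Set.infinite_univ_iff]
    exact isPreconnected_univ.infinite_of_nontrivial Set.nontrivial_univ
  exact rich_pow h1 h2 S

end Pool.Agent.H245.SH
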