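import Pool.Agent.H245.SH.P2

/-!
# Products with a rich factor: the first factor satisfies Axiom A
-/

set_option autoImplicit false
set_option linter.unusedSectionVars false

open scoped Manifold ContDiff Topology NNReal
open Filter Set Metric

universe u v w

namespace Pool.Agent.H245.SH

open Pool.Agent.H718R2.G Pool.Agent.W564.SC Pool.Agent.TH80.OMS Pool.Agent.Y271.CP
  Pool.Agent.Y504.CO

variable {m : ℕ} {M : Type v} [MetricSpace M] [CompactSpace M] [ChartedSpace (V m) M]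
  [IsManifold (𝓡 m) ∞ M]

theorem hyp_of_star (A : FAtlas m M) {r : ℕ∞} (hr : 2 ≤ r) (f : DiffM m M r) {ε : ℝ} (hε : 0 < ε)
    (hstar : Star A f ε) : Q263.HS.IsHyp (V m) f.toHomeomorph
      (Pool.Agent.H728R2.OS.ChainRec f.toHomeomorph) := by
  obtain ⟨c, hc, hA, δ, C₀, hδ, hδ1, hyp⟩ := exists_coc A hr f hε hstar
  exact isHyp_of_coc A (le_trans (by norm_num) hr) f (chainRec_closed _) (chainRec_image _) c
    (fun x => by rw [hc]; rfl) hA hδ hδ1 hyp

theorem axiomA_of_hyp {r : ℕ∞} (hr : 1 ≤ r) (f : DiffM m M r)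
    (h : Q263.HS.IsHyp (V m) f.toHomeomorph (Pool.Agent.H728R2.OS.ChainRec f.toHomeomorph)) :
    Q263.HS.AxiomA (V m) f.toHomeomorph ∧ Pool.Agent.H728R2.OS.NoCycle f.toHomeomorph ∧
    Pool.Agent.H728R2.OS.ChainRec f.toHomeomorph =
      Pool.Agent.H728R2.OS.Omega f.toHomeomorph :=
  Q263.HS.chain_hyp Q263.HR.tr Pool.Agent.Q223.HS.fl Q263.HS.ang Pool.Agent.Q223.HS.cont
    Q263.HS.low Q263.HR.chain Q263.HS.crr f.toHomeomorph
    (f.contMDiff.of_le (by exact_mod_cast hr)) (f.symm.contMDiff.of_le (by exact_mod_cast hr)) h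
    (Subset.refl _)

theorem t1 {r : ℕ∞} (hr : 2 ≤ r) (f : DiffM m M r) :
    ∃ S : ℕ, ∀ (k n : ℕ) (Y : Type w) [TopologicalSpace Y] [T2Space Y] [SigmaCompactSpace Y]
      [ChartedSpace (V k) Y] [IsManifold (𝓡 k) ∞ Y] (h : Y → Y) (K : Set Y) (N : Type u)
      [TopologicalSpace N] [T2Space N] [CompactSpace N] [ChartedSpace (V n) N]
      [IsManifold (𝓡 n) ∞ N] (E : Emb m k n M Y N) (F : DiffM n N r), Rich S h K →
      (∀ x, ∀ y ∈ K, F (E.Θ (x, y)) = E.Θ (f x, h y)) → CStar n N r F →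
      Q263.HS.IsHyp (V m) f.toHomeomorph (Pool.Agent.H728R2.OS.ChainRec f.toHomeomorph) := by
  obtain ⟨A⟩ := exists_fatlas m M
  obtain ⟨S, hS⟩ := chain_star.{u, v, w} A hr f
  refine ⟨S, ?_⟩
  intro k n Y _ _ _ _ _ h K N _ _ _ _ _ E F hrich hF hst
  obtain ⟨ε, hε, hstar⟩ := hS k n Y h K N E F hrich hF hst
  exact hyp_of_star A hr f hε hstar

end Pool.Agent.H245.SH
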