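import Pool.Agent.H245.SH.E1

/-!
# Pushes over an open embedding of a product with a general base
-/

set_option autoImplicit false
set_option linter.unusedSectionVars false

open scoped Manifold ContDiff Topology NNReal
open Filter Set Metric

universe u v w

namespace Pool.Agent.H245.SH

open Pool.Agent.H718R2.G Pool.Agent.W564.SC Pool.Agent.TH80.OMS Pool.Agent.Y271.CP

/-- a diffeomorphism of `M × Z` onto an open subset of `N`, with an inverse map; `Z` is any manifold -/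
structure GEmb {E' : Type} [NormedAddCommGroup E'] [NormedSpace ℝ E'] {H' : Type}
    [TopologicalSpace H'] (m n : ℕ) (I' : ModelWithCorners ℝ E' H')
    (M : Type v) [TopologicalSpace M] [ChartedSpace (V m) M]
    (Z : Type w) [TopologicalSpace Z] [ChartedSpace H' Z]
    (N : Type u) [TopologicalSpace N] [ChartedSpace (V n) N] where
  Θ : M × Z → N
  Ψ : N → M × Z
  left : ∀ p, Ψ (Θ p) = p
  smooth : ContMDiff ((𝓡 m).prod I') (𝓡 n) ∞ Θ
  open_range : IsOpen (range Θ)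
  smooth' : ∀ p, ContMDiffAt (𝓡 n) ((𝓡 m).prod I') ∞ Ψ (Θ p)

section

variable {E' : Type} [NormedAddCommGroup E'] [NormedSpace ℝ E'] {H' : Type}
  [TopologicalSpace H'] {I' : ModelWithCorners ℝ E' H'}

theorem exists_gemb {m n : ℕ} {M : Type v} [TopologicalSpace M] [ChartedSpace (V m) M]
    {Z : Type w} [TopologicalSpace Z] [ChartedSpace H' Z]
    {N : Type u} [TopologicalSpace N] [ChartedSpace (V n) N] [Nonempty M] [Nonempty Z]
    {Θ : M × Z → N} (hΘ : IsLocalDiffeomorph ((𝓡 m).prod I') (𝓡 n) ∞ Θ)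
    (hinj : Function.Injective Θ) : ∃ E : GEmb m n I' M Z N, E.Θ = Θ := by
  have hleft : ∀ p, Function.invFun Θ (Θ p) = p := Function.leftInverse_invFun hinj
  refine ⟨⟨Θ, Function.invFun Θ, hleft, hΘ.contMDiff, hΘ.isOpen_range, fun p => ?_⟩, rfl⟩
  obtain ⟨Φ, hp, heq⟩ := hΘ p
  have h1 : Θ p ∈ Φ.target := by
    rw [heq hp]
    exact Φ.map_source hp
  have h2 : ContMDiffAt (𝓡 n) ((𝓡 m).prod I') ∞ Φ.symm (Θ p) :=
    Φ.contMDiffOn_invFun.contMDiffAt (Φ.open_target.mem_nhds h1)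
  refine h2.congr_of_eventuallyEq ?_
  filter_upwards [Φ.open_target.mem_nhds h1] with z hz
  have h3 : Φ.invFun z ∈ Φ.source := Φ.map_target hz
  have h4 : Θ (Φ.invFun z) = z := by
    rw [heq h3]
    exact Φ.right_inv hz
  show Function.invFun Θ z = Φ.invFun z
  conv_lhs => rw [← h4]
  exact hleft _

end

section push

variable {E' : Type} [NormedAddCommGroup E'] [NormedSpace ℝ E'] {H' : Type}
  [TopologicalSpace H'] {I' : ModelWithCorners ℝ E' H'}
  {P : Type} [NormedAddCommGroup P] [NormedSpace ℝ P]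
  {m n : ℕ} {M : Type v} [TopologicalSpace M] [T2Space M] [CompactSpace M] [ChartedSpace (V m) M]
  [IsManifold (𝓡 m) ∞ M]
  {Z : Type w} [TopologicalSpace Z] [ChartedSpace H' Z]
  {N : Type u} [TopologicalSpace N] [T2Space N] [ChartedSpace (V n) N]

open Classical in
/-- push in the first factor, with the parameter `Φ y p` -/
noncomputable def gpush (E : GEmb m n I' M Z N) {j : ℕ} (χ : OpenPartialHomeomorph M (V m))
    (F : V j × V m → V m) (Φ : Z → P →L[ℝ] V j) (p : P) (z : N) : N :=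
  if z ∈ range E.Θ then E.Θ (tr χ F (Φ (E.Ψ z).2 p) (E.Ψ z).1, (E.Ψ z).2) else z

theorem gpush_apply (E : GEmb m n I' M Z N) {j : ℕ} (χ : OpenPartialHomeomorph M (V m))
    (F : V j × V m → V m) (Φ : Z → P →L[ℝ] V j) (p : P) (x : M) (y : Z) :
    gpush E χ F Φ p (E.Θ (x, y)) = E.Θ (tr χ F (Φ y p) x, y) := by
  unfold gpush
  rw [if_pos (mem_range_self _), E.left]

theorem gpush_not (E : GEmb m n I' M Z N) {j : ℕ} (χ : OpenPartialHomeomorph M (V m))
    (F : V j × V m → V m) (Φ : Z → P →L[ℝ] V j) (p : P) {z : N} (hz : z ∉ range E.Θ) :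
    gpush E χ F Φ p z = z := by
  unfold gpush
  rw [if_neg hz]

theorem gpush_smooth (E : GEmb m n I' M Z N) {j : ℕ} {χ : OpenPartialHomeomorph M (V m)}
    {F F' : V j × V m → V m} (hF : LFam j m F F') (hs : ContMDiff ((𝓡 j).prod (𝓡 m)) (𝓡 m) ∞
      (fun q : V j × M => tr χ F q.1 q.2)) {Φ : Z → P →L[ℝ] V j}
    (hΦ : ContMDiff I' 𝓘(ℝ, P →L[ℝ] V j) ∞ Φ)
    {K : Set Z} (hK : IsCompact K) (hΦK : ∀ y, y ∉ K → Φ y = 0) :
    ContMDiff (𝓘(ℝ, P).prod (𝓡 n)) (𝓡 n) ∞ (fun q : P × N => gpush E χ F Φ q.1 q.2) := by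
  rintro ⟨p₀, z₀⟩
  by_cases hz : z₀ ∈ range E.Θ
  · have h0 : ContMDiffAt (𝓡 n) ((𝓡 m).prod I') ∞ E.Ψ z₀ := by
      obtain ⟨q, rfl⟩ := hz
      exact E.smooth' q
    have h1 : ContMDiffAt (𝓘(ℝ, P).prod (𝓡 n)) ((𝓡 m).prod I') ∞
        (fun q : P × N => E.Ψ q.2) (p₀, z₀) :=
      ContMDiffAt.comp (g := E.Ψ) (f := fun q : P × N => q.2) (p₀, z₀) h0 contMDiffAt_snd
    have h2 : ContMDiffAt (𝓘(ℝ, P).prod (𝓡 n)) (𝓡 m) ∞ (fun q : P × N => (E.Ψ q.2).1) (p₀, z₀) :=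
      contMDiffAt_fst.comp _ h1
    have h3 : ContMDiffAt (𝓘(ℝ, P).prod (𝓡 n)) I' ∞ (fun q : P × N => (E.Ψ q.2).2) (p₀, z₀) :=
      contMDiffAt_snd.comp _ h1
    have h4 : ContMDiffAt (𝓘(ℝ, P).prod (𝓡 n)) 𝓘(ℝ, P →L[ℝ] V j) ∞
        (fun q : P × N => Φ (E.Ψ q.2).2) (p₀, z₀) :=
      ContMDiffAt.comp (g := Φ) (f := fun q : P × N => (E.Ψ q.2).2) (p₀, z₀) hΦ.contMDiffAt h3
    have h6 : ContMDiffAt (𝓘(ℝ, P).prod (𝓡 n)) (𝓡 j) ∞
        (fun q : P × N => Φ (E.Ψ q.2).2 q.1) (p₀, z₀) := h4.clm_apply contMDiffAt_fst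
    have h7 : ContMDiffAt (𝓘(ℝ, P).prod (𝓡 n)) (𝓡 m) ∞
        (fun q : P × N => tr χ F (Φ (E.Ψ q.2).2 q.1) (E.Ψ q.2).1) (p₀, z₀) :=
      ContMDiffAt.comp (g := fun q : V j × M => tr χ F q.1 q.2)
        (f := fun q : P × N => (Φ (E.Ψ q.2).2 q.1, (E.Ψ q.2).1)) (p₀, z₀) hs.contMDiffAt
        (h6.prodMk h2)
    have h8 : ContMDiffAt (𝓘(ℝ, P).prod (𝓡 n)) (𝓡 n) ∞
        (fun q : P × N => E.Θ (tr χ F (Φ (E.Ψ q.2).2 q.1) (E.Ψ q.2).1, (E.Ψ q.2).2)) (p₀, z₀) :=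
      ContMDiffAt.comp (g := E.Θ)
        (f := fun q : P × N => (tr χ F (Φ (E.Ψ q.2).2 q.1) (E.Ψ q.2).1, (E.Ψ q.2).2)) (p₀, z₀)
        E.smooth.contMDiffAt (h7.prodMk h3)
    refine h8.congr_of_eventuallyEq ?_
    have h9 : ∀ᶠ q : P × N in 𝓝 (p₀, z₀), q.2 ∈ range E.Θ :=
      continuousAt_snd.eventually_mem (E.open_range.mem_nhds hz)
    filter_upwards [h9] with q hq
    show gpush E χ F Φ q.1 q.2 = _
    unfold gpush
    rw [if_pos hq]
  · have hC : IsCompact (E.Θ '' (univ ×ˢ K)) :=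
      (isCompact_univ.prod hK).image E.smooth.continuous
    have hz' : z₀ ∉ E.Θ '' (univ ×ˢ K) := fun h => hz (image_subset_range _ _ h)
    have h9 : ∀ᶠ q : P × N in 𝓝 (p₀, z₀), q.2 ∈ (E.Θ '' (univ ×ˢ K))ᶜ :=
      continuousAt_snd.eventually_mem (hC.isClosed.isOpen_compl.mem_nhds hz')
    have h10 : ContMDiffAt (𝓘(ℝ, P).prod (𝓡 n)) (𝓡 n) ∞ (fun q : P × N => q.2) (p₀, z₀) :=
      contMDiffAt_snd
    refine h10.congr_of_eventuallyEq ?_
    filter_upwards [h9] with q hq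
    show gpush E χ F Φ q.1 q.2 = q.2
    by_cases hq2 : q.2 ∈ range E.Θ
    · obtain ⟨⟨x, y⟩, hxy⟩ := hq2
      rw [← hxy, gpush_apply]
      have hy : y ∉ K := fun h => hq ⟨(x, y), ⟨mem_univ _, h⟩, hxy⟩
      rw [hΦK y hy, zero_apply, tr_zero hF]
    · exact gpush_not E χ F Φ q.1 hq2

theorem gpush_inv (E : GEmb m n I' M Z N) {j : ℕ} {χ : OpenPartialHomeomorph M (V m)}
    {F F' : V j × V m → V m} (h : ∀ p x, tr χ F' p (tr χ F p x) = x) (Φ : Z → P →L[ℝ] V j)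
    (p : P) (z : N) : gpush E χ F' Φ p (gpush E χ F Φ p z) = z := by
  by_cases hz : z ∈ range E.Θ
  · obtain ⟨⟨x, y⟩, rfl⟩ := hz
    rw [gpush_apply, gpush_apply, h]
  · rw [gpush_not E χ F Φ p hz, gpush_not E χ F' Φ p hz]

theorem gpush_isDF (E : GEmb m n I' M Z N) {j : ℕ} {χ : OpenPartialHomeomorph M (V m)} {z : M}
    (hg : GoodChart m M χ z) {F F' : V j × V m → V m} (hF : LFam j m F F')
    {Φ : Z → P →L[ℝ] V j} (hΦ : ContMDiff I' 𝓘(ℝ, P →L[ℝ] V j) ∞ Φ)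
    {K : Set Z} (hK : IsCompact K) (hΦK : ∀ y, y ∉ K → Φ y = 0) :
    IsDF n (gpush E χ F Φ) (gpush E χ F' Φ) := by
  obtain ⟨hA, hcl⟩ := good_closed hg
  have hs := tr_smooth hg.mem hA hcl hF.inv hF.smooth hF.supp
  have hs' := tr_smooth hg.mem hA hcl hF.inv' hF.smooth' hF.supp'
  have hF' : LFam j m F' F := by
    refine ⟨hF.smooth', hF.smooth, hF.inv', hF.inv, hF.supp', hF.supp, fun v => ?_⟩
    have := hF.inv 0 v
    rwa [hF.zero] at this
  refine ⟨gpush_smooth E hF hs hΦ hK hΦK, gpush_smooth E hF' hs' hΦ hK hΦK, fun p z => ?_,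
    fun p z => ?_, fun z => ?_⟩
  · exact gpush_inv E (tr_inv hA hF.inv hF.supp) Φ p z
  · exact gpush_inv E (tr_inv hA hF.inv' hF.supp') Φ p z
  · by_cases hz : z ∈ range E.Θ
    · obtain ⟨⟨x, y⟩, rfl⟩ := hz
      rw [gpush_apply, map_zero, tr_zero hF]
    · exact gpush_not E χ F Φ 0 hz

end push

/-- composition of pushes in charts -/
noncomputable def trs {ι : Type} {m j : ℕ} {M : Type v} [TopologicalSpace M]
    (χ : ι → OpenPartialHomeomorph M (V m)) (F : V j × V m → V m) (a : ι → V j) :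
    List ι → M → M
  | [], x => x
  | i :: l, x => tr (χ i) F (a i) (trs χ F a l x)

theorem trs_zero {ι : Type} {m j : ℕ} {M : Type v} [TopologicalSpace M] [T2Space M]
    [ChartedSpace (V m) M] [IsManifold (𝓡 m) ∞ M]
    {χ : ι → OpenPartialHomeomorph M (V m)} {F F' : V j × V m → V m} (hF : LFam j m F F')
    {a : ι → V j} (x : M) (l : List ι) (h : ∀ i ∈ l, a i = 0) : trs χ F a l x = x := by
  induction l with
  | nil => rfl
  | cons i l ih =>
    show tr (χ i) F (a i) (trs χ F a l x) = x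
    rw [ih fun i hi => h i (List.mem_cons_of_mem _ hi), h i List.mem_cons_self, tr_zero hF]

theorem trs_one {ι : Type} {m j : ℕ} {M : Type v} [TopologicalSpace M] [T2Space M]
    [ChartedSpace (V m) M] [IsManifold (𝓡 m) ∞ M]
    {χ : ι → OpenPartialHomeomorph M (V m)} {F F' : V j × V m → V m} (hF : LFam j m F F')
    {a : ι → V j} (x : M) {i₀ : ι} (h0 : ∀ i, i ≠ i₀ → a i = 0) (l : List ι) (hl : l.Nodup)
    (hi₀ : i₀ ∈ l) : trs χ F a l x = tr (χ i₀) F (a i₀) x := by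
  induction l with
  | nil => simp at hi₀
  | cons i l ih =>
    show tr (χ i) F (a i) (trs χ F a l x) = _
    rw [List.nodup_cons] at hl
    by_cases hi : i = i₀
    · subst hi
      rw [trs_zero hF x l fun i' hi' => h0 i' fun h => hl.1 (h ▸ hi')]
    · have hm : i₀ ∈ l := by
        rcases List.mem_cons.1 hi₀ with h | h
        · exact absurd h.symm hi
        · exact h
      rw [ih hl.2 hm, h0 i hi, tr_zero hF]

section many

variable {E' : Type} [NormedAddCommGroup E'] [NormedSpace ℝ E'] {H' : Type}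
  [TopologicalSpace H'] {I' : ModelWithCorners ℝ E' H'}
  {P : Type} [NormedAddCommGroup P] [NormedSpace ℝ P]
  {m n : ℕ} {M : Type v} [TopologicalSpace M] [T2Space M] [CompactSpace M] [ChartedSpace (V m) M]
  [IsManifold (𝓡 m) ∞ M]
  {Z : Type w} [TopologicalSpace Z] [ChartedSpace H' Z]
  {N : Type u} [TopologicalSpace N] [T2Space N] [ChartedSpace (V n) N] {ι : Type}

/-- Composition of pushes: on the slice over `y` it is the composition of the pushes in charts with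
the parameters `Φ i y p`. -/
theorem exists_gpushs (E : GEmb m n I' M Z N) {j : ℕ}
    {χ : ι → OpenPartialHomeomorph M (V m)} {z : ι → M} (hg : ∀ i, GoodChart m M (χ i) (z i))
    {F F' : V j × V m → V m} (hF : LFam j m F F')
    {Φ : ι → Z → P →L[ℝ] V j} (hΦ : ∀ i, ContMDiff I' 𝓘(ℝ, P →L[ℝ] V j) ∞ (Φ i))
    {K : ι → Set Z} (hK : ∀ i, IsCompact (K i)) (hΦK : ∀ i y, y ∉ K i → Φ i y = 0) (l : List ι) :
    ∃ H H' : P → N → N, IsDF n H H' ∧ ∀ p x y,
      H p (E.Θ (x, y)) = E.Θ (trs χ F (fun i => Φ i y p) l x, y) := by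
  induction l with
  | nil => exact ⟨_, _, IsDF.id, fun p x y => rfl⟩
  | cons i l ih =>
    obtain ⟨H, H', hH, hHa⟩ := ih
    refine ⟨_, _, hH.comp (gpush_isDF E (hg i) hF (hΦ i) (hK i) (hΦK i)), fun p x y => ?_⟩
    show gpush E (χ i) F (Φ i) p (H p (E.Θ (x, y))) = _
    rw [hHa, gpush_apply]
    rfl

end many

end Pool.Agent.H245.SH
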