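import Pool.Agent.H245.SH.U1
import Pool.Agent.H245.SH.B3

/-!
# Scaling about a point by pushes in charts
-/

set_option autoImplicit false
set_option linter.unusedSectionVars false

open scoped Manifold ContDiff Topology NNReal
open Filter Set Metric

universe u v w

namespace Pool.Agent.H245.SH

open Pool.Agent.H718R2.G Pool.Agent.W564.SC Pool.Agent.TH80.OMS

section

variable {m : ℕ} {M : Type v} [TopologicalSpace M] [T2Space M] [CompactSpace M]
  [ChartedSpace (V m) M] [IsManifold (𝓡 m) ∞ M]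

/-- the bump functions of the atlas -/
theorem exists_bumps (A : FAtlas m M) : ∃ b : Fin A.J → M → ℝ,
    (∀ c, ContMDiff (𝓡 m) 𝓘(ℝ, ℝ) ∞ (b c)) ∧ (∀ c z, 0 ≤ b c z ∧ b c z ≤ 1) ∧
    (∀ c z, b c z ≠ 0 → z ∈ (A.χ c).source ∧ ‖A.χ c z‖ ≤ 1 / 8) ∧ ∀ z, b (A.jx z) z = 1 := by
  have h1 : ∀ c : Fin A.J, ∃ b : M → ℝ, ContMDiff (𝓡 m) 𝓘(ℝ, ℝ) ∞ b ∧
      (∀ z, 0 ≤ b z ∧ b z ≤ 1) ∧ (∀ z, b z ≠ 0 → z ∈ (A.χ c).source ∧ ‖A.χ c z‖ ≤ 1 / 8) ∧
      ∀ z, A.jx z = c → b z = 1 := by
    intro c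
    have hO : IsOpen ((A.χ c).source ∩ (A.χ c) ⁻¹' ball (0 : V m) (1 / 8)) :=
      (A.χ c).isOpen_inter_preimage isOpen_ball
    have hsub : closedBall (0 : V m) (1 / 16) ⊆ (A.χ c).target :=
      (closedBall_subset_closedBall (by norm_num)).trans (A.good c).ball
    have hK : IsCompact ((A.χ c).symm '' closedBall (0 : V m) (1 / 16)) :=
      (isCompact_closedBall _ _).image_of_continuousOn ((A.χ c).continuousOn_symm.mono hsub)
    have hdj : Disjoint ((A.χ c).source ∩ (A.χ c) ⁻¹' ball (0 : V m) (1 / 8))ᶜ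
        ((A.χ c).symm '' closedBall (0 : V m) (1 / 16)) := by
      rw [Set.disjoint_left]
      rintro _ hx ⟨v, hv, rfl⟩
      apply hx
      refine ⟨(A.χ c).map_target (hsub hv), ?_⟩
      rw [mem_preimage, (A.χ c).right_inv (hsub hv)]
      exact closedBall_subset_ball (by norm_num) hv
    obtain ⟨b, hb0, hb1, hb⟩ := exists_contMDiffMap_zero_one_of_isClosed (𝓡 m) (n := ⊤)
      hO.isClosed_compl hK.isClosed hdj
    refine ⟨b, b.contMDiff, fun z => ⟨(hb z).1, (hb z).2⟩, fun z hz => ?_, fun z hz => ?_⟩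
    · by_contra hcon
      apply hz
      apply hb0
      intro h2
      apply hcon
      refine ⟨h2.1, ?_⟩
      have h3 := h2.2
      rw [mem_preimage, mem_ball, dist_zero_right] at h3
      exact h3.le
    · apply hb1
      refine ⟨A.χ c z, ?_, (A.χ c).left_inv ?_⟩
      · rw [mem_closedBall, dist_zero_right, ← hz]
        exact (A.core z).le
      · rw [← hz]
        exact A.src z
  choose b hb1 hb2 hb3 hb4 using h1
  exact ⟨b, hb1, hb2, hb3, fun z => hb4 _ z rfl⟩

/-- the parameter of the scaling about `z` -/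
noncomputable def sc (χ : OpenPartialHomeomorph M (V m)) (z : M) : V (m + m * m) :=
  sp m (-(χ z), ContinuousLinearMap.id ℝ (V m))

theorem sc_smooth {χ : OpenPartialHomeomorph M (V m)} {z₀ : M} (hg : GoodChart m M χ z₀) {b : M → ℝ}
    (hb : ContMDiff (𝓡 m) 𝓘(ℝ, ℝ) ∞ b) (hb0 : ∀ z, b z ≠ 0 → z ∈ χ.source ∧ ‖χ z‖ ≤ 1 / 8) :
    ContMDiff (𝓡 m) 𝓘(ℝ, V (m + m * m)) ∞ (fun z => b z • sc χ z) := by
  intro z
  by_cases hz : z ∈ χ.source
  · have h1 : ContMDiffAt (𝓡 m) 𝓘(ℝ, V m) ∞ χ z :=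
      (contMDiffOn_of_mem_maximalAtlas hg.mem).contMDiffAt (χ.open_source.mem_nhds hz)
    have h2 : ContDiff ℝ ∞ (fun v : V m => sp m (-v, ContinuousLinearMap.id ℝ (V m))) := by
      unfold sp
      exact (affE m).symm.contDiff.comp (contDiff_neg.prodMk contDiff_const)
    have h3 : ContMDiffAt (𝓡 m) 𝓘(ℝ, V (m + m * m)) ∞ (fun z => sc χ z) z :=
      ContMDiffAt.comp (g := fun v : V m => sp m (-v, ContinuousLinearMap.id ℝ (V m))) (f := χ) z
        h2.contMDiff.contMDiffAt h1
    exact (hb z).smul h3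
  · have hsub : closedBall (0 : V m) (1 / 8) ⊆ χ.target :=
      (closedBall_subset_closedBall (by norm_num)).trans hg.ball
    have hK : IsCompact (χ.symm '' closedBall (0 : V m) (1 / 8)) :=
      (isCompact_closedBall _ _).image_of_continuousOn (χ.continuousOn_symm.mono hsub)
    have hzK : z ∈ (χ.symm '' closedBall (0 : V m) (1 / 8))ᶜ := by
      rintro ⟨v, hv, hvz⟩
      apply hz
      rw [← hvz]
      exact χ.map_target (hsub hv)
    have h1 : ContMDiffAt (𝓡 m) 𝓘(ℝ, V (m + m * m)) ∞ (fun _ : M => (0 : V (m + m * m))) z :=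
      contMDiffAt_const
    refine h1.congr_of_eventuallyEq ?_
    filter_upwards [hK.isClosed.isOpen_compl.mem_nhds hzK] with y hy
    have : b y = 0 := by
      by_contra h
      obtain ⟨h2, h3⟩ := hb0 y h
      exact hy ⟨χ y, by rwa [mem_closedBall, dist_zero_right], χ.left_inv h2⟩
    rw [this, zero_smul]

theorem loc_symm {χ χ' : OpenPartialHomeomorph M (V m)} {z : M} (hz : z ∈ χ.source)
    (hz' : z ∈ χ'.source) : (loc χ χ' id ∘ loc χ' χ id) =ᶠ[𝓝 (χ' z)] id := by
  have e2 : ContinuousAt χ'.symm (χ' z) := χ'.continuousAt_symm (χ'.map_source hz')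
  have e3 : ∀ᶠ v in 𝓝 (χ' z), χ'.symm v ∈ χ.source := by
    apply e2.eventually_mem
    rw [χ'.left_inv hz']
    exact χ.open_source.mem_nhds hz
  filter_upwards [e3, χ'.open_target.mem_nhds (χ'.map_source hz')] with v hv hv'
  show χ' (χ.symm (χ (χ'.symm v))) = v
  rw [χ.left_inv hv, χ'.right_inv hv']

/-- a map with scalar derivative at a fixed point: independence of the chart -/
theorem scalar_chart {χ χ' : OpenPartialHomeomorph M (V m)}
    (hχ : χ ∈ IsManifold.maximalAtlas (𝓡 m) ∞ M) (hχ' : χ' ∈ IsManifold.maximalAtlas (𝓡 m) ∞ M)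
    {g : M → M} {z : M} (hz : z ∈ χ.source) (hz' : z ∈ χ'.source) (hg : ContinuousAt g z)
    (hgz : g z = z) {lam : ℝ}
    (hd : HasFDerivAt (loc χ χ g) (lam • ContinuousLinearMap.id ℝ (V m)) (χ z)) :
    HasFDerivAt (loc χ' χ' g) (lam • ContinuousLinearMap.id ℝ (V m)) (χ' z) := by
  have hT := (loc_contDiffAt (r := ⊤) hχ hχ' (f := id) contMDiff_id hz hz').differentiableAt
    (by simp)
  have hT' := (loc_contDiffAt (r := ⊤) hχ' hχ (f := id) contMDiff_id hz' hz).differentiableAt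
    (by simp)
  have e1 : loc χ' χ id (χ' z) = χ z := by
    unfold loc
    rw [χ'.left_inv hz']
    rfl
  have e2 : loc χ χ g (χ z) = χ z := by
    unfold loc
    rw [χ.left_inv hz, hgz]
  have hTT : fderiv ℝ (loc χ χ' id) (χ z) ∘L fderiv ℝ (loc χ' χ id) (χ' z) =
      ContinuousLinearMap.id ℝ (V m) := by
    have h1 : HasFDerivAt (loc χ χ' id ∘ loc χ' χ id)
        (fderiv ℝ (loc χ χ' id) (χ z) ∘L fderiv ℝ (loc χ' χ id) (χ' z)) (χ' z) := by
      apply HasFDerivAt.comp
      · rw [e1]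
        exact hT.hasFDerivAt
      · exact hT'.hasFDerivAt
    exact h1.unique ((hasFDerivAt_id (𝕜 := ℝ) (χ' z)).congr_of_eventuallyEq (loc_symm hz hz'))
  have h2 : HasFDerivAt (loc χ χ' id ∘ (loc χ χ g ∘ loc χ' χ id))
      (fderiv ℝ (loc χ χ' id) (χ z) ∘L ((lam • ContinuousLinearMap.id ℝ (V m)) ∘L
        fderiv ℝ (loc χ' χ id) (χ' z))) (χ' z) := by
    apply HasFDerivAt.comp
    · show HasFDerivAt _ _ (loc χ χ g (loc χ' χ id (χ' z)))
      rw [e1, e2]
      exact hT.hasFDerivAt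
    · apply HasFDerivAt.comp
      · rw [e1]
        exact hd
      · exact hT'.hasFDerivAt
  have h3 : fderiv ℝ (loc χ χ' id) (χ z) ∘L ((lam • ContinuousLinearMap.id ℝ (V m)) ∘L
        fderiv ℝ (loc χ' χ id) (χ' z)) = lam • ContinuousLinearMap.id ℝ (V m) := by
    ext1 v
    have h4 := congrArg (fun T : V m →L[ℝ] V m => T v) hTT
    show fderiv ℝ (loc χ χ' id) (χ z) (lam • (fderiv ℝ (loc χ' χ id) (χ' z) v)) = lam • v
    rw [map_smul]
    congr 1
  rw [h3] at h2
  refine h2.congr_of_eventuallyEq ?_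
  have e3 : ContinuousAt χ'.symm (χ' z) := χ'.continuousAt_symm (χ'.map_source hz')
  have e4 : ∀ᶠ v in 𝓝 (χ' z), χ'.symm v ∈ χ.source := by
    apply e3.eventually_mem
    rw [χ'.left_inv hz']
    exact χ.open_source.mem_nhds hz
  have e5 : ∀ᶠ v in 𝓝 (χ' z), g (χ'.symm v) ∈ χ.source := by
    have h4 : ContinuousAt (fun v => g (χ'.symm v)) (χ' z) := by
      apply ContinuousAt.comp
      · rw [χ'.left_inv hz']
        exact hg
      · exact e3
    apply h4.eventually_mem
    rw [χ'.left_inv hz', hgz]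
    exact χ.open_source.mem_nhds hz
  filter_upwards [e4, e5] with v hv hv'
  show χ' (g (χ'.symm v)) = χ' (χ.symm (χ (g (χ.symm (χ (χ'.symm v))))))
  rw [χ.left_inv hv, χ.left_inv hv']

/-- the scaling in the chart -/
theorem tr_sc {χ : OpenPartialHomeomorph M (V m)} {z₀ : M} (hg : GoodChart m M χ z₀)
    {F F' : V (m + m * m) × V m → V m} {κF : ℝ} (hF : LFam (m + m * m) m F F')
    (hlin : ∀ x v, ‖x‖ < κF → ‖v‖ ≤ 1 / 4 → F (x, v) = v + (affE m x).1 + (affE m x).2 v)
    {z : M} (hz : z ∈ χ.source) (hz8 : ‖χ z‖ ≤ 1 / 8) {t : ℝ} (ht : ‖t • sc χ z‖ < κF) :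
    tr χ F (t • sc χ z) z = z ∧
    HasFDerivAt (loc χ χ (tr χ F (t • sc χ z))) ((1 + t) • ContinuousLinearMap.id ℝ (V m)) (χ z) := by
  obtain ⟨hA, hcl⟩ := good_closed hg
  have hsc : affE m (t • sc χ z) = t • (-(χ z), ContinuousLinearMap.id ℝ (V m)) := by
    unfold sc sp
    rw [map_smul, ContinuousLinearEquiv.apply_symm_apply]
  have key : ∀ v, v ∈ χ.target → ‖v‖ ≤ 1 / 4 → loc χ χ (tr χ F (t • sc χ z)) v =
      v + (-(t • χ z)) + t • v := by
    intro v hv hv4
    have h1 : F (t • sc χ z, v) ∈ χ.target := maps_target hA hF.inv hF.supp hv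
    unfold loc
    rw [tr_source (χ.map_target hv), χ.right_inv hv, χ.right_inv h1, hlin _ _ ht hv4, hsc]
    simp
  have h1 : loc χ χ (tr χ F (t • sc χ z)) (χ z) = χ z := by
    rw [key _ (χ.map_source hz) (by linarith)]
    abel
  constructor
  · have h2 : F (t • sc χ z, χ z) ∈ χ.target := maps_target hA hF.inv hF.supp (χ.map_source hz)
    unfold loc at h1
    rw [χ.left_inv hz, tr_source hz, χ.right_inv h2] at h1
    rw [tr_source hz, h1, χ.left_inv hz]
  · have h3 : HasFDerivAt (fun v : V m => v + (-(t • χ z)) + t • v)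
        ((1 + t) • ContinuousLinearMap.id ℝ (V m)) (χ z) := by
      have h4 := (((hasFDerivAt_id (𝕜 := ℝ) (χ z)).add_const (-(t • χ z))).add
        ((hasFDerivAt_id (𝕜 := ℝ) (χ z)).const_smul t))
      have h5 : (1 + t) • ContinuousLinearMap.id ℝ (V m) =
          ContinuousLinearMap.id ℝ (V m) + t • ContinuousLinearMap.id ℝ (V m) := by
        ext1 v
        show (1 + t) • v = v + t • v
        rw [add_smul, one_smul]
      rw [h5]
      exact h4
    refine h3.congr_of_eventuallyEq ?_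
    have h5 : ∀ᶠ v in 𝓝 (χ z), ‖v‖ < 1 / 4 :=
      continuous_norm.continuousAt.eventually (gt_mem_nhds (by linarith))
    filter_upwards [h5, χ.open_target.mem_nhds (χ.map_source hz)] with v hv hv'
    exact key v hv' hv.le

theorem tr_cont {χ : OpenPartialHomeomorph M (V m)} {z₀ : M} (hg : GoodChart m M χ z₀)
    {F F' : V (m + m * m) × V m → V m} (hF : LFam (m + m * m) m F F') (a : V (m + m * m)) :
    Continuous (tr χ F a) := by
  obtain ⟨hA, hcl⟩ := good_closed hg
  have hs := tr_smooth hg.mem hA hcl hF.inv hF.smooth hF.supp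
  have h3 : Continuous (fun q : V (m + m * m) × M => tr χ F q.1 q.2) := hs.continuous
  exact h3.comp (continuous_const.prodMk continuous_id)

theorem trs_cont {ι : Type} {χ : ι → OpenPartialHomeomorph M (V m)} {z : ι → M}
    (hg : ∀ i, GoodChart m M (χ i) (z i))
    {F F' : V (m + m * m) × V m → V m} (hF : LFam (m + m * m) m F F') (a : ι → V (m + m * m))
    (l : List ι) : Continuous (trs χ F a l) := by
  induction l with
  | nil => exact continuous_id
  | cons i l ih => exact (tr_cont (hg i) hF (a i)).comp ih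

/-- **Scaling about `z`** by the composition of the pushes in the charts. -/
theorem trs_sc (A : FAtlas m M) {F F' : V (m + m * m) × V m → V m} {κF : ℝ}
    (hF : LFam (m + m * m) m F F')
    (hlin : ∀ x v, ‖x‖ < κF → ‖v‖ ≤ 1 / 4 → F (x, v) = v + (affE m x).1 + (affE m x).2 v)
    {b : Fin A.J → M → ℝ} (hb0 : ∀ c z, b c z ≠ 0 → z ∈ (A.χ c).source ∧ ‖A.χ c z‖ ≤ 1 / 8)
    (z : M) {s : ℝ} (hs : ∀ c, ‖s • (b c z • sc (A.χ c) z)‖ < κF) (l : List (Fin A.J))
    {χ' : OpenPartialHomeomorph M (V m)} (hχ' : χ' ∈ IsManifold.maximalAtlas (𝓡 m) ∞ M)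
    (hz' : z ∈ χ'.source) :
    trs A.χ F (fun c => s • (b c z • sc (A.χ c) z)) l z = z ∧
    HasFDerivAt (loc χ' χ' (trs A.χ F (fun c => s • (b c z • sc (A.χ c) z)) l))
      ((l.map fun c => 1 + s * b c z).prod • ContinuousLinearMap.id ℝ (V m)) (χ' z) := by
  induction l with
  | nil =>
    refine ⟨rfl, ?_⟩
    rw [List.map_nil, List.prod_nil, one_smul]
    refine (hasFDerivAt_id _).congr_of_eventuallyEq ?_
    filter_upwards [χ'.open_target.mem_nhds (χ'.map_source hz')] with v hv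
    exact χ'.right_inv hv
  | cons c l ih =>
    obtain ⟨ih1, ih2⟩ := ih
    -- the last push
    have h1 : tr (A.χ c) F (s • (b c z • sc (A.χ c) z)) z = z ∧
        HasFDerivAt (loc χ' χ' (tr (A.χ c) F (s • (b c z • sc (A.χ c) z))))
          ((1 + s * b c z) • ContinuousLinearMap.id ℝ (V m)) (χ' z) := by
      by_cases hbz : b c z = 0
      · have e1 : tr (A.χ c) F (s • (b c z • sc (A.χ c) z)) = id := by
          ext y
          rw [hbz, zero_smul, smul_zero, tr_zero hF]
          rfl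
        rw [e1, hbz, mul_zero, add_zero, one_smul]
        refine ⟨rfl, ?_⟩
        refine (hasFDerivAt_id _).congr_of_eventuallyEq ?_
        filter_upwards [χ'.open_target.mem_nhds (χ'.map_source hz')] with v hv
        exact χ'.right_inv hv
      · obtain ⟨h2, h3⟩ := hb0 c z hbz
        have h4 := hs c
        rw [smul_smul] at h4 ⊢
        obtain ⟨h5, h6⟩ := tr_sc (A.good c) hF hlin h2 h3 h4
        exact ⟨h5, scalar_chart (A.good c).mem hχ' h2 hz'
          (tr_cont (A.good c) hF _).continuousAt h5 h6⟩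
    refine ⟨?_, ?_⟩
    · show tr (A.χ c) F (s • (b c z • sc (A.χ c) z)) (trs A.χ F _ l z) = z
      rw [ih1, h1.1]
    · have e2 : loc χ' χ' (trs A.χ F (fun c => s • (b c z • sc (A.χ c) z)) l) (χ' z) = χ' z := by
        unfold loc
        rw [χ'.left_inv hz', ih1]
      have h7 : HasFDerivAt (loc χ' χ' (tr (A.χ c) F (s • (b c z • sc (A.χ c) z))) ∘
          loc χ' χ' (trs A.χ F (fun c => s • (b c z • sc (A.χ c) z)) l))
          (((1 + s * b c z) • ContinuousLinearMap.id ℝ (V m)) ∘L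
            ((l.map fun c => 1 + s * b c z).prod • ContinuousLinearMap.id ℝ (V m))) (χ' z) := by
        apply HasFDerivAt.comp
        · rw [e2]
          exact h1.2
        · exact ih2
      have e3 : ((1 + s * b c z) • ContinuousLinearMap.id ℝ (V m)) ∘L
            ((l.map fun c => 1 + s * b c z).prod • ContinuousLinearMap.id ℝ (V m)) =
          ((c :: l).map fun c => 1 + s * b c z).prod • ContinuousLinearMap.id ℝ (V m) := by
        ext1 v
        show (1 + s * b c z) • ((l.map fun c => 1 + s * b c z).prod • v) =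
          ((c :: l).map fun c => 1 + s * b c z).prod • v
        rw [smul_smul, List.map_cons, List.prod_cons]
      rw [e3] at h7
      refine h7.congr_of_eventuallyEq ?_
      have e5 : ∀ᶠ v in 𝓝 (χ' z), trs A.χ F (fun c => s • (b c z • sc (A.χ c) z)) l
          (χ'.symm v) ∈ χ'.source := by
        have h4 : ContinuousAt (fun v => trs A.χ F (fun c => s • (b c z • sc (A.χ c) z)) l
            (χ'.symm v)) (χ' z) :=
          (trs_cont A.good hF _ l).continuousAt.comp
            (χ'.continuousAt_symm (χ'.map_source hz'))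
        apply h4.eventually_mem
        rw [χ'.left_inv hz', ih1]
        exact χ'.open_source.mem_nhds hz'
      filter_upwards [e5] with v hv
      show χ' (tr (A.χ c) F _ (trs A.χ F _ l (χ'.symm v))) =
        χ' (tr (A.χ c) F _ (χ'.symm (χ' (trs A.χ F _ l (χ'.symm v)))))
      rw [χ'.left_inv hv]

end

end Pool.Agent.H245.SH
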