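import Pool.Agent.H245.SH.U2
import Pool.Agent.H245.SH.B5

/-!
# Slices over a general base
-/

set_option autoImplicit false
set_option linter.unusedSectionVars false

open scoped Manifold ContDiff Topology NNReal
open Filter Set Metric

universe u v w

namespace Pool.Agent.H245.SH

open Pool.Agent.H718R2.G Pool.Agent.W564.SC Pool.Agent.TH80.OMS Pool.Agent.Y271.CP
  Pool.Agent.Y504.CO

section slice

variable {E' : Type} [NormedAddCommGroup E'] [NormedSpace ℝ E'] {H' : Type}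
  [TopologicalSpace H'] {I' : ModelWithCorners ℝ E' H'}
  {m n : ℕ} {M : Type v} [TopologicalSpace M] [ChartedSpace (V m) M]
  [IsManifold (𝓡 m) ∞ M]
  {Z : Type w} [TopologicalSpace Z] [ChartedSpace H' Z]
  {N : Type u} [TopologicalSpace N] [ChartedSpace (V n) N] [IsManifold (𝓡 n) ∞ N]

theorem gslice_smooth (E : GEmb m n I' M Z N) {χ : OpenPartialHomeomorph M (V m)}
    (hχ : χ ∈ IsManifold.maximalAtlas (𝓡 m) ∞ M) {ψ : OpenPartialHomeomorph N (V n)}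
    (hψ : ψ ∈ IsManifold.maximalAtlas (𝓡 n) ∞ N) {x : M} {y : Z} (hx : x ∈ χ.source)
    (hp : E.Θ (x, y) ∈ ψ.source) :
    DifferentiableAt ℝ (fun v => ψ (E.Θ (χ.symm v, y))) (χ x) := by
  have h0 : ContMDiffAt (𝓡 m) (𝓡 m) ∞ χ.symm (χ x) :=
    (contMDiffOn_symm_of_mem_maximalAtlas hχ).contMDiffAt (χ.open_target.mem_nhds (χ.map_source hx))
  have h1 : ContMDiffAt (𝓡 m) ((𝓡 m).prod I') ∞ (fun v => (χ.symm v, y)) (χ x) :=
    h0.prodMk contMDiffAt_const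
  have h2 : ContMDiffAt (𝓡 m) (𝓡 n) ∞ (fun v => E.Θ (χ.symm v, y)) (χ x) :=
    E.smooth.contMDiffAt.comp (χ x) h1
  have h3 : ContMDiffAt (𝓡 n) (𝓡 n) ∞ ψ (E.Θ (χ.symm (χ x), y)) := by
    rw [χ.left_inv hx]
    exact (contMDiffOn_of_mem_maximalAtlas hψ).contMDiffAt (ψ.open_source.mem_nhds hp)
  have h4 : ContMDiffAt (𝓡 m) (𝓡 n) ∞ (fun v => ψ (E.Θ (χ.symm v, y))) (χ x) :=
    ContMDiffAt.comp (g := ψ) (f := fun v => E.Θ (χ.symm v, y)) (χ x) h3 h2
  rw [contMDiffAt_iff_contDiffAt] at h4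
  exact h4.differentiableAt (by simp)

theorem gslice_smooth' (E : GEmb m n I' M Z N) {χ : OpenPartialHomeomorph M (V m)}
    (hχ : χ ∈ IsManifold.maximalAtlas (𝓡 m) ∞ M) {ψ : OpenPartialHomeomorph N (V n)}
    (hψ : ψ ∈ IsManifold.maximalAtlas (𝓡 n) ∞ N) {x : M} {y : Z} (hx : x ∈ χ.source)
    (hp : E.Θ (x, y) ∈ ψ.source) :
    DifferentiableAt ℝ (fun v => χ (E.Ψ (ψ.symm v)).1) (ψ (E.Θ (x, y))) := by
  have h0 : ContMDiffAt (𝓡 n) (𝓡 n) ∞ ψ.symm (ψ (E.Θ (x, y))) :=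
    (contMDiffOn_symm_of_mem_maximalAtlas hψ).contMDiffAt (ψ.open_target.mem_nhds (ψ.map_source hp))
  have h1 : ContMDiffAt (𝓡 n) ((𝓡 m).prod I') ∞ (fun v => E.Ψ (ψ.symm v))
      (ψ (E.Θ (x, y))) := by
    have h5 : ContMDiffAt (𝓡 n) ((𝓡 m).prod I') ∞ E.Ψ (ψ.symm (ψ (E.Θ (x, y)))) := by
      rw [ψ.left_inv hp]
      exact E.smooth' (x, y)
    exact ContMDiffAt.comp (g := E.Ψ) (f := ψ.symm) (ψ (E.Θ (x, y))) h5 h0
  have h2 : ContMDiffAt (𝓡 n) (𝓡 m) ∞ (fun v => (E.Ψ (ψ.symm v)).1) (ψ (E.Θ (x, y))) :=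
    contMDiffAt_fst.comp _ h1
  have h3 : ContMDiffAt (𝓡 m) (𝓡 m) ∞ χ ((E.Ψ (ψ.symm (ψ (E.Θ (x, y))))).1) := by
    rw [ψ.left_inv hp, E.left]
    exact (contMDiffOn_of_mem_maximalAtlas hχ).contMDiffAt (χ.open_source.mem_nhds hx)
  have h4 : ContMDiffAt (𝓡 n) (𝓡 m) ∞ (fun v => χ (E.Ψ (ψ.symm v)).1) (ψ (E.Θ (x, y))) :=
    ContMDiffAt.comp (g := χ) (f := fun v => (E.Ψ (ψ.symm v)).1) _ h3 h2
  rw [contMDiffAt_iff_contDiffAt] at h4
  exact h4.differentiableAt (by simp)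

/-- The derivative along the first factor of a fibred return map to a hyperbolic periodic point. -/
theorem gslice_noOne (E : GEmb m n I' M Z N) {r : ℕ∞} (hr : 1 ≤ r) (g : DiffM n N r) {y : Z}
    {c : M → M} {l : ℕ} (hl : 1 ≤ l) (hgc : ∀ x, g^[l] (E.Θ (x, y)) = E.Θ (c x, y))
    {χ : OpenPartialHomeomorph M (V m)} (hχ : χ ∈ IsManifold.maximalAtlas (𝓡 m) ∞ M) {x : M}
    (hx : x ∈ χ.source) (hcc : ContinuousAt c x) (hcx : c x = x) {P : V m →L[ℝ] V m}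
    (hP : HasFDerivAt (fun v => χ (c (χ.symm v))) P (χ x)) (hhyp : HypAt n g (E.Θ (x, y))) :
    NoOne P := by
  by_contra hcon
  obtain ⟨a, ⟨C, hC⟩, ha, ha0⟩ := exists_orbit hcon
  obtain ⟨ψ, hψ⟩ : ∃ ψ, ψ = chartAt (V n) (E.Θ (x, y)) := ⟨_, rfl⟩
  have hψm : ψ ∈ IsManifold.maximalAtlas (𝓡 n) ∞ N := by
    rw [hψ]
    exact IsManifold.chart_mem_maximalAtlas _
  have hp : E.Θ (x, y) ∈ ψ.source := by
    rw [hψ]
    exact mem_chart_source _ _
  have hper : g^[l] (E.Θ (x, y)) = E.Θ (x, y) := by rw [hgc, hcx]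
  have hI := (gslice_smooth E hχ hψm hx hp).hasFDerivAt
  have hI' := (gslice_smooth' E hχ hψm hx hp).hasFDerivAt
  have hG := (iter_diff hr g hψm l hp (by rw [hper]; exact hp)).hasFDerivAt
  set I := fderiv ℝ (fun v => ψ (E.Θ (χ.symm v, y))) (χ x) with hIdef
  set I' := fderiv ℝ (fun v => χ (E.Ψ (ψ.symm v)).1) (ψ (E.Θ (x, y))) with hI'def
  set G := fderiv ℝ (fun v => ψ (g^[l] (ψ.symm v))) (ψ (E.Θ (x, y))) with hGdef
  have e0 : χ.symm (χ x) = x := χ.left_inv hx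
  have hcΘ : ContinuousAt (fun v => E.Θ (χ.symm v, y)) (χ x) := by
    apply E.smooth.continuous.continuousAt.comp
    exact (χ.continuousAt_symm (χ.map_source hx)).prodMk continuousAt_const
  have hev : ∀ᶠ v in 𝓝 (χ x), E.Θ (χ.symm v, y) ∈ ψ.source := by
    apply hcΘ.eventually_mem
    rw [e0]
    exact ψ.open_source.mem_nhds hp
  -- injectivity
  have hinj : I' ∘L I = ContinuousLinearMap.id ℝ (V m) := by
    have h1 : HasFDerivAt ((fun v => χ (E.Ψ (ψ.symm v)).1) ∘ (fun v => ψ (E.Θ (χ.symm v, y))))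
        (I' ∘L I) (χ x) := by
      apply HasFDerivAt.comp
      · rw [e0]
        exact hI'
      · exact hI
    have h2 : ((fun v => χ (E.Ψ (ψ.symm v)).1) ∘ (fun v => ψ (E.Θ (χ.symm v, y)))) =ᶠ[𝓝 (χ x)]
        fun v => v := by
      filter_upwards [hev, χ.open_target.mem_nhds (χ.map_source hx)] with v hv hv'
      show χ (E.Ψ (ψ.symm (ψ (E.Θ (χ.symm v, y))))).1 = v
      rw [ψ.left_inv hv, E.left]
      exact χ.right_inv hv'
    exact h1.unique ((hasFDerivAt_id (𝕜 := ℝ) (χ x)).congr_of_eventuallyEq h2)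
  -- the commutation
  have hcomm : G ∘L I = I ∘L P := by
    have h1 : HasFDerivAt ((fun v => ψ (g^[l] (ψ.symm v))) ∘ (fun v => ψ (E.Θ (χ.symm v, y))))
        (G ∘L I) (χ x) := by
      apply HasFDerivAt.comp
      · rw [e0]
        exact hG
      · exact hI
    have h2 : HasFDerivAt ((fun v => ψ (E.Θ (χ.symm v, y))) ∘ (fun v => χ (c (χ.symm v))))
        (I ∘L P) (χ x) := by
      apply HasFDerivAt.comp
      · rw [e0, hcx]
        exact hI
      · exact hP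
    have hev2 : ∀ᶠ v in 𝓝 (χ x), c (χ.symm v) ∈ χ.source := by
      have h3 : ContinuousAt (fun v => c (χ.symm v)) (χ x) := by
        apply ContinuousAt.comp
        · rw [e0]
          exact hcc
        · exact χ.continuousAt_symm (χ.map_source hx)
      apply h3.eventually_mem
      rw [e0, hcx]
      exact χ.open_source.mem_nhds hx
    have h3 : ((fun v => ψ (g^[l] (ψ.symm v))) ∘ (fun v => ψ (E.Θ (χ.symm v, y)))) =ᶠ[𝓝 (χ x)]
        ((fun v => ψ (E.Θ (χ.symm v, y))) ∘ (fun v => χ (c (χ.symm v)))) := by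
      filter_upwards [hev, hev2] with v hv hv'
      show ψ (g^[l] (ψ.symm (ψ (E.Θ (χ.symm v, y))))) = ψ (E.Θ (χ.symm (χ (c (χ.symm v))), y))
      rw [ψ.left_inv hv, hgc, χ.left_inv hv']
    exact h1.unique (h2.congr_of_eventuallyEq h3)
  have hno := hhyp l hl hper ψ hψm hp
  have h4 := hno (fun i => I (a i)) ⟨‖I‖ * C, fun i => (I.le_opNorm _).trans (by gcongr; exact hC i)⟩
    (fun i => by
      show I (a (i + 1)) = G (I (a i))
      rw [ha]
      exact (congrArg (fun T : V m →L[ℝ] V n => T (a i)) hcomm).symm) 0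
  apply ha0
  have h5 : I' (I (a 0)) = a 0 := congrArg (fun T : V m →L[ℝ] V m => T (a 0)) hinj
  rw [← h5]
  show I' (I (a 0)) = 0
  have h6 : I (a 0) = 0 := h4
  rw [h6, map_zero]

end slice

end Pool.Agent.H245.SH
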