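import Pool.Agent.H245.SH.U3
import Pool.Agent.H245.SH.B6

/-!
# Closed pseudo-orbits with few jumps
-/

set_option autoImplicit false
set_option linter.unusedSectionVars false

open scoped Manifold ContDiff Topology NNReal
open Filter Set Metric

universe u v w

namespace Pool.Agent.H245.SH

open Pool.Agent.H718R2.G Pool.Agent.W564.SC Pool.Agent.TH80.OMS Pool.Agent.Y271.CP
  Pool.Agent.Y504.CO

section defs

variable {m : ℕ} {M : Type v} [TopologicalSpace M] [ChartedSpace (V m) M] {T : ℕ}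

/-- one step: the symbol `0` means no jump, the symbol `t + 1` a jump to `b t` -/
def stp (f : M → M) (b : Fin T → M) (x : M) (σ : Fin (T + 1)) : M :=
  Fin.cases (motive := fun _ => M) (f x) b σ

/-- the linear map of one step -/
noncomputable def lst (A : FAtlas m M) (f : M → M) (b : Fin T → M) (R : Fin T → V m →L[ℝ] V m)
    (x : M) (σ : Fin (T + 1)) : V m →L[ℝ] V m :=
  Fin.cases (motive := fun _ => V m →L[ℝ] V m) (Dm A f x (f x)) (fun t => R t ∘L Dm A f x (b t)) σ

/-- the end point of the pseudo-orbit -/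
def endp (f : M → M) (b : Fin T → M) : M → List (Fin (T + 1)) → M
  | x, [] => x
  | x, σ :: l => endp f b (stp f b x σ) l

/-- the linear map along the pseudo-orbit -/
noncomputable def lin (A : FAtlas m M) (f : M → M) (b : Fin T → M) (R : Fin T → V m →L[ℝ] V m) :
    M → List (Fin (T + 1)) → V m →L[ℝ] V m
  | _, [] => ContinuousLinearMap.id ℝ (V m)
  | x, σ :: l => lin A f b R (stp f b x σ) l ∘L lst A f b R x σ

/-- the jumps `t` begin at the point `a t` -/
def Val (f : M → M) (a b : Fin T → M) : M → List (Fin (T + 1)) → Prop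
  | _, [] => True
  | x, σ :: l => (∀ t : Fin T, σ = t.succ → f x = a t) ∧ Val f a b (stp f b x σ) l

/-- the orbit of `y` follows the symbols -/
def Fol {Y : Type w} (h : Y → Y) (K : Set Y) (W : Fin (T + 1) → Set Y) :
    Y → List (Fin (T + 1)) → Prop
  | _, [] => True
  | y, σ :: l => y ∈ K ∧ h y ∈ W σ ∧ Fol h K W (h y) l

/-- the symbols of a sequence of blocks: `p` steps without a jump followed by a jump `t` -/
def sym (bs : List (Fin T × ℕ)) : List (Fin (T + 1)) :=
  bs.flatMap fun q => List.replicate q.2 0 ++ [q.1.succ]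

end defs

/-- `h` has periodic orbits in `K` with all sequences of symbols with jumps far from each other -/
def Driver {Y : Type w} [TopologicalSpace Y] (T N₀ : ℕ) (h : Y → Y) (K : Set Y) : Prop :=
  ∃ W : Fin (T + 1) → Set Y, (∀ i, IsCompact (W i)) ∧ (∀ i j, i ≠ j → Disjoint (W i) (W j)) ∧
    ∀ bs : List (Fin T × ℕ), bs ≠ [] → (∀ q ∈ bs, N₀ ≤ q.2) →
      ∃ y, h^[(sym bs).length] y = y ∧ Fol h K W y (sym bs)

section steps

variable {m : ℕ} {M : Type v} [TopologicalSpace M] [T2Space M] [CompactSpace M]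
  [ChartedSpace (V m) M] [IsManifold (𝓡 m) ∞ M]

/-- the scaling about `z` -/
noncomputable def DD (A : FAtlas m M) (F : V (m + m * m) × V m → V m) (bb : Fin A.J → M → ℝ)
    (s : ℝ) (z : M) : M → M :=
  trs A.χ F (fun c => s • (bb c z • sc (A.χ c) z)) (List.finRange A.J)

/-- the factor of the scaling -/
noncomputable def fc (A : FAtlas m M) (bb : Fin A.J → M → ℝ) (s : ℝ) (z : M) : ℝ :=
  ((List.finRange A.J).map fun c => 1 + s * bb c z).prod

/-- one step of the scaled and perturbed map -/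
theorem step_core (A : FAtlas m M) {F F' : V (m + m * m) × V m → V m} {κF : ℝ}
    (hF : LFam (m + m * m) m F F')
    (hlin : ∀ x v, ‖x‖ < κF → ‖v‖ ≤ 1 / 4 → F (x, v) = v + (affE m x).1 + (affE m x).2 v)
    {bb : Fin A.J → M → ℝ} (hb0 : ∀ c z, bb c z ≠ 0 → z ∈ (A.χ c).source ∧ ‖A.χ c z‖ ≤ 1 / 8)
    {r : ℕ∞} (hr : 1 ≤ r) (f : DiffM m M r) {s : ℝ} {x y : M}
    (hs : ∀ c, ‖s • (bb c (f x) • sc (A.χ c) (f x))‖ < κF)
    (hy : f x ∈ (A.χ (A.jx y)).source) (hy8 : ‖A.χ (A.jx y) (f x)‖ ≤ 1 / 8)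
    {w : Aff m} (hw : ‖sp m w‖ < κF)
    (hwy : A.χ (A.jx y) (f x) + w.1 + w.2 (A.χ (A.jx y) (f x)) = A.χ (A.jx y) y) :
    tr (A.χ (A.jx y)) F (sp m w) (f x) = y ∧
    tr (A.χ (A.jx y)) F (sp m w) (DD A F bb s (f x) (f x)) = y ∧
    HasFDerivAt (loc (A.χ (A.jx x)) (A.χ (A.jx y))
      (fun a => tr (A.χ (A.jx y)) F (sp m w) (DD A F bb s (f x) (f a))))
      (fc A bb s (f x) • ((ContinuousLinearMap.id ℝ (V m) + w.2) ∘L Dm A f x y))
      (A.χ (A.jx x) x) := by
  obtain ⟨h1, h2⟩ := trs_sc A hF hlin hb0 (f x) hs (List.finRange A.J) (A.good (A.jx y)).mem hy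
  have hr1 : ((r : ℕ∞) : WithTop ℕ∞) ≠ 0 := by
    intro h
    have : r = 0 := by exact_mod_cast h
    rw [this] at hr
    exact absurd hr (by decide)
  have hDf : HasFDerivAt (loc (A.χ (A.jx x)) (A.χ (A.jx y)) f) (Dm A f x y) (A.χ (A.jx x) x) :=
    ((loc_contDiffAt (A.good _).mem (A.good _).mem f.contMDiff (A.src x) hy).differentiableAt
      hr1).hasFDerivAt
  have e0 : (A.χ (A.jx x)).symm (A.χ (A.jx x) x) = x := (A.χ (A.jx x)).left_inv (A.src x)
  have e1 : loc (A.χ (A.jx x)) (A.χ (A.jx y)) f (A.χ (A.jx x) x) = A.χ (A.jx y) (f x) := by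
    unfold loc
    rw [e0]
  have hfc : ContinuousAt (fun v => f ((A.χ (A.jx x)).symm v)) (A.χ (A.jx x) x) := by
    apply f.continuous.continuousAt.comp
    exact (A.χ (A.jx x)).continuousAt_symm ((A.χ (A.jx x)).map_source (A.src x))
  have hev : ∀ᶠ v in 𝓝 (A.χ (A.jx x) x), f ((A.χ (A.jx x)).symm v) ∈ (A.χ (A.jx y)).source := by
    apply hfc.eventually_mem
    rw [e0]
    exact (A.χ (A.jx y)).open_source.mem_nhds hy
  have hDDc : Continuous (DD A F bb s (f x)) := trs_cont A.good hF _ _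
  -- the derivative of the scaled map
  have h3 : HasFDerivAt (loc (A.χ (A.jx x)) (A.χ (A.jx y)) (fun a => DD A F bb s (f x) (f a)))
      (fc A bb s (f x) • Dm A f x y) (A.χ (A.jx x) x) := by
    have h4 : HasFDerivAt (loc (A.χ (A.jx y)) (A.χ (A.jx y)) (DD A F bb s (f x)) ∘
        loc (A.χ (A.jx x)) (A.χ (A.jx y)) f)
        ((fc A bb s (f x) • ContinuousLinearMap.id ℝ (V m)) ∘L Dm A f x y) (A.χ (A.jx x) x) := by
      apply HasFDerivAt.comp
      · rw [e1]
        exact h2
      · exact hDf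
    have e2 : (fc A bb s (f x) • ContinuousLinearMap.id ℝ (V m)) ∘L Dm A f x y =
        fc A bb s (f x) • Dm A f x y := by
      ext1 v
      rfl
    rw [e2] at h4
    refine h4.congr_of_eventuallyEq ?_
    filter_upwards [hev] with v hv
    show A.χ (A.jx y) (DD A F bb s (f x) (f ((A.χ (A.jx x)).symm v))) =
      A.χ (A.jx y) (DD A F bb s (f x) ((A.χ (A.jx y)).symm (A.χ (A.jx y)
        (f ((A.χ (A.jx x)).symm v)))))
    rw [(A.χ (A.jx y)).left_inv hv]
  have h1' : DD A F bb s (f x) (f x) = f x := h1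
  have hev2 : ∀ᶠ v in 𝓝 (A.χ (A.jx x) x),
      (fun a => DD A F bb s (f x) (f a)) ((A.χ (A.jx x)).symm v) ∈ (A.χ (A.jx y)).source := by
    have h5 : ContinuousAt (fun v => DD A F bb s (f x) (f ((A.χ (A.jx x)).symm v)))
        (A.χ (A.jx x) x) := hDDc.continuousAt.comp hfc
    apply h5.eventually_mem
    rw [e0, h1']
    exact (A.χ (A.jx y)).open_source.mem_nhds hy
  obtain ⟨k1, k2, k3⟩ := step_deriv A hF hlin (f := fun a => DD A F bb s (f x) (f a)) (x := x)
    (y := y) (z := x) (A.src x) (by rw [h1']; exact hy) (by rw [h1']; exact hy8) hev2 h3 w hw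
  have k4 : tr (A.χ (A.jx y)) F (sp m w) (DD A F bb s (f x) (f x)) = y := by
    rw [h1'] at k2
    rw [hwy] at k2
    apply (A.χ (A.jx y)).injOn k1 (A.src y)
    rw [h1']
    exact k2
  refine ⟨by rw [h1'] at k4; exact k4, k4, ?_⟩
  have e3 : fc A bb s (f x) • ((ContinuousLinearMap.id ℝ (V m) + w.2) ∘L Dm A f x y) =
      (ContinuousLinearMap.id ℝ (V m) + w.2) ∘L (fc A bb s (f x) • Dm A f x y) := by
    ext1 v
    show fc A bb s (f x) • ((ContinuousLinearMap.id ℝ (V m) + w.2) (Dm A f x y v)) =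
      (ContinuousLinearMap.id ℝ (V m) + w.2) (fc A bb s (f x) • Dm A f x y v)
    rw [map_smul]
  rw [e3]
  exact k3

end steps

section chain

variable {m : ℕ} {M : Type v} [TopologicalSpace M] [T2Space M] [CompactSpace M]
  [ChartedSpace (V m) M] [IsManifold (𝓡 m) ∞ M] {T : ℕ}

/-- the push of the symbol `σ` -/
noncomputable def kap (A : FAtlas m M) (F : V (m + m * m) × V m → V m) (b : Fin T → M)
    (w : Fin T → Aff m) (σ : Fin (T + 1)) : M → M :=
  Fin.cases (motive := fun _ => M → M) id (fun t => tr (A.χ (A.jx (b t))) F (sp m (w t))) σ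

/-- one step in the fibre -/
noncomputable def stm (A : FAtlas m M) (F : V (m + m * m) × V m → V m) (bb : Fin A.J → M → ℝ)
    (f : M → M) (b : Fin T → M) (w : Fin T → Aff m) (s : ℝ) (x : M) (σ : Fin (T + 1)) (z : M) : M :=
  kap A F b w σ (DD A F bb s (f x) (f z))

/-- all steps in the fibre -/
noncomputable def cms (A : FAtlas m M) (F : V (m + m * m) × V m → V m) (bb : Fin A.J → M → ℝ)
    (f : M → M) (b : Fin T → M) (w : Fin T → Aff m) (s : ℝ) : M → List (Fin (T + 1)) → M → M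
  | _, [], z => z
  | x, σ :: l, z => cms A F bb f b w s (stp f b x σ) l (stm A F bb f b w s x σ z)

/-- the product of the factors -/
noncomputable def fcs (A : FAtlas m M) (bb : Fin A.J → M → ℝ) (f : M → M) (b : Fin T → M) (s : ℝ) :
    M → List (Fin (T + 1)) → ℝ
  | _, [] => 1
  | x, σ :: l => fcs A bb f b s (stp f b x σ) l * fc A bb s (f x)

/-- the data of the kicks -/
structure Kicks (A : FAtlas m M) (F : V (m + m * m) × V m → V m) (κF : ℝ) (bb : Fin A.J → M → ℝ)
    (a b : Fin T → M) (R : Fin T → V m →L[ℝ] V m) (w : Fin T → Aff m) (s : ℝ) : Prop where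
  hs : ∀ c z, ‖s • (bb c z • sc (A.χ c) z)‖ < κF
  src : ∀ t, a t ∈ (A.χ (A.jx (b t))).source
  le8 : ∀ t, ‖A.χ (A.jx (b t)) (a t)‖ ≤ 1 / 8
  hw : ∀ t, ‖sp m (w t)‖ < κF
  hwy : ∀ t, A.χ (A.jx (b t)) (a t) + (w t).1 + (w t).2 (A.χ (A.jx (b t)) (a t)) =
    A.χ (A.jx (b t)) (b t)
  hR : ∀ t, R t = ContinuousLinearMap.id ℝ (V m) + (w t).2

theorem step_sym (A : FAtlas m M) {F F' : V (m + m * m) × V m → V m} {κF : ℝ} (hκF : 0 < κF)
    (hF : LFam (m + m * m) m F F')
    (hlin : ∀ x v, ‖x‖ < κF → ‖v‖ ≤ 1 / 4 → F (x, v) = v + (affE m x).1 + (affE m x).2 v)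
    {bb : Fin A.J → M → ℝ} (hb0 : ∀ c z, bb c z ≠ 0 → z ∈ (A.χ c).source ∧ ‖A.χ c z‖ ≤ 1 / 8)
    {r : ℕ∞} (hr : 1 ≤ r) (f : DiffM m M r) {a b : Fin T → M} {R : Fin T → V m →L[ℝ] V m}
    {w : Fin T → Aff m} {s : ℝ} (hk : Kicks A F κF bb a b R w s) {x : M} {σ : Fin (T + 1)}
    (hσ : ∀ t : Fin T, σ = t.succ → f x = a t) :
    kap A F b w σ (f x) = stp f b x σ ∧ stm A F bb f b w s x σ x = stp f b x σ ∧
    HasFDerivAt (loc (A.χ (A.jx x)) (A.χ (A.jx (stp f b x σ))) (stm A F bb f b w s x σ))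
      (fc A bb s (f x) • lst A f b R x σ) (A.χ (A.jx x) x) := by
  induction σ using Fin.cases with
  | zero =>
    have h1 := step_core A hF hlin hb0 hr f (s := s) (x := x) (y := f x) (w := 0)
      (fun c => hk.hs c _) (A.src _) ((A.core _).le.trans (by norm_num)) (by
        unfold sp
        rw [map_zero, norm_zero]
        exact hκF) (by simp)
    have h0 : sp m (0 : Aff m) = 0 := by unfold sp; rw [map_zero]
    have h2 : tr (A.χ (A.jx (f x))) F (sp m (0 : Aff m)) = id := by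
      ext z
      rw [h0, tr_zero hF]
      rfl
    rw [h2] at h1
    obtain ⟨k1, k2, k3⟩ := h1
    refine ⟨rfl, k2, ?_⟩
    have e1 : (ContinuousLinearMap.id ℝ (V m) + (0 : Aff m).2) ∘L Dm A f x (f x) =
        Dm A f x (f x) := by
      ext1 v
      simp
    rw [e1] at k3
    exact k3
  | succ t =>
    have hfx := hσ t rfl
    obtain ⟨k1, k2, k3⟩ := step_core A hF hlin hb0 hr f (s := s) (x := x) (y := b t) (w := w t)
      (fun c => hk.hs c _) (by rw [hfx]; exact hk.src t) (by rw [hfx]; exact hk.le8 t) (hk.hw t)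
      (by rw [hfx]; exact hk.hwy t)
    refine ⟨k1, k2, ?_⟩
    rw [← hk.hR t] at k3
    exact k3

theorem kap_cont (A : FAtlas m M) {F F' : V (m + m * m) × V m → V m}
    (hF : LFam (m + m * m) m F F') (b : Fin T → M) (w : Fin T → Aff m) (σ : Fin (T + 1)) :
    Continuous (kap A F b w σ) := by
  induction σ using Fin.cases with
  | zero => exact continuous_id
  | succ t => exact tr_cont (A.good _) hF _

theorem stm_cont (A : FAtlas m M) {F F' : V (m + m * m) × V m → V m}
    (hF : LFam (m + m * m) m F F') (bb : Fin A.J → M → ℝ) {f : M → M} (hf : Continuous f)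
    (b : Fin T → M) (w : Fin T → Aff m) (s : ℝ) (x : M) (σ : Fin (T + 1)) :
    Continuous (stm A F bb f b w s x σ) :=
  (kap_cont A hF b w σ).comp ((trs_cont A.good hF _ _).comp hf)

theorem cms_cont (A : FAtlas m M) {F F' : V (m + m * m) × V m → V m}
    (hF : LFam (m + m * m) m F F') (bb : Fin A.J → M → ℝ) {f : M → M} (hf : Continuous f)
    (b : Fin T → M) (w : Fin T → Aff m) (s : ℝ) (l : List (Fin (T + 1))) : ∀ x,
    Continuous (cms A F bb f b w s x l) := by
  induction l with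
  | nil => exact fun x => continuous_id
  | cons σ l ih => exact fun x => (ih _).comp (stm_cont A hF bb hf b w s x σ)

/-- the composition along the pseudo-orbit -/
theorem chain_deriv (A : FAtlas m M) {F F' : V (m + m * m) × V m → V m} {κF : ℝ} (hκF : 0 < κF)
    (hF : LFam (m + m * m) m F F')
    (hlin : ∀ x v, ‖x‖ < κF → ‖v‖ ≤ 1 / 4 → F (x, v) = v + (affE m x).1 + (affE m x).2 v)
    {bb : Fin A.J → M → ℝ} (hb0 : ∀ c z, bb c z ≠ 0 → z ∈ (A.χ c).source ∧ ‖A.χ c z‖ ≤ 1 / 8)
    {r : ℕ∞} (hr : 1 ≤ r) (f : DiffM m M r) {a b : Fin T → M} {R : Fin T → V m →L[ℝ] V m}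
    {w : Fin T → Aff m} {s : ℝ} (hk : Kicks A F κF bb a b R w s) (l : List (Fin (T + 1))) :
    ∀ x, Val f a b x l → cms A F bb f b w s x l x = endp f b x l ∧
    HasFDerivAt (loc (A.χ (A.jx x)) (A.χ (A.jx (endp f b x l))) (cms A F bb f b w s x l))
      (fcs A bb f b s x l • lin A f b R x l) (A.χ (A.jx x) x) := by
  induction l with
  | nil =>
    intro x _
    refine ⟨rfl, ?_⟩
    show HasFDerivAt _ ((1 : ℝ) • ContinuousLinearMap.id ℝ (V m)) _
    rw [one_smul]
    refine (hasFDerivAt_id _).congr_of_eventuallyEq ?_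
    filter_upwards [(A.χ (A.jx x)).open_target.mem_nhds ((A.χ (A.jx x)).map_source (A.src x))]
      with v hv
    exact (A.χ (A.jx x)).right_inv hv
  | cons σ l ih =>
    intro x hV
    obtain ⟨-, k2, k3⟩ := step_sym A hκF hF hlin hb0 hr f hk hV.1
    obtain ⟨j1, j2⟩ := ih _ hV.2
    refine ⟨?_, ?_⟩
    · show cms A F bb f b w s (stp f b x σ) l (stm A F bb f b w s x σ x) =
        endp f b (stp f b x σ) l
      rw [k2, j1]
    · have e0 : (A.χ (A.jx x)).symm (A.χ (A.jx x) x) = x := (A.χ (A.jx x)).left_inv (A.src x)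
      have e1 : loc (A.χ (A.jx x)) (A.χ (A.jx (stp f b x σ))) (stm A F bb f b w s x σ)
          (A.χ (A.jx x) x) = A.χ (A.jx (stp f b x σ)) (stp f b x σ) := by
        unfold loc
        rw [e0, k2]
      have h1 : HasFDerivAt (loc (A.χ (A.jx (stp f b x σ)))
          (A.χ (A.jx (endp f b (stp f b x σ) l))) (cms A F bb f b w s (stp f b x σ) l) ∘
          loc (A.χ (A.jx x)) (A.χ (A.jx (stp f b x σ))) (stm A F bb f b w s x σ))
          ((fcs A bb f b s (stp f b x σ) l • lin A f b R (stp f b x σ) l) ∘L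
            (fc A bb s (f x) • lst A f b R x σ)) (A.χ (A.jx x) x) := by
        apply HasFDerivAt.comp
        · rw [e1]
          exact j2
        · exact k3
      have e2 : (fcs A bb f b s (stp f b x σ) l • lin A f b R (stp f b x σ) l) ∘L
            (fc A bb s (f x) • lst A f b R x σ) =
          fcs A bb f b s x (σ :: l) • lin A f b R x (σ :: l) := by
        ext1 v
        show fcs A bb f b s (stp f b x σ) l • lin A f b R (stp f b x σ) l
          (fc A bb s (f x) • lst A f b R x σ v) =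
          (fcs A bb f b s (stp f b x σ) l * fc A bb s (f x)) •
            lin A f b R (stp f b x σ) l (lst A f b R x σ v)
        rw [map_smul, smul_smul]
      rw [e2] at h1
      refine h1.congr_of_eventuallyEq ?_
      have hev : ∀ᶠ v in 𝓝 (A.χ (A.jx x) x), stm A F bb f b w s x σ ((A.χ (A.jx x)).symm v) ∈
          (A.χ (A.jx (stp f b x σ))).source := by
        have h2 : ContinuousAt (fun v => stm A F bb f b w s x σ ((A.χ (A.jx x)).symm v))
            (A.χ (A.jx x) x) :=
          (stm_cont A hF bb f.continuous b w s x σ).continuousAt.comp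
            ((A.χ (A.jx x)).continuousAt_symm ((A.χ (A.jx x)).map_source (A.src x)))
        apply h2.eventually_mem
        rw [e0, k2]
        exact (A.χ _).open_source.mem_nhds (A.src _)
      filter_upwards [hev] with v hv
      show A.χ _ (cms A F bb f b w s (stp f b x σ) l (stm A F bb f b w s x σ
        ((A.χ (A.jx x)).symm v))) =
        A.χ _ (cms A F bb f b w s (stp f b x σ) l ((A.χ (A.jx (stp f b x σ))).symm
          (A.χ (A.jx (stp f b x σ)) (stm A F bb f b w s x σ ((A.χ (A.jx x)).symm v)))))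
      rw [(A.χ (A.jx (stp f b x σ))).left_inv hv]
      rfl

/-- the bounds of the factors -/
theorem fc_bounds (A : FAtlas m M) {bb : Fin A.J → M → ℝ} (hb1 : ∀ c z, 0 ≤ bb c z ∧ bb c z ≤ 1)
    (hb2 : ∀ z, bb (A.jx z) z = 1) {s₀ : ℝ} (h0 : 0 < s₀) (h1 : s₀ < 1) (z : M) :
    1 + s₀ ≤ fc A bb s₀ z ∧ 0 ≤ fc A bb (-s₀) z ∧ fc A bb (-s₀) z ≤ 1 - s₀ := by
  have hmem : A.jx z ∈ List.finRange A.J := List.mem_finRange _
  have hnd := List.nodup_finRange A.J
  have hprod : ∀ s, fc A bb s z = ∏ c : Fin A.J, (1 + s * bb c z) := by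
    intro s
    unfold fc
    rw [← List.prod_toFinset _ hnd, List.toFinset_finRange]
  have hsplit : ∀ s, fc A bb s z = (1 + s) * ∏ c ∈ Finset.univ.erase (A.jx z), (1 + s * bb c z) := by
    intro s
    rw [hprod, ← Finset.mul_prod_erase _ _ (Finset.mem_univ (A.jx z)), hb2, mul_one]
  refine ⟨?_, ?_, ?_⟩
  · rw [hsplit]
    have h2 : 1 ≤ ∏ c ∈ Finset.univ.erase (A.jx z), (1 + s₀ * bb c z) := by
      calc (1 : ℝ) = ∏ c ∈ Finset.univ.erase (A.jx z), (1 : ℝ) := Finset.prod_const_one.symm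
        _ ≤ _ := Finset.prod_le_prod (fun _ _ => zero_le_one) (fun c _ => by
          have := mul_nonneg h0.le (hb1 c z).1
          linarith)
    nlinarith
  · rw [hprod]
    apply Finset.prod_nonneg
    intro c _
    have := mul_le_mul h1.le (hb1 c z).2 (hb1 c z).1 zero_le_one
    linarith
  · rw [hsplit]
    have h2 : ∏ c ∈ Finset.univ.erase (A.jx z), (1 + -s₀ * bb c z) ≤ 1 := by
      apply Finset.prod_le_one
      · intro c _
        have := mul_le_mul h1.le (hb1 c z).2 (hb1 c z).1 zero_le_one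
        linarith
      · intro c _
        have := mul_nonneg h0.le (hb1 c z).1
        linarith
    have h3 : 0 ≤ ∏ c ∈ Finset.univ.erase (A.jx z), (1 + -s₀ * bb c z) := by
      apply Finset.prod_nonneg
      intro c _
      have := mul_le_mul h1.le (hb1 c z).2 (hb1 c z).1 zero_le_one
      linarith
    nlinarith

theorem fcs_cont (A : FAtlas m M) (bb : Fin A.J → M → ℝ) (f : M → M) (b : Fin T → M)
    (l : List (Fin (T + 1))) : ∀ x, Continuous fun s => fcs A bb f b s x l := by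
  induction l with
  | nil => exact fun x => continuous_const
  | cons σ l ih =>
    intro x
    refine (ih _).mul ?_
    show Continuous fun s => ((List.finRange A.J).map fun c => 1 + s * bb c (f x)).prod
    exact continuous_list_prod _ fun c _ => continuous_const.add (continuous_id.mul continuous_const)

theorem fcs_bounds (A : FAtlas m M) {bb : Fin A.J → M → ℝ} (hb1 : ∀ c z, 0 ≤ bb c z ∧ bb c z ≤ 1)
    (hb2 : ∀ z, bb (A.jx z) z = 1) {s₀ : ℝ} (h0 : 0 < s₀) (h1 : s₀ < 1) (f : M → M) (b : Fin T → M)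
    (l : List (Fin (T + 1))) : ∀ x, (1 + s₀) ^ l.length ≤ fcs A bb f b s₀ x l ∧
      0 ≤ fcs A bb f b (-s₀) x l ∧ fcs A bb f b (-s₀) x l ≤ ((1 + s₀) ^ l.length)⁻¹ := by
  induction l with
  | nil =>
    intro x
    simp [fcs]
  | cons σ l ih =>
    intro x
    obtain ⟨i1, i2, i3⟩ := ih (stp f b x σ)
    obtain ⟨j1, j2, j3⟩ := fc_bounds A hb1 hb2 h0 h1 (f x)
    have hle : 1 - s₀ ≤ (1 + s₀)⁻¹ := by
      rw [le_inv_comm₀ (by linarith) (by linarith), inv_eq_one_div, le_div_iff₀ (by linarith)]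
      nlinarith
    refine ⟨?_, mul_nonneg i2 j2, ?_⟩
    · rw [List.length_cons, pow_succ]
      exact mul_le_mul i1 j1 (by linarith) ((by positivity : (0 : ℝ) ≤ (1 + s₀) ^ l.length).trans i1)
    · rw [List.length_cons, pow_succ, mul_inv]
      exact mul_le_mul i3 (j3.trans hle) j2 (by positivity)

end chain

end Pool.Agent.H245.SH
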