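import Pool.Agent.H245.SH.U4

/-!
# The star condition along closed pseudo-orbits with few jumps
-/

set_option autoImplicit false
set_option linter.unusedSectionVars false

open scoped Manifold ContDiff Topology NNReal
open Filter Set Metric

universe u v w

namespace Pool.Agent.H245.SH

open Pool.Agent.H718R2.G Pool.Agent.W564.SC Pool.Agent.TH80.OMS Pool.Agent.Y271.CP
  Pool.Agent.Y504.CO

/-- exchange of the first two coordinates -/
def swapE {m k n : ℕ} {M : Type v} [TopologicalSpace M] [ChartedSpace (V m) M]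
    {Y : Type w} [TopologicalSpace Y] [ChartedSpace (V k) Y]
    {N : Type u} [TopologicalSpace N] [ChartedSpace (V n) N]
    (E : GEmb m n ((𝓡 m).prod (𝓡 k)) M (M × Y) N) :
    GEmb m n ((𝓡 m).prod (𝓡 k)) M (M × Y) N where
  Θ := fun p => E.Θ (p.2.1, (p.1, p.2.2))
  Ψ := fun z => ((E.Ψ z).2.1, ((E.Ψ z).1, (E.Ψ z).2.2))
  left := fun p => by
    simp only [E.left]
  smooth := by
    have h1 : ContMDiff ((𝓡 m).prod ((𝓡 m).prod (𝓡 k))) ((𝓡 m).prod ((𝓡 m).prod (𝓡 k))) ∞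
        (fun p : M × (M × Y) => (p.2.1, (p.1, p.2.2))) :=
      (contMDiff_fst.comp contMDiff_snd).prodMk
        (contMDiff_fst.prodMk (contMDiff_snd.comp contMDiff_snd))
    exact E.smooth.comp h1
  open_range := by
    have h1 : range (fun p : M × (M × Y) => E.Θ (p.2.1, (p.1, p.2.2))) = range E.Θ := by
      apply Subset.antisymm
      · rintro _ ⟨p, rfl⟩
        exact ⟨_, rfl⟩
      · rintro _ ⟨⟨x, z, y⟩, rfl⟩
        exact ⟨(z, (x, y)), rfl⟩
    rw [h1]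
    exact E.open_range
  smooth' := fun p => by
    have h0 := E.smooth' (p.2.1, (p.1, p.2.2))
    have h1 : ContMDiff ((𝓡 m).prod ((𝓡 m).prod (𝓡 k))) ((𝓡 m).prod ((𝓡 m).prod (𝓡 k))) ∞
        (fun p : M × (M × Y) => (p.2.1, (p.1, p.2.2))) :=
      (contMDiff_fst.comp contMDiff_snd).prodMk
        (contMDiff_fst.prodMk (contMDiff_snd.comp contMDiff_snd))
    exact h1.contMDiffAt.comp _ h0

variable {m : ℕ} {M : Type v} [MetricSpace M] [CompactSpace M] [ChartedSpace (V m) M]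
  [IsManifold (𝓡 m) ∞ M]

/-- the parameters -/
abbrev Pr (m T J : ℕ) : Type := ℝ × (Fin T × Fin J → V (m + m * m))

/-- **The family of perturbations.** -/
theorem exists_pert (A : FAtlas m M) {F F' : V (m + m * m) × V m → V m}
    (hF : LFam (m + m * m) m F F')
    {bb : Fin A.J → M → ℝ} (hbs : ∀ c, ContMDiff (𝓡 m) 𝓘(ℝ, ℝ) ∞ (bb c))
    (hb0 : ∀ c z, bb c z ≠ 0 → z ∈ (A.χ c).source ∧ ‖A.χ c z‖ ≤ 1 / 8)
    {k n T : ℕ} {Y : Type w} [TopologicalSpace Y] [T2Space Y] [SigmaCompactSpace Y]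
    [ChartedSpace (V k) Y] [IsManifold (𝓡 k) ∞ Y] {N : Type u} [TopologicalSpace N] [T2Space N]
    [CompactSpace N] [ChartedSpace (V n) N] [IsManifold (𝓡 n) ∞ N]
    (E : GEmb m n ((𝓡 m).prod (𝓡 k)) M (M × Y) N) {r : ℕ∞} (hr : 1 ≤ r) (f : M → M) {h : Y → Y}
    {K : Set Y} (G : DiffM n N r)
    (hG : ∀ x z, ∀ y ∈ K, G (E.Θ (x, (z, y))) = E.Θ (f x, (f z, h y)))
    {W : Fin (T + 1) → Set Y} (hWc : ∀ i, IsCompact (W i)) (hWd : ∀ i j, i ≠ j → Disjoint (W i) (W j))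
    (U : Set (DiffM n N r)) (hU : IsOpen[strongTop n N r] U) (hGU : G ∈ U) (z₀ : N) :
    ∃ κ : ℝ, 0 < κ ∧ ∀ (b : Fin T → M) (w : Fin T → Aff m) (s : ℝ), |s| < κ →
      (∀ t, ‖sp m (w t)‖ < κ) → ∃ g ∈ U, ∀ (x z : M) (y : Y) (σ : Fin (T + 1)), y ∈ K → h y ∈ W σ →
        g ((swapE E).Θ (z, (x, y))) = (swapE E).Θ (stm A F bb f b w s x σ z,
          (kap A F b w σ (f x), h y)) := by
  classical
  obtain ⟨β, C, hβ, hC, hC0, hβ1, hβ0⟩ := exists_beta (k := k) hWc hWd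
  obtain ⟨βY, CY, hβY, hCY, hCY0, hβY1, -⟩ := exists_beta (k := k) (S := 1)
    (W := fun _ => ⋃ i, W i) (fun _ => isCompact_iUnion hWc)
    (fun i j hij => absurd (Subsingleton.elim i j) hij)
  -- the scalings
  obtain ⟨ΦD, hΦD⟩ : ∃ ΦD : Fin A.J → M × Y → (Pr m T A.J →L[ℝ] V (m + m * m)), ΦD = fun c z =>
    βY 0 z.2 • (ContinuousLinearMap.smulRightL ℝ (Pr m T A.J) (V (m + m * m))
      (ContinuousLinearMap.fst ℝ ℝ (Fin T × Fin A.J → V (m + m * m)))) (bb c z.1 • sc (A.χ c) z.1) :=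
    ⟨_, rfl⟩
  have hΦDs : ∀ c, ContMDiff ((𝓡 m).prod (𝓡 k)) 𝓘(ℝ, Pr m T A.J →L[ℝ] V (m + m * m)) ∞ (ΦD c) := by
    intro c
    rw [hΦD]
    have h1 : ContMDiff ((𝓡 m).prod (𝓡 k)) 𝓘(ℝ, V (m + m * m)) ∞
        (fun z : M × Y => bb c z.1 • sc (A.χ c) z.1) :=
      (sc_smooth (A.good c) (hbs c) (hb0 c)).comp contMDiff_fst
    have h2 := ((ContinuousLinearMap.smulRightL ℝ (Pr m T A.J) (V (m + m * m))
      (ContinuousLinearMap.fst ℝ ℝ (Fin T × Fin A.J → V (m + m * m)))).contDiff.contMDiff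
      (n := ∞)).comp h1
    exact ((hβY 0).comp contMDiff_snd).smul h2
  have hΦDK : ∀ c (z : M × Y), z ∉ univ ×ˢ CY 0 → ΦD c z = 0 := by
    intro c z hz
    rw [hΦD]
    simp only
    rw [hCY0 0 z.2 fun h => hz ⟨mem_univ _, h⟩, zero_smul]
  have hΦDa : ∀ c (z : M × Y) (p : Pr m T A.J), (∃ i, z.2 ∈ W i) →
      ΦD c z p = p.1 • (bb c z.1 • sc (A.χ c) z.1) := by
    rintro c z p ⟨i, hi⟩
    rw [hΦD]
    simp only
    rw [hβY1 0 z.2 (mem_iUnion.2 ⟨i, hi⟩), one_smul]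
    rfl
  -- the kicks
  obtain ⟨ΦK, hΦK⟩ : ∃ ΦK : Fin T × Fin A.J → M × Y → (Pr m T A.J →L[ℝ] V (m + m * m)),
    ΦK = fun q z => β q.1.succ z.2 •
      ((ContinuousLinearMap.proj q : (Fin T × Fin A.J → V (m + m * m)) →L[ℝ] V (m + m * m)) ∘L
        (ContinuousLinearMap.snd ℝ ℝ (Fin T × Fin A.J → V (m + m * m)))) := ⟨_, rfl⟩
  have hΦKs : ∀ q, ContMDiff ((𝓡 m).prod (𝓡 k)) 𝓘(ℝ, Pr m T A.J →L[ℝ] V (m + m * m)) ∞ (ΦK q) := by
    intro q
    rw [hΦK]
    exact ((hβ _).comp contMDiff_snd).smul contMDiff_const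
  have hΦKK : ∀ q (z : M × Y), z ∉ univ ×ˢ C q.1.succ → ΦK q z = 0 := by
    intro q z hz
    rw [hΦK]
    simp only
    refine ContinuousLinearMap.ext fun p => ?_
    show β q.1.succ z.2 • p.2 q = 0
    rw [hC0 _ z.2 fun h => hz ⟨mem_univ _, h⟩, zero_smul]
  have hΦKa : ∀ q (z : M × Y) (p : Pr m T A.J), ΦK q z p = β q.1.succ z.2 • p.2 q := by
    intro q z p
    rw [hΦK]
    rfl
  obtain ⟨HD, HD', hHD, hHDa⟩ := exists_gpushs (swapE E) A.good hF hΦDs
    (fun _ => isCompact_univ.prod (hCY 0)) hΦDK (List.finRange A.J)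
  obtain ⟨H2, H2', hH2, hH2a⟩ := exists_gpushs (swapE E) (χ := fun q : Fin T × Fin A.J => A.χ q.2)
    (fun q => A.good q.2) hF hΦKs (fun q => isCompact_univ.prod (hC q.1.succ)) hΦKK
    (Finset.univ : Finset (Fin T × Fin A.J)).toList
  obtain ⟨H1, H1', hH1, hH1a⟩ := exists_gpushs E (χ := fun q : Fin T × Fin A.J => A.χ q.2)
    (fun q => A.good q.2) hF hΦKs (fun q => isCompact_univ.prod (hC q.1.succ)) hΦKK
    (Finset.univ : Finset (Fin T × Fin A.J)).toList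
  have hDF := (hHD.comp hH2).comp hH1
  obtain ⟨κ, hκ, hmem⟩ := hDF.fam_mem hr G z₀ U hU hGU
  refine ⟨κ, hκ, fun b w s hs hw => ?_⟩
  obtain ⟨p, hp⟩ : ∃ p : Pr m T A.J, p = (s, fun q => if q.2 = A.jx (b q.1) then sp m (w q.1) else 0) :=
    ⟨_, rfl⟩
  have hpn : ‖p‖ < κ := by
    rw [hp, Prod.norm_def, max_lt_iff]
    refine ⟨by rw [Real.norm_eq_abs]; exact hs, ?_⟩
    rw [pi_norm_lt_iff hκ]
    intro q
    simp only
    split_ifs
    · exact hw q.1
    · rw [norm_zero]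
      exact hκ
  refine ⟨_, hmem p hpn, fun x z y σ hy hhy => ?_⟩
  rw [hDF.fam_apply]
  have e1 : G ((swapE E).Θ (z, (x, y))) = (swapE E).Θ (f z, (f x, h y)) := hG x z y hy
  rw [e1, hHDa, hH2a]
  have e2 : trs A.χ F (fun c => ΦD c (f x, h y) p) (List.finRange A.J) (f z) =
      DD A F bb s (f x) (f z) := by
    unfold DD
    congr 1
    ext1 c
    rw [hΦDa c (f x, h y) p ⟨σ, hhy⟩, hp]
  rw [e2]
  -- the kick of the symbol
  have e3 : ∀ (z' : M) (v : M), trs (fun q : Fin T × Fin A.J => A.χ q.2) F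
      (fun q => ΦK q (v, h y) p) (Finset.univ : Finset (Fin T × Fin A.J)).toList z' =
      kap A F b w σ z' := by
    intro z' v
    induction σ using Fin.cases with
    | zero =>
      apply trs_zero hF
      intro q _
      rw [hΦKa]
      simp only
      rw [hβ0 q.1.succ 0 (Fin.succ_ne_zero _) _ hhy, zero_smul]
    | succ t =>
      rw [trs_one hF (i₀ := (t, A.jx (b t))) z' ?_ _ (Finset.nodup_toList _)
        (Finset.mem_toList.2 (Finset.mem_univ _))]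
      · rw [hΦKa]
        simp only
        rw [hβ1 t.succ _ hhy, one_smul, hp]
        simp only [if_true]
        rfl
      · intro q hq
        rw [hΦKa]
        simp only
        by_cases hqt : q.1 = t
        · have hq2 : q.2 ≠ A.jx (b q.1) := by
            intro h0
            apply hq
            rw [hqt] at h0
            exact Prod.ext hqt h0
          rw [hp]
          simp only
          rw [if_neg hq2, smul_zero]
        · rw [hβ0 q.1.succ t.succ (fun h0 => hqt (Fin.succ_injective _ h0)) _ hhy, zero_smul]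
  rw [e3]
  have e4 : (swapE E).Θ (kap A F b w σ (DD A F bb s (f x) (f z)), (f x, h y)) =
      E.Θ (f x, (kap A F b w σ (DD A F bb s (f x) (f z)), h y)) := rfl
  rw [e4, hH1a, e3]
  rfl

/-- the iterates -/
theorem pert_iter (A : FAtlas m M) {F : V (m + m * m) × V m → V m} {bb : Fin A.J → M → ℝ}
    {k n T : ℕ} {Y : Type w} [TopologicalSpace Y]
    [ChartedSpace (V k) Y] {N : Type u} [TopologicalSpace N] [ChartedSpace (V n) N]
    (E : GEmb m n ((𝓡 m).prod (𝓡 k)) M (M × Y) N) {f : M → M} {h : Y → Y}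
    {K : Set Y} {W : Fin (T + 1) → Set Y} {g : N → N} {a b : Fin T → M} {w : Fin T → Aff m} {s : ℝ}
    (hkap : ∀ (x : M) (σ : Fin (T + 1)), (∀ t : Fin T, σ = t.succ → f x = a t) →
      kap A F b w σ (f x) = stp f b x σ)
    (hg : ∀ (x z : M) (y : Y) (σ : Fin (T + 1)), y ∈ K → h y ∈ W σ →
        g ((swapE E).Θ (z, (x, y))) = (swapE E).Θ (stm A F bb f b w s x σ z,
          (kap A F b w σ (f x), h y))) (l : List (Fin (T + 1))) :
    ∀ (x z : M) (y : Y), Val f a b x l → Fol h K W y l →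
      g^[l.length] ((swapE E).Θ (z, (x, y))) =
        (swapE E).Θ (cms A F bb f b w s x l z, (endp f b x l, h^[l.length] y)) := by
  induction l with
  | nil => exact fun x z y _ _ => rfl
  | cons σ l ih =>
    intro x z y hV hFo
    rw [List.length_cons, Function.iterate_succ_apply, Function.iterate_succ_apply,
      hg x z y σ hFo.1 hFo.2.1, hkap x σ hV.1, ih _ _ _ hV.2 hFo.2.2]
    rfl

/-- **The star condition.** -/
theorem kick_star (A : FAtlas m M) {r : ℕ∞} (hr : 1 ≤ r) (f : DiffM m M r) {k n T N₀ : ℕ}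
    {Y : Type w} [TopologicalSpace Y] [T2Space Y] [SigmaCompactSpace Y]
    [ChartedSpace (V k) Y] [IsManifold (𝓡 k) ∞ Y] [Nonempty M] [Nonempty Y] {h : Y → Y} {K : Set Y}
    {N : Type u} [TopologicalSpace N] [T2Space N] [CompactSpace N] [ChartedSpace (V n) N]
    [IsManifold (𝓡 n) ∞ N] (E : GEmb m n ((𝓡 m).prod (𝓡 k)) M (M × Y) N) (G : DiffM n N r)
    (hdr : Driver T N₀ h K)
    (hG : ∀ x z, ∀ y ∈ K, G (E.Θ (x, (z, y))) = E.Θ (f x, (f z, h y))) (hst : CStar n N r G) :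
    ∃ ε ρ : ℝ, 0 < ε ∧ 1 < ρ ∧ ∀ (a b : Fin T → M) (R : Fin T → V m →L[ℝ] V m),
      (∀ t, dist (a t) (b t) < ε) → (∀ t, ‖R t - ContinuousLinearMap.id ℝ (V m)‖ < ε) →
      ∀ bs : List (Fin T × ℕ), bs ≠ [] → (∀ q ∈ bs, N₀ ≤ q.2) → ∀ x, Val f a b x (sym bs) →
        endp f b x (sym bs) = x → ∀ s : ℝ, (ρ ^ (sym bs).length)⁻¹ ≤ s →
        s ≤ ρ ^ (sym bs).length → NoOne (s • lin A f b R x (sym bs)) := by
  obtain ⟨bb, hbs, hb1, hb0, hb2⟩ := exists_bumps A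
  obtain ⟨F, F', κF, hκF, hF, hlin⟩ := aff_family m
  obtain ⟨W, hWc, hWd, hW⟩ := hdr
  obtain ⟨U, hU, hGU, hhyp⟩ := hst
  obtain ⟨κ₀, hκ₀, hpert⟩ := exists_pert A hF hbs hb0 E hr f G hG hWc hWd U hU hGU
    (E.Θ (Classical.arbitrary M, (Classical.arbitrary M, Classical.arbitrary Y)))
  -- constants
  obtain ⟨C, hC⟩ : ∃ C : ℝ, C = ‖((affE m).symm : Aff m →L[ℝ] V (m + m * m))‖ + 1 := ⟨_, rfl⟩
  have hC1 : 1 ≤ C := by
    have := norm_nonneg ((affE m).symm : Aff m →L[ℝ] V (m + m * m))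
    linarith
  have hsp : ∀ w : Aff m, ‖sp m w‖ ≤ C * ‖w‖ := by
    intro w
    have h1 := ((affE m).symm : Aff m →L[ℝ] V (m + m * m)).le_opNorm w
    refine h1.trans ?_
    gcongr
    linarith
  obtain ⟨κ₁, hκ₁⟩ : ∃ κ₁, κ₁ = min κF κ₀ := ⟨_, rfl⟩
  have hκ₁0 : 0 < κ₁ := by rw [hκ₁]; exact lt_min hκF hκ₀
  have hκ₁F : κ₁ ≤ κF := by rw [hκ₁]; exact min_le_left _ _
  have hκ₁0' : κ₁ ≤ κ₀ := by rw [hκ₁]; exact min_le_right _ _
  obtain ⟨κ, hκ⟩ : ∃ κ, κ = min (κ₁ / (4 * C)) (1 / 16) := ⟨_, rfl⟩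
  have hκ0 : 0 < κ := by rw [hκ]; positivity
  have hκa : κ ≤ κ₁ / (4 * C) := by rw [hκ]; exact min_le_left _ _
  have hκb : κ ≤ 1 / 16 := by rw [hκ]; exact min_le_right _ _
  obtain ⟨ε₀, hε₀, hclose⟩ := exists_close A hκ0
  obtain ⟨s₀, hs₀⟩ : ∃ s₀, s₀ = min (κ₁ / (4 * C)) (1 / 2) := ⟨_, rfl⟩
  have hs0 : 0 < s₀ := by rw [hs₀]; positivity
  have hsa : s₀ ≤ κ₁ / (4 * C) := by rw [hs₀]; exact min_le_left _ _
  have hsb : s₀ ≤ 1 / 2 := by rw [hs₀]; exact min_le_right _ _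
  have h4C : κ₁ / (4 * C) * (4 * C) = κ₁ := by field_simp
  have hsC : s₀ * C < κ₁ := by nlinarith
  have hs1 : s₀ < κ₁ := by nlinarith
  refine ⟨min ε₀ κ, 1 + s₀, lt_min hε₀ hκ0, by linarith, ?_⟩
  intro a b R hab hR bs hbs0 hbsN x hV hend s hs hs'
  -- the kicks
  obtain ⟨w, hw⟩ : ∃ w : Fin T → Aff m, w = fun t => (A.χ (A.jx (b t)) (b t) -
    A.χ (A.jx (b t)) (a t) - (R t - ContinuousLinearMap.id ℝ (V m)) (A.χ (A.jx (b t)) (a t)),
    R t - ContinuousLinearMap.id ℝ (V m)) := ⟨_, rfl⟩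
  have hcl : ∀ t, a t ∈ (A.χ (A.jx (b t))).source ∧
      ‖A.χ (A.jx (b t)) (a t) - A.χ (A.jx (b t)) (b t)‖ < κ := fun t =>
    hclose _ _ _ ((hab t).trans_le (min_le_left _ _)) (A.src _) (A.core _).le
  have h8 : ∀ t, ‖A.χ (A.jx (b t)) (a t)‖ ≤ 1 / 8 := by
    intro t
    have h1 := (hcl t).2
    have h2 := A.core (b t)
    have h3 : A.χ (A.jx (b t)) (a t) = (A.χ (A.jx (b t)) (a t) - A.χ (A.jx (b t)) (b t)) +
      A.χ (A.jx (b t)) (b t) := by abel
    rw [h3]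
    refine (norm_add_le _ _).trans ?_
    linarith
  have hwn : ∀ t, ‖sp m (w t)‖ < κ₁ := by
    intro t
    have hRt : ‖R t - ContinuousLinearMap.id ℝ (V m)‖ ≤ κ :=
      ((hR t).trans_le (min_le_right _ _)).le
    have h1 : ‖w t‖ ≤ 2 * κ := by
      rw [hw, Prod.norm_def, max_le_iff]
      refine ⟨?_, by linarith⟩
      refine (norm_sub_le _ _).trans ?_
      have h2 : ‖A.χ (A.jx (b t)) (b t) - A.χ (A.jx (b t)) (a t)‖ ≤ κ := by
        rw [norm_sub_rev]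
        exact (hcl t).2.le
      have h3 : ‖(R t - ContinuousLinearMap.id ℝ (V m)) (A.χ (A.jx (b t)) (a t))‖ ≤ κ * (1 / 8) :=
        (ContinuousLinearMap.le_opNorm _ _).trans (mul_le_mul hRt (h8 t) (norm_nonneg _) hκ0.le)
      linarith
    calc _ ≤ C * ‖w t‖ := hsp _
      _ ≤ C * (2 * (κ₁ / (4 * C))) := by
        gcongr
        linarith
      _ = κ₁ / 2 := by field_simp; norm_num
      _ < κ₁ := by linarith
  have hkick : ∀ s, |s| ≤ s₀ → Kicks A F κF bb a b R w s := by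
    intro s hs
    refine ⟨fun c z => ?_, fun t => (hcl t).1, h8, fun t => (hwn t).trans_le hκ₁F, fun t => ?_,
      fun t => ?_⟩
    · by_cases hbz : bb c z = 0
      · rw [hbz, zero_smul, smul_zero, norm_zero]
        exact hκF
      · obtain ⟨h2, h3⟩ := hb0 c z hbz
        have h4 : ‖sc (A.χ c) z‖ ≤ C := by
          unfold sc
          refine (hsp _).trans ?_
          have : ‖((-(A.χ c z), ContinuousLinearMap.id ℝ (V m)) : Aff m)‖ ≤ 1 := by
            rw [Prod.norm_def, max_le_iff, norm_neg]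
            exact ⟨by linarith, ContinuousLinearMap.norm_id_le⟩
          nlinarith
        rw [norm_smul, norm_smul, Real.norm_eq_abs, Real.norm_eq_abs, abs_of_nonneg (hb1 c z).1]
        calc |s| * (bb c z * ‖sc (A.χ c) z‖) ≤ s₀ * (1 * C) :=
              mul_le_mul hs (mul_le_mul (hb1 c z).2 h4 (norm_nonneg _) zero_le_one)
                (mul_nonneg (hb1 c z).1 (norm_nonneg _)) hs0.le
          _ = s₀ * C := by ring
          _ < κ₁ := hsC
          _ ≤ κF := hκ₁F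
    · rw [hw]
      simp only
      abel
    · rw [hw]
      simp only
      abel
  -- the star condition with the factor
  have key : ∀ s, |s| ≤ s₀ → NoOne (fcs A bb f b s x (sym bs) • lin A f b R x (sym bs)) := by
    intro s hs
    have hk := hkick s hs
    obtain ⟨g, hgU, hg⟩ := hpert b w s (hs.trans_lt (hs1.trans_le hκ₁0'))
      (fun t => (hwn t).trans_le hκ₁0')
    obtain ⟨y, hy, hyF⟩ := hW bs hbs0 hbsN
    have hit := pert_iter A E (a := a) (fun x σ hσ => (step_sym A hκF hF hlin hb0 hr f hk hσ).1) hg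
      (sym bs)
    have hret : ∀ z, g^[(sym bs).length] ((swapE E).Θ (z, (x, y))) =
        (swapE E).Θ (cms A F bb f b w s x (sym bs) z, (x, y)) := by
      intro z
      rw [hit x z y hV hyF, hend, hy]
    obtain ⟨c1, c2⟩ := chain_deriv A hκF hF hlin hb0 hr f hk (sym bs) x hV
    rw [hend] at c1 c2
    have hlen : 1 ≤ (sym bs).length := by
      obtain ⟨q, bs', rfl⟩ := List.exists_cons_of_ne_nil hbs0
      unfold sym
      rw [List.flatMap_cons, List.length_append, List.length_append, List.length_singleton]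
      omega
    refine gslice_noOne (swapE E) hr g hlen hret (A.good (A.jx x)).mem (A.src x)
      (cms_cont A hF bb f.continuous b w s _ x).continuousAt c1 c2 (hhyp g hgU _ ?_)
    refine ⟨(sym bs).length, hlen, ?_⟩
    rw [hret, c1]
  -- all factors
  obtain ⟨b1, -, b3⟩ := fcs_bounds A hb1 hb2 hs0 (by linarith) f b (sym bs) x
  have hivt := intermediate_value_Icc (show -s₀ ≤ s₀ by linarith)
    (fcs_cont A bb f b (sym bs) x).continuousOn
  obtain ⟨t, ht, hts⟩ := hivt ⟨b3.trans hs, hs'.trans b1⟩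
  have h5 := key t (abs_le.2 ⟨ht.1, ht.2⟩)
  simp only at hts
  rwa [hts] at h5

end Pool.Agent.H245.SH
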