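import Pool.Agent.H245.SH.V5

/-!
# Periodic orbits: from loops to uniform hyperbolicity
-/

set_option autoImplicit false
set_option linter.unusedSectionVars false

open Filter Set Metric
open scoped Topology

namespace Pool.Agent.H245.SH

universe u

variable {X : Type u} {E : Type} [NormedAddCommGroup E] [InnerProductSpace ℝ E]
  [FiniteDimensional ℝ E]

namespace Coc

theorem loops_contract (d : Coc X E) {P : X → Prop} (hP : ∀ x, P x → P (d.f x))
    {B : X → Submodule ℝ E} (hB : ∀ x, P x → ∀ v ∈ B x, d.A x v ∈ B (d.f x)) {K : ℕ}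
    (col : X → Fin K) {C₄ q : ℝ} (hC₄ : 1 ≤ C₄) (hq0 : 0 < q) (hq1 : q < 1)
    (hloop : ∀ x, P x → ∀ m, col x = col (d.f^[m] x) → ∀ v ∈ B x,
      ‖d.word x (ids E) m v‖ ≤ C₄ * q ^ m * ‖v‖) (x : X) (hx : P x) (m : ℕ) (v : E)
    (hv : v ∈ B x) : ‖d.word x (ids E) m v‖ ≤ (C₄ * d.Λ / q) ^ K * q ^ m * ‖v‖ := by
  classical
  have hΛ := d.one_le
  have hD1 : 1 ≤ C₄ * d.Λ / q := by
    rw [one_le_div hq0]
    nlinarith
  have hPi : ∀ (x : X), P x → ∀ i, P (d.f^[i] x) := by
    intro x hx i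
    induction i with
    | zero => exact hx
    | succ i ih =>
      rw [Function.iterate_succ_apply']
      exact hP _ ih
  have hBi : ∀ (x : X), P x → ∀ v ∈ B x, ∀ i, d.word x (ids E) i v ∈ B (d.f^[i] x) := by
    intro x hx v hv i
    induction i with
    | zero => exact hv
    | succ i ih =>
      rw [Function.iterate_succ_apply', word_ids_succ']
      exact hB _ (hPi x hx i) _ ih
  have key : ∀ (k : ℕ) (x : X) (m : ℕ), P x →
      ((Finset.range (m + 1)).image fun i => col (d.f^[i] x)).card ≤ k → ∀ v ∈ B x,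
      ‖d.word x (ids E) m v‖ ≤ (C₄ * d.Λ / q) ^ k * q ^ m * ‖v‖ := by
    intro k
    induction k with
    | zero =>
      intro x m hx hk v hv
      exfalso
      have h1 : col x ∈ (Finset.range (m + 1)).image fun i => col (d.f^[i] x) :=
        Finset.mem_image.2 ⟨0, Finset.mem_range.2 (by omega), rfl⟩
      have h2 := Finset.card_pos.2 ⟨_, h1⟩
      omega
    | succ k ih =>
      intro x m hx hk v hv
      obtain ⟨t, ht⟩ : ∃ t, t = Nat.findGreatest (fun i => col (d.f^[i] x) = col x) m := ⟨_, rfl⟩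
      have htm : t ≤ m := by rw [ht]; exact Nat.findGreatest_le m
      have htc : col (d.f^[t] x) = col x := by
        rw [ht]
        exact Nat.findGreatest_spec (P := fun i => col (d.f^[i] x) = col x) (Nat.zero_le m) rfl
      have htg : ∀ i, t < i → i ≤ m → col (d.f^[i] x) ≠ col x := by
        intro i hi him
        rw [ht] at hi
        exact Nat.findGreatest_is_greatest hi him
      have h1 := hloop x hx t htc.symm v hv
      rcases Nat.eq_or_lt_of_le htm with h | h
      · rw [← h]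
        refine h1.trans ?_
        gcongr
        calc C₄ ≤ C₄ * d.Λ / q := by
              rw [le_div_iff₀ hq0]
              nlinarith
          _ = (C₄ * d.Λ / q) ^ 1 := (pow_one _).symm
          _ ≤ _ := pow_le_pow_right₀ hD1 (by omega)
      · obtain ⟨j, rfl⟩ : ∃ j, m = t + 1 + j := ⟨m - (t + 1), by omega⟩
        have h2 := ih (d.f^[t + 1] x) j (hPi x hx _) (by
          have h3 : ((Finset.range (j + 1)).image fun i => col (d.f^[i] (d.f^[t + 1] x))) ⊆
              ((Finset.range (t + 1 + j + 1)).image fun i => col (d.f^[i] x)).erase (col x) := by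
            intro y hy
            obtain ⟨i, hi, hiy⟩ := Finset.mem_image.1 hy
            rw [Finset.mem_range] at hi
            rw [← Function.iterate_add_apply] at hiy
            refine Finset.mem_erase.2 ⟨?_, Finset.mem_image.2 ⟨i + (t + 1), ?_, hiy⟩⟩
            · rw [← hiy]
              exact htg _ (by omega) (by omega)
            · exact Finset.mem_range.2 (by omega)
          have h4 : col x ∈ (Finset.range (t + 1 + j + 1)).image fun i => col (d.f^[i] x) :=
            Finset.mem_image.2 ⟨0, Finset.mem_range.2 (by omega), rfl⟩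
          have h5 := Finset.card_le_card h3
          rw [Finset.card_erase_of_mem h4] at h5
          omega) _ (hBi x hx v hv (t + 1))
        rw [word_ids_add]
        refine h2.trans ?_
        have h6 : ‖d.word x (ids E) (t + 1) v‖ ≤ d.Λ * (C₄ * q ^ t * ‖v‖) := by
          rw [word_ids_succ']
          exact (d.bd _ _).trans (by gcongr)
        calc _ ≤ (C₄ * d.Λ / q) ^ k * q ^ j * (d.Λ * (C₄ * q ^ t * ‖v‖)) := by gcongr
          _ = (C₄ * d.Λ / q) ^ (k + 1) * q ^ (t + 1 + j) * ‖v‖ := by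
            rw [pow_succ, pow_add, pow_succ]
            field_simp
  exact key K x m hx ((Finset.card_le_univ _).trans (by rw [Fintype.card_fin])) v hv

variable {c : Coc X E}

/-- **Uniform hyperbolicity of the periodic orbits.** -/
theorem Cl.uniform {δ ρ CJ : ℝ} {N₁ : ℕ} {near : X → X → Prop} (h : c.Cl δ ρ CJ N₁ near)
    (hδ : 0 < δ) (hδ1 : δ ≤ 1) (hρ : 1 < ρ) (hCJ : 1 ≤ CJ) {K : ℕ} (col : X → Fin K)
    (hcol : ∀ x y, col x = col y → near x y) : ∃ C₇ ≥ 1, ∀ (x : X) (n : ℕ), 1 ≤ n →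
      c.f^[n] x = x → IsCompl (c.Bd x) (c.inv.Bd x) ∧
      (∀ v ∈ c.Bd x, ∀ m, ‖c.word x (ids E) m v‖ ≤ C₇ * ρ⁻¹ ^ m * ‖v‖) ∧
      ∀ w ∈ c.inv.Bd x, ∀ m, ‖c.inv.word x (ids E) m w‖ ≤ C₇ * ρ⁻¹ ^ m * ‖w‖ := by
  obtain ⟨C₄, hC₄, hcon⟩ := h.contract hδ hδ1 hρ hCJ
  have hq0 : 0 < ρ⁻¹ := by positivity
  have hq1 : ρ⁻¹ < 1 := inv_lt_one_of_one_lt₀ hρ
  have hΛ := c.one_le
  have hD1 : 1 ≤ C₄ * c.Λ / ρ⁻¹ := by
    rw [one_le_div hq0]
    nlinarith
  refine ⟨(C₄ * c.Λ / ρ⁻¹) ^ K, one_le_pow₀ hD1, fun x n hn hx =>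
    ⟨h.compl hδ hδ1 hρ hn hx, fun v hv m => ?_, fun w hw m => ?_⟩⟩
  · refine loops_contract c (P := fun x => ∃ n, 1 ≤ n ∧ c.f^[n] x = x) ?_ (B := c.Bd) ?_ col
      hC₄ hq0 hq1 ?_ x ⟨n, hn, hx⟩ m v hv
    · rintro x ⟨n, hn, hx⟩
      refine ⟨n, hn, ?_⟩
      rw [← Function.iterate_succ_apply, Function.iterate_succ_apply', hx]
    · intro x _ v hv
      exact c.A_mem_Bd.2 hv
    · rintro x ⟨n, hn, hx⟩ m hm v hv
      exact (hcon x n hn hx m (hcol _ _ hm)).1 v hv
  · refine loops_contract c.inv (P := fun x => ∃ n, 1 ≤ n ∧ c.f^[n] x = x) ?_ (B := c.inv.Bd) ?_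
      col hC₄ hq0 hq1 ?_ x ⟨n, hn, hx⟩ m w hw
    · rintro x ⟨n, hn, hx⟩
      refine ⟨n, hn, ?_⟩
      apply c.f.injective
      show c.f (c.f^[n] (c.f.symm x)) = c.f (c.f.symm x)
      rw [← Function.iterate_succ_apply' (f := (c.f : X → X)), Function.iterate_succ_apply,
        Equiv.apply_symm_apply, hx]
    · intro x _ v hv
      exact c.inv.A_mem_Bd.2 hv
    · rintro x ⟨n, hn, hx⟩ m hm w hw
      obtain ⟨y, hy⟩ : ∃ y, y = c.f.symm^[m] x := ⟨_, rfl⟩
      have hfy : c.f^[m] y = x := by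
        rw [hy]
        exact (Function.LeftInverse.iterate c.f.apply_symm_apply m) x
      have hyn : c.f^[n] y = y := by
        have h1 : c.f^[m] (c.f^[n] y) = c.f^[m] y := by
          rw [← Function.iterate_add_apply, add_comm m n, Function.iterate_add_apply, hfy, hx]
        exact (c.f.injective.iterate m) h1
      have h1 : col y = col (c.f^[m] y) := by
        rw [hfy]
        have : c.inv.f^[m] x = y := hy.symm
        rw [this] at hm
        exact hm.symm
      have h2 := (hcon y n hn hyn m (hcol _ _ h1)).2 (c.inv.word x (ids E) m w) (by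
        have h3 := c.inv.word_mem_Bd (x := x) (v := w) m
        have h4 : c.inv.f^[m] x = y := hy.symm
        rw [h4] at h3
        exact h3.2 hw)
      have h5 := inv_word_cancel (c := c) x m w
      rw [← hy] at h5
      rw [h5] at h2
      exact h2

end Coc

end Pool.Agent.H245.SH
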