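import Pool.Agent.H245.SH.U5
import Pool.Agent.H245.SH.V6
import Pool.Agent.H245.SH.C1

/-!
# The closed words along periodic orbits
-/

set_option autoImplicit false
set_option linter.unusedSectionVars false

open scoped Manifold ContDiff Topology NNReal
open Filter Set Metric

universe u v w

namespace Pool.Agent.H245.SH

open Pool.Agent.H718R2.G Pool.Agent.W564.SC Pool.Agent.TH80.OMS

section

variable {m : ℕ} {M : Type v} [MetricSpace M] [CompactSpace M] [ChartedSpace (V m) M]
  [IsManifold (𝓡 m) ∞ M] {T : ℕ}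

/-- the cocycle of the derivatives in charts -/
structure IsDc (A : FAtlas m M) (f : M → M) (c : Coc M (V m)) : Prop where
  f_eq : ∀ x, c.f x = f x
  A_eq : ∀ x v, c.A x v = Dm A f x (f x) v

variable {A : FAtlas m M} {f : M → M} {c : Coc M (V m)}

theorem IsDc.iter (hc : IsDc A f c) (x : M) (n : ℕ) : c.f^[n] x = f^[n] x := by
  induction n with
  | zero => rfl
  | succ n ih => rw [Function.iterate_succ_apply', Function.iterate_succ_apply', ih, hc.f_eq]

theorem sym_cons (q : Fin T × ℕ) (bs : List (Fin T × ℕ)) :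
    sym (q :: bs) = List.replicate q.2 0 ++ (q.1.succ :: sym bs) := by
  unfold sym
  rw [List.flatMap_cons, List.append_assoc]
  rfl

theorem sym_length (q : Fin T × ℕ) (bs : List (Fin T × ℕ)) :
    (sym (q :: bs)).length = q.2 + 1 + (sym bs).length := by
  rw [sym_cons, List.length_append, List.length_replicate, List.length_cons]
  omega

theorem endp_rep (b : Fin T → M) (p : ℕ) (l : List (Fin (T + 1))) : ∀ x,
    endp f b x (List.replicate p 0 ++ l) = endp f b (f^[p] x) l := by
  induction p with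
  | zero => exact fun x => rfl
  | succ p ih =>
    intro x
    rw [List.replicate_succ, List.cons_append]
    show endp f b (f x) (List.replicate p 0 ++ l) = _
    rw [ih, ← Function.iterate_succ_apply]

theorem val_rep (a b : Fin T → M) (p : ℕ) (l : List (Fin (T + 1))) : ∀ x,
    Val f a b x (List.replicate p 0 ++ l) ↔ Val f a b (f^[p] x) l := by
  induction p with
  | zero => exact fun x => Iff.rfl
  | succ p ih =>
    intro x
    rw [List.replicate_succ, List.cons_append]
    show (∀ t : Fin T, (0 : Fin (T + 1)) = t.succ → f x = a t) ∧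
      Val f a b (f x) (List.replicate p 0 ++ l) ↔ _
    rw [ih, ← Function.iterate_succ_apply]
    exact ⟨fun h => h.2, fun h => ⟨fun t ht => absurd ht.symm (Fin.succ_ne_zero t), h⟩⟩

theorem lin_rep (hc : IsDc A f c) (b : Fin T → M) (R : Fin T → V m →L[ℝ] V m) (p : ℕ)
    (l : List (Fin (T + 1))) : ∀ x v, lin A f b R x (List.replicate p 0 ++ l) v =
      lin A f b R (f^[p] x) l (c.word x (ids (V m)) p v) := by
  induction p with
  | zero => exact fun x v => rfl
  | succ p ih =>
    intro x v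
    rw [List.replicate_succ, List.cons_append]
    show lin A f b R (f x) (List.replicate p 0 ++ l) (Dm A f x (f x) v) = _
    rw [ih, ← Function.iterate_succ_apply, Coc.word_ids_succ, hc.A_eq, hc.f_eq]

theorem endp_cons (b : Fin T → M) (q : Fin T × ℕ) (bs : List (Fin T × ℕ)) (x : M) :
    endp f b x (sym (q :: bs)) = endp f b (b q.1) (sym bs) := by
  rw [sym_cons, endp_rep]
  rfl

theorem val_cons (a b : Fin T → M) (q : Fin T × ℕ) (bs : List (Fin T × ℕ)) (x : M) :
    Val f a b x (sym (q :: bs)) ↔ f^[q.2 + 1] x = a q.1 ∧ Val f a b (b q.1) (sym bs) := by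
  rw [sym_cons, val_rep, Function.iterate_succ_apply']
  show (∀ t : Fin T, q.1.succ = t.succ → f (f^[q.2] x) = a t) ∧ Val f a b (b q.1) (sym bs) ↔ _
  constructor
  · exact fun h => ⟨h.1 _ rfl, h.2⟩
  · refine fun h => ⟨fun t ht => ?_, h.2⟩
    rw [← Fin.succ_injective _ ht]
    exact h.1

theorem lin_cons (hc : IsDc A f c) (b : Fin T → M) (R : Fin T → V m →L[ℝ] V m) (q : Fin T × ℕ)
    (bs : List (Fin T × ℕ)) (x : M) (v : V m) : lin A f b R x (sym (q :: bs)) v =
      lin A f b R (b q.1) (sym bs)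
        (R q.1 (Dm A f (f^[q.2] x) (b q.1) (c.word x (ids (V m)) q.2 v))) := by
  rw [sym_cons, lin_rep hc]
  rfl

/-- a kick without a jump -/
theorem lin_cons_true (hc : IsDc A f c) (b : Fin T → M) (R : Fin T → V m →L[ℝ] V m) (t : Fin T)
    (p : ℕ) (bs : List (Fin T × ℕ)) (x : M) (hb : b t = f^[p + 1] x) (v : V m) :
    lin A f b R x (sym ((t, p) :: bs)) v =
      lin A f b R (b t) (sym bs) (R t (c.word x (ids (V m)) (p + 1) v)) := by
  rw [lin_cons hc, Coc.word_ids_succ', hc.A_eq, hc.iter]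
  simp only
  rw [hb, Function.iterate_succ_apply']

theorem lin_nil (b : Fin T → M) (R : Fin T → V m →L[ℝ] V m) (x : M) (v : V m) :
    lin A f b R x (sym []) v = v := rfl

theorem val_nil (a b : Fin T → M) (x : M) : Val f a b x (sym []) := trivial

theorem endp_nil (b : Fin T → M) (x : M) : endp f b x (sym []) = x := rfl

/-- the star condition -/
def KStar (A : FAtlas m M) (f : M → M) (N₀ : ℕ) (ε ρ : ℝ) : Prop :=
  ∀ (a b : Fin 3 → M) (R : Fin 3 → V m →L[ℝ] V m),
    (∀ t, dist (a t) (b t) < ε) → (∀ t, ‖R t - ContinuousLinearMap.id ℝ (V m)‖ < ε) →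
    ∀ bs : List (Fin 3 × ℕ), bs ≠ [] → (∀ q ∈ bs, N₀ ≤ q.2) → ∀ x, Val f a b x (sym bs) →
      endp f b x (sym bs) = x → ∀ s : ℝ, (ρ ^ (sym bs).length)⁻¹ ≤ s →
      s ≤ ρ ^ (sym bs).length → NoOne (s • lin A f b R x (sym bs))

theorem near_norm {δ : ℝ} (hδ : 0 ≤ δ) {e : V m ≃L[ℝ] V m} (he : Near δ e) :
    ‖(e : V m →L[ℝ] V m) - ContinuousLinearMap.id ℝ (V m)‖ ≤ δ :=
  ContinuousLinearMap.opNorm_le_bound _ hδ fun v => he.1 v

/-- from the star condition to `HL` -/
theorem hl_of {N₀ : ℕ} {ε ρ δ : ℝ} (hρ : 1 < ρ) (hδε : δ < ε) (h : KStar A f N₀ ε ρ) {a b : Fin 3 → M}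
    (hab : ∀ t, dist (a t) (b t) < ε) {Q : (V m →L[ℝ] V m) → Fin 3 → V m →L[ℝ] V m}
    (hQ : ∀ R, ‖R - ContinuousLinearMap.id ℝ (V m)‖ ≤ δ → ∀ t,
      ‖Q R t - ContinuousLinearMap.id ℝ (V m)‖ ≤ δ) {bs : List (Fin 3 × ℕ)} (hbs : bs ≠ [])
    (hN : ∀ q ∈ bs, N₀ ≤ q.2) {x : M} (hV : Val f a b x (sym bs)) (he : endp f b x (sym bs) = x)
    {N : ℕ} (hNl : N ≤ (sym bs).length) {W : V m ≃L[ℝ] V m}
    (hW : ∀ R, ‖R - ContinuousLinearMap.id ℝ (V m)‖ ≤ δ → ∀ v,
      lin A f b (Q R) x (sym bs) v = R (W v)) : HL δ ρ N W := by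
  apply HL.less hρ _ hNl
  intro R hR s h1 h2
  have h3 := h a b (Q R) hab (fun t => (hQ R hR t).trans_lt hδε) bs hbs hN x hV he s h1 h2
  have h4 : lin A f b (Q R) x (sym bs) = R ∘L (W : V m →L[ℝ] V m) :=
    ContinuousLinearMap.ext fun v => hW R hR v
  rwa [h4] at h3

theorem q_bound {δ : ℝ} {e₁ e₂ R : V m →L[ℝ] V m}
    (h1 : ‖e₁ - ContinuousLinearMap.id ℝ (V m)‖ ≤ δ) (h2 : ‖e₂ - ContinuousLinearMap.id ℝ (V m)‖ ≤ δ)
    (h3 : ‖R - ContinuousLinearMap.id ℝ (V m)‖ ≤ δ) (t : Fin 3) :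
    ‖(![e₁, e₂, R] : Fin 3 → V m →L[ℝ] V m) t - ContinuousLinearMap.id ℝ (V m)‖ ≤ δ := by
  fin_cases t
  · exact h1
  · exact h2
  · exact h3

theorem id_bound {δ : ℝ} (hδ : 0 ≤ δ) :
    ‖ContinuousLinearMap.id ℝ (V m) - ContinuousLinearMap.id ℝ (V m)‖ ≤ δ := by
  rw [sub_self, norm_zero]
  exact hδ

theorem cl_one {N₀ : ℕ} {ε ρ δ : ℝ} (hρ : 1 < ρ) (hδ : 0 < δ) (hδε : δ < ε)
    (hc : IsDc A f c) (h : KStar A f N₀ ε ρ) {x : M} {n : ℕ}
    (hx : c.f^[n] x = x) (hn : N₀ + 1 ≤ n) : Loop δ ρ (c.word x (ids (V m)) n) := by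
  have hx' : f^[n] x = x := by rw [← hc.iter]; exact hx
  have hmul : ∀ k, f^[n * k] x = x := fun k => by rw [← hc.iter]; exact c.iter_mul hx k
  have hε : 0 < ε := hδ.trans hδε
  refine ⟨fun k hk => ?_, fun k l hk hl e he => ?_⟩
  · have hnk : n ≤ n * k := Nat.le_mul_of_pos_right _ hk
    have hnk' : k ≤ n * k := Nat.le_mul_of_pos_left _ (by omega)
    refine hl_of hρ hδε h (a := fun _ => x) (b := fun _ => x) (fun _ => by rw [dist_self]; exact hε)
      (Q := fun R => ![ContinuousLinearMap.id ℝ (V m), ContinuousLinearMap.id ℝ (V m), R])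
      (fun R hR => q_bound (id_bound hδ.le) (id_bound hδ.le) hR) (bs := [(2, n * k - 1)])
      (by simp) (fun q hq => ?_) (x := x) ?_ ?_ ?_ (fun R hR v => ?_)
    · rw [List.mem_singleton.1 hq]
      simp only
      omega
    · rw [val_cons]
      refine ⟨?_, val_nil _ _ _⟩
      simp only
      rw [show n * k - 1 + 1 = n * k by omega, hmul]
    · rw [endp_cons, endp_nil]
    · rw [sym_length]
      simp only
      omega
    · rw [lin_cons_true hc _ _ _ _ _ _ (by
        rw [show n * k - 1 + 1 = n * k by omega, hmul]), lin_nil,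
        show n * k - 1 + 1 = n * k by omega, c.word_mul hx]
      rfl
  · have hnk : n ≤ n * k := Nat.le_mul_of_pos_right _ hk
    have hnk' : k ≤ n * k := Nat.le_mul_of_pos_left _ (by omega)
    have hnl : n ≤ n * l := Nat.le_mul_of_pos_right _ hl
    have hnl' : l ≤ n * l := Nat.le_mul_of_pos_left _ (by omega)
    refine hl_of hρ hδε h (a := fun _ => x) (b := fun _ => x) (fun _ => by rw [dist_self]; exact hε)
      (Q := fun R => ![(e : V m →L[ℝ] V m), ContinuousLinearMap.id ℝ (V m), R])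
      (fun R hR => q_bound (near_norm hδ.le he) (id_bound hδ.le) hR)
      (bs := [(0, n * k - 1), (2, n * l - 1)])
      (by simp) (fun q hq => ?_) (x := x) ?_ ?_ ?_ (fun R hR v => ?_)
    · rcases List.mem_cons.1 hq with hq | hq
      · rw [hq]
        simp only
        omega
      · rw [List.mem_singleton.1 hq]
        simp only
        omega
    · rw [val_cons, val_cons]
      refine ⟨?_, ?_, val_nil _ _ _⟩
      · simp only
        rw [show n * k - 1 + 1 = n * k by omega, hmul]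
      · simp only
        rw [show n * l - 1 + 1 = n * l by omega, hmul]
    · rw [endp_cons, endp_cons, endp_nil]
    · rw [sym_length, sym_length]
      simp only
      omega
    · rw [lin_cons_true hc _ _ _ _ _ _ (by
        rw [show n * k - 1 + 1 = n * k by omega, hmul]), lin_cons_true hc _ _ _ _ _ _ (by
        rw [show n * l - 1 + 1 = n * l by omega, hmul]), lin_nil,
        show n * k - 1 + 1 = n * k by omega, show n * l - 1 + 1 = n * l by omega,
        c.word_mul hx, c.word_mul hx]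
      rfl

theorem cl_two {N₀ : ℕ} {ε ρ δ : ℝ} (hρ : 1 < ρ) (hδ : 0 < δ) (hδε : δ < ε)
    (hc : IsDc A f c) (h : KStar A f N₀ ε ρ) {x : M} {p l : ℕ}
    (hx : c.f^[p + l] x = x) (hp : N₀ + 1 ≤ p) (hl : N₀ + 1 ≤ l) {e₁ e₂ : V m ≃L[ℝ] V m}
    (he₁ : Near δ e₁) (he₂ : Near δ e₂) {i j : ℕ} (hi : 1 ≤ i) :
    HL δ ρ (i + 1 + j) (c.word x (ids (V m)) (p + l) ^ j *
      (c.word (c.f^[p] x) (ids (V m)) l * e₂ * c.word x (ids (V m)) p * e₁) *
        c.word x (ids (V m)) (p + l) ^ i) := by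
  have hmul : ∀ k, f^[(p + l) * k] x = x := fun k => by rw [← hc.iter]; exact c.iter_mul hx k
  have hε : 0 < ε := hδ.trans hδε
  have hni : p + l ≤ (p + l) * i := Nat.le_mul_of_pos_right _ hi
  have hni' : i ≤ (p + l) * i := Nat.le_mul_of_pos_left _ (by omega)
  have hnj' : j ≤ (p + l) * j := Nat.le_mul_of_pos_left _ (by omega)
  have hret : c.f^[l] (c.f^[p] x) = x := by
    rw [← Function.iterate_add_apply, add_comm l p]
    exact hx
  have hret' : f^[l + (p + l) * j] (f^[p] x) = x := by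
    rw [← hc.iter, ← hc.iter, add_comm l, Function.iterate_add_apply, hret]
    exact c.iter_mul hx j
  refine hl_of hρ hδε h (a := ![x, f^[p] x, x]) (b := ![x, f^[p] x, x])
    (fun _ => by rw [dist_self]; exact hε)
    (Q := fun R => ![(e₁ : V m →L[ℝ] V m), (e₂ : V m →L[ℝ] V m), R])
    (fun R hR => q_bound (near_norm hδ.le he₁) (near_norm hδ.le he₂) hR)
    (bs := [(0, (p + l) * i - 1), (1, p - 1), (2, l + (p + l) * j - 1)])
    (by simp) (fun q hq => ?_) (x := x) ?_ ?_ ?_ (fun R hR v => ?_)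
  · rcases List.mem_cons.1 hq with hq | hq
    · rw [hq]
      simp only
      omega
    · rcases List.mem_cons.1 hq with hq | hq
      · rw [hq]
        simp only
        omega
      · rw [List.mem_singleton.1 hq]
        simp only
        omega
  · rw [val_cons, val_cons, val_cons]
    refine ⟨?_, ?_, ?_, val_nil _ _ _⟩
    · show f^[(p + l) * i - 1 + 1] x = x
      rw [show (p + l) * i - 1 + 1 = (p + l) * i by omega, hmul]
    · show f^[p - 1 + 1] x = f^[p] x
      rw [show p - 1 + 1 = p by omega]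
    · show f^[l + (p + l) * j - 1 + 1] (f^[p] x) = x
      rw [show l + (p + l) * j - 1 + 1 = l + (p + l) * j by omega, hret']
  · rw [endp_cons, endp_cons, endp_cons, endp_nil]
    rfl
  · rw [sym_length, sym_length, sym_length]
    simp only
    omega
  · rw [lin_cons_true hc _ _ _ _ _ _ (by
      show x = f^[(p + l) * i - 1 + 1] x
      rw [show (p + l) * i - 1 + 1 = (p + l) * i by omega, hmul]), lin_cons_true hc _ _ _ _ _ _ (by
      show f^[p] x = f^[p - 1 + 1] x
      rw [show p - 1 + 1 = p by omega]), lin_cons_true hc _ _ _ _ _ _ (by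
      show x = f^[l + (p + l) * j - 1 + 1] (f^[p] x)
      rw [show l + (p + l) * j - 1 + 1 = l + (p + l) * j by omega, hret']), lin_nil,
      show (p + l) * i - 1 + 1 = (p + l) * i by omega, show p - 1 + 1 = p by omega,
      show l + (p + l) * j - 1 + 1 = l + (p + l) * j by omega, c.word_mul hx]
    show R (c.word (f^[p] x) (ids (V m)) (l + (p + l) * j) (e₂ (c.word x (ids (V m)) p
      (e₁ ((c.word x (ids (V m)) (p + l) ^ i) v))))) = _
    rw [← hc.iter, c.word_ids_add, hret, c.word_mul hx]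
    rfl

end

end Pool.Agent.H245.SH
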