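import Pool.Agent.H245.SH.U6

/-!
# The closed words along periodic orbits with one jump; uniform hyperbolicity of the periodic orbits
-/

set_option autoImplicit false
set_option linter.unusedSectionVars false

open scoped Manifold ContDiff Topology NNReal
open Filter Set Metric

universe u v w

namespace Pool.Agent.H245.SH

open Pool.Agent.H718R2.G Pool.Agent.W564.SC Pool.Agent.TH80.OMS

section

variable {m : ℕ} {M : Type v} [MetricSpace M] [CompactSpace M] [ChartedSpace (V m) M]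
  [IsManifold (𝓡 m) ∞ M]

variable {A : FAtlas m M} {f : M → M} {c : Coc M (V m)}

theorem sym_rep_length {T : ℕ} (q : Fin T × ℕ) (l : ℕ) (bs : List (Fin T × ℕ)) :
    (sym (List.replicate l q ++ bs)).length = l * (q.2 + 1) + (sym bs).length := by
  induction l with
  | zero => simp
  | succ l ih =>
    rw [List.replicate_succ, List.cons_append, sym_length, ih]
    ring

theorem endp_repb {T : ℕ} {b : Fin T → M} {q : Fin T × ℕ} (l : ℕ) (bs : List (Fin T × ℕ)) {x : M}
    (hb : b q.1 = x) : endp f b x (sym (List.replicate l q ++ bs)) = endp f b x (sym bs) := by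
  induction l with
  | zero => rfl
  | succ l ih => rw [List.replicate_succ, List.cons_append, endp_cons, hb, ih]

theorem val_repb {T : ℕ} {a b : Fin T → M} {q : Fin T × ℕ} (l : ℕ) (bs : List (Fin T × ℕ)) {x : M}
    (hb : b q.1 = x) (ha : f^[q.2 + 1] x = a q.1) (h : Val f a b x (sym bs)) :
    Val f a b x (sym (List.replicate l q ++ bs)) := by
  induction l with
  | zero => exact h
  | succ l ih =>
    rw [List.replicate_succ, List.cons_append, val_cons, hb]
    exact ⟨ha, ih⟩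

theorem lin_repb {T : ℕ} (hc : IsDc A f c) {b : Fin T → M} {R : Fin T → V m →L[ℝ] V m}
    {q : Fin T × ℕ} (l : ℕ) (bs : List (Fin T × ℕ)) {x : M} (hb : b q.1 = x) {W : V m ≃L[ℝ] V m}
    (hW : ∀ v, R q.1 (Dm A f (f^[q.2] x) (b q.1) (c.word x (ids (V m)) q.2 v)) = W v) : ∀ v : V m,
    lin A f b R x (sym (List.replicate l q ++ bs)) v = lin A f b R x (sym bs) ((W ^ l) v) := by
  induction l with
  | zero => exact fun v => rfl
  | succ l ih =>
    intro v
    rw [List.replicate_succ, List.cons_append, lin_cons hc, hW, hb, ih]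
    rfl

theorem cl_three {N₀ : ℕ} {ε ρ δ : ℝ} (hρ : 1 < ρ) (hδ : 0 < δ) (hδε : δ < ε)
    (hc : IsDc A f c) (h : KStar A f N₀ ε ρ) {Λ ε₁ : ℝ} (hcΛ : c.Λ = Λ)
    (hDm : ∀ x y : M, dist (f x) y < ε₁ → ‖Dm A f x y‖ ≤ Λ ∧ ∀ u, ‖u‖ ≤ Λ * ‖Dm A f x y u‖)
    {x : M} {n n' : ℕ} (hx : c.f^[n] x = x) (hn : N₀ + 1 ≤ n) (hn' : N₀ + 1 ≤ n')
    (hnear : dist x (c.f^[n'] x) < min ε ε₁) :
    ∃ J : V m ≃L[ℝ] V m, (∀ v, ‖J v‖ ≤ Λ * Λ * ‖v‖) ∧ (∀ v, ‖v‖ ≤ Λ * Λ * ‖J v‖) ∧
      HL δ ρ n' (J * c.word x (ids (V m)) n') ∧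
      (∀ k l, 1 ≤ k + l → HL δ ρ (l + k)
        (c.word x (ids (V m)) n ^ k * (J * c.word x (ids (V m)) n') ^ l)) ∧
      ∀ k l, 1 ≤ k + l → HL δ ρ (k + l)
        ((J * c.word x (ids (V m)) n') ^ l * c.word x (ids (V m)) n ^ k) := by
  have hε : 0 < ε := hδ.trans hδε
  have hmul : ∀ k, f^[n * k] x = x := fun k => by rw [← hc.iter]; exact c.iter_mul hx k
  obtain ⟨p, rfl⟩ : ∃ p, n' = p + 1 := ⟨n' - 1, by omega⟩
  rw [hc.iter] at hnear
  obtain ⟨y, hy⟩ : ∃ y, y = f^[p] x := ⟨_, rfl⟩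
  have hfy : f y = f^[p + 1] x := by rw [hy, Function.iterate_succ_apply']
  have hd : dist (f y) x < ε₁ := by
    rw [hfy, dist_comm]
    exact hnear.trans_le (min_le_right _ _)
  obtain ⟨hD1, hD2⟩ := hDm y x hd
  have hΛ := c.one_le
  rw [hcΛ] at hΛ
  obtain ⟨J, hJ⟩ : ∃ J : V m ≃L[ℝ] V m, J = (c.A y).symm.trans (mkE (Dm A f y x) hD2) := ⟨_, rfl⟩
  have hJv : ∀ v, J v = Dm A f y x ((c.A y).symm v) := fun v => by rw [hJ]; rfl
  obtain ⟨W, hW⟩ : ∃ W : V m ≃L[ℝ] V m, W = J * c.word x (ids (V m)) (p + 1) := ⟨_, rfl⟩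
  have hWv : ∀ v, Dm A f (f^[p] x) x (c.word x (ids (V m)) p v) = W v := by
    intro v
    rw [hW]
    show _ = J (c.word x (ids (V m)) (p + 1) v)
    rw [hJv, Coc.word_ids_succ', hc.iter, ← hy, ContinuousLinearEquiv.symm_apply_apply]
  refine ⟨J, ?_⟩
  rw [← hW]
  set a : Fin 3 → M := ![f^[p + 1] x, f^[p + 1] x, x] with ha
  set b : Fin 3 → M := fun _ => x with hb
  have hab : ∀ t, dist (a t) (b t) < ε := by
    intro t
    fin_cases t
    · show dist (f^[p + 1] x) x < ε
      rw [dist_comm]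
      exact hnear.trans_le (min_le_left _ _)
    · show dist (f^[p + 1] x) x < ε
      rw [dist_comm]
      exact hnear.trans_le (min_le_left _ _)
    · show dist x x < ε
      rw [dist_self]
      exact hε
  set Q : (V m →L[ℝ] V m) → Fin 3 → V m →L[ℝ] V m :=
    fun R => ![ContinuousLinearMap.id ℝ (V m), R, R] with hQ
  have hQb : ∀ R, ‖R - ContinuousLinearMap.id ℝ (V m)‖ ≤ δ → ∀ t,
      ‖Q R t - ContinuousLinearMap.id ℝ (V m)‖ ≤ δ := fun R hR => q_bound (id_bound hδ.le) hR hR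
  have key : ∀ (bs : List (Fin 3 × ℕ)) (N : ℕ) (W' : V m ≃L[ℝ] V m), bs ≠ [] →
      (∀ q ∈ bs, N₀ ≤ q.2) → Val f a b x (sym bs) → endp f b x (sym bs) = x →
      N ≤ (sym bs).length → (∀ R v, lin A f b (Q R) x (sym bs) v = R (W' v)) →
      HL δ ρ N W' := by
    intro bs N W' h1 h2 h3 h4 h5 h6
    exact hl_of hρ hδε h hab hQb h1 h2 h3 h4 h5 fun R _ v => h6 R v
  -- the loop of type 2
  have h2a : ∀ k, 1 ≤ k → Val f a b x (sym [(2, n * k - 1)]) := by
    intro k hk
    have hnk : n ≤ n * k := Nat.le_mul_of_pos_right _ hk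
    rw [val_cons]
    refine ⟨?_, val_nil _ _ _⟩
    show f^[n * k - 1 + 1] x = x
    rw [show n * k - 1 + 1 = n * k by omega, hmul]
  have h2b : ∀ k, 1 ≤ k → ∀ (R : V m →L[ℝ] V m) v, lin A f b (Q R) x (sym [(2, n * k - 1)]) v =
      R ((c.word x (ids (V m)) n ^ k) v) := by
    intro k hk R v
    have hnk : n ≤ n * k := Nat.le_mul_of_pos_right _ hk
    rw [lin_cons_true hc _ _ _ _ _ _ (by
      show x = f^[n * k - 1 + 1] x
      rw [show n * k - 1 + 1 = n * k by omega, hmul]), lin_nil,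
      show n * k - 1 + 1 = n * k by omega, c.word_mul hx]
    rfl
  -- the loop of type 1
  have h1a : Val f a b x (sym [(1, p)]) := by
    rw [val_cons]
    exact ⟨rfl, val_nil _ _ _⟩
  have h1b : ∀ (R : V m →L[ℝ] V m) v, lin A f b (Q R) x (sym [(1, p)]) v = R (W v) := by
    intro R v
    rw [lin_cons hc, lin_nil, ← hWv]
    rfl
  have hpow : ∀ l, 1 ≤ l → ∃ l', l = l' + 1 := fun l hl => ⟨l - 1, by omega⟩
  -- powers of `W`
  have hWl : ∀ l, 1 ≤ l → HL δ ρ (l * (p + 1)) (W ^ l) := by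
    intro l hl
    obtain ⟨l, rfl⟩ := hpow l hl
    refine key (List.replicate l (0, p) ++ [(1, p)]) _ _ (by simp) (fun q hq => ?_)
      (val_repb _ _ rfl rfl h1a) ?_ ?_ (fun R v => ?_)
    · rcases List.mem_append.1 hq with hq | hq
      · rw [List.eq_of_mem_replicate hq]
        simp only
        omega
      · rw [List.mem_singleton.1 hq]
        simp only
        omega
    · rw [endp_repb _ _ rfl, endp_cons, endp_nil]
    · rw [sym_rep_length, sym_length]
      simp only
      rw [add_mul]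
      omega
    · rw [lin_repb hc (W := W) _ _ rfl (fun v => ?_), h1b]
      · rw [pow_succ_apply']
      · rw [← hWv]
        rfl
  have hMk : ∀ k, 1 ≤ k → HL δ ρ k (c.word x (ids (V m)) n ^ k) := by
    intro k hk
    have hnk : n ≤ n * k := Nat.le_mul_of_pos_right _ hk
    have hnk' : k ≤ n * k := Nat.le_mul_of_pos_left _ (by omega)
    refine key [(2, n * k - 1)] _ _ (by simp) (fun q hq => ?_) (h2a k hk) ?_ ?_ (h2b k hk)
    · rw [List.mem_singleton.1 hq]
      simp only
      omega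
    · rw [endp_cons, endp_nil]
    · rw [sym_length]
      simp only
      omega
  refine ⟨fun v => ?_, fun v => ?_, ?_, fun k l hkl => ?_, fun k l hkl => ?_⟩
  · rw [hJv]
    have e1 := c.bd' y v
    rw [hcΛ] at e1
    calc ‖Dm A f y x ((c.A y).symm v)‖ ≤ ‖Dm A f y x‖ * ‖(c.A y).symm v‖ :=
          (Dm A f y x).le_opNorm _
      _ ≤ Λ * (Λ * ‖v‖) := by gcongr
      _ = _ := by ring
  · have e1 := c.bd y ((c.A y).symm v)
    rw [hcΛ, ContinuousLinearEquiv.apply_symm_apply] at e1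
    have e2 := hD2 ((c.A y).symm v)
    rw [← hJv] at e2
    calc ‖v‖ ≤ Λ * ‖(c.A y).symm v‖ := e1
      _ ≤ Λ * (Λ * ‖J v‖) := by gcongr
      _ = _ := by ring
  · have := hWl 1 le_rfl
    rwa [one_mul, pow_one] at this
  · rcases Nat.eq_zero_or_pos k with rfl | hk
    · rw [pow_zero, one_mul, add_zero]
      refine HL.less hρ (hWl l (by omega)) ?_
      exact Nat.le_mul_of_pos_right _ (by omega)
    · have hnk : n ≤ n * k := Nat.le_mul_of_pos_right _ hk
      have hnk' : k ≤ n * k := Nat.le_mul_of_pos_left _ (by omega)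
      have hlp : l ≤ l * (p + 1) := Nat.le_mul_of_pos_right _ (by omega)
      refine key (List.replicate l (0, p) ++ [(2, n * k - 1)]) _ _ (by simp) (fun q hq => ?_)
        (val_repb _ _ rfl rfl (h2a k hk)) ?_ ?_ (fun R v => ?_)
      · rcases List.mem_append.1 hq with hq | hq
        · rw [List.eq_of_mem_replicate hq]
          simp only
          omega
        · rw [List.mem_singleton.1 hq]
          simp only
          omega
      · rw [endp_repb _ _ rfl, endp_cons, endp_nil]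
      · rw [sym_rep_length, sym_length]
        simp only
        omega
      · rw [lin_repb hc (W := W) _ _ rfl (fun v => ?_), h2b k hk]
        · rfl
        · rw [← hWv]
          rfl
  · rcases Nat.eq_zero_or_pos l with rfl | hl
    · rw [pow_zero, one_mul, add_zero]
      exact hMk k (by omega)
    rcases Nat.eq_zero_or_pos k with rfl | hk
    · rw [pow_zero, mul_one, zero_add]
      refine HL.less hρ (hWl l (by omega)) ?_
      exact Nat.le_mul_of_pos_right _ (by omega)
    have hnk : n ≤ n * k := Nat.le_mul_of_pos_right _ hk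
    have hnk' : k ≤ n * k := Nat.le_mul_of_pos_left _ (by omega)
    have hword : ∀ v, Dm A f (f^[n * k + p] x) x (c.word x (ids (V m)) (n * k + p) v) =
        W ((c.word x (ids (V m)) n ^ k) v) := by
      intro v
      rw [c.word_ids_add, c.word_mul hx, c.iter_mul hx, ← hWv, Nat.add_comm (n * k) p,
        Function.iterate_add_apply, hmul]
    have hit : f^[n * k + p + 1] x = f^[p + 1] x := by
      rw [show n * k + p + 1 = (p + 1) + n * k by ring, Function.iterate_add_apply, hmul]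
    obtain ⟨l, rfl⟩ := hpow l hl
    rcases Nat.eq_zero_or_pos l with rfl | hl
    · refine key [(1, n * k + p)] _ _ (by simp) (fun q hq => ?_) ?_ ?_ ?_ (fun R v => ?_)
      · rw [List.mem_singleton.1 hq]
        simp only
        omega
      · rw [val_cons]
        exact ⟨hit, val_nil _ _ _⟩
      · rw [endp_cons, endp_nil]
      · rw [sym_length]
        simp only
        omega
      · rw [lin_cons hc, lin_nil]
        show R (Dm A f (f^[n * k + p] x) x (c.word x (ids (V m)) (n * k + p) v)) = _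
        rw [hword, zero_add, pow_one]
        rfl
    · obtain ⟨l, rfl⟩ := hpow l hl
      have hlp : l ≤ l * (p + 1) := Nat.le_mul_of_pos_right _ (by omega)
      refine key ((0, n * k + p) :: (List.replicate l (0, p) ++ [(1, p)])) _ _ (by simp)
        (fun q hq => ?_) ?_ ?_ ?_ (fun R v => ?_)
      · rcases List.mem_cons.1 hq with hq | hq
        · rw [hq]
          simp only
          omega
        rcases List.mem_append.1 hq with hq | hq
        · rw [List.eq_of_mem_replicate hq]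
          simp only
          omega
        · rw [List.mem_singleton.1 hq]
          simp only
          omega
      · rw [val_cons]
        exact ⟨hit, val_repb _ _ rfl rfl h1a⟩
      · rw [endp_cons]
        show endp f b x _ = x
        rw [endp_repb _ _ rfl, endp_cons, endp_nil]
      · rw [sym_length, sym_rep_length, sym_length]
        simp only
        omega
      · rw [lin_cons hc]
        show lin A f b (Q R) x _ (Dm A f (f^[n * k + p] x) x
          (c.word x (ids (V m)) (n * k + p) v)) = _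
        rw [hword, lin_repb hc (W := W) _ _ rfl (fun v => ?_), h1b]
        · congr 1
          show W ((W ^ l) (W ((c.word x (ids (V m)) n ^ k) v))) =
            (W ^ (l + 1 + 1)) ((c.word x (ids (V m)) n ^ k) v)
          rw [pow_succ, pow_succ']
          rfl
        · rw [← hWv]
          rfl

/-- **The periodic orbits are uniformly hyperbolic.** -/
theorem per_uniform {N₀ : ℕ} {ε ρ : ℝ} (hε : 0 < ε) (hρ : 1 < ρ) (hc : IsDc A f c)
    (h : KStar A f N₀ ε ρ) {ε₁ : ℝ} (hε₁ : 0 < ε₁)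
    (hDm : ∀ x y : M, dist (f x) y < ε₁ → ‖Dm A f x y‖ ≤ c.Λ ∧ ∀ u, ‖u‖ ≤ c.Λ * ‖Dm A f x y u‖) :
    ∃ C₇ ≥ 1, ∀ (x : M) (n : ℕ), 1 ≤ n →
      c.f^[n] x = x → IsCompl (c.Bd x) (c.inv.Bd x) ∧
      (∀ v ∈ c.Bd x, ∀ m', ‖c.word x (ids (V m)) m' v‖ ≤ C₇ * ρ⁻¹ ^ m' * ‖v‖) ∧
      ∀ w ∈ c.inv.Bd x, ∀ m', ‖c.inv.word x (ids (V m)) m' w‖ ≤ C₇ * ρ⁻¹ ^ m' * ‖w‖ := by
  obtain ⟨δ, hδ, hδ1, hδε⟩ : ∃ δ : ℝ, 0 < δ ∧ δ ≤ 1 ∧ δ < ε :=
    ⟨min 1 (ε / 2), by positivity, min_le_left _ _, (min_le_right _ _).trans_lt (by linarith)⟩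
  have hη : 0 < min ε ε₁ := lt_min hε hε₁
  have hcl : c.Cl δ ρ (c.Λ * c.Λ) (N₀ + 1) (fun x y => dist x y < min ε ε₁) := by
    refine ⟨fun x n hx hn => cl_one hρ hδ hδε hc h hx hn, ?_, ?_⟩
    · intro x p l hx hp hl e₁ e₂ he₁ he₂ i j hi
      exact cl_two hρ hδ hδε hc h hx hp hl he₁ he₂ hi
    · intro x n n' hx hn hn' hnear
      exact cl_three hρ hδ hδε hc h rfl hDm hx hn hn' hnear
  obtain ⟨t, ht, hcov⟩ := Metric.totallyBounded_iff.1 (isCompact_univ (X := M)).totallyBounded
    (min ε ε₁ / 2) (by positivity)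
  have hcov' : ∀ x : M, ∃ y : t, dist x y < min ε ε₁ / 2 := by
    intro x
    obtain ⟨y, hy, hxy⟩ := Set.mem_iUnion₂.1 (hcov (Set.mem_univ x))
    exact ⟨⟨y, hy⟩, hxy⟩
  choose col0 hcol0 using hcov'
  have : Finite t := ht
  have : Fintype t := Fintype.ofFinite t
  refine hcl.uniform hδ hδ1 hρ (by nlinarith [c.one_le]) (K := Fintype.card t)
    (fun x => Fintype.equivFin t (col0 x)) fun x y hxy => ?_
  have h1 : col0 x = col0 y := (Fintype.equivFin t).injective hxy
  have h2 := hcol0 x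
  have h3 := hcol0 y
  rw [← h1] at h3
  calc dist x y ≤ dist x (col0 x) + dist (y : M) (col0 x) := dist_triangle_right _ _ _
    _ < min ε ε₁ := by linarith

end

end Pool.Agent.H245.SH
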