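import Pool.Agent.H245.SH.A8

/-!
# The index of powers and of products
-/

set_option autoImplicit false
set_option linter.unusedSectionVars false

open Filter Set Metric Polynomial
open scoped Topology

namespace Pool.Agent.H245.SH

theorem det_aeval {ι : Type} [Fintype ι] [DecidableEq ι] (B : Matrix ι ι ℂ) (g : ℂ[X])
    (hg : g.Monic) : (aeval B g).det = (B.charpoly.roots.map fun l => g.eval l).prod := by
  have hroots : ∀ p : ℂ[X], p.Monic → p = (p.roots.map fun r => X - C r).prod := fun p hp =>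
    (IsAlgClosed.splits p).eq_prod_roots_of_monic hp
  have hev : ∀ (p : ℂ[X]), p.Monic → ∀ t, p.eval t = (p.roots.map fun r => t - r).prod := by
    intro p hp t
    conv_lhs => rw [hroots p hp]
    rw [eval_multiset_prod, Multiset.map_map]
    simp
  have h1 : (aeval B g).det = (g.roots.map fun r => (aeval B (X - C r)).det).prod := by
    conv_lhs => rw [hroots g hg]
    have h2 := map_multiset_prod ((Matrix.detMonoidHom (n := ι) (R := ℂ)).comp
      ((aeval B : ℂ[X] →ₐ[ℂ] Matrix ι ι ℂ) : ℂ[X] →* Matrix ι ι ℂ))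
      (g.roots.map fun r => X - C r)
    rw [Multiset.map_map] at h2
    exact h2
  have hcard : B.charpoly.roots.card = Fintype.card ι := by
    rw [← Matrix.charpoly_natDegree_eq_dim B]
    exact (IsAlgClosed.splits _).natDegree_eq_card_roots.symm
  have h3 : ∀ r : ℂ, (aeval B (X - C r)).det = (B.charpoly.roots.map fun l => l - r).prod := by
    intro r
    have h4 := Matrix.eval_charpoly B r
    have h5 : aeval B (X - C r) = -(Matrix.scalar ι r - B) := by
      rw [map_sub, aeval_X, aeval_C, neg_sub]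
      rfl
    rw [h5, Matrix.det_neg, ← h4, hev _ B.charpoly_monic, ← hcard, ← Multiset.card_map
      (fun l => r - l) B.charpoly.roots, ← Multiset.prod_map_neg, Multiset.map_map]
    simp
  rw [h1]
  simp only [h3]
  rw [Multiset.prod_map_prod_map]
  congr 1
  refine Multiset.map_congr rfl fun l _ => ?_
  rw [hev g hg]

theorem roots_pow {ι : Type} [Fintype ι] [DecidableEq ι] (B : Matrix ι ι ℂ) {k : ℕ} (hk : 1 ≤ k) :
    (B ^ k).charpoly.roots = B.charpoly.roots.map fun l => l ^ k := by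
  have hcard : B.charpoly.roots.card = Fintype.card ι := by
    rw [← Matrix.charpoly_natDegree_eq_dim B]
    exact (IsAlgClosed.splits _).natDegree_eq_card_roots.symm
  have h1 : (B ^ k).charpoly = (B.charpoly.roots.map fun l => X - C (l ^ k)).prod := by
    apply Polynomial.funext
    intro w
    have h2 := det_aeval B (X ^ k - C w) (monic_X_pow_sub_C w (by omega))
    have h3 : aeval B (X ^ k - C w) = -(Matrix.scalar ι w - B ^ k) := by
      rw [map_sub, map_pow, aeval_X, aeval_C, neg_sub]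
      rfl
    rw [h3, Matrix.det_neg, ← Matrix.eval_charpoly] at h2
    have h4 : (-1 : ℂ) ^ Fintype.card ι * (-1) ^ Fintype.card ι = 1 := by
      rw [← mul_pow]
      simp
    have h5 : ((B ^ k).charpoly).eval w = (-1) ^ Fintype.card ι *
        (B.charpoly.roots.map fun l => (X ^ k - C w).eval l).prod := by
      rw [← h2, ← mul_assoc, h4, one_mul]
    rw [h5, ← hcard, ← Multiset.card_map (fun l => (X ^ k - C w).eval l) B.charpoly.roots,
      ← Multiset.prod_map_neg, Multiset.map_map, eval_multiset_prod, Multiset.map_map]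
    congr 1
    refine Multiset.map_congr rfl fun l _ => ?_
    simp
  rw [h1]
  have h6 := Polynomial.roots_multiset_prod_X_sub_C (B.charpoly.roots.map fun l => l ^ k)
  rw [Multiset.map_map] at h6
  exact h6

variable {E : Type} [NormedAddCommGroup E] [InnerProductSpace ℝ E] [FiniteDimensional ℝ E]

theorem cp_matrix {ι : Type} [Fintype ι] [DecidableEq ι] (b : Module.Basis ι ℝ E) (A : E →L[ℝ] E) :
    cp A = ((LinearMap.toMatrix b b (A : E →ₗ[ℝ] E)).map (algebraMap ℝ ℂ)).charpoly := by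
  unfold cp
  rw [← LinearMap.charpoly_toMatrix (A : E →ₗ[ℝ] E) b, ← Matrix.charpoly_map]

theorem cp_comm (A B : E →L[ℝ] E) : cp (A ∘L B) = cp (B ∘L A) := by
  have b := Module.finBasis ℝ E
  rw [cp_matrix b, cp_matrix b]
  have h1 : LinearMap.toMatrix b b ((A ∘L B : E →L[ℝ] E) : E →ₗ[ℝ] E) =
      LinearMap.toMatrix b b (A : E →ₗ[ℝ] E) * LinearMap.toMatrix b b (B : E →ₗ[ℝ] E) :=
    LinearMap.toMatrix_mul b (A : E →ₗ[ℝ] E) (B : E →ₗ[ℝ] E)
  have h2 : LinearMap.toMatrix b b ((B ∘L A : E →L[ℝ] E) : E →ₗ[ℝ] E) =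
      LinearMap.toMatrix b b (B : E →ₗ[ℝ] E) * LinearMap.toMatrix b b (A : E →ₗ[ℝ] E) :=
    LinearMap.toMatrix_mul b (B : E →ₗ[ℝ] E) (A : E →ₗ[ℝ] E)
  rw [h1, h2, Matrix.map_mul, Matrix.map_mul, Matrix.charpoly_mul_comm]

theorem idx_comm (A B : E →L[ℝ] E) : idx (A ∘L B) = idx (B ∘L A) := by
  unfold idx
  rw [cp_comm]

theorem idx_pow (A : E →L[ℝ] E) {k : ℕ} (hk : 1 ≤ k) : idx (A ^ k) = idx A := by
  have b := Module.finBasis ℝ E
  have h1 : LinearMap.toMatrix b b ((A ^ k : E →L[ℝ] E) : E →ₗ[ℝ] E) =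
      (LinearMap.toMatrix b b (A : E →ₗ[ℝ] E)) ^ k := by
    have h0 : ((A ^ k : E →L[ℝ] E) : E →ₗ[ℝ] E) = (A : E →ₗ[ℝ] E) ^ k :=
      ContinuousLinearMap.toLinearMap_pow A k
    rw [h0]
    exact (LinearMap.toMatrix_pow b (A : E →ₗ[ℝ] E) k).symm
  have h2 : (cp (A ^ k)).roots = (cp A).roots.map fun l => l ^ k := by
    rw [cp_matrix b, cp_matrix b, h1]
    have h3 : ((LinearMap.toMatrix b b (A : E →ₗ[ℝ] E)) ^ k).map (algebraMap ℝ ℂ) =
        ((LinearMap.toMatrix b b (A : E →ₗ[ℝ] E)).map (algebraMap ℝ ℂ)) ^ k :=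
      map_pow (RingHom.mapMatrix (algebraMap ℝ ℂ)) _ k
    rw [h3]
    exact roots_pow _ hk
  unfold idx
  rw [h2, Multiset.filter_map, Multiset.card_map]
  congr 1
  refine Multiset.filter_congr fun z _ => ?_
  show 1 < ‖z ^ k‖ ↔ 1 < ‖z‖
  rw [norm_pow]
  constructor
  · intro h
    by_contra h'
    push Not at h'
    exact absurd h (not_lt.2 (pow_le_one₀ (norm_nonneg _) h'))
  · intro h
    exact one_lt_pow₀ h (by omega)

end Pool.Agent.H245.SH
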