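import Pool.Agent.H245.SH.V1

/-!
# Closed words: windows and indices
-/

set_option autoImplicit false
set_option linter.unusedSectionVars false

open Filter Set Metric
open scoped Topology

namespace Pool.Agent.H245.SH

variable {E : Type} [NormedAddCommGroup E] [InnerProductSpace ℝ E] [FiniteDimensional ℝ E]

/-- all small perturbations of `W` have no eigenvalue with modulus in `[ρ⁻ᴺ, ρᴺ]` -/
def HL (δ ρ : ℝ) (N : ℕ) (W : E ≃L[ℝ] E) : Prop :=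
  ∀ R : E →L[ℝ] E, ‖R - ContinuousLinearMap.id ℝ E‖ ≤ δ → ∀ s : ℝ, (ρ ^ N)⁻¹ ≤ s → s ≤ ρ ^ N →
    NoOne (s • (R ∘L (W : E →L[ℝ] E)))

theorem HL.mono {δ δ' ρ : ℝ} {N : ℕ} {W : E ≃L[ℝ] E} (h : HL δ ρ N W) (hδ : δ' ≤ δ) :
    HL δ' ρ N W := fun R hR s h1 h2 => h R (hR.trans hδ) s h1 h2

theorem HL.less {δ ρ : ℝ} {N N' : ℕ} (hρ : 1 < ρ) {W : E ≃L[ℝ] E} (h : HL δ ρ N W) (hN : N' ≤ N) :
    HL δ ρ N' W := fun R hR s h1 h2 => by
  have h3 : ρ ^ N' ≤ ρ ^ N := pow_le_pow_right₀ hρ.le hN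
  have h4 : 0 < ρ ^ N' := by positivity
  exact h R hR s ((inv_anti₀ h4 h3).trans h1) (h2.trans h3)

theorem HL.noOne {δ ρ : ℝ} {N : ℕ} (hδ : 0 ≤ δ) (hρ : 1 < ρ) {W : E ≃L[ℝ] E} (h : HL δ ρ N W) :
    NoOne (W : E →L[ℝ] E) := by
  have h1 : 1 ≤ ρ ^ N := one_le_pow₀ hρ.le
  have h2 := h (ContinuousLinearMap.id ℝ E) (by rw [sub_self, norm_zero]; exact hδ) 1
    (inv_le_one_of_one_le₀ h1) h1
  rwa [one_smul, ContinuousLinearMap.id_comp] at h2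

theorem HL.symm {δ ρ : ℝ} {N : ℕ} (hδ : 0 ≤ δ) (hδ1 : δ ≤ 1) (hρ : 1 < ρ) {W : E ≃L[ℝ] E}
    (h : HL δ ρ N W) : HL (δ / 4) ρ N W.symm := by
  intro R hR s h1 h2
  have hρN : 0 < ρ ^ N := by positivity
  have hs : 0 < s := lt_of_lt_of_le (by positivity) h1
  obtain ⟨e, he, hen⟩ := near_equiv (δ := δ / 4) (by linarith) hR
  have h3 : ‖(e.symm : E →L[ℝ] E) - ContinuousLinearMap.id ℝ E‖ ≤ δ := by
    refine ContinuousLinearMap.opNorm_le_bound _ hδ fun v => ?_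
    show ‖e.symm v - v‖ ≤ _
    refine (hen.2 v).trans ?_
    gcongr
    linarith
  have h4 := h (e.symm : E →L[ℝ] E) h3 s⁻¹ (inv_anti₀ hs h2) (by
    rw [inv_le_comm₀ hs hρN]
    exact h1)
  have h5 : s⁻¹ • ((e.symm : E →L[ℝ] E) ∘L (W : E →L[ℝ] E)) =
      ((W.trans (e.symm.trans (scl E s⁻¹ (inv_ne_zero hs.ne'))) : E ≃L[ℝ] E) : E →L[ℝ] E) := by
    ext v
    rfl
  rw [h5] at h4
  have h6 := noOne_symm _ (noOne_comm _ _ h4)
  have h7 : s • (R ∘L (W.symm : E →L[ℝ] E)) =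
      ((((e.symm.trans (scl E s⁻¹ (inv_ne_zero hs.ne'))).trans W).symm : E ≃L[ℝ] E) :
        E →L[ℝ] E) := by
    ext1 v
    show s • R (W.symm v) = e ((scl E s⁻¹ (inv_ne_zero hs.ne')).symm (W.symm v))
    rw [scl_symm_apply, inv_inv, map_smul, he]
  rw [h7]
  exact h6

/-- cyclic permutation -/
theorem HL.comm {δ ρ : ℝ} {N : ℕ} {W Q : E ≃L[ℝ] E} (hδ : 0 ≤ δ) (hδ1 : δ ≤ 1) (hQ : Near (δ / 4) Q)
    (h : HL δ ρ N W) : HL (δ / 4) ρ N (Q.trans W) := by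
  intro R hR s h1 h2
  have h3 : ‖(Q : E →L[ℝ] E) ∘L R - ContinuousLinearMap.id ℝ E‖ ≤ δ := by
    refine ContinuousLinearMap.opNorm_le_bound _ hδ fun v => ?_
    show ‖Q (R v) - v‖ ≤ _
    have e1 : ‖R v - v‖ ≤ δ / 4 * ‖v‖ := by
      have := (R - ContinuousLinearMap.id ℝ E).le_opNorm v
      exact this.trans (by gcongr)
    have e2 : ‖R v‖ ≤ 2 * ‖v‖ := by
      have e3 : R v = (R v - v) + v := by abel
      rw [e3]
      refine (norm_add_le _ _).trans ?_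
      have := norm_nonneg v
      nlinarith
    have e4 : Q (R v) - v = (Q (R v) - R v) + (R v - v) := by abel
    rw [e4]
    have := norm_nonneg v
    calc _ ≤ ‖Q (R v) - R v‖ + ‖R v - v‖ := norm_add_le _ _
      _ ≤ δ / 4 * ‖R v‖ + δ / 4 * ‖v‖ := add_le_add (hQ.1 _) e1
      _ ≤ δ / 4 * (2 * ‖v‖) + δ / 4 * ‖v‖ := by gcongr
      _ ≤ _ := by nlinarith
  have h4 := h _ h3 s h1 h2
  -- `Q R W` is conjugate to `R W Q`
  intro μ hμ
  apply h4 μ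
  have e1 : s • (((Q : E →L[ℝ] E) ∘L R) ∘L (W : E →L[ℝ] E)) =
      (Q : E →L[ℝ] E) ∘L (s • (R ∘L (W : E →L[ℝ] E))) := by
    ext1 v
    show s • Q (R (W v)) = Q (s • R (W v))
    rw [map_smul]
  have e2 : s • (R ∘L ((Q.trans W : E ≃L[ℝ] E) : E →L[ℝ] E)) =
      (s • (R ∘L (W : E →L[ℝ] E))) ∘L (Q : E →L[ℝ] E) := by
    ext1 v
    rfl
  rw [e1, cp_comm, ← e2]
  exact hμ

/-- a perturbation at the end -/
theorem HL.last {δ ρ : ℝ} {N : ℕ} {W Q : E ≃L[ℝ] E} (hδ : 0 ≤ δ) (hδ1 : δ ≤ 1)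
    (hQ : Near (δ / 4) Q) (h : HL δ ρ N W) : HL (δ / 4) ρ N (W.trans Q) := by
  intro R hR s h1 h2
  have h3 : ‖R ∘L (Q : E →L[ℝ] E) - ContinuousLinearMap.id ℝ E‖ ≤ δ := by
    refine ContinuousLinearMap.opNorm_le_bound _ hδ fun v => ?_
    show ‖R (Q v) - v‖ ≤ _
    have e1 : ‖R (Q v) - Q v‖ ≤ δ / 4 * ‖Q v‖ := by
      have := (R - ContinuousLinearMap.id ℝ E).le_opNorm (Q v)
      exact this.trans (by gcongr)
    have e2 := hQ.bd (by linarith) v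
    have e4 : R (Q v) - v = (R (Q v) - Q v) + (Q v - v) := by abel
    rw [e4]
    have := norm_nonneg v
    calc _ ≤ ‖R (Q v) - Q v‖ + ‖Q v - v‖ := norm_add_le _ _
      _ ≤ δ / 4 * (2 * ‖v‖) + δ / 4 * ‖v‖ := add_le_add (e1.trans (by gcongr)) (hQ.1 _)
      _ ≤ _ := by nlinarith
  have h4 := h _ h3 s h1 h2
  have e1 : R ∘L ((W.trans Q : E ≃L[ℝ] E) : E →L[ℝ] E) = (R ∘L (Q : E →L[ℝ] E)) ∘L
      (W : E →L[ℝ] E) := by
    ext1 v
    rfl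
  rw [e1]
  exact h4

/-- **Windows** of closed words. -/
theorem exists_win (E : Type) [NormedAddCommGroup E] [InnerProductSpace ℝ E]
    [FiniteDimensional ℝ E] {δ ρ : ℝ} (hδ : 0 < δ) (hδ1 : δ ≤ 1) (hρ : 1 < ρ) :
    ∃ C ≥ 1, (∀ (N : ℕ) (W : E ≃L[ℝ] E), HL δ ρ N W → ∃ S : Submodule ℝ E, Sep (C * ρ⁻¹ ^ N) W S) ∧
      ∃ N₁ : ℕ, ∀ (N : ℕ) (W : E ≃L[ℝ] E) (S : Submodule ℝ E), N₁ ≤ N → HL δ ρ N W →
        Sep (C * ρ⁻¹ ^ N) W S →
        idx (W : E →L[ℝ] E) + Module.finrank ℝ S = Module.finrank ℝ E := by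
  obtain ⟨C, hC, hw⟩ := window E hδ hδ1
  obtain ⟨K₀, hK₀, hgap⟩ := gap_lemma E hδ hδ1
  obtain ⟨N₁, hN₁⟩ := pow_unbounded_of_one_lt (C * K₀) hρ
  refine ⟨C, hC, fun N W h => ?_, N₁, fun N W S hN h hS => ?_⟩
  · have hρN : 0 < ρ ^ N := by positivity
    obtain ⟨S, h1, h2⟩ := hw (ρ ^ N) (one_le_pow₀ hρ.le) (W : E →L[ℝ] E) h
    refine ⟨S, fun v hv => ?_, fun v hv => ?_⟩
    · have h3 : ρ ^ N * ‖W v‖ ≤ C * ‖v‖ := h1 v hv
      rw [inv_pow, ← div_eq_mul_inv, div_mul_eq_mul_div, le_div_iff₀ hρN]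
      linarith
    · have h3 : ρ ^ N * ‖v‖ ≤ C * ‖W v‖ := h2 v hv
      rw [inv_pow, ← div_eq_mul_inv, div_mul_eq_mul_div, le_div_iff₀ hρN]
      linarith
  · have hρN : 0 < ρ ^ N := by positivity
    have h1 : C * K₀ ≤ ρ ^ N := hN₁.le.trans (pow_le_pow_right₀ hρ.le hN)
    have hC0 : 0 < C := by linarith
    have h2 : K₀ ≤ ρ ^ N / C := by
      rw [le_div_iff₀ hC0]
      linarith
    obtain ⟨R, hR, hidx⟩ := hgap (ρ ^ N / C) h2 (W : E →L[ℝ] E) S (fun v hv => by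
      have h3 := hS.1 v hv
      show ρ ^ N / C * ‖W v‖ ≤ ‖v‖
      calc ρ ^ N / C * ‖W v‖ ≤ ρ ^ N / C * (C * ρ⁻¹ ^ N * ‖v‖) := by gcongr
        _ = ‖v‖ := by
          rw [inv_pow]
          field_simp) (fun v hv => by
      have h3 := hS.2 v hv
      show ρ ^ N / C * ‖v‖ ≤ ‖W v‖
      calc ρ ^ N / C * ‖v‖ ≤ ρ ^ N / C * (C * ρ⁻¹ ^ N * ‖W v‖) := by gcongr
        _ = ‖W v‖ := by
          rw [inv_pow]
          field_simp)
    rw [← hidx]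
    congr 1
    -- the path
    obtain ⟨T, hT⟩ : ∃ T : ℝ → E →L[ℝ] E, T = fun t => (ContinuousLinearMap.id ℝ E +
      t • (R - ContinuousLinearMap.id ℝ E)) ∘L (W : E →L[ℝ] E) := ⟨_, rfl⟩
    have hTc : Continuous T := by
      rw [hT]
      exact (continuous_const.add (continuous_id.smul continuous_const)).clm_comp continuous_const
    have h4 := idx_path (T := T) zero_le_one hTc.continuousOn (fun t ht => by
      have h5 := h (ContinuousLinearMap.id ℝ E + t • (R - ContinuousLinearMap.id ℝ E)) (by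
        rw [add_sub_cancel_left, norm_smul, Real.norm_of_nonneg ht.1]
        calc t * ‖R - ContinuousLinearMap.id ℝ E‖ ≤ 1 * δ := by
              gcongr
              exact ht.2
          _ = δ := one_mul _) 1 (inv_le_one_of_one_le₀ (one_le_pow₀ hρ.le)) (one_le_pow₀ hρ.le)
      rw [one_smul] at h5
      rw [hT]
      exact h5)
    have h6 : T 0 = (W : E →L[ℝ] E) := by
      rw [hT]
      simp
    have h7 : T 1 = R ∘L (W : E →L[ℝ] E) := by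
      rw [hT]
      simp
    rw [h6, h7] at h4
    exact h4

end Pool.Agent.H245.SH
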