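import Pool.Agent.H245.SH.V2

/-!
# Closed words: transversality and constancy of the index
-/

set_option autoImplicit false
set_option linter.unusedSectionVars false

open Filter Set Metric
open scoped Topology

namespace Pool.Agent.H245.SH

variable {E : Type} [NormedAddCommGroup E] [InnerProductSpace ℝ E] [FiniteDimensional ℝ E]

/-- the constant cocycle -/
noncomputable def kc (M : E ≃L[ℝ] E) : Coc Unit E where
  f := Equiv.refl _
  A _ := M
  Λ := max 1 (max ‖(M : E →L[ℝ] E)‖ ‖(M.symm : E →L[ℝ] E)‖)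
  one_le := le_max_left _ _
  bd := fun _ v => ((M : E →L[ℝ] E).le_opNorm v).trans (by
    gcongr
    exact (le_max_left _ _).trans (le_max_right _ _))
  bd' := fun _ v => ((M.symm : E →L[ℝ] E).le_opNorm v).trans (by
    gcongr
    exact (le_max_right _ _).trans (le_max_right _ _))

theorem pow_succ_apply' (M : E ≃L[ℝ] E) (n : ℕ) (v : E) : (M ^ (n + 1)) v = M ((M ^ n) v) := by
  rw [pow_succ']
  rfl

theorem kc_word (M : E ≃L[ℝ] E) (n : ℕ) (v : E) : (kc M).word () (ids E) n v = (M ^ n) v := by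
  induction n with
  | zero => rfl
  | succ n ih =>
    rw [Coc.word_ids_succ', ih, pow_succ_apply']
    rfl

theorem kc_inv_word (M : E ≃L[ℝ] E) (n : ℕ) (v : E) :
    (kc M).inv.word () (ids E) n v = (M⁻¹ ^ n) v := by
  induction n with
  | zero => rfl
  | succ n ih =>
    rw [Coc.word_ids_succ', ih, pow_succ_apply']
    rfl

theorem kc_word1 (M e : E ≃L[ℝ] E) (k : ℕ) (n : ℕ) : (kc M).word () (fun i => if i = k then e else
    ContinuousLinearEquiv.refl ℝ E) n = if k < n then M ^ (n - 1 - k) * e * M ^ (k + 1) else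
    M ^ n := by
  induction n with
  | zero =>
    rw [if_neg (by omega)]
    rfl
  | succ n ih =>
    ext v
    rw [Coc.word_succ, ih]
    show (if n = k then e else ContinuousLinearEquiv.refl ℝ E) (M _) = _
    rcases lt_trichotomy n k with h | h | h
    · rw [if_neg (by omega), if_neg (by omega), if_neg (by omega), pow_succ_apply']
      rfl
    · subst h
      rw [if_pos rfl, if_neg (by omega), if_pos (by omega), show n + 1 - 1 - n = 0 by omega, pow_zero,
        one_mul]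
      show e (M ((M ^ n) v)) = e ((M ^ (n + 1)) v)
      rw [pow_succ_apply']
    · rw [if_neg (by omega), if_pos (by omega), if_pos (by omega),
        show n + 1 - 1 - k = (n - 1 - k) + 1 by omega]
      exact (pow_succ_apply' M (n - 1 - k) (e ((M ^ (k + 1)) v))).symm

theorem kc_inv_word1 (M e : E ≃L[ℝ] E) (k : ℕ) (n : ℕ) : (kc M).inv.word () (fun i => if i = k then e
    else ContinuousLinearEquiv.refl ℝ E) n = if k < n then M⁻¹ ^ (n - 1 - k) * e * M⁻¹ ^ (k + 1) else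
    M⁻¹ ^ n := by
  induction n with
  | zero =>
    rw [if_neg (by omega)]
    rfl
  | succ n ih =>
    ext v
    rw [Coc.word_succ, ih]
    show (if n = k then e else ContinuousLinearEquiv.refl ℝ E) (M⁻¹ _) = _
    rcases lt_trichotomy n k with h | h | h
    · rw [if_neg (by omega), if_neg (by omega), if_neg (by omega), pow_succ_apply']
      rfl
    · subst h
      rw [if_pos rfl, if_neg (by omega), if_pos (by omega), show n + 1 - 1 - n = 0 by omega, pow_zero,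
        one_mul]
      show e (M⁻¹ ((M⁻¹ ^ n) v)) = e ((M⁻¹ ^ (n + 1)) v)
      rw [pow_succ_apply']
    · rw [if_neg (by omega), if_pos (by omega), if_pos (by omega),
        show n + 1 - 1 - k = (n - 1 - k) + 1 by omega]
      exact (pow_succ_apply' M⁻¹ (n - 1 - k) (e ((M⁻¹ ^ (k + 1)) v))).symm

/-- the words of a closed loop with one kick -/
def Loop (δ ρ : ℝ) (M : E ≃L[ℝ] E) : Prop :=
  (∀ k, 1 ≤ k → HL δ ρ k (M ^ k)) ∧
    ∀ k l, 1 ≤ k → 1 ≤ l → ∀ e, Near δ e → HL δ ρ (k + l) (M ^ l * e * M ^ k)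

theorem sep_refl {C : ℝ} (hC : 1 ≤ C) : Sep C (1 : E ≃L[ℝ] E) ⊥ := by
  refine ⟨fun v hv => ?_, fun v _ => ?_⟩
  · rw [Submodule.mem_bot] at hv
    rw [hv]
    simp
  · show ‖v‖ ≤ C * ‖v‖
    nlinarith [norm_nonneg v]

theorem loop_win {δ ρ C : ℝ} (hδ : 0 < δ) (hδ1 : δ ≤ 1) (hρ : 1 < ρ) (hC : 1 ≤ C)
    (hwin : ∀ (N : ℕ) (W : E ≃L[ℝ] E), HL (δ / 16) ρ N W →
      ∃ S : Submodule ℝ E, Sep (C * ρ⁻¹ ^ N) W S) {M : E ≃L[ℝ] E} (h : Loop δ ρ M) :
    (kc M).Win1 (δ / 16) ρ⁻¹ C ∧ (kc M).inv.Win1 (δ / 16) ρ⁻¹ C := by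
  constructor
  · intro x n k e he
    have he' : Near (δ / 4) e := he.mono (by linarith)
    have he'' : Near δ e := he.mono (by linarith)
    rcases Nat.eq_zero_or_pos n with rfl | hn
    · refine ⟨⊥, ?_⟩
      rw [pow_zero, mul_one]
      exact sep_refl hC
    · have h1 := kc_word1 M e k n
      rw [show x = () from rfl, h1]
      apply hwin
      split_ifs with hk
      · rcases Nat.eq_zero_or_pos (n - 1 - k) with h2 | h2
        · have h3 : k + 1 = n := by omega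
          rw [h2, pow_zero, one_mul, h3]
          exact ((h.1 n hn).last hδ.le hδ1 he').mono (by linarith)
        · have h3 := h.2 (k + 1) (n - 1 - k) (by omega) h2 e he''
          rw [show k + 1 + (n - 1 - k) = n by omega] at h3
          exact h3.mono (by linarith)
      · exact (h.1 n hn).mono (by linarith)
  · intro x n k e he
    have he' : Near (δ / 4) e.symm := he.symm.mono (by linarith)
    have he'' : Near δ e.symm := he.symm.mono (by linarith)
    rcases Nat.eq_zero_or_pos n with rfl | hn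
    · refine ⟨⊥, ?_⟩
      rw [pow_zero, mul_one]
      exact sep_refl hC
    · have h1 := kc_inv_word1 M e k n
      rw [show x = () from rfl, h1]
      apply hwin
      split_ifs with hk
      · have h4 : M⁻¹ ^ (n - 1 - k) * e * M⁻¹ ^ (k + 1) =
            (M ^ (k + 1) * e⁻¹ * M ^ (n - 1 - k))⁻¹ := by group
        rw [h4]
        rcases Nat.eq_zero_or_pos (n - 1 - k) with h2 | h2
        · have h3 : k + 1 = n := by omega
          rw [h2, pow_zero, mul_one, h3]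
          have h5 : HL (δ / 4) ρ n (M ^ n * e⁻¹) := HL.comm hδ.le hδ1 he' (h.1 n hn)
          have h6 := h5.symm (by positivity) (by linarith) hρ
          exact HL.mono h6 (by linarith)
        · have h3 := h.2 (n - 1 - k) (k + 1) h2 (by omega) e⁻¹ he''
          rw [show n - 1 - k + (k + 1) = n by omega] at h3
          have h6 := h3.symm (by positivity) hδ1 hρ
          exact HL.mono h6 (by linarith)
      · rw [inv_pow]
        exact HL.mono ((h.1 n hn).symm (by positivity) hδ1 hρ) (by linarith)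

/-- telescoping along a sequence of words -/
theorem telescope2 {W : ℕ → E ≃L[ℝ] E} {S : ℕ → Submodule ℝ E} {Λ q C : ℝ} (hΛ : 0 ≤ Λ)
    (hq0 : 0 < q) (hq1 : q < 1) (hC : 0 ≤ C) {k : ℕ}
    (hW : ∀ n, k ≤ n → ∀ v, ‖W n v‖ ≤ Λ * ‖W (n + 1) v‖)
    (hS : ∀ n, k ≤ n → Sep (C * q ^ n) (W n) (S n)) (j : ℕ) (v : E) :
    ‖(S k)ᗮ.starProjection v‖ ≤ ‖(S (k + j))ᗮ.starProjection v‖ +
      (Λ + 1) * C ^ 2 / (1 - q ^ 2) * (q ^ (2 * k) - q ^ (2 * (k + j))) * ‖v‖ := by
  have hq2 : 0 < 1 - q ^ 2 := by nlinarith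
  obtain ⟨C₃, hC₃⟩ : ∃ C₃, C₃ = (Λ + 1) * C ^ 2 := ⟨_, rfl⟩
  have hC₃0 : 0 ≤ C₃ := by rw [hC₃]; positivity
  rw [← hC₃]
  have step : ∀ j, k ≤ j → ‖(S j)ᗮ.starProjection v‖ ≤ ‖(S (j + 1))ᗮ.starProjection v‖ +
      C₃ * q ^ (2 * j) * ‖v‖ := by
    intro j hj
    obtain ⟨s, hs⟩ : ∃ s, s = (S (j + 1)).starProjection v := ⟨_, rfl⟩
    have hsm : s ∈ S (j + 1) := by rw [hs]; exact Submodule.starProjection_apply_mem _ _
    have hsn : ‖s‖ ≤ ‖v‖ := by rw [hs]; exact Submodule.norm_starProjection_apply_le _ v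
    have h1 : ‖W (j + 1) s‖ ≤ C * q ^ (j + 1) * ‖s‖ := (hS (j + 1) (by omega)).1 s hsm
    have h3 : ‖W j s‖ ≤ Λ * (C * q ^ j) * ‖v‖ := by
      calc _ ≤ Λ * ‖W (j + 1) s‖ := hW j hj s
        _ ≤ Λ * (C * q ^ (j + 1) * ‖s‖) := by gcongr
        _ ≤ Λ * (C * q ^ j * ‖v‖) := by
          gcongr Λ * (C * ?_ * ?_)
          exact pow_le_pow_of_le_one hq0.le hq1.le (by omega)
        _ = _ := by ring
    have h4 := (hS j hj).comp (by positivity) s
    have h5 : ‖(S j)ᗮ.starProjection s‖ ≤ C₃ * q ^ (2 * j) * ‖v‖ := by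
      calc _ ≤ C * q ^ j * ‖W j s‖ + (C * q ^ j) ^ 2 * ‖s‖ := h4
        _ ≤ C * q ^ j * (Λ * (C * q ^ j) * ‖v‖) + (C * q ^ j) ^ 2 * ‖v‖ := by gcongr
        _ = C₃ * q ^ (2 * j) * ‖v‖ := by
          rw [hC₃, pow_mul']
          ring
    have h6 : (S j)ᗮ.starProjection v = (S j)ᗮ.starProjection ((S (j + 1))ᗮ.starProjection v) +
        (S j)ᗮ.starProjection s := by
      rw [← map_add, hs, star_add]
    rw [h6]
    calc _ ≤ ‖(S j)ᗮ.starProjection ((S (j + 1))ᗮ.starProjection v)‖ +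
          ‖(S j)ᗮ.starProjection s‖ := norm_add_le _ _
      _ ≤ _ := by
        gcongr
        exact Submodule.norm_starProjection_apply_le _ _
  induction j with
  | zero =>
    rw [add_zero, sub_self, mul_zero, zero_mul, add_zero]
  | succ j ih =>
    have h1 := step (k + j) (by omega)
    have h2 : C₃ * q ^ (2 * (k + j)) =
        C₃ / (1 - q ^ 2) * (q ^ (2 * (k + j)) - q ^ (2 * (k + (j + 1)))) := by
      have : q ^ (2 * (k + (j + 1))) = q ^ (2 * (k + j)) * q ^ 2 := by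
        rw [← pow_add]
        congr 1
      rw [this]
      field_simp
    rw [h2] at h1
    calc _ ≤ _ := ih
      _ ≤ (‖(S (k + j + 1))ᗮ.starProjection v‖ +
          C₃ / (1 - q ^ 2) * (q ^ (2 * (k + j)) - q ^ (2 * (k + (j + 1)))) * ‖v‖) +
          C₃ / (1 - q ^ 2) * (q ^ (2 * k) - q ^ (2 * (k + j))) * ‖v‖ := by gcongr
      _ = _ := by
        rw [← add_assoc k j 1]
        ring

/-- **Transversality.** If the closed words `M^l T M^k` have windows then no vector of the unstable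
space of `M` is mapped by `T` to a vector of the stable space. -/
theorem trans_main {δ q C : ℝ} (hδ : 0 < δ) (hδ1 : δ ≤ 1) (hq0 : 0 < q) (hq1 : q < 1) (hC : 1 ≤ C)
    {M T : E ≃L[ℝ] E} (hW : (kc M).Win1 δ q C) (hW' : (kc M).inv.Win1 δ q C)
    (hT : ∀ k l, 1 ≤ k → ∃ S, Sep (C * q ^ (k + 1 + l)) (M ^ l * T * M ^ k) S) {u : E}
    (hu : u ∈ (kc M).inv.Bd ()) (hTu : T u ∈ (kc M).Bd ()) : u = 0 := by
  by_contra hu0
  obtain ⟨C', n₁, hC', hsp, -⟩ := Coc.splitting1 hδ hδ1 hq0 hq1 hC hW hW'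
  obtain ⟨C₆, hC₆, h6⟩ := Coc.small_contract hδ hδ1 hq0 hq1 hC hW
  obtain ⟨-, hs, hun⟩ := hsp ()
  have hC6p : 0 < C₆ := by linarith
  -- the power `m`
  obtain ⟨m, hm⟩ := exists_pow_lt_of_lt_one (show (0 : ℝ) < 1 / (4 * (C' + C₆)) by positivity) hq1
  rw [lt_div_iff₀ (by positivity)] at hm
  have hqm : 0 < q ^ m := by positivity
  have hm1 : C' * q ^ m ≤ 1 / 4 := by nlinarith
  have hm2 : C₆ * q ^ m ≤ 1 / 4 := by nlinarith
  obtain ⟨n₀, hn₀⟩ := h6 () m
  -- constants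
  obtain ⟨Λ, hΛ⟩ : ∃ Λ : ℝ, Λ = max (max 1 ‖(M : E →L[ℝ] E)‖)
    (max ‖(M.symm : E →L[ℝ] E)‖ ‖(T.symm : E →L[ℝ] E)‖) := ⟨_, rfl⟩
  have hΛ1 : 1 ≤ Λ := by rw [hΛ]; exact (le_max_left _ _).trans (le_max_left _ _)
  have hΛM : ∀ v, ‖M v‖ ≤ Λ * ‖v‖ := fun v => ((M : E →L[ℝ] E).le_opNorm v).trans (by
    gcongr
    rw [hΛ]
    exact (le_max_right _ _).trans (le_max_left _ _))
  have hΛM' : ∀ v, ‖v‖ ≤ Λ * ‖M v‖ := fun v => by
    have h1 := (M.symm : E →L[ℝ] E).le_opNorm (M v)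
    have h2 : (M.symm : E →L[ℝ] E) (M v) = v := M.symm_apply_apply v
    rw [h2] at h1
    refine h1.trans ?_
    gcongr
    rw [hΛ]
    exact (le_max_left _ _).trans (le_max_right _ _)
  have hΛT : ∀ v, ‖v‖ ≤ Λ * ‖T v‖ := fun v => by
    have h1 := (T.symm : E →L[ℝ] E).le_opNorm (T v)
    have h2 : (T.symm : E →L[ℝ] E) (T v) = v := T.symm_apply_apply v
    rw [h2] at h1
    refine h1.trans ?_
    gcongr
    rw [hΛ]
    exact (le_max_right _ _).trans (le_max_right _ _)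
  have hMm : ∀ (j : ℕ) (v : E), ‖(M ^ j) v‖ ≤ Λ ^ j * ‖v‖ := by
    intro j v
    induction j with
    | zero =>
      show ‖v‖ ≤ _
      simp
    | succ j ih =>
      rw [pow_succ_apply']
      calc _ ≤ Λ * ‖(M ^ j) v‖ := hΛM _
        _ ≤ Λ * (Λ ^ j * ‖v‖) := by gcongr
        _ = _ := by rw [pow_succ]; ring
  have hq2 : 0 < 1 - q ^ 2 := by nlinarith
  obtain ⟨C₅, hC₅⟩ : ∃ C₅, C₅ = (Λ + 1) * C ^ 2 / (1 - q ^ 2) := ⟨_, rfl⟩
  have hC₅0 : 0 < C₅ := by rw [hC₅]; positivity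
  -- the power `k`
  obtain ⟨k₁, hk₁⟩ := exists_pow_lt_of_lt_one
    (show (0 : ℝ) < 1 / (4 * (Λ ^ m * C₅)) by positivity) hq1
  rw [lt_div_iff₀ (by positivity)] at hk₁
  obtain ⟨k, hk⟩ : ∃ k, k = max (max k₁ n₀) (m + 1) := ⟨_, rfl⟩
  have hkk₁ : k₁ ≤ k := by rw [hk]; exact (le_max_left _ _).trans (le_max_left _ _)
  have hkn₀ : n₀ ≤ k := by rw [hk]; exact (le_max_right _ _).trans (le_max_left _ _)
  have hkm : m + 1 ≤ k := by rw [hk]; exact le_max_right _ _
  have hqk : Λ ^ m * C₅ * q ^ (2 * k) ≤ 1 / 4 := by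
    have h1 : q ^ (2 * k) ≤ q ^ k₁ := pow_le_pow_of_le_one hq0.le hq1.le (by omega)
    have h2 : 0 < Λ ^ m * C₅ := by positivity
    nlinarith
  -- the vector
  obtain ⟨w, hw⟩ : ∃ w, w = (M⁻¹ ^ k) u := ⟨_, rfl⟩
  have hMw : (M ^ k) w = u := by
    rw [hw, inv_pow]
    show (M ^ k * (M ^ k)⁻¹) u = u
    rw [mul_inv_cancel]
    rfl
  have hw0 : 0 < ‖w‖ := by
    rw [norm_pos_iff]
    intro h0
    rw [h0, map_zero] at hMw
    exact hu0 hMw.symm
  -- expansion
  have hexp : 4 * ‖w‖ ≤ ‖(M ^ m) w‖ := by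
    have h1 : (M ^ m) w = (M⁻¹ ^ (k - m)) u := by
      rw [hw]
      show (M ^ m * M⁻¹ ^ k) u = _
      congr 1
      have : M⁻¹ ^ k = M⁻¹ ^ m * M⁻¹ ^ (k - m) := by
        rw [← pow_add]
        congr 1
        omega
      rw [this, ← mul_assoc, inv_pow, mul_inv_cancel, one_mul]
    have h2 : w = (M⁻¹ ^ m) ((M ^ m) w) := by
      show w = (M⁻¹ ^ m * M ^ m) w
      rw [inv_pow, inv_mul_cancel]
      rfl
    have h3 : (M ^ m) w ∈ (kc M).inv.Bd () := by
      rw [h1]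
      obtain ⟨b, hb⟩ := hu
      refine ⟨b, fun j => ?_⟩
      rw [kc_inv_word]
      have h4 := hb (j + (k - m))
      rw [kc_inv_word, pow_add] at h4
      exact h4
    have h4 := hun _ h3 m
    rw [kc_inv_word, ← h2] at h4
    have h5 := norm_nonneg ((M ^ m) w)
    nlinarith
  -- the words
  obtain ⟨W, hWd⟩ : ∃ W : ℕ → E ≃L[ℝ] E, W = fun n => if n ≤ k then M ^ k else
    M ^ (n - (k + 1)) * T * M ^ k := ⟨_, rfl⟩
  have hWk : W k = M ^ k := by rw [hWd]; simp
  have hWn : ∀ j, W (k + 1 + j) = M ^ j * T * M ^ k := by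
    intro j
    rw [hWd]
    simp only
    rw [if_neg (by omega), show k + 1 + j - (k + 1) = j by omega]
  have hex : ∀ n, ∃ S, k ≤ n → Sep (C * q ^ n) (W n) S := by
    intro n
    rcases Nat.lt_or_ge n k with h | h
    · exact ⟨⊥, fun h' => absurd h' (by omega)⟩
    · rcases Nat.eq_or_lt_of_le h with h | h
      · obtain ⟨S, hS⟩ := hW.ids hδ.le () k
        refine ⟨S, fun _ => ?_⟩
        rw [← h, hWk]
        have h1 : (kc M).word () (ids E) k = M ^ k :=
          ContinuousLinearEquiv.ext (funext fun v => kc_word M k v)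
        rwa [h1] at hS
      · obtain ⟨j, rfl⟩ : ∃ j, n = k + 1 + j := ⟨n - (k + 1), by omega⟩
        obtain ⟨S, hS⟩ := hT k j (by omega)
        refine ⟨S, fun _ => ?_⟩
        rw [hWn]
        exact hS
  choose S hS using hex
  have hstep : ∀ n, k ≤ n → ∀ v, ‖W n v‖ ≤ Λ * ‖W (n + 1) v‖ := by
    intro n hn v
    rcases Nat.eq_or_lt_of_le hn with h | h
    · rw [← h, hWk]
      have h1 := hWn 0
      rw [add_zero, pow_zero, one_mul] at h1
      rw [h1]
      exact hΛT _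
    · obtain ⟨j, rfl⟩ : ∃ j, n = k + 1 + j := ⟨n - (k + 1), by omega⟩
      rw [hWn, add_assoc (k + 1) j 1, hWn, pow_succ', mul_assoc M, mul_assoc M]
      exact hΛM' _
  -- the component of `w`
  have hcomp : ‖(S k)ᗮ.starProjection w‖ ≤ C₅ * q ^ (2 * k) * ‖w‖ := by
    obtain ⟨b, hb⟩ := hTu
    have hb0 : 0 ≤ b := (norm_nonneg _).trans (hb 0)
    have key : ∀ j : ℕ, ‖(S k)ᗮ.starProjection w‖ ≤
        (C * q ^ (k + (1 + j)) * b + (C * q ^ (k + (1 + j))) ^ 2 * ‖w‖) +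
          C₅ * q ^ (2 * k) * ‖w‖ := by
      intro j
      have h1 := telescope2 (by linarith) hq0 hq1 (by linarith) hstep hS (1 + j) w
      rw [← hC₅] at h1
      have h2 := (hS (k + (1 + j)) (by omega)).comp (by positivity) w
      have h3 : ‖W (k + (1 + j)) w‖ ≤ b := by
        rw [← add_assoc k 1 j, hWn]
        show ‖(M ^ j) (T ((M ^ k) w))‖ ≤ b
        rw [hMw, ← kc_word]
        exact hb j
      have h4 : 0 ≤ C * q ^ (k + (1 + j)) := by positivity
      have h5 : 0 ≤ q ^ (2 * (k + (1 + j))) := by positivity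
      have h6 : C₅ * (q ^ (2 * k) - q ^ (2 * (k + (1 + j)))) * ‖w‖ ≤ C₅ * q ^ (2 * k) * ‖w‖ := by
        gcongr
        linarith
      calc _ ≤ _ := h1
        _ ≤ (C * q ^ (k + (1 + j)) * ‖W (k + (1 + j)) w‖ + (C * q ^ (k + (1 + j))) ^ 2 * ‖w‖) +
            C₅ * q ^ (2 * k) * ‖w‖ := by linarith
        _ ≤ _ := by gcongr
    have hlim : Tendsto (fun j : ℕ => (C * q ^ (k + (1 + j)) * b +
        (C * q ^ (k + (1 + j))) ^ 2 * ‖w‖) + C₅ * q ^ (2 * k) * ‖w‖) atTop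
        (𝓝 ((C * 0 * b + (C * 0) ^ 2 * ‖w‖) + C₅ * q ^ (2 * k) * ‖w‖)) := by
      have h1 : Tendsto (fun j : ℕ => q ^ (k + (1 + j))) atTop (𝓝 0) := by
        have h2 := tendsto_pow_atTop_nhds_zero_of_lt_one hq0.le hq1
        have h3 : Tendsto (fun j : ℕ => k + (1 + j)) atTop atTop :=
          tendsto_atTop_mono (fun j => show j ≤ k + (1 + j) by omega) tendsto_id
        exact h2.comp h3
      exact (((tendsto_const_nhds.mul h1).mul tendsto_const_nhds).add
        (((tendsto_const_nhds.mul h1).pow 2).mul tendsto_const_nhds)).add tendsto_const_nhds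
    have h7 := ge_of_tendsto' hlim key
    simpa using h7
  -- the contradiction
  have hSk := hS k le_rfl
  have h8 := hn₀ k hkn₀ (S k) (by
    rw [hWk] at hSk
    have h1 : (kc M).word () (ids E) k = M ^ k :=
      ContinuousLinearEquiv.ext (funext fun v => kc_word M k v)
    rw [h1]
    exact hSk) _ (Submodule.starProjection_apply_mem (S k) w)
  rw [kc_word] at h8
  have h9 : ‖(S k).starProjection w‖ ≤ ‖w‖ := Submodule.norm_starProjection_apply_le (S k) w
  have h10 := hMm m ((S k)ᗮ.starProjection w)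
  have h11 : (M ^ m) w = (M ^ m) ((S k)ᗮ.starProjection w) + (M ^ m) ((S k).starProjection w) := by
    rw [← map_add, star_add]
  have h12 : ‖(M ^ m) w‖ ≤ Λ ^ m * (C₅ * q ^ (2 * k) * ‖w‖) + C₆ * q ^ m * ‖w‖ := by
    rw [h11]
    refine (norm_add_le _ _).trans (add_le_add (h10.trans (by gcongr)) (h8.trans (by gcongr)))
  have h13 : Λ ^ m * (C₅ * q ^ (2 * k) * ‖w‖) ≤ 1 / 4 * ‖w‖ := by
    have : Λ ^ m * (C₅ * q ^ (2 * k) * ‖w‖) = Λ ^ m * C₅ * q ^ (2 * k) * ‖w‖ := by ring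
    rw [this]
    gcongr
  have h14 : C₆ * q ^ m * ‖w‖ ≤ 1 / 4 * ‖w‖ := by gcongr
  linarith

end Pool.Agent.H245.SH
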