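import Pool.Agent.H245.SH.V3

/-!
# Closed words: constancy of the index
-/

set_option autoImplicit false
set_option linter.unusedSectionVars false

open Filter Set Metric
open scoped Topology

namespace Pool.Agent.H245.SH

variable {E : Type} [NormedAddCommGroup E] [InnerProductSpace ℝ E] [FiniteDimensional ℝ E]

theorem sep_finrank_eq {κ Λ : ℝ} (hκ : 0 ≤ κ) (hΛ : 1 ≤ Λ) (h : κ ^ 2 * Λ ^ 2 < 1)
    {Z₁ Z₂ : E ≃L[ℝ] E} {S₁ S₂ : Submodule ℝ E} (h1 : Sep κ Z₁ S₁) (h2 : Sep κ Z₂ S₂)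
    (hB : ∀ v, ‖Z₁ v‖ ≤ Λ * ‖Z₂ v‖) (hB' : ∀ v, ‖Z₂ v‖ ≤ Λ * ‖Z₁ v‖) :
    Module.finrank ℝ S₁ = Module.finrank ℝ S₂ := by
  have hself : ∀ v : E, ‖v‖ ≤ Λ * ‖(ContinuousLinearEquiv.refl ℝ E) v‖ := by
    intro v
    have := norm_nonneg v
    show ‖v‖ ≤ Λ * ‖v‖
    nlinarith
  exact le_antisymm
    (Coc.sep_finrank_le (B := ContinuousLinearEquiv.refl ℝ E) hκ h h2 h1 (fun v => hB' v) hself
      (by linarith))
    (Coc.sep_finrank_le (B := ContinuousLinearEquiv.refl ℝ E) hκ h h1 h2 (fun v => hB v) hself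
      (by linarith))

/-- bounds for a linear isomorphism and its inverse -/
theorem exists_bd (M : E ≃L[ℝ] E) : ∃ Λ : ℝ, 1 ≤ Λ ∧ (∀ v, ‖M v‖ ≤ Λ * ‖v‖) ∧
    ∀ v, ‖v‖ ≤ Λ * ‖M v‖ := by
  refine ⟨(kc M).Λ, (kc M).one_le, fun v => (kc M).bd () v, fun v => ?_⟩
  have h1 := (kc M).bd' () (M v)
  have h2 : ((kc M).A ()).symm (M v) = v := M.symm_apply_apply v
  rwa [h2] at h1

/-- the windows of the words `M^k W` have the same dimension if `W` is long -/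
theorem win_step {ρ C : ℝ} (hρ : 1 < ρ) (hC : 1 ≤ C) (M : E ≃L[ℝ] E) : ∃ N₂ : ℕ, ∀ (n : ℕ)
    (W : E ≃L[ℝ] E), N₂ ≤ n → (∀ k, ∃ S, Sep (C * ρ⁻¹ ^ (n + k)) (M ^ k * W) S) → ∀ k S S₀,
      Sep (C * ρ⁻¹ ^ (n + k)) (M ^ k * W) S → Sep (C * ρ⁻¹ ^ n) W S₀ →
      Module.finrank ℝ S = Module.finrank ℝ S₀ := by
  obtain ⟨Λ, hΛ, hM, hM'⟩ := exists_bd M
  have hq0 : 0 < ρ⁻¹ := by positivity
  have hq1 : ρ⁻¹ < 1 := inv_lt_one_of_one_lt₀ hρ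
  obtain ⟨N₂, hN₂⟩ := exists_pow_lt_of_lt_one (show (0 : ℝ) < 1 / (C * Λ) by positivity) hq1
  rw [lt_div_iff₀ (by positivity)] at hN₂
  refine ⟨N₂, fun n W hn hw k => ?_⟩
  have hsmall : ∀ j, n ≤ j → (C * ρ⁻¹ ^ j) ^ 2 * Λ ^ 2 < 1 := by
    intro j hj
    have h1 : ρ⁻¹ ^ j ≤ ρ⁻¹ ^ N₂ := pow_le_pow_of_le_one hq0.le hq1.le (by omega)
    have h2 : C * ρ⁻¹ ^ j * Λ < 1 := by
      calc C * ρ⁻¹ ^ j * Λ ≤ C * ρ⁻¹ ^ N₂ * Λ := by gcongr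
        _ = ρ⁻¹ ^ N₂ * (C * Λ) := by ring
        _ < 1 := hN₂
    rw [← mul_pow]
    exact pow_lt_one₀ (by positivity) h2 (by norm_num)
  induction k with
  | zero =>
    intro S S₀ hS hS₀
    rw [add_zero, pow_zero, one_mul] at hS
    exact sep_finrank_eq (by positivity) hΛ (hsmall n le_rfl) hS hS₀
      (fun v => by nlinarith [norm_nonneg (W v)]) (fun v => by nlinarith [norm_nonneg (W v)])
  | succ k ih =>
    intro S S₀ hS hS₀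
    obtain ⟨S', hS'⟩ := hw k
    rw [← ih S' S₀ hS' hS₀]
    have hS2 : Sep (C * ρ⁻¹ ^ (n + k)) (M ^ (k + 1) * W) S := hS.mono (by
      gcongr ?_ * ?_
      exact pow_le_pow_of_le_one hq0.le hq1.le (by omega))
    refine sep_finrank_eq (by positivity) hΛ (hsmall (n + k) (by omega)) hS2 hS' (fun v => ?_)
      (fun v => ?_)
    · show ‖(M ^ (k + 1)) (W v)‖ ≤ Λ * ‖(M ^ k) (W v)‖
      rw [pow_succ_apply']
      exact hM _
    · show ‖(M ^ k) (W v)‖ ≤ Λ * ‖(M ^ (k + 1)) (W v)‖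
      rw [pow_succ_apply']
      exact hM' _

theorem coe_pow (M : E ≃L[ℝ] E) (k : ℕ) : ((M ^ k : E ≃L[ℝ] E) : E →L[ℝ] E) = (M : E →L[ℝ] E) ^ k := by
  induction k with
  | zero => rfl
  | succ k ih =>
    rw [pow_succ, pow_succ, ← ih]
    rfl

/-- **Constancy of the index.** -/
theorem index_eq {δ ρ : ℝ} (hδ : 0 < δ) (hδ1 : δ ≤ 1) (hρ : 1 < ρ) {M M' : E ≃L[ℝ] E}
    (h1 : ∀ k l, 1 ≤ k + l → HL δ ρ (l + k) (M ^ k * M' ^ l))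
    (h2 : ∀ k l, 1 ≤ k + l → HL δ ρ (k + l) (M' ^ l * M ^ k)) :
    idx (M : E →L[ℝ] E) = idx (M' : E →L[ℝ] E) := by
  obtain ⟨C, hC, hwin, N₁, hdim⟩ := exists_win E hδ hδ1 hρ
  obtain ⟨N₂, hN₂⟩ := win_step (C := C) hρ hC M
  obtain ⟨N₃, hN₃⟩ := win_step (C := C) hρ hC M'
  obtain ⟨K, hK⟩ : ∃ K, K = N₁ + N₂ + N₃ + 1 := ⟨_, rfl⟩
  -- `M^K M'^K` and `M'^K`
  obtain ⟨S₁, hS₁⟩ := hwin (K + K) _ (h1 K K (by omega))
  obtain ⟨S₂, hS₂⟩ := hwin K _ (by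
    have := h1 0 K (by omega)
    rwa [pow_zero, one_mul, add_zero] at this)
  obtain ⟨S₃, hS₃⟩ := hwin (K + K) _ (h2 K K (by omega))
  obtain ⟨S₄, hS₄⟩ := hwin K _ (by
    have := h2 K 0 (by omega)
    rwa [pow_zero, one_mul, add_zero] at this)
  have e1 := hN₂ K (M' ^ K) (by omega) (fun k => hwin (K + k) _ (h1 k K (by omega))) K S₁ S₂ hS₁ hS₂
  have e2 := hN₃ K (M ^ K) (by omega) (fun k => hwin (K + k) _ (h2 K k (by omega))) K S₃ S₄ hS₃ hS₄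
  have d1 := hdim (K + K) _ S₁ (by omega) (h1 K K (by omega)) hS₁
  have d3 := hdim (K + K) _ S₃ (by omega) (h2 K K (by omega)) hS₃
  have d2 := hdim K _ S₂ (by omega) (by
    have := h1 0 K (by omega)
    rwa [pow_zero, one_mul, add_zero] at this) hS₂
  have d4 := hdim K _ S₄ (by omega) (by
    have := h2 K 0 (by omega)
    rwa [pow_zero, one_mul, add_zero] at this) hS₄
  rw [coe_pow, idx_pow _ (by omega)] at d2 d4
  have hc : idx ((M ^ K * M' ^ K : E ≃L[ℝ] E) : E →L[ℝ] E) =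
      idx ((M' ^ K * M ^ K : E ≃L[ℝ] E) : E →L[ℝ] E) :=
    idx_comm ((M ^ K : E ≃L[ℝ] E) : E →L[ℝ] E) ((M' ^ K : E ≃L[ℝ] E) : E →L[ℝ] E)
  omega

/-- the dimension of the stable space -/
theorem finrank_bd {δ ρ : ℝ} (hδ : 0 < δ) (hδ1 : δ ≤ 1) (hρ : 1 < ρ) {M : E ≃L[ℝ] E}
    (h : Loop δ ρ M) : idx (M : E →L[ℝ] E) + Module.finrank ℝ ((kc M).Bd ()) =
      Module.finrank ℝ E := by
  obtain ⟨C, hC, hwin, N₁, hdim⟩ := exists_win E (δ := δ / 16) (by positivity) (by linarith) hρ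
  obtain ⟨hW, hW'⟩ := loop_win hδ hδ1 hρ hC hwin h
  have hq0 : 0 < ρ⁻¹ := by positivity
  have hq1 : ρ⁻¹ < 1 := inv_lt_one_of_one_lt₀ hρ
  obtain ⟨C', n₁, hC', hsp, hfin⟩ := Coc.splitting1 (by positivity) (by linarith) hq0 hq1 hC hW hW'
  obtain ⟨K, hK⟩ : ∃ K, K = N₁ + n₁ + 1 := ⟨_, rfl⟩
  have hHL : HL (δ / 16) ρ K (M ^ K) := (h.1 K (by omega)).mono (by linarith)
  obtain ⟨S, hS⟩ := hwin K _ hHL
  have d1 := hdim K _ S (by omega) hHL hS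
  have h1 : (kc M).word () (ids E) K = M ^ K :=
    ContinuousLinearEquiv.ext (funext fun v => kc_word M K v)
  have d2 := hfin () K (by omega) S (by
    rw [h1]
    exact hS)
  rw [coe_pow, idx_pow _ (by omega), d2] at d1
  exact d1

end Pool.Agent.H245.SH
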