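import Pool.Agent.H245.SH.V4

/-!
# Periodic orbits: uniform angles, domination and contraction along loops
-/

set_option autoImplicit false
set_option linter.unusedSectionVars false

open Filter Set Metric
open scoped Topology

namespace Pool.Agent.H245.SH

universe u

variable {X : Type u} {E : Type} [NormedAddCommGroup E] [InnerProductSpace ℝ E]
  [FiniteDimensional ℝ E]

namespace Coc

variable (c : Coc X E)

theorem word_ids_add (x : X) (a b : ℕ) (v : E) : c.word x (ids E) (a + b) v =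
    c.word (c.f^[a] x) (ids E) b (c.word x (ids E) a v) := by
  induction b with
  | zero => rfl
  | succ b ih =>
    rw [← add_assoc, word_ids_succ', ih, word_ids_succ', ← Function.iterate_add_apply, add_comm b a]

theorem iter_mul {x : X} {n : ℕ} (hx : c.f^[n] x = x) (k : ℕ) : c.f^[n * k] x = x := by
  rw [Function.iterate_mul]
  exact Function.iterate_fixed hx k

theorem word_mul {x : X} {n : ℕ} (hx : c.f^[n] x = x) (k : ℕ) (v : E) :
    c.word x (ids E) (n * k) v = ((c.word x (ids E) n) ^ k) v := by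
  induction k with
  | zero => rfl
  | succ k ih =>
    rw [mul_add, mul_one, word_ids_add, c.iter_mul hx, ih, pow_succ_apply']

theorem word_mul' {x : X} {n : ℕ} (hx : c.f^[n] x = x) (k : ℕ) :
    c.word x (ids E) (n * k) = (c.word x (ids E) n) ^ k :=
  ContinuousLinearEquiv.ext (funext fun v => c.word_mul hx k v)

theorem Bd_eq {x : X} {n : ℕ} (hn : 1 ≤ n) (hx : c.f^[n] x = x) :
    c.Bd x = (kc (c.word x (ids E) n)).Bd () := by
  have hids : ∀ i, Near (1 : ℝ) (ids E i) := fun i => near_refl zero_le_one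
  have hΛ := c.one_le
  ext v
  constructor
  · rintro ⟨b, hb⟩
    refine ⟨b, fun k => ?_⟩
    rw [kc_word, ← c.word_mul hx]
    exact hb _
  · rintro ⟨b, hb⟩
    refine ⟨(2 * c.Λ) ^ n * b, fun j => ?_⟩
    have h1 : j = n * (j / n) + j % n := (Nat.div_add_mod j n).symm
    rw [h1, word_ids_add, c.iter_mul hx, c.word_mul hx]
    have h2 := c.word_bd x le_rfl hids (j % n) ((c.word x (ids E) n ^ (j / n)) v)
    have h3 := hb (j / n)
    rw [kc_word] at h3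
    have h4 : (2 * c.Λ) ^ (j % n) ≤ (2 * c.Λ) ^ n :=
      pow_le_pow_right₀ (by linarith) (Nat.mod_lt j (by omega)).le
    have h5 : 0 ≤ b := (norm_nonneg _).trans h3
    calc _ ≤ (2 * c.Λ) ^ (j % n) * ‖(c.word x (ids E) n ^ (j / n)) v‖ := h2
      _ ≤ (2 * c.Λ) ^ n * b := by gcongr

theorem symm_iter {x : X} {n : ℕ} (hx : c.f^[n] x = x) : c.f.symm^[n] x = x := by
  have h1 : Function.LeftInverse (c.f.symm^[n]) (c.f^[n]) :=
    Function.LeftInverse.iterate c.f.symm_apply_apply n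
  have h2 := h1 x
  rwa [hx] at h2

theorem inv_word_eq {x : X} {n : ℕ} (hx : c.f^[n] x = x) :
    c.inv.word x (ids E) n = (c.word x (ids E) n)⁻¹ := by
  refine ContinuousLinearEquiv.ext (funext fun v => ?_)
  show _ = (c.word x (ids E) n).symm v
  rw [ContinuousLinearEquiv.eq_symm_apply]
  have h1 := inv_word_cancel (c := c) x n v
  rwa [c.symm_iter hx] at h1

theorem inv_Bd_eq {x : X} {n : ℕ} (hn : 1 ≤ n) (hx : c.f^[n] x = x) :
    c.inv.Bd x = (kc (c.word x (ids E) n)).inv.Bd () := by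
  have h1 : c.inv.f^[n] x = x := c.symm_iter hx
  rw [c.inv.Bd_eq hn h1, c.inv_word_eq hx]
  ext v
  constructor
  · rintro ⟨b, hb⟩
    refine ⟨b, fun k => ?_⟩
    have := hb k
    rw [kc_word] at this
    rwa [kc_inv_word]
  · rintro ⟨b, hb⟩
    refine ⟨b, fun k => ?_⟩
    have := hb k
    rw [kc_inv_word] at this
    rwa [kc_word]

theorem word_mem_Bd {x : X} {v : E} (n : ℕ) :
    c.word x (ids E) n v ∈ c.Bd (c.f^[n] x) ↔ v ∈ c.Bd x := by
  induction n with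
  | zero => exact Iff.rfl
  | succ n ih =>
    rw [word_ids_succ', Function.iterate_succ_apply', c.A_mem_Bd]
    exact ih

theorem A_mem_inv_Bd {x : X} {v : E} : c.A x v ∈ c.inv.Bd (c.f x) ↔ v ∈ c.inv.Bd x := by
  have h1 := c.inv.A_mem_Bd (x := c.f x) (v := c.A x v)
  have h2 : c.inv.f (c.f x) = x := c.f.symm_apply_apply x
  have h3 : c.inv.A (c.f x) (c.A x v) = v := by
    show (c.A (c.f.symm (c.f x))).symm (c.A x v) = v
    rw [Equiv.symm_apply_apply, ContinuousLinearEquiv.symm_apply_apply]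
  rw [h2, h3] at h1
  exact h1.symm

theorem word_mem_inv_Bd {x : X} {v : E} (n : ℕ) :
    c.word x (ids E) n v ∈ c.inv.Bd (c.f^[n] x) ↔ v ∈ c.inv.Bd x := by
  induction n with
  | zero => exact Iff.rfl
  | succ n ih =>
    rw [word_ids_succ', Function.iterate_succ_apply', c.A_mem_inv_Bd]
    exact ih

/-- The closed words along periodic orbits, with small perturbations and with a jump between near
points, have robustly no eigenvalues of modulus one. -/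
structure Cl (δ ρ CJ : ℝ) (N₁ : ℕ) (near : X → X → Prop) : Prop where
  one : ∀ x n, c.f^[n] x = x → N₁ ≤ n → Loop δ ρ (c.word x (ids E) n)
  two : ∀ x m l, c.f^[m + l] x = x → N₁ ≤ m → N₁ ≤ l → ∀ e₁ e₂, Near δ e₁ → Near δ e₂ →
    ∀ i j, 1 ≤ i → HL δ ρ (i + 1 + j) (c.word x (ids E) (m + l) ^ j *
      (c.word (c.f^[m] x) (ids E) l * e₂ * c.word x (ids E) m * e₁) * c.word x (ids E) (m + l) ^ i)
  three : ∀ x n n', c.f^[n] x = x → N₁ ≤ n → N₁ ≤ n' → near x (c.f^[n'] x) →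
    ∃ J : E ≃L[ℝ] E, (∀ v, ‖J v‖ ≤ CJ * ‖v‖) ∧ (∀ v, ‖v‖ ≤ CJ * ‖J v‖) ∧
      HL δ ρ n' (J * c.word x (ids E) n') ∧
      (∀ k l, 1 ≤ k + l → HL δ ρ (l + k)
        (c.word x (ids E) n ^ k * (J * c.word x (ids E) n') ^ l)) ∧
      ∀ k l, 1 ≤ k + l → HL δ ρ (k + l)
        ((J * c.word x (ids E) n') ^ l * c.word x (ids E) n ^ k)

variable {c}

/-- transversality -/
theorem Cl.trans {δ ρ CJ : ℝ} {N₁ : ℕ} {near : X → X → Prop} (h : c.Cl δ ρ CJ N₁ near)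
    (hδ : 0 < δ) (hδ1 : δ ≤ 1) (hρ : 1 < ρ) {x : X} {n : ℕ} (hn : 1 ≤ n) (hx : c.f^[n] x = x)
    {m : ℕ} (hm : N₁ ≤ m) {e₁ e₂ : E ≃L[ℝ] E} (he₁ : Near δ e₁) (he₂ : Near δ e₂) {w : E}
    (hw : w ∈ c.inv.Bd x) (hw' : e₂ (c.word x (ids E) m (e₁ w)) ∈ c.Bd (c.f^[m] x)) : w = 0 := by
  obtain ⟨l, hl, hml⟩ : ∃ l, N₁ ≤ l ∧ c.f^[m + l] x = x := by
    refine ⟨n * (N₁ + m + 1) - m, ?_, ?_⟩
    · have : N₁ + m + 1 ≤ n * (N₁ + m + 1) := Nat.le_mul_of_pos_left _ hn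
      omega
    · have : N₁ + m + 1 ≤ n * (N₁ + m + 1) := Nat.le_mul_of_pos_left _ hn
      rw [show m + (n * (N₁ + m + 1) - m) = n * (N₁ + m + 1) by omega]
      exact c.iter_mul hx _
  by_cases hml0 : m + l = 0
  · -- lengths zero: use a positive period
    have hm0 : m = 0 := by omega
    have hN : N₁ = 0 := by omega
    subst hm0
    obtain ⟨C, hC, hwin, -⟩ := exists_win E (δ := δ / 16) (by positivity) (by linarith) hρ
    have hL := h.one x n hx (by omega)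
    obtain ⟨hW, hW'⟩ := loop_win hδ hδ1 hρ hC hwin hL
    have h2 := h.two x 0 n (by rw [zero_add]; exact hx) (by omega) (by omega) e₁ e₂ he₁ he₂
    rw [zero_add] at h2
    refine trans_main (T := c.word x (ids E) n * e₂ * c.word x (ids E) 0 * e₁) (by positivity)
      (by linarith) (by positivity) (inv_lt_one_of_one_lt₀ hρ) hC hW hW' (fun k j hk => hwin _ _
      ((h2 k j hk).mono (by linarith))) (u := w) ?_ ?_
    · rw [← c.inv_Bd_eq hn hx]
      exact hw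
    · rw [← c.Bd_eq hn hx]
      have h3 := (c.word_mem_Bd (x := x) (v := e₂ (c.word x (ids E) 0 (e₁ w))) n).2 hw'
      rw [hx] at h3
      exact h3
  · have hml1 : 1 ≤ m + l := by omega
    obtain ⟨C, hC, hwin, -⟩ := exists_win E (δ := δ / 16) (by positivity) (by linarith) hρ
    have hL := h.one x (m + l) hml (by omega)
    obtain ⟨hW, hW'⟩ := loop_win hδ hδ1 hρ hC hwin hL
    have h2 := h.two x m l hml hm hl e₁ e₂ he₁ he₂
    refine trans_main (T := c.word (c.f^[m] x) (ids E) l * e₂ * c.word x (ids E) m * e₁)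
      (by positivity) (by linarith) (by positivity) (inv_lt_one_of_one_lt₀ hρ) hC hW hW'
      (fun k j hk => hwin _ _ ((h2 k j hk).mono (by linarith))) (u := w) ?_ ?_
    · rw [← c.inv_Bd_eq hml1 hml]
      exact hw
    · rw [← c.Bd_eq hml1 hml]
      have h3 := (c.word_mem_Bd (x := c.f^[m] x) (v := e₂ (c.word x (ids E) m (e₁ w))) l).2 hw'
      rw [← Function.iterate_add_apply, add_comm l m, hml] at h3
      exact h3

/-- the splitting at periodic points -/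
theorem Cl.compl {δ ρ CJ : ℝ} {N₁ : ℕ} {near : X → X → Prop} (h : c.Cl δ ρ CJ N₁ near)
    (hδ : 0 < δ) (hδ1 : δ ≤ 1) (hρ : 1 < ρ) {x : X} {n : ℕ} (hn : 1 ≤ n) (hx : c.f^[n] x = x) :
    IsCompl (c.Bd x) (c.inv.Bd x) := by
  have hn1 : 1 ≤ n * (N₁ + 1) := by
    have : N₁ + 1 ≤ n * (N₁ + 1) := Nat.le_mul_of_pos_left _ hn
    omega
  have hn2 : N₁ ≤ n * (N₁ + 1) := by
    have : N₁ + 1 ≤ n * (N₁ + 1) := Nat.le_mul_of_pos_left _ hn
    omega
  have hx' := c.iter_mul hx (N₁ + 1)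
  obtain ⟨C, hC, hwin, -⟩ := exists_win E (δ := δ / 16) (by positivity) (by linarith) hρ
  obtain ⟨hW, hW'⟩ := loop_win hδ hδ1 hρ hC hwin (h.one x _ hx' hn2)
  obtain ⟨C', n₁, hC', hsp, -⟩ := splitting1 (by positivity) (by linarith) (by positivity)
    (inv_lt_one_of_one_lt₀ hρ) hC hW hW'
  rw [c.Bd_eq hn1 hx', c.inv_Bd_eq hn1 hx']
  exact (hsp ()).1

/-- uniform angles -/
theorem Cl.angle {δ ρ CJ : ℝ} {N₁ : ℕ} {near : X → X → Prop} (h : c.Cl δ ρ CJ N₁ near)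
    (hδ : 0 < δ) (hδ1 : δ ≤ 1) (hρ : 1 < ρ) {x : X} {n : ℕ} (hn : 1 ≤ n) (hx : c.f^[n] x = x)
    {v w : E} (hv : v ∈ c.Bd x) (hw : w ∈ c.inv.Bd x) :
    ‖v‖ ≤ (1 + 4 / δ) * ‖v + w‖ ∧ ‖w‖ ≤ (1 + 4 / δ) * ‖v + w‖ := by
  have key : ‖v‖ ≤ 4 / δ * ‖v + w‖ := by
    by_contra hcon
    push Not at hcon
    have h1 : ‖(-v) - w‖ < δ / 4 * ‖-v‖ := by
      have e1 : ‖(-v) - w‖ = ‖v + w‖ := by
        rw [← norm_neg]
        congr 1
        abel
      rw [e1, norm_neg]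
      rw [div_mul_eq_mul_div, div_lt_iff₀ hδ] at hcon
      linarith
    obtain ⟨e, he, hew⟩ := exists_near_map hδ hδ1 h1
    have h2 := h.trans hδ hδ1 hρ hn hx le_rfl he (near_refl hδ.le) hw (by
      show c.word x (ids E) N₁ (e w) ∈ _
      rw [hew, word_mem_Bd]
      exact (c.Bd x).neg_mem hv)
    rw [h2, add_zero] at hcon
    have h3 := norm_nonneg v
    have h4 : (1 : ℝ) ≤ 4 / δ := by
      rw [one_le_div hδ]
      linarith
    nlinarith
  have h1 := norm_nonneg (v + w)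
  refine ⟨by nlinarith, ?_⟩
  have h2 : w = (v + w) - v := by abel
  calc ‖w‖ = ‖(v + w) - v‖ := by rw [← h2]
    _ ≤ ‖v + w‖ + ‖v‖ := norm_sub_le _ _
    _ ≤ (1 + 4 / δ) * ‖v + w‖ := by linarith

/-- domination -/
theorem Cl.dom {δ ρ CJ : ℝ} {N₁ : ℕ} {near : X → X → Prop} (h : c.Cl δ ρ CJ N₁ near)
    (hδ : 0 < δ) (hδ1 : δ ≤ 1) (hρ : 1 < ρ) {x : X} {n : ℕ} (hn : 1 ≤ n) (hx : c.f^[n] x = x)
    {m : ℕ} (hm : N₁ ≤ m) {v w : E} (hv : v ∈ c.Bd x) (hw : w ∈ c.inv.Bd x) :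
    ‖c.word x (ids E) m v‖ * ‖w‖ ≤ 64 / δ ^ 2 * ‖c.word x (ids E) m w‖ * ‖v‖ := by
  by_contra hcon
  push Not at hcon
  obtain ⟨A, hA⟩ : ∃ A, A = c.word x (ids E) m := ⟨_, rfl⟩
  rw [← hA] at hcon
  have hK : 0 < 64 / δ ^ 2 := by positivity
  have hw0 : 0 < ‖w‖ := by
    by_contra h0
    have h1 : ‖w‖ = 0 := le_antisymm (not_lt.1 h0) (norm_nonneg _)
    rw [h1, mul_zero] at hcon
    exact absurd hcon (not_lt.2 (by positivity))
  have hAv0 : 0 < ‖A v‖ := by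
    by_contra h0
    have h1 : ‖A v‖ = 0 := le_antisymm (not_lt.1 h0) (norm_nonneg _)
    rw [h1, zero_mul] at hcon
    exact absurd hcon (not_lt.2 (by positivity))
  have hv0 : 0 < ‖v‖ := by
    rw [norm_pos_iff]
    intro h0
    rw [h0, map_zero, norm_zero] at hAv0
    exact lt_irrefl _ hAv0
  -- the scaling of `v`
  obtain ⟨t, ht⟩ : ∃ t, t = δ / 16 * ‖w‖ / ‖v‖ := ⟨_, rfl⟩
  have ht0 : 0 < t := by rw [ht]; positivity
  have htv : ‖t • v‖ = δ / 16 * ‖w‖ := by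
    rw [norm_smul, Real.norm_of_nonneg ht0.le, ht]
    field_simp
  have h1 : ‖(w + t • v) - w‖ < δ / 4 * ‖w + t • v‖ := by
    rw [add_sub_cancel_left, htv]
    have h2 : ‖w‖ ≤ ‖w + t • v‖ + ‖t • v‖ := by
      have : w = (w + t • v) - t • v := by abel
      conv_lhs => rw [this]
      exact norm_sub_le _ _
    rw [htv] at h2
    have h3 : 15 / 16 * ‖w‖ ≤ ‖w + t • v‖ := by nlinarith
    calc δ / 16 * ‖w‖ < δ / 4 * (15 / 16 * ‖w‖) := by nlinarith [mul_pos hδ hw0]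
      _ ≤ _ := by gcongr
  obtain ⟨e₁, he₁, hew₁⟩ := exists_near_map hδ hδ1 h1
  have h3 : ‖t • A v - (A w + t • A v)‖ < δ / 4 * ‖t • A v‖ := by
    have e1 : t • A v - (A w + t • A v) = -A w := by abel
    rw [e1, norm_neg, norm_smul, Real.norm_of_nonneg ht0.le, ht]
    have e2 : δ / 4 * (δ / 16 * ‖w‖ / ‖v‖ * ‖A v‖) = δ ^ 2 / 64 * (‖A v‖ * ‖w‖) / ‖v‖ := by
      field_simp
      norm_num
    rw [e2, lt_div_iff₀ hv0]
    have e3 : ‖A w‖ * ‖v‖ = δ ^ 2 / 64 * (64 / δ ^ 2 * ‖A w‖ * ‖v‖) := by field_simp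
    rw [e3]
    gcongr
  obtain ⟨e₂, he₂, hew₂⟩ := exists_near_map hδ hδ1 h3
  have h4 := h.trans hδ hδ1 hρ hn hx hm he₁ he₂ hw (by
    rw [hew₁, ← hA, map_add, map_smul, hew₂, hA]
    exact Submodule.smul_mem _ _ ((c.word_mem_Bd m).2 hv))
  rw [h4, norm_zero] at hw0
  exact lt_irrefl _ hw0

/-- **Contraction along loops.** -/
theorem Cl.contract {δ ρ CJ : ℝ} {N₁ : ℕ} {near : X → X → Prop} (h : c.Cl δ ρ CJ N₁ near)
    (hδ : 0 < δ) (hδ1 : δ ≤ 1) (hρ : 1 < ρ) (hCJ : 1 ≤ CJ) : ∃ C₄ ≥ 1, ∀ (x : X) (n : ℕ), 1 ≤ n →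
      c.f^[n] x = x → ∀ m, near x (c.f^[m] x) →
      (∀ v ∈ c.Bd x, ‖c.word x (ids E) m v‖ ≤ C₄ * ρ⁻¹ ^ m * ‖v‖) ∧
      ∀ w ∈ c.inv.Bd x, ‖w‖ ≤ C₄ * ρ⁻¹ ^ m * ‖c.word x (ids E) m w‖ := by
  obtain ⟨C, hC, hwin, N₂, hdim⟩ := exists_win E hδ hδ1 hρ
  have hΛ := c.one_le
  have hids : ∀ i, Near (1 : ℝ) (ids E i) := fun i => near_refl zero_le_one
  obtain ⟨N, hN⟩ : ∃ N, N = N₁ + N₂ := ⟨_, rfl⟩
  obtain ⟨K, hK⟩ : ∃ K : ℝ, K = 64 / δ ^ 2 := ⟨_, rfl⟩
  obtain ⟨K₁, hK₁⟩ : ∃ K₁ : ℝ, K₁ = 1 + 4 / δ := ⟨_, rfl⟩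
  have hK1 : 1 ≤ K := by
    rw [hK, one_le_div (by positivity)]
    nlinarith
  have hK₁1 : 1 ≤ K₁ := by
    rw [hK₁]
    have : 0 < 4 / δ := by positivity
    linarith
  have hρ0 : 0 < ρ := by linarith
  have hb1 : (1 : ℝ) ≤ (2 * c.Λ * ρ) ^ N := one_le_pow₀ (by nlinarith)
  refine ⟨(2 * c.Λ * ρ) ^ N + 2 * K * K₁ * (CJ * C), by nlinarith [mul_pos (mul_pos (by linarith : 0 < K) (by linarith : 0 < K₁)) (mul_pos (by linarith : 0 < CJ) (by linarith : 0 < C))], ?_⟩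
  intro x n hn hx m hnear
  have hq0 : 0 < ρ⁻¹ := by positivity
  have hCC : 0 ≤ 2 * K * K₁ * (CJ * C) := by positivity
  by_cases hm : m < N
  · have h1 : (2 * c.Λ * ρ) ^ m ≤ (2 * c.Λ * ρ) ^ N := pow_le_pow_right₀ (by nlinarith) hm.le
    have h2 : (2 * c.Λ) ^ m = (2 * c.Λ * ρ) ^ m * ρ⁻¹ ^ m := by
      rw [← mul_pow]
      congr 1
      field_simp
    have h3 : (2 * c.Λ) ^ m ≤ ((2 * c.Λ * ρ) ^ N + 2 * K * K₁ * (CJ * C)) * ρ⁻¹ ^ m := by
      rw [h2]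
      gcongr
      linarith
    exact ⟨fun v _ => (c.word_bd x le_rfl hids m v).trans (by gcongr),
      fun w _ => (c.word_low x le_rfl hids m w).trans (by gcongr)⟩
  · push Not at hm
    obtain ⟨n₁, hn₁, hn₁N, hx₁⟩ : ∃ n₁, 1 ≤ n₁ ∧ N₁ ≤ n₁ ∧ c.f^[n₁] x = x := by
      have : N₁ + 1 ≤ n * (N₁ + 1) := Nat.le_mul_of_pos_left _ hn
      exact ⟨n * (N₁ + 1), by omega, by omega, c.iter_mul hx _⟩
    obtain ⟨J, hJ, hJ', hHL, hk1, hk2⟩ := h.three x n₁ m hx₁ hn₁N (by omega) hnear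
    have hidx := index_eq hδ hδ1 hρ hk1 hk2
    have hfin := finrank_bd hδ hδ1 hρ (h.one x n₁ hx₁ hn₁N)
    rw [← c.Bd_eq hn₁ hx₁, hidx] at hfin
    obtain ⟨S, hS⟩ := hwin m _ hHL
    have hfS := hdim m _ S (by omega) hHL hS
    have hSs : Module.finrank ℝ S = Module.finrank ℝ (c.Bd x) := by omega
    have hcompl := h.compl hδ hδ1 hρ hn hx
    have hsum := Submodule.finrank_add_eq_of_isCompl hcompl
    have hSo := Submodule.finrank_add_finrank_orthogonal S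
    obtain ⟨A, hA⟩ : ∃ A, A = c.word x (ids E) m := ⟨_, rfl⟩
    obtain ⟨κ, hκ⟩ : ∃ κ, κ = CJ * (C * ρ⁻¹ ^ m) := ⟨_, rfl⟩
    have hκ0 : 0 < κ := by rw [hκ]; positivity
    have hS1 : ∀ v ∈ S, ‖A v‖ ≤ κ * ‖v‖ := by
      intro v hv
      have h1 := hS.1 v hv
      rw [← hA] at h1
      have h2 : ‖A v‖ ≤ CJ * ‖J (A v)‖ := hJ' _
      calc _ ≤ CJ * (C * ρ⁻¹ ^ m * ‖v‖) := h2.trans (by gcongr; exact h1)
        _ = κ * ‖v‖ := by rw [hκ]; ring
    have hS2 : ∀ v ∈ Sᗮ, ‖v‖ ≤ κ * ‖A v‖ := by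
      intro v hv
      have h1 := hS.2 v hv
      rw [← hA] at h1
      have h2 : ‖J (A v)‖ ≤ CJ * ‖A v‖ := hJ _
      calc _ ≤ C * ρ⁻¹ ^ m * (CJ * ‖A v‖) := h1.trans (by gcongr; exact h2)
        _ = κ * ‖A v‖ := by rw [hκ]; ring
    have hang : ∀ v ∈ c.Bd x, ∀ w ∈ c.inv.Bd x, ‖v‖ ≤ K₁ * ‖v + w‖ ∧ ‖w‖ ≤ K₁ * ‖v + w‖ := by
      intro v hv w hw
      rw [hK₁]
      exact h.angle hδ hδ1 hρ hn hx hv hw
    have hang' : ∀ v ∈ c.Bd x, ∀ w ∈ c.inv.Bd x, ‖A v‖ ≤ K₁ * ‖A (v + w)‖ ∧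
        ‖A w‖ ≤ K₁ * ‖A (v + w)‖ := by
      intro v hv w hw
      rw [hK₁, map_add, hA]
      have hx2 : c.f^[n] (c.f^[m] x) = c.f^[m] x := by
        rw [← Function.iterate_add_apply, add_comm n m, Function.iterate_add_apply, hx]
      exact h.angle hδ hδ1 hρ hn hx2 ((c.word_mem_Bd m).2 hv) ((c.word_mem_inv_Bd m).2 hw)
    have hdom : ∀ v ∈ c.Bd x, ∀ w ∈ c.inv.Bd x, ‖A v‖ * ‖w‖ ≤ K * ‖A w‖ * ‖v‖ := by
      intro v hv w hw
      rw [hK, hA]
      exact h.dom hδ hδ1 hρ hn hx (by omega) hv hw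
    have hfinal : 2 * K * K₁ * κ ≤ ((2 * c.Λ * ρ) ^ N + 2 * K * K₁ * (CJ * C)) * ρ⁻¹ ^ m := by
      rw [hκ]
      have h1 : 2 * K * K₁ * (CJ * (C * ρ⁻¹ ^ m)) = 2 * K * K₁ * (CJ * C) * ρ⁻¹ ^ m := by ring
      rw [h1]
      gcongr
      linarith
    rw [← hA]
    constructor
    · intro v hv
      by_cases hv0 : v = 0
      · rw [hv0, map_zero, norm_zero, mul_zero]
      have hvn : 0 < ‖v‖ := norm_pos_iff.2 hv0
      -- a vector of `S` in the span of `v` and the unstable space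
      obtain ⟨a, w, hw, hne, hmem⟩ : ∃ (a : ℝ) (w : E), w ∈ c.inv.Bd x ∧ a • v + w ≠ 0 ∧
          a • v + w ∈ S := by
        have h1 : Module.finrank ℝ ((ℝ ∙ v) ⊔ c.inv.Bd x : Submodule ℝ E) =
            1 + Module.finrank ℝ (c.inv.Bd x) := by
          have h2 := Submodule.finrank_sup_add_finrank_inf_eq (ℝ ∙ v) (c.inv.Bd x)
          have h3 : (ℝ ∙ v) ⊓ c.inv.Bd x = ⊥ := by
            rw [← disjoint_iff]
            exact hcompl.disjoint.mono_left ((Submodule.span_singleton_le_iff_mem _ _).2 hv)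
          rw [h3, finrank_bot, add_zero, finrank_span_singleton hv0] at h2
          exact h2
        have h4 : ¬ Disjoint S ((ℝ ∙ v) ⊔ c.inv.Bd x) := by
          intro hd
          have h5 := Submodule.finrank_add_finrank_le_of_disjoint hd
          omega
        rw [Submodule.disjoint_def] at h4
        push Not at h4
        obtain ⟨z, hzS, hz, hz0⟩ := h4
        obtain ⟨y, hy, w, hw, hyw⟩ := Submodule.mem_sup.1 hz
        obtain ⟨a, rfl⟩ := Submodule.mem_span_singleton.1 hy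
        exact ⟨a, w, hw, by rw [hyw]; exact hz0, by rw [hyw]; exact hzS⟩
      have hav : a • v ∈ c.Bd x := Submodule.smul_mem _ _ hv
      have h1 := hS1 _ hmem
      obtain ⟨h2, h3⟩ := hang' _ hav _ hw
      have h4 : ‖a • v + w‖ ≤ ‖a • v‖ + ‖w‖ := norm_add_le _ _
      have h5 : ‖A (a • v)‖ ≤ K₁ * (κ * (‖a • v‖ + ‖w‖)) :=
        h2.trans (by gcongr; exact h1.trans (by gcongr))
      have h6 : ‖A w‖ ≤ K₁ * (κ * (‖a • v‖ + ‖w‖)) :=
        h3.trans (by gcongr; exact h1.trans (by gcongr))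
      have hmain : ‖A v‖ ≤ 2 * K * K₁ * κ * ‖v‖ := by
        rcases le_total ‖w‖ ‖a • v‖ with h7 | h7
        · have ha : a ≠ 0 := by
            intro h0
            rw [h0, zero_smul, norm_zero] at h7
            have : w = 0 := norm_le_zero_iff.1 h7
            rw [h0, this] at hne
            simp at hne
          have ha' : 0 < ‖a‖ := norm_pos_iff.2 ha
          rw [map_smul, norm_smul, norm_smul] at h5
          rw [norm_smul] at h7
          have h8 : ‖a‖ * ‖A v‖ ≤ ‖a‖ * (2 * K₁ * κ * ‖v‖) := by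
            calc ‖a‖ * ‖A v‖ ≤ K₁ * (κ * (‖a‖ * ‖v‖ + ‖w‖)) := h5
              _ ≤ K₁ * (κ * (‖a‖ * ‖v‖ + ‖a‖ * ‖v‖)) := by gcongr
              _ = _ := by ring
          have h9 := le_of_mul_le_mul_left h8 ha'
          refine h9.trans ?_
          have : 2 * K₁ * κ * ‖v‖ ≤ K * (2 * K₁ * κ * ‖v‖) := by
            have h10 : 0 ≤ 2 * K₁ * κ * ‖v‖ := by positivity
            nlinarith
          calc _ ≤ _ := this
            _ = _ := by ring
        · have hw0 : 0 < ‖w‖ := by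
            by_contra h0
            have h8 : ‖w‖ = 0 := le_antisymm (not_lt.1 h0) (norm_nonneg _)
            have h9 : ‖a • v‖ = 0 := le_antisymm (h7.trans h8.le) (norm_nonneg _)
            rw [norm_eq_zero] at h8 h9
            rw [h8, h9] at hne
            simp at hne
          have h8 := hdom v hv w hw
          have h9 : ‖A v‖ * ‖w‖ ≤ (2 * K * K₁ * κ * ‖v‖) * ‖w‖ := by
            calc ‖A v‖ * ‖w‖ ≤ K * ‖A w‖ * ‖v‖ := h8
              _ ≤ K * (K₁ * (κ * (‖w‖ + ‖w‖))) * ‖v‖ := by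
                gcongr
                exact h6.trans (by gcongr)
              _ = _ := by ring
          exact le_of_mul_le_mul_right h9 hw0
      refine hmain.trans ?_
      gcongr
    · intro w hw
      by_cases hw0 : w = 0
      · rw [hw0, map_zero, norm_zero, mul_zero]
      have hwn : 0 < ‖w‖ := norm_pos_iff.2 hw0
      obtain ⟨a, v, hv, hne, hmem⟩ : ∃ (a : ℝ) (v : E), v ∈ c.Bd x ∧ v + a • w ≠ 0 ∧
          v + a • w ∈ Sᗮ := by
        have h1 : Module.finrank ℝ ((ℝ ∙ w) ⊔ c.Bd x : Submodule ℝ E) =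
            1 + Module.finrank ℝ (c.Bd x) := by
          have h2 := Submodule.finrank_sup_add_finrank_inf_eq (ℝ ∙ w) (c.Bd x)
          have h3 : (ℝ ∙ w) ⊓ c.Bd x = ⊥ := by
            rw [← disjoint_iff]
            exact hcompl.symm.disjoint.mono_left ((Submodule.span_singleton_le_iff_mem _ _).2 hw)
          rw [h3, finrank_bot, add_zero, finrank_span_singleton hw0] at h2
          exact h2
        have h4 : ¬ Disjoint Sᗮ ((ℝ ∙ w) ⊔ c.Bd x) := by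
          intro hd
          have h5 := Submodule.finrank_add_finrank_le_of_disjoint hd
          omega
        rw [Submodule.disjoint_def] at h4
        push Not at h4
        obtain ⟨z, hzS, hz, hz0⟩ := h4
        obtain ⟨y, hy, v, hv, hyv⟩ := Submodule.mem_sup.1 hz
        obtain ⟨a, rfl⟩ := Submodule.mem_span_singleton.1 hy
        exact ⟨a, v, hv, by rw [add_comm, hyv]; exact hz0, by rw [add_comm, hyv]; exact hzS⟩
      have haw : a • w ∈ c.inv.Bd x := Submodule.smul_mem _ _ hw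
      have h1 := hS2 _ hmem
      obtain ⟨h2, h3⟩ := hang _ hv _ haw
      have hzn : 0 < ‖v + a • w‖ := norm_pos_iff.2 hne
      have h4 : ‖A (v + a • w)‖ ≤ ‖A v‖ + ‖a‖ * ‖A w‖ := by
        rw [map_add, map_smul]
        refine (norm_add_le _ _).trans ?_
        rw [norm_smul]
      have h5 := hdom v hv w hw
      -- `‖w‖ ‖A z‖ ≤ 2 K K₁ ‖A w‖ ‖z‖`
      have h6 : ‖A (v + a • w)‖ * ‖w‖ ≤ 2 * K * K₁ * ‖A w‖ * ‖v + a • w‖ := by
        calc ‖A (v + a • w)‖ * ‖w‖ ≤ (‖A v‖ + ‖a‖ * ‖A w‖) * ‖w‖ := by gcongr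
          _ = ‖A v‖ * ‖w‖ + ‖a‖ * ‖w‖ * ‖A w‖ := by ring
          _ ≤ K * ‖A w‖ * ‖v‖ + ‖a • w‖ * ‖A w‖ := by
            rw [norm_smul]
            gcongr
          _ ≤ K * ‖A w‖ * (K₁ * ‖v + a • w‖) + K₁ * ‖v + a • w‖ * ‖A w‖ := by gcongr
          _ ≤ K * ‖A w‖ * (K₁ * ‖v + a • w‖) + K * (K₁ * ‖v + a • w‖ * ‖A w‖) := by
            have h10 : 0 ≤ K₁ * ‖v + a • w‖ * ‖A w‖ := by positivity
            nlinarith
          _ = _ := by ring
      have h7 : ‖v + a • w‖ * ‖w‖ ≤ ‖v + a • w‖ * (2 * K * K₁ * κ * ‖A w‖) := by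
        calc ‖v + a • w‖ * ‖w‖ ≤ κ * ‖A (v + a • w)‖ * ‖w‖ := by gcongr
          _ = κ * (‖A (v + a • w)‖ * ‖w‖) := by ring
          _ ≤ κ * (2 * K * K₁ * ‖A w‖ * ‖v + a • w‖) := by gcongr
          _ = _ := by ring
      refine (le_of_mul_le_mul_left h7 hzn).trans ?_
      gcongr

end Coc

end Pool.Agent.H245.SH
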