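import Pool.Agent.H245.SH.P1

/-!
# Limits of tangent subspaces
-/

set_option autoImplicit false
set_option linter.unusedSectionVars false

open scoped Manifold ContDiff Topology NNReal
open Filter Set Metric

universe u v w

namespace Pool.Agent.H245.SH

open Pool.Agent.H718R2.G

theorem compact_ortho (m d : ℕ) : IsCompact {b : Fin d → V m | Orthonormal ℝ b} := by
  have h1 : {b : Fin d → V m | Orthonormal ℝ b} =
      ⋂ i : Fin d, ⋂ j : Fin d, {b | inner ℝ (b i) (b j) = if i = j then (1 : ℝ) else 0} := by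
    ext b
    simp only [mem_iInter]
    exact orthonormal_iff_ite
  have h2 : IsClosed {b : Fin d → V m | Orthonormal ℝ b} := by
    rw [h1]
    refine isClosed_iInter fun i => isClosed_iInter fun j => ?_
    exact isClosed_eq (Continuous.inner (continuous_apply i) (continuous_apply j)) continuous_const
  refine (isCompact_closedBall (0 : Fin d → V m) 1).of_isClosed_subset h2 fun b hb => ?_
  rw [mem_closedBall, dist_zero_right, pi_norm_le_iff_of_nonneg zero_le_one]
  intro i
  exact (hb.1 i).le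

variable {m : ℕ} {M : Type v} [TopologicalSpace M] [ChartedSpace (V m) M]
  [IsManifold (𝓡 m) ∞ M]

/-- Tangent subspaces of the same dimension have limits along ultrafilters. -/
theorem limit_spaces {x₀ : M} (U : Ultrafilter M) (hU : (U : Filter M) ≤ 𝓝 x₀) {d : ℕ}
    {Z : ∀ x : M, Submodule ℝ (TangentSpace 𝓘(ℝ, V m) x)}
    (hd : ∀ᶠ x in (U : Filter M), Module.finrank ℝ (Z x) = d) :
    ∃ Z₀ : Submodule ℝ (TangentSpace 𝓘(ℝ, V m) x₀), Module.finrank ℝ Z₀ = d ∧
      ∀ v ∈ Z₀, ∃ w : ∀ x : M, TangentSpace 𝓘(ℝ, V m) x,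
        (∀ᶠ x in (U : Filter M), w x ∈ Z x) ∧
        Tendsto (fun x => (⟨x, w x⟩ : TangentBundle 𝓘(ℝ, V m) M)) U (𝓝 ⟨x₀, v⟩) := by
  classical
  set e := trivializationAt (V m) (TangentSpace 𝓘(ℝ, V m) : M → Type) x₀ with he
  have hx₀ : x₀ ∈ e.baseSet := FiberBundle.mem_baseSet_trivializationAt' x₀
  have h1 : ∀ x : M, ∃ b : Fin d → V m, x ∈ e.baseSet → Module.finrank ℝ (Z x) = d →
      Orthonormal ℝ b ∧ ∀ j, e.symmₗ ℝ x (b j) ∈ Z x := by
    intro x
    by_cases hx : x ∈ e.baseSet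
    · by_cases hdx : Module.finrank ℝ (Z x) = d
      · let L := e.linearEquivAt ℝ x hx
        have h2 : Module.finrank ℝ ((Z x).map (L : TangentSpace 𝓘(ℝ, V m) x →ₗ[ℝ] V m)) = d := by
          rw [← hdx]
          exact LinearEquiv.finrank_map_eq L (Z x)
        let bb := (stdOrthonormalBasis ℝ
          ((Z x).map (L : TangentSpace 𝓘(ℝ, V m) x →ₗ[ℝ] V m))).reindex (finCongr h2)
        refine ⟨fun j => (bb j : V m), fun _ _ => ⟨?_, fun j => ?_⟩⟩
        · exact bb.orthonormal.comp_linearIsometry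
            (Submodule.subtypeₗᵢ ((Z x).map (L : TangentSpace 𝓘(ℝ, V m) x →ₗ[ℝ] V m)))
        · obtain ⟨z, hz, hz'⟩ := Submodule.mem_map.1 (bb j).2
          show e.symmₗ ℝ x (bb j : V m) ∈ Z x
          rw [← hz']
          have h3 : e.symmₗ ℝ x (L z) = z := by
            have := e.symmₗ_linearMapAt (R := ℝ) hx z
            rw [e.linearMapAt_def_of_mem (R := ℝ) hx] at this
            exact this
          show e.symmₗ ℝ x (L z) ∈ Z x
          rw [h3]
          exact hz
      · exact ⟨0, fun _ h => absurd h hdx⟩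
    · exact ⟨0, fun h => absurd h hx⟩
  choose b hb using h1
  have hbase : ∀ᶠ x in (U : Filter M), x ∈ e.baseSet := hU (e.open_baseSet.mem_nhds hx₀)
  have hb' : ∀ᶠ x in (U : Filter M), Orthonormal ℝ (b x) ∧ ∀ j, e.symmₗ ℝ x (b x j) ∈ Z x := by
    filter_upwards [hbase, hd] with x h2 h3
    exact hb x h2 h3
  obtain ⟨β, hβ, hlim⟩ := (compact_ortho m d).ultrafilter_le_nhds (U.map b) (by
    rw [le_principal_iff]
    have : ∀ᶠ x in (U : Filter M), b x ∈ {b : Fin d → V m | Orthonormal ℝ b} := by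
      filter_upwards [hb'] with x hx
      exact hx.1
    exact this)
  have hlim' : Tendsto b U (𝓝 β) := hlim
  have hinj : Function.Injective (e.symmₗ ℝ x₀) := by
    have h2 : Function.LeftInverse (e.linearMapAt ℝ x₀) (e.symmₗ ℝ x₀) := fun v =>
      e.linearMapAt_symmₗ (R := ℝ) hx₀ v
    exact h2.injective
  refine ⟨Submodule.span ℝ (Set.range fun j => e.symmₗ ℝ x₀ (β j)), ?_, fun v hv => ?_⟩
  · rw [finrank_span_eq_card, Fintype.card_fin]
    have h2 : LinearIndependent ℝ β := Orthonormal.linearIndependent hβ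
    exact h2.map' (e.symmₗ ℝ x₀) (LinearMap.ker_eq_bot.2 hinj)
  · obtain ⟨a, ha⟩ := (Submodule.mem_span_range_iff_exists_fun ℝ).1 hv
    refine ⟨fun x => e.symmₗ ℝ x (∑ j, a j • b x j), ?_, ?_⟩
    · filter_upwards [hb'] with x hx
      rw [map_sum]
      refine Submodule.sum_mem _ fun j _ => ?_
      rw [map_smul]
      exact Submodule.smul_mem _ _ (hx.2 j)
    · have h2 : ContinuousOn (fun z : M × V m =>
          (⟨z.1, e.symm z.1 z.2⟩ : TangentBundle 𝓘(ℝ, V m) M)) (e.baseSet ×ˢ univ) :=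
        e.continuousOn_symm
      have h3 : Tendsto (fun x => (x, ∑ j, a j • b x j)) U (𝓝 (x₀, ∑ j, a j • β j)) := by
        apply Tendsto.prodMk_nhds hU
        refine tendsto_finsetSum _ fun j _ => ?_
        exact ((continuous_apply j).tendsto β |>.comp hlim').const_smul (a j)
      have h4 : e.baseSet ×ˢ (univ : Set (V m)) ∈ 𝓝 (x₀, ∑ j, a j • β j) :=
        prod_mem_nhds (e.open_baseSet.mem_nhds hx₀) univ_mem
      have h5 := (h2.continuousAt h4).tendsto.comp h3
      have h6 : v = e.symmₗ ℝ x₀ (∑ j, a j • β j) := by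
        rw [← ha, map_sum]
        refine Finset.sum_congr rfl fun j _ => ?_
        rw [map_smul]
      rw [h6]
      rw [e.symmₗ_apply (R := ℝ) hx₀]
      refine h5.congr' ?_
      filter_upwards [hbase] with x hx
      show (⟨x, e.symm x (∑ j, a j • b x j)⟩ : TangentBundle 𝓘(ℝ, V m) M) =
        ⟨x, e.symmₗ ℝ x (∑ j, a j • b x j)⟩
      rw [e.symmₗ_apply (R := ℝ) hx]

end Pool.Agent.H245.SH
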