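import Pool.Agent.H245.SH.W1
import Pool.Agent.H245.SH.P2
import Pool.Agent.H245.SH.U7

/-!
# Uniform hyperbolicity on the closure
-/

set_option autoImplicit false
set_option linter.unusedSectionVars false

open scoped Manifold ContDiff Topology NNReal
open Filter Set Metric

universe u v w

namespace Pool.Agent.H245.SH

open Pool.Agent.H718R2.G Pool.Agent.W564.SC Pool.Agent.H721R2 Pool.Agent.H728R2.OS

namespace Coc

section abs

variable {X : Type u} {E : Type} [NormedAddCommGroup E] [InnerProductSpace ℝ E]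
  [FiniteDimensional ℝ E]

/-- the restriction to an invariant set -/
noncomputable def res (c : Coc X E) (S : Set X) (hS : ∀ x, c.f x ∈ S ↔ x ∈ S) : Coc S E where
  f := c.f.subtypeEquiv fun x => (hS x).symm
  A := fun x => c.A x
  Λ := c.Λ
  one_le := c.one_le
  bd := fun x => c.bd x
  bd' := fun x => c.bd' x

theorem res_iter (c : Coc X E) (S : Set X) (hS : ∀ x, c.f x ∈ S ↔ x ∈ S) (x : S) (n : ℕ) :
    (((c.res S hS).f^[n] x : S) : X) = c.f^[n] x := by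
  induction n with
  | zero => rfl
  | succ n ih =>
    rw [Function.iterate_succ_apply', Function.iterate_succ_apply', ← ih]
    rfl

theorem res_word (c : Coc X E) (S : Set X) (hS : ∀ x, c.f x ∈ S ↔ x ∈ S) (x : S) (n : ℕ) (v : E) :
    (c.res S hS).word x (ids E) n v = c.word x (ids E) n v := by
  induction n with
  | zero => rfl
  | succ n ih =>
    rw [word_ids_succ', word_ids_succ', ← ih, ← res_iter c S hS]
    rfl

theorem res_symm (c : Coc X E) (S : Set X) (hS : ∀ x, c.f x ∈ S ↔ x ∈ S) (x : S) :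
    (((c.res S hS).f.symm x : S) : X) = c.f.symm x := by
  rw [Equiv.eq_symm_apply]
  have h1 : (c.res S hS).f ((c.res S hS).f.symm x) = x := Equiv.apply_symm_apply _ _
  have h2 := congrArg Subtype.val h1
  exact h2

theorem res_inv_word (c : Coc X E) (S : Set X) (hS : ∀ x, c.f x ∈ S ↔ x ∈ S) (x : S) (n : ℕ)
    (v : E) : (c.res S hS).inv.word x (ids E) n v = c.inv.word x (ids E) n v := by
  have h0 : ∀ n : ℕ, (((c.res S hS).inv.f^[n] x : S) : X) = c.inv.f^[n] x := by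
    intro n
    induction n with
    | zero => rfl
    | succ n ih =>
      rw [Function.iterate_succ_apply', Function.iterate_succ_apply', ← ih]
      exact res_symm c S hS _
  induction n with
  | zero => rfl
  | succ n ih =>
    rw [word_ids_succ', word_ids_succ', ih, ← h0]
    show (c.A ((c.res S hS).f.symm _ : S)).symm _ = (c.A (c.f.symm _)).symm _
    rw [res_symm]

theorem res_Bd (c : Coc X E) (S : Set X) (hS : ∀ x, c.f x ∈ S ↔ x ∈ S) (x : S) :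
    (c.res S hS).Bd x = c.Bd x := by
  ext v
  rw [mem_Bd, mem_Bd]
  simp only [res_word]

theorem res_inv_Bd (c : Coc X E) (S : Set X) (hS : ∀ x, c.f x ∈ S ↔ x ∈ S) (x : S) :
    (c.res S hS).inv.Bd x = c.inv.Bd x := by
  ext v
  rw [mem_Bd, mem_Bd]
  simp only [res_inv_word]

theorem disj_of_fast {c : Coc X E} {x : X} {W : Submodule ℝ E} {C q : ℝ} (hC : 0 ≤ C)
    (hq0 : 0 < q) (hq1 : q < 1) (h : ∀ v ∈ W, ∀ n, ‖v‖ ≤ C * q ^ n * ‖c.word x (ids E) n v‖) :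
    Disjoint (c.Bd x) W := by
  rw [Submodule.disjoint_def]
  intro v hv hv'
  obtain ⟨b, hb⟩ := c.mem_Bd.1 hv
  have h1 : ∀ n : ℕ, ‖v‖ ≤ C * b * q ^ n := fun n => by
    calc ‖v‖ ≤ C * q ^ n * ‖c.word x (ids E) n v‖ := h v hv' n
      _ ≤ C * q ^ n * b := by gcongr; exact hb n
      _ = _ := by ring
  have hlim : Tendsto (fun n : ℕ => C * b * q ^ n) atTop (𝓝 (C * b * 0)) :=
    tendsto_const_nhds.mul (tendsto_pow_atTop_nhds_zero_of_lt_one hq0.le hq1)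
  have h2 := ge_of_tendsto' hlim h1
  rw [mul_zero] at h2
  exact norm_le_zero_iff.1 h2

theorem split_of {c : Coc X E} {x : X} {Ws Wu : Submodule ℝ E} {C q : ℝ} (hC : 0 ≤ C)
    (hq0 : 0 < q) (hq1 : q < 1)
    (hdim : Module.finrank ℝ Ws + Module.finrank ℝ Wu = Module.finrank ℝ E)
    (hs : ∀ v ∈ Ws, ∀ n, ‖c.word x (ids E) n v‖ ≤ C * q ^ n * ‖v‖)
    (hs' : ∀ v ∈ Ws, ∀ n, ‖v‖ ≤ C * q ^ n * ‖c.inv.word x (ids E) n v‖)
    (hu : ∀ v ∈ Wu, ∀ n, ‖c.inv.word x (ids E) n v‖ ≤ C * q ^ n * ‖v‖)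
    (hu' : ∀ v ∈ Wu, ∀ n, ‖v‖ ≤ C * q ^ n * ‖c.word x (ids E) n v‖) :
    IsCompl (c.Bd x) (c.inv.Bd x) ∧
      (∀ v ∈ c.Bd x, ∀ n, ‖c.word x (ids E) n v‖ ≤ C * q ^ n * ‖v‖) ∧
      ∀ v ∈ c.inv.Bd x, ∀ n, ‖c.inv.word x (ids E) n v‖ ≤ C * q ^ n * ‖v‖ := by
  have key : ∀ (d : Coc X E) (W W' : Submodule ℝ E),
      Module.finrank ℝ W + Module.finrank ℝ W' = Module.finrank ℝ E →
      (∀ v ∈ W, ∀ n, ‖d.word x (ids E) n v‖ ≤ C * q ^ n * ‖v‖) →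
      (∀ v ∈ W', ∀ n, ‖v‖ ≤ C * q ^ n * ‖d.word x (ids E) n v‖) → d.Bd x = W := by
    intro d W W' hdim h1 h2
    have h3 : W ≤ d.Bd x := by
      intro v hv
      refine d.mem_Bd.2 ⟨C * ‖v‖, fun n => (h1 v hv n).trans ?_⟩
      have : q ^ n ≤ 1 := pow_le_one₀ hq0.le hq1.le
      calc C * q ^ n * ‖v‖ ≤ C * 1 * ‖v‖ := by gcongr
        _ = _ := by ring
    have h4 : Disjoint (d.Bd x) W' := disj_of_fast (c := d) hC hq0 hq1 h2
    have h5 := Submodule.finrank_add_finrank_le_of_disjoint h4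
    exact (Submodule.eq_of_le_of_finrank_le h3 (by omega)).symm
  have hS := key c Ws Wu hdim hs hu'
  have hU := key c.inv Wu Ws (by omega) hu hs'
  rw [hS, hU]
  have hdis : Disjoint Ws Wu := by
    have := disj_of_fast (c := c) hC hq0 hq1 hu'
    rwa [hS] at this
  refine ⟨⟨hdis, codisjoint_iff.2 (Submodule.eq_top_of_disjoint _ _ hdim.ge hdis)⟩, hs, hu⟩

/-- the vectors of `Bd` are fast for the inverse -/
theorem fast_of_slow {c : Coc X E} {P : Set X} {C q : ℝ} (hP : ∀ x ∈ P, c.f.symm x ∈ P)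
    (h : ∀ x ∈ P, ∀ v ∈ c.Bd x, ∀ n, ‖c.word x (ids E) n v‖ ≤ C * q ^ n * ‖v‖) {x : X} (hx : x ∈ P)
    {v : E} (hv : v ∈ c.Bd x) (n : ℕ) : ‖v‖ ≤ C * q ^ n * ‖c.inv.word x (ids E) n v‖ := by
  have hPn : c.f.symm^[n] x ∈ P := by
    clear hv
    induction n with
    | zero => exact hx
    | succ n ih =>
      rw [Function.iterate_succ_apply']
      exact hP _ ih
  have h1 := c.inv_word_cancel x n v
  have h2 : c.f^[n] (c.f.symm^[n] x) = x :=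
    (Function.LeftInverse.iterate c.f.apply_symm_apply n) x
  have h3 : c.inv.word x (ids E) n v ∈ c.Bd (c.f.symm^[n] x) := by
    rw [← c.word_mem_Bd n, h1, h2]
    exact hv
  have h4 := h _ hPn _ h3 n
  rwa [h1] at h4

end abs

end Coc

section top

variable {m : ℕ} {M : Type v} [MetricSpace M] [CompactSpace M] [ChartedSpace (V m) M]
  [IsManifold (𝓡 m) ∞ M]

/-- values of a function with bounded values along an ultrafilter -/
theorem ultra_const {α : Type u} (U : Ultrafilter α) (φ : α → ℕ) {B : ℕ} (h : ∀ x, φ x ≤ B) :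
    ∃ d, ∀ᶠ x in (U : Filter α), φ x = d := by
  have h1 : Set.Iic B ∈ U.map φ := by
    have : ∀ᶠ x in (U : Filter α), φ x ∈ Set.Iic B := Eventually.of_forall h
    exact this
  obtain ⟨d, -, hd⟩ := Ultrafilter.eq_pure_of_finite_mem (Set.finite_Iic B) h1
  refine ⟨d, ?_⟩
  have h2 : ({d} : Set ℕ) ∈ U.map φ := by
    rw [hd]
    exact Set.mem_singleton d
  exact h2

/-- the norm of the iterated derivative, in terms of words -/
theorem limit_half (A : FAtlas m M) {c d : Coc M (V m)} {g g' : M → M}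
    (hg : ContMDiff 𝓘(ℝ, V m) 𝓘(ℝ, V m) 1 g) (hg' : ContMDiff 𝓘(ℝ, V m) 𝓘(ℝ, V m) 1 g')
    (hc : ∀ x, c.f x = g x) (hd : ∀ x, d.f x = g' x)
    (hA : ∀ x v, c.A x (Tx A x v) = Tx A (g x) (dg (V m) g x v))
    (hA' : ∀ x v, d.A x (Tx A x v) = Tx A (g' x) (dg (V m) g' x v))
    {F : Type} [NormedAddCommGroup F] [NormedSpace ℝ F] {e : M → F}
    (he : ContMDiff 𝓘(ℝ, V m) 𝓘(ℝ, F) 1 e) (hinj : ∀ x, Function.Injective (dm (V m) e x))
    {R : ℝ} (hR : 1 ≤ R) (hcomp : ∀ (x : M) (v : V m),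
      ‖dm (V m) e x v‖ ≤ R * ‖Tx A x v‖ ∧ ‖Tx A x v‖ ≤ R * ‖dm (V m) e x v‖)
    {q C : ℝ} (hq0 : 0 < q) (hC : 1 ≤ C) {x₀ : M} (U : Ultrafilter M) (hU : (U : Filter M) ≤ 𝓝 x₀)
    {B : M → Submodule ℝ (V m)} {k : ℕ} (hdim : ∀ᶠ x in (U : Filter M), Module.finrank ℝ (B x) = k)
    (hs : ∀ᶠ x in (U : Filter M), ∀ v ∈ B x, ∀ n, ‖c.word x (ids (V m)) n v‖ ≤ C * q ^ n * ‖v‖)
    (hf : ∀ᶠ x in (U : Filter M), ∀ v ∈ B x, ∀ n, ‖v‖ ≤ C * q ^ n * ‖d.word x (ids (V m)) n v‖) :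
    ∃ W : Submodule ℝ (V m), Module.finrank ℝ W = k ∧
      (∀ v ∈ W, ∀ n, ‖c.word x₀ (ids (V m)) n v‖ ≤ R ^ 4 * C * q ^ n * ‖v‖) ∧
      ∀ v ∈ W, ∀ n, ‖v‖ ≤ R ^ 4 * C * q ^ n * ‖d.word x₀ (ids (V m)) n v‖ := by
  obtain ⟨Z, hZ⟩ : ∃ Z : ∀ x : M, Submodule ℝ (TangentSpace 𝓘(ℝ, V m) x),
      ∀ (x : M), Z x = ((B x).comap (Tx A x : V m →ₗ[ℝ] V m) : Submodule ℝ (V m)) :=
    ⟨fun x => ((B x).comap (Tx A x : V m →ₗ[ℝ] V m) : Submodule ℝ (V m)), fun x => rfl⟩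
  have hZm : ∀ (x : M) (v : V m), v ∈ Z x ↔ Tx A x v ∈ B x := by
    intro x v
    rw [hZ]
    rfl
  let L : ∀ x : M, V m ≃ₗ[ℝ] V m := fun x =>
    LinearEquiv.ofInjectiveEndo (Tx A x : V m →ₗ[ℝ] V m) (Tx_inj A x)
  have hfin : ∀ x, Module.finrank ℝ (Z x) = Module.finrank ℝ (B x) := by
    intro x
    have h1 : ((B x).comap (Tx A x : V m →ₗ[ℝ] V m) : Submodule ℝ (V m)) =
        (B x).map ((L x).symm : V m →ₗ[ℝ] V m) := by
      rw [← Submodule.comap_equiv_eq_map_symm]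
      rfl
    have h2 : Module.finrank ℝ ((B x).comap (Tx A x : V m →ₗ[ℝ] V m) : Submodule ℝ (V m)) =
        Module.finrank ℝ (B x) := by
      rw [h1]
      exact LinearEquiv.finrank_map_eq (L x).symm (B x)
    rw [hZ]
    exact h2
  obtain ⟨Z₀, hZ₀, hlim⟩ := limit_spaces U hU (d := k) (Z := Z) (by
    filter_upwards [hdim] with x hx
    rw [hfin, hx])
  have hN := emb_norm (E := V m) e he hinj
  -- the closed conditions
  have key : ∀ (x : M) (v : V m) (n : ℕ),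
      enm (V m) e (tangentMap 𝓘(ℝ, V m) 𝓘(ℝ, V m) (g^[n]) ⟨x, v⟩) =
        ‖dm (V m) e (g^[n] x) (dg (V m) (g^[n]) x v)‖ ∧
      Tx A (g^[n] x) (dg (V m) (g^[n]) x v) = c.word x (ids (V m)) n (Tx A x v) := by
    intro x v n
    exact ⟨rfl, word_iter A (π := id) hg hc hA x n v⟩
  have key' : ∀ (x : M) (v : V m) (n : ℕ),
      enm (V m) e (tangentMap 𝓘(ℝ, V m) 𝓘(ℝ, V m) (g'^[n]) ⟨x, v⟩) =
        ‖dm (V m) e (g'^[n] x) (dg (V m) (g'^[n]) x v)‖ ∧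
      Tx A (g'^[n] x) (dg (V m) (g'^[n]) x v) = d.word x (ids (V m)) n (Tx A x v) := by
    intro x v n
    exact ⟨rfl, word_iter A (π := id) hg' hd hA' x n v⟩
  have hR0 : 0 < R := by linarith
  have hC0 : 0 < C := by linarith
  have c1 : ∀ v : V m, v ∈ Z₀ → ∀ n, ‖c.word x₀ (ids (V m)) n (Tx A x₀ v)‖ ≤
      R ^ 4 * C * q ^ n * ‖Tx A x₀ v‖ := by
    intro v hv n
    obtain ⟨w, hw, hwl⟩ := hlim v hv
    have hcl : IsClosed {p : TangentBundle 𝓘(ℝ, V m) M |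
        enm (V m) e (tangentMap 𝓘(ℝ, V m) 𝓘(ℝ, V m) (g^[n]) p) ≤
          R ^ 2 * C * q ^ n * enm (V m) e p} :=
      isClosed_le (hN.continuous.comp ((iter_smooth g hg n).continuous_tangentMap le_rfl))
        (continuous_const.mul hN.continuous)
    have hmem := hcl.mem_of_tendsto hwl (by
      filter_upwards [hw, hs] with x hx hx'
      obtain ⟨h1, h2⟩ := key x (w x) n
      show enm (V m) e (tangentMap 𝓘(ℝ, V m) 𝓘(ℝ, V m) (g^[n]) ⟨x, w x⟩) ≤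
        R ^ 2 * C * q ^ n * enm (V m) e ⟨x, w x⟩
      rw [h1]
      have h3 := hx' _ ((hZm x (w x)).1 hx) n
      rw [← h2] at h3
      calc ‖dm (V m) e (g^[n] x) (dg (V m) (g^[n]) x (w x))‖ ≤
            R * ‖Tx A (g^[n] x) (dg (V m) (g^[n]) x (w x))‖ := (hcomp _ _).1
        _ ≤ R * (C * q ^ n * ‖Tx A x (w x)‖) := by gcongr
        _ ≤ R * (C * q ^ n * (R * ‖dm (V m) e x (w x)‖)) := by
          gcongr
          exact (hcomp x (w x)).2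
        _ = R ^ 2 * C * q ^ n * ‖dm (V m) e x (w x)‖ := by ring)
    obtain ⟨h1, h2⟩ := key x₀ v n
    have h3 : enm (V m) e (tangentMap 𝓘(ℝ, V m) 𝓘(ℝ, V m) (g^[n]) ⟨x₀, v⟩) ≤
      R ^ 2 * C * q ^ n * enm (V m) e ⟨x₀, v⟩ := hmem
    rw [h1] at h3
    rw [← h2]
    calc ‖Tx A (g^[n] x₀) (dg (V m) (g^[n]) x₀ v)‖ ≤
          R * ‖dm (V m) e (g^[n] x₀) (dg (V m) (g^[n]) x₀ v)‖ := (hcomp _ _).2
      _ ≤ R * (R ^ 2 * C * q ^ n * ‖dm (V m) e x₀ v‖) := by gcongr; exact h3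
      _ ≤ R * (R ^ 2 * C * q ^ n * (R * ‖Tx A x₀ v‖)) := by
        gcongr
        exact (hcomp x₀ v).1
      _ = _ := by ring
  have c2 : ∀ v : V m, v ∈ Z₀ → ∀ n, ‖Tx A x₀ v‖ ≤
      R ^ 4 * C * q ^ n * ‖d.word x₀ (ids (V m)) n (Tx A x₀ v)‖ := by
    intro v hv n
    obtain ⟨w, hw, hwl⟩ := hlim v hv
    have hcl : IsClosed {p : TangentBundle 𝓘(ℝ, V m) M | enm (V m) e p ≤
        R ^ 2 * C * q ^ n * enm (V m) e (tangentMap 𝓘(ℝ, V m) 𝓘(ℝ, V m) (g'^[n]) p)} :=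
      isClosed_le hN.continuous (continuous_const.mul
        (hN.continuous.comp ((iter_smooth g' hg' n).continuous_tangentMap le_rfl)))
    have hmem := hcl.mem_of_tendsto hwl (by
      filter_upwards [hw, hf] with x hx hx'
      obtain ⟨h1, h2⟩ := key' x (w x) n
      show enm (V m) e ⟨x, w x⟩ ≤ R ^ 2 * C * q ^ n *
        enm (V m) e (tangentMap 𝓘(ℝ, V m) 𝓘(ℝ, V m) (g'^[n]) ⟨x, w x⟩)
      rw [h1]
      have h3 := hx' _ ((hZm x (w x)).1 hx) n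
      rw [← h2] at h3
      calc ‖dm (V m) e x (w x)‖ ≤ R * ‖Tx A x (w x)‖ := (hcomp _ _).1
        _ ≤ R * (C * q ^ n * ‖Tx A (g'^[n] x) (dg (V m) (g'^[n]) x (w x))‖) := by gcongr
        _ ≤ R * (C * q ^ n * (R * ‖dm (V m) e (g'^[n] x) (dg (V m) (g'^[n]) x (w x))‖)) := by
          gcongr
          exact (hcomp _ _).2
        _ = R ^ 2 * C * q ^ n * ‖dm (V m) e (g'^[n] x) (dg (V m) (g'^[n]) x (w x))‖ := by ring)
    obtain ⟨h1, h2⟩ := key' x₀ v n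
    have h3 : enm (V m) e ⟨x₀, v⟩ ≤ R ^ 2 * C * q ^ n *
      enm (V m) e (tangentMap 𝓘(ℝ, V m) 𝓘(ℝ, V m) (g'^[n]) ⟨x₀, v⟩) := hmem
    rw [h1] at h3
    rw [← h2]
    calc ‖Tx A x₀ v‖ ≤ R * ‖dm (V m) e x₀ v‖ := (hcomp _ _).2
      _ ≤ R * (R ^ 2 * C * q ^ n * ‖dm (V m) e (g'^[n] x₀) (dg (V m) (g'^[n]) x₀ v)‖) := by
        gcongr
        exact h3
      _ ≤ R * (R ^ 2 * C * q ^ n * (R * ‖Tx A (g'^[n] x₀) (dg (V m) (g'^[n]) x₀ v)‖)) := by
        gcongr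
        exact (hcomp _ _).1
      _ = _ := by ring
  obtain ⟨Z₁, hZ₁⟩ : ∃ Z₁ : Submodule ℝ (V m), Z₁ = Z₀ := ⟨Z₀, rfl⟩
  refine ⟨Z₁.map ((L x₀) : V m →ₗ[ℝ] V m), ?_, ?_, ?_⟩
  · rw [LinearEquiv.finrank_map_eq, hZ₁]
    exact hZ₀
  · intro v hv n
    obtain ⟨z, hz, rfl⟩ := Submodule.mem_map.1 hv
    exact c1 z (by rw [hZ₁] at hz; exact hz) n
  · intro v hv n
    obtain ⟨z, hz, rfl⟩ := Submodule.mem_map.1 hv
    exact c2 z (by rw [hZ₁] at hz; exact hz) n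

end top

end Pool.Agent.H245.SH
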