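import Pool.Agent.H245.SH.W2

/-!
# Hyperbolicity of the closure of uniformly hyperbolic orbits
-/

set_option autoImplicit false
set_option linter.unusedSectionVars false

open scoped Manifold ContDiff Topology NNReal
open Filter Set Metric

universe u v w

namespace Pool.Agent.H245.SH

open Pool.Agent.H718R2.G Pool.Agent.W564.SC Pool.Agent.H721R2 Pool.Agent.H728R2.OS

variable {m : ℕ} {M : Type v} [MetricSpace M] [CompactSpace M] [ChartedSpace (V m) M]
  [IsManifold (𝓡 m) ∞ M]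

theorem Coc.inv_inv_A (c : Coc M (V m)) (x : M) : c.inv.inv.A x = c.A x := by
  show ((c.A (c.f.symm (c.f x))).symm).symm = c.A x
  rw [Equiv.symm_apply_apply]
  rfl

theorem Coc.inv_inv_word (c : Coc M (V m)) (x : M) (n : ℕ) (v : V m) :
    c.inv.inv.word x (ids (V m)) n v = c.word x (ids (V m)) n v := by
  induction n with
  | zero => rfl
  | succ n ih =>
    rw [Coc.word_ids_succ', Coc.word_ids_succ', ih, Coc.inv_inv_A]
    rfl

theorem closure_split (A : FAtlas m M) {r : ℕ∞} (hr : 1 ≤ r) (f : DiffM m M r) (c : Coc M (V m))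
    (hcf : ∀ x, c.f x = f.toHomeomorph x) (hA : ∀ x v, c.A x v = Dm A f x (f x) v) {P : Set M}
    (hP : ∀ x, c.f x ∈ P ↔ x ∈ P) {q C : ℝ} (hq0 : 0 < q) (hq1 : q < 1) (hC : 1 ≤ C)
    (hsp : ∀ x ∈ P, IsCompl (c.Bd x) (c.inv.Bd x) ∧
      (∀ v ∈ c.Bd x, ∀ n, ‖c.word x (ids (V m)) n v‖ ≤ C * q ^ n * ‖v‖) ∧
      ∀ v ∈ c.inv.Bd x, ∀ n, ‖c.inv.word x (ids (V m)) n v‖ ≤ C * q ^ n * ‖v‖) :
    ∃ C' ≥ 1, ∀ x ∈ closure P, IsCompl (c.Bd x) (c.inv.Bd x) ∧
      (∀ v ∈ c.Bd x, ∀ n, ‖c.word x (ids (V m)) n v‖ ≤ C' * q ^ n * ‖v‖) ∧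
      ∀ v ∈ c.inv.Bd x, ∀ n, ‖c.inv.word x (ids (V m)) n v‖ ≤ C' * q ^ n * ‖v‖ := by
  classical
  obtain ⟨k, e, he, hemb, hinj⟩ := exists_embedding_euclidean_of_compact (I := 𝓘(ℝ, V m)) (M := M)
  have he1 : ContMDiff 𝓘(ℝ, V m) 𝓘(ℝ, V k) 1 e := he.of_le (by exact_mod_cast le_top)
  have hinj' : ∀ x, Function.Injective (dm (V m) e x) := hinj
  obtain ⟨R, hR, hcomp⟩ := Tx_compare A he1 hinj'
  have hr1 : ((1 : ℕ∞) : WithTop ℕ∞) ≤ ((r : ℕ∞) : WithTop ℕ∞) := by exact_mod_cast hr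
  have hf1 : ContMDiff 𝓘(ℝ, V m) 𝓘(ℝ, V m) 1 (f.toHomeomorph : M → M) := f.contMDiff.of_le hr1
  have hf1' : ContMDiff 𝓘(ℝ, V m) 𝓘(ℝ, V m) 1 (f.toHomeomorph.symm : M → M) :=
    f.symm.contMDiff.of_le hr1
  have hcf' : ∀ x, c.inv.f x = f.toHomeomorph.symm x := by
    intro x
    have h1 : c.f (c.f.symm x) = x := c.f.apply_symm_apply x
    have h2 : f.toHomeomorph (c.f.symm x) = x := by rw [← hcf, h1]
    show c.f.symm x = f.toHomeomorph.symm x
    rw [← h2, Homeomorph.symm_apply_apply, h2]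
  have hAT : ∀ (x : M) (v : V m), c.A x (Tx A x v) =
      Tx A (f.toHomeomorph x) (dg (V m) f.toHomeomorph x v) := by
    intro x v
    rw [hA]
    exact Tx_dg A hf1 x v
  have hAT' : ∀ (x : M) (v : V m), c.inv.A x (Tx A x v) =
      Tx A (f.toHomeomorph.symm x) (dg (V m) f.toHomeomorph.symm x v) := by
    intro x v
    show (c.A (c.f.symm x)).symm (Tx A x v) = _
    rw [ContinuousLinearEquiv.symm_apply_eq]
    have h1 : c.f.symm x = f.toHomeomorph.symm x := hcf' x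
    have h2 := hAT (c.f.symm x) (dg (V m) f.toHomeomorph.symm x v)
    rw [h1] at h2
    rw [h1, h2, Homeomorph.apply_symm_apply]
    congr 1
    have h3 := dg_inv (f.toHomeomorph.symm : M → M) (f.toHomeomorph : M → M) hf1' hf1
      (fun y => f.toHomeomorph.apply_symm_apply y) x v
    exact h3.symm
  have hP1 : ∀ x ∈ P, c.f.symm x ∈ P := by
    intro x hx
    rw [← hP, Equiv.apply_symm_apply]
    exact hx
  have hP2 : ∀ x ∈ P, c.inv.f.symm x ∈ P := fun x hx => (hP x).2 hx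
  refine ⟨R ^ 4 * C, ?_, ?_⟩
  · have : 1 ≤ R ^ 4 := one_le_pow₀ hR
    nlinarith
  intro x₀ hx₀
  have hne : (𝓝 x₀ ⊓ 𝓟 P).NeBot := mem_closure_iff_clusterPt.1 hx₀
  obtain ⟨U, hUle⟩ : ∃ U : Ultrafilter M, (U : Filter M) ≤ 𝓝 x₀ ⊓ 𝓟 P :=
    ⟨Ultrafilter.of _, Ultrafilter.of_le _⟩
  have hU : (U : Filter M) ≤ 𝓝 x₀ := hUle.trans inf_le_left
  have hPU : ∀ᶠ x in (U : Filter M), x ∈ P := (hUle.trans inf_le_right) (mem_principal_self P)
  obtain ⟨d, hd⟩ := ultra_const U (fun x => Module.finrank ℝ (c.Bd x)) (B := m) (fun x => by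
    have := Submodule.finrank_le (c.Bd x)
    simpa using this)
  have hd' : ∀ᶠ x in (U : Filter M), Module.finrank ℝ (c.inv.Bd x) = m - d := by
    filter_upwards [hd, hPU] with x h1 h2
    have h3 := Submodule.finrank_add_eq_of_isCompl (hsp x h2).1
    rw [h1] at h3
    have h4 : Module.finrank ℝ (V m) = m := by simp
    omega
  obtain ⟨Ws, hWs, s1, s2⟩ := limit_half A (c := c) (d := c.inv) hf1 hf1' hcf hcf' hAT hAT' he1
    hinj' hR hcomp hq0 hC U hU (B := c.Bd) hd (by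
      filter_upwards [hPU] with x hx
      exact (hsp x hx).2.1) (by
      filter_upwards [hPU] with x hx
      intro v hv n
      exact Coc.fast_of_slow hP1 (fun x hx => (hsp x hx).2.1) hx hv n)
  obtain ⟨Wu, hWu, u1, u2⟩ := limit_half A (c := c.inv) (d := c) hf1' hf1 hcf' hcf hAT' hAT he1
    hinj' hR hcomp hq0 hC U hU (B := c.inv.Bd) hd' (by
      filter_upwards [hPU] with x hx
      exact (hsp x hx).2.2) (by
      filter_upwards [hPU] with x hx
      intro v hv n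
      rw [← c.inv_inv_word]
      exact Coc.fast_of_slow (c := c.inv) hP2 (fun x hx => (hsp x hx).2.2) hx hv n)
  have hdm : d ≤ m := by
    obtain ⟨x, hx⟩ := hd.exists
    rw [← hx]
    have := Submodule.finrank_le (c.Bd x)
    simpa using this
  refine Coc.split_of (c := c) (x := x₀) (Ws := Ws) (Wu := Wu) (C := R ^ 4 * C) (by positivity)
    hq0 hq1 ?_ s1 s2 u1 u2
  rw [hWs, hWu]
  have h4 : Module.finrank ℝ (V m) = m := by simp
  omega

theorem closure_hyp (A : FAtlas m M) {r : ℕ∞} (hr : 1 ≤ r) (f : DiffM m M r) (c : Coc M (V m))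
    (hcf : ∀ x, c.f x = f.toHomeomorph x) (hA : ∀ x v, c.A x v = Dm A f x (f x) v) {P : Set M}
    (hP : ∀ x, c.f x ∈ P ↔ x ∈ P) {q C : ℝ} (hq0 : 0 < q) (hq1 : q < 1) (hC : 1 ≤ C)
    (hsp : ∀ x ∈ P, IsCompl (c.Bd x) (c.inv.Bd x) ∧
      (∀ v ∈ c.Bd x, ∀ n, ‖c.word x (ids (V m)) n v‖ ≤ C * q ^ n * ‖v‖) ∧
      ∀ v ∈ c.inv.Bd x, ∀ n, ‖c.inv.word x (ids (V m)) n v‖ ≤ C * q ^ n * ‖v‖) :
    Q263.HS.IsHyp (V m) f.toHomeomorph (closure P) := by
  obtain ⟨C', hC', h⟩ := closure_split A hr f c hcf hA hP hq0 hq1 hC hsp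
  have himP : f.toHomeomorph '' P = P := by
    ext y
    constructor
    · rintro ⟨x, hx, rfl⟩
      rw [← hcf]
      exact (hP x).2 hx
    · intro hy
      refine ⟨c.f.symm y, ?_, ?_⟩
      · rw [← hP, Equiv.apply_symm_apply]
        exact hy
      · rw [← hcf, Equiv.apply_symm_apply]
  have him : f.toHomeomorph '' closure P = closure P := by
    rw [f.toHomeomorph.image_closure, himP]
  have hS : ∀ x, c.f x ∈ closure P ↔ x ∈ closure P := by
    intro x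
    rw [hcf]
    constructor
    · intro hx
      rw [← him] at hx
      obtain ⟨y, hy, hyx⟩ := hx
      rw [← f.toHomeomorph.injective hyx]
      exact hy
    · intro hx
      rw [← him]
      exact ⟨x, hx, rfl⟩
  refine isHyp_of_split A hr f isClosed_closure him (c.res (closure P) hS) (fun x => hcf x)
    (fun x v => hA x v) hq0 hq1 hC' fun x => ?_
  rw [Coc.res_Bd, Coc.res_inv_Bd]
  obtain ⟨h1, h2, h3⟩ := h x x.2
  refine ⟨h1, fun v hv n => ?_, fun v hv n => ?_⟩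
  · rw [Coc.res_word]
    exact h2 v hv n
  · rw [Coc.res_inv_word]
    exact h3 v hv n

end Pool.Agent.H245.SH
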