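import Pool.Agent.H245.SH.W3

/-!
# Closing: zeros of maps with derivatives bounded below
-/

set_option autoImplicit false
set_option linter.unusedSectionVars false

open scoped Manifold ContDiff Topology NNReal
open Filter Set Metric

universe u v w

namespace Pool.Agent.H245.SH

open Pool.Agent.H718R2.G Pool.Agent.W564.SC Pool.Agent.H721R2

theorem noOne_fix {E : Type} [NormedAddCommGroup E] [InnerProductSpace ℝ E]
    [FiniteDimensional ℝ E] {L : E →L[ℝ] E} (h : NoOne L) {v : E} (hv : L v = v) : v = 0 := by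
  by_contra hne
  refine h 1 (root_of_pair L (u := v) (w := 0) (Or.inl hne) ?_ ?_) (by simp)
  · rw [hv]
    simp
  · simp

/-- an atlas with constant choice of charts near a point -/
theorem exists_fatlas_at (m : ℕ) {M : Type v} [TopologicalSpace M] [CompactSpace M]
    [ChartedSpace (V m) M] [IsManifold (𝓡 m) ∞ M] (x₀ : M) :
    ∃ A : FAtlas m M, ∃ G ∈ 𝓝 x₀, ∀ z ∈ G, A.jx z = A.jx x₀ := by
  classical
  obtain ⟨A⟩ := exists_fatlas m M
  set G : Set M := (A.χ (A.jx x₀)).source ∩ (A.χ (A.jx x₀)) ⁻¹' ball (0 : V m) (1 / 16) with hG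
  have hGo : IsOpen G := (A.χ (A.jx x₀)).isOpen_inter_preimage isOpen_ball
  have hx₀ : x₀ ∈ G := ⟨A.src x₀, by rw [mem_preimage, mem_ball, dist_zero_right]; exact A.core x₀⟩
  refine ⟨⟨A.J, A.χ, A.z, A.good, fun z => if z ∈ G then A.jx x₀ else A.jx z, fun z => ?_,
    fun z => ?_⟩, G, hGo.mem_nhds hx₀, fun z hz => ?_⟩
  · by_cases hz : z ∈ G
    · simp only [if_pos hz]
      exact hz.1
    · simp only [if_neg hz]
      exact A.src z
  · by_cases hz : z ∈ G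
    · simp only [if_pos hz]
      have := hz.2
      rwa [mem_preimage, mem_ball, dist_zero_right] at this
    · simp only [if_neg hz]
      exact A.core z
  · simp only [if_pos hz, if_pos hx₀]

/-- A map with derivatives bounded below has a zero near points with small values. -/
theorem ls_zero {m : ℕ} {φ : V m → V m} {K : Set (V m)} {v₀ : V m} {κ s : ℝ} (hκ : 0 < κ)
    (hK : IsCompact K) (hv₀ : v₀ ∈ K) (hφ : ContinuousOn φ K)
    (hint : ∀ v ∈ K, ‖φ v‖ ≤ ‖φ v₀‖ → ‖v - v₀‖ < s → K ∈ 𝓝 v ∧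
      ∃ L : V m →L[ℝ] V m, HasFDerivAt φ L v ∧ ∀ w, κ * ‖w‖ ≤ ‖L w‖)
    (hs : 2 / κ * ‖φ v₀‖ < s) : ∃ v ∈ K, φ v = 0 := by
  obtain ⟨v, hv, hmin⟩ := hK.exists_isMinOn (f := fun v => ‖φ v‖ + κ / 2 * ‖v - v₀‖) ⟨v₀, hv₀⟩
    (hφ.norm.add (continuousOn_const.mul (continuousOn_id.sub continuousOn_const).norm))
  have h0 : ‖φ v‖ + κ / 2 * ‖v - v₀‖ ≤ ‖φ v₀‖ + κ / 2 * ‖v₀ - v₀‖ := hmin hv₀
  rw [sub_self, norm_zero, mul_zero, add_zero] at h0
  have hn1 := norm_nonneg (φ v)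
  have hn2 := norm_nonneg (v - v₀)
  have h1 : ‖φ v‖ ≤ ‖φ v₀‖ := by
    have : 0 ≤ κ / 2 * ‖v - v₀‖ := by positivity
    linarith
  have h2 : ‖v - v₀‖ < s := by
    refine lt_of_le_of_lt ?_ hs
    rw [div_mul_eq_mul_div, le_div_iff₀ hκ]
    nlinarith
  obtain ⟨hKv, L, hL, hlow⟩ := hint v hv h1 h2
  refine ⟨v, hv, ?_⟩
  by_contra hne
  have hpos : 0 < ‖φ v‖ := norm_pos_iff.2 hne
  -- the direction
  have hinj : Function.Injective L := by
    intro a b hab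
    have h3 : L (a - b) = 0 := by rw [map_sub, hab, sub_self]
    have h4 := hlow (a - b)
    rw [h3, norm_zero] at h4
    have h5 : ‖a - b‖ = 0 := by
      have := norm_nonneg (a - b)
      nlinarith
    exact sub_eq_zero.1 (norm_eq_zero.1 h5)
  obtain ⟨w, hw⟩ : ∃ w, L w = -φ v := by
    have h := LinearMap.surjective_of_injective (f := (L : V m →ₗ[ℝ] V m)) hinj
    exact h _
  have hwn : κ * ‖w‖ ≤ ‖φ v‖ := by
    have := hlow w
    rwa [hw, norm_neg] at this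
  -- along the direction
  have hline : HasDerivAt (fun t : ℝ => v + t • w) w 0 := by
    have h3 : HasDerivAt (fun t : ℝ => t • w) ((1 : ℝ) • w) 0 := (hasDerivAt_id (0 : ℝ)).smul_const w
    rw [one_smul] at h3
    exact h3.const_add v
  have hcomp : HasDerivAt (fun t : ℝ => φ (v + t • w)) (L w) 0 := by
    have h3 : HasFDerivAt φ L (v + (0 : ℝ) • w) := by rw [zero_smul, add_zero]; exact hL
    exact h3.comp_hasDerivAt (0 : ℝ) hline
  rw [hw] at hcomp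
  have hlo := (hasDerivAt_iff_isLittleO.1 hcomp).def (c := ‖φ v‖ / 4) (by positivity)
  have hKt : ∀ᶠ t in 𝓝 (0 : ℝ), v + t • w ∈ K := by
    have h3 : ContinuousAt (fun t : ℝ => v + t • w) 0 := hline.continuousAt
    apply h3.eventually_mem
    rw [zero_smul, add_zero]
    exact hKv
  have hall : ∀ᶠ t in 𝓝[>] (0 : ℝ), (v + t • w ∈ K ∧
      ‖φ (v + t • w) - φ (v + (0 : ℝ) • w) - (t - 0) • (-φ v)‖ ≤ ‖φ v‖ / 4 * ‖t - 0‖) ∧
      0 < t ∧ t < 1 := by
    refine ((hKt.and hlo).filter_mono nhdsWithin_le_nhds).and ?_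
    have h3 : Ioo (0 : ℝ) 1 ∈ 𝓝[>] (0 : ℝ) := Ioo_mem_nhdsGT one_pos
    filter_upwards [h3] with t ht using ⟨ht.1, ht.2⟩
  obtain ⟨t, ⟨ht1, ht2⟩, ht0, ht3⟩ := hall.exists
  rw [zero_smul, add_zero, sub_zero, Real.norm_of_nonneg ht0.le] at ht2
  have h5 : ‖φ (v + t • w)‖ ≤ (1 - t) * ‖φ v‖ + ‖φ v‖ / 4 * t := by
    have e1 : φ (v + t • w) = (1 - t) • φ v + (φ (v + t • w) - φ v - t • (-φ v)) := by
      rw [sub_smul, one_smul, smul_neg]
      abel
    calc ‖φ (v + t • w)‖ = ‖(1 - t) • φ v + (φ (v + t • w) - φ v - t • (-φ v))‖ := by rw [← e1]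
      _ ≤ ‖(1 - t) • φ v‖ + ‖φ (v + t • w) - φ v - t • (-φ v)‖ := norm_add_le _ _
      _ ≤ (1 - t) * ‖φ v‖ + ‖φ v‖ / 4 * t := by
        rw [norm_smul, Real.norm_of_nonneg (by linarith)]
        gcongr
  have h6 : ‖v + t • w - v₀‖ ≤ ‖v - v₀‖ + t * ‖w‖ := by
    have e1 : v + t • w - v₀ = (v - v₀) + t • w := by abel
    rw [e1]
    refine (norm_add_le _ _).trans ?_
    rw [norm_smul, Real.norm_of_nonneg ht0.le]
  have h7 : ‖φ v‖ + κ / 2 * ‖v - v₀‖ ≤ ‖φ (v + t • w)‖ + κ / 2 * ‖v + t • w - v₀‖ := hmin ht1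
  have h8 : κ / 2 * ‖v + t • w - v₀‖ ≤ κ / 2 * ‖v - v₀‖ + t / 2 * ‖φ v‖ := by
    have h9 : κ / 2 * ‖v + t • w - v₀‖ ≤ κ / 2 * (‖v - v₀‖ + t * ‖w‖) := by gcongr
    have h10 : t / 2 * (κ * ‖w‖) ≤ t / 2 * ‖φ v‖ := by gcongr
    nlinarith
  nlinarith

end Pool.Agent.H245.SH
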