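import Pool.Agent.H245.SH.X1
import Pool.Graph.R_pool_sql_team_seeded_3997aac3.Q263.HS.Main

/-!
# Closing: the periodic points are dense in the nonwandering set
-/

set_option autoImplicit false
set_option linter.unusedSectionVars false

open scoped Manifold ContDiff Topology NNReal
open Filter Set Metric

universe u v w

namespace Pool.Agent.H245.SH

open Pool.Agent.H718R2.G Pool.Agent.W564.SC Pool.Agent.H721R2

variable {m : ℕ} {M : Type v} [MetricSpace M] [CompactSpace M] [ChartedSpace (V m) M]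
  [IsManifold (𝓡 m) ∞ M]

/-- the derivative of iterates in charts -/
theorem iter_deriv (A : FAtlas m M) {r : ℕ∞} (hr : 1 ≤ r) (f : DiffM m M r) {c : Coc M (V m)}
    (hc : IsDc A f c) (x : M) (n : ℕ) :
    HasFDerivAt (loc (A.χ (A.jx x)) (A.χ (A.jx (f^[n] x))) (f^[n]))
      (c.word x (ids (V m)) n : V m →L[ℝ] V m) (A.χ (A.jx x) x) := by
  have hr1 : ((r : ℕ∞) : WithTop ℕ∞) ≠ 0 := by
    intro h
    have : r = 0 := by exact_mod_cast h
    rw [this] at hr
    exact absurd hr (by decide)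
  have e0 : (A.χ (A.jx x)).symm (A.χ (A.jx x) x) = x := (A.χ (A.jx x)).left_inv (A.src x)
  induction n with
  | zero =>
    show HasFDerivAt _ (ContinuousLinearMap.id ℝ (V m)) _
    refine (hasFDerivAt_id _).congr_of_eventuallyEq ?_
    filter_upwards [(A.χ (A.jx x)).open_target.mem_nhds ((A.χ (A.jx x)).map_source (A.src x))]
      with v hv
    exact (A.χ (A.jx x)).right_inv hv
  | succ n ih =>
    set y := f^[n] x with hy
    have hfy : f^[n + 1] x = f y := Function.iterate_succ_apply' f n x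
    have e1 : loc (A.χ (A.jx x)) (A.χ (A.jx y)) (f^[n]) (A.χ (A.jx x) x) = A.χ (A.jx y) y := by
      unfold loc
      rw [e0]
    have hD : HasFDerivAt (loc (A.χ (A.jx y)) (A.χ (A.jx (f y))) f) (Dm A f y (f y))
        (A.χ (A.jx y) y) :=
      ((loc_contDiffAt (A.good _).mem (A.good _).mem f.contMDiff (A.src y)
        (A.src (f y))).differentiableAt hr1).hasFDerivAt
    have h1 : HasFDerivAt (loc (A.χ (A.jx y)) (A.χ (A.jx (f y))) f ∘
        loc (A.χ (A.jx x)) (A.χ (A.jx y)) (f^[n]))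
        ((Dm A f y (f y)) ∘L (c.word x (ids (V m)) n : V m →L[ℝ] V m)) (A.χ (A.jx x) x) := by
      apply HasFDerivAt.comp
      · rw [e1]
        exact hD
      · exact ih
    have e2 : (Dm A f y (f y)) ∘L (c.word x (ids (V m)) n : V m →L[ℝ] V m) =
        (c.word x (ids (V m)) (n + 1) : V m →L[ℝ] V m) := by
      ext1 v
      show Dm A f y (f y) (c.word x (ids (V m)) n v) = c.word x (ids (V m)) (n + 1) v
      rw [Coc.word_ids_succ', hc.A_eq, hc.iter]
    rw [e2] at h1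
    rw [hfy]
    refine h1.congr_of_eventuallyEq ?_
    have hev : ∀ᶠ v in 𝓝 (A.χ (A.jx x) x), f^[n] ((A.χ (A.jx x)).symm v) ∈
        (A.χ (A.jx y)).source := by
      have h2 : ContinuousAt (fun v => f^[n] ((A.χ (A.jx x)).symm v)) (A.χ (A.jx x) x) :=
        (f.continuous.iterate n).continuousAt.comp
          ((A.χ (A.jx x)).continuousAt_symm ((A.χ (A.jx x)).map_source (A.src x)))
      apply h2.eventually_mem
      rw [e0]
      exact (A.χ _).open_source.mem_nhds (A.src _)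
    filter_upwards [hev] with v hv
    show A.χ (A.jx (f y)) (f^[n + 1] ((A.χ (A.jx x)).symm v)) =
      A.χ (A.jx (f y)) (f ((A.χ (A.jx y)).symm (A.χ (A.jx y) (f^[n] ((A.χ (A.jx x)).symm v)))))
    rw [(A.χ (A.jx y)).left_inv hv, Function.iterate_succ_apply']

/-- the derivative with a jump at the end -/
theorem jump_deriv (A : FAtlas m M) {r : ℕ∞} (hr : 1 ≤ r) (f : DiffM m M r) {c : Coc M (V m)}
    (hc : IsDc A f c) (x z : M) (p : ℕ) (hz : f^[p + 1] x ∈ (A.χ (A.jx z)).source) :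
    HasFDerivAt (loc (A.χ (A.jx x)) (A.χ (A.jx z)) (f^[p + 1]))
      (Dm A f (f^[p] x) z ∘L (c.word x (ids (V m)) p : V m →L[ℝ] V m)) (A.χ (A.jx x) x) := by
  have hr1 : ((r : ℕ∞) : WithTop ℕ∞) ≠ 0 := by
    intro h
    have : r = 0 := by exact_mod_cast h
    rw [this] at hr
    exact absurd hr (by decide)
  have e0 : (A.χ (A.jx x)).symm (A.χ (A.jx x) x) = x := (A.χ (A.jx x)).left_inv (A.src x)
  set y := f^[p] x with hy
  have hfy : f^[p + 1] x = f y := Function.iterate_succ_apply' f p x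
  rw [hfy] at hz
  have e1 : loc (A.χ (A.jx x)) (A.χ (A.jx y)) (f^[p]) (A.χ (A.jx x) x) = A.χ (A.jx y) y := by
    unfold loc
    rw [e0]
  have hD : HasFDerivAt (loc (A.χ (A.jx y)) (A.χ (A.jx z)) f) (Dm A f y z)
      (A.χ (A.jx y) y) :=
    ((loc_contDiffAt (A.good _).mem (A.good _).mem f.contMDiff (A.src y)
      hz).differentiableAt hr1).hasFDerivAt
  have h1 : HasFDerivAt (loc (A.χ (A.jx y)) (A.χ (A.jx z)) f ∘
      loc (A.χ (A.jx x)) (A.χ (A.jx y)) (f^[p]))
      ((Dm A f y z) ∘L (c.word x (ids (V m)) p : V m →L[ℝ] V m)) (A.χ (A.jx x) x) := by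
    apply HasFDerivAt.comp
    · rw [e1]
      exact hD
    · exact iter_deriv A hr f hc x p
  refine h1.congr_of_eventuallyEq ?_
  have hev : ∀ᶠ v in 𝓝 (A.χ (A.jx x) x), f^[p] ((A.χ (A.jx x)).symm v) ∈
      (A.χ (A.jx y)).source := by
    have h2 : ContinuousAt (fun v => f^[p] ((A.χ (A.jx x)).symm v)) (A.χ (A.jx x) x) :=
      (f.continuous.iterate p).continuousAt.comp
        ((A.χ (A.jx x)).continuousAt_symm ((A.χ (A.jx x)).map_source (A.src x)))
    apply h2.eventually_mem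
    rw [e0]
    exact (A.χ _).open_source.mem_nhds (A.src _)
  filter_upwards [hev] with v hv
  show A.χ (A.jx z) (f^[p + 1] ((A.χ (A.jx x)).symm v)) =
    A.χ (A.jx z) (f ((A.χ (A.jx y)).symm (A.χ (A.jx y) (f^[p] ((A.χ (A.jx x)).symm v)))))
  rw [(A.χ (A.jx y)).left_inv hv, Function.iterate_succ_apply']

/-- the lower bound along closed pseudo-orbits with one jump -/
theorem jump_lower (A : FAtlas m M) {f : M → M} {c : Coc M (V m)} (hc : IsDc A f c) {N₀ : ℕ}
    {ε ρ : ℝ} (hε : 0 < ε) (hε1 : ε ≤ 1) (hρ : 1 < ρ) (h : KStar A f N₀ ε ρ) {x : M} {p : ℕ}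
    (hp : N₀ ≤ p) (hx : dist (f^[p + 1] x) x < ε) (v : V m) :
    ε / 8 * ‖v‖ ≤ ‖Dm A f (f^[p] x) x (c.word x (ids (V m)) p v) - v‖ := by
  by_contra hcon
  rw [not_le] at hcon
  have hcon' : ‖v - Dm A f (f^[p] x) x (c.word x (ids (V m)) p v)‖ < (ε / 2) / 4 * ‖v‖ := by
    rw [norm_sub_rev]
    calc _ < ε / 8 * ‖v‖ := hcon
      _ = _ := by ring
  obtain ⟨e, he, hev⟩ := Coc.exists_near_map (δ := ε / 2) (by positivity) (by linarith) hcon'
  have hv0 : v ≠ 0 := by
    rintro rfl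
    rw [norm_zero, mul_zero] at hcon
    exact absurd hcon (not_lt.2 (norm_nonneg _))
  have hno := h (fun _ => f^[p + 1] x) (fun _ => x) (fun _ => (e : V m →L[ℝ] V m))
    (fun _ => hx) (fun _ => (near_norm (by positivity) he).trans_lt (by linarith)) [(0, p)]
    (by simp) (fun q hq => by rw [List.mem_singleton.1 hq]; exact hp) x (by
      rw [val_cons]
      exact ⟨rfl, val_nil _ _ _⟩) (by rw [endp_cons, endp_nil]) 1
    (inv_le_one_of_one_le₀ (one_le_pow₀ hρ.le)) (one_le_pow₀ hρ.le)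
  rw [one_smul] at hno
  apply hv0
  apply noOne_fix hno
  rw [lin_cons hc, lin_nil]
  exact hev

/-- **The periodic points are dense in the nonwandering set.** -/
theorem omega_sub {r : ℕ∞} (hr : 1 ≤ r) (f : DiffM m M r)
    (H : ∀ A : FAtlas m M, ∃ (c : Coc M (V m)) (N₀ : ℕ) (ε ρ : ℝ), IsDc A f c ∧ 0 < ε ∧ ε ≤ 1 ∧
      1 < ρ ∧ KStar A f N₀ ε ρ) :
    Pool.Agent.H728R2.OS.Omega f.toHomeomorph ⊆
      closure (Pool.Agent.H728R2.OS.Per f.toHomeomorph) := by
  intro x hx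
  by_contra hxc
  set Pc := closure (Pool.Agent.H728R2.OS.Per f.toHomeomorph) with hPc
  obtain ⟨A, G, hG, hjx⟩ := exists_fatlas_at m x
  obtain ⟨c, N₀, ε, ρ, hc, hε, hε1, hρ, hst⟩ := H A
  set χ := A.χ (A.jx x) with hχ
  have hxs : x ∈ χ.source := A.src x
  have hxt : χ x ∈ χ.target := χ.map_source hxs
  -- a good neighbourhood
  have hO : G ∩ Pcᶜ ∩ ball x (ε / 2) ∈ 𝓝 x :=
    inter_mem (inter_mem hG (isClosed_closure.isOpen_compl.mem_nhds hxc))
      (ball_mem_nhds x (by positivity))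
  obtain ⟨s₀, hs₀, hball⟩ : ∃ s₀ > 0, ∀ v, ‖v - χ x‖ ≤ 2 * s₀ → v ∈ χ.target ∧
      χ.symm v ∈ G ∧ χ.symm v ∉ Pc ∧ dist (χ.symm v) x < ε / 2 := by
    have h1 : ContinuousAt χ.symm (χ x) := χ.continuousAt_symm hxt
    have h2 : χ.symm ⁻¹' (G ∩ Pcᶜ ∩ ball x (ε / 2)) ∈ 𝓝 (χ x) := by
      apply h1.preimage_mem_nhds
      rw [χ.left_inv hxs]
      exact hO
    obtain ⟨s, hs, hsub⟩ := Metric.nhds_basis_closedBall.mem_iff.1
      (inter_mem h2 (χ.open_target.mem_nhds hxt))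
    refine ⟨s / 2, by positivity, fun v hv => ?_⟩
    have h3 : v ∈ closedBall (χ x) s := by
      rw [mem_closedBall, dist_eq_norm]
      linarith
    obtain ⟨⟨⟨h4, h5⟩, h6⟩, h7⟩ := hsub h3
    exact ⟨h7, h4, h5, h6⟩
  set κ := ε / 8 with hκ
  have hκ0 : 0 < κ := by positivity
  set s₁ := min (s₀ / 8) (κ * s₀ / 16) with hs₁
  have hs₁0 : 0 < s₁ := by positivity
  have hs₁a : s₁ ≤ s₀ / 8 := min_le_left _ _
  have hs₁b : s₁ ≤ κ * s₀ / 16 := min_le_right _ _
  -- the returns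
  have hnp : ∀ i, 0 < i → f^[i] x ≠ x := fun i hi h => hxc (subset_closure ⟨i, hi, h⟩)
  have hret : ∀ i, ∃ U ∈ 𝓝 x, 0 < i → Disjoint (f^[i] '' U) U := by
    intro i
    rcases Nat.eq_zero_or_pos i with rfl | hi
    · exact ⟨univ, univ_mem, fun h => absurd h (lt_irrefl 0)⟩
    · obtain ⟨V₁, V₂, h1, h2, h3, h4, h5⟩ := t2_separation (hnp i hi)
      refine ⟨f^[i] ⁻¹' V₁ ∩ V₂, inter_mem ((f.continuous.iterate i).continuousAt.preimage_mem_nhds
        (h1.mem_nhds h3)) (h2.mem_nhds h4), fun _ => ?_⟩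
      refine h5.mono ?_ inter_subset_right
      rintro _ ⟨y, hy, rfl⟩
      exact hy.1
  choose U' hU' hUd using hret
  have hU1 : (χ.source ∩ χ ⁻¹' ball (χ x) s₁) ∩ ⋂ i ∈ Finset.range (N₀ + 1), U' i ∈ 𝓝 x := by
    refine inter_mem ?_ ?_
    · exact (χ.isOpen_inter_preimage isOpen_ball).mem_nhds ⟨hxs, mem_ball_self hs₁0⟩
    · exact (Finset.iInter_mem_sets _).2 fun i _ => hU' i
  obtain ⟨n, hn, y, ⟨ξ, hξ, hξy⟩, hy⟩ := hx _ hU1
  have hiter : ∀ (j : ℕ) (z : M), f.toHomeomorph^[j] z = f^[j] z := fun j z => rfl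
  have hξy' : f^[n] ξ = y := hξy
  have hnN : N₀ + 1 ≤ n := by
    by_contra hcon
    have h1 : n ∈ Finset.range (N₀ + 1) := by
      rw [Finset.mem_range]
      omega
    have h2 : ξ ∈ U' n := Set.mem_iInter₂.1 hξ.2 n h1
    have h3 : y ∈ U' n := Set.mem_iInter₂.1 hy.2 n h1
    exact Set.disjoint_left.1 (hUd n hn) ⟨ξ, h2, hξy'⟩ h3
  obtain ⟨p, rfl⟩ : ∃ p, n = p + 1 := ⟨n - 1, by omega⟩
  have hp : N₀ ≤ p := by omega
  -- the map in the chart
  set g : V m → M := fun v => f^[p + 1] (χ.symm v) with hg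
  set φ : V m → V m := fun v => χ (g v) - v with hφ
  set v₀ := χ ξ with hv₀
  have hv₀n : ‖v₀ - χ x‖ < s₁ := by
    have := hξ.1.2
    rwa [mem_preimage, mem_ball, dist_eq_norm] at this
  have hyn : ‖χ y - χ x‖ < s₁ := by
    have := hy.1.2
    rwa [mem_preimage, mem_ball, dist_eq_norm] at this
  have hgv₀ : g v₀ = y := by
    rw [hg]
    simp only
    rw [hv₀, χ.left_inv hξ.1.1, hξy']
  have hφv₀ : ‖φ v₀‖ < 2 * s₁ := by
    rw [hφ]
    simp only
    rw [hgv₀]
    have e1 : χ y - v₀ = (χ y - χ x) - (v₀ - χ x) := by abel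
    rw [e1]
    refine (norm_sub_le _ _).trans_lt ?_
    linarith
  set CB : Set M := χ.symm '' closedBall (χ x) (2 * s₀) with hCB
  have hCBsub : closedBall (χ x) (2 * s₀) ⊆ χ.target := fun v hv => by
    rw [mem_closedBall, dist_eq_norm] at hv
    exact (hball v hv).1
  have hCBc : IsClosed CB :=
    ((isCompact_closedBall (χ x) (2 * s₀)).image_of_continuousOn
      (χ.continuousOn_symm.mono hCBsub)).isClosed
  have hCB_iff : ∀ z, z ∈ CB → z ∈ χ.source ∧ ‖χ z - χ x‖ ≤ 2 * s₀ := by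
    rintro z ⟨v, hv, rfl⟩
    rw [χ.right_inv (hCBsub hv)]
    refine ⟨χ.map_target (hCBsub hv), ?_⟩
    rwa [mem_closedBall, dist_eq_norm] at hv
  have hCB_iff' : ∀ z, z ∈ χ.source → ‖χ z - χ x‖ ≤ 2 * s₀ → z ∈ CB := by
    intro z hz hz'
    exact ⟨χ z, by rwa [mem_closedBall, dist_eq_norm], χ.left_inv hz⟩
  set s := s₀ / 2 with hs
  have hsub0 : ∀ v ∈ closedBall v₀ s, ‖v - χ x‖ ≤ s₀ := by
    intro v hv
    rw [mem_closedBall, dist_eq_norm] at hv
    have e1 : v - χ x = (v - v₀) + (v₀ - χ x) := by abel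
    rw [e1]
    refine (norm_add_le _ _).trans ?_
    linarith
  have hgcont : ContinuousOn g (closedBall v₀ s) := by
    apply (f.continuous.iterate (p + 1)).comp_continuousOn
    apply χ.continuousOn_symm.mono
    intro v hv
    exact (hball v ((hsub0 v hv).trans (by linarith))).1
  set K : Set (V m) := closedBall v₀ s ∩ g ⁻¹' CB with hK
  have hKc : IsCompact K :=
    (isCompact_closedBall v₀ s).of_isClosed_subset
      (hgcont.preimage_isClosed_of_isClosed isClosed_closedBall hCBc) inter_subset_left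
  have hv₀K : v₀ ∈ K := by
    refine ⟨mem_closedBall_self (by positivity), ?_⟩
    show g v₀ ∈ CB
    rw [hgv₀]
    exact hCB_iff' y hy.1.1 (by linarith)
  have hφc : ContinuousOn φ K := by
    apply ContinuousOn.sub _ continuousOn_id
    apply χ.continuousOn.comp (hgcont.mono inter_subset_left)
    intro v hv
    exact (hCB_iff _ hv.2).1
  obtain ⟨v, hv, hv0⟩ := ls_zero (φ := φ) (K := K) (v₀ := v₀) (κ := κ) (s := s) hκ0 hKc hv₀K hφc (by
    intro v hv hv1 hv2
    obtain ⟨h1, h2⟩ := hCB_iff _ hv.2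
    have h3 := hsub0 v hv.1
    obtain ⟨h4, h5, h6, h7⟩ := hball v (h3.trans (by linarith))
    have h8 : ‖χ (g v) - χ x‖ < 2 * s₀ := by
      have e1 : χ (g v) - χ x = φ v + (v - v₀) + (v₀ - χ x) := by
        rw [hφ]
        simp only
        abel
      rw [e1]
      refine (norm_add₃_le).trans_lt ?_
      linarith
    obtain ⟨h9, h10, h11, h12⟩ := hball (χ (g v)) h2
    rw [χ.left_inv h1] at h12
    refine ⟨inter_mem (closedBall_mem_nhds_of_mem (by
      rw [mem_ball, dist_eq_norm]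
      exact hv2)) ?_, ?_⟩
    · have h13 : ContinuousAt g v := by
        apply (f.continuous.iterate (p + 1)).continuousAt.comp
        exact χ.continuousAt_symm h4
      have h14 : χ.source ∩ χ ⁻¹' ball (χ x) (2 * s₀) ∈ 𝓝 (g v) :=
        (χ.isOpen_inter_preimage isOpen_ball).mem_nhds ⟨h1, by
          rw [mem_preimage, mem_ball, dist_eq_norm]
          exact h8⟩
      refine mem_of_superset (h13.preimage_mem_nhds h14) ?_
      rintro w ⟨hw1, hw2⟩
      rw [mem_preimage, mem_ball, dist_eq_norm] at hw2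
      exact hCB_iff' _ hw1 hw2.le
    · set ξ' := χ.symm v with hξ'
      have hjξ : A.jx ξ' = A.jx x := hjx _ h5
      have hχξ : χ ξ' = v := χ.right_inv h4
      have hgv : g v = f^[p + 1] ξ' := rfl
      have h13 := jump_deriv A hr f hc ξ' ξ' p (by
        rw [hjξ]
        exact h1)
      rw [hjξ, ← hχ, hχξ] at h13
      have hdist : dist (f^[p + 1] ξ') ξ' < ε := by
        have h14 := dist_triangle_right (f^[p + 1] ξ') ξ' x
        rw [← hgv] at h14 ⊢
        linarith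
      refine ⟨_, h13.sub (hasFDerivAt_id v), fun w => ?_⟩
      exact jump_lower A hc hε hε1 hρ hst hp hdist w) (by
    calc 2 / κ * ‖φ v₀‖ < 2 / κ * (2 * s₁) := by gcongr
      _ ≤ 2 / κ * (2 * (κ * s₀ / 16)) := by gcongr
      _ = s₀ / 4 := by field_simp; ring
      _ < s := by rw [hs]; linarith)
  obtain ⟨h1, h2⟩ := hCB_iff _ hv.2
  have h3 := hsub0 v hv.1
  obtain ⟨h4, h5, h6, h7⟩ := hball v (h3.trans (by linarith))
  apply h6
  apply subset_closure
  refine ⟨p + 1, Nat.succ_pos p, ?_⟩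
  have h8 : χ (g v) = v := sub_eq_zero.1 hv0
  have h9 : g v = χ.symm v := by
    rw [← χ.left_inv h1, h8]
  exact h9

end Pool.Agent.H245.SH
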