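import Pool.Agent.H245.SH.X2

/-!
# Products `f × f × h`: the factor `f` satisfies Axiom A
-/

set_option autoImplicit false
set_option linter.unusedSectionVars false

open scoped Manifold ContDiff Topology NNReal
open Filter Set Metric

universe u v w

namespace Pool.Agent.H245.SH

open Pool.Agent.H718R2.G Pool.Agent.W564.SC Pool.Agent.TH80.OMS Pool.Agent.Y271.CP
  Pool.Agent.Y504.CO

variable {m : ℕ} {M : Type v} [MetricSpace M] [CompactSpace M] [ChartedSpace (V m) M]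
  [IsManifold (𝓡 m) ∞ M]

/-- the cocycle of the derivatives -/
theorem exists_dc (A : FAtlas m M) {r : ℕ∞} (hr : 2 ≤ r) (f : DiffM m M r) :
    ∃ (c : Coc M (V m)) (ε₁ : ℝ), (∀ x, c.f x = f.toHomeomorph x) ∧
      (∀ x v, c.A x v = Dm A f x (f x) v) ∧ 0 < ε₁ ∧ ∀ x y : M, dist (f x) y < ε₁ →
        ‖Dm A f x y‖ ≤ c.Λ ∧ ∀ u, ‖u‖ ≤ c.Λ * ‖Dm A f x y u‖ := by
  obtain ⟨Λ, ε₁, hΛ, hε₁, hDm⟩ := Dm_bounds A hr f
  have hDm0 : ∀ x : M, ‖Dm A f x (f x)‖ ≤ Λ ∧ ∀ u, ‖u‖ ≤ Λ * ‖Dm A f x (f x) u‖ :=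
    fun x => hDm x (f x) (by rw [dist_self]; exact hε₁)
  exact ⟨{
      f := f.toHomeomorph.toEquiv
      A := fun x => mkE (Dm A f x (f x)) (hDm0 x).2
      Λ := Λ
      one_le := hΛ
      bd := fun x v => ((Dm A f x (f x)).le_opNorm v).trans (by gcongr; exact (hDm0 x).1)
      bd' := fun x v => mkE_symm _ _ _ }, ε₁, fun x => rfl, fun x v => rfl, hε₁, hDm⟩

/-- Axiom A from the star condition. -/
theorem axiomA_of_kstar {r : ℕ∞} (hr : 2 ≤ r) (f : DiffM m M r)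
    (H : ∀ A : FAtlas m M, ∃ (N₀ : ℕ) (ε ρ : ℝ), 0 < ε ∧ 1 < ρ ∧ KStar A f N₀ ε ρ) :
    Q263.HS.AxiomA (V m) f.toHomeomorph := by
  have hr1 : (1 : ℕ∞) ≤ r := le_trans (by norm_num) hr
  have hdense : Pool.Agent.H728R2.OS.Omega f.toHomeomorph ⊆
      closure (Pool.Agent.H728R2.OS.Per f.toHomeomorph) := by
    apply omega_sub hr1
    intro A
    obtain ⟨c, ε₁, hcf, hcA, -, -⟩ := exists_dc A hr f
    obtain ⟨N₀, ε, ρ, hε, hρ, hst⟩ := H A
    refine ⟨c, N₀, min 1 ε, ρ, ⟨hcf, hcA⟩, by positivity, min_le_left _ _, hρ, ?_⟩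
    intro a b R h1 h2
    exact hst a b R (fun t => (h1 t).trans_le (min_le_right _ _))
      (fun t => (h2 t).trans_le (min_le_right _ _))
  have heq : Pool.Agent.H728R2.OS.Omega f.toHomeomorph =
      closure (Pool.Agent.H728R2.OS.Per f.toHomeomorph) :=
    Subset.antisymm hdense (closure_minimal Q263.HS.per_omega Q263.HS.omega_closed)
  refine ⟨?_, hdense⟩
  rw [heq]
  obtain ⟨A⟩ := exists_fatlas m M
  obtain ⟨c, ε₁, hcf, hcA, hε₁, hDm⟩ := exists_dc A hr f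
  obtain ⟨N₀, ε, ρ, hε, hρ, hst⟩ := H A
  obtain ⟨C₇, hC₇, hu⟩ := per_uniform hε hρ (⟨hcf, hcA⟩ : IsDc A f c) hst hε₁ hDm
  have hit : ∀ (x : M) (n : ℕ), c.f^[n] x = f.toHomeomorph^[n] x := by
    intro x n
    induction n with
    | zero => rfl
    | succ n ih => rw [Function.iterate_succ_apply', Function.iterate_succ_apply', ih, hcf]
  refine closure_hyp A hr1 f c hcf hcA (fun x => ?_) (inv_pos.2 (by linarith))
    (inv_lt_one_of_one_lt₀ hρ) hC₇ (fun x hx => ?_)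
  · constructor
    · rintro ⟨n, hn, hx⟩
      refine ⟨n, hn, ?_⟩
      rw [← hit] at hx ⊢
      apply c.f.injective
      rw [← Function.iterate_succ_apply' (f := (c.f : M → M)), Function.iterate_succ_apply]
      exact hx
    · rintro ⟨n, hn, hx⟩
      refine ⟨n, hn, ?_⟩
      rw [← hit] at hx ⊢
      rw [← Function.iterate_succ_apply (f := (c.f : M → M)), Function.iterate_succ_apply', hx]
  · obtain ⟨n, hn, hx⟩ := hx
    rw [← hit] at hx
    exact hu x n hn hx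

theorem Driver.nonempty {Y : Type w} [TopologicalSpace Y] {T N₀ : ℕ} {h : Y → Y} {K : Set Y}
    (hd : Driver (T + 1) N₀ h K) : Nonempty Y := by
  obtain ⟨W, h1, h2, h3⟩ := hd
  obtain ⟨y, -⟩ := h3 [(0, N₀)] (by simp) (fun q hq => by rw [List.mem_singleton.1 hq])
  exact ⟨y⟩

/-- **The factor `f` of products `f × f × h` satisfies Axiom A.** -/
theorem ffh {r : ℕ∞} (hr : 2 ≤ r) (f : DiffM m M r) {k n N₀ : ℕ}
    {Y : Type w} [TopologicalSpace Y] [T2Space Y] [SigmaCompactSpace Y]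
    [ChartedSpace (V k) Y] [IsManifold (𝓡 k) ∞ Y] {h : Y → Y} {K : Set Y}
    {N : Type u} [TopologicalSpace N] [T2Space N] [CompactSpace N] [ChartedSpace (V n) N]
    [IsManifold (𝓡 n) ∞ N] {Θ : M × (M × Y) → N} (F : DiffM n N r)
    (hΘ : IsLocalDiffeomorph ((𝓡 m).prod ((𝓡 m).prod (𝓡 k))) (𝓡 n) ∞ Θ)
    (hinj : Function.Injective Θ) (hdr : Driver 3 N₀ h K)
    (hF : ∀ x z, ∀ y ∈ K, F (Θ (x, (z, y))) = Θ (f x, (f z, h y))) (hst : CStar n N r F) :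
    Q263.HS.AxiomA (V m) f.toHomeomorph := by
  apply axiomA_of_kstar hr
  intro A
  by_cases hMe : IsEmpty M
  · exact ⟨0, 1, 2, one_pos, by norm_num, fun a => (hMe.false (a 0)).elim⟩
  rw [not_isEmpty_iff] at hMe
  have hYe := hdr.nonempty
  obtain ⟨E, hE⟩ := exists_gemb (I' := (𝓡 m).prod (𝓡 k)) hΘ hinj
  obtain ⟨ε, ρ, hε, hρ, h⟩ := kick_star A (le_trans (by norm_num) hr) f E F hdr
    (by rw [hE]; exact hF) hst
  exact ⟨N₀, ε, ρ, hε, hρ, h⟩

end Pool.Agent.H245.SH
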