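import Pool.Agent.H245.SH.X3

/-!
# Sparse shifts
-/

set_option autoImplicit false
set_option linter.unusedSectionVars false

open scoped Manifold ContDiff Topology NNReal
open Filter Set Metric

universe u v w

namespace Pool.Agent.H245.SH

/-- `h` has on `K` a periodic sparse shift: there are pairwise disjoint compact sets `W 0, …, W T` and a
number `N₀` such that every periodic sequence in `{0, …, T}` in which the distances between the
nonzero symbols are `> N₀` is realised by a periodic orbit. -/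
def Sparse {Y : Type w} [TopologicalSpace Y] (T : ℕ) (h : Y → Y) (K : Set Y) : Prop :=
  ∃ (N₀ : ℕ) (W : Fin (T + 1) → Set Y), (∀ i, IsCompact (W i)) ∧
    (∀ i j, i ≠ j → Disjoint (W i) (W j)) ∧
    ∀ (l : ℕ) (c : ℕ → Fin (T + 1)), 1 ≤ l → (∀ i, c (i + l) = c i) →
      (∀ i j, i < j → c i ≠ 0 → c j ≠ 0 → i + N₀ < j) →
      ∃ y, h^[l] y = y ∧ ∀ i, i < l → h^[i] y ∈ K ∧ h^[i] y ∈ W (c i)

section lists

variable {T : ℕ}

/-- before nonzero symbols there are at least `N₀` zeros -/
def Gap (N₀ : ℕ) (L : List (Fin (T + 1))) : Prop :=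
  ∀ i, L.getD i 0 ≠ 0 → N₀ ≤ i ∧ ∀ k, 1 ≤ k → k ≤ N₀ → L.getD (i - k) 0 = 0

theorem gap_nil (N₀ : ℕ) : Gap (T := T) N₀ [] := fun i h => absurd (by simp) h

theorem gap_append {N₀ : ℕ} {L₁ L₂ : List (Fin (T + 1))} (h₁ : Gap N₀ L₁) (h₂ : Gap N₀ L₂) :
    Gap N₀ (L₁ ++ L₂) := by
  intro i hi
  rcases Nat.lt_or_ge i L₁.length with h | h
  · rw [List.getD_append _ _ _ _ h] at hi
    obtain ⟨h3, h4⟩ := h₁ i hi
    refine ⟨h3, fun k hk hk' => ?_⟩
    rw [List.getD_append _ _ _ _ (by omega)]
    exact h4 k hk hk'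
  · rw [List.getD_append_right _ _ _ _ h] at hi
    obtain ⟨h3, h4⟩ := h₂ _ hi
    refine ⟨by omega, fun k hk hk' => ?_⟩
    rw [List.getD_append_right _ _ _ _ (by omega), show i - k - L₁.length = i - L₁.length - k by omega]
    exact h4 k hk hk'

theorem gap_block {N₀ p : ℕ} (hp : N₀ ≤ p) (t : Fin (T + 1)) :
    Gap N₀ (List.replicate p 0 ++ [t]) := by
  intro i hi
  have hip : i = p := by
    rcases Nat.lt_trichotomy i p with h | h | h
    · rw [List.getD_append _ _ _ _ (by simpa using h)] at hi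
      exact absurd (by simp [h]) hi
    · exact h
    · rw [List.getD_append_right _ _ _ _ (by simp; omega)] at hi
      rw [List.length_replicate] at hi
      exact absurd (List.getD_eq_default _ _ (by simp; omega)) hi
  subst hip
  refine ⟨hp, fun k hk hk' => ?_⟩
  rw [List.getD_append _ _ _ _ (by simp; omega)]
  simp [show i - k < i by omega]

theorem gap_sym {N₀ : ℕ} {bs : List (Fin T × ℕ)} (h : ∀ q ∈ bs, N₀ ≤ q.2) : Gap N₀ (sym bs) := by
  induction bs with
  | nil => exact gap_nil N₀
  | cons q bs ih =>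
    have e : sym (q :: bs) = (List.replicate q.2 0 ++ [q.1.succ]) ++ sym bs := by
      unfold sym
      rw [List.flatMap_cons]
    rw [e]
    exact gap_append (gap_block (h q (by simp)) _) (ih fun q' hq' => h q' (by simp [hq']))

theorem fol_of {Y : Type w} {h : Y → Y} {K : Set Y} {W : Fin (T + 1) → Set Y}
    (L : List (Fin (T + 1))) : ∀ y : Y,
    (∀ j < L.length, h^[j] y ∈ K ∧ h^[j + 1] y ∈ W (L.getD j 0)) → Fol h K W y L := by
  induction L with
  | nil => exact fun y _ => trivial
  | cons σ L ih =>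
    intro y hy
    refine ⟨(hy 0 (by simp)).1, (hy 0 (by simp)).2, ih (h y) fun j hj => ?_⟩
    have := hy (j + 1) (by simpa using hj)
    rw [Function.iterate_succ_apply, Function.iterate_succ_apply] at this
    exact this

theorem driver_of_sparse {Y : Type w} [TopologicalSpace Y] {h : Y → Y} {K : Set Y}
    (hs : Sparse T h K) : ∃ N₀, Driver T N₀ h K := by
  obtain ⟨N₀, W, hW1, hW2, hW⟩ := hs
  refine ⟨N₀, W, hW1, hW2, fun bs hbs hN => ?_⟩
  obtain ⟨l, hl⟩ : ∃ l, l = (sym bs).length := ⟨_, rfl⟩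
  have hl1 : 1 ≤ l := by
    obtain ⟨q, bs', rfl⟩ := List.exists_cons_of_ne_nil hbs
    rw [hl, sym_length]
    omega
  obtain ⟨L, hL⟩ : ∃ L, L = sym bs := ⟨_, rfl⟩
  have hgap : Gap N₀ L := by rw [hL]; exact gap_sym hN
  rw [← hL] at hl ⊢
  obtain ⟨y, hy, hy'⟩ := hW l (fun i => L.getD ((i + l - 1) % l) 0) hl1 (fun i => by
    rw [show i + l + l - 1 = (i + l - 1) + l by omega, Nat.add_mod_right]) (fun i j hij hi hj => by
    by_contra hcon
    obtain ⟨h3, h4⟩ := hgap _ hj
    apply hi
    have h5 := h4 (j - i) (by omega) (by omega)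
    have h6 : (i + l - 1) % l = (j + l - 1) % l - (j - i) := by
      have h7 : (j + l - 1) % l < l := Nat.mod_lt _ (by omega)
      have h8 := Nat.div_add_mod (j + l - 1) l
      have h9 : i + l - 1 = l * ((j + l - 1) / l) + ((j + l - 1) % l - (j - i)) := by omega
      rw [h9, Nat.mul_add_mod, Nat.mod_eq_of_lt (by omega)]
    rw [h6]
    exact h5)
  refine ⟨y, by rw [← hl]; exact hy, fol_of L y fun j hj => ?_⟩
  rw [← hl] at hj
  refine ⟨(hy' j hj).1, ?_⟩
  rcases Nat.lt_or_ge (j + 1) l with h1 | h1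
  · have h2 := (hy' (j + 1) h1).2
    rw [show j + 1 + l - 1 = j + l by omega, Nat.add_mod_right, Nat.mod_eq_of_lt hj] at h2
    exact h2
  · have h3 : j + 1 = l := by omega
    have h2 := (hy' 0 (by omega)).2
    rw [show 0 + l - 1 = j by omega, Nat.mod_eq_of_lt hj] at h2
    rw [h3, hy]
    exact h2

end lists

section coding

/-- `h` has on `K` a periodic sparse shift: there are disjoint compact sets `W₀`, `W₁` and a number `g`
such that for every `l ≥ 1` and every `l`-periodic set `S` of times with gaps larger than `g` there is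
a point `y` with `h^l(y) = y` whose orbit lies in `K`, is in `W₁` at the times `i ∈ S` and in `W₀` at
the times `i ∉ S`. -/
def Sp1 {Y : Type w} [TopologicalSpace Y] (h : Y → Y) (K : Set Y) : Prop :=
  ∃ (g : ℕ) (W₀ W₁ : Set Y), IsCompact W₀ ∧ IsCompact W₁ ∧ Disjoint W₀ W₁ ∧
    ∀ (l : ℕ) (S : Set ℕ), 1 ≤ l → (∀ i, i + l ∈ S ↔ i ∈ S) →
      (∀ i ∈ S, ∀ j ∈ S, i < j → i + g < j) →
      ∃ y, h^[l] y = y ∧ ∀ i, i < l → h^[i] y ∈ K ∧ (i ∈ S → h^[i] y ∈ W₁) ∧
        (i ∉ S → h^[i] y ∈ W₀)

/-- full shifts on two symbols are sparse shifts -/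
theorem sp1_of_full {Y : Type w} [TopologicalSpace Y] {h : Y → Y} {K : Set Y}
    (hr : ∃ W : Fin 2 → Set Y, (∀ i, IsCompact (W i)) ∧ (∀ i j, i ≠ j → Disjoint (W i) (W j)) ∧
      ∀ (l : ℕ) (c : ℕ → Fin 2), 1 ≤ l →
        ∃ y, h^[l] y = y ∧ ∀ i, i < l → h^[i] y ∈ K ∧ h^[i] y ∈ W (c i)) : Sp1 h K := by
  classical
  obtain ⟨W, h1, h2, h3⟩ := hr
  refine ⟨0, W 0, W 1, h1 0, h1 1, h2 0 1 (by decide), fun l S hl _ _ => ?_⟩
  obtain ⟨y, hy, hy'⟩ := h3 l (fun i => if i ∈ S then 1 else 0) hl
  refine ⟨y, hy, fun i hi => ⟨(hy' i hi).1, fun hS => ?_, fun hS => ?_⟩⟩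
  · have := (hy' i hi).2
    rwa [if_pos hS] at this
  · have := (hy' i hi).2
    rwa [if_neg hS] at this

/-- the offsets of the ones -/
def Off {T : ℕ} (g : ℕ) (σ : Fin (T + 1)) (o : ℕ) : Prop :=
  σ ≠ 0 ∧ (o = 0 ∨ ∃ t : Fin T, o = g + 1 + t ∧ σ = t.succ)

theorem Off.le {T g : ℕ} {σ : Fin (T + 1)} {o : ℕ} (h : Off g σ o) : o ≤ g + T := by
  rcases h.2 with h | ⟨t, h, -⟩
  · omega
  · have := t.2
    omega

theorem Off.diff {T g : ℕ} {σ : Fin (T + 1)} {o o' : ℕ} (h : Off g σ o) (h' : Off g σ o')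
    (hlt : o < o') : o = 0 ∧ ∃ t : Fin T, o' = g + 1 + t ∧ σ = t.succ := by
  rcases h.2 with h1 | ⟨t, h1, h2⟩
  · rcases h'.2 with h3 | h3
    · omega
    · exact ⟨h1, h3⟩
  · rcases h'.2 with h3 | ⟨t', h3, h4⟩
    · omega
    · rw [h2] at h4
      have h5 := Fin.succ_injective _ h4
      rw [h5] at h1
      omega

/-- **From one marker to several markers.** -/
theorem sparse_of_one {Y : Type w} [TopologicalSpace Y] [T2Space Y] {h : Y → Y}
    (hc : Continuous h) {K : Set Y} (T : ℕ) (hr : Sp1 h K) : Sparse T h K := by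
  classical
  obtain ⟨g, W₀, W₁, hW₀, hW₁, hW01, hW⟩ := hr
  -- the cylinders
  set n := g + T + 1 with hn
  set Ws : Bool → Set Y := fun b => if b then W₁ else W₀ with hWs
  have hWsc : ∀ b, IsCompact (Ws b) := by
    intro b
    cases b
    · exact hW₀
    · exact hW₁
  have hWsd : ∀ b b', b ≠ b' → Disjoint (Ws b) (Ws b') := by
    intro b b' hbb
    cases b <;> cases b'
    · exact absurd rfl hbb
    · exact hW01
    · exact hW01.symm
    · exact absurd rfl hbb
  set Cy : (Fin n → Bool) → Set Y := fun w => {y | ∀ m : Fin n, h^[m] y ∈ Ws (w m)} with hCy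
  have hCyc : ∀ w, IsCompact (Cy w) := by
    intro w
    have h1 : Cy w = ⋂ m : Fin n, (h^[m]) ⁻¹' Ws (w m) := by
      ext y
      rw [mem_iInter]
      rfl
    have h2 : IsClosed (Cy w) := by
      rw [h1]
      exact isClosed_iInter fun m => (hWsc _).isClosed.preimage (hc.iterate m)
    exact (hWsc (w 0)).of_isClosed_subset h2 fun y hy => hy 0
  have hCyd : ∀ w w', w ≠ w' → Disjoint (Cy w) (Cy w') := by
    intro w w' hne
    obtain ⟨m, hm⟩ := Function.ne_iff.1 hne
    rw [Set.disjoint_left]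
    intro y hy hy'
    exact Set.disjoint_left.1 (hWsd _ _ hm) (hy m) (hy' m)
  set pt : ℕ → Fin n → Bool := fun t m => decide (m.1 = 0 ∨ m.1 = g + 1 + t) with hpt
  have hpat : ∀ t t' : ℕ, t < T → t' < T → pt t = pt t' → t = t' := by
    intro t t' ht ht' h1
    have h2 := congrFun h1 ⟨g + 1 + t, by omega⟩
    rw [hpt] at h2
    simp only [decide_eq_decide] at h2
    have h3 := h2.1 (Or.inr trivial)
    omega
  set code : (Fin n → Bool) → Fin (T + 1) := fun w =>
    if hw : ∃ t : Fin T, w = pt t then (Classical.choose hw).succ else 0 with hcode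
  have hcode1 : ∀ t : Fin T, code (pt t) = t.succ := by
    intro t
    have hex : ∃ t' : Fin T, pt t = pt t' := ⟨t, rfl⟩
    rw [hcode]
    simp only
    rw [dif_pos hex]
    have h1 := Classical.choose_spec hex
    have h2 := hpat _ _ t.2 (Classical.choose hex).2 h1
    congr 1
    exact Fin.ext h2.symm
  have hcode0 : ∀ w, (∀ t : Fin T, w ≠ pt t) → code w = 0 := by
    intro w hw
    rw [hcode]
    simp only
    rw [dif_neg]
    rintro ⟨t, ht⟩
    exact hw t ht
  refine ⟨2 * n, fun i => ⋃ w ∈ {w | code w = i}, Cy w, fun i => ?_, fun i j hij => ?_, ?_⟩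
  · exact (Set.toFinite _).isCompact_biUnion fun w _ => hCyc w
  · rw [Set.disjoint_left]
    intro y hy hy'
    obtain ⟨w, hw, hyw⟩ := Set.mem_iUnion₂.1 hy
    obtain ⟨w', hw', hyw'⟩ := Set.mem_iUnion₂.1 hy'
    by_cases hww : w = w'
    · rw [hww] at hw
      exact hij (hw.symm.trans hw')
    · exact Set.disjoint_left.1 (hCyd w w' hww) hyw hyw'
  · intro l c hl hper hgap
    set S := n * l with hS
    have hST : n ≤ S := Nat.le_mul_of_pos_right _ (by omega)
    have hperm : ∀ q i, c (i + q * l) = c i := by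
      intro q
      induction q with
      | zero => intro i; simp
      | succ q ih =>
        intro i
        rw [show i + (q + 1) * l = (i + q * l) + l by ring, hper, ih]
    have hperS : ∀ i, c (i + S) = c i := hperm n
    have hgap' : ∀ i j, c i ≠ 0 → c j ≠ 0 → j ≤ i + 2 * n → i ≤ j + 2 * n → i = j := by
      intro i j hi hj hle hle'
      rcases Nat.lt_trichotomy i j with h1 | h1 | h1
      · have := hgap i j h1 hi hj
        omega
      · exact h1
      · have := hgap j i h1 hj hi
        omega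
    -- the set of times
    set P : Set ℕ := {k | ∃ s o : ℕ, k + S = s + o ∧ Off g (c s) o} with hP
    have hPper : ∀ k, k + l ∈ P ↔ k ∈ P := by
      intro k
      constructor
      · rintro ⟨s, o, h1, h2⟩
        have h3 := h2.le
        have h4 : l ≤ s := by omega
        refine ⟨s - l, o, by omega, ?_⟩
        have h5 := hper (s - l)
        rw [Nat.sub_add_cancel h4] at h5
        rwa [← h5]
      · rintro ⟨s, o, h1, h2⟩
        exact ⟨s + l, o, by omega, by rwa [hper]⟩
    have hPgap : ∀ i ∈ P, ∀ j ∈ P, i < j → i + g < j := by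
      rintro i ⟨s, o, h1, h2⟩ j ⟨s', o', h3, h4⟩ hij
      by_contra hcon
      have h5 := h2.le
      have h6 := h4.le
      have h7 : s = s' := hgap' _ _ h2.1 h4.1 (by omega) (by omega)
      subst h7
      obtain ⟨h8, t, h9, -⟩ := h2.diff h4 (by omega)
      omega
    obtain ⟨y, hy, hy'⟩ := hW l P hl hPper hPgap
    have hPper' : ∀ q k, k + q * l ∈ P ↔ k ∈ P := by
      intro q
      induction q with
      | zero => intro k; simp
      | succ q ih =>
        intro k
        rw [show k + (q + 1) * l = (k + q * l) + l by ring, hPper, ih]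
    -- all times
    have hyall : ∀ i, h^[i] y ∈ K ∧ h^[i] y ∈ Ws (decide (i ∈ P)) := by
      intro i
      have h1 : h^[i] y = h^[i % l] y := by
        have h2 : i = (i % l) + l * (i / l) := (Nat.mod_add_div i l).symm
        conv_lhs => rw [h2]
        rw [Function.iterate_add_apply, Function.iterate_mul]
        congr 1
        exact Function.iterate_fixed hy _
      have h3 : i ∈ P ↔ i % l ∈ P := by
        have h2 : i = (i % l) + (i / l) * l := by
          rw [mul_comm]
          exact (Nat.mod_add_div i l).symm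
        conv_lhs => rw [h2]
        exact hPper' _ _
      obtain ⟨h4, h5, h6⟩ := hy' (i % l) (Nat.mod_lt _ (by omega))
      rw [h1]
      refine ⟨h4, ?_⟩
      by_cases hi : i ∈ P
      · rw [decide_eq_true hi]
        exact h5 (h3.1 hi)
      · rw [decide_eq_false hi]
        exact h6 fun h7 => hi (h3.2 h7)
    refine ⟨y, hy, fun k hk => ⟨(hyall k).1, ?_⟩⟩
    -- the window
    set w : Fin n → Bool := fun m => decide (k + m ∈ P) with hw
    have hyw : h^[k] y ∈ Cy w := by
      intro m
      rw [← Function.iterate_add_apply, add_comm]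
      exact (hyall _).2
    refine Set.mem_iUnion₂.2 ⟨w, ?_, hyw⟩
    show code w = c k
    by_cases hck : c k = 0
    · rw [hck]
      apply hcode0
      intro t ht
      have htT := t.2
      have hb0 : k ∈ P := by
        have h1 := congrFun ht ⟨0, by omega⟩
        rw [hw, hpt] at h1
        simp only [decide_eq_decide] at h1
        exact h1.2 (Or.inl trivial)
      have hb1 : k + (g + 1 + t) ∈ P := by
        have h1 := congrFun ht ⟨g + 1 + t, by omega⟩
        rw [hw, hpt] at h1
        simp only [decide_eq_decide] at h1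
        exact h1.2 (Or.inr trivial)
      obtain ⟨s, o, h1, h2⟩ := hb0
      obtain ⟨s', o', h3, h4⟩ := hb1
      have h5 := h2.le
      have h6 := h4.le
      have h7 : s = s' := hgap' _ _ h2.1 h4.1 (by omega) (by omega)
      subst h7
      obtain ⟨h8, -⟩ := h2.diff h4 (by omega)
      apply h2.1
      rw [show s = k + S by omega, hperS, hck]
    · obtain ⟨t, ht⟩ := Fin.exists_succ_eq.2 hck
      have htT := t.2
      rw [← ht]
      have hwp : w = pt t := by
        funext m
        rw [hw, hpt]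
        simp only [decide_eq_decide]
        have hmT := m.2
        have hkS : c (k + S) ≠ 0 := by rw [hperS]; exact hck
        constructor
        · rintro ⟨s, o, h1, h2⟩
          have h5 := h2.le
          have h7 : s = k + S := hgap' _ _ h2.1 hkS (by omega) (by omega)
          subst h7
          rcases h2.2 with h8 | ⟨t', h8, h9⟩
          · exact Or.inl (by omega)
          · rw [hperS, ← ht] at h9
            have h10 := Fin.succ_injective _ h9
            rw [← h10] at h8
            exact Or.inr (by omega)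
        · rintro (h1 | h1)
          · exact ⟨k + S, 0, by omega, hkS, Or.inl rfl⟩
          · exact ⟨k + S, g + 1 + t, by omega, hkS, Or.inr ⟨t, rfl, by rw [hperS, ht]⟩⟩
      rw [hwp]
      exact hcode1 t

end coding

end Pool.Agent.H245.SH
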