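import Pool.Agent.H245.SH.PH

/-!
# Products of three hyperbolic sets
-/

set_option autoImplicit false
set_option linter.unusedSectionVars false

open scoped Manifold ContDiff Topology NNReal
open Filter Set Metric

universe u v w x

namespace Pool.Agent.H245.SH

open Pool.Agent.H718R2.G Pool.Agent.W564.SC Pool.Agent.Y271.CP Pool.Agent.H721R2

theorem himage {M : Type v} [TopologicalSpace M] {f : M ≃ₜ M} {Λ : Set M} (hΛ : f '' Λ = Λ)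
    (x : M) : f x ∈ Λ ↔ x ∈ Λ := by
  constructor
  · intro hx
    rw [← hΛ] at hx
    obtain ⟨y, hy, hyx⟩ := hx
    rw [← f.injective hyx]
    exact hy
  · intro hx
    rw [← hΛ]
    exact ⟨x, hx, rfl⟩

section single

variable {a n : ℕ} {M : Type v} [TopologicalSpace M] [ChartedSpace (V a) M]
  [IsManifold (𝓡 a) ∞ M] {N : Type u} [TopologicalSpace N] [ChartedSpace (V n) N]
  [IsManifold (𝓡 n) ∞ N] {p : N → M} {f : M → M} {F : N → N}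

theorem sf_iter (hF : ∀ z, p (F z) = f (p z)) (l : ℕ) : p ∘ F^[l] = f^[l] ∘ p := by
  induction l with
  | zero => rfl
  | succ l ih =>
    funext z
    show p (F^[l + 1] z) = f^[l + 1] (p z)
    have h1 := congrFun ih z
    simp only [Function.comp] at h1
    rw [Function.iterate_succ_apply', hF, h1, ← Function.iterate_succ_apply' f]

theorem sf_dp (hp : ContMDiff 𝓘(ℝ, V n) 𝓘(ℝ, V a) 1 p) (hf : ContMDiff 𝓘(ℝ, V a) 𝓘(ℝ, V a) 1 f)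
    (hFs : ContMDiff 𝓘(ℝ, V n) 𝓘(ℝ, V n) 1 F) (hF : ∀ z, p (F z) = f (p z)) (z : N) (v : V n) :
    dp n a p (F z) (dp n n F z v) = dp a a f (p z) (dp n a p z v) := by
  rw [← dp_comp hFs hp, ← dp_comp hp hf]
  have := sf_iter hF 1
  rw [Function.iterate_one, Function.iterate_one] at this
  rw [this]

theorem sf_tm (hp : ContMDiff 𝓘(ℝ, V n) 𝓘(ℝ, V a) 1 p) (hf : ContMDiff 𝓘(ℝ, V a) 𝓘(ℝ, V a) 1 f)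
    (hFs : ContMDiff 𝓘(ℝ, V n) 𝓘(ℝ, V n) 1 F) (hF : ∀ z, p (F z) = f (p z)) (l : ℕ)
    (q : TangentBundle 𝓘(ℝ, V n) N) :
    tangentMap 𝓘(ℝ, V n) 𝓘(ℝ, V a) p (tangentMap 𝓘(ℝ, V n) 𝓘(ℝ, V n) (F^[l]) q) =
      tangentMap 𝓘(ℝ, V a) 𝓘(ℝ, V a) (f^[l]) (tangentMap 𝓘(ℝ, V n) 𝓘(ℝ, V a) p q) := by
  have h1 : MDifferentiable 𝓘(ℝ, V n) 𝓘(ℝ, V n) (F^[l]) :=
    (iter_smooth F hFs l).mdifferentiable (by norm_num)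
  have h2 : MDifferentiable 𝓘(ℝ, V a) 𝓘(ℝ, V a) (f^[l]) :=
    (iter_smooth f hf l).mdifferentiable (by norm_num)
  have h3 : MDifferentiable 𝓘(ℝ, V n) 𝓘(ℝ, V a) p := hp.mdifferentiable (by norm_num)
  have h4 := tangentMap_comp h3 h1
  have h5 := tangentMap_comp h2 h3
  rw [sf_iter hF, h5] at h4
  exact (congrFun h4 q).symm

/-- the rate of one component -/
theorem sf_rate (hp : ContMDiff 𝓘(ℝ, V n) 𝓘(ℝ, V a) 1 p) (hf : ContMDiff 𝓘(ℝ, V a) 𝓘(ℝ, V a) 1 f)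
    (hFs : ContMDiff 𝓘(ℝ, V n) 𝓘(ℝ, V n) 1 F) (hF : ∀ z, p (F z) = f (p z))
    {Nm : TangentBundle 𝓘(ℝ, V a) M → ℝ} (hN : IsTangentNorm Nm) {Λ : Set M}
    {E : ∀ x : M, Submodule ℝ (TangentSpace 𝓘(ℝ, V a) x)} {C a₁ C' a' : ℝ}
    (h : Q263.HS.RateOn f Λ Nm E C a₁) (ha₁ : 0 ≤ a₁) (ha : a₁ ≤ a') (hC' : 0 ≤ C') (hC : C ≤ C')
    {z : N} (hz : p z ∈ Λ) {v : V n} (hv : dp n a p z v ∈ E (p z)) (l : ℕ) :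
    Nm (tangentMap 𝓘(ℝ, V n) 𝓘(ℝ, V a) p (tangentMap 𝓘(ℝ, V n) 𝓘(ℝ, V n) (F^[l]) ⟨z, v⟩)) ≤
      C' * a' ^ l * Nm (tangentMap 𝓘(ℝ, V n) 𝓘(ℝ, V a) p ⟨z, v⟩) := by
  rw [sf_tm hp hf hFs hF]
  have r₁ := h l _ hz _ hv
  have p₁ : (0 : ℝ) ≤ Nm ⟨p z, dp n a p z v⟩ := tn_zero hN _ _
  have q₁ : C * a₁ ^ l ≤ C' * a' ^ l := by
    have := pow_le_pow_left₀ ha₁ ha l
    have h0 : 0 ≤ a₁ ^ l := pow_nonneg ha₁ l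
    calc C * a₁ ^ l ≤ C' * a₁ ^ l := by gcongr
      _ ≤ C' * a' ^ l := by gcongr
  exact r₁.trans (mul_le_mul_of_nonneg_right q₁ p₁)

end single

section triple

variable {a b c n : ℕ} {M₁ : Type v} [TopologicalSpace M₁] [ChartedSpace (V a) M₁]
  [IsManifold (𝓡 a) ∞ M₁] {M₂ : Type w} [TopologicalSpace M₂] [ChartedSpace (V b) M₂]
  [IsManifold (𝓡 b) ∞ M₂] {M₃ : Type x} [TopologicalSpace M₃] [ChartedSpace (V c) M₃]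
  [IsManifold (𝓡 c) ∞ M₃] {N : Type u} [TopologicalSpace N] [ChartedSpace (V n) N]
  [IsManifold (𝓡 n) ∞ N]

/-- three maps with jointly bijective derivatives -/
structure Tri (p₁ : N → M₁) (p₂ : N → M₂) (p₃ : N → M₃) : Prop where
  s₁ : ContMDiff 𝓘(ℝ, V n) 𝓘(ℝ, V a) 1 p₁
  s₂ : ContMDiff 𝓘(ℝ, V n) 𝓘(ℝ, V b) 1 p₂
  s₃ : ContMDiff 𝓘(ℝ, V n) 𝓘(ℝ, V c) 1 p₃
  bij : ∀ z, Function.Bijective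
    (fun v : V n => (dp n a p₁ z v, dp n b p₂ z v, dp n c p₃ z v))

variable {p₁ : N → M₁} {p₂ : N → M₂} {p₃ : N → M₃}

theorem Tri.surj (h : Tri (a := a) (b := b) (c := c) (n := n) p₁ p₂ p₃) (z : N) (x : V a) (y : V b)
    (t : V c) : ∃ v : V n, dp n a p₁ z v = x ∧ dp n b p₂ z v = y ∧ dp n c p₃ z v = t := by
  obtain ⟨v, hv⟩ := (h.bij z).2 (x, y, t)
  exact ⟨v, congrArg Prod.fst hv, congrArg (fun q => q.2.1) hv, congrArg (fun q => q.2.2) hv⟩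

theorem Tri.inj (h : Tri (a := a) (b := b) (c := c) (n := n) p₁ p₂ p₃) (z : N) {v v' : V n}
    (h₁ : dp n a p₁ z v = dp n a p₁ z v') (h₂ : dp n b p₂ z v = dp n b p₂ z v')
    (h₃ : dp n c p₃ z v = dp n c p₃ z v') : v = v' :=
  (h.bij z).1 (Prod.ext h₁ (Prod.ext h₂ h₃))

/-- the sum of three fields of subspaces -/
noncomputable def sumF3 (p₁ : N → M₁) (p₂ : N → M₂) (p₃ : N → M₃)
    (E₁ : ∀ x : M₁, Submodule ℝ (TangentSpace 𝓘(ℝ, V a) x))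
    (E₂ : ∀ x : M₂, Submodule ℝ (TangentSpace 𝓘(ℝ, V b) x))
    (E₃ : ∀ x : M₃, Submodule ℝ (TangentSpace 𝓘(ℝ, V c) x)) (z : N) :
    Submodule ℝ (TangentSpace 𝓘(ℝ, V n) z) :=
  ((Submodule.comap (dp n a p₁ z : V n →ₗ[ℝ] V a) (E₁ (p₁ z) : Submodule ℝ (V a))) ⊓
    ((Submodule.comap (dp n b p₂ z : V n →ₗ[ℝ] V b) (E₂ (p₂ z) : Submodule ℝ (V b))) ⊓
    (Submodule.comap (dp n c p₃ z : V n →ₗ[ℝ] V c) (E₃ (p₃ z) : Submodule ℝ (V c)))) :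
      Submodule ℝ (V n))

theorem mem_sumF3 {E₁ : ∀ x : M₁, Submodule ℝ (TangentSpace 𝓘(ℝ, V a) x)}
    {E₂ : ∀ x : M₂, Submodule ℝ (TangentSpace 𝓘(ℝ, V b) x)}
    {E₃ : ∀ x : M₃, Submodule ℝ (TangentSpace 𝓘(ℝ, V c) x)} {z : N} {v : V n} :
    v ∈ sumF3 p₁ p₂ p₃ E₁ E₂ E₃ z ↔ dp n a p₁ z v ∈ E₁ (p₁ z) ∧ dp n b p₂ z v ∈ E₂ (p₂ z) ∧
      dp n c p₃ z v ∈ E₃ (p₃ z) := Iff.rfl

/-- the sum of three norms -/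
noncomputable def sumN3 (p₁ : N → M₁) (p₂ : N → M₂) (p₃ : N → M₃)
    (N₁ : TangentBundle 𝓘(ℝ, V a) M₁ → ℝ) (N₂ : TangentBundle 𝓘(ℝ, V b) M₂ → ℝ)
    (N₃ : TangentBundle 𝓘(ℝ, V c) M₃ → ℝ) (q : TangentBundle 𝓘(ℝ, V n) N) : ℝ :=
  N₁ (tangentMap 𝓘(ℝ, V n) 𝓘(ℝ, V a) p₁ q) + N₂ (tangentMap 𝓘(ℝ, V n) 𝓘(ℝ, V b) p₂ q) +
    N₃ (tangentMap 𝓘(ℝ, V n) 𝓘(ℝ, V c) p₃ q)

theorem norm_sum3 (h : Tri (a := a) (b := b) (c := c) (n := n) p₁ p₂ p₃)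
    {N₁ : TangentBundle 𝓘(ℝ, V a) M₁ → ℝ} {N₂ : TangentBundle 𝓘(ℝ, V b) M₂ → ℝ}
    {N₃ : TangentBundle 𝓘(ℝ, V c) M₃ → ℝ}
    (h₁ : IsTangentNorm N₁) (h₂ : IsTangentNorm N₂) (h₃ : IsTangentNorm N₃) :
    IsTangentNorm (sumN3 (n := n) p₁ p₂ p₃ N₁ N₂ N₃) where
  continuous := by
    have c₁ : Continuous (tangentMap 𝓘(ℝ, V n) 𝓘(ℝ, V a) p₁) := h.s₁.continuous_tangentMap le_rfl
    have c₂ : Continuous (tangentMap 𝓘(ℝ, V n) 𝓘(ℝ, V b) p₂) := h.s₂.continuous_tangentMap le_rfl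
    have c₃ : Continuous (tangentMap 𝓘(ℝ, V n) 𝓘(ℝ, V c) p₃) := h.s₃.continuous_tangentMap le_rfl
    exact ((h₁.continuous.comp c₁).add (h₂.continuous.comp c₂)).add (h₃.continuous.comp c₃)
  pos := fun z v hv => by
    have hne : dp n a p₁ z v ≠ 0 ∨ dp n b p₂ z v ≠ 0 ∨ dp n c p₃ z v ≠ 0 := by
      by_contra hcon
      push Not at hcon
      apply hv
      apply h.inj z
      · exact hcon.1.trans (map_zero (dp n a p₁ z)).symm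
      · exact hcon.2.1.trans (map_zero (dp n b p₂ z)).symm
      · exact hcon.2.2.trans (map_zero (dp n c p₃ z)).symm
    show 0 < N₁ ⟨p₁ z, dp n a p₁ z v⟩ + N₂ ⟨p₂ z, dp n b p₂ z v⟩ + N₃ ⟨p₃ z, dp n c p₃ z v⟩
    have z₁ := tn_zero h₁ (p₁ z) (dp n a p₁ z v)
    have z₂ := tn_zero h₂ (p₂ z) (dp n b p₂ z v)
    have z₃ := tn_zero h₃ (p₃ z) (dp n c p₃ z v)
    rcases hne with hne | hne | hne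
    · exact add_pos_of_pos_of_nonneg (add_pos_of_pos_of_nonneg (h₁.pos _ _ hne) z₂) z₃
    · exact add_pos_of_pos_of_nonneg (add_pos_of_nonneg_of_pos z₁ (h₂.pos _ _ hne)) z₃
    · exact add_pos_of_nonneg_of_pos (add_nonneg z₁ z₂) (h₃.pos _ _ hne)
  smul := fun z s v => by
    have h : ∀ v : V n, N₁ ⟨p₁ z, dp n a p₁ z (s • v)⟩ + N₂ ⟨p₂ z, dp n b p₂ z (s • v)⟩ +
        N₃ ⟨p₃ z, dp n c p₃ z (s • v)⟩ =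
        |s| * (N₁ ⟨p₁ z, dp n a p₁ z v⟩ + N₂ ⟨p₂ z, dp n b p₂ z v⟩ +
          N₃ ⟨p₃ z, dp n c p₃ z v⟩) := by
      intro v
      rw [map_smul, map_smul, map_smul, mul_add, mul_add]
      exact congrArg₂ (· + ·) (congrArg₂ (· + ·) (h₁.smul _ s _) (h₂.smul _ s _)) (h₃.smul _ s _)
    exact h v
  add := fun z v w => by
    have h : ∀ v w : V n, N₁ ⟨p₁ z, dp n a p₁ z (v + w)⟩ + N₂ ⟨p₂ z, dp n b p₂ z (v + w)⟩ +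
        N₃ ⟨p₃ z, dp n c p₃ z (v + w)⟩ ≤
        (N₁ ⟨p₁ z, dp n a p₁ z v⟩ + N₂ ⟨p₂ z, dp n b p₂ z v⟩ + N₃ ⟨p₃ z, dp n c p₃ z v⟩) +
        (N₁ ⟨p₁ z, dp n a p₁ z w⟩ + N₂ ⟨p₂ z, dp n b p₂ z w⟩ + N₃ ⟨p₃ z, dp n c p₃ z w⟩) := by
      intro v w
      rw [map_add, map_add, map_add]
      have a₁ := h₁.add (p₁ z) (dp n a p₁ z v) (dp n a p₁ z w)
      have a₂ := h₂.add (p₂ z) (dp n b p₂ z v) (dp n b p₂ z w)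
      have a₃ := h₃.add (p₃ z) (dp n c p₃ z v) (dp n c p₃ z w)
      calc _ ≤ _ := add_le_add (add_le_add a₁ a₂) a₃
        _ = _ := by ring
    exact h v w

theorem compl_sum3 (h : Tri (a := a) (b := b) (c := c) (n := n) p₁ p₂ p₃)
    {E₁ E₁' : ∀ x : M₁, Submodule ℝ (TangentSpace 𝓘(ℝ, V a) x)}
    {E₂ E₂' : ∀ x : M₂, Submodule ℝ (TangentSpace 𝓘(ℝ, V b) x)}
    {E₃ E₃' : ∀ x : M₃, Submodule ℝ (TangentSpace 𝓘(ℝ, V c) x)} {z : N}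
    (h₁ : IsCompl (E₁ (p₁ z)) (E₁' (p₁ z))) (h₂ : IsCompl (E₂ (p₂ z)) (E₂' (p₂ z)))
    (h₃ : IsCompl (E₃ (p₃ z)) (E₃' (p₃ z))) :
    IsCompl (sumF3 (n := n) p₁ p₂ p₃ E₁ E₂ E₃ z) (sumF3 p₁ p₂ p₃ E₁' E₂' E₃' z) := by
  constructor
  · rw [Submodule.disjoint_def]
    intro v hv hv'
    obtain ⟨a₁, a₂, a₃⟩ := mem_sumF3.1 hv
    obtain ⟨b₁, b₂, b₃⟩ := mem_sumF3.1 hv'
    have d₁ := (Submodule.disjoint_def.1 h₁.disjoint) _ a₁ b₁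
    have d₂ := (Submodule.disjoint_def.1 h₂.disjoint) _ a₂ b₂
    have d₃ := (Submodule.disjoint_def.1 h₃.disjoint) _ a₃ b₃
    apply h.inj z
    · exact d₁.trans (map_zero (dp n a p₁ z)).symm
    · exact d₂.trans (map_zero (dp n b p₂ z)).symm
    · exact d₃.trans (map_zero (dp n c p₃ z)).symm
  · rw [codisjoint_iff, eq_top_iff]
    intro v _
    obtain ⟨s₁, t₁, hs₁, ht₁, hst₁⟩ := sup_mem' h₁ (dp n a p₁ z v)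
    obtain ⟨s₂, t₂, hs₂, ht₂, hst₂⟩ := sup_mem' h₂ (dp n b p₂ z v)
    obtain ⟨s₃, t₃, hs₃, ht₃, hst₃⟩ := sup_mem' h₃ (dp n c p₃ z v)
    obtain ⟨s, x₁, x₂, x₃⟩ := h.surj z s₁ s₂ s₃
    obtain ⟨t, y₁, y₂, y₃⟩ := h.surj z t₁ t₂ t₃
    refine Submodule.mem_sup.2 ⟨s, mem_sumF3.2 ⟨by rw [x₁]; exact hs₁, by rw [x₂]; exact hs₂,
      by rw [x₃]; exact hs₃⟩, t, mem_sumF3.2 ⟨by rw [y₁]; exact ht₁, by rw [y₂]; exact ht₂,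
      by rw [y₃]; exact ht₃⟩, ?_⟩
    apply h.inj z
    · have := map_add (dp n a p₁ z) s t
      rw [x₁, y₁] at this
      exact this.trans hst₁
    · have := map_add (dp n b p₂ z) s t
      rw [x₂, y₂] at this
      exact this.trans hst₂
    · have := map_add (dp n c p₃ z) s t
      rw [x₃, y₃] at this
      exact this.trans hst₃

theorem inv_sum3 (h : Tri (a := a) (b := b) (c := c) (n := n) p₁ p₂ p₃) {f₁ : M₁ → M₁}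
    {f₂ : M₂ → M₂} {f₃ : M₃ → M₃} {F : N → N} (hf₁ : ContMDiff 𝓘(ℝ, V a) 𝓘(ℝ, V a) 1 f₁)
    (hf₂ : ContMDiff 𝓘(ℝ, V b) 𝓘(ℝ, V b) 1 f₂) (hf₃ : ContMDiff 𝓘(ℝ, V c) 𝓘(ℝ, V c) 1 f₃)
    (hFs : ContMDiff 𝓘(ℝ, V n) 𝓘(ℝ, V n) 1 F) (hF₁ : ∀ z, p₁ (F z) = f₁ (p₁ z))
    (hF₂ : ∀ z, p₂ (F z) = f₂ (p₂ z)) (hF₃ : ∀ z, p₃ (F z) = f₃ (p₃ z))
    {Λ₁ : Set M₁} {Λ₂ : Set M₂} {Λ₃ : Set M₃}
    {E₁ : ∀ x : M₁, Submodule ℝ (TangentSpace 𝓘(ℝ, V a) x)}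
    {E₂ : ∀ x : M₂, Submodule ℝ (TangentSpace 𝓘(ℝ, V b) x)}
    {E₃ : ∀ x : M₃, Submodule ℝ (TangentSpace 𝓘(ℝ, V c) x)}
    (h₁ : Q263.HS.InvOn f₁ Λ₁ E₁) (h₂ : Q263.HS.InvOn f₂ Λ₂ E₂) (h₃ : Q263.HS.InvOn f₃ Λ₃ E₃) :
    Q263.HS.InvOn F {z | p₁ z ∈ Λ₁ ∧ p₂ z ∈ Λ₂ ∧ p₃ z ∈ Λ₃}
      (sumF3 (n := n) p₁ p₂ p₃ E₁ E₂ E₃) := by
  rintro z ⟨hz₁, hz₂, hz₃⟩
  have e₁ := sf_dp h.s₁ hf₁ hFs hF₁ z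
  have e₂ := sf_dp h.s₂ hf₂ hFs hF₂ z
  have e₃ := sf_dp h.s₃ hf₃ hFs hF₃ z
  have i₁ := inv_mem h₁ hz₁
  have i₂ := inv_mem h₂ hz₂
  have i₃ := inv_mem h₃ hz₃
  apply le_antisymm
  · intro w hw
    obtain ⟨v, hv, hvw⟩ := Submodule.mem_map.1 hw
    rw [← hvw]
    obtain ⟨hv₁, hv₂, hv₃⟩ := mem_sumF3.1 hv
    refine mem_sumF3.2 ⟨?_, ?_, ?_⟩
    · have h3 : dp n a p₁ (F z) (dp n n F z v) ∈ E₁ (f₁ (p₁ z)) := by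
        rw [e₁]
        exact i₁.1 _ hv₁
      exact (field_congr (hF₁ z) _).2 h3
    · have h3 : dp n b p₂ (F z) (dp n n F z v) ∈ E₂ (f₂ (p₂ z)) := by
        rw [e₂]
        exact i₂.1 _ hv₂
      exact (field_congr (hF₂ z) _).2 h3
    · have h3 : dp n c p₃ (F z) (dp n n F z v) ∈ E₃ (f₃ (p₃ z)) := by
        rw [e₃]
        exact i₃.1 _ hv₃
      exact (field_congr (hF₃ z) _).2 h3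
  · intro w hw
    obtain ⟨hw₁, hw₂, hw₃⟩ := mem_sumF3.1 hw
    obtain ⟨s₁, hs₁, hsw₁⟩ := i₁.2 _ ((field_congr (hF₁ z) _).1 hw₁)
    obtain ⟨s₂, hs₂, hsw₂⟩ := i₂.2 _ ((field_congr (hF₂ z) _).1 hw₂)
    obtain ⟨s₃, hs₃, hsw₃⟩ := i₃.2 _ ((field_congr (hF₃ z) _).1 hw₃)
    obtain ⟨v, x₁, x₂, x₃⟩ := h.surj z s₁ s₂ s₃
    refine Submodule.mem_map.2 ⟨v, mem_sumF3.2 ⟨by rw [x₁]; exact hs₁, by rw [x₂]; exact hs₂,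
      by rw [x₃]; exact hs₃⟩, ?_⟩
    apply h.inj (F z)
    · have := e₁ v
      rw [x₁] at this
      exact this.trans hsw₁
    · have := e₂ v
      rw [x₂] at this
      exact this.trans hsw₂
    · have := e₃ v
      rw [x₃] at this
      exact this.trans hsw₃

theorem rate_sum3 (h : Tri (a := a) (b := b) (c := c) (n := n) p₁ p₂ p₃) {f₁ : M₁ → M₁}
    {f₂ : M₂ → M₂} {f₃ : M₃ → M₃} {F : N → N} (hf₁ : ContMDiff 𝓘(ℝ, V a) 𝓘(ℝ, V a) 1 f₁)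
    (hf₂ : ContMDiff 𝓘(ℝ, V b) 𝓘(ℝ, V b) 1 f₂) (hf₃ : ContMDiff 𝓘(ℝ, V c) 𝓘(ℝ, V c) 1 f₃)
    (hFs : ContMDiff 𝓘(ℝ, V n) 𝓘(ℝ, V n) 1 F) (hF₁ : ∀ z, p₁ (F z) = f₁ (p₁ z))
    (hF₂ : ∀ z, p₂ (F z) = f₂ (p₂ z)) (hF₃ : ∀ z, p₃ (F z) = f₃ (p₃ z))
    {N₁ : TangentBundle 𝓘(ℝ, V a) M₁ → ℝ} {N₂ : TangentBundle 𝓘(ℝ, V b) M₂ → ℝ}
    {N₃ : TangentBundle 𝓘(ℝ, V c) M₃ → ℝ}
    (n₁ : IsTangentNorm N₁) (n₂ : IsTangentNorm N₂) (n₃ : IsTangentNorm N₃)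
    {Λ₁ : Set M₁} {Λ₂ : Set M₂} {Λ₃ : Set M₃}
    {E₁ : ∀ x : M₁, Submodule ℝ (TangentSpace 𝓘(ℝ, V a) x)}
    {E₂ : ∀ x : M₂, Submodule ℝ (TangentSpace 𝓘(ℝ, V b) x)}
    {E₃ : ∀ x : M₃, Submodule ℝ (TangentSpace 𝓘(ℝ, V c) x)} {C₁ q₁ C₂ q₂ C₃ q₃ C q : ℝ}
    (h₁ : Q263.HS.RateOn f₁ Λ₁ N₁ E₁ C₁ q₁) (h₂ : Q263.HS.RateOn f₂ Λ₂ N₂ E₂ C₂ q₂)
    (h₃ : Q263.HS.RateOn f₃ Λ₃ N₃ E₃ C₃ q₃) (hq₁ : 0 ≤ q₁) (hq₂ : 0 ≤ q₂) (hq₃ : 0 ≤ q₃)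
    (hq₁' : q₁ ≤ q) (hq₂' : q₂ ≤ q) (hq₃' : q₃ ≤ q) (hC : 0 ≤ C) (hC₁ : C₁ ≤ C) (hC₂ : C₂ ≤ C)
    (hC₃ : C₃ ≤ C) :
    Q263.HS.RateOn F {z | p₁ z ∈ Λ₁ ∧ p₂ z ∈ Λ₂ ∧ p₃ z ∈ Λ₃}
      (sumN3 (n := n) p₁ p₂ p₃ N₁ N₂ N₃) (sumF3 (n := n) p₁ p₂ p₃ E₁ E₂ E₃) C q := by
  rintro l z ⟨hz₁, hz₂, hz₃⟩ v hv
  obtain ⟨hv₁, hv₂, hv₃⟩ := mem_sumF3.1 hv
  have r₁ := sf_rate h.s₁ hf₁ hFs hF₁ n₁ h₁ hq₁ hq₁' hC hC₁ hz₁ hv₁ l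
  have r₂ := sf_rate h.s₂ hf₂ hFs hF₂ n₂ h₂ hq₂ hq₂' hC hC₂ hz₂ hv₂ l
  have r₃ := sf_rate h.s₃ hf₃ hFs hF₃ n₃ h₃ hq₃ hq₃' hC hC₃ hz₃ hv₃ l
  unfold sumN3
  calc _ ≤ _ := add_le_add (add_le_add r₁ r₂) r₃
    _ = _ := by ring

theorem cont_sum3 (h : Tri (a := a) (b := b) (c := c) (n := n) p₁ p₂ p₃)
    {Λ₁ : Set M₁} {Λ₂ : Set M₂} {Λ₃ : Set M₃}
    {E₁ : ∀ x : M₁, Submodule ℝ (TangentSpace 𝓘(ℝ, V a) x)}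
    {E₂ : ∀ x : M₂, Submodule ℝ (TangentSpace 𝓘(ℝ, V b) x)}
    {E₃ : ∀ x : M₃, Submodule ℝ (TangentSpace 𝓘(ℝ, V c) x)}
    (h₁ : Q263.HS.ContOn Λ₁ E₁) (h₂ : Q263.HS.ContOn Λ₂ E₂) (h₃ : Q263.HS.ContOn Λ₃ E₃) :
    Q263.HS.ContOn {z | p₁ z ∈ Λ₁ ∧ p₂ z ∈ Λ₂ ∧ p₃ z ∈ Λ₃}
      (sumF3 (n := n) p₁ p₂ p₃ E₁ E₂ E₃) := by
  have c₁ : Continuous (tangentMap 𝓘(ℝ, V n) 𝓘(ℝ, V a) p₁) := h.s₁.continuous_tangentMap le_rfl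
  have c₂ : Continuous (tangentMap 𝓘(ℝ, V n) 𝓘(ℝ, V b) p₂) := h.s₂.continuous_tangentMap le_rfl
  have c₃ : Continuous (tangentMap 𝓘(ℝ, V n) 𝓘(ℝ, V c) p₃) := h.s₃.continuous_tangentMap le_rfl
  have h4 := (IsClosed.preimage c₁ h₁).inter ((IsClosed.preimage c₂ h₂).inter
    (IsClosed.preimage c₃ h₃))
  have e1 : {p : TangentBundle 𝓘(ℝ, V n) N | p.1 ∈ {z | p₁ z ∈ Λ₁ ∧ p₂ z ∈ Λ₂ ∧ p₃ z ∈ Λ₃} ∧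
      p.2 ∈ sumF3 p₁ p₂ p₃ E₁ E₂ E₃ p.1} =
      (tangentMap 𝓘(ℝ, V n) 𝓘(ℝ, V a) p₁) ⁻¹'
        {p : TangentBundle 𝓘(ℝ, V a) M₁ | p.1 ∈ Λ₁ ∧ p.2 ∈ E₁ p.1} ∩
      ((tangentMap 𝓘(ℝ, V n) 𝓘(ℝ, V b) p₂) ⁻¹'
        {p : TangentBundle 𝓘(ℝ, V b) M₂ | p.1 ∈ Λ₂ ∧ p.2 ∈ E₂ p.1} ∩
      (tangentMap 𝓘(ℝ, V n) 𝓘(ℝ, V c) p₃) ⁻¹'
        {p : TangentBundle 𝓘(ℝ, V c) M₃ | p.1 ∈ Λ₃ ∧ p.2 ∈ E₃ p.1}) := by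
    ext p
    constructor
    · rintro ⟨⟨h1, h2, h3⟩, h4⟩
      exact ⟨⟨h1, h4.1⟩, ⟨h2, h4.2.1⟩, ⟨h3, h4.2.2⟩⟩
    · rintro ⟨⟨h1, h4⟩, ⟨h2, h5⟩, ⟨h3, h6⟩⟩
      exact ⟨⟨h1, h2, h3⟩, ⟨h4, h5, h6⟩⟩
  unfold Q263.HS.ContOn
  rw [e1]
  exact h4

/-- **Products of three hyperbolic sets are hyperbolic.** -/
theorem hyp_prod3 (h : Tri (a := a) (b := b) (c := c) (n := n) p₁ p₂ p₃) {f₁ : M₁ ≃ₜ M₁}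
    {f₂ : M₂ ≃ₜ M₂} {f₃ : M₃ ≃ₜ M₃} {F : N ≃ₜ N} (hf₁ : ContMDiff 𝓘(ℝ, V a) 𝓘(ℝ, V a) 1 f₁)
    (hf₁' : ContMDiff 𝓘(ℝ, V a) 𝓘(ℝ, V a) 1 f₁.symm)
    (hf₂ : ContMDiff 𝓘(ℝ, V b) 𝓘(ℝ, V b) 1 f₂) (hf₂' : ContMDiff 𝓘(ℝ, V b) 𝓘(ℝ, V b) 1 f₂.symm)
    (hf₃ : ContMDiff 𝓘(ℝ, V c) 𝓘(ℝ, V c) 1 f₃) (hf₃' : ContMDiff 𝓘(ℝ, V c) 𝓘(ℝ, V c) 1 f₃.symm)
    (hFs : ContMDiff 𝓘(ℝ, V n) 𝓘(ℝ, V n) 1 F) (hFs' : ContMDiff 𝓘(ℝ, V n) 𝓘(ℝ, V n) 1 F.symm)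
    (hF₁ : ∀ z, p₁ (F z) = f₁ (p₁ z)) (hF₂ : ∀ z, p₂ (F z) = f₂ (p₂ z))
    (hF₃ : ∀ z, p₃ (F z) = f₃ (p₃ z)) {Λ₁ : Set M₁} {Λ₂ : Set M₂} {Λ₃ : Set M₃}
    (h₁ : Q263.HS.IsHyp (V a) f₁ Λ₁) (h₂ : Q263.HS.IsHyp (V b) f₂ Λ₂)
    (h₃ : Q263.HS.IsHyp (V c) f₃ Λ₃) :
    Q263.HS.IsHyp (V n) F {z | p₁ z ∈ Λ₁ ∧ p₂ z ∈ Λ₂ ∧ p₃ z ∈ Λ₃} := by
  obtain ⟨N₁, Es₁, Eu₁, C₁, q₁, H₁⟩ := h₁
  obtain ⟨N₂, Es₂, Eu₂, C₂, q₂, H₂⟩ := h₂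
  obtain ⟨N₃, Es₃, Eu₃, C₃, q₃, H₃⟩ := h₃
  have hF₁' : ∀ z, p₁ (F.symm z) = f₁.symm (p₁ z) := fun z => by
    rw [Homeomorph.eq_symm_apply, ← hF₁, Homeomorph.apply_symm_apply]
  have hF₂' : ∀ z, p₂ (F.symm z) = f₂.symm (p₂ z) := fun z => by
    rw [Homeomorph.eq_symm_apply, ← hF₂, Homeomorph.apply_symm_apply]
  have hF₃' : ∀ z, p₃ (F.symm z) = f₃.symm (p₃ z) := fun z => by
    rw [Homeomorph.eq_symm_apply, ← hF₃, Homeomorph.apply_symm_apply]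
  obtain ⟨C, hC, hC₁, hC₂, hC₃⟩ : ∃ C : ℝ, 0 ≤ C ∧ C₁ ≤ C ∧ C₂ ≤ C ∧ C₃ ≤ C :=
    ⟨max 0 (max C₁ (max C₂ C₃)), le_max_left _ _, by simp, by simp, by simp⟩
  obtain ⟨q, hqq, hq₁, hq₂, hq₃⟩ : ∃ q : ℝ, q < 1 ∧ q₁ ≤ q ∧ q₂ ≤ q ∧ q₃ ≤ q :=
    ⟨max q₁ (max q₂ q₃), max_lt H₁.a_lt (max_lt H₂.a_lt H₃.a_lt), by simp, by simp, by simp⟩
  refine ⟨sumN3 p₁ p₂ p₃ N₁ N₂ N₃, sumF3 p₁ p₂ p₃ Es₁ Es₂ Es₃, sumF3 p₁ p₂ p₃ Eu₁ Eu₂ Eu₃, C, q, {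
    norm := norm_sum3 h H₁.norm H₂.norm H₃.norm
    closed := (H₁.closed.preimage h.s₁.continuous).inter
      ((H₂.closed.preimage h.s₂.continuous).inter (H₃.closed.preimage h.s₃.continuous))
    inv := ?_
    a_pos := H₁.a_pos.trans_le hq₁
    a_lt := hqq
    map_s := inv_sum3 h hf₁ hf₂ hf₃ hFs hF₁ hF₂ hF₃ H₁.map_s H₂.map_s H₃.map_s
    map_u := inv_sum3 h hf₁ hf₂ hf₃ hFs hF₁ hF₂ hF₃ H₁.map_u H₂.map_u H₃.map_u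
    rate_s := rate_sum3 h hf₁ hf₂ hf₃ hFs hF₁ hF₂ hF₃ H₁.norm H₂.norm H₃.norm H₁.rate_s H₂.rate_s
      H₃.rate_s H₁.a_pos.le H₂.a_pos.le H₃.a_pos.le hq₁ hq₂ hq₃ hC hC₁ hC₂ hC₃
    rate_u := rate_sum3 h hf₁' hf₂' hf₃' hFs' hF₁' hF₂' hF₃' H₁.norm H₂.norm H₃.norm H₁.rate_u
      H₂.rate_u H₃.rate_u H₁.a_pos.le H₂.a_pos.le H₃.a_pos.le hq₁ hq₂ hq₃ hC hC₁ hC₂ hC₃
    compl := fun z hz => compl_sum3 h (H₁.compl _ hz.1) (H₂.compl _ hz.2.1) (H₃.compl _ hz.2.2)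
    cont_s := cont_sum3 h H₁.cont_s H₂.cont_s H₃.cont_s
    cont_u := cont_sum3 h H₁.cont_u H₂.cont_u H₃.cont_u }⟩
  ext z
  constructor
  · rintro ⟨y, ⟨hy₁, hy₂, hy₃⟩, rfl⟩
    refine ⟨?_, ?_, ?_⟩
    · rw [hF₁]
      exact (himage H₁.inv _).2 hy₁
    · rw [hF₂]
      exact (himage H₂.inv _).2 hy₂
    · rw [hF₃]
      exact (himage H₃.inv _).2 hy₃
  · rintro ⟨hz₁, hz₂, hz₃⟩
    refine ⟨F.symm z, ⟨?_, ?_, ?_⟩, F.apply_symm_apply z⟩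
    · rw [← himage H₁.inv, ← hF₁, Homeomorph.apply_symm_apply]
      exact hz₁
    · rw [← himage H₂.inv, ← hF₂, Homeomorph.apply_symm_apply]
      exact hz₂
    · rw [← himage H₃.inv, ← hF₃, Homeomorph.apply_symm_apply]
      exact hz₃

end triple

end Pool.Agent.H245.SH
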