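import Pool.Agent.H245.SH.X5
import Pool.Agent.H245.SH.X4

/-!
# The products `f × f × h` satisfy Axiom A
-/

set_option autoImplicit false
set_option linter.unusedSectionVars false

open scoped Manifold ContDiff Topology NNReal
open Filter Set Metric

universe u v w x

namespace Pool.Agent.H245.SH

open Pool.Agent.H718R2.G Pool.Agent.W564.SC Pool.Agent.Y271.CP Pool.Agent.H721R2

/-- closed invariant subsets of hyperbolic sets -/
theorem isHyp_mono {n : ℕ} {N : Type u} [TopologicalSpace N] [ChartedSpace (V n) N]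
    [IsManifold (𝓡 n) ∞ N] {F : N ≃ₜ N} {Λ Λ' : Set N} (h : Q263.HS.IsHyp (V n) F Λ)
    (hsub : Λ' ⊆ Λ) (hcl : IsClosed Λ') (hinv : F '' Λ' = Λ') : Q263.HS.IsHyp (V n) F Λ' := by
  obtain ⟨Nm, Es, Eu, C, a, H⟩ := h
  have hcont : ∀ Z : ∀ x : N, Submodule ℝ (TangentSpace 𝓘(ℝ, V n) x), Q263.HS.ContOn Λ Z →
      Q263.HS.ContOn Λ' Z := by
    intro Z hZ
    have h1 := (hcl.preimage (FiberBundle.continuous_proj (V n)
      (TangentSpace 𝓘(ℝ, V n) (M := N)))).inter hZ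
    have e1 : {p : TangentBundle 𝓘(ℝ, V n) N | p.1 ∈ Λ' ∧ p.2 ∈ Z p.1} =
        (Bundle.TotalSpace.proj ⁻¹' Λ') ∩
          {p : TangentBundle 𝓘(ℝ, V n) N | p.1 ∈ Λ ∧ p.2 ∈ Z p.1} := by
      ext p
      exact ⟨fun h => ⟨h.1, hsub h.1, h.2⟩, fun h => ⟨h.1, h.2.2⟩⟩
    unfold Q263.HS.ContOn
    rw [e1]
    exact h1
  exact ⟨Nm, Es, Eu, C, a, {
    norm := H.norm
    closed := hcl
    inv := hinv
    a_pos := H.a_pos
    a_lt := H.a_lt
    map_s := fun x hx => H.map_s x (hsub hx)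
    map_u := fun x hx => H.map_u x (hsub hx)
    rate_s := fun k x hx => H.rate_s k x (hsub hx)
    rate_u := fun k x hx => H.rate_u k x (hsub hx)
    compl := fun x hx => H.compl x (hsub hx)
    cont_s := hcont _ H.cont_s
    cont_u := hcont _ H.cont_u }⟩

theorem omega_proj {X : Type u} {Z : Type v} [TopologicalSpace X] [TopologicalSpace Z]
    {F : X ≃ₜ X} {f : Z ≃ₜ Z} {p : X → Z} (hp : Continuous p) (hpF : ∀ x, p (F x) = f (p x)) {x : X}
    (hx : x ∈ Pool.Agent.H728R2.OS.Omega F) : p x ∈ Pool.Agent.H728R2.OS.Omega f := by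
  intro U hU
  obtain ⟨n, hn, y, ⟨z, hz, hzy⟩, hy⟩ := hx _ (hp.continuousAt.preimage_mem_nhds hU)
  have hit : ∀ (n : ℕ) (z : X), p (F^[n] z) = f^[n] (p z) := by
    intro n
    induction n with
    | zero => exact fun z => rfl
    | succ n ih =>
      intro z
      rw [Function.iterate_succ_apply', Function.iterate_succ_apply', hpF, ih]
  exact ⟨n, hn, p y, ⟨p z, hz, by rw [← hit, hzy]⟩, hy⟩

theorem fix_mul {X : Type u} {f : X → X} {x : X} {n : ℕ} (h : f^[n] x = x) (k : ℕ) :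
    f^[n * k] x = x := by
  rw [Function.iterate_mul]
  exact Function.iterate_fixed h k

theorem fix_mul' {X : Type u} {f : X → X} {x : X} {n : ℕ} (h : f^[n] x = x) (k : ℕ) :
    f^[k * n] x = x := by
  rw [mul_comm]
  exact fix_mul h k

/-- **The product `f × g × h` of diffeomorphisms with Axiom A satisfies Axiom A.** -/
theorem axiomA_prod {m m' k n : ℕ} {M : Type v} [MetricSpace M] [CompactSpace M]
    [ChartedSpace (V m) M] [IsManifold (𝓡 m) ∞ M] {M' : Type x} [MetricSpace M'] [CompactSpace M']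
    [ChartedSpace (V m') M'] [IsManifold (𝓡 m') ∞ M'] {Y : Type w} [MetricSpace Y]
    [ChartedSpace (V k) Y] [IsManifold (𝓡 k) ∞ Y] {N : Type u} [MetricSpace N] [CompactSpace N]
    [ChartedSpace (V n) N] [IsManifold (𝓡 n) ∞ N] {r : ℕ∞} (hr : 1 ≤ r) (f : DiffM m M r)
    (g : DiffM m' M' r) (H : DiffM k Y r) (F : DiffM n N r) {Θ : M × (M' × Y) → N}
    (hΘ : IsLocalDiffeomorph ((𝓡 m).prod ((𝓡 m').prod (𝓡 k))) (𝓡 n) ∞ Θ)
    (hinj : Function.Injective Θ) (hsurj : Function.Surjective Θ)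
    (hF : ∀ x z y, F (Θ (x, (z, y))) = Θ (f x, (g z, H y)))
    (h₁ : Q263.HS.AxiomA (V m) f.toHomeomorph) (h₂ : Q263.HS.AxiomA (V m') g.toHomeomorph)
    (h₃ : Q263.HS.AxiomA (V k) H.toHomeomorph) : Q263.HS.AxiomA (V n) F.toHomeomorph := by
  have hr1 : ((1 : ℕ∞) : WithTop ℕ∞) ≤ ((r : ℕ∞) : WithTop ℕ∞) := by exact_mod_cast hr
  have hf1 : ContMDiff 𝓘(ℝ, V m) 𝓘(ℝ, V m) 1 (f.toHomeomorph : M → M) := f.contMDiff.of_le hr1
  have hf1' : ContMDiff 𝓘(ℝ, V m) 𝓘(ℝ, V m) 1 (f.toHomeomorph.symm : M → M) :=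
    f.symm.contMDiff.of_le hr1
  have hg1 : ContMDiff 𝓘(ℝ, V m') 𝓘(ℝ, V m') 1 (g.toHomeomorph : M' → M') := g.contMDiff.of_le hr1
  have hg1' : ContMDiff 𝓘(ℝ, V m') 𝓘(ℝ, V m') 1 (g.toHomeomorph.symm : M' → M') :=
    g.symm.contMDiff.of_le hr1
  have hH1 : ContMDiff 𝓘(ℝ, V k) 𝓘(ℝ, V k) 1 (H.toHomeomorph : Y → Y) := H.contMDiff.of_le hr1
  have hH1' : ContMDiff 𝓘(ℝ, V k) 𝓘(ℝ, V k) 1 (H.toHomeomorph.symm : Y → Y) :=
    H.symm.contMDiff.of_le hr1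
  have hF1 : ContMDiff 𝓘(ℝ, V n) 𝓘(ℝ, V n) 1 (F.toHomeomorph : N → N) := F.contMDiff.of_le hr1
  have hF1' : ContMDiff 𝓘(ℝ, V n) 𝓘(ℝ, V n) 1 (F.toHomeomorph.symm : N → N) :=
    F.symm.contMDiff.of_le hr1
  -- the inverse map
  obtain ⟨Ψ, hleft, hright, hΨ⟩ : ∃ Ψ : N → M × (M' × Y), (∀ p, Ψ (Θ p) = p) ∧
      (∀ z, Θ (Ψ z) = z) ∧ ContMDiff (𝓡 n) ((𝓡 m).prod ((𝓡 m').prod (𝓡 k))) ∞ Ψ := by
    by_cases hN : IsEmpty N
    · exact ⟨fun z => (hN.false z).elim, fun p => (hN.false (Θ p)).elim,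
        fun z => (hN.false z).elim, fun z => (hN.false z).elim⟩
    rw [not_isEmpty_iff] at hN
    obtain ⟨z⟩ := hN
    obtain ⟨⟨x₀, z₀, y₀⟩, -⟩ := hsurj z
    have : Nonempty M := ⟨x₀⟩
    have : Nonempty (M' × Y) := ⟨(z₀, y₀)⟩
    obtain ⟨E, hE⟩ := exists_gemb (I' := (𝓡 m').prod (𝓡 k)) hΘ hinj
    have hright : ∀ z, E.Θ (E.Ψ z) = z := by
      intro z
      obtain ⟨q, hq⟩ := hsurj z
      rw [← hE] at hq
      rw [← hq, E.left]
    refine ⟨E.Ψ, fun p => by rw [← hE]; exact E.left p, fun z => by rw [← hE]; exact hright z,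
      fun z => ?_⟩
    have := E.smooth' (E.Ψ z)
    rwa [hright z] at this
  let Θ' : Diffeomorph ((𝓡 m).prod ((𝓡 m').prod (𝓡 k))) (𝓡 n) (M × (M' × Y)) N ∞ :=
    { toFun := Θ
      invFun := Ψ
      left_inv := hleft
      right_inv := hright
      contMDiff_toFun := hΘ.contMDiff
      contMDiff_invFun := hΨ }
  set p₁ : N → M := fun z => (Ψ z).1 with hp₁
  set p₂ : N → M' := fun z => (Ψ z).2.1 with hp₂
  set p₃ : N → Y := fun z => (Ψ z).2.2 with hp₃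
  have hs₁ : ContMDiff (𝓡 n) (𝓡 m) ∞ p₁ := contMDiff_fst.comp hΨ
  have hs₂₃ : ContMDiff (𝓡 n) ((𝓡 m').prod (𝓡 k)) ∞ (fun z => (Ψ z).2) := contMDiff_snd.comp hΨ
  have hs₂ : ContMDiff (𝓡 n) (𝓡 m') ∞ p₂ := contMDiff_fst.comp hs₂₃
  have hs₃ : ContMDiff (𝓡 n) (𝓡 k) ∞ p₃ := contMDiff_snd.comp hs₂₃
  have hle : (1 : WithTop ℕ∞) ≤ ∞ := by exact_mod_cast le_top
  have htri : Tri (a := m) (b := m') (c := k) (n := n) p₁ p₂ p₃ := by
    refine ⟨hs₁.of_le hle, hs₂.of_le hle, hs₃.of_le hle, fun z => ?_⟩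
    have d₁ : MDifferentiableAt (𝓡 n) (𝓡 m) p₁ z := hs₁.mdifferentiableAt (by simp)
    have d₂ : MDifferentiableAt (𝓡 n) (𝓡 m') p₂ z := hs₂.mdifferentiableAt (by simp)
    have d₃ : MDifferentiableAt (𝓡 n) (𝓡 k) p₃ z := hs₃.mdifferentiableAt (by simp)
    have d₂₃ : MDifferentiableAt (𝓡 n) ((𝓡 m').prod (𝓡 k)) (fun z => (p₂ z, p₃ z)) z :=
      hs₂₃.mdifferentiableAt (by simp)
    have h3 := mfderiv_prodMk d₂ d₃
    have h4 := mfderiv_prodMk d₁ d₂₃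
    rw [h3] at h4
    have hn : (∞ : ℕ∞ω) ≠ 0 := by simp
    have h5 := Θ'.symm.mfderivToContinuousLinearEquiv_coe hn (x := z)
    have h6 : ∀ v : V n, (dp n m p₁ z v, dp n m' p₂ z v, dp n k p₃ z v) =
        (Θ'.symm.mfderivToContinuousLinearEquiv hn z) v := by
      intro v
      have h7 : ((Θ'.symm.mfderivToContinuousLinearEquiv hn z) v) =
          mfderiv (𝓡 n) ((𝓡 m).prod ((𝓡 m').prod (𝓡 k))) Θ'.symm z v := by
        rw [← h5]
        rfl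
      have h8 : (Θ'.symm : N → M × (M' × Y)) = fun z => (p₁ z, p₂ z, p₃ z) := rfl
      rw [h7, h8, h4]
      rfl
    have h8 : (fun v : V n => (dp n m p₁ z v, dp n m' p₂ z v, dp n k p₃ z v)) =
        fun v => (Θ'.symm.mfderivToContinuousLinearEquiv hn z) v := funext h6
    rw [h8]
    exact (Θ'.symm.mfderivToContinuousLinearEquiv hn z).bijective
  have hpF : ∀ z, Ψ (F z) = (f (p₁ z), (g (p₂ z), H (p₃ z))) := by
    intro z
    have h1 : F z = Θ (f (p₁ z), (g (p₂ z), H (p₃ z))) := by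
      rw [← hF]
      congr 1
      exact (hright z).symm
    rw [h1, hleft]
  have hF₁ : ∀ z, p₁ (F.toHomeomorph z) = f.toHomeomorph (p₁ z) := fun z => congrArg Prod.fst (hpF z)
  have hF₂ : ∀ z, p₂ (F.toHomeomorph z) = g.toHomeomorph (p₂ z) := fun z =>
    congrArg (fun q => q.2.1) (hpF z)
  have hF₃ : ∀ z, p₃ (F.toHomeomorph z) = H.toHomeomorph (p₃ z) := fun z =>
    congrArg (fun q => q.2.2) (hpF z)
  have hyp := hyp_prod3 htri hf1 hf1' hg1 hg1' hH1 hH1' hF1 hF1' hF₁ hF₂ hF₃ h₁.1 h₂.1 h₃.1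
  have hsub : Pool.Agent.H728R2.OS.Omega F.toHomeomorph ⊆
      {z | p₁ z ∈ Pool.Agent.H728R2.OS.Omega f.toHomeomorph ∧
        p₂ z ∈ Pool.Agent.H728R2.OS.Omega g.toHomeomorph ∧
        p₃ z ∈ Pool.Agent.H728R2.OS.Omega H.toHomeomorph} := fun z hz =>
    ⟨omega_proj hs₁.continuous hF₁ hz, omega_proj hs₂.continuous hF₂ hz,
      omega_proj hs₃.continuous hF₃ hz⟩
  have hdense : Pool.Agent.H728R2.OS.Omega F.toHomeomorph ⊆
      closure (Pool.Agent.H728R2.OS.Per F.toHomeomorph) := by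
    intro z hz
    obtain ⟨z₁, z₂, z₃⟩ := hsub hz
    have c₁ := h₁.2 z₁
    have c₂ := h₂.2 z₂
    have c₃ := h₃.2 z₃
    have hmem : (p₁ z, (p₂ z, p₃ z)) ∈ closure (Pool.Agent.H728R2.OS.Per f.toHomeomorph ×ˢ
        (Pool.Agent.H728R2.OS.Per g.toHomeomorph ×ˢ
          Pool.Agent.H728R2.OS.Per H.toHomeomorph)) := by
      rw [closure_prod_eq, closure_prod_eq]
      exact ⟨c₁, c₂, c₃⟩
    have hcont : Continuous Θ := hΘ.contMDiff.continuous
    have h4 : z = Θ (p₁ z, (p₂ z, p₃ z)) := (hright z).symm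
    rw [h4]
    refine closure_mono ?_ (image_closure_subset_closure_image hcont (mem_image_of_mem Θ hmem))
    rintro _ ⟨⟨a, b, y⟩, ⟨⟨n₁, hn₁, ha⟩, ⟨n₂, hn₂, hb⟩, ⟨n₃, hn₃, hy⟩⟩, rfl⟩
    refine ⟨n₁ * (n₂ * n₃), by positivity, ?_⟩
    have hit : ∀ (l : ℕ) (a : M) (b : M') (y : Y), F.toHomeomorph^[l] (Θ (a, (b, y))) =
        Θ (f.toHomeomorph^[l] a, (g.toHomeomorph^[l] b, H.toHomeomorph^[l] y)) := by
      intro l
      induction l with
      | zero => exact fun a b y => rfl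
      | succ l ih =>
        intro a b y
        rw [Function.iterate_succ_apply, Function.iterate_succ_apply,
          Function.iterate_succ_apply, Function.iterate_succ_apply]
        have h5 : F.toHomeomorph (Θ (a, (b, y))) =
            Θ (f.toHomeomorph a, (g.toHomeomorph b, H.toHomeomorph y)) := hF a b y
        rw [h5, ih]
    rw [hit]
    have e₁ : f.toHomeomorph^[n₁ * (n₂ * n₃)] a = a := fix_mul ha _
    have e₂ : g.toHomeomorph^[n₁ * (n₂ * n₃)] b = b := fix_mul' (fix_mul hb n₃) n₁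
    have e₃ : H.toHomeomorph^[n₁ * (n₂ * n₃)] y = y := fix_mul' (fix_mul' hy n₂) n₁
    rw [e₁, e₂, e₃]
  exact ⟨isHyp_mono hyp hsub Q263.HS.omega_closed (Q263.HS.omega_image _ hdense), hdense⟩

end Pool.Agent.H245.SH
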