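import Pool.Agent.H245.SH.X4
import Pool.Graph.R_seed8.W806.SC.EX2
import Pool.Graph.R_seed8.W366.SC.EX1

/-!
# Sparse shifts near homoclinic orbits; hyperbolic automorphisms of tori
-/

set_option autoImplicit false
set_option linter.unusedSectionVars false

open Filter Set Metric
open scoped Topology

universe w

namespace Pool.Agent.H245.SH

open Pool.Agent.W564.SC

theorem away {Y : Type w} [MetricSpace Y] {x : ℕ → Y} {o z : Y} (hx : Tendsto x atTop (𝓝 o))
    (hne : o ≠ z) (hn : ∀ n, x n ≠ z) : ∃ η > 0, (∀ n, η ≤ dist (x n) z) ∧ η ≤ dist o z := by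
  have h1 : IsCompact (insert o (range x)) := hx.isCompact_insert_range
  have h2 : z ∈ (insert o (range x))ᶜ := by
    rintro (h | ⟨n, h⟩)
    · exact hne h.symm
    · exact hn n h
  obtain ⟨η, hη, hb⟩ := Metric.isOpen_iff.1 h1.isClosed.isOpen_compl z h2
  have h3 : ∀ y ∈ insert o (range x), η ≤ dist y z := by
    intro y hy
    by_contra hcon
    exact hb (mem_ball.2 (not_le.1 hcon)) hy
  exact ⟨η, hη, fun n => h3 _ (Or.inr ⟨n, rfl⟩), h3 _ (Or.inl rfl)⟩

/-- **Homoclinic orbits of fixed points and periodic shadowing give sparse shifts.** -/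
theorem sp1_of_homoclinic {Y : Type w} [MetricSpace Y] [CompactSpace Y] (h : Y ≃ₜ Y)
    (hsh : PerShadow h) {o z : Y} (ho : h o = o) (hzo : z ≠ o)
    (h1 : Tendsto (fun n : ℕ => h^[n] z) atTop (𝓝 o))
    (h2 : Tendsto (fun n : ℕ => h.symm^[n] z) atTop (𝓝 o)) : Sp1 h univ := by
  classical
  have hcancel : ∀ (n : ℕ) (y : Y), h^[n] (h.symm^[n] y) = y := fun n =>
    Function.LeftInverse.iterate h.apply_symm_apply n
  have hnp : ∀ n, h^[n + 1] z ≠ z := by
    intro n hn
    have h3 : ∀ k : ℕ, h^[(n + 1) * k] z = z := fun k => by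
      rw [Function.iterate_mul]
      exact Function.iterate_fixed hn k
    have h4 : Tendsto (fun k : ℕ => h^[(n + 1) * k] z) atTop (𝓝 o) :=
      h1.comp (tendsto_id.const_mul_atTop' (by omega))
    simp only [h3] at h4
    exact hzo (tendsto_nhds_unique tendsto_const_nhds h4)
  have hnp' : ∀ n, h.symm^[n + 1] z ≠ z := by
    intro n hn
    have h3 := hcancel (n + 1) z
    rw [hn] at h3
    exact hnp n h3
  obtain ⟨η₁, hη₁, a1, a2⟩ := away (h1.comp (tendsto_add_atTop_nat 1)) hzo.symm hnp
  obtain ⟨η₂, hη₂, b1, b2⟩ := away (h2.comp (tendsto_add_atTop_nat 1)) hzo.symm hnp'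
  obtain ⟨η, hη, hηa, hηb⟩ : ∃ η : ℝ, 0 < η ∧ 4 * η ≤ η₁ ∧ 4 * η ≤ η₂ :=
    ⟨min η₁ η₂ / 4, by positivity, by linarith [min_le_left η₁ η₂], by
      linarith [min_le_right η₁ η₂]⟩
  obtain ⟨δ, hδ, hsh'⟩ := hsh η hη
  obtain ⟨M, hM1, hM2⟩ : ∃ M : ℕ, dist (h^[M + 1] z) o < δ ∧ dist (h.symm^[M] z) o < δ := by
    have h3 := (Metric.tendsto_nhds.1 (h1.comp (tendsto_add_atTop_nat 1)) δ hδ)
    have h4 := (Metric.tendsto_nhds.1 h2 δ hδ)
    exact (h3.and h4).exists
  obtain ⟨z₀, hz₀⟩ : ∃ z₀, z₀ = h.symm^[M] z := ⟨_, rfl⟩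
  rw [← hz₀] at hM2
  have hzM : h^[M] z₀ = z := by rw [hz₀, hcancel]
  have hz2M : h^[2 * M + 1] z₀ = h^[M + 1] z := by
    rw [show 2 * M + 1 = (M + 1) + M by ring, Function.iterate_add_apply, hzM]
  have hfar : ∀ a, a ≠ M → 4 * η ≤ dist (h^[a] z₀) z := by
    intro a ha
    rcases Nat.lt_or_gt_of_ne ha with h3 | h3
    · obtain ⟨b, hb⟩ : ∃ b, M = a + (b + 1) := ⟨M - a - 1, by omega⟩
      have h4 : h^[a] z₀ = h.symm^[b + 1] z := by
        rw [hz₀, hb, Function.iterate_add_apply h.symm a, hcancel]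
      rw [h4]
      exact hηb.trans (b1 b)
    · obtain ⟨b, hb⟩ : ∃ b, a = (b + 1) + M := ⟨a - M - 1, by omega⟩
      rw [hb, Function.iterate_add_apply, hzM]
      exact hηa.trans (a1 b)
  refine ⟨2 * M + 1, {y | 3 * η ≤ dist y z}, closedBall z η, ?_, isClosed_closedBall.isCompact,
    ?_, ?_⟩
  · exact (isClosed_le continuous_const (continuous_id.dist continuous_const)).isCompact
  · rw [Set.disjoint_left]
    intro y hy hy'
    rw [mem_closedBall] at hy'
    have hy2 : 3 * η ≤ dist y z := hy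
    linarith
  · intro l S hl hper hgap
    obtain ⟨R, hR⟩ : ∃ R, R = (2 * M + 1) * l := ⟨_, rfl⟩
    have hRM : 2 * M + 1 ≤ R := by
      rw [hR]
      exact Nat.le_mul_of_pos_right _ (by omega)
    have hperq : ∀ q i, i + q * l ∈ S ↔ i ∈ S := by
      intro q
      induction q with
      | zero => intro i; simp
      | succ q ih =>
        intro i
        rw [show i + (q + 1) * l = (i + q * l) + l by ring, hper, ih]
    have hperR : ∀ i, i + R ∈ S ↔ i ∈ S := fun i => by
      rw [hR]
      exact hperq _ i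
    -- the pseudo-orbit
    obtain ⟨w, hw1, hw2⟩ : ∃ w : ℕ → Y,
        (∀ i a s, a ≤ 2 * M → s ∈ S → i + R + M = s + a → w i = h^[a] z₀) ∧
        ∀ i, (∀ a s, a ≤ 2 * M → s ∈ S → i + R + M ≠ s + a) → w i = o := by
      refine ⟨fun i => if hw : ∃ a, a ≤ 2 * M ∧ ∃ s ∈ S, i + R + M = s + a then
        h^[Classical.choose hw] z₀ else o, fun i a s ha hs his => ?_, fun i hi => ?_⟩
      · have hex : ∃ a, a ≤ 2 * M ∧ ∃ s ∈ S, i + R + M = s + a := ⟨a, ha, s, hs, his⟩
        simp only
        rw [dif_pos hex]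
        obtain ⟨h3, s', hs', h4⟩ := Classical.choose_spec hex
        have h5 : s = s' := by
          rcases Nat.lt_trichotomy s s' with h6 | h6 | h6
          · have := hgap s hs s' hs' h6
            omega
          · exact h6
          · have := hgap s' hs' s hs h6
            omega
        congr 2
        omega
      · simp only
        rw [dif_neg]
        rintro ⟨a, ha, s, hs, his⟩
        exact hi a s ha hs his
    have hwper : ∀ i, w (i + l) = w i := by
      intro i
      by_cases hex : ∃ a, a ≤ 2 * M ∧ ∃ s ∈ S, i + R + M = s + a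
      · obtain ⟨a, ha, s, hs, his⟩ := hex
        rw [hw1 i a s ha hs his]
        exact hw1 (i + l) a (s + l) ha ((hper s).2 hs) (by omega)
      · push Not at hex
        rw [hw2 i fun a s ha hs => hex a ha s hs]
        refine hw2 (i + l) fun a s ha hs his => ?_
        have h3 : l ≤ s := by omega
        have h4 := hper (s - l)
        rw [Nat.sub_add_cancel h3] at h4
        exact hex a ha (s - l) (h4.1 hs) (by omega)
    have hstep : ∀ i, dist (h (w i)) (w (i + 1)) < δ := by
      intro i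
      by_cases hex : ∃ a, a ≤ 2 * M ∧ ∃ s ∈ S, i + R + M = s + a
      · obtain ⟨a, ha, s, hs, his⟩ := hex
        rw [hw1 i a s ha hs his, ← Function.iterate_succ_apply' h]
        rcases Nat.lt_or_ge a (2 * M) with h3 | h3
        · rw [hw1 (i + 1) (a + 1) s (by omega) hs (by omega), dist_self]
          exact hδ
        · have h4 : a = 2 * M := by omega
          rw [h4, Nat.succ_eq_add_one, hz2M, hw2 (i + 1)]
          · exact hM1
          · intro a' s' ha' hs' his'
            have h5 : s < s' := by omega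
            have := hgap s hs s' hs' h5
            omega
      · push Not at hex
        rw [hw2 i fun a s ha hs => hex a ha s hs, ho]
        by_cases hex' : ∃ a, a ≤ 2 * M ∧ ∃ s ∈ S, i + 1 + R + M = s + a
        · obtain ⟨a, ha, s, hs, his⟩ := hex'
          rcases Nat.eq_zero_or_pos a with h3 | h3
          · rw [hw1 (i + 1) a s ha hs his, h3, dist_comm]
            exact hM2
          · exact absurd (by omega) (hex (a - 1) (by omega) s hs)
        · push Not at hex'
          rw [hw2 (i + 1) fun a s ha hs => hex' a ha s hs, dist_self]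
          exact hδ
    obtain ⟨p, hp, hp'⟩ := hsh' l w hl (by
      have := hwper 0
      rwa [zero_add] at this) fun i _ => hstep i
    refine ⟨p, hp, fun i hi => ⟨mem_univ _, fun hS => ?_, fun hS => ?_⟩⟩
    · have h3 := hp' i hi
      rw [hw1 i M (i + R) (by omega) ((hperR i).2 hS) (by omega), hzM] at h3
      exact mem_closedBall.2 h3.le
    · have h3 := hp' i hi
      show 3 * η ≤ dist (h^[i] p) z
      have h4 : 4 * η ≤ dist (w i) z := by
        by_cases hex : ∃ a, a ≤ 2 * M ∧ ∃ s ∈ S, i + R + M = s + a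
        · obtain ⟨a, ha, s, hs, his⟩ := hex
          rw [hw1 i a s ha hs his]
          apply hfar
          rintro rfl
          apply hS
          rw [← hperR]
          have h5 : s = i + R := by omega
          rwa [← h5]
        · push Not at hex
          rw [hw2 i fun a s ha hs => hex a ha s hs]
          exact hηa.trans a2
      have h5 := dist_triangle_left (w i) z (h^[i] p)
      linarith

/-- **Hyperbolic automorphisms of tori have sparse shifts.** -/
theorem sp1_toral (W : Type) [NormedAddCommGroup W] [NormedSpace ℝ W] [FiniteDimensional ℝ W]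
    [Nontrivial W] (Λ : AddSubgroup W) [DiscreteTopology Λ] [IsClosed (Λ : Set W)]
    (hC : ∃ C : ℝ, ∀ z : W, ∃ u ∈ Λ, ‖z - u‖ ≤ C) (L : W ≃L[ℝ] W)
    (hL : Pool.Agent.H922R3.CL.IsHypLin L) (hΛ : ∀ u, u ∈ Λ ↔ L u ∈ Λ)
    (h : (W ⧸ Λ) ≃ₜ (W ⧸ Λ)) (hh : ∀ z : W, h (QuotientAddGroup.mk z) = QuotientAddGroup.mk (L z)) :
    Sp1 h univ := by
  have hcpt : CompactSpace (W ⧸ Λ) := Pool.Agent.W806.SC.comp hC
  have hsh : PerShadow h := (Pool.Agent.W806.SC.ex2 Pool.Agent.W366.SC.ex1 W Λ hC L hL hΛ h hh).1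
  -- small elements of the lattice
  obtain ⟨ε, hε, hεΛ⟩ : ∃ ε : ℝ, 0 < ε ∧ ∀ u ∈ Λ, ‖u‖ < ε → u = 0 := by
    have h3 : IsOpen ({0} : Set Λ) := isOpen_discrete _
    rw [isOpen_induced_iff] at h3
    obtain ⟨O, hO, hO'⟩ := h3
    have h5 : (0 : Λ) ∈ (Subtype.val ⁻¹' O : Set Λ) := by
      rw [hO']
      rfl
    obtain ⟨ε, hε, hb⟩ := Metric.isOpen_iff.1 hO 0 h5
    refine ⟨ε, hε, fun u hu hun => ?_⟩
    have h6 : (⟨u, hu⟩ : Λ) ∈ (Subtype.val ⁻¹' O : Set Λ) := hb (by
      rw [mem_ball, dist_zero_right]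
      exact hun)
    rw [hO'] at h6
    exact congrArg Subtype.val h6
  -- a nonzero element of the lattice
  obtain ⟨u, hu, hu0⟩ : ∃ u ∈ Λ, u ≠ 0 := by
    by_contra hcon
    push Not at hcon
    obtain ⟨C, hC⟩ := hC
    obtain ⟨v, hv⟩ := exists_ne (0 : W)
    have hvn : 0 < ‖v‖ := norm_pos_iff.2 hv
    obtain ⟨u, hu, hun⟩ := hC (((|C| + 1) / ‖v‖) • v)
    rw [hcon u hu, sub_zero, norm_smul, Real.norm_of_nonneg (by positivity),
      div_mul_cancel₀ _ hvn.ne'] at hun
    have := le_abs_self C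
    linarith
  obtain ⟨P, C, μ, hC0, hμ, hμ1, hPP, hLP, hb⟩ := hL
  have hgeo : ∀ v : W, Tendsto (fun n : ℕ => C * μ ^ n * ‖v‖) atTop (𝓝 0) := by
    intro v
    have := ((tendsto_pow_atTop_nhds_zero_of_lt_one hμ.le hμ1).const_mul C).mul_const ‖v‖
    simpa using this
  have t1 : ∀ v, Tendsto (fun n : ℕ => L^[n] (P v)) atTop (𝓝 0) := fun v =>
    squeeze_zero_norm (fun n => (hb n v).1) (hgeo v)
  have t2 : ∀ v, Tendsto (fun n : ℕ => L.symm^[n] (v - P v)) atTop (𝓝 0) := fun v =>
    squeeze_zero_norm (fun n => (hb n v).2) (hgeo v)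
  have hΛ' : ∀ u, u ∈ Λ ↔ L.symm u ∈ Λ := by
    intro u
    rw [hΛ (L.symm u), ContinuousLinearEquiv.apply_symm_apply]
  have hΛn : ∀ (n : ℕ) (u : W), u ∈ Λ → L^[n] u ∈ Λ := by
    intro n
    induction n with
    | zero => exact fun u hu => hu
    | succ n ih =>
      intro u hu
      rw [Function.iterate_succ_apply]
      exact ih _ ((hΛ u).1 hu)
  have hΛn' : ∀ (n : ℕ) (u : W), u ∈ Λ → L.symm^[n] u ∈ Λ := by
    intro n
    induction n with
    | zero => exact fun u hu => hu
    | succ n ih =>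
      intro u hu
      rw [Function.iterate_succ_apply]
      exact ih _ ((hΛ' u).1 hu)
  have hPu : P u ∉ Λ := by
    intro hPu
    have h3 : P u = 0 := by
      have h4 := (Metric.tendsto_nhds.1 (t1 u) ε hε).exists
      obtain ⟨n, hn⟩ := h4
      rw [dist_zero_right] at hn
      have h5 := hεΛ _ (hΛn n _ hPu) hn
      have h6 : Function.Injective (L^[n]) := L.injective.iterate n
      apply h6
      rw [h5]
      exact (Function.iterate_fixed (map_zero L) n).symm
    have h4 := (Metric.tendsto_nhds.1 (t2 u) ε hε).exists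
    obtain ⟨n, hn⟩ := h4
    rw [dist_zero_right, h3, sub_zero] at hn
    have h5 := hεΛ _ (hΛn' n _ hu) hn
    have h6 : Function.Injective (L.symm^[n]) := L.symm.injective.iterate n
    apply hu0
    apply h6
    rw [h5]
    exact (Function.iterate_fixed (map_zero L.symm) n).symm
  have hmk : Continuous (fun v : W => (QuotientAddGroup.mk v : W ⧸ Λ)) :=
    continuous_quotient_mk'
  have hit : ∀ (n : ℕ) (v : W), h^[n] (QuotientAddGroup.mk v) = QuotientAddGroup.mk (L^[n] v) := by
    intro n
    induction n with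
    | zero => exact fun v => rfl
    | succ n ih =>
      intro v
      rw [Function.iterate_succ_apply', ih, hh, Function.iterate_succ_apply']
  have hh' : ∀ v : W, h.symm (QuotientAddGroup.mk v) = QuotientAddGroup.mk (L.symm v) := by
    intro v
    rw [Homeomorph.symm_apply_eq, hh, ContinuousLinearEquiv.apply_symm_apply]
  have hit' : ∀ (n : ℕ) (v : W), h.symm^[n] (QuotientAddGroup.mk v) =
      QuotientAddGroup.mk (L.symm^[n] v) := by
    intro n
    induction n with
    | zero => exact fun v => rfl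
    | succ n ih =>
      intro v
      rw [Function.iterate_succ_apply', ih, hh', Function.iterate_succ_apply']
  refine sp1_of_homoclinic h hsh (o := QuotientAddGroup.mk 0) (z := QuotientAddGroup.mk (P u))
    (by rw [hh, map_zero]) ?_ ?_ ?_
  · intro h0
    apply hPu
    rw [QuotientAddGroup.eq] at h0
    have := Λ.neg_mem h0
    simpa using this
  · have := (hmk.tendsto 0).comp (t1 u)
    refine this.congr fun n => ?_
    rw [hit]
    rfl
  · have h3 := ((t2 u).neg)
    rw [neg_zero] at h3
    have := (hmk.tendsto 0).comp h3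
    refine this.congr fun n => ?_
    rw [hit']
    show (QuotientAddGroup.mk (-(L.symm^[n] (u - P u))) : W ⧸ Λ) = _
    rw [QuotientAddGroup.eq]
    have e1 : L.symm^[n] u = L.symm^[n] (u - P u) + L.symm^[n] (P u) := by
      have hadd : ∀ (n : ℕ) (a b : W), L.symm^[n] (a + b) = L.symm^[n] a + L.symm^[n] b := by
        intro n
        induction n with
        | zero => exact fun a b => rfl
        | succ n ih =>
          intro a b
          rw [Function.iterate_succ_apply, Function.iterate_succ_apply,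
            Function.iterate_succ_apply, map_add, ih]
      rw [← hadd, sub_add_cancel]
    rw [neg_neg, ← e1]
    exact hΛn' n u hu

end Pool.Agent.H245.SH
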