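import Pool.Agent.H245.SH.X4

/-!
# Paths of closed pseudo-orbits, as sequences of blocks
-/

set_option autoImplicit false
set_option linter.unusedSectionVars false

open scoped Manifold ContDiff Topology NNReal
open Filter Set Metric

universe u v w

namespace Pool.Agent.H245.SH

open Pool.Agent.H718R2.G Pool.Agent.W564.SC Pool.Agent.TH80.OMS

section

variable {m : ℕ} {M : Type v} [MetricSpace M] [CompactSpace M] [ChartedSpace (V m) M]
  [IsManifold (𝓡 m) ∞ M]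

/-- the star condition with `T` kinds of kicks -/
def KStarT (T : ℕ) (A : FAtlas m M) (f : M → M) (N₀ : ℕ) (ε ρ : ℝ) : Prop :=
  ∀ (a b : Fin T → M) (R : Fin T → V m →L[ℝ] V m),
    (∀ t, dist (a t) (b t) < ε) → (∀ t, ‖R t - ContinuousLinearMap.id ℝ (V m)‖ < ε) →
    ∀ bs : List (Fin T × ℕ), bs ≠ [] → (∀ q ∈ bs, N₀ ≤ q.2) → ∀ x, Val f a b x (sym bs) →
      endp f b x (sym bs) = x → ∀ s : ℝ, (ρ ^ (sym bs).length)⁻¹ ≤ s →
      s ≤ ρ ^ (sym bs).length → NoOne (s • lin A f b R x (sym bs))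

variable {T : ℕ}

/-- there is a path of blocks from `x` to `y` with `n` steps and linear map `W` -/
def Pth (A : FAtlas m M) (f : M → M) (N₀ : ℕ) (a b : Fin T → M) (R : Fin T → V m →L[ℝ] V m)
    (x y : M) (n : ℕ) (W : V m →L[ℝ] V m) : Prop :=
  ∃ bs : List (Fin T × ℕ), (∀ q ∈ bs, N₀ ≤ q.2) ∧ Val f a b x (sym bs) ∧
    endp f b x (sym bs) = y ∧ lin A f b R x (sym bs) = W ∧ (sym bs).length = n

theorem sym_append (bs bs' : List (Fin T × ℕ)) : sym (bs ++ bs') = sym bs ++ sym bs' := by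
  unfold sym
  rw [List.flatMap_append]

theorem val_append (f : M → M) (a b : Fin T → M) (l l' : List (Fin (T + 1))) : ∀ x,
    Val f a b x l → Val f a b (endp f b x l) l' → Val f a b x (l ++ l') := by
  induction l with
  | nil => exact fun x _ h => h
  | cons σ l ih =>
    intro x h h'
    exact ⟨h.1, ih _ h.2 h'⟩

theorem endp_append (f : M → M) (b : Fin T → M) (l l' : List (Fin (T + 1))) : ∀ x,
    endp f b x (l ++ l') = endp f b (endp f b x l) l' := by
  induction l with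
  | nil => exact fun x => rfl
  | cons σ l ih => exact fun x => ih _

theorem lin_append (A : FAtlas m M) (f : M → M) (b : Fin T → M) (R : Fin T → V m →L[ℝ] V m)
    (l l' : List (Fin (T + 1))) : ∀ x,
    lin A f b R x (l ++ l') = lin A f b R (endp f b x l) l' ∘L lin A f b R x l := by
  induction l with
  | nil => exact fun x => (ContinuousLinearMap.comp_id _).symm
  | cons σ l ih =>
    intro x
    show lin A f b R (stp f b x σ) (l ++ l') ∘L lst A f b R x σ = _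
    rw [ih]
    rfl

variable {A : FAtlas m M} {f : M → M} {N₀ : ℕ} {a b : Fin T → M} {R : Fin T → V m →L[ℝ] V m}

theorem Pth.nil (x : M) : Pth A f N₀ a b R x x 0 (ContinuousLinearMap.id ℝ (V m)) :=
  ⟨[], by simp, trivial, rfl, rfl, rfl⟩

theorem Pth.trans {x y z : M} {n n' : ℕ} {W W' : V m →L[ℝ] V m}
    (h : Pth A f N₀ a b R x y n W) (h' : Pth A f N₀ a b R y z n' W') :
    Pth A f N₀ a b R x z (n + n') (W' ∘L W) := by
  obtain ⟨bs, h1, h2, h3, h4, h5⟩ := h
  obtain ⟨bs', k1, k2, k3, k4, k5⟩ := h'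
  refine ⟨bs ++ bs', fun q hq => ?_, ?_, ?_, ?_, ?_⟩
  · rcases List.mem_append.1 hq with hq | hq
    · exact h1 q hq
    · exact k1 q hq
  · rw [sym_append]
    exact val_append _ _ _ _ _ _ h2 (by rw [h3]; exact k2)
  · rw [sym_append, endp_append, h3, k3]
  · rw [sym_append, lin_append, h3, h4, k4]
  · rw [sym_append, List.length_append, h5, k5]

theorem Pth.pow {x : M} {n : ℕ} {W : V m →L[ℝ] V m} (h : Pth A f N₀ a b R x x n W) (k : ℕ) :
    Pth A f N₀ a b R x x (k * n) (W ^ k) := by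
  induction k with
  | zero =>
    rw [Nat.zero_mul, pow_zero]
    exact Pth.nil x
  | succ k ih =>
    rw [Nat.succ_mul, pow_succ']
    exact ih.trans h

theorem Pth.congr {x y y' : M} {n n' : ℕ} {W W' : V m →L[ℝ] V m}
    (h : Pth A f N₀ a b R x y n W) (hy : y = y') (hn : n = n') (hW : W = W') :
    Pth A f N₀ a b R x y' n' W' := by
  rw [← hy, ← hn, ← hW]
  exact h

/-- a path with one block -/
theorem Pth.block {c : Coc M (V m)} (hc : IsDc A f c) {x : M} {p : ℕ} (hp : N₀ ≤ p) (t : Fin T)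
    (ha : f^[p + 1] x = a t) : Pth A f N₀ a b R x (b t) (p + 1)
      (R t ∘L (Dm A f (f^[p] x) (b t) ∘L (c.word x (ids (V m)) p : V m →L[ℝ] V m))) := by
  refine ⟨[(t, p)], fun q hq => ?_, ?_, ?_, ?_, ?_⟩
  · rw [List.mem_singleton.1 hq]
    exact hp
  · rw [val_cons]
    exact ⟨ha, val_nil _ _ _⟩
  · rw [endp_cons, endp_nil]
  · refine ContinuousLinearMap.ext fun v => ?_
    rw [lin_cons hc, lin_nil]
    rfl
  · rw [sym_length]
    rfl

/-- the star condition for closed paths -/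
theorem KStarT.noOne {ε ρ : ℝ} (h : KStarT T A f N₀ ε ρ) (hab : ∀ t, dist (a t) (b t) < ε)
    (hR : ∀ t, ‖R t - ContinuousLinearMap.id ℝ (V m)‖ < ε) {x : M} {n : ℕ} (hn : 1 ≤ n)
    {W : V m →L[ℝ] V m} (hp : Pth A f N₀ a b R x x n W) {s : ℝ} (hs : (ρ ^ n)⁻¹ ≤ s)
    (hs' : s ≤ ρ ^ n) : NoOne (s • W) := by
  obtain ⟨bs, h1, h2, h3, h4, h5⟩ := hp
  have h6 : bs ≠ [] := by
    rintro rfl
    rw [← h5] at hn
    simp [sym] at hn
  have := h a b R hab hR bs h6 h1 x h2 h3 s (by rw [h5]; exact hs) (by rw [h5]; exact hs')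
  rwa [h4] at this

/-- from paths to `HL` -/
theorem hl_pth {ε ρ δ : ℝ} (hρ : 1 < ρ) (hδε : δ < ε) (h : KStarT T A f N₀ ε ρ)
    (hab : ∀ t, dist (a t) (b t) < ε) {Q : (V m →L[ℝ] V m) → Fin T → V m →L[ℝ] V m}
    (hQ : ∀ R, ‖R - ContinuousLinearMap.id ℝ (V m)‖ ≤ δ → ∀ t,
      ‖Q R t - ContinuousLinearMap.id ℝ (V m)‖ ≤ δ) {x : M} {n N : ℕ} (hn : 1 ≤ n) (hN : N ≤ n)
    {W : V m ≃L[ℝ] V m} (hW : ∀ R, ‖R - ContinuousLinearMap.id ℝ (V m)‖ ≤ δ →
      Pth A f N₀ a b (Q R) x x n (R ∘L (W : V m →L[ℝ] V m))) : HL δ ρ N W := by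
  apply HL.less hρ _ hN
  intro R hR s h1 h2
  exact h.noOne hab (fun t => (hQ R hR t).trans_lt hδε) hn (hW R hR) h1 h2

end

end Pool.Agent.H245.SH
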