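import Pool.Agent.H245.SH.Y9
import Pool.Agent.H245.SH.X6

/-!
# No cycles
-/

set_option autoImplicit false
set_option linter.unusedSectionVars false

open scoped Manifold ContDiff Topology NNReal
open Filter Set Metric

universe u v w

namespace Pool.Agent.H245.SH

open Pool.Agent.H718R2.G Pool.Agent.W564.SC Pool.Agent.H728R2.OS

section top

variable {X : Type v} [MetricSpace X]

theorem iter_image {f : X ≃ₜ X} {L : Set X} (hinv : f '' L = L) {z : X} (hz : z ∈ L) (m : ℕ) :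
    f^[m] z ∈ L := by
  induction m with
  | zero => exact hz
  | succ m ih =>
    rw [Function.iterate_succ_apply', ← hinv]
    exact ⟨_, ih, rfl⟩

/-- periodic points near a point have iterates near all points of the closure of its orbit -/
theorem near_orbit {f : X ≃ₜ X} {x y : X}
    (hy : y ∈ closure (range (fun n : ℕ => f^[n] x) ∪ range fun n : ℕ => f.symm^[n] x)) {ε : ℝ}
    (hε : 0 < ε) : ∃ V ∈ 𝓝 x, ∀ p ∈ V, p ∈ Per f → ∃ e : ℕ, dist (f^[e] p) y < ε := by
  obtain ⟨b, hb, hyb⟩ := Metric.mem_closure_iff.1 hy (ε / 2) (by linarith)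
  rcases hb with ⟨n, rfl⟩ | ⟨n, rfl⟩
  · have h1 : ContinuousAt (fun p => f^[n] p) x := (f.continuous.iterate n).continuousAt
    refine ⟨_, h1.preimage_mem_nhds (Metric.ball_mem_nhds _ (half_pos hε)), fun p hp _ => ⟨n, ?_⟩⟩
    have h2 : dist (f^[n] p) (f^[n] x) < ε / 2 := hp
    have h3 : dist y (f^[n] x) < ε / 2 := hyb
    calc dist (f^[n] p) y ≤ dist (f^[n] p) (f^[n] x) + dist y (f^[n] x) := dist_triangle_right _ _ _
      _ < ε := by linarith
  · have h1 : ContinuousAt (fun p => f.symm^[n] p) x := (f.symm.continuous.iterate n).continuousAt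
    refine ⟨_, h1.preimage_mem_nhds (Metric.ball_mem_nhds _ (half_pos hε)), ?_⟩
    rintro p hp ⟨π, hπ, hpp⟩
    have hle : n ≤ π * n := Nat.le_mul_of_pos_left _ hπ
    have h4 : f.symm^[n] p = f^[π * n - n] p := by
      have h5 : f^[n] (f^[π * n - n] p) = p := by
        rw [← Function.iterate_add_apply, Nat.add_sub_cancel' hle, Function.iterate_mul]
        exact Function.iterate_fixed hpp n
      have h6 := (Function.LeftInverse.iterate (f.symm_apply_apply) n) (f^[π * n - n] p)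
      rw [h5] at h6
      exact h6
    refine ⟨π * n - n, ?_⟩
    rw [← h4]
    have h2 : dist (f.symm^[n] p) (f.symm^[n] x) < ε / 2 := hp
    have h3 : dist y (f.symm^[n] x) < ε / 2 := hyb
    calc dist (f.symm^[n] p) y ≤ dist (f.symm^[n] p) (f.symm^[n] x) + dist y (f.symm^[n] x) :=
          dist_triangle_right _ _ _
      _ < ε := by linarith

/-- connections by periodic orbits inside the pieces -/
theorem piece_trans {f : X ≃ₜ X} (hΩ : Omega f ⊆ closure (Per f)) {k : ℕ} {Λ : Fin k → Set X}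
    (hΛ : IsSpectral f Λ) {a : Fin k} {y z : X} (hy : y ∈ Λ a) (hz : z ∈ Λ a) {ε : ℝ} (hε : 0 < ε)
    (L : ℕ) : ∃ u ∈ Per f, ∃ l : ℕ, L ≤ l ∧ dist y u < ε ∧ dist (f^[l] u) z < ε := by
  obtain ⟨x, hx, hd⟩ := hΛ.dense_orbit a
  have hxΩ : x ∈ Omega f := by
    rw [← hΛ.union]
    exact mem_iUnion.2 ⟨a, hx⟩
  obtain ⟨V₁, hV₁, h1⟩ := near_orbit (hd hy) hε
  obtain ⟨V₂, hV₂, h2⟩ := near_orbit (hd hz) hε
  obtain ⟨p, ⟨hp1, hp2⟩, hp⟩ := mem_closure_iff_nhds.1 (hΩ hxΩ) _ (inter_mem hV₁ hV₂)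
  obtain ⟨e₁, he₁⟩ := h1 p hp1 hp
  obtain ⟨e₂, he₂⟩ := h2 p hp2 hp
  obtain ⟨π, hπ, hpp⟩ := hp
  have hmul : ∀ k, f^[π * k] p = p := fun k => by
    rw [Function.iterate_mul]
    exact Function.iterate_fixed hpp k
  have hle : L + e₁ ≤ π * (L + e₁) := Nat.le_mul_of_pos_left _ hπ
  refine ⟨f^[e₁] p, ⟨π, hπ, ?_⟩, e₂ + π * (L + e₁) - e₁, by omega, by rw [dist_comm]; exact he₁, ?_⟩
  · rw [← Function.iterate_add_apply, add_comm, Function.iterate_add_apply, hpp]
  · rw [← Function.iterate_add_apply, Nat.sub_add_cancel (by omega), Function.iterate_add_apply,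
      hmul]
    exact he₂

/-- cycles in the sense of the spectral decomposition -/
theorem cycP_of_cycle {f : X ≃ₜ X} (hΩ : Omega f ⊆ closure (Per f)) {k : ℕ} {Λ : Fin k → Set X}
    (hΛ : IsSpectral f Λ) {n : ℕ} (c : Fin (n + 2) → Fin k) {w : Fin (n + 2) → X}
    (hw : ∀ i, w i ∈ Ws f (Λ (c (i + 1))) ∩ Ws f.symm (Λ (c i))) :
    CycP f (Equiv.addRight (1 : Fin (n + 2))) w := by
  intro η hη L
  choose x hx hxl using fun i => (hw i).1
  choose y hy hyl using fun i => (hw i).2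
  have h1 : ∀ᶠ m : ℕ in atTop, ∀ i, dist (f^[m] (x i)) (f^[m] (w i)) < η / 2 ∧
      dist (f.symm^[m] (y i)) (f.symm^[m] (w i)) < η / 2 := by
    rw [eventually_all]
    intro i
    exact ((tendsto_order.1 (hxl i)).2 _ (half_pos hη)).and
      ((tendsto_order.1 (hyl i)).2 _ (half_pos hη))
  obtain ⟨m, hm, hmL⟩ := (h1.and (eventually_ge_atTop L)).exists
  refine ⟨m, hmL, fun i => ?_⟩
  have hsymm : f.symm '' Λ (c (i + 1)) = Λ (c (i + 1)) := by
    have h3 := hΛ.invariant (c (i + 1))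
    ext z
    constructor
    · rintro ⟨z', hz', rfl⟩
      rw [← h3] at hz'
      obtain ⟨z'', hz'', rfl⟩ := hz'
      rwa [f.symm_apply_apply]
    · intro hz
      refine ⟨f z, ?_, f.symm_apply_apply z⟩
      rw [← h3]
      exact ⟨z, hz, rfl⟩
  obtain ⟨u, hu, l, hl, h2, h3⟩ := piece_trans hΩ hΛ
    (iter_image (hΛ.invariant (c (i + 1))) (hx i) m)
    (iter_image (f := f.symm) hsymm (hy (i + 1)) m) (half_pos hη) L
  refine ⟨u, hu, l, hl, ?_, ?_⟩
  · calc dist (f^[m] (w i)) u ≤ dist (f^[m] (x i)) (f^[m] (w i)) + dist (f^[m] (x i)) u :=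
          dist_triangle_left _ _ _
      _ < η := by linarith [(hm i).1]
  · show dist (f^[l] u) (f.symm^[m] (w (i + 1))) < η
    calc dist (f^[l] u) (f.symm^[m] (w (i + 1))) ≤ dist (f^[l] u) (f.symm^[m] (y (i + 1))) +
          dist (f.symm^[m] (y (i + 1))) (f.symm^[m] (w (i + 1))) := dist_triangle _ _ _
      _ < η := by linarith [(hm (i + 1)).2]

/-- the nonwandering points of `W^s(Λ a) ∩ W^u(Λ b)` -/
theorem eq_of_omega [CompactSpace X] {f : X ≃ₜ X} {k : ℕ} {Λ : Fin k → Set X}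
    (hΛ : IsSpectral f Λ) {a b : Fin k} {z : X} (hz : z ∈ Ws f (Λ a) ∩ Ws f.symm (Λ b))
    (hO : z ∈ Omega f) : a = b := by
  rw [← hΛ.union] at hO
  obtain ⟨j, hj⟩ := mem_iUnion.1 hO
  have hj1 : j = a := by
    by_contra hne
    obtain ⟨v, hv, φ, hφ, hlim⟩ := NC.acc (hΛ.closed _) (hΛ.invariant _) hz.1
    have h1 : v ∈ Λ j := (hΛ.closed j).mem_of_tendsto hlim
      (Eventually.of_forall fun m => NC.orbit_mem (hΛ.invariant j) hj _)
    exact Set.disjoint_left.1 (hΛ.disjoint _ _ hne) h1 hv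
  have hj2 : j = b := by
    by_contra hne
    obtain ⟨v, hv, φ, hφ, hlim⟩ := NC.acc (hΛ.closed _) (NC.inv_symm (hΛ.invariant _)) hz.2
    have h1 : v ∈ Λ j := (hΛ.closed j).mem_of_tendsto hlim
      (Eventually.of_forall fun m => NC.orbit_mem (NC.inv_symm (hΛ.invariant j)) hj _)
    exact Set.disjoint_left.1 (hΛ.disjoint _ _ hne) h1 hv
  exact hj1.symm.trans hj2

/-- No cycles, if the points on cycles are nonwandering. -/
theorem noCycle_of_cyc [CompactSpace X] {f : X ≃ₜ X} (hΩ : Omega f ⊆ closure (Per f))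
    (h : ∀ (n : ℕ) (w : Fin (n + 2) → X), CycP f (Equiv.addRight (1 : Fin (n + 2))) w →
      ∀ i, w i ∈ Omega f) : NoCycle f := by
  intro k Λ hΛ n c hc
  by_contra hcon
  push Not at hcon
  choose z hz using fun i => hcon i
  have h1 := h n z (cycP_of_cycle hΩ hΛ c hz) 0
  have h2 := hc (eq_of_omega hΛ (hz 0) h1)
  simp at h2

/-- factors -/
theorem CycP.proj {Z : Type w} [MetricSpace Z] [CompactSpace X] {F : X ≃ₜ X} {f : Z ≃ₜ Z}
    {p : X → Z} (hp : Continuous p) (hpF : ∀ x, p (F x) = f (p x)) {ι : Type} {nx : ι ≃ ι}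
    {W : ι → X} (h : CycP F nx W) : CycP f nx (fun i => p (W i)) := by
  intro η hη L
  obtain ⟨δ, hδ, hu⟩ := Metric.uniformContinuous_iff.1
    (CompactSpace.uniformContinuous_of_continuous hp) η hη
  obtain ⟨n, hn, hc⟩ := h δ hδ L
  have hit : ∀ (n : ℕ) (x : X), p (F^[n] x) = f^[n] (p x) := by
    intro n
    induction n with
    | zero => exact fun x => rfl
    | succ n ih =>
      intro x
      rw [Function.iterate_succ_apply', Function.iterate_succ_apply', hpF, ih]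
  have hit' : ∀ (n : ℕ) (x : X), p (F.symm^[n] x) = f.symm^[n] (p x) := by
    intro n x
    have h1 := hit n (F.symm^[n] x)
    rw [(Function.LeftInverse.iterate (F.apply_symm_apply) n) x] at h1
    rw [h1]
    exact ((Function.LeftInverse.iterate (f.symm_apply_apply) n) _).symm
  refine ⟨n, hn, fun i => ?_⟩
  obtain ⟨u, ⟨π, hπ, hpu⟩, l, hl, h1, h2⟩ := hc i
  refine ⟨p u, ⟨π, hπ, by rw [← hit, hpu]⟩, l, hl, ?_, ?_⟩
  · rw [← hit]
    exact hu h1
  · rw [← hit, ← hit']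
    exact hu h2

/-- the points on cycles are chain recurrent -/
theorem CycP.chain {f : X ≃ₜ X} {ι : Type} [Finite ι] {nx : ι ≃ ι} {w : ι → X}
    (h : CycP f nx w) (i : ι) : w i ∈ ChainRec f := by
  intro ε hε
  obtain ⟨x, -, -, h3, -⟩ := exists_px h 0 hε 0 i
  obtain ⟨n, hn, hx⟩ := x.periodic
  refine ⟨n, fun k => (PX.nxt^[k] x).pt, hn, h3, by
    show (PX.nxt^[n] x).pt = w i
    rw [hx, h3], fun k _ => ?_⟩
  show dist (f (PX.nxt^[k] x).pt) (PX.nxt^[k + 1] x).pt < ε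
  rw [Function.iterate_succ_apply']
  exact PX.dist_nxt hε _

end top

end Pool.Agent.H245.SH
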