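import Pool.Agent.H245.SH.Y10

/-!
# Products `f × f × h`: no cycles
-/

set_option autoImplicit false
set_option linter.unusedSectionVars false

open scoped Manifold ContDiff Topology NNReal
open Filter Set Metric

universe u v w

namespace Pool.Agent.H245.SH

open Pool.Agent.H718R2.G Pool.Agent.W564.SC Pool.Agent.TH80.OMS Pool.Agent.Y271.CP
  Pool.Agent.Y504.CO

variable {m : ℕ} {M : Type v} [MetricSpace M] [CompactSpace M] [ChartedSpace (V m) M]
  [IsManifold (𝓡 m) ∞ M]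

/-- the star condition with any number of kinds of kicks -/
theorem exists_kstar {r : ℕ∞} (hr : 2 ≤ r) (f : DiffM m M r) {k n : ℕ}
    {Y : Type w} [TopologicalSpace Y] [T2Space Y] [SigmaCompactSpace Y]
    [ChartedSpace (V k) Y] [IsManifold (𝓡 k) ∞ Y] {h : Y → Y} (hc : Continuous h) {K : Set Y}
    (hh : Sp1 h K)
    {N : Type u} [TopologicalSpace N] [T2Space N] [CompactSpace N] [ChartedSpace (V n) N]
    [IsManifold (𝓡 n) ∞ N] {Θ : M × (M × Y) → N} (F : DiffM n N r)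
    (hΘ : IsLocalDiffeomorph ((𝓡 m).prod ((𝓡 m).prod (𝓡 k))) (𝓡 n) ∞ Θ)
    (hinj : Function.Injective Θ)
    (hF : ∀ x z, ∀ y ∈ K, F (Θ (x, (z, y))) = Θ (f x, (f z, h y))) (hst : CStar n N r F)
    (T : ℕ) (A : FAtlas m M) :
    ∃ (N₀ : ℕ) (ε ρ : ℝ), 0 < ε ∧ 1 < ρ ∧ KStarT T A f N₀ ε ρ := by
  by_cases hMe : IsEmpty M
  · exact ⟨0, 1, 2, one_pos, by norm_num, fun a b R _ _ bs _ _ x => (hMe.false x).elim⟩
  rw [not_isEmpty_iff] at hMe
  obtain ⟨N₁, hdr₁⟩ := driver_of_sparse (sparse_of_one hc 1 hh)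
  have hYe := hdr₁.nonempty
  obtain ⟨N₀, hdr⟩ := driver_of_sparse (sparse_of_one hc T hh)
  obtain ⟨E, hE⟩ := exists_gemb (I' := (𝓡 m).prod (𝓡 k)) hΘ hinj
  obtain ⟨ε, ρ, hε, hρ, h⟩ := kick_star A (le_trans (by norm_num) hr) f E F hdr
    (by rw [hE]; exact hF) hst
  exact ⟨N₀, ε, ρ, hε, hρ, h⟩

/-- **The factor `f` of `f × f × h` satisfies Axiom A and has no cycles.** -/
theorem u3_of_kstar {r : ℕ∞} (hr : 2 ≤ r) (f : DiffM m M r)
    (H : ∀ (T : ℕ) (A : FAtlas m M), ∃ (N₀ : ℕ) (ε ρ : ℝ), 0 < ε ∧ 1 < ρ ∧ KStarT T A f N₀ ε ρ) :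
    Q263.HS.AxiomA (V m) f.toHomeomorph ∧ Pool.Agent.H728R2.OS.NoCycle f.toHomeomorph := by
  have h1 : Q263.HS.AxiomA (V m) f.toHomeomorph := axiomA_of_kstar hr f fun A => H 3 A
  refine ⟨h1, noCycle_of_cyc h1.2 fun n w hw i => ?_⟩
  exact closure_minimal Q263.HS.per_omega Q263.HS.omega_closed (cyc_mem hr f H hw i)

/-- the product satisfies Axiom A and has no cycles -/
theorem u3_prod {r : ℕ∞} (hr : 2 ≤ r) (f : DiffM m M r)
    (H : ∀ (T : ℕ) (A : FAtlas m M), ∃ (N₀ : ℕ) (ε ρ : ℝ), 0 < ε ∧ 1 < ρ ∧ KStarT T A f N₀ ε ρ)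
    {k n : ℕ} {Y : Type w} [MetricSpace Y]
    [ChartedSpace (V k) Y] [IsManifold (𝓡 k) ∞ Y] {N : Type u} [MetricSpace N] [CompactSpace N]
    [ChartedSpace (V n) N] [IsManifold (𝓡 n) ∞ N] (g : DiffM k Y r) (F : DiffM n N r)
    {Θ : M × (M × Y) → N}
    (hΘ : IsLocalDiffeomorph ((𝓡 m).prod ((𝓡 m).prod (𝓡 k))) (𝓡 n) ∞ Θ)
    (hinj : Function.Injective Θ) (hsurj : Function.Surjective Θ)
    (hF : ∀ x z y, F (Θ (x, (z, y))) = Θ (f x, (f z, g y)))
    (h₃ : Q263.HS.AxiomA (V k) g.toHomeomorph)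
    (h₄ : Pool.Agent.H728R2.OS.ChainRec g.toHomeomorph =
        Pool.Agent.H728R2.OS.Omega g.toHomeomorph ∨
      ∃ φ : Y ≃ₜ M, ∀ y, φ (g.toHomeomorph y) = f.toHomeomorph (φ y)) :
    Q263.HS.AxiomA (V n) F.toHomeomorph ∧ Pool.Agent.H728R2.OS.NoCycle F.toHomeomorph := by
  have hr1 : (1 : ℕ∞) ≤ r := le_trans (by norm_num) hr
  obtain ⟨h1, -⟩ := u3_of_kstar hr f H
  have h2 := axiomA_prod hr1 f f g F hΘ hinj hsurj hF h1 h1 h₃
  refine ⟨h2, noCycle_of_cyc h2.2 fun l W hW i => ?_⟩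
  have hcont : Continuous Θ := hΘ.contMDiff.continuous
  let Θ' : M × (M × Y) ≃ₜ N := (Equiv.ofBijective Θ ⟨hinj, hsurj⟩).toHomeomorphOfContinuousOpen
    hcont hΘ.isLocalHomeomorph.isOpenMap
  have hleft : ∀ p, Θ'.symm (Θ p) = p := fun p => Θ'.symm_apply_apply p
  have hright : ∀ z, Θ (Θ'.symm z) = z := fun z => Θ'.apply_symm_apply z
  have hpF : ∀ z, Θ'.symm (F z) = (f (Θ'.symm z).1, (f (Θ'.symm z).2.1, g (Θ'.symm z).2.2)) := by
    intro z
    have h1 : F z = Θ (f (Θ'.symm z).1, (f (Θ'.symm z).2.1, g (Θ'.symm z).2.2)) := by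
      rw [← hF]
      congr 1
      exact (hright z).symm
    rw [h1, hleft]
  have c₁ : Continuous fun z => (Θ'.symm z).1 := continuous_fst.comp Θ'.symm.continuous
  have c₂ : Continuous fun z => (Θ'.symm z).2.1 :=
    continuous_fst.comp (continuous_snd.comp Θ'.symm.continuous)
  have c₃ : Continuous fun z => (Θ'.symm z).2.2 :=
    continuous_snd.comp (continuous_snd.comp Θ'.symm.continuous)
  have m₁ := cyc_mem hr f H (hW.proj c₁ (f := f.toHomeomorph) fun z => congrArg Prod.fst (hpF z)) i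
  have m₂ := cyc_mem hr f H (hW.proj c₂ (f := f.toHomeomorph) fun z =>
    congrArg (fun q => q.2.1) (hpF z)) i
  have hW₃ := hW.proj c₃ (f := g.toHomeomorph) fun z => congrArg (fun q => q.2.2) (hpF z)
  have m₃ : (Θ'.symm (W i)).2.2 ∈ closure (Pool.Agent.H728R2.OS.Per g.toHomeomorph) := by
    rcases h₄ with h₄ | ⟨φ, hφ⟩
    · have h5 := hW₃.chain i
      rw [h₄] at h5
      exact h₃.2 h5
    · -- the conjugate of `f`
      have c₄ : Continuous fun z => φ (Θ'.symm z).2.2 := φ.continuous.comp c₃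
      have h5 := cyc_mem hr f H (hW.proj c₄ (f := f.toHomeomorph) fun z => by
        have h6 : (Θ'.symm (F z)).2.2 = g (Θ'.symm z).2.2 := congrArg (fun q => q.2.2) (hpF z)
        show φ (Θ'.symm (F z)).2.2 = f.toHomeomorph (φ (Θ'.symm z).2.2)
        rw [h6]
        exact hφ _) i
      have h6 : φ (Θ'.symm (W i)).2.2 ∈ closure (φ '' Pool.Agent.H728R2.OS.Per g.toHomeomorph) := by
        refine closure_mono ?_ h5
        rintro x ⟨l, hl, hx⟩
        refine ⟨φ.symm x, ⟨l, hl, ?_⟩, φ.apply_symm_apply x⟩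
        have hit : ∀ (l : ℕ) (y : Y), φ (g.toHomeomorph^[l] y) = f.toHomeomorph^[l] (φ y) := by
          intro l
          induction l with
          | zero => exact fun y => rfl
          | succ l ih =>
            intro y
            rw [Function.iterate_succ_apply', Function.iterate_succ_apply', hφ, ih]
        apply φ.injective
        rw [hit, φ.apply_symm_apply, hx]
      rw [← φ.image_closure] at h6
      obtain ⟨y, hy, hyx⟩ := h6
      rwa [φ.injective hyx] at hy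
  -- the periodic points of the product
  have hmem : Θ'.symm (W i) ∈ closure (Pool.Agent.H728R2.OS.Per f.toHomeomorph ×ˢ
      (Pool.Agent.H728R2.OS.Per f.toHomeomorph ×ˢ Pool.Agent.H728R2.OS.Per g.toHomeomorph)) := by
    rw [closure_prod_eq, closure_prod_eq]
    exact ⟨m₁, m₂, m₃⟩
  have h5 : W i = Θ (Θ'.symm (W i)) := (hright (W i)).symm
  have h6 : W i ∈ closure (Pool.Agent.H728R2.OS.Per F.toHomeomorph) := by
    rw [h5]
    refine closure_mono ?_ (image_closure_subset_closure_image hcont (mem_image_of_mem Θ hmem))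
    rintro _ ⟨⟨a, b, y⟩, ⟨⟨n₁, hn₁, ha⟩, ⟨n₂, hn₂, hb⟩, ⟨n₃, hn₃, hy⟩⟩, rfl⟩
    refine ⟨n₁ * (n₂ * n₃), by positivity, ?_⟩
    have hit : ∀ (l : ℕ) (a : M) (b : M) (y : Y), F.toHomeomorph^[l] (Θ (a, (b, y))) =
        Θ (f.toHomeomorph^[l] a, (f.toHomeomorph^[l] b, g.toHomeomorph^[l] y)) := by
      intro l
      induction l with
      | zero => exact fun a b y => rfl
      | succ l ih =>
        intro a b y
        rw [Function.iterate_succ_apply, Function.iterate_succ_apply,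
          Function.iterate_succ_apply, Function.iterate_succ_apply]
        have h5 : F.toHomeomorph (Θ (a, (b, y))) =
            Θ (f.toHomeomorph a, (f.toHomeomorph b, g.toHomeomorph y)) := hF a b y
        rw [h5, ih]
    rw [hit]
    have e₁ : f.toHomeomorph^[n₁ * (n₂ * n₃)] a = a := fix_mul ha _
    have e₂ : f.toHomeomorph^[n₁ * (n₂ * n₃)] b = b := fix_mul' (fix_mul hb n₃) n₁
    have e₃ : g.toHomeomorph^[n₁ * (n₂ * n₃)] y = y := fix_mul' (fix_mul' hy n₂) n₁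
    rw [e₁, e₂, e₃]
  exact closure_minimal Q263.HS.per_omega Q263.HS.omega_closed h6

end Pool.Agent.H245.SH
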