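import Pool.Agent.H245.SH.Y1

/-!
# The cocycle of the closed pseudo-orbits with a bounded number of jumps
-/

set_option autoImplicit false
set_option linter.unusedSectionVars false

open scoped Manifold ContDiff Topology NNReal
open Filter Set Metric

universe u v w

namespace Pool.Agent.H245.SH

open Pool.Agent.H718R2.G Pool.Agent.W564.SC Pool.Agent.TH80.OMS

/-- A closed pseudo-orbit which consists of orbit segments `z j, f (z j), …` of lengths `ℓ j ≥ G`, the
segment `j` being followed by the segment `nx j`, with jumps smaller than `η`; and the position `i` in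
the segment `j`. -/
@[ext]
structure PX {M : Type v} [MetricSpace M] (f : M → M) {ι : Type} (nx : ι ≃ ι) (G : ℕ) (η : ℝ) where
  z : ι → M
  ℓ : ι → ℕ
  j : ι
  i : ℕ
  hℓ : ∀ j, G + 1 ≤ ℓ j
  hη : ∀ j, dist (f^[ℓ j] (z j)) (z (nx j)) < η
  hi : i < ℓ j

namespace PX

variable {M : Type v} [MetricSpace M] {f : M → M} {ι : Type} {nx : ι ≃ ι} {G : ℕ} {η : ℝ}

/-- the next position -/
def nxt (x : PX f nx G η) : PX f nx G η :=
  if h : x.i + 1 < x.ℓ x.j then { x with i := x.i + 1, hi := h }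
  else { x with j := nx x.j, i := 0, hi := Nat.lt_of_lt_of_le (Nat.succ_pos G) (x.hℓ (nx x.j)) }

theorem prv_hi (x : PX f nx G η) : x.ℓ (nx.symm x.j) - 1 < x.ℓ (nx.symm x.j) := by
  have := x.hℓ (nx.symm x.j)
  omega

/-- the previous position -/
def prv (x : PX f nx G η) : PX f nx G η :=
  if h : 0 < x.i then { x with i := x.i - 1, hi := Nat.lt_of_le_of_lt (Nat.sub_le _ _) x.hi }
  else { x with j := nx.symm x.j, i := x.ℓ (nx.symm x.j) - 1, hi := x.prv_hi }

theorem nxt_lt {x : PX f nx G η} (h : x.i + 1 < x.ℓ x.j) :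
    x.nxt = { x with i := x.i + 1, hi := h } := dif_pos h

theorem nxt_eq {x : PX f nx G η} (h : x.i + 1 = x.ℓ x.j) :
    x.nxt = { x with j := nx x.j, i := 0,
                     hi := Nat.lt_of_lt_of_le (Nat.succ_pos G) (x.hℓ (nx x.j)) } :=
  dif_neg (by omega)

theorem prv_nxt (x : PX f nx G η) : x.nxt.prv = x := by
  rcases Nat.lt_or_ge (x.i + 1) (x.ℓ x.j) with h | h
  · rw [nxt_lt h]
    unfold prv
    rw [dif_pos (Nat.succ_pos x.i)]
    ext
    · rfl
    · rfl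
    · rfl
    · show x.i + 1 - 1 = x.i
      omega
  · have h' : x.i + 1 = x.ℓ x.j := by
      have := x.hi
      omega
    rw [nxt_eq h']
    unfold prv
    rw [dif_neg (lt_irrefl 0)]
    ext
    · rfl
    · rfl
    · exact nx.symm_apply_apply x.j
    · show x.ℓ (nx.symm (nx x.j)) - 1 = x.i
      rw [nx.symm_apply_apply]
      omega

theorem nxt_prv (x : PX f nx G η) : x.prv.nxt = x := by
  rcases Nat.eq_zero_or_pos x.i with h | h
  · have h1 : x.prv = { x with j := nx.symm x.j, i := x.ℓ (nx.symm x.j) - 1, hi := x.prv_hi } :=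
      dif_neg (by omega)
    rw [h1]
    have h2 := x.hℓ (nx.symm x.j)
    rw [nxt_eq (by
      show x.ℓ (nx.symm x.j) - 1 + 1 = x.ℓ (nx.symm x.j)
      omega)]
    ext
    · rfl
    · rfl
    · exact nx.apply_symm_apply x.j
    · exact h.symm
  · have h1 : x.prv = { x with i := x.i - 1, hi := Nat.lt_of_le_of_lt (Nat.sub_le _ _) x.hi } :=
      dif_pos h
    have h3 := x.hi
    rw [h1, nxt_lt (by
      show x.i - 1 + 1 < x.ℓ x.j
      omega)]
    ext
    · rfl
    · rfl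
    · rfl
    · show x.i - 1 + 1 = x.i
      omega

/-- the shift -/
def shift : PX f nx G η ≃ PX f nx G η where
  toFun := nxt
  invFun := prv
  left_inv := prv_nxt
  right_inv := nxt_prv

/-- the point at the position -/
def pt (x : PX f nx G η) : M := f^[x.i] (x.z x.j)

theorem pt_nxt_lt {x : PX f nx G η} (h : x.i + 1 < x.ℓ x.j) : x.nxt.pt = f x.pt := by
  rw [nxt_lt h]
  exact Function.iterate_succ_apply' f x.i (x.z x.j)

theorem pt_nxt_eq {x : PX f nx G η} (h : x.i + 1 = x.ℓ x.j) : x.nxt.pt = x.z (nx x.j) := by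
  rw [nxt_eq h]
  rfl

theorem f_pt (x : PX f nx G η) : f x.pt = f^[x.i + 1] (x.z x.j) :=
  (Function.iterate_succ_apply' f x.i (x.z x.j)).symm

theorem dist_nxt (hη : 0 < η) (x : PX f nx G η) : dist (f x.pt) x.nxt.pt < η := by
  rcases Nat.lt_or_ge (x.i + 1) (x.ℓ x.j) with h | h
  · rw [pt_nxt_lt h, dist_self]
    exact hη
  · have h' : x.i + 1 = x.ℓ x.j := by
      have := x.hi
      omega
    rw [pt_nxt_eq h', f_pt x, h']
    exact x.hη x.j

theorem iter_lt (n : ℕ) : ∀ x : PX f nx G η, x.i + n < x.ℓ x.j →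
    (nxt^[n] x).z = x.z ∧ (nxt^[n] x).ℓ = x.ℓ ∧ (nxt^[n] x).j = x.j ∧ (nxt^[n] x).i = x.i + n := by
  induction n with
  | zero => exact fun x _ => ⟨rfl, rfl, rfl, rfl⟩
  | succ n ih =>
    intro x hx
    obtain ⟨h1, h2, h3, h4⟩ := ih x (by omega)
    rw [Function.iterate_succ_apply']
    have h5 : (nxt^[n] x).i + 1 < (nxt^[n] x).ℓ (nxt^[n] x).j := by
      rw [h2, h3, h4]
      omega
    rw [nxt_lt h5]
    exact ⟨h1, h2, h3, by
      show (nxt^[n] x).i + 1 = x.i + (n + 1)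
      rw [h4]
      omega⟩

theorem iter_eq {n : ℕ} {x : PX f nx G η} (h : x.i + (n + 1) = x.ℓ x.j) :
    (nxt^[n + 1] x).z = x.z ∧ (nxt^[n + 1] x).ℓ = x.ℓ ∧ (nxt^[n + 1] x).j = nx x.j ∧
      (nxt^[n + 1] x).i = 0 := by
  obtain ⟨h1, h2, h3, h4⟩ := iter_lt n x (by omega)
  rw [Function.iterate_succ_apply']
  have h5 : (nxt^[n] x).i + 1 = (nxt^[n] x).ℓ (nxt^[n] x).j := by
    rw [h2, h3, h4]
    omega
  rw [nxt_eq h5]
  exact ⟨h1, h2, by
    show nx (nxt^[n] x).j = nx x.j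
    rw [h3], rfl⟩

theorem pt_iter_lt {n : ℕ} {x : PX f nx G η} (h : x.i + n < x.ℓ x.j) :
    (nxt^[n] x).pt = f^[n] x.pt := by
  obtain ⟨h1, h2, h3, h4⟩ := iter_lt n x h
  show f^[(nxt^[n] x).i] ((nxt^[n] x).z (nxt^[n] x).j) = f^[n] (f^[x.i] (x.z x.j))
  rw [h1, h3, h4, add_comm, Function.iterate_add_apply]

end PX

section coc

variable {m : ℕ} {M : Type v} [MetricSpace M] [CompactSpace M] [ChartedSpace (V m) M]
  [IsManifold (𝓡 m) ∞ M]

/-- the cocycle of the derivatives along pseudo-orbits -/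
structure IsPc (A : FAtlas m M) {f : M → M} {ι : Type} {nx : ι ≃ ι} {G : ℕ} {η : ℝ}
    (d : Coc (PX f nx G η) (V m)) : Prop where
  f_eq : ∀ x, d.f x = x.nxt
  A_eq : ∀ x v, d.A x v = Dm A f x.pt x.nxt.pt v

/-- the cocycle of the pseudo-orbits -/
theorem exists_pc (A : FAtlas m M) {f : M → M} {Λ ε₁ : ℝ} (hΛ : 1 ≤ Λ)
    (hDm : ∀ x y : M, dist (f x) y < ε₁ → ‖Dm A f x y‖ ≤ Λ ∧ ∀ u, ‖u‖ ≤ Λ * ‖Dm A f x y u‖)
    {ι : Type} (nx : ι ≃ ι) (G : ℕ) {η : ℝ} (hη : 0 < η) (hηε : η ≤ ε₁) :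
    ∃ d : Coc (PX f nx G η) (V m), IsPc A d ∧ d.Λ = Λ := by
  have h0 : ∀ x : PX f nx G η, dist (f x.pt) x.nxt.pt < ε₁ := fun x => (x.dist_nxt hη).trans_le hηε
  exact ⟨{
      f := PX.shift
      A := fun x => mkE (Dm A f x.pt x.nxt.pt) (hDm _ _ (h0 x)).2
      Λ := Λ
      one_le := hΛ
      bd := fun x v => ((Dm A f x.pt x.nxt.pt).le_opNorm v).trans (by
        gcongr
        exact (hDm _ _ (h0 x)).1)
      bd' := fun x v => mkE_symm _ _ _ }, ⟨fun x => rfl, fun x v => rfl⟩, rfl⟩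

variable {A : FAtlas m M} {f : M → M} {ι : Type} {nx : ι ≃ ι} {G : ℕ} {η : ℝ}
  {d : Coc (PX f nx G η) (V m)}

theorem IsPc.iter (hd : IsPc A d) (x : PX f nx G η) (n : ℕ) : d.f^[n] x = PX.nxt^[n] x := by
  induction n with
  | zero => rfl
  | succ n ih => rw [Function.iterate_succ_apply', Function.iterate_succ_apply', ih, hd.f_eq]

/-- within a segment the words are those of the derivative -/
theorem IsPc.word_lt (hd : IsPc A d) {c : Coc M (V m)} (hc : IsDc A f c) {x : PX f nx G η} {n : ℕ}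
    (h : x.i + n < x.ℓ x.j) (v : V m) : d.word x (ids (V m)) n v = c.word x.pt (ids (V m)) n v := by
  induction n with
  | zero => rfl
  | succ n ih =>
    rw [Coc.word_ids_succ', Coc.word_ids_succ', ih (by omega), hd.A_eq, hc.A_eq, hd.iter, hc.iter]
    have h1 : x.i + n < x.ℓ x.j := by omega
    obtain ⟨k1, k2, k3, k4⟩ := PX.iter_lt n x h1
    rw [PX.pt_nxt_lt (by rw [k2, k3, k4]; omega), PX.pt_iter_lt h1]

end coc

end Pool.Agent.H245.SH
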