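import Pool.Agent.H245.SH.Y2

/-!
# Paths along the closed pseudo-orbits
-/

set_option autoImplicit false
set_option linter.unusedSectionVars false

open scoped Manifold ContDiff Topology NNReal
open Filter Set Metric

universe u v w

namespace Pool.Agent.H245.SH

open Pool.Agent.H718R2.G Pool.Agent.W564.SC Pool.Agent.TH80.OMS

namespace PX

variable {M : Type v} [MetricSpace M] {f : M → M} {ι : Type} {nx : ι ≃ ι} {G : ℕ} {η : ℝ}

/-- the position is far from the jumps, or directly after a jump -/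
def NP (N₀ : ℕ) (x : PX f nx G η) : Prop := (x.i = 0 ∨ N₀ < x.i) ∧ x.i + N₀ < x.ℓ x.j

theorem nxt_zl (x : PX f nx G η) : x.nxt.z = x.z ∧ x.nxt.ℓ = x.ℓ := by
  unfold nxt
  split_ifs
  · exact ⟨rfl, rfl⟩
  · exact ⟨rfl, rfl⟩

theorem iter_zl (n : ℕ) (x : PX f nx G η) : (nxt^[n] x).z = x.z ∧ (nxt^[n] x).ℓ = x.ℓ := by
  induction n with
  | zero => exact ⟨rfl, rfl⟩
  | succ n ih =>
    rw [Function.iterate_succ_apply']
    exact ⟨(nxt_zl _).1.trans ih.1, (nxt_zl _).2.trans ih.2⟩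

end PX

section

variable {m : ℕ} {M : Type v} [MetricSpace M] [CompactSpace M] [ChartedSpace (V m) M]
  [IsManifold (𝓡 m) ∞ M] {A : FAtlas m M} {f : M → M} {ι : Type} {nx : ι ≃ ι} {G : ℕ} {η : ℝ}
  {d : Coc (PX f nx G η) (V m)} {T : ℕ}

/-- the kinds `tp j` are the jumps at the ends of the segments, without kicks -/
structure Typ (x : PX f nx G η) (a b : Fin T → M) (R : Fin T → V m →L[ℝ] V m) (tp : ι → Fin T) :
    Prop where
  a_eq : ∀ j, a (tp j) = f^[x.ℓ j] (x.z j)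
  b_eq : ∀ j, b (tp j) = x.z (nx j)
  R_eq : ∀ j, R (tp j) = ContinuousLinearMap.id ℝ (V m)

theorem Typ.iter {x : PX f nx G η} {a b : Fin T → M} {R : Fin T → V m →L[ℝ] V m} {tp : ι → Fin T}
    (h : Typ x a b R tp) (n : ℕ) : Typ (PX.nxt^[n] x) a b R tp := by
  obtain ⟨h1, h2⟩ := x.iter_zl n
  refine ⟨fun j => ?_, fun j => ?_, h.R_eq⟩
  · rw [h1, h2]
    exact h.a_eq j
  · rw [h1]
    exact h.b_eq j

/-- **Paths between positions far from the jumps.** -/
theorem path_gen (hd : IsPc A d) {c : Coc M (V m)} (hc : IsDc A f c) {N₀ : ℕ}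
    (hG : 2 * N₀ + 1 ≤ G) {a b : Fin T → M} {R : Fin T → V m →L[ℝ] V m} {tp : ι → Fin T}
    (τ : Fin T) : ∀ (p : ℕ) (x : PX f nx G η), Typ x a b R tp → x.i + N₀ < x.ℓ x.j →
    PX.NP N₀ (PX.nxt^[p + 1] x) → N₀ ≤ p → f (PX.nxt^[p] x).pt = a τ →
    Pth A f N₀ a b R x.pt (b τ) (p + 1) (R τ ∘L (Dm A f (PX.nxt^[p] x).pt (b τ) ∘L
      (d.word x (ids (V m)) p : V m →L[ℝ] V m))) := by
  intro p
  induction p using Nat.strong_induction_on with
  | _ p ih =>
  intro x hT hx hy hp ha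
  rcases Nat.lt_or_ge (x.i + p) (x.ℓ x.j) with h | h
  · -- one segment
    rw [PX.pt_iter_lt h] at ha ⊢
    have h1 := Pth.block (A := A) (a := a) (b := b) (R := R) hc (x := x.pt) hp τ
      (by rw [Function.iterate_succ_apply']; exact ha)
    refine h1.congr rfl rfl ?_
    refine ContinuousLinearMap.ext fun v => ?_
    show R τ (Dm A f (f^[p] x.pt) (b τ) (c.word x.pt (ids (V m)) p v)) =
      R τ (Dm A f (f^[p] x.pt) (b τ) (d.word x (ids (V m)) p v))
    rw [hd.word_lt hc h]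
  · -- the first block
    obtain ⟨e, he⟩ : ∃ e, x.i + (e + 1) = x.ℓ x.j := ⟨x.ℓ x.j - x.i - 1, by
      have := x.hi
      omega⟩
    have he0 : x.i + e < x.ℓ x.j := by omega
    obtain ⟨k1, k2, k3, k4⟩ := PX.iter_eq he
    have hlast : (PX.nxt^[e] x).i + 1 = (PX.nxt^[e] x).ℓ (PX.nxt^[e] x).j := by
      obtain ⟨j1, j2, j3, j4⟩ := PX.iter_lt e x he0
      rw [j2, j3, j4]
      omega
    have hpt : (PX.nxt^[e + 1] x).pt = x.z (nx x.j) := by
      rw [Function.iterate_succ_apply', PX.pt_nxt_eq hlast]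
      obtain ⟨j1, j2, j3, j4⟩ := PX.iter_lt e x he0
      rw [j1, j3]
    have h1 := Pth.block (A := A) (b := b) (R := R) (N₀ := N₀) hc (x := x.pt) (p := e) (by omega)
      (tp x.j) (a := a) (by
        rw [hT.a_eq]
        show f^[e + 1] (f^[x.i] (x.z x.j)) = _
        rw [← Function.iterate_add_apply, ← he, add_comm])
    have h2 : Pth A f N₀ a b R x.pt (PX.nxt^[e + 1] x).pt (e + 1)
        (d.word x (ids (V m)) (e + 1) : V m →L[ℝ] V m) := by
      refine h1.congr ?_ rfl ?_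
      · rw [hT.b_eq, hpt]
      · refine ContinuousLinearMap.ext fun v => ?_
        show R (tp x.j) (Dm A f (f^[e] x.pt) (b (tp x.j)) (c.word x.pt (ids (V m)) e v)) =
          d.word x (ids (V m)) (e + 1) v
        rw [hT.R_eq, hT.b_eq, Coc.word_ids_succ', hd.A_eq, hd.iter, hd.word_lt hc he0,
          ← PX.pt_iter_lt he0, ← Function.iterate_succ_apply' PX.nxt, hpt]
        rfl
    -- the rest
    obtain ⟨q, rfl⟩ : ∃ q, p = e + 1 + q := ⟨p - (e + 1), by omega⟩
    obtain ⟨x', hx'⟩ : ∃ x', x' = PX.nxt^[e + 1] x := ⟨_, rfl⟩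
    have hT' : Typ x' a b R tp := by rw [hx']; exact hT.iter _
    have hit : ∀ n, PX.nxt^[e + 1 + n] x = PX.nxt^[n] x' := by
      intro n
      rw [hx', ← Function.iterate_add_apply, add_comm]
    have hxi : x'.i = 0 := by rw [hx']; exact k4
    have hℓ' := x'.hℓ x'.j
    have hq : N₀ ≤ q := by
      by_contra hcon
      have h3 : x'.i + (q + 1) < x'.ℓ x'.j := by omega
      obtain ⟨j1, j2, j3, j4⟩ := PX.iter_lt (q + 1) x' h3
      rw [show e + 1 + q + 1 = e + 1 + (q + 1) by omega, hit] at hy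
      have h4 := hy.1
      rw [j4] at h4
      omega
    rw [show e + 1 + q + 1 = e + 1 + (q + 1) by omega, hit] at hy
    rw [hit] at ha ⊢
    have h5 := ih q (by omega) x' hT' (by omega) hy hq ha
    rw [← hx'] at h2
    refine (h2.trans h5).congr rfl (by omega) ?_
    refine ContinuousLinearMap.ext fun v => ?_
    show R τ (Dm A f (PX.nxt^[q] x').pt (b τ) (d.word x' (ids (V m)) q
      (d.word x (ids (V m)) (e + 1) v))) = R τ (Dm A f (PX.nxt^[q] x').pt (b τ)
        (d.word x (ids (V m)) (e + 1 + q) v))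
    rw [d.word_ids_add x (e + 1) q, hd.iter, ← hx']

/-- paths with a kick at the end -/
theorem path_to (hd : IsPc A d) {c : Coc M (V m)} (hc : IsDc A f c) {N₀ : ℕ}
    (hG : 2 * N₀ + 1 ≤ G) {a b : Fin T → M} {R : Fin T → V m →L[ℝ] V m} {tp : ι → Fin T}
    (τ : Fin T) {n : ℕ} {x : PX f nx G η} (hT : Typ x a b R tp) (hx : x.i + N₀ < x.ℓ x.j)
    (hn : N₀ + 1 ≤ n) (hy : PX.NP N₀ (PX.nxt^[n] x)) (ha : f (PX.nxt^[n - 1] x).pt = a τ)
    (hb : b τ = (PX.nxt^[n] x).pt) :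
    Pth A f N₀ a b R x.pt (PX.nxt^[n] x).pt n
      (R τ ∘L (d.word x (ids (V m)) n : V m →L[ℝ] V m)) := by
  obtain ⟨p, rfl⟩ : ∃ p, n = p + 1 := ⟨n - 1, by omega⟩
  rw [Nat.add_sub_cancel] at ha
  have h1 := path_gen hd hc hG τ p x hT hx hy (by omega) ha
  refine h1.congr hb rfl ?_
  refine ContinuousLinearMap.ext fun v => ?_
  show R τ (Dm A f (PX.nxt^[p] x).pt (b τ) (d.word x (ids (V m)) p v)) =
    R τ (d.word x (ids (V m)) (p + 1) v)
  rw [Coc.word_ids_succ', hd.A_eq, hd.iter, hb, Function.iterate_succ_apply' PX.nxt]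

end

end Pool.Agent.H245.SH
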