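import Pool.Agent.H245.SH.Y3

/-!
# The closed words along closed pseudo-orbits, at positions far from the jumps
-/

set_option autoImplicit false
set_option linter.unusedSectionVars false

open scoped Manifold ContDiff Topology NNReal
open Filter Set Metric

universe u v w

namespace Pool.Agent.H245.SH

open Pool.Agent.H718R2.G Pool.Agent.W564.SC Pool.Agent.TH80.OMS

namespace PX

variable {M : Type v} [MetricSpace M] {f : M → M} {ι : Type} {nx : ι ≃ ι} {G : ℕ} {η : ℝ}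

/-- the image of the previous point -/
def arr (x : PX f nx G η) : M := f x.prv.pt

theorem prv_of {x y : PX f nx G η} {p : ℕ} (h : nxt^[p + 1] x = y) : nxt^[p] x = y.prv := by
  rw [Function.iterate_succ_apply'] at h
  rw [← h, prv_nxt]

theorem dist_arr (hη : 0 < η) (x : PX f nx G η) : dist x.arr x.pt < η := by
  have h := x.prv.dist_nxt hη
  rwa [nxt_prv] at h

theorem arr_eq {x : PX f nx G η} (h : 0 < x.i) : x.arr = x.pt := by
  have h1 : x.prv = { x with i := x.i - 1, hi := Nat.lt_of_le_of_lt (Nat.sub_le _ _) x.hi } :=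
    dif_pos h
  unfold arr
  rw [h1]
  show f (f^[x.i - 1] (x.z x.j)) = f^[x.i] (x.z x.j)
  rw [← Function.iterate_succ_apply' f]
  congr 1
  omega

end PX

section

variable {m : ℕ} {M : Type v} [MetricSpace M] [CompactSpace M] [ChartedSpace (V m) M]
  [IsManifold (𝓡 m) ∞ M] {A : FAtlas m M} {f : M → M} {ι : Type} [Fintype ι] {nx : ι ≃ ι} {G : ℕ}
  {η : ℝ} {d : Coc (PX f nx G η) (V m)}

/-- the kinds of the jumps at the ends of the segments -/
noncomputable def tpj (ι : Type) [Fintype ι] (j : ι) : Fin (Fintype.card ι + 3) :=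
  Fin.castAdd 3 (Fintype.equivFin ι j)

/-- the additional kinds -/
def exk (ι : Type) [Fintype ι] (k : Fin 3) : Fin (Fintype.card ι + 3) := Fin.natAdd _ k

/-- the jumps, with additional ones -/
noncomputable def aa (x : PX f nx G η) (a₁ : Fin 3 → M) : Fin (Fintype.card ι + 3) → M :=
  Fin.append (fun t => f^[x.ℓ ((Fintype.equivFin ι).symm t)] (x.z ((Fintype.equivFin ι).symm t))) a₁

/-- the jumps, with additional ones -/
noncomputable def bb' (x : PX f nx G η) (b₁ : Fin 3 → M) : Fin (Fintype.card ι + 3) → M :=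
  Fin.append (fun t => x.z (nx ((Fintype.equivFin ι).symm t))) b₁

/-- the additional kicks -/
noncomputable def RR (ι : Type) [Fintype ι] (R₁ : Fin 3 → V m →L[ℝ] V m) :
    Fin (Fintype.card ι + 3) → V m →L[ℝ] V m :=
  Fin.append (fun _ => ContinuousLinearMap.id ℝ (V m)) R₁

theorem aa_ex (x : PX f nx G η) (a₁ : Fin 3 → M) (k : Fin 3) : aa x a₁ (exk ι k) = a₁ k :=
  Fin.append_right _ _ _

theorem bb_ex (x : PX f nx G η) (b₁ : Fin 3 → M) (k : Fin 3) : bb' x b₁ (exk ι k) = b₁ k :=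
  Fin.append_right _ _ _

theorem RR_ex (R₁ : Fin 3 → V m →L[ℝ] V m) (k : Fin 3) : RR ι R₁ (exk ι k) = R₁ k :=
  Fin.append_right _ _ _

theorem typ_app (x : PX f nx G η) (a₁ b₁ : Fin 3 → M) (R₁ : Fin 3 → V m →L[ℝ] V m) :
    Typ x (aa x a₁) (bb' x b₁) (RR ι R₁) (tpj ι) := by
  refine ⟨fun j => ?_, fun j => ?_, fun j => ?_⟩
  · unfold aa tpj
    rw [Fin.append_left, Equiv.symm_apply_apply]
  · unfold bb' tpj
    rw [Fin.append_left, Equiv.symm_apply_apply]
  · unfold RR tpj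
    rw [Fin.append_left]

theorem dist_app {ε : ℝ} (x : PX f nx G η) (hη : η ≤ ε) {a₁ b₁ : Fin 3 → M}
    (h : ∀ k, dist (a₁ k) (b₁ k) < ε) (t : Fin (Fintype.card ι + 3)) :
    dist (aa x a₁ t) (bb' x b₁ t) < ε := by
  unfold aa bb'
  induction t using Fin.addCases with
  | left t =>
    rw [Fin.append_left, Fin.append_left]
    exact (x.hη _).trans_le hη
  | right k =>
    rw [Fin.append_right, Fin.append_right]
    exact h k

theorem R_app {δ : ℝ} (hδ : 0 ≤ δ) {R₁ : Fin 3 → V m →L[ℝ] V m}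
    (h : ∀ k, ‖R₁ k - ContinuousLinearMap.id ℝ (V m)‖ ≤ δ) (t : Fin (Fintype.card ι + 3)) :
    ‖RR ι R₁ t - ContinuousLinearMap.id ℝ (V m)‖ ≤ δ := by
  unfold RR
  induction t using Fin.addCases with
  | left t =>
    rw [Fin.append_left]
    exact id_bound hδ
  | right k =>
    rw [Fin.append_right]
    exact h k

/-- the data of the closed words at a pseudo-orbit -/
structure Dat (A : FAtlas m M) (d : Coc (PX f nx G η) (V m)) (c : Coc M (V m)) (N₀ : ℕ)
    (ε ρ δ : ℝ) : Prop where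
  hd : IsPc A d
  hc : IsDc A f c
  hG : 2 * N₀ + 1 ≤ G
  h : KStarT (Fintype.card ι + 3) A f N₀ ε ρ
  hρ : 1 < ρ
  hδ : 0 < δ
  hδε : δ < ε
  hη : 0 < η
  hηε : η ≤ ε

variable {c : Coc M (V m)} {N₀ : ℕ} {ε ρ δ : ℝ}

/-- paths with additional kicks at the end -/
theorem Dat.path (D : Dat A d c N₀ ε ρ δ) {x₀ : PX f nx G η} {a₁ b₁ : Fin 3 → M}
    {R₁ : Fin 3 → V m →L[ℝ] V m} (k : Fin 3) {x y : PX f nx G η}
    (hT : Typ x (aa x₀ a₁) (bb' x₀ b₁) (RR ι R₁) (tpj ι)) {n : ℕ} (hxy : PX.nxt^[n] x = y)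
    (hx : PX.NP N₀ x) (hy : PX.NP N₀ y) (hn : N₀ + 1 ≤ n) (ha : a₁ k = y.arr) (hb : b₁ k = y.pt) :
    Pth A f N₀ (aa x₀ a₁) (bb' x₀ b₁) (RR ι R₁) x.pt y.pt n
      (R₁ k ∘L (d.word x (ids (V m)) n : V m →L[ℝ] V m)) := by
  obtain ⟨p, rfl⟩ : ∃ p, n = p + 1 := ⟨n - 1, by omega⟩
  have h1 := path_to D.hd D.hc D.hG (exk ι k) hT hx.2 hn (by rw [hxy]; exact hy) (by
    rw [Nat.add_sub_cancel, PX.prv_of hxy, aa_ex, ha]
    rfl) (by rw [bb_ex, hb, hxy])
  rw [hxy, RR_ex] at h1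
  exact h1

/-- `HL` from closed paths -/
theorem Dat.hl (D : Dat A d c N₀ ε ρ δ) (x₀ : PX f nx G η) {a₁ b₁ : Fin 3 → M}
    (hab : ∀ k, dist (a₁ k) (b₁ k) < ε) {Q : (V m →L[ℝ] V m) → Fin 3 → V m →L[ℝ] V m}
    (hQ : ∀ R, ‖R - ContinuousLinearMap.id ℝ (V m)‖ ≤ δ → ∀ t,
      ‖Q R t - ContinuousLinearMap.id ℝ (V m)‖ ≤ δ) {x : M} {n N : ℕ} (hn : 1 ≤ n) (hN : N ≤ n)
    {W : V m ≃L[ℝ] V m} (hW : ∀ R, ‖R - ContinuousLinearMap.id ℝ (V m)‖ ≤ δ →
      Pth A f N₀ (aa x₀ a₁) (bb' x₀ b₁) (RR ι (Q R)) x x n (R ∘L (W : V m →L[ℝ] V m))) :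
    HL δ ρ N W :=
  hl_pth D.hρ D.hδε D.h (dist_app x₀ D.hηε hab) (Q := fun R => RR ι (Q R))
    (fun R hR => R_app D.hδ.le (hQ R hR)) hn hN hW

theorem Dat.one (D : Dat A d c N₀ ε ρ δ) {x : PX f nx G η} {n : ℕ} (hx : d.f^[n] x = x)
    (hnp : PX.NP N₀ x) (hn : N₀ + 1 ≤ n) : Loop δ ρ (d.word x (ids (V m)) n) := by
  have hmul : ∀ k, PX.nxt^[n * k] x = x := fun k => by
    rw [← D.hd.iter]
    exact d.iter_mul hx k
  refine ⟨fun k hk => ?_, fun k l hk hl e he => ?_⟩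
  · have hnk : n ≤ n * k := Nat.le_mul_of_pos_right _ hk
    have hnk' : k ≤ n * k := Nat.le_mul_of_pos_left _ (by omega)
    refine D.hl x (a₁ := fun _ => x.arr) (b₁ := fun _ => x.pt)
      (fun _ => (x.dist_arr D.hη).trans_le D.hηε)
      (Q := fun R => ![ContinuousLinearMap.id ℝ (V m), ContinuousLinearMap.id ℝ (V m), R])
      (fun R hR => q_bound (id_bound D.hδ.le) (id_bound D.hδ.le) hR) (x := x.pt) (n := n * k)
      (by omega) hnk' fun R hR => ?_
    have h1 := D.path (x₀ := x) (a₁ := fun _ => x.arr) (b₁ := fun _ => x.pt)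
      (R₁ := ![ContinuousLinearMap.id ℝ (V m), ContinuousLinearMap.id ℝ (V m), R]) 2
      (typ_app x _ _ _) (hmul k) hnp hnp (by omega) rfl rfl
    refine h1.congr rfl rfl ?_
    rw [d.word_mul' hx]
    rfl
  · have hnk : n ≤ n * k := Nat.le_mul_of_pos_right _ hk
    have hnk' : k ≤ n * k := Nat.le_mul_of_pos_left _ (by omega)
    have hnl : n ≤ n * l := Nat.le_mul_of_pos_right _ hl
    have hnl' : l ≤ n * l := Nat.le_mul_of_pos_left _ (by omega)
    refine D.hl x (a₁ := fun _ => x.arr) (b₁ := fun _ => x.pt)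
      (fun _ => (x.dist_arr D.hη).trans_le D.hηε)
      (Q := fun R => ![(e : V m →L[ℝ] V m), ContinuousLinearMap.id ℝ (V m), R])
      (fun R hR => q_bound (near_norm D.hδ.le he) (id_bound D.hδ.le) hR) (x := x.pt)
      (n := n * k + n * l) (by omega) (by omega) fun R hR => ?_
    have h1 := D.path (x₀ := x) (a₁ := fun _ => x.arr) (b₁ := fun _ => x.pt)
      (R₁ := ![(e : V m →L[ℝ] V m), ContinuousLinearMap.id ℝ (V m), R]) 0
      (typ_app x _ _ _) (hmul k) hnp hnp (by omega) rfl rfl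
    have h2 := D.path (x₀ := x) (a₁ := fun _ => x.arr) (b₁ := fun _ => x.pt)
      (R₁ := ![(e : V m →L[ℝ] V m), ContinuousLinearMap.id ℝ (V m), R]) 2
      (typ_app x _ _ _) (hmul l) hnp hnp (by omega) rfl rfl
    refine (h1.trans h2).congr rfl rfl ?_
    rw [d.word_mul' hx, d.word_mul' hx]
    rfl

theorem Dat.two (D : Dat A d c N₀ ε ρ δ) {x y : PX f nx G η} {p l : ℕ}
    (hxy : d.f^[p] x = y) (hyx : d.f^[l] y = x) (hnx : PX.NP N₀ x) (hny : PX.NP N₀ y)
    (hp : N₀ + 1 ≤ p) (hl : N₀ + 1 ≤ l) {e₁ e₂ : V m ≃L[ℝ] V m}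
    (he₁ : Near δ e₁) (he₂ : Near δ e₂) {i j : ℕ} (hi : 1 ≤ i) :
    HL δ ρ (i + 1 + j) (d.word x (ids (V m)) (p + l) ^ j *
      (d.word y (ids (V m)) l * e₂ * d.word x (ids (V m)) p * e₁) *
        d.word x (ids (V m)) (p + l) ^ i) := by
  have hx : d.f^[p + l] x = x := by
    rw [add_comm, Function.iterate_add_apply, hxy, hyx]
  have hmul : ∀ k, PX.nxt^[(p + l) * k] x = x := fun k => by
    rw [← D.hd.iter]
    exact d.iter_mul hx k
  have hni : p + l ≤ (p + l) * i := Nat.le_mul_of_pos_right _ hi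
  have hni' : i ≤ (p + l) * i := Nat.le_mul_of_pos_left _ (by omega)
  have hnj' : j ≤ (p + l) * j := Nat.le_mul_of_pos_left _ (by omega)
  have hret' : PX.nxt^[l + (p + l) * j] y = x := by
    rw [add_comm l, Function.iterate_add_apply, ← D.hd.iter y, hyx, hmul]
  refine D.hl x (a₁ := ![x.arr, y.arr, x.arr]) (b₁ := ![x.pt, y.pt, x.pt])
    (fun k => by
      fin_cases k
      · exact (x.dist_arr D.hη).trans_le D.hηε
      · exact (y.dist_arr D.hη).trans_le D.hηε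
      · exact (x.dist_arr D.hη).trans_le D.hηε)
    (Q := fun R => ![(e₁ : V m →L[ℝ] V m), (e₂ : V m →L[ℝ] V m), R])
    (fun R hR => q_bound (near_norm D.hδ.le he₁) (near_norm D.hδ.le he₂) hR) (x := x.pt)
    (n := (p + l) * i + p + (l + (p + l) * j)) (by omega) (by omega) fun R hR => ?_
  have hTx := typ_app x ![x.arr, y.arr, x.arr] ![x.pt, y.pt, x.pt]
    (![(e₁ : V m →L[ℝ] V m), (e₂ : V m →L[ℝ] V m), R])
  have h1 := D.path 0 hTx (hmul i) hnx hnx (by omega) rfl rfl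
  have hpy : PX.nxt^[p] x = y := by rw [← D.hd.iter]; exact hxy
  have h2 := D.path 1 hTx hpy hnx hny (by omega) rfl rfl
  have hTy := hTx.iter p
  rw [hpy] at hTy
  have h3 := D.path 2 hTy hret' hny hnx (by omega) rfl rfl
  refine ((h1.trans h2).trans h3).congr rfl rfl ?_
  refine ContinuousLinearMap.ext fun v => ?_
  rw [d.word_mul' hx]
  show R (d.word y (ids (V m)) (l + (p + l) * j) (e₂ (d.word x (ids (V m)) p
    (e₁ ((d.word x (ids (V m)) (p + l) ^ i) v))))) = _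
  rw [d.word_ids_add, hyx, d.word_mul' hx]
  rfl

end

end Pool.Agent.H245.SH
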