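import Pool.Agent.H245.SH.Y4

/-!
# The closed words along closed pseudo-orbits with one more jump
-/

set_option autoImplicit false
set_option linter.unusedSectionVars false

open scoped Manifold ContDiff Topology NNReal
open Filter Set Metric

universe u v w

namespace Pool.Agent.H245.SH

open Pool.Agent.H718R2.G Pool.Agent.W564.SC Pool.Agent.TH80.OMS

section

variable {m : ℕ} {M : Type v} [MetricSpace M] [CompactSpace M] [ChartedSpace (V m) M]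
  [IsManifold (𝓡 m) ∞ M] {A : FAtlas m M} {f : M → M} {ι : Type} [Fintype ι] {nx : ι ≃ ι} {G : ℕ}
  {η : ℝ} {d : Coc (PX f nx G η) (V m)} {c : Coc M (V m)} {N₀ : ℕ} {ε ρ δ : ℝ}

/-- the words with a jump -/
structure JL (δ ρ CJ : ℝ) (n' : ℕ) (M₀ W : V m ≃L[ℝ] V m) (J : V m ≃L[ℝ] V m) : Prop where
  le : ∀ v, ‖J v‖ ≤ CJ * ‖v‖
  ge : ∀ v, ‖v‖ ≤ CJ * ‖J v‖
  hl : HL δ ρ n' (J * W)
  l1 : ∀ k l, 1 ≤ k + l → HL δ ρ (l + k) (M₀ ^ k * (J * W) ^ l)
  l2 : ∀ k l, 1 ≤ k + l → HL δ ρ (k + l) ((J * W) ^ l * M₀ ^ k)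

theorem Dat.three (D : Dat A d c N₀ ε ρ δ) {ε₁ : ℝ}
    (hDm : ∀ x y : M, dist (f x) y < ε₁ → ‖Dm A f x y‖ ≤ d.Λ ∧ ∀ u, ‖u‖ ≤ d.Λ * ‖Dm A f x y u‖)
    {x y : PX f nx G η} {n n' : ℕ} (hx : d.f^[n] x = x) (hxy : d.f^[n'] x = y)
    (hnx : PX.NP N₀ x) (hny : PX.NP N₀ y) (hn : N₀ + 1 ≤ n) (hn' : N₀ + 1 ≤ n')
    (hnear : dist y.arr x.pt < min ε ε₁) :
    ∃ J : V m ≃L[ℝ] V m, JL δ ρ (d.Λ * d.Λ) n' (d.word x (ids (V m)) n)
      (d.word x (ids (V m)) n') J := by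
  have hε : 0 < ε := D.hδ.trans D.hδε
  have hmul : ∀ k, PX.nxt^[n * k] x = x := fun k => by
    rw [← D.hd.iter]
    exact d.iter_mul hx k
  obtain ⟨p, rfl⟩ : ∃ p, n' = p + 1 := ⟨n' - 1, by omega⟩
  have hxy' : PX.nxt^[p + 1] x = y := by rw [← D.hd.iter]; exact hxy
  have hpy : PX.nxt^[p] x = y.prv := PX.prv_of hxy'
  obtain ⟨q, hq⟩ : ∃ q, q = y.prv := ⟨_, rfl⟩
  have hfq : f q.pt = y.arr := by rw [hq]; rfl
  have hdq : dist (f q.pt) x.pt < ε₁ := by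
    rw [hfq]
    exact hnear.trans_le (min_le_right _ _)
  obtain ⟨hD1, hD2⟩ := hDm q.pt x.pt hdq
  have hΛ := d.one_le
  obtain ⟨J, hJ⟩ : ∃ J : V m ≃L[ℝ] V m,
    J = (d.A q).symm.trans (mkE (Dm A f q.pt x.pt) hD2) := ⟨_, rfl⟩
  have hJv : ∀ v, J v = Dm A f q.pt x.pt ((d.A q).symm v) := fun v => by rw [hJ]; rfl
  obtain ⟨W, hW⟩ : ∃ W : V m ≃L[ℝ] V m, W = J * d.word x (ids (V m)) (p + 1) := ⟨_, rfl⟩
  have hWv : ∀ v, Dm A f q.pt x.pt (d.word x (ids (V m)) p v) = W v := by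
    intro v
    rw [hW]
    show _ = J (d.word x (ids (V m)) (p + 1) v)
    rw [hJv, Coc.word_ids_succ', D.hd.iter, hpy, ← hq, ContinuousLinearEquiv.symm_apply_apply]
  set a₁ : Fin 3 → M := ![y.arr, y.arr, x.arr] with ha₁
  set b₁ : Fin 3 → M := fun _ => x.pt with hb₁
  have hab : ∀ t, dist (a₁ t) (b₁ t) < ε := by
    intro t
    fin_cases t
    · exact hnear.trans_le (min_le_left _ _)
    · exact hnear.trans_le (min_le_left _ _)
    · exact (x.dist_arr D.hη).trans_le D.hηε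
  set Q : (V m →L[ℝ] V m) → Fin 3 → V m →L[ℝ] V m :=
    fun R => ![ContinuousLinearMap.id ℝ (V m), R, R] with hQ
  have hQb : ∀ R, ‖R - ContinuousLinearMap.id ℝ (V m)‖ ≤ δ → ∀ t,
      ‖Q R t - ContinuousLinearMap.id ℝ (V m)‖ ≤ δ := fun R hR => q_bound (id_bound D.hδ.le) hR hR
  have hT : ∀ R, Typ x (aa x a₁) (bb' x b₁) (RR ι (Q R)) (tpj ι) := fun R => typ_app x _ _ _
  -- the loop of type 2
  have h2 : ∀ (R : V m →L[ℝ] V m) k, 1 ≤ k → Pth A f N₀ (aa x a₁) (bb' x b₁) (RR ι (Q R)) x.pt x.pt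
      (n * k) (R ∘L ((d.word x (ids (V m)) n ^ k : V m ≃L[ℝ] V m) : V m →L[ℝ] V m)) := by
    intro R k hk
    have hnk : n ≤ n * k := Nat.le_mul_of_pos_right _ hk
    have h3 := D.path 2 (hT R) (hmul k) hnx hnx (by omega) rfl rfl
    rw [d.word_mul' hx] at h3
    exact h3
  -- the loops with a jump
  have h1 : ∀ (R : V m →L[ℝ] V m) (k : Fin 3) (s : ℕ), (k = 0 ∨ k = 1) →
      Pth A f N₀ (aa x a₁) (bb' x b₁) (RR ι (Q R)) x.pt x.pt
      (n * s + (p + 1)) (Q R k ∘L ((W * d.word x (ids (V m)) n ^ s : V m ≃L[ℝ] V m) :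
        V m →L[ℝ] V m)) := by
    intro R k s hk
    have hit : ∀ t, PX.nxt^[n * s + t] x = PX.nxt^[t] x := fun t => by
      rw [add_comm, Function.iterate_add_apply, hmul]
    have hak : a₁ k = y.arr := by
      rcases hk with rfl | rfl <;> rfl
    have h3 := path_gen D.hd D.hc D.hG (exk ι k) (n * s + p) x (hT R) hnx.2
      (by rw [show n * s + p + 1 = n * s + (p + 1) by ring, hit, hxy']; exact hny) (by omega)
      (by rw [hit, hpy, aa_ex, hak]; rfl)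
    rw [bb_ex, RR_ex, hit, hpy, ← hq] at h3
    refine h3.congr rfl (by ring) ?_
    refine ContinuousLinearMap.ext fun v => ?_
    show Q R k (Dm A f q.pt x.pt (d.word x (ids (V m)) (n * s + p) v)) =
      Q R k (W ((d.word x (ids (V m)) n ^ s) v))
    rw [d.word_ids_add, d.word_mul hx, d.iter_mul hx, hWv]
  have h10 : ∀ (R : V m →L[ℝ] V m), Pth A f N₀ (aa x a₁) (bb' x b₁) (RR ι (Q R)) x.pt x.pt
      (p + 1) (W : V m →L[ℝ] V m) := by
    intro R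
    refine (h1 R 0 0 (Or.inl rfl)).congr rfl (by ring) ?_
    rw [pow_zero, mul_one]
    rfl
  have hpw : ∀ (U : V m ≃L[ℝ] V m) (l : ℕ), ((U ^ l : V m ≃L[ℝ] V m) : V m →L[ℝ] V m) =
      (U : V m →L[ℝ] V m) ^ l := fun U l => coe_pow U l
  -- powers of `W`
  have hWl : ∀ l, 1 ≤ l → ∀ R : V m →L[ℝ] V m, Pth A f N₀ (aa x a₁) (bb' x b₁) (RR ι (Q R)) x.pt
      x.pt (l * (p + 1)) (R ∘L ((W ^ l : V m ≃L[ℝ] V m) : V m →L[ℝ] V m)) := by
    intro l hl R
    obtain ⟨l, rfl⟩ : ∃ l', l = l' + 1 := ⟨l - 1, by omega⟩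
    refine (((h10 R).pow l).trans (h1 R 1 0 (Or.inr rfl))).congr rfl (by ring) ?_
    rw [pow_zero, mul_one, hpw, pow_succ']
    rfl
  have key : ∀ (n₁ N : ℕ) (W' : V m ≃L[ℝ] V m), 1 ≤ n₁ → N ≤ n₁ →
      (∀ R : V m →L[ℝ] V m, Pth A f N₀ (aa x a₁) (bb' x b₁) (RR ι (Q R)) x.pt x.pt n₁
        (R ∘L (W' : V m →L[ℝ] V m))) → HL δ ρ N W' := fun n₁ N W' h3 h4 h5 =>
    D.hl x hab hQb h3 h4 fun R _ => h5 R
  refine ⟨J, fun v => ?_, fun v => ?_, ?_, fun k l hkl => ?_, fun k l hkl => ?_⟩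
  · rw [hJv]
    have e1 := d.bd' q v
    calc ‖Dm A f q.pt x.pt ((d.A q).symm v)‖ ≤ ‖Dm A f q.pt x.pt‖ * ‖(d.A q).symm v‖ :=
          (Dm A f q.pt x.pt).le_opNorm _
      _ ≤ d.Λ * (d.Λ * ‖v‖) := by gcongr
      _ = _ := by ring
  · have e1 := d.bd q ((d.A q).symm v)
    rw [ContinuousLinearEquiv.apply_symm_apply] at e1
    have e2 := hD2 ((d.A q).symm v)
    rw [← hJv] at e2
    calc ‖v‖ ≤ d.Λ * ‖(d.A q).symm v‖ := e1
      _ ≤ d.Λ * (d.Λ * ‖J v‖) := by gcongr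
      _ = _ := by ring
  · rw [← hW]
    refine key (p + 1) (p + 1) W (by omega) le_rfl fun R => ?_
    refine (hWl 1 le_rfl R).congr rfl (by ring) ?_
    rw [pow_one]
  · rw [← hW]
    rcases Nat.eq_zero_or_pos k with rfl | hk
    · rw [pow_zero, one_mul, add_zero]
      exact key (l * (p + 1)) l (W ^ l) (Nat.mul_pos (by omega) (by omega))
        (Nat.le_mul_of_pos_right _ (by omega)) (hWl l (by omega))
    · have hnk : n ≤ n * k := Nat.le_mul_of_pos_right _ hk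
      have hnk' : k ≤ n * k := Nat.le_mul_of_pos_left _ (by omega)
      have hlp : l ≤ l * (p + 1) := Nat.le_mul_of_pos_right _ (by omega)
      refine key (l * (p + 1) + n * k) (l + k) _ (by omega) (by omega) fun R => ?_
      refine (((h10 R).pow l).trans (h2 R k hk)).congr rfl rfl ?_
      rw [← hpw]
      rfl
  · rw [← hW]
    rcases Nat.eq_zero_or_pos l with rfl | hl
    · rw [pow_zero, one_mul, add_zero]
      have hk : 1 ≤ k := by omega
      have hnk : n ≤ n * k := Nat.le_mul_of_pos_right _ hk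
      exact key (n * k) k _ (by omega) (Nat.le_mul_of_pos_left _ (by omega)) fun R => h2 R k hk
    · have hnk' : k ≤ n * k := Nat.le_mul_of_pos_left _ (by omega)
      obtain ⟨l, rfl⟩ : ∃ l', l = l' + 1 := ⟨l - 1, by omega⟩
      rcases Nat.eq_zero_or_pos l with rfl | hl
      · refine key (n * k + (p + 1)) _ _ (by omega) (by omega) fun R => ?_
        refine (h1 R 1 k (Or.inr rfl)).congr rfl rfl ?_
        rw [zero_add, pow_one]
        rfl
      · have hlp : l ≤ l * (p + 1) := Nat.le_mul_of_pos_right _ (by omega)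
        refine key ((n * k + (p + 1)) + l * (p + 1)) _ _ (by omega) (by omega) fun R => ?_
        refine ((h1 R 0 k (Or.inl rfl)).trans (hWl l hl R)).congr rfl rfl ?_
        rw [pow_succ]
        rfl

end

end Pool.Agent.H245.SH
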