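import Pool.Agent.H245.SH.Y5

/-!
# Conjugation of closed words: from normal positions to all positions
-/

set_option autoImplicit false
set_option linter.unusedSectionVars false

open Filter Set Metric
open scoped Topology

universe u v w

namespace Pool.Agent.H245.SH

variable {E : Type} [NormedAddCommGroup E] [InnerProductSpace ℝ E] [FiniteDimensional ℝ E]

theorem near_conj {δ B : ℝ} (hδ : 0 ≤ δ) (hB : 1 ≤ B) {D e : E ≃L[ℝ] E} (hD : ∀ v, ‖D v‖ ≤ B * ‖v‖)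
    (hD' : ∀ v, ‖v‖ ≤ B * ‖D v‖) (he : Near (δ / B ^ 2) e) : Near δ (D * e * D⁻¹) := by
  have hB0 : 0 < B := by linarith
  have hinv : ∀ v, ‖D⁻¹ v‖ ≤ B * ‖v‖ := by
    intro v
    have h1 := hD' (D⁻¹ v)
    have h2 : D (D⁻¹ v) = v := D.apply_symm_apply v
    rwa [h2] at h1
  have key : ∀ g : E → E, (∀ v, ‖g v - v‖ ≤ δ / B ^ 2 * ‖v‖) → ∀ v,
      ‖D (g (D⁻¹ v)) - v‖ ≤ δ * ‖v‖ := by
    intro g hg v
    have h2 : D (D⁻¹ v) = v := D.apply_symm_apply v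
    have h3 : D (g (D⁻¹ v)) - v = D (g (D⁻¹ v) - D⁻¹ v) := by rw [map_sub, h2]
    rw [h3]
    calc ‖D (g (D⁻¹ v) - D⁻¹ v)‖ ≤ B * ‖g (D⁻¹ v) - D⁻¹ v‖ := hD _
      _ ≤ B * (δ / B ^ 2 * (B * ‖v‖)) := by
        gcongr
        exact (hg _).trans (by gcongr; exact hinv v)
      _ = δ * ‖v‖ := by field_simp
  exact ⟨fun v => key e he.1 v, fun v => key e.symm he.2 v⟩

theorem HL.conj {δ ρ B : ℝ} {N : ℕ} (hδ : 0 ≤ δ) (hB : 1 ≤ B) {W W' D : E ≃L[ℝ] E}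
    (hD : ∀ v, ‖D v‖ ≤ B * ‖v‖) (hD' : ∀ v, ‖v‖ ≤ B * ‖D v‖) (h : HL δ ρ N W')
    (hW : D * W = W' * D) : HL (δ / B ^ 2) ρ N W := by
  have hB0 : 0 < B := by linarith
  have hinv : ∀ v, ‖D.symm v‖ ≤ B * ‖v‖ := by
    intro v
    have h1 := hD' (D.symm v)
    rwa [D.apply_symm_apply] at h1
  intro R hR s h1 h2
  obtain ⟨R', hR'⟩ : ∃ R' : E →L[ℝ] E, R' = (D : E →L[ℝ] E) ∘L (R ∘L (D.symm : E →L[ℝ] E)) :=
    ⟨_, rfl⟩
  have h3 : ‖R' - ContinuousLinearMap.id ℝ E‖ ≤ δ := by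
    refine ContinuousLinearMap.opNorm_le_bound _ hδ fun v => ?_
    have e1 : (R' - ContinuousLinearMap.id ℝ E) v =
        D ((R - ContinuousLinearMap.id ℝ E) (D.symm v)) := by
      rw [hR']
      show D (R (D.symm v)) - v = D (R (D.symm v) - D.symm v)
      rw [map_sub, D.apply_symm_apply]
    rw [e1]
    calc _ ≤ B * ‖(R - ContinuousLinearMap.id ℝ E) (D.symm v)‖ := hD _
      _ ≤ B * (δ / B ^ 2 * (B * ‖v‖)) := by
        gcongr
        refine (ContinuousLinearMap.le_opNorm _ _).trans ?_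
        gcongr
        exact hinv v
      _ = δ * ‖v‖ := by field_simp
  have h4 := h R' h3 s h1 h2
  have e2 : s • (R' ∘L (W' : E →L[ℝ] E)) =
      (D : E →L[ℝ] E) ∘L ((s • (R ∘L (W : E →L[ℝ] E))) ∘L (D.symm : E →L[ℝ] E)) := by
    ext1 v
    have e3 : D.symm (W' v) = W (D.symm v) := by
      have := DFunLike.congr_fun hW (D.symm v)
      have e4 : D (W (D.symm v)) = W' (D (D.symm v)) := this
      rw [D.apply_symm_apply] at e4
      rw [← e4, D.symm_apply_apply]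
    rw [hR']
    show s • D (R (D.symm (W' v))) = D (s • R (W (D.symm v)))
    rw [e3, map_smul]
  have e5 : cp (s • (R ∘L (W : E →L[ℝ] E))) = cp (s • (R' ∘L (W' : E →L[ℝ] E))) := by
    rw [e2, cp_comm]
    congr 1
    ext1 v
    show _ = (s • (R ∘L (W : E →L[ℝ] E))) (D.symm (D v))
    rw [D.symm_apply_apply]
  intro μ hμ
  rw [e5] at hμ
  exact h4 μ hμ

theorem conj_mul {D W₁ W₂ U₁ U₂ D' D'' : E ≃L[ℝ] E} (h1 : D' * W₁ = U₁ * D)
    (h2 : D'' * W₂ = U₂ * D') : D'' * (W₂ * W₁) = (U₂ * U₁) * D := by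
  rw [← mul_assoc, h2, mul_assoc, h1, mul_assoc]

theorem conj_pow {D W U : E ≃L[ℝ] E} (h : D * W = U * D) (k : ℕ) : D * W ^ k = U ^ k * D := by
  induction k with
  | zero => rw [pow_zero, pow_zero, mul_one, one_mul]
  | succ k ih => rw [pow_succ', pow_succ', conj_mul ih h]

theorem conj_kick (D e : E ≃L[ℝ] E) : D * e = (D * e * D⁻¹) * D := by
  rw [mul_assoc, mul_assoc, inv_mul_cancel, mul_one]

/-- conjugated loops -/
theorem Loop.conj {δ ρ B : ℝ} (hδ : 0 ≤ δ) (hB : 1 ≤ B) {W W' D : E ≃L[ℝ] E}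
    (hD : ∀ v, ‖D v‖ ≤ B * ‖v‖) (hD' : ∀ v, ‖v‖ ≤ B * ‖D v‖) (h : Loop δ ρ W')
    (hW : D * W = W' * D) : Loop (δ / B ^ 2) ρ W := by
  refine ⟨fun k hk => HL.conj hδ hB hD hD' (h.1 k hk) (conj_pow hW k), fun k l hk hl e he => ?_⟩
  refine HL.conj hδ hB hD hD' (h.2 k l hk hl _ (near_conj hδ hB hD hD' he)) ?_
  exact conj_mul (conj_pow hW k) (conj_mul (conj_kick D e) (conj_pow hW l))

theorem JL.conj {δ ρ B CJ : ℝ} (hδ : 0 ≤ δ) (hB : 1 ≤ B) (hCJ : 0 ≤ CJ) {n' : ℕ}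
    {M₀ M₀' W W' J' D D' : E ≃L[ℝ] E} (hD : ∀ v, ‖D v‖ ≤ B * ‖v‖) (hD' : ∀ v, ‖v‖ ≤ B * ‖D v‖)
    (hE : ∀ v, ‖D' v‖ ≤ B * ‖v‖) (hE' : ∀ v, ‖v‖ ≤ B * ‖D' v‖)
    (hJ : (∀ v, ‖J' v‖ ≤ CJ * ‖v‖) ∧ (∀ v, ‖v‖ ≤ CJ * ‖J' v‖) ∧ HL δ ρ n' (J' * W') ∧
      (∀ k l, 1 ≤ k + l → HL δ ρ (l + k) (M₀' ^ k * (J' * W') ^ l)) ∧
      ∀ k l, 1 ≤ k + l → HL δ ρ (k + l) ((J' * W') ^ l * M₀' ^ k))
    (hM : D * M₀ = M₀' * D) (hW : D' * W = W' * D) :
    ∃ J : E ≃L[ℝ] E, (∀ v, ‖J v‖ ≤ B ^ 2 * CJ * ‖v‖) ∧ (∀ v, ‖v‖ ≤ B ^ 2 * CJ * ‖J v‖) ∧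
      HL (δ / B ^ 2) ρ n' (J * W) ∧
      (∀ k l, 1 ≤ k + l → HL (δ / B ^ 2) ρ (l + k) (M₀ ^ k * (J * W) ^ l)) ∧
      ∀ k l, 1 ≤ k + l → HL (δ / B ^ 2) ρ (k + l) ((J * W) ^ l * M₀ ^ k) := by
  have hB0 : 0 < B := by linarith
  obtain ⟨j1, j2, j3, j4, j5⟩ := hJ
  have hinv : ∀ v, ‖D⁻¹ v‖ ≤ B * ‖v‖ := by
    intro v
    have h1 := hD' (D⁻¹ v)
    have h2 : D (D⁻¹ v) = v := D.apply_symm_apply v
    rwa [h2] at h1
  have hJW : D * (D⁻¹ * J' * D' * W) = (J' * W') * D := by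
    rw [mul_assoc (D⁻¹ * J') D' W, hW]
    group
  refine ⟨D⁻¹ * J' * D', fun v => ?_, fun v => ?_, ?_, fun k l hkl => ?_, fun k l hkl => ?_⟩
  · show ‖D⁻¹ (J' (D' v))‖ ≤ _
    calc _ ≤ B * ‖J' (D' v)‖ := hinv _
      _ ≤ B * (CJ * (B * ‖v‖)) := by
        gcongr
        exact (j1 _).trans (by gcongr; exact hE v)
      _ = _ := by ring
  · show _ ≤ _ * ‖D⁻¹ (J' (D' v))‖
    have h2 : D (D⁻¹ (J' (D' v))) = J' (D' v) := D.apply_symm_apply _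
    have h3 := hD (D⁻¹ (J' (D' v)))
    rw [h2] at h3
    calc ‖v‖ ≤ B * ‖D' v‖ := hE' v
      _ ≤ B * (CJ * ‖J' (D' v)‖) := by
        gcongr
        exact j2 _
      _ ≤ B * (CJ * (B * ‖D⁻¹ (J' (D' v))‖)) := by gcongr
      _ = _ := by ring
  · exact HL.conj hδ hB hD hD' j3 hJW
  · exact HL.conj hδ hB hD hD' (j4 k l hkl) (conj_mul (conj_pow hJW l) (conj_pow hM k))
  · exact HL.conj hδ hB hD hD' (j5 k l hkl) (conj_mul (conj_pow hM k) (conj_pow hJW l))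

namespace Coc

variable {X : Type u} (d : Coc X E)

theorem word_norm (x : X) (n : ℕ) (v : E) : ‖d.word x (ids E) n v‖ ≤ d.Λ ^ n * ‖v‖ := by
  have hΛ := d.one_le
  induction n with
  | zero => simp [d.word_zero]
  | succ n ih =>
    rw [word_ids_succ']
    calc _ ≤ d.Λ * ‖d.word x (ids E) n v‖ := d.bd _ _
      _ ≤ d.Λ * (d.Λ ^ n * ‖v‖) := by gcongr
      _ = _ := by ring

theorem word_norm' (x : X) (n : ℕ) (v : E) : ‖v‖ ≤ d.Λ ^ n * ‖d.word x (ids E) n v‖ := by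
  have hΛ := d.one_le
  induction n with
  | zero => simp [d.word_zero]
  | succ n ih =>
    rw [word_ids_succ']
    have h1 := d.bd' (d.f^[n] x) (d.A (d.f^[n] x) (d.word x (ids E) n v))
    rw [ContinuousLinearEquiv.symm_apply_apply] at h1
    calc ‖v‖ ≤ d.Λ ^ n * ‖d.word x (ids E) n v‖ := ih
      _ ≤ d.Λ ^ n * (d.Λ * ‖d.A (d.f^[n] x) (d.word x (ids E) n v)‖) := by gcongr
      _ = _ := by ring

theorem word_comp (x : X) (a b : ℕ) : d.word x (ids E) (a + b) =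
    d.word (d.f^[a] x) (ids E) b * d.word x (ids E) a :=
  ContinuousLinearEquiv.ext (funext fun v => d.word_ids_add x a b v)

/-- shifted words -/
theorem word_shift {x y : X} {p a b : ℕ} (hxy : d.f^[p] x = y) (hab : a ≤ p + b) :
    d.word y (ids E) b * d.word x (ids E) p =
      d.word (d.f^[a] x) (ids E) (p + b - a) * d.word x (ids E) a := by
  rw [← d.word_comp x a, ← hxy, ← d.word_comp x p, Nat.add_sub_cancel' hab]

/-- **From normal positions to all positions.** -/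
theorem cl_of_np {NP : X → Prop} {nr : X → ℕ} {K₀ : ℕ} (hnr : ∀ x, nr x ≤ K₀)
    (hNP : ∀ x, NP (d.f^[nr x] x)) {δ ρ CJ : ℝ} (hδ : 0 ≤ δ) (hCJ : 0 ≤ CJ) {N₁ : ℕ}
    {near' : X → X → Prop}
    (one : ∀ x n, NP x → d.f^[n] x = x → N₁ ≤ n → Loop δ ρ (d.word x (ids E) n))
    (two : ∀ x y p l, NP x → NP y → d.f^[p] x = y → d.f^[l] y = x → N₁ ≤ p → N₁ ≤ l →
      ∀ e₁ e₂, Near δ e₁ → Near δ e₂ → ∀ i j, 1 ≤ i → HL δ ρ (i + 1 + j)
        (d.word x (ids E) (p + l) ^ j * (d.word y (ids E) l * e₂ * d.word x (ids E) p * e₁) *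
          d.word x (ids E) (p + l) ^ i))
    (three : ∀ x y n n', NP x → NP y → d.f^[n] x = x → d.f^[n'] x = y → N₁ ≤ n → N₁ ≤ n' →
      near' x y → ∃ J : E ≃L[ℝ] E, (∀ v, ‖J v‖ ≤ CJ * ‖v‖) ∧ (∀ v, ‖v‖ ≤ CJ * ‖J v‖) ∧
        HL δ ρ n' (J * d.word x (ids E) n') ∧
        (∀ k l, 1 ≤ k + l → HL δ ρ (l + k)
          (d.word x (ids E) n ^ k * (J * d.word x (ids E) n') ^ l)) ∧
        ∀ k l, 1 ≤ k + l → HL δ ρ (k + l)
          ((J * d.word x (ids E) n') ^ l * d.word x (ids E) n ^ k)) :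
    d.Cl (δ / (d.Λ ^ K₀) ^ 2) ρ ((d.Λ ^ K₀) ^ 2 * CJ) (N₁ + K₀)
      (fun x y => nr x = nr y ∧ ((∃ s, d.f^[s] x = y) → near' (d.f^[nr x] x) (d.f^[nr y] y))) := by
  have hΛ := d.one_le
  have hB : 1 ≤ d.Λ ^ K₀ := one_le_pow₀ hΛ
  have hD : ∀ x v, ‖d.word x (ids E) (nr x) v‖ ≤ d.Λ ^ K₀ * ‖v‖ := fun x v =>
    (d.word_norm x _ v).trans (by
      gcongr
      exact hnr x)
  have hD' : ∀ x v, ‖v‖ ≤ d.Λ ^ K₀ * ‖d.word x (ids E) (nr x) v‖ := fun x v =>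
    (d.word_norm' x (nr x) v).trans (by
      gcongr
      exact hnr x)
  have hper : ∀ {x : X} {n : ℕ} (a : ℕ), d.f^[n] x = x → d.f^[n] (d.f^[a] x) = d.f^[a] x := by
    intro x n a hx
    rw [← Function.iterate_add_apply, add_comm, Function.iterate_add_apply, hx]
  have hM : ∀ {x : X} {n : ℕ}, d.f^[n] x = x → d.word x (ids E) (nr x) * d.word x (ids E) n =
      d.word (d.f^[nr x] x) (ids E) n * d.word x (ids E) (nr x) := by
    intro x n hx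
    have h1 := d.word_shift hx (a := nr x) (b := nr x) (by omega)
    rwa [Nat.add_sub_cancel] at h1
  refine ⟨fun x n hx hn => ?_, ?_, ?_⟩
  · exact Loop.conj hδ hB (hD x) (hD' x) (one _ n (hNP x) (hper _ hx) (by omega)) (hM hx)
  · intro x p l hx hp hl e₁ e₂ he₁ he₂ i j hi
    obtain ⟨y, hy⟩ : ∃ y, y = d.f^[p] x := ⟨_, rfl⟩
    have hyx : d.f^[l] y = x := by
      rw [hy, ← Function.iterate_add_apply, add_comm]
      exact hx
    have hax := hnr x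
    have hay := hnr y
    have h1 := d.word_shift hy.symm (a := nr x) (b := nr y) (by omega)
    have h2 := d.word_shift hyx (a := nr y) (b := nr x) (by omega)
    have h3 : d.f^[p + nr y - nr x] (d.f^[nr x] x) = d.f^[nr y] y := by
      rw [← Function.iterate_add_apply, Nat.sub_add_cancel (by omega), hy,
        ← Function.iterate_add_apply, add_comm]
    have h4 : d.f^[l + nr x - nr y] (d.f^[nr y] y) = d.f^[nr x] x := by
      rw [← Function.iterate_add_apply, Nat.sub_add_cancel (by omega), ← hyx,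
        ← Function.iterate_add_apply, hyx, add_comm]
    have h5 := two _ _ _ _ (hNP x) (hNP y) h3 h4 (by omega) (by omega) _ _
      (near_conj hδ hB (hD x) (hD' x) he₁) (near_conj hδ hB (hD y) (hD' y) he₂) i j hi
    rw [show p + nr y - nr x + (l + nr x - nr y) = p + l by omega] at h5
    refine HL.conj hδ hB (hD x) (hD' x) h5 ?_
    rw [← hy]
    exact conj_mul (conj_pow (hM hx) i) (conj_mul (conj_mul (conj_kick _ e₁)
      (conj_mul h1 (conj_mul (conj_kick _ e₂) h2))) (conj_pow (hM hx) j))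
  · intro x n n' hx hn hn' hnear
    obtain ⟨y, hy⟩ : ∃ y, y = d.f^[n'] x := ⟨_, rfl⟩
    rw [← hy] at hnear
    obtain ⟨hab, hnear'⟩ := hnear
    have h1 := d.word_shift hy.symm (a := nr x) (b := nr y) (by omega)
    rw [← hab, Nat.add_sub_cancel] at h1
    have h3 : d.f^[n'] (d.f^[nr x] x) = d.f^[nr y] y := by
      rw [← hab, hy, ← Function.iterate_add_apply, ← Function.iterate_add_apply, add_comm]
    obtain ⟨J, hJ⟩ := three _ _ n n' (hNP x) (hNP y) (hper _ hx) h3 (by omega) (by omega)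
      (hnear' ⟨n', hy.symm⟩)
    have hDy := hD y
    have hDy' := hD' y
    rw [← hab] at hDy hDy'
    exact JL.conj hδ hB hCJ (hD x) (hD' x) hDy hDy' hJ (hM hx) h1

end Coc

end Pool.Agent.H245.SH
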