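import Pool.Agent.H245.SH.Y6

/-!
# Closed pseudo-orbits with boundedly many jumps are uniformly hyperbolic
-/

set_option autoImplicit false
set_option linter.unusedSectionVars false

open scoped Manifold ContDiff Topology NNReal
open Filter Set Metric

universe u v w

namespace Pool.Agent.H245.SH

open Pool.Agent.H718R2.G Pool.Agent.W564.SC Pool.Agent.TH80.OMS

namespace PX

variable {M : Type v} [MetricSpace M] {f : M → M} {ι : Type} {nx : ι ≃ ι} {G : ℕ} {η : ℝ}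

/-- the number of steps to a normal position -/
def nr (N₀ : ℕ) (x : PX f nx G η) : ℕ :=
  if x.i + N₀ < x.ℓ x.j then (if x.i = 0 ∨ N₀ < x.i then 0 else N₀ + 1 - x.i) else x.ℓ x.j - x.i

theorem nr_le (N₀ : ℕ) (x : PX f nx G η) : nr N₀ x ≤ N₀ := by
  unfold nr
  split_ifs with h1 h2
  · exact Nat.zero_le _
  · omega
  · omega

theorem np_nr {N₀ : ℕ} (hG : 2 * N₀ + 1 ≤ G) (x : PX f nx G η) : NP N₀ (nxt^[nr N₀ x] x) := by
  have hℓ := x.hℓ x.j
  have hi := x.hi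
  by_cases h1 : x.i + N₀ < x.ℓ x.j
  · by_cases h2 : x.i = 0 ∨ N₀ < x.i
    · have h3 : nr N₀ x = 0 := by
        unfold nr
        rw [if_pos h1, if_pos h2]
      rw [h3]
      exact ⟨h2, h1⟩
    · have h3 : nr N₀ x = N₀ + 1 - x.i := by
        unfold nr
        rw [if_pos h1, if_neg h2]
      rw [h3]
      obtain ⟨k1, k2, k3, k4⟩ := iter_lt (N₀ + 1 - x.i) x (by omega)
      unfold NP
      rw [k4, k2, k3]
      omega
  · have h3 : nr N₀ x = x.ℓ x.j - x.i := by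
      unfold nr
      rw [if_neg h1]
    obtain ⟨e, he⟩ : ∃ e, x.ℓ x.j - x.i = e + 1 := ⟨x.ℓ x.j - x.i - 1, by omega⟩
    rw [h3, he]
    obtain ⟨k1, k2, k3, k4⟩ := iter_eq (n := e) (x := x) (by omega)
    have h4 := (nxt^[e + 1] x).hℓ (nxt^[e + 1] x).j
    unfold NP
    rw [k4]
    omega

/-- all positions are periodic -/
theorem periodic [Finite ι] (x : PX f nx G η) : ∃ n, 1 ≤ n ∧ nxt^[n] x = x := by
  classical
  have hinj : Function.Injective (nxt : PX f nx G η → PX f nx G η) := shift.injective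
  -- the positions on the same pseudo-orbit
  let S := {y : PX f nx G η // y.z = x.z ∧ y.ℓ = x.ℓ}
  let φ : S → Σ j : ι, Fin (x.ℓ j) := fun y => ⟨y.1.j, ⟨y.1.i, by
    have := y.1.hi
    rw [y.2.2] at this
    exact this⟩⟩
  have hφ : Function.Injective φ := by
    rintro ⟨y, hy1, hy2⟩ ⟨y', hy1', hy2'⟩ h
    have h1 := Sigma.mk.inj_iff.1 h
    have h2 : y.j = y'.j := h1.1
    have h3 : y.i = y'.i := by
      have h4 := h1.2
      simp only at h4 h2
      have h5 : ∀ (j j' : ι) (a : Fin (x.ℓ j)) (a' : Fin (x.ℓ j')), j = j' → HEq a a' →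
          (a : ℕ) = a' := by
        intro j j' a a' hj ha
        subst hj
        rw [eq_of_heq ha]
      exact h5 _ _ _ _ h2 h4
    exact Subtype.ext (PX.ext (hy1.trans hy1'.symm) (hy2.trans hy2'.symm) h2 h3)
  have : Finite S := Finite.of_injective φ hφ
  obtain ⟨a, b, hab, hne⟩ : ∃ a b : ℕ, (⟨nxt^[a] x, iter_zl a x⟩ : S) = ⟨nxt^[b] x, iter_zl b x⟩ ∧
      a < b := by
    obtain ⟨a, b, hne, hab⟩ := Finite.exists_ne_map_eq_of_infinite
      (fun a : ℕ => (⟨nxt^[a] x, iter_zl a x⟩ : S))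
    rcases Nat.lt_or_gt_of_ne hne with h | h
    · exact ⟨a, b, hab, h⟩
    · exact ⟨b, a, hab.symm, h⟩
  have h1 : nxt^[a] x = nxt^[b] x := congrArg Subtype.val hab
  refine ⟨b - a, by omega, ?_⟩
  have h2 : nxt^[a] (nxt^[b - a] x) = nxt^[a] x := by
    rw [← Function.iterate_add_apply, Nat.add_sub_cancel' hne.le, h1]
  exact hinj.iterate a h2

end PX

section

variable {m : ℕ} {M : Type v} [MetricSpace M] [CompactSpace M] [ChartedSpace (V m) M]
  [IsManifold (𝓡 m) ∞ M] {A : FAtlas m M} {f : M → M} {ι : Type} [Fintype ι] {nx : ι ≃ ι} {G : ℕ}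
  {η : ℝ} {d : Coc (PX f nx G η) (V m)} {c : Coc M (V m)} {N₀ : ℕ} {ε ρ δ : ℝ}

/-- **The closed pseudo-orbits are uniformly hyperbolic.** -/
theorem Dat.uniform (D : Dat A d c N₀ ε ρ δ) (hδ1 : δ ≤ 1) {ε₁ : ℝ} (hηε₁ : η ≤ ε₁)
    (hDm : ∀ x y : M, dist (f x) y < ε₁ → ‖Dm A f x y‖ ≤ d.Λ ∧ ∀ u, ‖u‖ ≤ d.Λ * ‖Dm A f x y u‖) :
    ∃ C₇ ≥ 1, ∀ x : PX f nx G η, IsCompl (d.Bd x) (d.inv.Bd x) ∧
      (∀ v ∈ d.Bd x, ∀ n, ‖d.word x (ids (V m)) n v‖ ≤ C₇ * ρ⁻¹ ^ n * ‖v‖) ∧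
      ∀ w ∈ d.inv.Bd x, ∀ n, ‖d.inv.word x (ids (V m)) n w‖ ≤ C₇ * ρ⁻¹ ^ n * ‖w‖ := by
  classical
  have hΛ := d.one_le
  have hδ := D.hδ
  have hρ := D.hρ
  have hε : 0 < ε := hδ.trans D.hδε
  have hε₁ : 0 < ε₁ := D.hη.trans_le hηε₁
  have hnr : ∀ x : PX f nx G η, PX.nr N₀ x ≤ N₀ := fun x => x.nr_le N₀
  have hcl := d.cl_of_np (NP := PX.NP N₀) (nr := PX.nr N₀) (K₀ := N₀) hnr
    (fun x => by rw [D.hd.iter]; exact x.np_nr D.hG) (δ := δ) (ρ := ρ) (CJ := d.Λ * d.Λ) hδ.le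
    (by positivity) (N₁ := N₀ + 1) (near' := fun x y => dist y.arr x.pt < min ε ε₁)
    (fun x n hnp hx hn => D.one hx hnp hn)
    (fun x y p l hnx hny hxy hyx hp hl e₁ e₂ he₁ he₂ i j hi =>
      D.two hxy hyx hnx hny hp hl he₁ he₂ hi)
    (fun x y n n' hnx hny hx hxy hn hn' hnear => by
      obtain ⟨J, hJ⟩ := D.three hDm hx hxy hnx hny hn hn' hnear
      exact ⟨J, hJ.le, hJ.ge, hJ.hl, hJ.l1, hJ.l2⟩)
  -- the colours
  obtain ⟨t, ht, hcov⟩ := Metric.totallyBounded_iff.1 (isCompact_univ (X := M)).totallyBounded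
    (min ε ε₁ / 2) (by positivity)
  have hcov' : ∀ x : M, ∃ y : t, dist x y < min ε ε₁ / 2 := by
    intro x
    obtain ⟨y, hy, hxy⟩ := Set.mem_iUnion₂.1 (hcov (Set.mem_univ x))
    exact ⟨⟨y, hy⟩, hxy⟩
  choose col0 hcol0 using hcov'
  have : Finite t := ht
  have : Fintype t := Fintype.ofFinite t
  let nrm : PX f nx G η → PX f nx G η := fun x => PX.nxt^[PX.nr N₀ x] x
  let cls : PX f nx G η → t ⊕ ι := fun x =>
    if (nrm x).i = 0 then Sum.inr (nrm x).j else Sum.inl (col0 (nrm x).pt)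
  let C := Fin (N₀ + 1) × (t ⊕ ι)
  let col : PX f nx G η → C := fun x => (⟨PX.nr N₀ x, Nat.lt_succ_of_le (hnr x)⟩, cls x)
  have hB : 1 ≤ d.Λ ^ N₀ := one_le_pow₀ hΛ
  have hB2 : 1 ≤ (d.Λ ^ N₀) ^ 2 := one_le_pow₀ hB
  obtain ⟨C₇, hC₇, hu⟩ := hcl.uniform (by positivity)
    ((div_le_one (by positivity)).2 (hδ1.trans hB2)) hρ (by nlinarith) (K := Fintype.card C)
    (fun x => Fintype.equivFin C (col x)) fun x y hxy => by
      have h1 : col x = col y := (Fintype.equivFin C).injective hxy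
      have h2 : PX.nr N₀ x = PX.nr N₀ y := congrArg (fun q : C => (q.1 : ℕ)) h1
      have h3 : cls x = cls y := congrArg Prod.snd h1
      refine ⟨h2, ?_⟩
      rintro ⟨s, hs⟩
      rw [D.hd.iter] at hs
      rw [D.hd.iter, D.hd.iter]
      obtain ⟨z1, z2⟩ := x.iter_zl s
      rw [hs] at z1 z2
      obtain ⟨x1, x2⟩ := x.iter_zl (PX.nr N₀ x)
      obtain ⟨y1, y2⟩ := y.iter_zl (PX.nr N₀ y)
      by_cases hx0 : (nrm x).i = 0
      · by_cases hy0 : (nrm y).i = 0
        · have h4 : cls x = Sum.inr (nrm x).j := if_pos hx0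
          have h5 : cls y = Sum.inr (nrm y).j := if_pos hy0
          rw [h4, h5] at h3
          have h6 : (nrm x).j = (nrm y).j := Sum.inr.inj h3
          have h7 : nrm x = nrm y := PX.ext (by
              show (PX.nxt^[PX.nr N₀ x] x).z = (PX.nxt^[PX.nr N₀ y] y).z
              rw [x1, y1, z1]) (by
              show (PX.nxt^[PX.nr N₀ x] x).ℓ = (PX.nxt^[PX.nr N₀ y] y).ℓ
              rw [x2, y2, z2]) h6 (hx0.trans hy0.symm)
          show dist (nrm y).arr (nrm x).pt < min ε ε₁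
          rw [h7]
          exact ((nrm y).dist_arr D.hη).trans_le (le_min D.hηε hηε₁)
        · have h4 : cls x = Sum.inr (nrm x).j := if_pos hx0
          have h5 : cls y = Sum.inl (col0 (nrm y).pt) := if_neg hy0
          rw [h4, h5] at h3
          exact absurd h3 (by simp)
      · by_cases hy0 : (nrm y).i = 0
        · have h4 : cls x = Sum.inl (col0 (nrm x).pt) := if_neg hx0
          have h5 : cls y = Sum.inr (nrm y).j := if_pos hy0
          rw [h4, h5] at h3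
          exact absurd h3 (by simp)
        · have h4 : cls x = Sum.inl (col0 (nrm x).pt) := if_neg hx0
          have h5 : cls y = Sum.inl (col0 (nrm y).pt) := if_neg hy0
          rw [h4, h5] at h3
          have h6 : col0 (nrm x).pt = col0 (nrm y).pt := Sum.inl.inj h3
          have h7 := hcol0 (nrm x).pt
          have h8 := hcol0 (nrm y).pt
          rw [← h6] at h8
          show dist (nrm y).arr (nrm x).pt < min ε ε₁
          rw [PX.arr_eq (Nat.pos_of_ne_zero hy0)]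
          calc dist (nrm y).pt (nrm x).pt ≤ dist (nrm y).pt (col0 (nrm x).pt) +
                dist (nrm x).pt (col0 (nrm x).pt) := dist_triangle_right _ _ _
            _ < min ε ε₁ := by linarith
  refine ⟨C₇, hC₇, fun x => ?_⟩
  obtain ⟨n, hn, hx⟩ := x.periodic
  exact hu x n hn (by rw [D.hd.iter]; exact hx)

end

end Pool.Agent.H245.SH
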