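import Pool.Agent.H245.SH.Y7

/-!
# The points on closed pseudo-orbits with boundedly many jumps form a hyperbolic set
-/

set_option autoImplicit false
set_option linter.unusedSectionVars false

open scoped Manifold ContDiff Topology NNReal
open Filter Set Metric

universe u v w

namespace Pool.Agent.H245.SH

open Pool.Agent.H718R2.G Pool.Agent.W564.SC Pool.Agent.TH80.OMS

/-- Subspaces of the same dimension have limits along ultrafilters. -/
theorem lim_sub {m : ℕ} {α : Type} (U : Ultrafilter α) {k : ℕ} {S : α → Submodule ℝ (V m)}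
    (hd : ∀ᶠ a in (U : Filter α), Module.finrank ℝ (S a) = k) :
    ∃ S₀ : Submodule ℝ (V m), Module.finrank ℝ S₀ = k ∧
      ∀ v ∈ S₀, ∃ w : α → V m, (∀ᶠ a in (U : Filter α), w a ∈ S a) ∧ Tendsto w U (𝓝 v) := by
  classical
  have h1 : ∀ a, ∃ b : Fin k → V m, Module.finrank ℝ (S a) = k → Orthonormal ℝ b ∧ ∀ j, b j ∈ S a := by
    intro a
    by_cases ha : Module.finrank ℝ (S a) = k
    · let bb := (stdOrthonormalBasis ℝ (S a)).reindex (finCongr ha)
      exact ⟨fun j => (bb j : V m), fun _ =>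
        ⟨bb.orthonormal.comp_linearIsometry (S a).subtypeₗᵢ, fun j => (bb j).2⟩⟩
    · exact ⟨0, fun h => absurd h ha⟩
  choose b hb using h1
  have hb' : ∀ᶠ a in (U : Filter α), Orthonormal ℝ (b a) ∧ ∀ j, b a j ∈ S a := by
    filter_upwards [hd] with a ha
    exact hb a ha
  obtain ⟨β, hβ, hlim⟩ := (compact_ortho m k).ultrafilter_le_nhds (U.map b) (by
    rw [le_principal_iff]
    have : ∀ᶠ a in (U : Filter α), b a ∈ {b : Fin k → V m | Orthonormal ℝ b} := by
      filter_upwards [hb'] with a ha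
      exact ha.1
    exact this)
  have hlim' : Tendsto b U (𝓝 β) := hlim
  refine ⟨Submodule.span ℝ (Set.range β), ?_, fun v hv => ?_⟩
  · rw [finrank_span_eq_card (Orthonormal.linearIndependent hβ), Fintype.card_fin]
  · obtain ⟨a, ha⟩ := (Submodule.mem_span_range_iff_exists_fun ℝ).1 hv
    refine ⟨fun x => ∑ j, a j • b x j, ?_, ?_⟩
    · filter_upwards [hb'] with x hx
      exact Submodule.sum_mem _ fun j _ => Submodule.smul_mem _ _ (hx.2 j)
    · rw [← ha]
      refine tendsto_finsetSum _ fun j _ => ?_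
      exact ((continuous_apply j).tendsto β |>.comp hlim').const_smul (a j)

theorem lim_le {m : ℕ} {α : Type} {U : Ultrafilter α} {S : α → Submodule ℝ (V m)}
    {v : V m} {w : α → V m} (hw : ∀ᶠ a in (U : Filter α), w a ∈ S a) (hv : Tendsto w U (𝓝 v))
    {P Q : V m →L[ℝ] V m} {κ : ℝ}
    (h : ∀ᶠ a in (U : Filter α), ∀ u ∈ S a, ‖P u‖ ≤ κ * ‖Q u‖) : ‖P v‖ ≤ κ * ‖Q v‖ := by
  refine le_of_tendsto_of_tendsto (b := (U : Filter α)) ((P.continuous.norm.tendsto v).comp hv)
    ((Q.continuous.norm.tendsto v).comp hv |>.const_mul κ) ?_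
  filter_upwards [hw, h] with a h1 h2
  exact h2 _ h1

namespace PX

variable {M : Type v} [MetricSpace M] {f : M → M} {ι : Type} {nx : ι ≃ ι} {G : ℕ} {η : ℝ}

/-- an earlier position in the same segment -/
def bk (x : PX f nx G η) (n : ℕ) : PX f nx G η :=
  { x with i := x.i - n, hi := Nat.lt_of_le_of_lt (Nat.sub_le _ _) x.hi }

theorem nxt_bk {x : PX f nx G η} {n : ℕ} (h : n ≤ x.i) : nxt^[n] (x.bk n) = x := by
  have hi := x.hi
  have h1 : (x.bk n).i + n < (x.bk n).ℓ (x.bk n).j := by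
    show x.i - n + n < x.ℓ x.j
    omega
  obtain ⟨k1, k2, k3, k4⟩ := iter_lt n (x.bk n) h1
  refine PX.ext k1 k2 k3 (k4.trans ?_)
  show x.i - n + n = x.i
  omega

end PX

section

variable {m : ℕ} {M : Type v} [MetricSpace M] [CompactSpace M] [ChartedSpace (V m) M]
  [IsManifold (𝓡 m) ∞ M]

/-- the points on closed pseudo-orbits, arbitrarily far from the jumps -/
def BR (f : M → M) {ι : Type} (nx : ι ≃ ι) (G : ℕ) (η : ℝ) : Set M :=
  {w | ∀ L : ℕ, ∃ x : PX f nx G η, L ≤ x.i ∧ x.i + L < x.ℓ x.j ∧ x.pt = w}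

variable {A : FAtlas m M} {f : M → M} {ι : Type} {nx : ι ≃ ι} {G : ℕ}
  {η : ℝ} {d : Coc (PX f nx G η) (V m)} {c : Coc M (V m)}

theorem br_inv (hf : Function.Injective f) (w : M) : f w ∈ BR f nx G η ↔ w ∈ BR f nx G η := by
  constructor
  · intro h L
    obtain ⟨x, h1, h2, h3⟩ := h (L + 1)
    have h4 := PX.nxt_bk (x := x) (n := 1) (by omega)
    have h5 : (x.bk 1).i + 1 < (x.bk 1).ℓ (x.bk 1).j := by
      show x.i - 1 + 1 < x.ℓ x.j
      omega
    refine ⟨x.bk 1, ?_, ?_, ?_⟩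
    · show L ≤ x.i - 1
      omega
    · show x.i - 1 + L < x.ℓ x.j
      omega
    · apply hf
      rw [← PX.pt_nxt_lt h5, ← h3]
      exact congrArg PX.pt h4
  · intro h L
    obtain ⟨x, h1, h2, h3⟩ := h (L + 1)
    have h5 : x.i + 1 < x.ℓ x.j := by omega
    refine ⟨x.nxt, ?_, ?_, ?_⟩
    · rw [PX.nxt_lt h5]
      show L ≤ x.i + 1
      omega
    · rw [PX.nxt_lt h5]
      show x.i + 1 + L < x.ℓ x.j
      omega
    · rw [PX.pt_nxt_lt h5, h3]

/-- backwards, within a segment the words are those of the derivative -/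
theorem IsPc.inv_word (hd : IsPc A d) (hc : IsDc A f c) {x : PX f nx G η} {n : ℕ}
    (h : n ≤ x.i) (v : V m) :
    d.inv.word x (ids (V m)) n v = c.inv.word x.pt (ids (V m)) n v := by
  have hi := x.hi
  have h1 : d.f^[n] (x.bk n) = x := by rw [hd.iter]; exact PX.nxt_bk h
  have h2 : d.f.symm^[n] x = x.bk n := by
    have h := (Function.LeftInverse.iterate d.f.symm_apply_apply n) (x.bk n)
    rwa [h1] at h
  have h3 : (x.bk n).i + n < (x.bk n).ℓ (x.bk n).j := by
    show x.i - n + n < x.ℓ x.j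
    omega
  have h4 : c.f^[n] (x.bk n).pt = x.pt := by
    rw [hc.iter, ← PX.pt_iter_lt h3]
    exact congrArg PX.pt (PX.nxt_bk h)
  have h5 : c.f.symm^[n] x.pt = (x.bk n).pt := by
    have h := (Function.LeftInverse.iterate c.f.symm_apply_apply n) (x.bk n).pt
    rwa [h4] at h
  have h6 := d.inv_word_cancel x n v
  have h7 := c.inv_word_cancel x.pt n v
  rw [h2, hd.word_lt hc h3] at h6
  rw [h5] at h7
  exact (c.word (x.bk n).pt (ids (V m)) n).injective (h6.trans h7.symm)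

theorem br_split (hd : IsPc A d) (hc : IsDc A f c) {C q : ℝ} (hq0 : 0 < q) (hq1 : q < 1)
    (hC : 1 ≤ C) (hu : ∀ x : PX f nx G η, IsCompl (d.Bd x) (d.inv.Bd x) ∧
      (∀ v ∈ d.Bd x, ∀ n, ‖d.word x (ids (V m)) n v‖ ≤ C * q ^ n * ‖v‖) ∧
      ∀ w ∈ d.inv.Bd x, ∀ n, ‖d.inv.word x (ids (V m)) n w‖ ≤ C * q ^ n * ‖w‖) {w : M}
    (hw : w ∈ BR f nx G η) : IsCompl (c.Bd w) (c.inv.Bd w) ∧
      (∀ v ∈ c.Bd w, ∀ n, ‖c.word w (ids (V m)) n v‖ ≤ C * q ^ n * ‖v‖) ∧
      ∀ v ∈ c.inv.Bd w, ∀ n, ‖c.inv.word w (ids (V m)) n v‖ ≤ C * q ^ n * ‖v‖ := by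
  choose x hx1 hx2 hx3 using hw
  obtain ⟨U, hU⟩ : ∃ U : Ultrafilter ℕ, (U : Filter ℕ) ≤ atTop :=
    ⟨Ultrafilter.of atTop, Ultrafilter.of_le _⟩
  have hge : ∀ n : ℕ, ∀ᶠ L in (U : Filter ℕ), n ≤ L := fun n => hU (eventually_ge_atTop n)
  obtain ⟨k, hk⟩ := ultra_const U (fun L => Module.finrank ℝ (d.Bd (x L))) (B := m) (fun L => by
    have := Submodule.finrank_le (d.Bd (x L))
    simpa using this)
  have hVm : Module.finrank ℝ (V m) = m := by simp
  have hk' : ∀ᶠ L in (U : Filter ℕ), Module.finrank ℝ (d.inv.Bd (x L)) = m - k := by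
    filter_upwards [hk] with L h1
    have h3 := Submodule.finrank_add_eq_of_isCompl (hu (x L)).1
    omega
  have hkm : k ≤ m := by
    obtain ⟨L, hL⟩ := hk.exists
    rw [← hL]
    have := Submodule.finrank_le (d.Bd (x L))
    simpa using this
  obtain ⟨Ws, hWs, s1⟩ := lim_sub U hk
  obtain ⟨Wu, hWu, u1⟩ := lim_sub U hk'
  have word1 : ∀ n L, n ≤ L → ∀ v, d.word (x L) (ids (V m)) n v = c.word w (ids (V m)) n v := by
    intro n L hn v
    have h1 := hx1 L
    have h2 := hx2 L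
    rw [hd.word_lt hc (by omega), hx3]
  have word2 : ∀ n L, n ≤ L → ∀ v, d.inv.word (x L) (ids (V m)) n v =
      c.inv.word w (ids (V m)) n v := by
    intro n L hn v
    have h1 := hx1 L
    rw [hd.inv_word hc (by omega), hx3]
  have iiw : ∀ (x : PX f nx G η) (n : ℕ) (v : V m), d.inv.inv.word x (ids (V m)) n v =
      d.word x (ids (V m)) n v := by
    intro x n v
    induction n with
    | zero => rfl
    | succ n ih =>
      rw [Coc.word_ids_succ', Coc.word_ids_succ', ih]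
      have h1 : ∀ y : PX f nx G η, d.inv.inv.A y = d.A y := by
        intro y
        show ((d.A (d.f.symm (d.f y))).symm).symm = d.A y
        rw [Equiv.symm_apply_apply]
        rfl
      rw [h1]
      rfl
  -- fast estimates
  have fast : ∀ y : PX f nx G η, ∀ v ∈ d.Bd y, ∀ n,
      ‖v‖ ≤ C * q ^ n * ‖d.inv.word y (ids (V m)) n v‖ := fun y v hv n =>
    Coc.fast_of_slow (c := d) (P := univ) (fun _ _ => mem_univ _) (fun y _ => (hu y).2.1)
      (mem_univ y) hv n
  have fast' : ∀ y : PX f nx G η, ∀ v ∈ d.inv.Bd y, ∀ n,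
      ‖v‖ ≤ C * q ^ n * ‖d.word y (ids (V m)) n v‖ := fun y v hv n => by
    rw [← iiw]
    exact Coc.fast_of_slow (c := d.inv) (P := univ) (fun _ _ => mem_univ _)
      (fun y _ => (hu y).2.2) (mem_univ y) hv n
  refine Coc.split_of (c := c) (x := w) (Ws := Ws) (Wu := Wu) (C := C) (by linarith) hq0 hq1 ?_
    (fun v hv n => ?_) (fun v hv n => ?_) (fun v hv n => ?_) (fun v hv n => ?_)
  · rw [hWs, hWu]
    omega
  · obtain ⟨g, hg, hgl⟩ := s1 v hv
    refine lim_le (P := (c.word w (ids (V m)) n : V m →L[ℝ] V m))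
      (Q := ContinuousLinearMap.id ℝ (V m)) hg hgl ?_
    filter_upwards [hge n] with L hL u hu'
    show ‖c.word w (ids (V m)) n u‖ ≤ C * q ^ n * ‖u‖
    rw [← word1 n L hL]
    exact (hu (x L)).2.1 u hu' n
  · obtain ⟨g, hg, hgl⟩ := s1 v hv
    refine lim_le (P := ContinuousLinearMap.id ℝ (V m))
      (Q := (c.inv.word w (ids (V m)) n : V m →L[ℝ] V m)) hg hgl ?_
    filter_upwards [hge n] with L hL u hu'
    show ‖u‖ ≤ C * q ^ n * ‖c.inv.word w (ids (V m)) n u‖
    rw [← word2 n L hL]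
    exact fast (x L) u hu' n
  · obtain ⟨g, hg, hgl⟩ := u1 v hv
    refine lim_le (P := (c.inv.word w (ids (V m)) n : V m →L[ℝ] V m))
      (Q := ContinuousLinearMap.id ℝ (V m)) hg hgl ?_
    filter_upwards [hge n] with L hL u hu'
    show ‖c.inv.word w (ids (V m)) n u‖ ≤ C * q ^ n * ‖u‖
    rw [← word2 n L hL]
    exact (hu (x L)).2.2 u hu' n
  · obtain ⟨g, hg, hgl⟩ := u1 v hv
    refine lim_le (P := ContinuousLinearMap.id ℝ (V m))
      (Q := (c.word w (ids (V m)) n : V m →L[ℝ] V m)) hg hgl ?_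
    filter_upwards [hge n] with L hL u hu'
    show ‖u‖ ≤ C * q ^ n * ‖c.word w (ids (V m)) n u‖
    rw [← word1 n L hL]
    exact fast' (x L) u hu' n

end

end Pool.Agent.H245.SH
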