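import Pool.Agent.H245.SH.Y8
import Pool.Agent.H245.SH.T1

/-!
# The points on cycles are limits of periodic points
-/

set_option autoImplicit false
set_option linter.unusedSectionVars false

open scoped Manifold ContDiff Topology NNReal
open Filter Set Metric

universe u v w

namespace Pool.Agent.H245.SH

open Pool.Agent.H718R2.G Pool.Agent.W564.SC Pool.Agent.TH80.OMS

/-- Points `w i` with connections, with arbitrarily small jumps and arbitrarily long pieces of orbits: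
from `w i` forwards to a periodic orbit, and from this periodic orbit to the backward orbit of
`w (nx i)`. -/
def CycP {X : Type v} [MetricSpace X] (f : X ≃ₜ X) {ι : Type} (nx : ι ≃ ι) (w : ι → X) : Prop :=
  ∀ η : ℝ, 0 < η → ∀ L : ℕ, ∃ n : ℕ, L ≤ n ∧ ∀ i, ∃ u ∈ Pool.Agent.H728R2.OS.Per f, ∃ l : ℕ,
    L ≤ l ∧ dist (f^[n] (w i)) u < η ∧ dist (f^[l] u) (f.symm^[n] (w (nx i))) < η

/-- the order of the segments -/
def nx2 {ι : Type} (nx : ι ≃ ι) : ι × Bool ≃ ι × Bool where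
  toFun := fun q => bif q.2 then (nx q.1, false) else (q.1, true)
  invFun := fun q => bif q.2 then (q.1, false) else (nx.symm q.1, true)
  left_inv := by
    rintro ⟨i, b⟩
    cases b
    · rfl
    · show (nx.symm (nx i), true) = (i, true)
      rw [nx.symm_apply_apply]
  right_inv := by
    rintro ⟨i, b⟩
    cases b
    · show (nx (nx.symm i), false) = (i, false)
      rw [nx.apply_symm_apply]
    · rfl

theorem exists_px {X : Type v} [MetricSpace X] {f : X ≃ₜ X} {ι : Type} {nx : ι ≃ ι} {w : ι → X}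
    (h : CycP f nx w) (G : ℕ) {η : ℝ} (hη : 0 < η) (L : ℕ) (i₀ : ι) :
    ∃ x : PX (f : X → X) (nx2 nx) G η, L ≤ x.i ∧ x.i + L < x.ℓ x.j ∧ x.pt = w i₀ ∧
      ∀ j, x.z j ∈ Pool.Agent.H728R2.OS.Per f ∨ ∃ (n : ℕ) (i : ι), f^[n] (x.z j) = w i := by
  obtain ⟨n, hn, hc⟩ := h η hη (L + G + 1)
  choose u hu l hl h1 h2 using hc
  have hback : ∀ i, f^[n] (f.symm^[n] (w i)) = w i := fun i =>
    (Function.LeftInverse.iterate (f.apply_symm_apply) n) (w i)
  refine ⟨{
    z := fun q => bif q.2 then u q.1 else f.symm^[n] (w q.1)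
    ℓ := fun q => bif q.2 then l q.1 else 2 * n
    j := (i₀, false)
    i := n
    hℓ := ?_
    hη := ?_
    hi := ?_ }, ?_, ?_, hback i₀, ?_⟩
  · rintro ⟨i, b⟩
    cases b
    · show G + 1 ≤ 2 * n
      omega
    · show G + 1 ≤ l i
      have := hl i
      omega
  · rintro ⟨i, b⟩
    cases b
    · show dist (f^[2 * n] (f.symm^[n] (w i))) (u i) < η
      rw [two_mul, Function.iterate_add_apply, hback]
      exact h1 i
    · exact h2 i
  · show n < 2 * n
    omega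
  · show L ≤ n
    omega
  · show n + L < 2 * n
    omega
  · rintro ⟨i, b⟩
    cases b
    · exact Or.inr ⟨n, i, hback i⟩
    · exact Or.inl (hu i)

/-- periodic points lie on closed pseudo-orbits -/
theorem per_br {X : Type v} [MetricSpace X] {f : X ≃ₜ X} {ι : Type} [Nonempty ι] (nx : ι ≃ ι)
    (G : ℕ) {η : ℝ} (hη : 0 < η) {p : X} (hp : p ∈ Pool.Agent.H728R2.OS.Per f) :
    p ∈ BR (f : X → X) nx G η := by
  intro L
  obtain ⟨n, hn, hp⟩ := hp
  have hmul : ∀ k, f^[n * k] p = p := fun k => by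
    rw [Function.iterate_mul]
    exact Function.iterate_fixed hp k
  have hk : L + G + 1 ≤ n * (L + G + 1) := Nat.le_mul_of_pos_left _ hn
  refine ⟨{
    z := fun _ => p
    ℓ := fun _ => n * (2 * (L + G + 1))
    j := Classical.arbitrary ι
    i := n * (L + G + 1)
    hℓ := ?_
    hη := ?_
    hi := ?_ }, ?_, ?_, hmul _⟩
  · intro _
    show G + 1 ≤ n * (2 * (L + G + 1))
    nlinarith
  · intro _
    show dist (f^[n * (2 * (L + G + 1))] p) p < η
    rw [hmul, dist_self]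
    exact hη
  · show n * (L + G + 1) < n * (2 * (L + G + 1))
    nlinarith
  · show L ≤ n * (L + G + 1)
    omega
  · show n * (L + G + 1) + L < n * (2 * (L + G + 1))
    nlinarith

section

variable {m : ℕ} {M : Type v} [MetricSpace M] [CompactSpace M] [ChartedSpace (V m) M]
  [IsManifold (𝓡 m) ∞ M]

/-- periodic points near the chain recurrent points of hyperbolic sets -/
theorem per_of_chain {r : ℕ∞} (hr : 1 ≤ r) (f : DiffM m M r) {Λ : Set M}
    (h : Q263.HS.IsHyp (V m) f.toHomeomorph Λ) {z : M}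
    (hz : ∀ η : ℝ, 0 < η → ∃ (n : ℕ) (q : ℕ → M), 0 < n ∧ q 0 = z ∧ q n = z ∧ (∀ k, q k ∈ Λ) ∧
      ∀ k < n, dist (f.toHomeomorph (q k)) (q (k + 1)) < η) :
    z ∈ closure (Pool.Agent.H728R2.OS.Per f.toHomeomorph) := by
  have hz' : Q263.HR.ChainRec f.toHomeomorph Λ z := by
    intro V hV hd
    have h1 : V ∈ uniformity M := by
      rw [compactSpace_uniformity]
      simp only [mem_iSup]
      exact fun x => hV.mem_nhds (hd x)
    obtain ⟨η, hη, h2⟩ := Metric.mem_uniformity_dist.1 h1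
    obtain ⟨n, q, hn, h0, h3, h4, h5⟩ := hz η hη
    exact ⟨n, q, hn, h0, h3, h4, fun k hk => h2 (h5 k hk)⟩
  rw [mem_closure_iff_nhds]
  intro U hU
  have hact : Q263.HS.IsAct (V m) (fun (_ : V 0) (x : M) => x) :=
    ⟨fun _ => rfl, fun _ _ _ => rfl, contMDiff_snd⟩
  obtain ⟨y, hy, k, T, hk, -, hT, -⟩ := Q263.HS.relper Q263.HR.tr Pool.Agent.Q223.HS.fl
    Q263.HS.ang Pool.Agent.Q223.HS.cont Q263.HS.low Q263.HR.chain f.toHomeomorph
    (f.contMDiff.of_le (by exact_mod_cast hr)) (f.symm.contMDiff.of_le (by exact_mod_cast hr))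
    hact (fun _ _ => rfl) h.trans z hz' U hU 1 one_pos
  exact ⟨y, hy, k, hk, hT⟩

/-- **The points on cycles are limits of periodic points.** -/
theorem cyc_mem {r : ℕ∞} (hr : 2 ≤ r) (f : DiffM m M r)
    (H : ∀ (T : ℕ) (A : FAtlas m M), ∃ (N₀ : ℕ) (ε ρ : ℝ), 0 < ε ∧ 1 < ρ ∧ KStarT T A f N₀ ε ρ)
    {ι : Type} [Finite ι] {nx : ι ≃ ι} {w : ι → M} (hw : CycP f.toHomeomorph nx w) (i₀ : ι) :
    w i₀ ∈ closure (Pool.Agent.H728R2.OS.Per f.toHomeomorph) := by
  have hr1 : (1 : ℕ∞) ≤ r := le_trans (by norm_num) hr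
  have : Fintype ι := Fintype.ofFinite ι
  have : Nonempty (ι × Bool) := ⟨(i₀, true)⟩
  obtain ⟨A⟩ := exists_fatlas m M
  obtain ⟨c, ε₁, hcf, hcA, hε₁, hDm⟩ := exists_dc A hr f
  obtain ⟨N₀, ε, ρ, hε, hρ, hst⟩ := H (Fintype.card (ι × Bool) + 3) A
  obtain ⟨G, hG⟩ : ∃ G, G = 2 * N₀ + 1 := ⟨_, rfl⟩
  obtain ⟨η, hη⟩ : ∃ η, η = min ε ε₁ := ⟨_, rfl⟩
  have hη0 : 0 < η := by rw [hη]; exact lt_min hε hε₁
  have hηε : η ≤ ε := by rw [hη]; exact min_le_left _ _
  have hηε₁ : η ≤ ε₁ := by rw [hη]; exact min_le_right _ _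
  obtain ⟨δ, hδ, hδ1, hδε⟩ : ∃ δ : ℝ, 0 < δ ∧ δ ≤ 1 ∧ δ < ε :=
    ⟨min 1 (ε / 2), by positivity, min_le_left _ _, (min_le_right _ _).trans_lt (by linarith)⟩
  have hc : IsDc A (f.toHomeomorph : M → M) c := ⟨hcf, hcA⟩
  obtain ⟨d, hd, hdΛ⟩ := exists_pc A (f := (f.toHomeomorph : M → M)) c.one_le hDm (nx2 nx) G hη0
    hηε₁
  have D : Dat A d c N₀ ε ρ δ := ⟨hd, hc, hG.ge, hst, hρ, hδ, hδε, hη0, hηε⟩
  obtain ⟨C₇, hC₇, hu⟩ := D.uniform hδ1 hηε₁ (by rw [hdΛ]; exact hDm)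
  have hinj : Function.Injective (f.toHomeomorph : M → M) := f.toHomeomorph.injective
  have hBR : ∀ x, c.f x ∈ BR (f.toHomeomorph : M → M) (nx2 nx) G η ↔
      x ∈ BR (f.toHomeomorph : M → M) (nx2 nx) G η := fun x => by
    rw [hcf]
    exact br_inv hinj x
  have hhyp := closure_hyp A hr1 f c hcf hcA hBR (inv_pos.2 (by linarith))
    (inv_lt_one_of_one_lt₀ hρ) hC₇ (fun x hx => br_split hd hc (inv_pos.2 (by linarith))
      (inv_lt_one_of_one_lt₀ hρ) hC₇ hu hx)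
  have hiter : ∀ (n : ℕ) (x : M), f.toHomeomorph^[n] x ∈ BR (f.toHomeomorph : M → M) (nx2 nx) G η ↔
      x ∈ BR (f.toHomeomorph : M → M) (nx2 nx) G η := by
    intro n
    induction n with
    | zero => exact fun x => Iff.rfl
    | succ n ih =>
      intro x
      rw [Function.iterate_succ_apply', br_inv hinj, ih]
  have hwBR : ∀ i, w i ∈ BR (f.toHomeomorph : M → M) (nx2 nx) G η := by
    intro i L
    obtain ⟨x, h1, h2, h3, -⟩ := exists_px hw G hη0 L i
    exact ⟨x, h1, h2, h3⟩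
  refine per_of_chain hr1 f hhyp fun η' hη' => ?_
  obtain ⟨x, -, -, h3, h4⟩ := exists_px hw G hη' 0 i₀
  obtain ⟨n, hn, hx⟩ := x.periodic
  refine ⟨n, fun k => (PX.nxt^[k] x).pt, hn, h3, by
    show (PX.nxt^[n] x).pt = w i₀
    rw [hx, h3], fun k => subset_closure ?_, fun k _ => ?_⟩
  · have h5 : (PX.nxt^[k] x).z = x.z := (x.iter_zl k).1
    show f.toHomeomorph^[(PX.nxt^[k] x).i] ((PX.nxt^[k] x).z (PX.nxt^[k] x).j) ∈ _
    rw [hiter, h5]
    rcases h4 (PX.nxt^[k] x).j with h6 | ⟨n', i, h6⟩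
    · exact per_br (nx2 nx) G hη0 h6
    · rw [← hiter n', h6]
      exact hwBR i
  · show dist (f.toHomeomorph (PX.nxt^[k] x).pt) (PX.nxt^[k + 1] x).pt < η'
    rw [Function.iterate_succ_apply']
    exact PX.dist_nxt hη' _

end

end Pool.Agent.H245.SH
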